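import Pool.Agent.H244.Loc

set_option autoImplicit false
set_option linter.unusedSectionVars false

open Set Filter Topology Metric
open scoped Manifold ContDiff

namespace Pool.Agent.H244.Loc

open Pool.Agent.H721R2 Pool.Agent.H789R2.AN Pool.Agent.H244.Tube

theorem perm_inv {ι : Type*} (σ : Equiv.Perm ι) (i : ι) : σ (σ⁻¹ i) = i :=
  Equiv.apply_symm_apply σ i

variable {E : Type*} [NormedAddCommGroup E] [NormedSpace ℝ E] [FiniteDimensional ℝ E]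
  {M : Type*} [MetricSpace M] [CompactSpace M] [ChartedSpace E M] [IsManifold 𝓘(ℝ, E) 1 M]
  {F : Type*} [NormedAddCommGroup F] [NormedSpace ℝ F]
  {e : M → F} (he : ContMDiff 𝓘(ℝ, E) 𝓘(ℝ, F) 1 e) (hinj : ∀ x, Function.Injective (dm E e x))

include he hinj

theorem Pj_D (π : M → E →L[ℝ] E) {j : M} {y : E} (hy : y ∈ (extChartAt 𝓘(ℝ, E) j).target)
    (v : E) : Pj π j y (dm E (extChartAt 𝓘(ℝ, E) j) ((extChartAt 𝓘(ℝ, E) j).symm y) v) =
      dm E (extChartAt 𝓘(ℝ, E) j) ((extChartAt 𝓘(ℝ, E) j).symm y)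
        (π ((extChartAt 𝓘(ℝ, E) j).symm y) v) := by
  have hD := Dc_inj he hinj ((extChartAt 𝓘(ℝ, E) j).map_target hy)
  show dm E (extChartAt 𝓘(ℝ, E) j) ((extChartAt 𝓘(ℝ, E) j).symm y)
    (π ((extChartAt 𝓘(ℝ, E) j).symm y)
      ((dm E (extChartAt 𝓘(ℝ, E) j) ((extChartAt 𝓘(ℝ, E) j).symm y)).inverse
        (dm E (extChartAt 𝓘(ℝ, E) j) ((extChartAt 𝓘(ℝ, E) j).symm y) v))) = _
  rw [inv_left hD]

theorem exists_D {j : M} {y : E} (hy : y ∈ (extChartAt 𝓘(ℝ, E) j).target) (w : E) :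
    ∃ v, dm E (extChartAt 𝓘(ℝ, E) j) ((extChartAt 𝓘(ℝ, E) j).symm y) v = w :=
  ⟨_, inv_right (Dc_inj he hinj ((extChartAt 𝓘(ℝ, E) j).map_target hy)) w⟩

omit hinj in
theorem A_D {j : M} {y : E} (hy : y ∈ (extChartAt 𝓘(ℝ, E) j).target) (v : E) :
    fderiv ℝ (hatMap e j) y (dm E (extChartAt 𝓘(ℝ, E) j) ((extChartAt 𝓘(ℝ, E) j).symm y) v) =
      dm E e ((extChartAt 𝓘(ℝ, E) j).symm y) v := by
  have h := hatMap_mfderiv e he j _ ((extChartAt 𝓘(ℝ, E) j).map_target hy) v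
  rw [(extChartAt 𝓘(ℝ, E) j).right_inv hy] at h
  exact h.symm

theorem Pj_proj {π : M → E →L[ℝ] E} {Es Eu : M → Submodule ℝ E} (hπ : IsPi π Es Eu) {j : M}
    {y : E} (hy : y ∈ (extChartAt 𝓘(ℝ, E) j).target) (w : E) :
    Pj π j y (Pj π j y w) = Pj π j y w := by
  obtain ⟨v, rfl⟩ := exists_D he hinj hy w
  rw [Pj_D he hinj π hy, Pj_D he hinj π hy, hπ.s _ _ (hπ.ms _ _)]

theorem Pj_fix {π : M → E →L[ℝ] E} {Es Eu : M → Submodule ℝ E} (hπ : IsPi π Es Eu) {j : M}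
    {y : E} (hy : y ∈ (extChartAt 𝓘(ℝ, E) j).target) (v : E)
    (h : Pj π j y (dm E (extChartAt 𝓘(ℝ, E) j) ((extChartAt 𝓘(ℝ, E) j).symm y) v) =
      dm E (extChartAt 𝓘(ℝ, E) j) ((extChartAt 𝓘(ℝ, E) j).symm y) v) :
    v ∈ Es ((extChartAt 𝓘(ℝ, E) j).symm y) := by
  rw [Pj_D he hinj π hy] at h
  have := Dc_inj he hinj ((extChartAt 𝓘(ℝ, E) j).map_target hy) h
  rw [← this]
  exact hπ.ms _ _

theorem Pj_ker {π : M → E →L[ℝ] E} {Es Eu : M → Submodule ℝ E} (hπ : IsPi π Es Eu) {j : M}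
    {y : E} (hy : y ∈ (extChartAt 𝓘(ℝ, E) j).target) (v : E)
    (h : Pj π j y (dm E (extChartAt 𝓘(ℝ, E) j) ((extChartAt 𝓘(ℝ, E) j).symm y) v) = 0) :
    v ∈ Eu ((extChartAt 𝓘(ℝ, E) j).symm y) := by
  rw [Pj_D he hinj π hy] at h
  have h1 := Dc_inj he hinj ((extChartAt 𝓘(ℝ, E) j).map_target hy) (h.trans (map_zero _).symm)
  have h2 := hπ.mu ((extChartAt 𝓘(ℝ, E) j).symm y) v
  rwa [h1, sub_zero] at h2

/-- Continuity of the projections in a chart. -/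
theorem Pj_cont {f : M ≃ₜ M} {Es Eu : M → Submodule ℝ E} {C a b Ls Lu : ℝ}
    (h : EAnosov e f Es Eu C a b Ls Lu) {π : M → E →L[ℝ] E} (hπ : IsPi π Es Eu) {j : M}
    {s : Set E} (hs : s ⊆ (extChartAt 𝓘(ℝ, E) j).target) (hc : IsCompact s) :
    ContinuousOn (Pj π j) s := by
  obtain ⟨m, hm0, hm⟩ := A_low he hinj hs hc
  obtain ⟨K, hK, hang⟩ := h.angle he hinj
  have hθ : ContinuousOn (extChartAt 𝓘(ℝ, E) j).symm s := (continuousOn_extChartAt_symm j).mono hs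
  refine proj_cont (A_cont he hs) hm hm0 (K := K) (fun y hy w => ?_) (by linarith)
    (fun y hy w => Pj_proj he hinj hπ (hs hy) w) ?_ ?_
  · obtain ⟨v, rfl⟩ := exists_D he hinj (hs hy) w
    rw [Pj_D he hinj π (hs hy), A_D he (hs hy), A_D he (hs hy)]
    set x := (extChartAt 𝓘(ℝ, E) j).symm y with hx
    have := (hang x _ (hπ.ms x v) _ (hπ.mu x v)).1
    rwa [add_sub_cancel] at this
  · intro η hη y₀ hy₀ w hw
    obtain ⟨v, rfl⟩ := exists_D he hinj (hs hy₀) w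
    have hv := Pj_fix he hinj hπ (hs hy₀) v hw
    obtain ⟨r, hr, hcont⟩ := h.contS he hinj η hη
    have hnear : ∀ᶠ y in 𝓝[s] y₀, dist ((extChartAt 𝓘(ℝ, E) j).symm y)
        ((extChartAt 𝓘(ℝ, E) j).symm y₀) < r :=
      Metric.continuousWithinAt_iff'.mp (hθ y₀ hy₀) r hr
    filter_upwards [hnear, self_mem_nhdsWithin] with y hy hys
    obtain ⟨s', hs', hle⟩ := hcont _ ((extChartAt 𝓘(ℝ, E) j).symm y) (by rwa [dist_comm] at hy) v hv
    refine ⟨dm E (extChartAt 𝓘(ℝ, E) j) ((extChartAt 𝓘(ℝ, E) j).symm y) s', ?_, ?_⟩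
    · rw [Pj_D he hinj π (hs hys), hπ.s _ _ hs']
    · rw [A_D he (hs hys), A_D he (hs hy₀), norm_sub_rev]
      exact hle
  · intro η hη y₀ hy₀ w hw
    obtain ⟨v, rfl⟩ := exists_D he hinj (hs hy₀) w
    have hv := Pj_ker he hinj hπ (hs hy₀) v hw
    obtain ⟨r, hr, hcont⟩ := h.symm.contS he hinj η hη
    have hnear : ∀ᶠ y in 𝓝[s] y₀, dist ((extChartAt 𝓘(ℝ, E) j).symm y)
        ((extChartAt 𝓘(ℝ, E) j).symm y₀) < r :=
      Metric.continuousWithinAt_iff'.mp (hθ y₀ hy₀) r hr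
    filter_upwards [hnear, self_mem_nhdsWithin] with y hy hys
    obtain ⟨s', hs', hle⟩ := hcont _ ((extChartAt 𝓘(ℝ, E) j).symm y) (by rwa [dist_comm] at hy) v hv
    refine ⟨dm E (extChartAt 𝓘(ℝ, E) j) ((extChartAt 𝓘(ℝ, E) j).symm y) s', ?_, ?_⟩
    · rw [Pj_D he hinj π (hs hys), hπ.u _ _ hs', map_zero]
    · rw [A_D he (hs hys), A_D he (hs hy₀), norm_sub_rev]
      exact hle

omit [FiniteDimensional ℝ E] [CompactSpace M] in
omit he hinj in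
/-- one step of the derivative -/
theorem step_mem {f : M ≃ₜ M} {Es Eu : M → Submodule ℝ E} {C a b Ls Lu : ℝ}
    (h : EAnosov e f Es Eu C a b Ls Lu) (x : M) {v : E} (hv : v ∈ Es x) :
    dg E f x v ∈ Es (f x) := by
  have := h.mapS 1 x v hv
  simpa using this

omit [FiniteDimensional ℝ E] [CompactSpace M] in
omit he hinj in
theorem step_memU {f : M ≃ₜ M} {Es Eu : M → Submodule ℝ E} {C a b Ls Lu : ℝ}
    (h : EAnosov e f Es Eu C a b Ls Lu) (x : M) {v : E} (hv : v ∈ Eu x) :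
    dg E f x v ∈ Eu (f x) := by
  have := h.mapU 1 x v hv
  simpa using this

/-- The invariance of the projections. -/
theorem Pj_inv {f : M ≃ₜ M} {Es Eu : M → Submodule ℝ E} {C a b Ls Lu : ℝ}
    (h : EAnosov e f Es Eu C a b Ls Lu) {π : M → E →L[ℝ] E} (hπ : IsPi π Es Eu) {j j' : M}
    {y : E} (hy : y ∈ (extChartAt 𝓘(ℝ, E) j).target)
    (hy' : f ((extChartAt 𝓘(ℝ, E) j).symm y) ∈ (extChartAt 𝓘(ℝ, E) j').source) :
    fderiv ℝ (rep f j j') y * Pj π j y = Pj π j' (rep f j j' y) * fderiv ℝ (rep f j j') y := by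
  ext w
  show fderiv ℝ (rep f j j') y (Pj π j y w) = Pj π j' (rep f j j' y) (fderiv ℝ (rep f j j') y w)
  obtain ⟨v, rfl⟩ := exists_D he hinj hy w
  have hx := (extChartAt 𝓘(ℝ, E) j).map_target hy
  have hyx := (extChartAt 𝓘(ℝ, E) j).right_inv hy
  have hf := fun v => rep_fderiv h.smooth hx hy' v
  rw [hyx] at hf
  have hz : rep f j j' y ∈ (extChartAt 𝓘(ℝ, E) j').target := (extChartAt 𝓘(ℝ, E) j').map_source hy'
  have hzi : (extChartAt 𝓘(ℝ, E) j').symm (rep f j j' y) = f ((extChartAt 𝓘(ℝ, E) j).symm y) :=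
    (extChartAt 𝓘(ℝ, E) j').left_inv hy'
  have hP := fun v => Pj_D he hinj π hz v
  rw [hzi] at hP
  rw [Pj_D he hinj π hy, hf, hf, hP]
  congr 1
  have hv : v = π ((extChartAt 𝓘(ℝ, E) j).symm y) v + (v - π ((extChartAt 𝓘(ℝ, E) j).symm y) v) := by
    abel
  conv_rhs => rw [hv]
  rw [map_add, map_add, hπ.s _ _ (step_mem h _ (hπ.ms _ v)),
    hπ.u _ _ (step_memU h _ (hπ.mu _ v)), add_zero]

omit [FiniteDimensional ℝ E] [CompactSpace M] in
omit he hinj in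
theorem dg_inj {f : M ≃ₜ M} {Es Eu : M → Submodule ℝ E} {C a b Ls Lu : ℝ}
    (h : EAnosov e f Es Eu C a b Ls Lu) (x : M) : Function.Injective (dg E f x) := by
  intro v w hvw
  have h1 := fun v => dg_inv (E₀ := E) f f.symm h.smooth h.smooth' (fun x => f.symm_apply_apply x) x v
  rw [← h1 v, ← h1 w, hvw]

/-- Injectivity of the derivative. -/
theorem rep_inj {f : M ≃ₜ M} {Es Eu : M → Submodule ℝ E} {C a b Ls Lu : ℝ}
    (h : EAnosov e f Es Eu C a b Ls Lu) {j j' : M}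
    {y : E} (hy : y ∈ (extChartAt 𝓘(ℝ, E) j).target)
    (hy' : f ((extChartAt 𝓘(ℝ, E) j).symm y) ∈ (extChartAt 𝓘(ℝ, E) j').source) :
    Function.Injective (fderiv ℝ (rep f j j') y) := by
  have hx := (extChartAt 𝓘(ℝ, E) j).map_target hy
  have hyx := (extChartAt 𝓘(ℝ, E) j).right_inv hy
  have hf := fun v => rep_fderiv h.smooth hx hy' v
  rw [hyx] at hf
  intro w w' hww
  obtain ⟨v, rfl⟩ := exists_D he hinj hy w
  obtain ⟨v', rfl⟩ := exists_D he hinj hy w'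
  rw [hf, hf] at hww
  rw [dg_inj h _ (Dc_inj he hinj hy' hww)]

omit [FiniteDimensional ℝ E] [CompactSpace M] in
omit he hinj in
/-- Iterating a relation `v (σ i) = t Df v i`. -/
theorem iter_rel {ι : Type*} {σ : Equiv.Perm ι} {f : M ≃ₜ M} {Es Eu : M → Submodule ℝ E}
    {C a b Ls Lu : ℝ} (h : EAnosov e f Es Eu C a b Ls Lu) {p : ι → M}
    (hp : ∀ i, p (σ i) = f (p i)) {t : ℝ} {v : ι → E}
    (hv : ∀ i, v (σ i) = t • dg E f (p i) (v i)) (k : ℕ) (i : ι) :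
    p ((σ ^ k) i) = f^[k] (p i) ∧ v ((σ ^ k) i) = t ^ k • dg E (f^[k]) (p i) (v i) := by
  induction k with
  | zero =>
    refine ⟨rfl, ?_⟩
    rw [pow_zero, pow_zero, one_smul]
    show v i = mfderiv 𝓘(ℝ, E) 𝓘(ℝ, E) id (p i) (v i)
    rw [mfderiv_id]; rfl
  | succ k ih =>
    have e1 : (σ ^ (k + 1)) i = σ ((σ ^ k) i) := by rw [pow_succ', Equiv.Perm.mul_apply]
    refine ⟨?_, ?_⟩
    · rw [e1, hp, ih.1, Function.iterate_succ_apply']
    · rw [e1, hv, ih.2, ih.1, map_smul, smul_smul]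
      have : f^[k + 1] = f ∘ f^[k] := Function.iterate_succ' _ _
      rw [this, dg_comp _ _ (iter_smooth f h.smooth k) h.smooth, pow_succ']

theorem zero_s {ι : Type*} [Fintype ι] {σ : Equiv.Perm ι} {f : M ≃ₜ M}
    {Es Eu : M → Submodule ℝ E} {C a b Ls Lu : ℝ} (h : EAnosov e f Es Eu C a b Ls Lu) {p : ι → M}
    (hp : ∀ i, p (σ i) = f (p i)) {t : ℝ} (ht : t ∈ Icc (0 : ℝ) 1) {v : ι → E}
    (hvE : ∀ i, v i ∈ Es (p i)) (hv : ∀ i, v (σ i) = t • dg E f (p i) (v i)) : ∀ i, v i = 0 := by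
  rcases isEmpty_or_nonempty ι with hι | hι
  · exact fun i => hι.elim i
  obtain ⟨i₀, hi₀⟩ := Finite.exists_max (fun i => ‖dm E e (p i) (v i)‖)
  intro i
  have hC : 0 ≤ C := zero_le_one.trans h.C_pos
  have key : ∀ k : ℕ, ‖dm E e (p i) (v i)‖ ≤ C * a ^ k * ‖dm E e (p i₀) (v i₀)‖ := by
    intro k
    set i' := (σ ^ k)⁻¹ i with hi'
    have h1 := iter_rel h hp hv k i'
    have h2 : (σ ^ k) i' = i := perm_inv _ _
    rw [h2] at h1
    rw [h1.1, h1.2, map_smul, norm_smul]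
    have h3 : ‖t ^ k‖ ≤ 1 := by
      rw [norm_pow, Real.norm_of_nonneg ht.1]
      exact pow_le_one₀ ht.1 ht.2
    calc ‖t ^ k‖ * ‖dm E e (f^[k] (p i')) (dg E (f^[k]) (p i') (v i'))‖
        ≤ 1 * (C * a ^ k * ‖dm E e (p i') (v i')‖) := by
          apply mul_le_mul h3 (h.hS k _ _ (hvE i')) (norm_nonneg _) zero_le_one
      _ ≤ 1 * (C * a ^ k * ‖dm E e (p i₀) (v i₀)‖) := by
          have := h.a_pos
          gcongr; exact hi₀ i'
      _ = _ := one_mul _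
  have hlim : Tendsto (fun k : ℕ => C * a ^ k * ‖dm E e (p i₀) (v i₀)‖) atTop (𝓝 0) := by
    have := ((tendsto_pow_atTop_nhds_zero_of_lt_one h.a_pos.le h.a_lt).const_mul C).mul_const
      ‖dm E e (p i₀) (v i₀)‖
    simpa using this
  have h0 : ‖dm E e (p i) (v i)‖ ≤ 0 := ge_of_tendsto' hlim key
  have h1 : dm E e (p i) (v i) = 0 := norm_le_zero_iff.mp h0
  exact hinj _ (h1.trans (map_zero _).symm)

theorem zero_u {ι : Type*} [Fintype ι] {σ : Equiv.Perm ι} {f : M ≃ₜ M}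
    {Es Eu : M → Submodule ℝ E} {C a b Ls Lu : ℝ} (h : EAnosov e f Es Eu C a b Ls Lu) {p : ι → M}
    (hp : ∀ i, p (σ i) = f (p i)) {t : ℝ} (ht : t ∈ Icc (0 : ℝ) 1) {v : ι → E}
    (hvE : ∀ i, v i ∈ Eu (p i)) (hv : ∀ i, dg E f (p i) (v i) = t • v (σ i)) : ∀ i, v i = 0 := by
  refine zero_s he hinj h.symm (σ := σ⁻¹) (p := p) (fun i => ?_) ht hvE (fun i => ?_)
  · have h1 := hp (σ⁻¹ i)
    rw [perm_inv] at h1
    rw [h1, Homeomorph.symm_apply_apply]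
  · have h1 := hv (σ⁻¹ i)
    rw [perm_inv] at h1
    have h2 := hp (σ⁻¹ i)
    rw [perm_inv] at h2
    have h3 := dg_inv (E₀ := E) f f.symm h.smooth h.smooth' (fun x => f.symm_apply_apply x)
      (p (σ⁻¹ i)) (v (σ⁻¹ i))
    rw [h1, ← h2, map_smul] at h3
    exact h3.symm

end Pool.Agent.H244.Loc
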