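import Pool.Agent.H244.Ch

set_option autoImplicit false
set_option linter.unusedSectionVars false

open Set Filter Topology Metric
open scoped Manifold ContDiff

namespace Pool.Agent.H244.Loc

open Pool.Agent.H721R2 Pool.Agent.H789R2.AN Pool.Agent.H244.Tube Pool.Agent.H244.Deg

variable {E : Type*} [NormedAddCommGroup E] [NormedSpace ℝ E] [FiniteDimensional ℝ E]
  {M : Type*} [MetricSpace M] [CompactSpace M] [ChartedSpace E M] [IsManifold 𝓘(ℝ, E) 1 M]
  {F : Type*} [NormedAddCommGroup F] [NormedSpace ℝ F]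
  {e : M → F} (he : ContMDiff 𝓘(ℝ, E) 𝓘(ℝ, F) 1 e) (hinj : ∀ x, Function.Injective (dm E e x))

include he hinj

theorem exists_chain {f : M ≃ₜ M} {Es Eu : M → Submodule ℝ E} {C a b Ls Lu : ℝ}
    (h : EAnosov e f Es Eu C a b Ls Lu) {π : M → E →L[ℝ] E} (hπ : IsPi π Es Eu)
    {ι : Type*} [Fintype ι] {σ : Equiv.Perm ι} {j : ι → M} {c : ι → E} {r r₂ R : ℝ}
    (hr2 : r < r₂) (hrR : r₂ ≤ R)
    (hT : ∀ i, closedBall (c i) R ⊆ (extChartAt 𝓘(ℝ, E) (j i)).target)
    (hS : ∀ i, ∀ y ∈ closedBall (c i) r₂,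
      f ((extChartAt 𝓘(ℝ, E) (j i)).symm y) ∈ (extChartAt 𝓘(ℝ, E) (j (σ i))).source)
    (hR : ∀ i, ∀ y ∈ closedBall (c i) r, rep f (j i) (j (σ i)) y ∈ closedBall (c (σ i)) R) :
    ∃ G : ι → E → E, Chain σ c r R G (fun i => Pj π (j i)) ∧
      ∀ i, ∀ y ∈ closedBall (c i) r, G i y = rep f (j i) (j (σ i)) y := by
  have hsub : ∀ i, closedBall (c i) r ⊆ closedBall (c i) r₂ := fun i =>
    closedBall_subset_closedBall hr2.le
  have hsub2 : ∀ i, closedBall (c i) r₂ ⊆ closedBall (c i) R := fun i =>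
    closedBall_subset_closedBall hrR
  have hcut : ∀ i, ∃ τ : E → ℝ, ContDiff ℝ 1 τ ∧ (∀ x ∈ (ball (c i) r₂)ᶜ, ∀ᶠ y in 𝓝 x, τ y = 0) ∧
      (∀ x ∈ closedBall (c i) r, ∀ᶠ y in 𝓝 x, τ y = 1) ∧ ∀ x, τ x ∈ Icc (0 : ℝ) 1 := fun i =>
    cutoff isOpen_ball.isClosed_compl isClosed_closedBall (by
      rw [Set.disjoint_left]
      intro x hx hx'
      apply hx
      rw [mem_closedBall] at hx'
      rw [mem_ball]; linarith)
  choose τ hτ hτ0 hτ1 _ using hcut
  set G : ι → E → E := fun i y => τ i y • rep f (j i) (j (σ i)) y with hG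
  have hGev : ∀ i, ∀ y ∈ closedBall (c i) r, G i =ᶠ[𝓝 y] rep f (j i) (j (σ i)) := by
    intro i y hy
    filter_upwards [hτ1 i y hy] with z hz
    simp [hG, hz]
  have hGeq : ∀ i, ∀ y ∈ closedBall (c i) r, G i y = rep f (j i) (j (σ i)) y := fun i y hy =>
    (hGev i y hy).self_of_nhds
  have hGd : ∀ i, ∀ y ∈ closedBall (c i) r, fderiv ℝ (G i) y =
      fderiv ℝ (rep f (j i) (j (σ i))) y := fun i y hy => (hGev i y hy).fderiv_eq
  have htar : ∀ i, ∀ y ∈ closedBall (c i) r, y ∈ (extChartAt 𝓘(ℝ, E) (j i)).target :=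
    fun i y hy => hT i (hsub2 i (hsub i hy))
  have hsrc : ∀ i, ∀ y ∈ closedBall (c i) r,
      f ((extChartAt 𝓘(ℝ, E) (j i)).symm y) ∈ (extChartAt 𝓘(ℝ, E) (j (σ i))).source :=
    fun i y hy => hS i y (hsub i hy)
  -- closed orbits
  have horb : ∀ x : ι → E, (∀ i, x i ∈ closedBall (c i) r) → (∀ i, x (σ i) = G i (x i)) →
      ∀ i, (extChartAt 𝓘(ℝ, E) (j (σ i))).symm (x (σ i)) =
        f ((extChartAt 𝓘(ℝ, E) (j i)).symm (x i)) := by
    intro x hx hx0 i
    rw [hx0 i, hGeq i _ (hx i)]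
    exact (extChartAt 𝓘(ℝ, E) (j (σ i))).left_inv (hsrc i _ (hx i))
  refine ⟨G, ⟨?_, ?_, ?_, ?_, ?_, ?_, ?_, ?_⟩, hGeq⟩
  · intro i
    rw [contDiff_iff_contDiffAt]
    intro y
    by_cases hy : y ∈ ball (c i) r₂
    · have hy' := ball_subset_closedBall hy
      exact ((hτ i).contDiffAt).smul
        (rep_contDiffAt h.smooth (hT i (hsub2 i hy')) (hS i y hy'))
    · have : G i =ᶠ[𝓝 y] fun _ => 0 := by
        filter_upwards [hτ0 i y hy] with z hz
        simp [hG, hz]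
      exact contDiffAt_const.congr_of_eventuallyEq this
  · intro i y hy
    rw [hGeq i y hy]
    exact hR i y hy
  · intro i
    exact Pj_cont he hinj h hπ (hT i) (isCompact_closedBall _ _)
  · intro i y hy
    ext w
    exact Pj_proj he hinj hπ (hT i hy) w
  · intro i y hy
    rw [hGd i y hy, hGeq i y hy]
    exact Pj_inv he hinj h hπ (htar i y hy) (hsrc i y hy)
  · intro i y hy
    rw [hGd i y hy]
    exact rep_inj he hinj h (htar i y hy) (hsrc i y hy)
  · intro x hx hx0 t ht w hw hw'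
    have hex := fun i => exists_D he hinj (htar i _ (hx i)) (w i)
    choose v hv using hex
    have hp := horb x hx hx0
    have hvE : ∀ i, v i ∈ Es ((extChartAt 𝓘(ℝ, E) (j i)).symm (x i)) := fun i =>
      Pj_fix he hinj hπ (htar i _ (hx i)) (v i) (by rw [hv i]; exact hw i)
    have hvr : ∀ i, v (σ i) = t • dg E f ((extChartAt 𝓘(ℝ, E) (j i)).symm (x i)) (v i) := by
      intro i
      have h1 := hw' i
      have hxs := (extChartAt 𝓘(ℝ, E) (j i)).map_target (htar i _ (hx i))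
      have h2 := rep_fderiv h.smooth hxs (hsrc i _ (hx i)) (v i)
      rw [(extChartAt 𝓘(ℝ, E) (j i)).right_inv (htar i _ (hx i)), hv i] at h2
      rw [hGd i _ (hx i), h2, ← hv (σ i), ← map_smul, hp i] at h1
      exact Dc_inj he hinj (hsrc i _ (hx i)) h1
    have h0 := zero_s he hinj h hp ht hvE hvr
    funext i
    rw [← hv i, h0 i, map_zero]; rfl
  · intro x hx hx0 t ht w hw hw'
    have hex := fun i => exists_D he hinj (htar i _ (hx i)) (w i)
    choose v hv using hex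
    have hp := horb x hx hx0
    have hvE : ∀ i, v i ∈ Eu ((extChartAt 𝓘(ℝ, E) (j i)).symm (x i)) := fun i =>
      Pj_ker he hinj hπ (htar i _ (hx i)) (v i) (by rw [hv i]; exact hw i)
    have hvr : ∀ i, dg E f ((extChartAt 𝓘(ℝ, E) (j i)).symm (x i)) (v i) = t • v (σ i) := by
      intro i
      have h1 := hw' i
      have hxs := (extChartAt 𝓘(ℝ, E) (j i)).map_target (htar i _ (hx i))
      have h2 := rep_fderiv h.smooth hxs (hsrc i _ (hx i)) (v i)
      rw [(extChartAt 𝓘(ℝ, E) (j i)).right_inv (htar i _ (hx i)), hv i] at h2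
      rw [hGd i _ (hx i), h2, ← hv (σ i), ← map_smul, hp i] at h1
      exact Dc_inj he hinj (hsrc i _ (hx i)) h1
    have h0 := zero_u he hinj h hp ht hvE hvr
    funext i
    rw [← hv i, h0 i, map_zero]; rfl

end Pool.Agent.H244.Loc
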