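import Mathlib

set_option autoImplicit false

open MeasureTheory Set Filter Topology Metric
open scoped NNReal ENNReal ContDiff fwdDiff

namespace Pool.Agent.H244.Deg

/-- The leading coefficient of `det (1 + t A)` as a finite difference. -/
theorem mat_diff {n : Type*} [Fintype n] [DecidableEq n] (A : Matrix n n ℝ) :
    ∑ k ∈ Finset.range (Fintype.card n + 1),
      (((-1 : ℤ) ^ (Fintype.card n - k) * (Fintype.card n).choose k : ℤ) : ℝ) *
        (1 + (k : ℝ) • A).det = (Fintype.card n).factorial * A.det := by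
  open Polynomial in
  set P : ℝ[X] := Matrix.det ((X : ℝ[X]) • A.map C + (1 : Matrix n n ℝ).map C) with hP
  have hev : ∀ t : ℝ, P.eval t = (1 + t • A).det := by
    intro t
    rw [hP, ← Polynomial.coe_evalRingHom, RingHom.map_det]
    congr 1
    ext i j
    simp [Matrix.map_apply, add_comm, Matrix.one_apply]
    split_ifs <;> simp [mul_comm]
  have hdeg : P.natDegree ≤ Fintype.card n := natDegree_det_X_add_C_le A 1
  have hc : P.coeff (Fintype.card n) = A.det := coeff_det_X_add_C_card A 1
  have hD : (fwdDiff (1 : ℝ))^[Fintype.card n] (fun t => P.eval t) 0 =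
      (Fintype.card n).factorial * A.det := by
    rcases hdeg.lt_or_eq with h | h
    · rw [show (fwdDiff (1 : ℝ))^[Fintype.card n] (fun t => P.eval t) = 0 from
        Polynomial.fwdDiff_iter_eq_zero_of_degree_lt h, ← hc,
        Polynomial.coeff_eq_zero_of_natDegree_lt h]
      simp
    · have h1 := Polynomial.fwdDiff_iter_degree_eq_factorial P
      rw [h] at h1
      rw [show (fwdDiff (1 : ℝ))^[Fintype.card n] (fun t => P.eval t) = _ from h1, ← hc]
      show P.leadingCoeff * (((Fintype.card n).factorial : ℝ → ℝ) 0) = _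
      rw [show P.leadingCoeff = P.coeff (Fintype.card n) by rw [← h]; rfl, mul_comm]
      simp
  rw [fwdDiff_iter_eq_sum_shift] at hD
  rw [← hD]
  refine Finset.sum_congr rfl fun k _ => ?_
  rw [← hev]
  simp

variable {V : Type*} [NormedAddCommGroup V] [NormedSpace ℝ V] [FiniteDimensional ℝ V]

/-- The same for an operator. -/
theorem op_diff (A : V →L[ℝ] V) :
    ∑ k ∈ Finset.range (Module.finrank ℝ V + 1),
      (((-1 : ℤ) ^ (Module.finrank ℝ V - k) * (Module.finrank ℝ V).choose k : ℤ) : ℝ) *
        (1 + (k : ℝ) • A).det = (Module.finrank ℝ V).factorial * A.det := by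
  classical
  set b := Module.finBasis ℝ V
  have h := mat_diff (LinearMap.toMatrix b b (A : V →ₗ[ℝ] V))
  rw [Fintype.card_fin] at h
  have h1 : ∀ B : V →L[ℝ] V, B.det = (LinearMap.toMatrix b b (B : V →ₗ[ℝ] V)).det := fun B => by
    rw [LinearMap.det_toMatrix]
  rw [h1 A, ← h]
  refine Finset.sum_congr rfl fun k _ => ?_
  rw [h1]
  congr 2
  ext i j
  simp [LinearMap.toMatrix_apply, Matrix.one_apply, Finsupp.single_apply, eq_comm]

theorem det_ne_zero_of_ker (A : V →L[ℝ] V) (h : ∀ v, A v = 0 → v = 0) : A.det ≠ 0 := by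
  intro h0
  have h1 := LinearMap.bot_lt_ker_of_det_eq_zero (f := (A : V →ₗ[ℝ] V)) h0
  obtain ⟨v, hv, hv0⟩ := (Submodule.ne_bot_iff _).mp h1.ne'
  exact hv0 (h v hv)

/-- a nonvanishing continuous function on `[0, 1]` keeps its sign -/
theorem sign_path {f : ℝ → ℝ} (hf : ContinuousOn f (Icc 0 1)) (h0 : ∀ t ∈ Icc (0 : ℝ) 1, f t ≠ 0) :
    0 < f 0 * f 1 := by
  have h00 := h0 0 (by simp)
  have h11 := h0 1 (by simp)
  by_contra hcon
  push Not at hcon
  have hz : (0 : ℝ) ∈ f '' Icc 0 1 := by
    rcases lt_or_gt_of_ne h00 with h | h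
    · exact intermediate_value_Icc (by norm_num) hf ⟨h.le, by nlinarith⟩
    · exact intermediate_value_Icc' (by norm_num) hf ⟨by nlinarith, h.le⟩
  obtain ⟨t, ht, ht0⟩ := hz
  exact h0 t ht ht0

theorem det_one_add_pos (A : V →L[ℝ] V) (hA : ‖A‖ < 1) : 0 < (1 + A).det := by
  have h := sign_path (f := fun t => (1 + t • A).det)
    (ContinuousLinearMap.continuous_det.comp (by fun_prop)).continuousOn (by
      intro t ht
      apply det_ne_zero_of_ker
      intro v hv
      have h1 : v = -(t • A v) := by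
        have : v + t • A v = 0 := by simpa using hv
        exact eq_neg_of_add_eq_zero_left this
      have h2 : ‖v‖ ≤ ‖A‖ * ‖v‖ := by
        calc ‖v‖ = |t| * ‖A v‖ := by
              conv_lhs => rw [h1]
              rw [norm_neg, norm_smul, Real.norm_eq_abs]
          _ ≤ 1 * (‖A‖ * ‖v‖) := by
            apply mul_le_mul _ (A.le_opNorm v) (norm_nonneg _) zero_le_one
            rw [abs_of_nonneg ht.1]; exact ht.2
          _ = _ := one_mul _
      by_contra hv0
      have : 0 < ‖v‖ := norm_pos_iff.mpr hv0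
      nlinarith)
  have h1 : (1 + (0 : ℝ) • A).det = 1 := by simp [ContinuousLinearMap.det]
  rw [h1, one_mul, one_smul] at h
  exact h

theorem id_add_bij (w : V → V) {K : ℝ≥0} (hK : K < 1) (hw : LipschitzWith K w) :
    Function.Bijective (fun x => x + w x) := by
  constructor
  · intro x y hxy
    have h1 : x - y = w y - w x := by
      have : x + w x = y + w y := hxy
      rw [sub_eq_sub_iff_add_eq_add, this]; abel
    have h2 : dist x y ≤ K * dist x y := by
      calc dist x y = ‖w y - w x‖ := by rw [dist_eq_norm, h1]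
        _ = dist (w x) (w y) := by rw [dist_eq_norm, norm_sub_rev]
        _ ≤ K * dist x y := hw.dist_le_mul x y
    by_contra hne
    have h3 : 0 < dist x y := dist_pos.mpr hne
    have h4 : (K : ℝ) < 1 := hK
    nlinarith
  · intro y
    have hc : ContractingWith K (fun x => y - w x) := by
      refine ⟨hK, ?_⟩
      intro a b
      rw [edist_dist, edist_dist, show dist (y - w a) (y - w b) = dist (w a) (w b) from by
        rw [dist_sub_left], ← edist_dist, ← edist_dist]
      exact hw a b
    refine ⟨hc.fixedPoint _, ?_⟩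
    have h := hc.fixedPoint_isFixedPt
    have h' : y - w (hc.fixedPoint _) = hc.fixedPoint _ := h
    show hc.fixedPoint _ + w (hc.fixedPoint _) = y
    conv_lhs => rw [← h']
    rw [h']
    exact (sub_eq_iff_eq_add.mp h').symm

variable [MeasurableSpace V] [BorelSpace V] (μ : Measure V) [μ.IsAddHaarMeasure]

theorem vol_lemma {w : V → V} (hw1 : ContDiff ℝ 1 w) {K : ℝ≥0} (hK : K < 1)
    (hw : LipschitzWith K w) {R : ℝ} (hR : ∀ x, x ∉ closedBall (0 : V) R → w x = 0) :
    ∫ x in closedBall (0 : V) R, (1 + fderiv ℝ w x).det ∂μ = μ.real (closedBall (0 : V) R) := by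
  have hbij := id_add_bij w hK hw
  have himg : (fun x => x + w x) '' closedBall (0 : V) R = closedBall 0 R := by
    apply Subset.antisymm
    · rintro _ ⟨x, hx, rfl⟩
      by_contra hcon
      have h1 : (fun x => x + w x) (x + w x) = x + w x := by
        show x + w x + w (x + w x) = x + w x
        rw [hR _ hcon, add_zero]
      have h2 : x + w x = x := hbij.1 h1
      apply hcon
      show x + w x ∈ closedBall (0 : V) R
      rw [h2]; exact hx
    · intro y hy
      obtain ⟨x, hx⟩ := hbij.2 y
      refine ⟨x, ?_, hx⟩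
      by_contra hcon
      have hx' : x + w x = y := hx
      rw [hR x hcon, add_zero] at hx'
      rw [hx'] at hcon
      exact hcon hy
  have hder : ∀ x, HasFDerivAt (fun x => x + w x) (1 + fderiv ℝ w x) x := fun x =>
    (hasFDerivAt_id x).add ((hw1.differentiable (by norm_num)) x).hasFDerivAt
  have h := integral_image_eq_integral_abs_det_fderiv_smul μ
    (s := closedBall (0 : V) R) (f := fun x => x + w x) (f' := fun x => 1 + fderiv ℝ w x)
    measurableSet_closedBall
    (fun x _ => (hder x).hasFDerivWithinAt) hbij.1.injOn (fun _ => (1 : ℝ))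
  rw [himg] at h
  have h1 : ∫ _ in closedBall (0 : V) R, (1 : ℝ) ∂μ = μ.real (closedBall (0 : V) R) := by simp
  rw [← h1, h]
  refine setIntegral_congr_fun measurableSet_closedBall fun x _ => ?_
  have hpos : 0 < (1 + fderiv ℝ w x).det := by
    apply det_one_add_pos
    refine lt_of_le_of_lt (norm_fderiv_le_of_lipschitz ℝ hw) ?_
    exact_mod_cast hK
  show (1 + fderiv ℝ w x).det = |(1 + fderiv ℝ w x).det| • (1 : ℝ)
  rw [abs_of_pos hpos, smul_eq_mul, mul_one]

/-- **The Jacobian determinant is a null Lagrangian.** -/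
theorem null_lagrangian (hN : 0 < Module.finrank ℝ V) {w : V → V} (hw1 : ContDiff ℝ 1 w)
    (hwc : HasCompactSupport w) : ∫ x, (fderiv ℝ w x).det ∂μ = 0 := by
  set N := Module.finrank ℝ V with hNdef
  obtain ⟨K, hK⟩ := hw1.lipschitzWith_of_hasCompactSupport hwc (by norm_num)
  obtain ⟨R, hR⟩ := hwc.isCompact.isBounded.subset_closedBall (0 : V)
  have hR' : ∀ x, x ∉ closedBall (0 : V) R → w x = 0 := fun x hx =>
    image_eq_zero_of_notMem_tsupport fun h => hx (hR h)
  set τ : ℝ≥0 := ((N + 1 : ℝ≥0) * (K + 1))⁻¹ with hτ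
  have hτpos : 0 < τ := by positivity
  have hvol : ∀ k ∈ Finset.range (N + 1),
      ∫ x in closedBall (0 : V) R, (1 + (k : ℝ) • fderiv ℝ (fun y => (τ : ℝ) • w y) x).det ∂μ
        = μ.real (closedBall (0 : V) R) := by
    intro k hk
    have hk' : (k : ℝ≥0) ≤ N := by exact_mod_cast Nat.lt_succ_iff.mp (Finset.mem_range.mp hk)
    have hd : ∀ x, fderiv ℝ (fun y => ((k : ℝ) * τ) • w y) x =
        (k : ℝ) • fderiv ℝ (fun y => (τ : ℝ) • w y) x := by
      intro x
      have hdx := (hw1.differentiable (by norm_num)) x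
      rw [fderiv_fun_const_smul hdx, fderiv_fun_const_smul hdx, smul_smul]
    have := vol_lemma μ (w := fun y => ((k : ℝ) * τ) • w y) (hw1.const_smul _)
      (K := k * τ * K) ?_ ?_ (R := R) ?_
    · rw [← this]
      simp only [hd]
    · calc (k : ℝ≥0) * τ * K ≤ N * τ * K := by gcongr
        _ = τ * (N * K) := by ring
        _ < τ * ((N + 1 : ℝ≥0) * (K + 1)) := by
          apply mul_lt_mul_of_pos_left _ hτpos
          have : (N + 1 : ℝ≥0) * (K + 1) = N * K + (N + K + 1) := by ring
          rw [this]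
          exact lt_add_of_pos_right _ (by positivity)
        _ = 1 := by rw [hτ]; exact inv_mul_cancel₀ (by positivity)
    · refine LipschitzWith.of_dist_le_mul fun x y => ?_
      rw [dist_smul₀, Real.norm_of_nonneg (by positivity)]
      push_cast
      rw [mul_assoc ((k : ℝ) * τ)]
      exact mul_le_mul_of_nonneg_left (hK.dist_le_mul x y) (by positivity)
    · intro x hx
      rw [hR' x hx, smul_zero]
  have hcont : Continuous fun x => fderiv ℝ (fun y => (τ : ℝ) • w y) x :=
    (hw1.const_smul (τ : ℝ)).continuous_fderiv (by norm_num)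
  have hint : ∀ k ∈ Finset.range (N + 1), Integrable (fun x =>
      (((-1 : ℤ) ^ (N - k) * N.choose k : ℤ) : ℝ) *
      (1 + (k : ℝ) • fderiv ℝ (fun y => (τ : ℝ) • w y) x).det)
      (μ.restrict (closedBall (0 : V) R)) := by
    intro k _
    have hc : Continuous fun x => (((-1 : ℤ) ^ (N - k) * N.choose k : ℤ) : ℝ) *
      (1 + (k : ℝ) • fderiv ℝ (fun y => (τ : ℝ) • w y) x).det :=
      continuous_const.mul (ContinuousLinearMap.continuous_det.comp
        (continuous_const.add (hcont.const_smul (k : ℝ))))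
    exact hc.continuousOn.integrableOn_compact (isCompact_closedBall _ _)
  have hsum : ∫ x in closedBall (0 : V) R, ∑ k ∈ Finset.range (N + 1),
      (((-1 : ℤ) ^ (N - k) * N.choose k : ℤ) : ℝ) *
      (1 + (k : ℝ) • fderiv ℝ (fun y => (τ : ℝ) • w y) x).det ∂μ = 0 := by
    rw [integral_finsetSum _ hint]
    have h0 := op_diff (0 : V →L[ℝ] V)
    have h00 : (0 : V →L[ℝ] V).det = 0 := by
      show LinearMap.det ((0 : V →L[ℝ] V) : V →ₗ[ℝ] V) = 0
      rw [ContinuousLinearMap.toLinearMap_zero, LinearMap.det_zero, ← hNdef, zero_pow hN.ne']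
    rw [h00, mul_zero] at h0
    have h1 : (1 : V →L[ℝ] V).det = 1 := by simp [ContinuousLinearMap.det]
    simp only [smul_zero, add_zero, h1, mul_one] at h0
    calc ∑ k ∈ Finset.range (N + 1), ∫ x in closedBall (0 : V) R,
          (((-1 : ℤ) ^ (N - k) * N.choose k : ℤ) : ℝ) *
          (1 + (k : ℝ) • fderiv ℝ (fun y => (τ : ℝ) • w y) x).det ∂μ
        = ∑ k ∈ Finset.range (N + 1), (((-1 : ℤ) ^ (N - k) * N.choose k : ℤ) : ℝ) *
          μ.real (closedBall (0 : V) R) := by
          refine Finset.sum_congr rfl fun k hk => ?_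
          rw [integral_const_mul, hvol k hk]
      _ = 0 := by rw [← Finset.sum_mul, h0, zero_mul]
  have hB : ∫ x in closedBall (0 : V) R, (fderiv ℝ w x).det ∂μ = 0 := by
    have h1 : ∀ x, (fderiv ℝ (fun y => (τ : ℝ) • w y) x).det = (τ : ℝ) ^ N *
        (fderiv ℝ w x).det := by
      intro x
      rw [fderiv_fun_const_smul ((hw1.differentiable (by norm_num)) x)]
      show LinearMap.det ((((τ : ℝ) • fderiv ℝ w x : V →L[ℝ] V)) : V →ₗ[ℝ] V) = _
      rw [ContinuousLinearMap.toLinearMap_smul, LinearMap.det_smul]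
    have h2 : ∀ x, ∑ k ∈ Finset.range (N + 1),
      (((-1 : ℤ) ^ (N - k) * N.choose k : ℤ) : ℝ) *
      (1 + (k : ℝ) • fderiv ℝ (fun y => (τ : ℝ) • w y) x).det =
        (N.factorial * (τ : ℝ) ^ N) * (fderiv ℝ w x).det := by
      intro x
      rw [op_diff, h1]; ring
    simp only [h2] at hsum
    rw [integral_const_mul] at hsum
    rcases mul_eq_zero.mp hsum with h | h
    · exfalso
      have : (0 : ℝ) < N.factorial * (τ : ℝ) ^ N := by positivity
      exact this.ne' h
    · exact h
  rw [← hB, setIntegral_eq_integral_of_forall_compl_eq_zero]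
  intro x hx
  have : fderiv ℝ w x = 0 := by
    have : x ∉ tsupport (fderiv ℝ w) := fun h => hx (hR (tsupport_fderiv_subset ℝ h))
    exact image_eq_zero_of_notMem_tsupport this
  rw [this]
  show LinearMap.det ((0 : V →L[ℝ] V) : V →ₗ[ℝ] V) = 0
  rw [ContinuousLinearMap.toLinearMap_zero, LinearMap.det_zero, ← hNdef, zero_pow hN.ne']

end Pool.Agent.H244.Deg
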