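import Pool.Agent.H244.Deg1

set_option autoImplicit false
set_option linter.unusedSectionVars false

open MeasureTheory Set Filter Topology Metric
open scoped NNReal ENNReal ContDiff Manifold

namespace Pool.Agent.H244.Deg

variable {V : Type*} [NormedAddCommGroup V] [NormedSpace ℝ V] [FiniteDimensional ℝ V]

theorem cutoff {K L : Set V} (hK : IsClosed K) (hL : IsClosed L) (hd : Disjoint K L) :
    ∃ τ : V → ℝ, ContDiff ℝ 1 τ ∧ (∀ x ∈ K, ∀ᶠ y in 𝓝 x, τ y = 0) ∧
      (∀ x ∈ L, ∀ᶠ y in 𝓝 x, τ y = 1) ∧ ∀ x, τ x ∈ Icc (0 : ℝ) 1 := by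
  obtain ⟨f, h1, h2, h3⟩ := exists_contMDiffMap_zero_one_nhds_of_isClosed (n := 1) 𝓘(ℝ, V) hK hL hd
  refine ⟨f, f.contMDiff.contDiff, fun x hx => ?_, fun x hx => ?_, h3⟩
  · exact (mem_nhdsSet_iff_forall.mp h1) x hx
  · exact (mem_nhdsSet_iff_forall.mp h2) x hx

/-- a `C¹` nondecreasing step function with derivative supported in `[-δ, δ]` -/
theorem exists_step {δ : ℝ} (hδ : 0 < δ) : ∃ s b : ℝ → ℝ, ContDiff ℝ 1 s ∧
    (∀ t, HasDerivAt s (b t) t) ∧ (∀ t, 0 ≤ b t) ∧ (∀ t, δ ≤ |t| → b t = 0) ∧ 0 < b 0 := by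
  set b : ℝ → ℝ := fun t => max 0 (δ - |t|) with hb
  have hbc : Continuous b := by fun_prop
  set s : ℝ → ℝ := fun t => ∫ u in (0 : ℝ)..t, b u with hs
  have hd : ∀ t, HasDerivAt s (b t) t := fun t =>
    intervalIntegral.integral_hasDerivAt_right (hbc.intervalIntegrable _ _)
      (hbc.stronglyMeasurableAtFilter _ _) hbc.continuousAt
  refine ⟨s, b, ?_, hd, fun t => le_max_left _ _, fun t ht => ?_, ?_⟩
  · rw [contDiff_one_iff_deriv]
    refine ⟨fun t => (hd t).differentiableAt, ?_⟩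
    have : deriv s = b := funext fun t => (hd t).deriv
    rw [this]; exact hbc
  · simp only [hb]; exact max_eq_left (by linarith)
  · simp only [hb, abs_zero, sub_zero]; exact lt_max_of_lt_right hδ

/-- a `C¹` map with nonnegative Jacobian supported in a small ball -/
theorem exists_theta {η : ℝ} (hη : 0 < η) : ∃ Θ : V → V, ContDiff ℝ 1 Θ ∧
    (∀ y, 0 ≤ (fderiv ℝ Θ y).det) ∧ (∀ y, η ≤ ‖y‖ → (fderiv ℝ Θ y).det = 0) ∧
    0 < (fderiv ℝ Θ 0).det := by
  classical
  set N := Module.finrank ℝ V with hN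
  obtain ⟨e⟩ : Nonempty (V ≃L[ℝ] (Fin N → ℝ)) :=
    FiniteDimensional.nonempty_continuousLinearEquiv_of_finrank_eq (by simp [hN])
  set δ : ℝ := η / (‖(e.symm : (Fin N → ℝ) →L[ℝ] V)‖ + 1) with hδ
  have hδ0 : 0 < δ := by positivity
  obtain ⟨s, b, hs, hd, hb0, hbδ, hb⟩ := exists_step hδ0
  set Θ₀ : (Fin N → ℝ) → (Fin N → ℝ) := fun y i => s (y i) with hΘ₀
  have hΘd : ∀ y, HasFDerivAt Θ₀ (ContinuousLinearMap.pi fun i =>
      (b (y i)) • ContinuousLinearMap.proj (R := ℝ) (φ := fun _ : Fin N => ℝ) i) y := by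
    intro y
    rw [hasFDerivAt_pi]
    intro i
    have h1 : HasFDerivAt (fun y : Fin N → ℝ => y i)
      (ContinuousLinearMap.proj (R := ℝ) (φ := fun _ : Fin N => ℝ) i) y := hasFDerivAt_apply i y
    exact (hd (y i)).comp_hasFDerivAt y h1
  have hΘc : ContDiff ℝ 1 Θ₀ := by
    rw [contDiff_pi]
    intro i
    exact hs.comp (contDiff_apply ℝ ℝ i)
  have hdet₀ : ∀ y : Fin N → ℝ, LinearMap.det (((ContinuousLinearMap.pi fun i =>
      (b (y i)) • ContinuousLinearMap.proj (R := ℝ) (φ := fun _ : Fin N => ℝ) i) :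
        (Fin N → ℝ) →L[ℝ] (Fin N → ℝ)) : (Fin N → ℝ) →ₗ[ℝ] (Fin N → ℝ)) =
        ∏ i, b (y i) := by
    intro y
    rw [← Matrix.det_diagonal, ← LinearMap.det_toLin']
    congr 1
    ext v i
    simp [Matrix.toLin'_apply, Matrix.mulVec_diagonal]
  set Θ : V → V := fun x => e.symm (Θ₀ (e x)) with hΘ
  have hΘdet : ∀ x, (fderiv ℝ Θ x).det = ∏ i, b (e x i) := by
    intro x
    have h1 : HasFDerivAt Θ ((e.symm : (Fin N → ℝ) →L[ℝ] V).comp
        ((ContinuousLinearMap.pi fun i => (b (e x i)) •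
          ContinuousLinearMap.proj (R := ℝ) (φ := fun _ : Fin N => ℝ) i).comp
          (e : V →L[ℝ] (Fin N → ℝ)))) x :=
      (e.symm.hasFDerivAt).comp x ((hΘd (e x)).comp x e.hasFDerivAt)
    rw [h1.fderiv, ← hdet₀]
    exact LinearMap.det_conj _ e.symm.toLinearEquiv
  refine ⟨Θ, ?_, fun y => ?_, fun y hy => ?_, ?_⟩
  · exact e.symm.contDiff.comp (hΘc.comp e.contDiff)
  · rw [hΘdet]; exact Finset.prod_nonneg fun i _ => hb0 _
  · rw [hΘdet]
    by_contra hne
    have h1 : ∀ i, |e y i| < δ := by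
      intro i
      by_contra hcon
      push Not at hcon
      exact hne (Finset.prod_eq_zero (Finset.mem_univ i) (hbδ _ hcon))
    have h2 : ‖e y‖ ≤ δ := (pi_norm_le_iff_of_nonneg hδ0.le).mpr fun i => (h1 i).le
    have h3 : ‖y‖ ≤ ‖(e.symm : (Fin N → ℝ) →L[ℝ] V)‖ * ‖e y‖ := by
      have := (e.symm : (Fin N → ℝ) →L[ℝ] V).le_opNorm (e y)
      simpa using this
    have h4 : ‖(e.symm : (Fin N → ℝ) →L[ℝ] V)‖ * ‖e y‖ ≤
        ‖(e.symm : (Fin N → ℝ) →L[ℝ] V)‖ * δ := by gcongr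
    have h5 : (‖(e.symm : (Fin N → ℝ) →L[ℝ] V)‖ + 1) * δ = η := by
      rw [hδ]; field_simp
    nlinarith
  · rw [hΘdet]
    apply Finset.prod_pos
    intro i _
    simpa using hb

variable [MeasurableSpace V] [BorelSpace V] (μ : Measure V) [μ.IsAddHaarMeasure]

theorem fderiv_congr_ev {f g : V → V} {x : V} (h : ∀ᶠ y in 𝓝 x, f y = g y) :
    fderiv ℝ f x = fderiv ℝ g x := Filter.EventuallyEq.fderiv_eq h

theorem loc (hN : 0 < Module.finrank ℝ V) {Ω : Set V} (hΩ : IsOpen Ω)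
    (hb : Bornology.IsBounded Ω) {G₀ G₁ : V → V} (h0 : ContDiff ℝ 1 G₀) (h1 : ContDiff ℝ 1 G₁)
    (h : ∀ x ∈ frontier Ω, ∀ᶠ y in 𝓝 x, G₀ y = G₁ y) :
    ∫ x in Ω, (fderiv ℝ G₀ x).det ∂μ = ∫ x in Ω, (fderiv ℝ G₁ x).det ∂μ := by
  classical
  obtain ⟨R, hR⟩ := hb.subset_closedBall (0 : V)
  -- the cut-off function
  obtain ⟨χ, hχ, hχ0, hχ1, -⟩ := cutoff (K := (ball (0 : V) (R + 2))ᶜ) (L := closedBall (0 : V) (R + 1))
    isOpen_ball.isClosed_compl isClosed_closedBall (by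
      rw [Set.disjoint_left]
      intro x hx hx'
      apply hx
      rw [mem_closedBall] at hx'
      rw [mem_ball]; linarith)
  have hcs : ∀ G : V → V, HasCompactSupport (fun x => χ x • G x) := by
    intro G
    apply HasCompactSupport.of_support_subset_isCompact (isCompact_closedBall (0 : V) (R + 2))
    intro x hx
    by_contra hcon
    apply hx
    have : χ x = 0 := (hχ0 x (fun h => hcon (ball_subset_closedBall h))).self_of_nhds
    simp [this]
  set W : V → V := fun x => if x ∈ Ω then G₁ x else G₀ x with hW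
  have hWin : ∀ x ∈ Ω, ∀ᶠ y in 𝓝 x, W y = G₁ y := by
    intro x hx
    filter_upwards [hΩ.mem_nhds hx] with y hy
    simp [hW, hy]
  have hWout : ∀ x, x ∉ Ω → ∀ᶠ y in 𝓝 x, W y = G₀ y := by
    intro x hx
    by_cases hxc : x ∈ closure Ω
    · have hxf : x ∈ frontier Ω := by rw [hΩ.frontier_eq]; exact ⟨hxc, hx⟩
      filter_upwards [h x hxf] with y hy
      by_cases hyΩ : y ∈ Ω
      · simp [hW, hyΩ, hy]
      · simp [hW, hyΩ]
    · filter_upwards [isClosed_closure.isOpen_compl.mem_nhds hxc] with y hy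
      have : y ∉ Ω := fun h => hy (subset_closure h)
      simp [hW, this]
  have hWc : ContDiff ℝ 1 W := by
    rw [contDiff_iff_contDiffAt]
    intro x
    by_cases hx : x ∈ Ω
    · exact (h1.contDiffAt (x := x)).congr_of_eventuallyEq (hWin x hx)
    · exact (h0.contDiffAt (x := x)).congr_of_eventuallyEq (hWout x hx)
  have hχΩ : ∀ x ∈ Ω, ∀ᶠ y in 𝓝 x, χ y = 1 := by
    intro x hx
    apply hχ1
    have := hR hx
    rw [mem_closedBall] at this ⊢
    linarith
  have e0 := null_lagrangian μ hN (hχ.smul h0) (hcs G₀)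
  have e1 := null_lagrangian μ hN (hχ.smul hWc) (hcs W)
  have hint : ∀ G : V → V, ContDiff ℝ 1 G →
      Integrable (fun x => (fderiv ℝ (fun y => χ y • G y) x).det) μ := by
    intro G hG
    have hc : Continuous (fun x => (fderiv ℝ (fun y => χ y • G y) x).det) :=
      ContinuousLinearMap.continuous_det.comp ((hχ.smul hG).continuous_fderiv (by norm_num))
    apply hc.integrable_of_hasCompactSupport
    apply HasCompactSupport.of_support_subset_isCompact (hcs G).isCompact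
    intro x hx
    by_contra hcon
    apply hx
    have : fderiv ℝ (fun y => χ y • G y) x = 0 := by
      have : x ∉ tsupport (fderiv ℝ (fun y => χ y • G y)) :=
        fun h => hcon (tsupport_fderiv_subset ℝ h)
      exact image_eq_zero_of_notMem_tsupport this
    show (fderiv ℝ (fun y => χ y • G y) x).det = 0
    rw [this]
    show LinearMap.det ((0 : V →L[ℝ] V) : V →ₗ[ℝ] V) = 0
    rw [ContinuousLinearMap.toLinearMap_zero, LinearMap.det_zero, zero_pow hN.ne']
  have s0 := integral_add_compl hΩ.measurableSet (hint G₀ h0)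
  have s1 := integral_add_compl hΩ.measurableSet (hint W hWc)
  have c1 : ∫ x in Ωᶜ, (fderiv ℝ (fun y => χ y • G₀ y) x).det ∂μ =
      ∫ x in Ωᶜ, (fderiv ℝ (fun y => χ y • W y) x).det ∂μ := by
    refine setIntegral_congr_fun hΩ.measurableSet.compl fun x hx => ?_
    have : fderiv ℝ (fun y => χ y • G₀ y) x = fderiv ℝ (fun y => χ y • W y) x := by
      apply fderiv_congr_ev
      filter_upwards [hWout x hx] with y hy
      rw [hy]
    simp only [this]
  have c2 : ∫ x in Ω, (fderiv ℝ (fun y => χ y • G₀ y) x).det ∂μ =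
      ∫ x in Ω, (fderiv ℝ G₀ x).det ∂μ := by
    refine setIntegral_congr_fun hΩ.measurableSet fun x hx => ?_
    have : fderiv ℝ (fun y => χ y • G₀ y) x = fderiv ℝ G₀ x := by
      apply fderiv_congr_ev
      filter_upwards [hχΩ x hx] with y hy
      rw [hy, one_smul]
    simp only [this]
  have c3 : ∫ x in Ω, (fderiv ℝ (fun y => χ y • W y) x).det ∂μ =
      ∫ x in Ω, (fderiv ℝ G₁ x).det ∂μ := by
    refine setIntegral_congr_fun hΩ.measurableSet fun x hx => ?_
    have : fderiv ℝ (fun y => χ y • W y) x = fderiv ℝ G₁ x := by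
      apply fderiv_congr_ev
      filter_upwards [hχΩ x hx, hWin x hx] with y hy hy'
      rw [hy, hy', one_smul]
    simp only [this]
  rw [← c2, ← c3]
  have := s0.trans (e0.trans (e1.symm.trans s1.symm))
  rw [c1] at this
  exact add_right_cancel this

end Pool.Agent.H244.Deg
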