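import Pool.Agent.H244.Deg2

set_option autoImplicit false
set_option linter.unusedSectionVars false

open MeasureTheory Set Filter Topology Metric
open scoped NNReal ENNReal ContDiff Manifold

namespace Pool.Agent.H244.Deg

variable {V : Type*} [NormedAddCommGroup V] [NormedSpace ℝ V] [FiniteDimensional ℝ V]

theorem clm_det_comp (A B : V →L[ℝ] V) : (A.comp B).det = A.det * B.det := by
  show LinearMap.det (((A.comp B : V →L[ℝ] V)) : V →ₗ[ℝ] V) = _
  rw [ContinuousLinearMap.toLinearMap_comp, LinearMap.det_comp]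

theorem det_fderiv_comp {Θ Φ : V → V} (h0 : ContDiff ℝ 1 Θ) (h1 : ContDiff ℝ 1 Φ) (x : V) :
    (fderiv ℝ (fun y => Θ (Φ y)) x).det = (fderiv ℝ Θ (Φ x)).det * (fderiv ℝ Φ x).det := by
  have : fderiv ℝ (fun y => Θ (Φ y)) x = (fderiv ℝ Θ (Φ x)).comp (fderiv ℝ Φ x) :=
    fderiv_comp x ((h0.differentiable (by norm_num)) _) ((h1.differentiable (by norm_num)) x)
  rw [this, clm_det_comp]

variable [MeasurableSpace V] [BorelSpace V] (μ : Measure V) [μ.IsAddHaarMeasure]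

/-- **Homotopy invariance** of the degree integral. -/
theorem hom_inv (hN : 0 < Module.finrank ℝ V) {Ω : Set V} (hΩ : IsOpen Ω)
    (hb : Bornology.IsBounded Ω) {Φ₀ Φ₁ : V → V} (h0 : ContDiff ℝ 1 Φ₀) (h1 : ContDiff ℝ 1 Φ₁)
    {η : ℝ} (hadm : ∀ x ∈ frontier Ω, ∀ t ∈ Icc (0 : ℝ) 1, η < ‖Φ₀ x + t • (Φ₁ x - Φ₀ x)‖)
    {Θ : V → V} (hΘ : ContDiff ℝ 1 Θ) (hΘ0 : ∀ y, η ≤ ‖y‖ → (fderiv ℝ Θ y).det = 0) :
    ∫ x in Ω, (fderiv ℝ Θ (Φ₀ x)).det * (fderiv ℝ Φ₀ x).det ∂μ =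
      ∫ x in Ω, (fderiv ℝ Θ (Φ₁ x)).det * (fderiv ℝ Φ₁ x).det ∂μ := by
  -- the compact set where the homotopy is small
  set K : Set V := (fun p : V × ℝ => p.1) ''
    ((closure Ω ×ˢ Icc (0 : ℝ) 1) ∩ {p | ‖Φ₀ p.1 + p.2 • (Φ₁ p.1 - Φ₀ p.1)‖ ≤ η}) with hK
  have c0 := h0.continuous
  have c1 := h1.continuous
  have hKc : IsCompact K := by
    apply IsCompact.image _ continuous_fst
    apply IsCompact.inter_right (hb.isCompact_closure.prod isCompact_Icc)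
    exact isClosed_le (by fun_prop) continuous_const
  have hKmem : ∀ x ∈ closure Ω, ∀ t ∈ Icc (0 : ℝ) 1, x ∉ K →
      η < ‖Φ₀ x + t • (Φ₁ x - Φ₀ x)‖ := by
    intro x hx t ht hxK
    by_contra hcon
    push Not at hcon
    exact hxK ⟨(x, t), ⟨⟨hx, ht⟩, hcon⟩, rfl⟩
  have hdis : Disjoint K (frontier Ω) := by
    rw [Set.disjoint_left]
    rintro _ ⟨⟨x, t⟩, ⟨⟨hx, ht⟩, hle⟩, rfl⟩ hxf
    exact absurd (hadm x hxf t ht) (not_lt.mpr hle)
  obtain ⟨τ, hτ, hτK, hτf, hτI⟩ := cutoff hKc.isClosed isClosed_frontier hdis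
  set Ψ : V → V := fun x => Φ₀ x + τ x • (Φ₁ x - Φ₀ x) with hΨ
  have hΨc : ContDiff ℝ 1 Ψ := h0.add (hτ.smul (h1.sub h0))
  have e1 : ∫ x in Ω, (fderiv ℝ (fun y => Θ (Ψ y)) x).det ∂μ =
      ∫ x in Ω, (fderiv ℝ (fun y => Θ (Φ₁ y)) x).det ∂μ := by
    apply loc μ hN hΩ hb (hΘ.comp hΨc) (hΘ.comp h1)
    intro x hx
    filter_upwards [hτf x hx] with y hy
    simp [hΨ, hy]
  have e2 : ∫ x in Ω, (fderiv ℝ (fun y => Θ (Ψ y)) x).det ∂μ =
      ∫ x in Ω, (fderiv ℝ (fun y => Θ (Φ₀ y)) x).det ∂μ := by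
    refine setIntegral_congr_fun hΩ.measurableSet fun x hx => ?_
    show (fderiv ℝ (fun y => Θ (Ψ y)) x).det = (fderiv ℝ (fun y => Θ (Φ₀ y)) x).det
    by_cases hxK : x ∈ K
    · have : fderiv ℝ (fun y => Θ (Ψ y)) x = fderiv ℝ (fun y => Θ (Φ₀ y)) x := by
        apply fderiv_congr_ev
        filter_upwards [hτK x hxK] with y hy
        simp [hΨ, hy]
      rw [this]
    · rw [det_fderiv_comp hΘ hΨc, det_fderiv_comp hΘ h0]
      have hx' := subset_closure hx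
      have i0 := hKmem x hx' 0 (by simp) hxK
      rw [zero_smul, add_zero] at i0
      rw [hΘ0 _ (hKmem x hx' (τ x) (hτI x) hxK).le, hΘ0 _ i0.le, zero_mul, zero_mul]
  simp only [det_fderiv_comp hΘ hΨc, det_fderiv_comp hΘ h1, det_fderiv_comp hΘ h0] at e1 e2
  rw [← e1, e2]

/-- The contribution of a nondegenerate zero. -/
theorem local_zero {Φ : V → V} (hΦ : ContDiff ℝ 1 Φ) {a : V} (ha : Φ a = 0)
    (hd : (fderiv ℝ Φ a).det ≠ 0) {U : Set V} (hU : U ∈ 𝓝 a) :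
    ∃ W ⊆ U, IsOpen W ∧ a ∈ W ∧ ∃ η > 0, ∀ ρ : V → ℝ, (∀ y, η ≤ ‖y‖ → ρ y = 0) →
      ∫ x in W, |(fderiv ℝ Φ x).det| * ρ (Φ x) ∂μ = ∫ y, ρ y ∂μ := by
  have hker : LinearMap.ker (fderiv ℝ Φ a : V →ₗ[ℝ] V) = ⊥ := by
    by_contra hne
    obtain ⟨v, hv, hv0⟩ := (Submodule.ne_bot_iff _).mp hne
    have : ¬ IsUnit (LinearMap.det (fderiv ℝ Φ a : V →ₗ[ℝ] V)) → False := fun h => h
      (isUnit_iff_ne_zero.mpr hd)
    have h2 : IsUnit (fderiv ℝ Φ a : V →ₗ[ℝ] V) := by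
      by_contra h3
      exact this fun h4 => h3 ((LinearMap.isUnit_iff_isUnit_det _).mpr h4)
    have h3 := (LinearMap.isUnit_iff_ker_eq_bot _).mp h2
    exact hne h3
  set e := ContinuousLinearEquiv.ofBijective (fderiv ℝ Φ a) hker (by
    rw [LinearMap.range_eq_top]
    exact LinearMap.injective_iff_surjective.mp (LinearMap.ker_eq_bot.mp hker)) with he
  have hst : HasStrictFDerivAt Φ (e : V →L[ℝ] V) a := by
    have h1 := (hΦ.contDiffAt (x := a)).hasStrictFDerivAt (by norm_num)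
    have h2 : (e : V →L[ℝ] V) = fderiv ℝ Φ a := by
      ext v; rfl
    rw [h2]; exact h1
  set P := hst.toOpenPartialHomeomorph Φ with hP
  have hPa : a ∈ P.source := hst.mem_toOpenPartialHomeomorph_source
  have hPc : ∀ x, P x = Φ x := fun x => rfl
  set W : Set V := P.source ∩ interior U with hW
  have hWo : IsOpen W := P.open_source.inter isOpen_interior
  have haW : a ∈ W := ⟨hPa, mem_interior_iff_mem_nhds.mpr hU⟩
  have himgo : IsOpen (Φ '' W) := by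
    have : P '' W = Φ '' W := by simp [hPc]
    rw [← this]
    exact P.isOpen_image_of_subset_source hWo inter_subset_left
  have h0 : (0 : V) ∈ Φ '' W := ⟨a, haW, ha⟩
  obtain ⟨η, hη, hball⟩ := Metric.isOpen_iff.mp himgo 0 h0
  refine ⟨W, fun x hx => interior_subset hx.2, hWo, haW, η, hη, fun ρ hρ => ?_⟩
  have hinj : InjOn Φ W := fun x hx y hy hxy => P.injOn hx.1 hy.1 hxy
  have h := integral_image_eq_integral_abs_det_fderiv_smul μ hWo.measurableSet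
    (f := Φ) (f' := fun x => fderiv ℝ Φ x)
    (fun x _ => ((hΦ.differentiable (by norm_num)) x).hasFDerivAt.hasFDerivWithinAt) hinj ρ
  simp only [smul_eq_mul] at h
  rw [← h]
  apply setIntegral_eq_integral_of_forall_compl_eq_zero
  intro y hy
  apply hρ
  by_contra hcon
  push Not at hcon
  exact hy (hball (by simpa using hcon))


theorem sgn_lemma {d e : ℝ} (h : 0 < d * e) : e = d / |d| * |e| := by
  rcases lt_trichotomy d 0 with hd | hd | hd
  · have he : e < 0 := by nlinarith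
    have := hd.ne
    rw [abs_of_neg hd, abs_of_neg he]; field_simp
  · simp [hd] at h
  · have he : 0 < e := by nlinarith
    have := hd.ne'
    rw [abs_of_pos hd, abs_of_pos he]; field_simp

theorem abs_sgn {d : ℝ} (h : d ≠ 0) : |(d / |d|)| = 1 := by
  rw [abs_div, abs_abs, div_self (abs_pos.mpr h).ne']

omit [FiniteDimensional ℝ V] [MeasurableSpace V] [BorelSpace V] in
theorem pos_away {X : Type*} [TopologicalSpace X] {C : Set X} (hC : IsCompact C) {Φ : X → V}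
    (hΦ : Continuous Φ) (h : ∀ x ∈ C, Φ x ≠ 0) : ∃ η > 0, ∀ x ∈ C, η < ‖Φ x‖ := by
  rcases C.eq_empty_or_nonempty with rfl | hne
  · exact ⟨1, one_pos, fun x hx => absurd hx (notMem_empty x)⟩
  · obtain ⟨x, hx, hmin⟩ := hC.exists_isMinOn hne hΦ.norm.continuousOn
    have hpos : 0 < ‖Φ x‖ := norm_pos_iff.mpr (h x hx)
    exact ⟨‖Φ x‖ / 2, by positivity, fun y hy => by
      have := hmin hy
      simp only [mem_ofPred_eq] at this
      linarith⟩

/-- **The degree lemma.** -/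
theorem deg_main {V : Type*} [NormedAddCommGroup V] [NormedSpace ℝ V] [FiniteDimensional ℝ V]
    {Ω : Set V} (hΩ : IsOpen Ω)
    (hb : Bornology.IsBounded Ω) {Φ₀ Φ₁ : V → V} (h0 : ContDiff ℝ 1 Φ₀) (h1 : ContDiff ℝ 1 Φ₁)
    (hadm : ∀ x ∈ frontier Ω, ∀ t ∈ Icc (0 : ℝ) 1, Φ₀ x + t • (Φ₁ x - Φ₀ x) ≠ 0)
    {a : V} (haΩ : a ∈ Ω) (ha : Φ₀ a = 0) (hau : ∀ x ∈ Ω, Φ₀ x = 0 → x = a)
    (had : (fderiv ℝ Φ₀ a).det ≠ 0)
    (hs : ∀ x ∈ Ω, ∀ y ∈ Ω, Φ₁ x = 0 → Φ₁ y = 0 → 0 < (fderiv ℝ Φ₁ x).det * (fderiv ℝ Φ₁ y).det) :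
    ∃! x, x ∈ Ω ∧ Φ₁ x = 0 := by
  classical
  rcases Nat.eq_zero_or_pos (Module.finrank ℝ V) with hN | hN
  · have : Subsingleton V := Module.finrank_zero_iff.mp hN
    exact ⟨a, ⟨haΩ, Subsingleton.elim _ _⟩, fun y _ => Subsingleton.elim _ _⟩
  let _ : MeasurableSpace V := borel V
  have : BorelSpace V := ⟨rfl⟩
  let μ : Measure V := Measure.addHaar
  have c0 := h0.continuous
  have c1 := h1.continuous
  have cd0 : Continuous fun x => (fderiv ℝ Φ₀ x).det :=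
    ContinuousLinearMap.continuous_det.comp (h0.continuous_fderiv (by norm_num))
  have cd1 : Continuous fun x => (fderiv ℝ Φ₁ x).det :=
    ContinuousLinearMap.continuous_det.comp (h1.continuous_fderiv (by norm_num))
  have hcl : ∀ x ∈ closure Ω, x ∉ Ω → x ∈ frontier Ω := fun x hx hx' => by
    rw [hΩ.frontier_eq]; exact ⟨hx, hx'⟩
  -- the boundary
  have hfc : IsCompact (frontier Ω) := hb.isCompact_closure.of_isClosed_subset isClosed_frontier
    frontier_subset_closure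
  obtain ⟨η₀, hη₀, hη₀'⟩ := pos_away (hfc.prod (isCompact_Icc (a := (0 : ℝ)) (b := 1)))
    (Φ := fun p : V × ℝ => Φ₀ p.1 + p.2 • (Φ₁ p.1 - Φ₀ p.1)) (by fun_prop)
    (fun p hp => hadm p.1 hp.1 p.2 hp.2)
  have hf0 : ∀ x ∈ frontier Ω, Φ₀ x ≠ 0 := fun x hx => by
    have := hadm x hx 0 (by simp)
    simpa using this
  have hf1 : ∀ x ∈ frontier Ω, Φ₁ x ≠ 0 := fun x hx => by
    have := hadm x hx 1 (by simp)
    simpa using this
  -- the zero of `Φ₀`
  set d := (fderiv ℝ Φ₀ a).det with hd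
  have hU : Ω ∩ {x | 0 < d * (fderiv ℝ Φ₀ x).det} ∈ 𝓝 a := by
    apply Filter.inter_mem (hΩ.mem_nhds haΩ)
    apply (isOpen_lt continuous_const (continuous_const.mul cd0)).mem_nhds
    show 0 < d * (fderiv ℝ Φ₀ a).det
    exact mul_self_pos.mpr had
  obtain ⟨W₀, hW₀U, hW₀o, haW₀, η₁, hη₁, hW₀⟩ := local_zero μ h0 ha had hU
  have hC0 : IsCompact (closure Ω \ W₀) := hb.isCompact_closure.diff hW₀o
  obtain ⟨η₂, hη₂, hη₂'⟩ := pos_away hC0 c0 (fun x hx hx0 => by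
    by_cases hxΩ : x ∈ Ω
    · exact hx.2 (hau x hxΩ hx0 ▸ haW₀)
    · exact hf0 x (hcl x hx.1 hxΩ) hx0)
  -- the value for `Φ₀`
  have key0 : ∀ η > 0, η ≤ η₁ → η ≤ η₂ → ∀ Θ : V → V, (∀ y, η ≤ ‖y‖ → (fderiv ℝ Θ y).det = 0) →
      ∫ x in Ω, (fderiv ℝ Θ (Φ₀ x)).det * (fderiv ℝ Φ₀ x).det ∂μ =
        d / |d| * ∫ y, (fderiv ℝ Θ y).det ∂μ := by
    intro η hη hle1 hle2 Θ hΘ
    rw [setIntegral_eq_of_subset_of_forall_sdiff_eq_zero hΩ.measurableSet
      (fun x hx => (hW₀U hx).1) (fun x hx => ?_)]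
    · rw [← hW₀ (fun y => (fderiv ℝ Θ y).det) (fun y hy => hΘ y (hle1.trans hy)),
        ← integral_const_mul]
      refine setIntegral_congr_fun hW₀o.measurableSet fun x hx => ?_
      show (fderiv ℝ Θ (Φ₀ x)).det * (fderiv ℝ Φ₀ x).det =
        d / |d| * (|(fderiv ℝ Φ₀ x).det| * (fderiv ℝ Θ (Φ₀ x)).det)
      have := sgn_lemma (hW₀U hx).2
      conv_lhs => rw [this]
      ring
    · rw [hΘ _ (hle2.trans (hη₂' x ⟨subset_closure hx.1, hx.2⟩).le), zero_mul]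
  have hJ : ∀ Θ : V → V, ContDiff ℝ 1 Θ → (∀ y, 0 ≤ (fderiv ℝ Θ y).det) →
      ∀ η : ℝ, (∀ y, η ≤ ‖y‖ → (fderiv ℝ Θ y).det = 0) → 0 < (fderiv ℝ Θ 0).det →
      0 < ∫ y, (fderiv ℝ Θ y).det ∂μ := by
    intro Θ hΘ hΘ0 η hΘη hΘp
    have hc : Continuous fun y => (fderiv ℝ Θ y).det :=
      ContinuousLinearMap.continuous_det.comp (hΘ.continuous_fderiv (by norm_num))
    refine hc.integral_pos_of_hasCompactSupport_nonneg_nonzero ?_ hΘ0 hΘp.ne'
    apply HasCompactSupport.of_support_subset_isCompact (isCompact_closedBall (0 : V) η)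
    intro y hy
    by_contra hcon
    apply hy
    apply hΘη
    rw [mem_closedBall, dist_zero_right, not_le] at hcon
    exact hcon.le
  have hvol : μ (closure Ω) < ⊤ := hb.isCompact_closure.measure_lt_top
  have hint : ∀ {g : V → ℝ}, Continuous g → IntegrableOn g Ω μ := fun {g} hg =>
    (hg.continuousOn.integrableOn_compact hb.isCompact_closure).mono_set subset_closure
  by_contra hcon
  have hcases : (∀ x ∈ Ω, Φ₁ x ≠ 0) ∨ ∃ x ∈ Ω, ∃ y ∈ Ω, Φ₁ x = 0 ∧ Φ₁ y = 0 ∧ x ≠ y := by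
    by_contra h
    push Not at h
    obtain ⟨⟨x, hx, hx0⟩, h2⟩ := h
    exact hcon ⟨x, ⟨hx, hx0⟩, fun y hy => h2 y hy.1 x hx hy.2 hx0⟩
  rcases hcases with hnz | ⟨p, hp, q, hq, hp0, hq0, hpq⟩
  · obtain ⟨η₃, hη₃, hη₃'⟩ := pos_away hb.isCompact_closure c1 (fun x hx hx0 => by
      by_cases hxΩ : x ∈ Ω
      · exact hnz x hxΩ hx0
      · exact hf1 x (hcl x hx hxΩ) hx0)
    set η := min (min η₀ η₁) (min η₂ η₃) with hηdef
    have hη : 0 < η := by simp [hηdef, hη₀, hη₁, hη₂, hη₃]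
    have l0 : η ≤ η₀ := (min_le_left _ _).trans (min_le_left _ _)
    have l1 : η ≤ η₁ := (min_le_left _ _).trans (min_le_right _ _)
    have l2 : η ≤ η₂ := (min_le_right _ _).trans (min_le_left _ _)
    have l3 : η ≤ η₃ := (min_le_right _ _).trans (min_le_right _ _)
    obtain ⟨Θ, hΘ, hΘ0, hΘη, hΘp⟩ := exists_theta (V := V) hη
    have hinv := hom_inv μ hN hΩ hb h0 h1 (η := η)
      (fun x hx t ht => lt_of_le_of_lt l0 (hη₀' (x, t) ⟨hx, ht⟩)) hΘ hΘη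
    rw [key0 η hη l1 l2 Θ hΘη] at hinv
    have hz : ∫ x in Ω, (fderiv ℝ Θ (Φ₁ x)).det * (fderiv ℝ Φ₁ x).det ∂μ = 0 := by
      rw [setIntegral_congr_fun (g := fun _ => (0 : ℝ)) hΩ.measurableSet, integral_zero]
      intro x hx
      show (fderiv ℝ Θ (Φ₁ x)).det * (fderiv ℝ Φ₁ x).det = 0
      rw [hΘη _ (l3.trans (hη₃' x (subset_closure hx)).le), zero_mul]
    rw [hz] at hinv
    have hJp := hJ Θ hΘ hΘ0 η hΘη hΘp
    have h1 := abs_sgn had
    rcases mul_eq_zero.mp hinv with h | h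
    · rw [h] at h1; simp at h1
    · exact hJp.ne' h
  · set d₁ := (fderiv ℝ Φ₁ p).det with hd₁
    have hd₁0 : d₁ ≠ 0 := fun h => by
      have := hs p hp p hp hp0 hp0
      rw [← hd₁, h] at this; simp at this
    have hqd : (fderiv ℝ Φ₁ q).det ≠ 0 := fun h => by
      have := hs q hq q hq hq0 hq0
      rw [h] at this; simp at this
    -- the sign near the zeros
    have hC1 : IsCompact (closure Ω ∩ {x | d₁ * (fderiv ℝ Φ₁ x).det ≤ 0}) :=
      hb.isCompact_closure.inter_right (isClosed_le (continuous_const.mul cd1) continuous_const)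
    obtain ⟨η₃, hη₃, hη₃'⟩ := pos_away hC1 c1 (fun x hx hx0 => by
      by_cases hxΩ : x ∈ Ω
      · exact absurd (hs p hp x hxΩ hp0 hx0) (not_lt.mpr hx.2)
      · exact hf1 x (hcl x hx.1 hxΩ) hx0)
    obtain ⟨Up, Uq, hUp, hUq, hpU, hqU, hdisj⟩ := t2_separation hpq
    obtain ⟨Wp, hWpU, hWpo, hpW, η₄, hη₄, hWp⟩ := local_zero μ h1 hp0 hd₁0
      (Filter.inter_mem (hΩ.mem_nhds hp) (hUp.mem_nhds hpU))
    obtain ⟨Wq, hWqU, hWqo, hqW, η₅, hη₅, hWq⟩ := local_zero μ h1 hq0 hqd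
      (Filter.inter_mem (hΩ.mem_nhds hq) (hUq.mem_nhds hqU))
    set η := min (min (min η₀ η₁) (min η₂ η₃)) (min η₄ η₅) with hηdef
    have hη : 0 < η := by simp [hηdef, hη₀, hη₁, hη₂, hη₃, hη₄, hη₅]
    have l0 : η ≤ η₀ := (min_le_left _ _).trans ((min_le_left _ _).trans (min_le_left _ _))
    have l1 : η ≤ η₁ := (min_le_left _ _).trans ((min_le_left _ _).trans (min_le_right _ _))
    have l2 : η ≤ η₂ := (min_le_left _ _).trans ((min_le_right _ _).trans (min_le_left _ _))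
    have l3 : η ≤ η₃ := (min_le_left _ _).trans ((min_le_right _ _).trans (min_le_right _ _))
    have l4 : η ≤ η₄ := (min_le_right _ _).trans (min_le_left _ _)
    have l5 : η ≤ η₅ := (min_le_right _ _).trans (min_le_right _ _)
    obtain ⟨Θ, hΘ, hΘ0, hΘη, hΘp⟩ := exists_theta (V := V) hη
    have hinv := hom_inv μ hN hΩ hb h0 h1 (η := η)
      (fun x hx t ht => lt_of_le_of_lt l0 (hη₀' (x, t) ⟨hx, ht⟩)) hΘ hΘη
    rw [key0 η hη l1 l2 Θ hΘη] at hinv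
    have hJp := hJ Θ hΘ hΘ0 η hΘη hΘp
    set J := ∫ y, (fderiv ℝ Θ y).det ∂μ with hJdef
    have cΘ : Continuous fun x => (fderiv ℝ Θ x).det :=
      ContinuousLinearMap.continuous_det.comp (hΘ.continuous_fderiv (by norm_num))
    set F : V → ℝ := fun x => |(fderiv ℝ Φ₁ x).det| * (fderiv ℝ Θ (Φ₁ x)).det with hF
    have hFc : Continuous F := cd1.abs.mul (cΘ.comp c1)
    have hF0 : ∀ x, 0 ≤ F x := fun x => mul_nonneg (abs_nonneg _) (hΘ0 _)
    have e1 : ∫ x in Ω, (fderiv ℝ Θ (Φ₁ x)).det * (fderiv ℝ Φ₁ x).det ∂μ =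
        d₁ / |d₁| * ∫ x in Ω, F x ∂μ := by
      rw [← integral_const_mul]
      refine setIntegral_congr_fun hΩ.measurableSet fun x hx => ?_
      show (fderiv ℝ Θ (Φ₁ x)).det * (fderiv ℝ Φ₁ x).det = d₁ / |d₁| * F x
      by_cases hxs : 0 < d₁ * (fderiv ℝ Φ₁ x).det
      · have := sgn_lemma hxs
        rw [hF]
        conv_lhs => rw [this]
        ring
      · have h2 : (fderiv ℝ Θ (Φ₁ x)).det = 0 :=
          hΘη _ (l3.trans (hη₃' x ⟨subset_closure hx, not_lt.mp hxs⟩).le)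
        simp [hF, h2]
    rw [e1] at hinv
    have hWpJ : ∫ x in Wp, F x ∂μ = J :=
      hWp (fun y => (fderiv ℝ Θ y).det) (fun y hy => hΘη y (l4.trans hy))
    have hWqJ : ∫ x in Wq, F x ∂μ = J :=
      hWq (fun y => (fderiv ℝ Θ y).det) (fun y hy => hΘη y (l5.trans hy))
    have hdis : Disjoint Wp Wq := hdisj.mono (fun x hx => (hWpU hx).2) (fun x hx => (hWqU hx).2)
    have hsub : Wp ∪ Wq ⊆ Ω := union_subset (fun x hx => (hWpU hx).1) (fun x hx => (hWqU hx).1)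
    have hunion : ∫ x in Wp ∪ Wq, F x ∂μ = J + J := by
      rw [setIntegral_union hdis hWqo.measurableSet
        ((hint hFc).mono_set (subset_union_left.trans hsub))
        ((hint hFc).mono_set (subset_union_right.trans hsub)), hWpJ, hWqJ]
    have hle : J + J ≤ ∫ x in Ω, F x ∂μ := by
      rw [← hunion]
      exact setIntegral_mono_set (hint hFc) (Filter.Eventually.of_forall hF0)
        (Filter.Eventually.of_forall hsub)
    have habs : |(d / |d| * J)| = |(d₁ / |d₁| * ∫ x in Ω, F x ∂μ)| := by rw [hinv]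
    rw [abs_mul, abs_mul, abs_sgn had, abs_sgn hd₁0, one_mul, one_mul, abs_of_pos hJp,
      abs_of_nonneg (by linarith)] at habs
    linarith

end Pool.Agent.H244.Deg
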