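import Pool.Agent.H244.Unif
import Pool.Graph.R_seed8.TH289.HomMain

set_option autoImplicit false
set_option linter.unusedSectionVars false

open Set Filter Topology Metric

namespace Pool.Agent.H244.Dyn

open Pool.Agent.H721R2 Pool.Agent.H789R2.AN Pool.Agent.TH289

variable {M : Type*} [MetricSpace M]

/-- a bi-infinite orbit -/
def Orb (g : M → M) (x : ℤ → M) : Prop := ∀ n, x (n + 1) = g (x n)

/-- `g` is expansive with the constant `κ` and has the shadowing property. -/
structure TA (g : M ≃ₜ M) (κ : ℝ) : Prop where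
  pos : 0 < κ
  exp : ∀ x y : ℤ → M, Orb g x → Orb g y → (∀ n, dist (x n) (y n) ≤ κ) → x = y
  sh : ∀ η > 0, ∃ δ > 0, ∀ x : ℤ → M, (∀ n, dist (g (x n)) (x (n + 1)) ≤ δ) →
    ∃ y : ℤ → M, Orb g y ∧ ∀ n, dist (y n) (x n) ≤ η

theorem orb_nat {g : M → M} {x : ℤ → M} (hx : Orb g x) (n : ℤ) (k : ℕ) :
    x (n + k) = g^[k] (x n) := by
  induction k with
  | zero => simp
  | succ k ih =>
    rw [Function.iterate_succ_apply', ← ih, ← hx]
    congr 1
    push_cast; ring

theorem orb_neg {g : M ≃ₜ M} {x : ℤ → M} (hx : Orb g x) (n : ℤ) (k : ℕ) :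
    x (n - k) = g.symm^[k] (x n) := by
  induction k with
  | zero => simp
  | succ k ih =>
    rw [Function.iterate_succ_apply', ← ih]
    have h := hx (n - ((k + 1 : ℕ) : ℤ))
    have h2 : n - ((k + 1 : ℕ) : ℤ) + 1 = n - k := by push_cast; ring
    rw [h2] at h
    rw [h, Homeomorph.symm_apply_apply]

/-- the orbit of a point -/
def ob (g : M ≃ₜ M) (x : M) : ℤ → M := fun n => match n with
  | Int.ofNat k => g^[k] x
  | Int.negSucc k => g.symm^[k + 1] x

theorem ob_orb (g : M ≃ₜ M) (x : M) : Orb g (ob g x) := by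
  intro n
  match n with
  | Int.ofNat k =>
    show g^[k + 1] x = g (g^[k] x)
    rw [Function.iterate_succ_apply']
  | Int.negSucc 0 =>
    show x = g (g.symm^[1] x)
    simp
  | Int.negSucc (k + 1) =>
    show g.symm^[k + 1] x = g (g.symm^[k + 2] x)
    rw [Function.iterate_succ_apply' g.symm (k + 1), Homeomorph.apply_symm_apply]

theorem ob_zero (g : M ≃ₜ M) (x : M) : ob g x 0 = x := rfl

theorem orb_ext {g : M ≃ₜ M} {x y : ℤ → M} (hx : Orb g x) (hy : Orb g y) (h : x 0 = y 0) :
    x = y := by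
  funext n
  rcases Int.le_total 0 n with hn | hn
  · obtain ⟨k, rfl⟩ := Int.eq_ofNat_of_zero_le hn
    have h1 := orb_nat hx 0 k
    have h2 := orb_nat hy 0 k
    rw [zero_add] at h1 h2
    rw [h1, h2, h]
  · obtain ⟨k, hk⟩ := Int.eq_ofNat_of_zero_le (a := -n) (by omega)
    have h1 := orb_neg hx 0 k
    have h2 := orb_neg hy 0 k
    have h3 : (0 : ℤ) - k = n := by omega
    rw [h3] at h1 h2
    rw [h1, h2, h]

variable [CompactSpace M]

theorem exists_TA {F : Type*} [NormedAddCommGroup F] [NormedSpace ℝ F] {g : M ≃ₜ M} {N : ℕ}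
    (hN : 1 ≤ N) (S : HypSys M F) (hS : S.g = iterHomeo g N) : ∃ κ, TA g κ := by
  obtain ⟨c, hc⟩ := exists_LP S
  rw [hS] at hc
  refine ⟨c, hc.c_pos, fun x y hx hy hxy => ?_, fun η hη => ?_⟩
  · funext n
    refine expansive hc (fun k => ?_) (fun k => ?_)
    · rw [iterHomeo_iter, iterHomeo_iter, ← orb_nat hx, ← orb_nat hy]
      exact hxy _
    · rw [iterHomeo_symm_iter, iterHomeo_symm_iter, ← orb_neg hx, ← orb_neg hy]
      exact hxy _
  · obtain ⟨ε₀, hε₀, hsh⟩ := S.shadowing
    have hK := S.one_le_K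
    have hK0 : 0 < S.K := by linarith
    -- uniform continuity of the first iterates
    have huc : ∀ k : ℕ, ∃ δ > 0, ∀ a b : M, dist a b < δ → dist (g^[k] a) (g^[k] b) < η / 2 :=
      fun k => Metric.uniformContinuous_iff.mp
        (CompactSpace.uniformContinuous_of_continuous (g.continuous.iterate k)) _ (half_pos hη)
    obtain ⟨η₁, hη₁, hη₁'⟩ := Pool.Agent.H244.Loc.fin_min (Finset.range N)
      (fun k δ => ∀ a b : M, dist a b < δ → dist (g^[k] a) (g^[k] b) < η / 2)
      (fun k δ δ' hle _ h a b hab => h a b (hab.trans_le hle)) (fun k _ => huc k)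
    set ε := min ε₀ (η₁ / (16 * S.K)) with hε
    have hεp : 0 < ε := lt_min hε₀ (by positivity)
    obtain ⟨δ₁, hδ₁, h1⟩ := pseudo_iter g N hεp
    obtain ⟨δ₂, hδ₂, h2⟩ := Pool.Agent.H244.Loc.fin_min (Finset.range N)
      (fun k δ => ∀ c : ℕ → M, (∀ i, dist (g (c i)) (c (i + 1)) ≤ δ) →
        dist (g^[k] (c 0)) (c k) ≤ η / 2)
      (fun k δ δ' hle _ h c hc => h c fun i => (hc i).trans hle)
      (fun k _ => pseudo_iter g k (half_pos hη))
    refine ⟨min δ₁ δ₂, lt_min hδ₁ hδ₂, fun x hx => ?_⟩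
    have hps : ∀ (n : ℤ) (i : ℕ), dist (g (x (n + i))) (x (n + (i + 1 : ℕ))) ≤ min δ₁ δ₂ := by
      intro n i
      have := hx (n + i)
      rwa [show n + (i : ℤ) + 1 = n + ((i + 1 : ℕ) : ℤ) by push_cast; ring] at this
    obtain ⟨Y, hY, hYx⟩ := hsh ε (min_le_left _ _) (fun m => x (m * N)) (fun m => by
      rw [hS]
      show dist (g^[N] (x (m * N))) (x ((m + 1) * N)) ≤ ε
      have := h1 (fun i => x (m * N + i)) (fun i => (hps _ i).trans (min_le_left _ _))
      simp only [Nat.cast_zero, add_zero] at this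
      rwa [show (m + 1) * (N : ℤ) = m * N + N by ring])
    have hY' : ∀ n, Y (n + 1) = g^[N] (Y n) := fun n => by rw [hY n, hS]; rfl
    have hNp : (0 : ℤ) < N := by omega
    refine ⟨fun n => g^[(n % N).toNat] (Y (n / N)), fun n => ?_, fun n => ?_⟩
    · have hm0 := Int.emod_nonneg n hNp.ne'
      have hm1 := Int.emod_lt_of_pos n hNp
      have hdm := Int.mul_ediv_add_emod n N
      rcases lt_or_eq_of_le (show n % N + 1 ≤ N by omega) with hlt | heq
      · have e1 : (n + 1) / N = n / N := by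
          rw [show n + 1 = (n % N + 1) + N * (n / N) by omega, Int.add_mul_ediv_left _ _ hNp.ne',
            Int.ediv_eq_zero_of_lt (by omega) hlt, zero_add]
        have e2 : (n + 1) % N = n % N + 1 := by
          rw [show n + 1 = (n % N + 1) + N * (n / N) by omega, Int.add_mul_emod_self_left,
            Int.emod_eq_of_lt (by omega) hlt]
        show g^[((n + 1) % N).toNat] (Y ((n + 1) / N)) = g (g^[(n % N).toNat] (Y (n / N)))
        rw [e1, e2, ← Function.iterate_succ_apply' g]
        congr 2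
        omega
      · have e1 : (n + 1) / N = n / N + 1 := by
          rw [show n + 1 = 0 + N * (n / N + 1) by rw [mul_add]; omega,
            Int.add_mul_ediv_left _ _ hNp.ne']
          simp
        have e2 : (n + 1) % N = 0 := by
          rw [show n + 1 = 0 + N * (n / N + 1) by rw [mul_add]; omega, Int.add_mul_emod_self_left]
          simp
        show g^[((n + 1) % N).toNat] (Y ((n + 1) / N)) = g (g^[(n % N).toNat] (Y (n / N)))
        rw [e1, e2, hY', ← Function.iterate_succ_apply' g]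
        have e3 : (n % N).toNat.succ = N := by omega
        rw [e3]; rfl
    · have hm0 := Int.emod_nonneg n hNp.ne'
      have hm1 := Int.emod_lt_of_pos n hNp
      have hdm := Int.mul_ediv_add_emod n N
      have hr : (n % N).toNat ∈ Finset.range N := by
        rw [Finset.mem_range]; omega
      set r := (n % N).toNat with hrdef
      have hn : n = n / N * N + r := by
        rw [hrdef, Int.toNat_of_nonneg hm0, mul_comm]; exact hdm.symm
      have a1 : dist (Y (n / N)) (x (n / N * N)) < η₁ := by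
        refine (hYx _).trans_lt ?_
        have : 8 * S.K * ε ≤ 8 * S.K * (η₁ / (16 * S.K)) := by
          apply mul_le_mul_of_nonneg_left (min_le_right _ _) (by positivity)
        have h5 : 8 * S.K * (η₁ / (16 * S.K)) = η₁ / 2 := by field_simp; ring
        linarith
      have a2 := hη₁' r hr _ _ a1
      have a3 := h2 r hr (fun i => x (n / N * N + i)) (fun i => (hps _ i).trans (min_le_right _ _))
      simp only [Nat.cast_zero, add_zero] at a3
      calc dist (g^[r] (Y (n / N))) (x n)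
          ≤ dist (g^[r] (Y (n / N))) (g^[r] (x (n / N * N))) +
            dist (g^[r] (x (n / N * N))) (x n) := dist_triangle _ _ _
        _ ≤ η / 2 + η / 2 := by
          apply add_le_add a2.le
          rwa [← hn] at a3
        _ = η := by ring

/-! closed orbits -/

theorem perm_seq {ι : Type*} (σ : Equiv.Perm ι) (i : ι) (n : ℤ) :
    (σ ^ (n + 1)) i = σ ((σ ^ n) i) := by
  rw [zpow_add_one, (Commute.refl σ).zpow_left n |>.eq, Equiv.Perm.mul_apply]

theorem closed_orb {ι : Type*} {σ : Equiv.Perm ι} {g : M → M} {x : ι → M}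
    (hx : ∀ i, x (σ i) = g (x i)) (i : ι) : Orb g (fun n : ℤ => x ((σ ^ n) i)) := fun n => by
  show x ((σ ^ (n + 1)) i) = g (x ((σ ^ n) i))
  rw [perm_seq, hx]

theorem closed_exp {g : M ≃ₜ M} {κ : ℝ} (h : TA g κ) {ι : Type*} {σ : Equiv.Perm ι} {x y : ι → M}
    (hx : ∀ i, x (σ i) = g (x i)) (hy : ∀ i, y (σ i) = g (y i))
    (hxy : ∀ i, dist (x i) (y i) ≤ κ) : x = y := by
  funext i
  have := h.exp _ _ (closed_orb hx i) (closed_orb hy i) (fun n => hxy _)
  have h0 := congrFun this 0
  simpa using h0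

theorem closed_shadow {g : M ≃ₜ M} {κ : ℝ} (h : TA g κ) {η : ℝ} (hη : 0 < η) :
    ∃ δ > 0, ∀ {ι : Type} {σ : Equiv.Perm ι} {p : ι → M},
      (∀ i, dist (g (p i)) (p (σ i)) ≤ δ) →
      ∃ q : ι → M, (∀ i, q (σ i) = g (q i)) ∧ ∀ i, dist (q i) (p i) ≤ η := by
  have hκ := h.pos
  obtain ⟨δ, hδ, hsh⟩ := h.sh (min η (κ / 2)) (lt_min hη (half_pos hκ))
  refine ⟨δ, hδ, fun {ι σ p} hp => ?_⟩
  have hex : ∀ i : ι, ∃ y : ℤ → M, Orb g y ∧ ∀ n, dist (y n) (p ((σ ^ n) i)) ≤ min η (κ / 2) := by
    intro i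
    apply hsh
    intro n
    rw [perm_seq]
    exact hp _
  choose Y hY hYd using hex
  refine ⟨fun i => Y i 0, fun i => ?_, fun i => ?_⟩
  · -- the two orbits agree
    have h1 : Orb g (fun n => Y i (n + 1)) := fun n => hY i (n + 1)
    have h2 := h.exp _ _ (hY (σ i)) h1 (fun n => by
      have a1 := hYd (σ i) n
      have a2 := hYd i (n + 1)
      have e1 : (σ ^ n) (σ i) = (σ ^ (n + 1)) i := by
        rw [zpow_add_one, Equiv.Perm.mul_apply]
      rw [e1] at a1
      have a3 := dist_triangle_right (Y (σ i) n) (Y i (n + 1)) (p ((σ ^ (n + 1)) i))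
      have a4 := min_le_right η (κ / 2)
      show dist (Y (σ i) n) (Y i (n + 1)) ≤ κ
      linarith)
    have h3 := congrFun h2 0
    show Y (σ i) 0 = g (Y i 0)
    rw [h3]
    exact hY i 0
  · have := hYd i 0
    simp only [zpow_zero, Equiv.Perm.coe_one, id_eq] at this
    exact this.trans (min_le_left _ _)

end Pool.Agent.H244.Dyn
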