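import Mathlib


/-!
# Closed subgroups of a torus are annihilators

Copied from the library (`Pool/Graph/R_pool_sql_team_18ca10b6/H27/Kron.lean`).
-/
set_option autoImplicit false
open Set Filter Topology MeasureTheory UnitAddTorus

namespace Pool.Agent.H244.Kron

theorem mF {d : Type} [Fintype d] (n : d → ℤ) (x : UnitAddTorus d) :
    mFourier n x = ((AddCircle.toCircle (∑ i, n i • x i) : Circle) : ℂ) := by
  classical
  have h : ∀ s : Finset d, ((AddCircle.toCircle (∑ i ∈ s, n i • x i) : Circle) : ℂ) =
      ∏ i ∈ s, fourier (n i) (x i) := by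
    intro s
    induction s using Finset.induction_on with
    | empty => simp
    | insert a s ha ih =>
      rw [Finset.sum_insert ha, Finset.prod_insert ha, AddCircle.toCircle_add, Circle.coe_mul, ih]
      rfl
  exact (h Finset.univ).symm

theorem kill_iff {d : Type} [Fintype d] (n : d → ℤ) (x : UnitAddTorus d) :
    mFourier n x = 1 ↔ ∑ i, n i • x i = 0 := by
  rw [mF]
  constructor
  · intro h
    have h1 : AddCircle.toCircle (∑ i, n i • x i) = AddCircle.toCircle (0 : UnitAddCircle) := by
      apply Subtype.ext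
      rw [AddCircle.toCircle_zero]
      exact h
    exact AddCircle.injective_toCircle one_ne_zero h1
  · intro h
    rw [h, AddCircle.toCircle_zero]
    rfl

theorem mF_add {d : Type} [Fintype d] (n : d → ℤ) (x y : UnitAddTorus d) :
    mFourier n (x + y) = mFourier n x * mFourier n y := by
  rw [mF, mF, mF, ← Circle.coe_mul, ← AddCircle.toCircle_add, ← Finset.sum_add_distrib]
  simp only [Pi.add_apply, smul_add]

/-- closed subgroups of a torus are annihilators -/
theorem kron {d : Type} [Fintype d] (S : AddSubgroup (UnitAddTorus d))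
    (hS : IsClosed (S : Set (UnitAddTorus d))) (p : UnitAddTorus d) (hp : p ∉ S) :
    ∃ n : d → ℤ, (∀ s ∈ S, ∑ i, n i • s i = 0) ∧ ∑ i, n i • p i ≠ 0 := by
  by_contra hno
  push Not at hno
  have hcS : CompactSpace S := isCompact_iff_compactSpace.mp hS.isCompact
  let _ : MeasurableSpace S := borel S
  have _ : BorelSpace S := ⟨rfl⟩
  let μ : Measure S := Measure.addHaarMeasure (⊤ : TopologicalSpace.PositiveCompacts S)
  have hμ : μ univ = 1 := Measure.addHaarMeasure_self (K₀ := (⊤ : TopologicalSpace.PositiveCompacts S))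
  have _ : IsProbabilityMeasure μ := ⟨hμ⟩
  -- averages
  let J : C(UnitAddTorus d, ℂ) → UnitAddTorus d → ℂ := fun g x => ∫ s : S, g (x + s) ∂μ
  have hcont : ∀ (g : C(UnitAddTorus d, ℂ)) x, Continuous fun s : S => g (x + s) := by
    intro g x
    fun_prop
  have hint : ∀ (g : C(UnitAddTorus d, ℂ)) x, Integrable (fun s : S => g (x + s)) μ := by
    intro g x
    exact (hcont g x).integrable_of_hasCompactSupport (HasCompactSupport.of_compactSpace _)
  have hzero : ∀ n : d → ℤ, (¬ ∀ s ∈ S, ∑ i, n i • s i = 0) → ∫ s : S, mFourier n s ∂μ = 0 := by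
    intro n hn
    push Not at hn
    obtain ⟨s0, hs0, hs0'⟩ := hn
    have h1 : mFourier n s0 ≠ 1 := fun h => hs0' ((kill_iff n s0).mp h)
    have h2 : ∫ s : S, mFourier n (((⟨s0, hs0⟩ + s : S)) : UnitAddTorus d) ∂μ =
        ∫ s : S, mFourier n (s : UnitAddTorus d) ∂μ :=
      integral_add_left_eq_self (μ := μ) (fun s : S => mFourier n (s : UnitAddTorus d)) ⟨s0, hs0⟩
    have h3 : ∫ s : S, mFourier n (((⟨s0, hs0⟩ + s : S)) : UnitAddTorus d) ∂μ =
        mFourier n s0 * ∫ s : S, mFourier n (s : UnitAddTorus d) ∂μ := by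
      rw [← integral_const_mul]
      congr 1
      funext s
      exact mF_add n s0 s
    rw [h3] at h2
    have h4 : (mFourier n s0 - 1) * ∫ s : S, mFourier n (s : UnitAddTorus d) ∂μ = 0 := by
      rw [sub_mul, h2, one_mul, sub_self]
    rcases mul_eq_zero.mp h4 with h | h
    · exact absurd (sub_eq_zero.mp h) h1
    · exact h
  have hmon : ∀ n : d → ℤ, J (mFourier n) p = J (mFourier n) 0 := by
    intro n
    have h1 : ∀ x, J (mFourier n) x = mFourier n x * ∫ s : S, mFourier n s ∂μ := by
      intro x
      rw [← integral_const_mul]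
      show ∫ s : S, mFourier n (x + s) ∂μ = _
      congr 1
      funext s
      exact mF_add n x s
    rw [h1, h1]
    by_cases hn : ∀ s ∈ S, ∑ i, n i • s i = 0
    · rw [(kill_iff n p).mpr (hno n hn), (kill_iff n 0).mpr (by simp)]
    · rw [hzero n hn]; simp
  have hspan : ∀ g ∈ Submodule.span ℂ (range (mFourier (d := d))), J g p = J g 0 := by
    intro g hg
    induction hg using Submodule.span_induction with
    | mem g hg =>
      obtain ⟨n, rfl⟩ := hg
      exact hmon n
    | zero => rfl
    | add g g' _ _ h h' =>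
      show ∫ s : S, (g (p + s) + g' (p + s)) ∂μ = ∫ s : S, (g (0 + s) + g' (0 + s)) ∂μ
      rw [integral_add (hint g p) (hint g' p), integral_add (hint g 0) (hint g' 0)]
      exact congrArg₂ (· + ·) h h'
    | smul c g _ h =>
      show ∫ s : S, (c * g (p + s)) ∂μ = ∫ s : S, (c * g (0 + s)) ∂μ
      rw [integral_const_mul, integral_const_mul]
      exact congrArg (c * ·) h
  -- the separating function
  have hpS : IsClosed ((fun x => p + x) '' (S : Set (UnitAddTorus d))) :=
    (Homeomorph.addLeft p).isClosedMap _ hS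
  have hdis : Disjoint (S : Set (UnitAddTorus d)) ((fun x => p + x) '' (S : Set (UnitAddTorus d))) := by
    rw [Set.disjoint_left]
    rintro x hx ⟨y, hy, rfl⟩
    apply hp
    have := S.sub_mem hx hy
    simpa using this
  obtain ⟨f, hf0, hf1, -⟩ := exists_continuous_zero_one_of_isClosed hS hpS hdis
  let fc : C(UnitAddTorus d, ℂ) := ⟨fun x => (f x : ℂ), by fun_prop⟩
  have hdense : fc ∈ (Submodule.span ℂ (range (mFourier (d := d)))).topologicalClosure := by
    rw [span_mFourier_closure_eq_top]; trivial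
  have hdense' : fc ∈ closure (Submodule.span ℂ (range (mFourier (d := d))) : Set C(UnitAddTorus d, ℂ)) :=
    hdense
  obtain ⟨g, hg, hdist⟩ := Metric.mem_closure_iff.mp hdense' (1 / 4) (by norm_num)
  have hbound : ∀ x, ‖J fc x - J g x‖ ≤ 1 / 4 := by
    intro x
    show ‖∫ s : S, fc (x + s) ∂μ - ∫ s : S, g (x + s) ∂μ‖ ≤ 1 / 4
    rw [← integral_sub (hint fc x) (hint g x)]
    have := norm_integral_le_of_norm_le_const (μ := μ) (f := fun s : S => fc (x + s) - g (x + s))
      (C := 1 / 4) (Eventually.of_forall fun s => by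
        rw [← dist_eq_norm]
        exact (ContinuousMap.dist_apply_le_dist _).trans hdist.le)
    simpa using this
  have e0 : J fc 0 = 0 := by
    show ∫ s : S, fc (0 + s) ∂μ = 0
    have : ∀ s : S, fc (0 + s) = 0 := by
      intro s
      show ((f (0 + s) : ℝ) : ℂ) = 0
      rw [zero_add, hf0 s.2]; simp
    simp only [this, integral_zero]
  have e1 : J fc p = 1 := by
    show ∫ s : S, fc (p + s) ∂μ = 1
    have : ∀ s : S, fc (p + s) = 1 := by
      intro s
      show ((f (p + s) : ℝ) : ℂ) = 1
      rw [hf1 ⟨s, s.2, rfl⟩]; simp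
    simp only [this]
    simp
  have b0 := hbound 0
  have b1 := hbound p
  rw [e0] at b0
  rw [e1, hspan g hg] at b1
  have : (1 : ℂ) = (1 - J g 0) - (0 - J g 0) := by ring
  have h2 : ‖(1 : ℂ)‖ ≤ 1 / 4 + 1 / 4 := by
    rw [this]
    exact (norm_sub_le _ _).trans (add_le_add b1 b0)
  norm_num at h2

end Pool.Agent.H244.Kron
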