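import Pool.Agent.H244.FacDef
import Pool.Agent.H244.Kron

/-!
# Closed subgroups and quotients of tori
-/

set_option autoImplicit false

open Set Filter Topology

namespace Pool.Agent.H244.Fac

/-- the torus -/
abbrev Tor (n : ℕ) := Fin n → AddCircle (1 : ℝ)

theorem act_add {p n : ℕ} (M : Matrix (Fin p) (Fin n) ℤ) (x y : Tor n) :
    act M (x + y) = act M x + act M y := by
  funext i
  simp only [act, Pi.add_apply, smul_add, Finset.sum_add_distrib]

/-- as a homomorphism -/
def actHom {p n : ℕ} (M : Matrix (Fin p) (Fin n) ℤ) : Tor n →+ Tor p where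
  toFun := act M
  map_zero' := by funext i; simp [act]
  map_add' := act_add M

@[simp] theorem actHom_apply {p n : ℕ} (M : Matrix (Fin p) (Fin n) ℤ) (x : Tor n) :
    actHom M x = act M x := rfl

theorem act_zero {p n : ℕ} (M : Matrix (Fin p) (Fin n) ℤ) : act M (0 : Tor n) = 0 :=
  (actHom M).map_zero

theorem act_sub {p n : ℕ} (M : Matrix (Fin p) (Fin n) ℤ) (x y : Tor n) :
    act M (x - y) = act M x - act M y := (actHom M).map_sub x y

theorem act_neg {p n : ℕ} (M : Matrix (Fin p) (Fin n) ℤ) (x : Tor n) :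
    act M (-x) = -act M x := (actHom M).map_neg x

theorem act_mul {q p n : ℕ} (M : Matrix (Fin q) (Fin p) ℤ) (N : Matrix (Fin p) (Fin n) ℤ)
    (x : Tor n) : act (M * N) x = act M (act N x) := by
  funext i
  simp only [act, Matrix.mul_apply, Finset.sum_smul, Finset.smul_sum, mul_smul]
  exact Finset.sum_comm

theorem act_one {n : ℕ} (x : Tor n) : act (1 : Matrix (Fin n) (Fin n) ℤ) x = x := by
  funext i
  simp [act, Matrix.one_apply]

theorem act_cont {p n : ℕ} (M : Matrix (Fin p) (Fin n) ℤ) : Continuous (act M) := by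
  unfold act
  fun_prop

theorem act_smulR {p n : ℕ} (c : Fin p → ℤ) (M : Matrix (Fin p) (Fin n) ℤ) (x : Tor n) :
    ∑ i, c i • act M x i = ∑ j, (Matrix.vecMul c M) j • x j := by
  simp only [act, Matrix.vecMul, dotProduct, Finset.sum_smul, Finset.smul_sum, mul_smul]
  exact Finset.sum_comm

theorem int_zero {N : ℤ} (h : ∀ t : AddCircle (1 : ℝ), N • t = 0) : N = 0 := by
  by_contra hN
  have h1 := h (((1 / (2 * N : ℝ) : ℝ)) : AddCircle (1 : ℝ))
  have hN' : (N : ℝ) ≠ 0 := by exact_mod_cast hN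
  rw [← AddCircle.coe_zsmul, AddCircle.coe_eq_zero_iff] at h1
  obtain ⟨k, hk⟩ := h1
  have h2 : (k : ℝ) = 1 / 2 := by
    have h3 : (k : ℝ) = (N : ℝ) * (1 / (2 * N)) := by
      simpa using hk
    rw [h3]
    field_simp
  have h4 : ((2 * k : ℤ) : ℝ) = ((1 : ℤ) : ℝ) := by push_cast; linarith
  have h5 : (2 * k : ℤ) = 1 := by exact_mod_cast h4
  omega

theorem vec_zero {n : ℕ} {c : Fin n → ℤ} (h : ∀ x : Tor n, ∑ j, c j • x j = 0) : c = 0 := by
  funext j
  refine int_zero fun t => ?_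
  have := h (Pi.single j t)
  rw [Finset.sum_eq_single j] at this
  · simpa using this
  · intro i _ hi
    rw [Pi.single_eq_of_ne hi, smul_zero]
  · intro hj
    exact absurd (Finset.mem_univ j) hj

/-- a closed subgroup not annihilated by any integer vector is the whole torus -/
theorem sub_top {n : ℕ} (S : AddSubgroup (Tor n)) (hS : IsClosed (S : Set (Tor n)))
    (h : ∀ c : Fin n → ℤ, (∀ s ∈ S, ∑ i, c i • s i = 0) → c = 0) (x : Tor n) : x ∈ S := by
  by_contra hx
  obtain ⟨c, h1, h2⟩ := Kron.kron S hS x hx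
  apply h2
  rw [h c h1]
  simp

theorem act_surj {m n : ℕ} {L : Matrix (Fin m) (Fin n) ℤ}
    (hL : ∀ c : Fin m → ℤ, Matrix.vecMul c L = 0 → c = 0) : Function.Surjective (act L) := by
  intro y
  have hcl : IsClosed (((actHom L).range : AddSubgroup (Tor m)) : Set (Tor m)) := by
    have : (((actHom L).range : AddSubgroup (Tor m)) : Set (Tor m)) = range (act L) := by
      ext z
      simp
    rw [this]
    exact (isCompact_range (act_cont L)).isClosed
  have := sub_top (actHom L).range hcl (fun c hc => by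
    refine hL c (vec_zero fun x => ?_)
    rw [← act_smulR]
    exact hc _ ⟨x, rfl⟩) y
  obtain ⟨x, hx⟩ := this
  exact ⟨x, hx⟩

/-- quotients of tori by closed subgroups -/
theorem exists_L {n : ℕ} (K : AddSubgroup (Tor n)) (hK : IsClosed (K : Set (Tor n))) :
    ∃ (m : ℕ) (L : Matrix (Fin m) (Fin n) ℤ), (∀ x, act L x = 0 ↔ x ∈ K) ∧
      (∀ c : Fin m → ℤ, Matrix.vecMul c L = 0 → c = 0) ∧
      ∀ c : Fin n → ℤ, (∀ k ∈ K, ∑ i, c i • k i = 0) → ∃ b : Fin m → ℤ, Matrix.vecMul b L = c := by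
  classical
  let N : Submodule ℤ (Fin n → ℤ) :=
    { carrier := {c | ∀ k ∈ K, ∑ i, c i • k i = 0}
      add_mem' := by
        intro a b ha hb k hk
        simp only [Pi.add_apply, add_smul, Finset.sum_add_distrib, ha k hk, hb k hk, add_zero]
      zero_mem' := by intro k _; simp
      smul_mem' := by
        intro a c hc k hk
        simp only [Pi.smul_apply, smul_eq_mul, mul_smul, ← Finset.smul_sum, hc k hk, smul_zero] }
  obtain ⟨m, b⟩ := Submodule.basisOfPid (Pi.basisFun ℤ (Fin n)) N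
  obtain ⟨LL, hLL⟩ : ∃ LL : Matrix (Fin m) (Fin n) ℤ, ∀ i j, LL i j = (b i : Fin n → ℤ) j :=
    ⟨Matrix.of fun i j => (b i : Fin n → ℤ) j, fun i j => rfl⟩
  have hv : ∀ c : Fin m → ℤ, Matrix.vecMul c LL =
      ((∑ i, c i • b i : N) : Fin n → ℤ) := by
    intro c
    funext j
    simp only [Matrix.vecMul, dotProduct, hLL]
    rw [Submodule.coe_sum, Finset.sum_apply]
    rfl
  refine ⟨m, LL, ?_, ?_, ?_⟩
  · intro x
    constructor
    · intro hx
      by_contra hxK
      obtain ⟨c, h1, h2⟩ := Kron.kron K hK x hxK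
      apply h2
      have h3 : (⟨c, h1⟩ : N) = ∑ i, (b.repr ⟨c, h1⟩ i) • b i := (b.sum_repr _).symm
      have h4 : c = Matrix.vecMul (fun i => b.repr ⟨c, h1⟩ i) LL := by
        rw [hv, ← h3]
      rw [h4, ← act_smulR, hx]
      simp
    · intro hx
      funext i
      simp only [act, hLL]
      exact (b i).2 x hx
  · intro c hc
    rw [hv] at hc
    have h1 : (∑ i, c i • b i : N) = 0 := Subtype.ext hc
    have := Fintype.linearIndependent_iff.1 b.linearIndependent c h1
    exact funext this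
  · intro c hc
    refine ⟨fun i => b.repr ⟨c, hc⟩ i, ?_⟩
    rw [hv, b.sum_repr]

theorem exists_C {m n : ℕ} {K : AddSubgroup (Tor n)} {L : Matrix (Fin m) (Fin n) ℤ}
    (hL : ∀ x, act L x = 0 ↔ x ∈ K)
    (hb : ∀ c : Fin n → ℤ, (∀ k ∈ K, ∑ i, c i • k i = 0) → ∃ b : Fin m → ℤ, Matrix.vecMul b L = c)
    {C : Matrix (Fin n) (Fin n) ℤ} (hC : ∀ k ∈ K, act C k ∈ K) :
    ∃ B : Matrix (Fin m) (Fin m) ℤ, L * C = B * L := by
  have h1 : ∀ i : Fin m, ∃ b : Fin m → ℤ, Matrix.vecMul b L =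
      Matrix.vecMul (fun j => L i j) C := by
    intro i
    refine hb _ fun k hk => ?_
    rw [← act_smulR]
    have := (hL (act C k)).2 (hC k hk)
    exact congrFun this i
  choose B hB using h1
  obtain ⟨BB, hBB⟩ : ∃ BB : Matrix (Fin m) (Fin m) ℤ, ∀ i j, BB i j = B i j :=
    ⟨Matrix.of B, fun i j => rfl⟩
  refine ⟨BB, ?_⟩
  ext i j
  have := congrFun (hB i) j
  simp only [Matrix.vecMul, dotProduct] at this
  rw [Matrix.mul_apply, Matrix.mul_apply]
  simp only [hBB]
  exact this.symm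

theorem exists_B {m n : ℕ} {K : AddSubgroup (Tor n)} {L : Matrix (Fin m) (Fin n) ℤ}
    (hL : ∀ x, act L x = 0 ↔ x ∈ K) (hi : ∀ c : Fin m → ℤ, Matrix.vecMul c L = 0 → c = 0)
    (hb : ∀ c : Fin n → ℤ, (∀ k ∈ K, ∑ i, c i • k i = 0) → ∃ b : Fin m → ℤ, Matrix.vecMul b L = c)
    {A : Matrix (Fin n) (Fin n) ℤ} (hA : IsUnit A.det) (hC : ∀ k, act A k ∈ K ↔ k ∈ K) :
    ∃ B : Matrix (Fin m) (Fin m) ℤ, IsUnit B.det ∧ L * A = B * L := by
  obtain ⟨B, hB⟩ := exists_C hL hb (C := A) (fun k hk => (hC k).2 hk)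
  obtain ⟨B', hB'⟩ := exists_C hL hb (C := A⁻¹) (fun k hk => by
    rw [← hC, ← act_mul, Matrix.mul_nonsing_inv _ hA, act_one]
    exact hk)
  refine ⟨B, ?_, hB⟩
  have h1 : L = (B * B') * L := by
    calc L = L * (A * A⁻¹) := by rw [Matrix.mul_nonsing_inv _ hA, Matrix.mul_one]
      _ = (L * A) * A⁻¹ := by rw [Matrix.mul_assoc]
      _ = B * (L * A⁻¹) := by rw [hB, Matrix.mul_assoc]
      _ = (B * B') * L := by rw [hB', Matrix.mul_assoc]
  have h2 : (1 - B * B') * L = 0 := by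
    rw [Matrix.sub_mul, Matrix.one_mul, ← h1, sub_self]
  have h3 : 1 - B * B' = 0 := by
    ext i j
    have h4 : Matrix.vecMul (fun j => (1 - B * B') i j) L = 0 := by
      funext j
      have := congrFun (congrFun h2 i) j
      rw [Matrix.mul_apply] at this
      simpa [Matrix.vecMul, dotProduct] using this
    exact congrFun (hi _ h4) j
  have h5 : B * B' = 1 := (sub_eq_zero.1 h3).symm
  exact Matrix.isUnit_det_of_right_inverse h5

end Pool.Agent.H244.Fac
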