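import Pool.Agent.H244.Fac9

/-!
# Expansive factors of toral automorphisms on manifolds
-/

set_option autoImplicit false

open Set Filter Topology Metric

namespace Pool.Agent.H244.Fac

open Pool.Agent.H779R2.To Pool.Agent.TH289.K

variable {m : ℕ} {Y : Type*} [TopologicalSpace Y] {q : C(Tor m, Y)}
  {B B' : Matrix (Fin m) (Fin m) ℤ} {g : Y ≃ₜ Y}

/-- the deck group -/
def deck (q : C(Tor m, Y))
    (hinv : ∀ σ : Equiv.Perm (Fin m → ℝ), Dk q σ → Dk q (σ⁻¹ : Equiv.Perm (Fin m → ℝ))) :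
    Subgroup (Equiv.Perm (Fin m → ℝ)) where
  carrier := {σ | Dk q σ}
  mul_mem' := by
    intro a b ha hb
    refine ⟨ha.cont.comp hb.cont, fun v => ?_⟩
    show q (pr (a (b v))) = _
    rw [ha.lift, hb.lift]
  one_mem' := Dk.id q
  inv_mem' := by
    intro a ha
    exact hinv a ha

theorem covering_P [T2Space Y] [CompactSpace Y] (F : Fc B B' 0 g q) (hg : Expansive g)
    {δ : ℝ} (hI : Ij q δ) (hfin : ∀ y, (q ⁻¹' {y}).Finite) (hS : Sp B B')
    (hs : Function.Surjective q) (hq : IsCoveringMap q) : IsCoveringMap fun v => q (pr v) := by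
  have hinv : ∀ σ : Equiv.Perm (Fin m → ℝ), Dk q σ → Dk q (σ⁻¹ : Equiv.Perm (Fin m → ℝ)) := by
    intro σ hσ
    obtain ⟨T, hT⟩ := hσ.linear F hg hI hfin hS
    have h1 : ∀ v, (σ⁻¹ : Equiv.Perm (Fin m → ℝ)) v = T.symm (v - σ 0) := by
      intro v
      rw [Equiv.Perm.inv_eq_iff_eq, hT, T.apply_symm_apply, sub_add_cancel]
    refine ⟨?_, fun v => ?_⟩
    · have h2 : ((σ⁻¹ : Equiv.Perm (Fin m → ℝ)) : (Fin m → ℝ) → (Fin m → ℝ)) =
          fun v => T.symm (v - σ 0) := funext h1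
      rw [h2]
      exact (LinearMap.continuous_of_finiteDimensional
        (T.symm : (Fin m → ℝ) →ₗ[ℝ] (Fin m → ℝ))).comp (continuous_id.sub continuous_const)
    · rw [← hσ.lift]
      congr 2
      exact σ.apply_symm_apply v
  have hquot : IsQuotientMap fun v : Fin m → ℝ => q (pr v) :=
    (q.continuous.isClosedMap.isQuotientMap q.continuous hs).comp
      (pr_open.isQuotientMap pr_cont pr_surj)
  have key : IsQuotientCoveringMap (fun v : Fin m → ℝ => q (pr v)) (deck q hinv) :=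
    { hquot with
      continuous_const_smul := fun c => c.2.cont
      apply_eq_iff_mem_orbit := by
        intro e₁ e₂
        constructor
        · intro h
          obtain ⟨γ, hγ, hγe⟩ := exists_deck hq h
          obtain ⟨T, hT⟩ := hγ.linear F hg hI hfin hS
          let σ : Equiv.Perm (Fin m → ℝ) := T.toEquiv.trans (Equiv.addRight (γ 0))
          have hσ : ((σ : Equiv.Perm (Fin m → ℝ)) : (Fin m → ℝ) → (Fin m → ℝ)) = γ := by
            funext v
            rw [hT]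
            rfl
          have hσd : σ ∈ deck q hinv := by
            show Dk q σ
            rw [hσ]
            exact hγ
          refine ⟨⟨σ, hσd⟩, ?_⟩
          show σ e₂ = e₁
          rw [hσ, hγe]
        · rintro ⟨σ, rfl⟩
          exact σ.2.lift e₂
      disjoint := by
        intro e
        refine ⟨ball e (δ / 2), ball_mem_nhds _ (half_pos hI.1), ?_⟩
        rintro σ ⟨_, ⟨x, hx, rfl⟩, hx'⟩
        have hσ : Dk q σ.1 := σ.2
        have h1 : σ.1 x = x := by
          refine hI.2 _ _ ?_ (hσ.lift x)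
          have h2 : σ.1 x ∈ ball e (δ / 2) := hx'
          rw [mem_ball] at hx h2
          have := dist_triangle_right (σ.1 x) x e
          rw [dist_eq_norm] at this
          linarith
        obtain ⟨z, hz⟩ := hσ.unique hI (Dk.id q) (v₀ := x) (by rw [h1]; rfl)
        have h2 : ic z = 0 := by
          have := hz x
          rw [h1, id] at this
          simpa using this.symm
        apply Subtype.ext
        apply Equiv.ext
        intro v
        show σ.1 v = v
        rw [hz, h2, add_zero, id] }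
  exact key.isCoveringMap

variable {n : ℕ} {E : Type*} [NormedAddCommGroup E] [NormedSpace ℝ E] [FiniteDimensional ℝ E]

theorem mulVec_eq (B : Matrix (Fin m) (Fin m) ℤ) (v : Fin m → ℝ) :
    (B.map (Int.cast : ℤ → ℝ)).mulVec v = rl B v := by
  funext i
  rw [rl_apply]
  simp [Matrix.mulVec, dotProduct]

theorem act_pr' {p : ℕ} (L : Matrix (Fin p) (Fin m) ℤ) (v : Fin m → ℝ) :
    act L (pr v) = pr ((L.map (Int.cast : ℤ → ℝ)).mulVec v) := by
  funext i
  simp only [act, pr, Matrix.mulVec, dotProduct, Matrix.map_apply]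
  rw [coe_sum']
  refine Finset.sum_congr rfl fun j _ => ?_
  rw [← AddCircle.coe_zsmul]
  simp

theorem fin_fib [T2Space Y] {δ : ℝ} (hI : Ij q δ) (y : Y) : (q ⁻¹' {y}).Finite := by
  have hcl : IsCompact (q ⁻¹' {y}) := (isClosed_singleton.preimage q.continuous).isCompact
  have h5 : ∀ x : Tor m, ∃ U ∈ 𝓝 x, InjOn q U := by
    intro x
    obtain ⟨v, rfl⟩ := pr_surj x
    refine ⟨pr '' ball v (δ / 2), pr_open.image_mem_nhds (ball_mem_nhds _ (half_pos hI.1)), ?_⟩
    rintro _ ⟨a, ha, rfl⟩ _ ⟨b, hb, rfl⟩ hab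
    rw [hI.2 a b ?_ hab]
    rw [mem_ball] at ha hb
    have := dist_triangle_right a b v
    rw [dist_eq_norm] at this
    linarith
  choose U hU hi using h5
  obtain ⟨t, ht, hcov⟩ := hcl.elim_nhds_subcover U (fun x _ => hU x)
  refine t.finite_toSet.subset fun p hp => ?_
  obtain ⟨x, hx, hpx⟩ := mem_iUnion₂.1 (hcov hp)
  have h1 : q p = q x := by
    have h2 : q x = y := ht x hx
    have h3 : q p = y := hp
    rw [h2, h3]
  rw [hi x hpx (mem_of_mem_nhds (hU x)) h1]
  exact hx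

theorem surj_real {L : Matrix (Fin m) (Fin n) ℤ} (hL : Function.Surjective (act L))
    (y : Fin m → ℝ) : ∃ v : Fin n → ℝ, (L.map (Int.cast : ℤ → ℝ)).mulVec v = y := by
  have h1 : ∀ t : ℝ, ∃ (z : Fin m → ℤ) (v : Fin n → ℝ),
      (L.map (Int.cast : ℤ → ℝ)).mulVec v = t • y + ic z := by
    intro t
    obtain ⟨x, hx⟩ := hL (pr (t • y))
    obtain ⟨v, rfl⟩ := pr_surj x
    rw [act_pr'] at hx
    obtain ⟨z, hz⟩ := pr_eq hx
    exact ⟨z, v, hz⟩
  choose z v hzv using h1
  have h2 : ¬ Function.Injective z := by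
    intro h
    have := h.countable
    exact not_countable (α := ℝ) this
  rw [Function.not_injective_iff] at h2
  obtain ⟨t, t', he, hne⟩ := h2
  have h3 : (L.map (Int.cast : ℤ → ℝ)).mulVec (v t - v t') = (t - t') • y := by
    rw [Matrix.mulVec_sub, hzv, hzv, he, sub_smul]
    abel
  refine ⟨(t - t')⁻¹ • (v t - v t'), ?_⟩
  rw [Matrix.mulVec_smul, h3, smul_smul, inv_mul_cancel₀ (sub_ne_zero.2 hne), one_smul]

/-- the main theorem -/
theorem main [T2Space Y] [CompactSpace Y] (A : Matrix (Fin n) (Fin n) ℤ) (a : Tor n) (g : Y ≃ₜ Y) (hg : Expansive g) (h : C(Tor n, Y))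
    (hfg : ∀ x : Tor n, h (fun i => ∑ j, A i j • x j + a i) = g (h x)) :
    ∃ (m : ℕ) (B : Matrix (Fin m) (Fin m) ℤ) (L : Matrix (Fin m) (Fin n) ℤ) (c : Fin m → ℝ)
      (P : (Fin m → ℝ) → Y), IsUnit B.det ∧ HypMat B ∧ L * A = B * L ∧
      (∀ y : Fin m → ℝ, ∃ v : Fin n → ℝ, (L.map (Int.cast : ℤ → ℝ)).mulVec v = y) ∧
      Continuous P ∧ (∀ v : Fin n → ℝ, h (fun i => (v i : AddCircle (1 : ℝ))) =
        P ((L.map (Int.cast : ℤ → ℝ)).mulVec v + c)) ∧
      (∀ w, g (P w) = P ((B.map (Int.cast : ℤ → ℝ)).mulVec w)) ∧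
      (∀ d : Fin m → ℝ, (∀ w, P (w + d) = P w) ↔ ∃ z : Fin m → ℤ, d = fun i => (z i : ℝ)) ∧
      (∀ y, ∃ S : Finset (Fin m → ℝ), ∀ w, P w = y → ∃ s ∈ S, ∃ z : Fin m → ℤ,
        w = s + fun i => (z i : ℝ)) ∧
      (∃ δ > 0, ∀ v w, ‖v - w‖ ≤ δ → P v = P w → v = w) ∧
      ∀ (E : Type*) [NormedAddCommGroup E] [NormedSpace ℝ E] [FiniteDimensional ℝ E]
        [ChartedSpace E Y], Function.Surjective h →
        m = Module.finrank ℝ E ∧ IsCoveringMap P ∧ Function.Surjective P ∧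
        ∀ v w, P v = P w → ∃ (R : Matrix (Fin m) (Fin m) ℤ) (d : Fin m → ℝ), IsUnit R.det ∧
          w = (R.map (Int.cast : ℤ → ℝ)).mulVec v + d ∧
          ∀ x, P ((R.map (Int.cast : ℤ → ℝ)).mulVec x + d) = P x := by
  obtain ⟨m, B, L, c₀, q, hB, hyp, hLA, hLs, hhq, hqB, hK, δ, hδ, hinj⟩ :=
    stage1 A a g hg h hfg
  obtain ⟨c, rfl⟩ := pr_surj c₀
  have F : Fc B B⁻¹ 0 g q :=
    ⟨Matrix.nonsing_inv_mul _ hB, Matrix.mul_nonsing_inv _ hB, fun x => by
      rw [af, add_zero]; exact hqB x⟩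
  have hI : Ij q δ := by
    refine ⟨hδ, fun v w h e => ?_⟩
    have h2 := hinj (pr w) (v - w) h (by
      rw [← pr_add, add_sub_cancel]
      exact e)
    exact sub_eq_zero.1 h2
  have hS := sp_of_hyp F.h1 hyp
  have hfin := fin_fib hI
  refine ⟨m, B, L, c, fun w => q (pr w), hB, hyp, hLA, ?_, q.continuous.comp pr_cont, ?_, ?_, ?_,
    ?_, ⟨δ, hδ, hI.2⟩, ?_⟩
  · exact surj_real hLs
  · intro v
    show h (pr v) = q (pr ((L.map (Int.cast : ℤ → ℝ)).mulVec v + c))
    rw [pr_add, ← act_pr', ← hhq]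
  · intro w
    show g (q (pr w)) = q (pr ((B.map (Int.cast : ℤ → ℝ)).mulVec w))
    rw [mulVec_eq, ← act_pr, hqB]
  · intro d
    constructor
    · intro hd
      refine pr_eq_zero.1 (hK _ fun y => ?_)
      obtain ⟨w, rfl⟩ := pr_surj y
      rw [← pr_add]
      exact hd w
    · rintro ⟨z, rfl⟩ w
      show q (pr (w + ic z)) = q (pr w)
      rw [pr_add, pr_ic, add_zero]
  · intro y
    classical
    choose ψ hψ using (pr_surj : Function.Surjective (pr : (Fin m → ℝ) → Tor m))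
    refine ⟨(hfin y).toFinset.image ψ, fun w hw => ?_⟩
    obtain ⟨z, hz⟩ := pr_eq (v := w) (w := ψ (pr w)) (hψ _).symm
    refine ⟨ψ (pr w), ?_, z, hz⟩
    rw [Finset.mem_image]
    exact ⟨pr w, (hfin y).mem_toFinset.2 hw, rfl⟩
  · intro E _ _ _ _ hs
    have hne : Nonempty Y := ⟨h 0⟩
    have hqs : Function.Surjective q := by
      intro y
      obtain ⟨x, rfl⟩ := hs y
      exact ⟨_, (hhq x).symm⟩
    obtain ⟨hm, -, hqc, -⟩ := cover_q (E := E) hqs hδ hinj
    refine ⟨hm, covering_P F hg hI hfin hS hqs hqc, hqs.comp pr_surj, fun v w hvw => ?_⟩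
    obtain ⟨γ, hγ, hγv⟩ := exists_deck hqc hvw.symm
    obtain ⟨R, hR, hR'⟩ := hγ.affine F hg hI hfin hS hK
    refine ⟨R, γ 0, hR, ?_, fun x => ?_⟩
    · rw [mulVec_eq, ← hR', hγv]
    · show q (pr ((R.map (Int.cast : ℤ → ℝ)).mulVec x + γ 0)) = q (pr x)
      rw [mulVec_eq, ← hR', hγ.lift]

end Pool.Agent.H244.Fac
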