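import Pool.Graph.R_seed8.H779R2.To.TDef

/-!
# Hyperbolic matrices: splitting
-/

set_option autoImplicit false

open Set Filter Topology Polynomial

namespace Pool.Agent.H244.Fac

theorem lin_rec {V : Type*} [NormedAddCommGroup V] [NormedSpace ℂ V] {μ : ℂ} (hμ : ‖μ‖ < 1)
    {x e : ℕ → V} (hx : ∀ k, x (k + 1) = μ • x k + e k) (he : Tendsto e atTop (𝓝 0)) :
    Tendsto x atTop (𝓝 0) := by
  rw [tendsto_zero_iff_norm_tendsto_zero] at he ⊢
  rw [Metric.tendsto_atTop]
  intro ε hε
  have hρ : 0 < 1 - ‖μ‖ := by linarith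
  obtain ⟨N, hN⟩ := (Metric.tendsto_atTop.1 he) ((1 - ‖μ‖) * (ε / 2)) (by positivity)
  have h1 : ∀ j, ‖x (N + j)‖ ≤ ‖μ‖ ^ j * ‖x N‖ + ε / 2 := by
    intro j
    induction j with
    | zero => simp; linarith
    | succ j ih =>
      have h2 : ‖e (N + j)‖ ≤ (1 - ‖μ‖) * (ε / 2) := by
        have := hN (N + j) (by omega)
        rw [Real.dist_eq, sub_zero, abs_of_nonneg (norm_nonneg _)] at this
        exact this.le
      calc ‖x (N + (j + 1))‖ = ‖μ • x (N + j) + e (N + j)‖ := by
            rw [← add_assoc, hx]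
        _ ≤ ‖μ‖ * ‖x (N + j)‖ + ‖e (N + j)‖ := by
            refine (norm_add_le _ _).trans ?_
            rw [norm_smul]
        _ ≤ ‖μ‖ * (‖μ‖ ^ j * ‖x N‖ + ε / 2) + (1 - ‖μ‖) * (ε / 2) := by gcongr
        _ = ‖μ‖ ^ (j + 1) * ‖x N‖ + ε / 2 := by ring
  have h3 : Tendsto (fun j => ‖μ‖ ^ j * ‖x N‖) atTop (𝓝 0) := by
    have := (tendsto_pow_atTop_nhds_zero_of_lt_one (norm_nonneg μ) hμ).mul_const ‖x N‖
    simpa using this
  obtain ⟨J, hJ⟩ := (Metric.tendsto_atTop.1 h3) (ε / 2) (by positivity)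
  refine ⟨N + J, fun n hn => ?_⟩
  obtain ⟨j, rfl⟩ := Nat.exists_eq_add_of_le (show N ≤ n by omega)
  have h4 := hJ j (by omega)
  rw [Real.dist_eq, sub_zero] at h4 ⊢
  rw [abs_of_nonneg (norm_nonneg _)]
  have h5 := (abs_lt.1 h4).2
  linarith [h1 j]

section cx

variable {V : Type*} [NormedAddCommGroup V] [NormedSpace ℂ V]

theorem stab_zero (T : Module.End ℂ V) (s : Multiset ℂ) :
    (∀ μ ∈ s, ‖μ‖ < 1) → ∀ w : V, aeval T (s.map fun μ => X - C μ).prod w = 0 →
      Tendsto (fun k => (T ^ k) w) atTop (𝓝 0) := by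
  induction s using Multiset.induction_on with
  | empty =>
    intro _ w hw
    simp only [Multiset.map_zero, Multiset.prod_zero, map_one, Module.End.one_apply] at hw
    subst hw
    simp
  | cons μ s ih =>
    intro hs w hw
    have h1 := ih (fun ν hν => hs ν (Multiset.mem_cons_of_mem hν)) ((aeval T (X - C μ)) w) (by
      rw [Multiset.map_cons, Multiset.prod_cons, mul_comm, map_mul] at hw
      exact hw)
    refine lin_rec (hs μ (Multiset.mem_cons_self μ s)) (fun k => ?_) h1
    have h2 : (aeval T (X - C μ)) w = T w - μ • w := by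
      simp
    rw [h2, map_sub, map_smul, pow_succ, Module.End.mul_apply]
    abel

theorem unst_zero (T T' : Module.End ℂ V) (h1 : T' * T = 1) (s : Multiset ℂ) :
    (∀ μ ∈ s, 1 < ‖μ‖) → ∀ w : V, aeval T (s.map fun μ => X - C μ).prod w = 0 →
      Tendsto (fun k => (T' ^ k) w) atTop (𝓝 0) := by
  induction s using Multiset.induction_on with
  | empty =>
    intro _ w hw
    simp only [Multiset.map_zero, Multiset.prod_zero, map_one, Module.End.one_apply] at hw
    subst hw
    simp
  | cons μ s ih =>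
    intro hs w hw
    have h2 := ih (fun ν hν => hs ν (Multiset.mem_cons_of_mem hν)) ((aeval T (X - C μ)) w) (by
      rw [Multiset.map_cons, Multiset.prod_cons, mul_comm, map_mul] at hw
      exact hw)
    have hμ := hs μ (Multiset.mem_cons_self μ s)
    have hμ0 : μ ≠ 0 := by
      rintro rfl
      rw [norm_zero] at hμ
      linarith
    have h3 : (aeval T (X - C μ)) w = T w - μ • w := by
      simp
    have h4 : ‖μ⁻¹‖ < 1 := by
      rw [norm_inv]
      exact inv_lt_one_of_one_lt₀ hμ
    have h5 : Tendsto (fun k => -(μ⁻¹ • (T' ^ (k + 1)) ((aeval T (X - C μ)) w))) atTop (𝓝 0) := by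
      have := ((h2.comp (tendsto_add_atTop_nat 1)).const_smul μ⁻¹).neg
      simpa using this
    refine lin_rec h4 (fun k => ?_) h5
    have h6 : (T' ^ (k + 1)) (T w) = (T' ^ k) w := by
      rw [pow_succ, Module.End.mul_apply, ← Module.End.mul_apply T' T, h1, Module.End.one_apply]
    rw [h3, map_sub, map_smul, h6, smul_sub, smul_smul, inv_mul_cancel₀ hμ0, one_smul]
    abel

/-- Spectral splitting. -/
theorem splitC [FiniteDimensional ℂ V] (T T' : Module.End ℂ V) (h1 : T' * T = 1)
    (hT : ∀ μ : ℂ, ‖μ‖ = 1 → ¬ (LinearMap.charpoly T).IsRoot μ) :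
    ∃ P Q : V →L[ℂ] V, (∀ w, P w + Q w = w) ∧
      (∀ w, Tendsto (fun k => (T ^ k) (P w)) atTop (𝓝 0)) ∧
      (∀ w, Tendsto (fun k => (T' ^ k) (Q w)) atTop (𝓝 0)) := by
  classical
  set p := LinearMap.charpoly T with hp
  have hpm : p.Monic := LinearMap.charpoly_monic T
  set s := p.roots.filter (fun μ => ‖μ‖ < 1) with hs
  set u := p.roots.filter (fun μ => ¬ ‖μ‖ < 1) with hu
  set ps := (s.map fun μ => X - C μ).prod with hps
  set pu := (u.map fun μ => X - C μ).prod with hpu
  have hprod : ps * pu = p := by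
    rw [hps, hpu, ← Multiset.prod_add, ← Multiset.map_add, hs, hu, Multiset.filter_add_not]
    exact ((IsAlgClosed.splits p).eq_prod_roots_of_monic hpm).symm
  have hroot : ∀ (t : Multiset ℂ) (a : ℂ), ((t.map fun μ => X - C μ).prod).eval a = 0 → a ∈ t := by
    intro t a h
    rw [Polynomial.eval_multiset_prod, Multiset.prod_eq_zero_iff] at h
    simp only [Multiset.map_map, Function.comp_apply, eval_sub, eval_X, eval_C,
      Multiset.mem_map] at h
    obtain ⟨b, hb, hb'⟩ := h
    rw [sub_eq_zero.1 hb']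
    exact hb
  have hco : IsCoprime ps pu := by
    rw [Polynomial.isCoprime_iff_aeval_ne_zero_of_isAlgClosed ℂ ℂ]
    intro a
    by_contra hcon
    push Not at hcon
    have ha := hroot s a (by simpa [aeval_def, eval₂_eq_eval_map] using hcon.1)
    have hb := hroot u a (by simpa [aeval_def, eval₂_eq_eval_map] using hcon.2)
    rw [hs, Multiset.mem_filter] at ha
    rw [hu, Multiset.mem_filter] at hb
    exact hb.2 ha.2
  obtain ⟨a, b, hab⟩ := hco
  have hCH : aeval T p = 0 := LinearMap.aeval_self_charpoly T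
  refine ⟨LinearMap.toContinuousLinearMap (aeval T (b * pu)),
    LinearMap.toContinuousLinearMap (aeval T (a * ps)), fun w => ?_, fun w => ?_, fun w => ?_⟩
  · have : aeval T (b * pu) + aeval T (a * ps) = 1 := by
      rw [← map_add, add_comm, hab, map_one]
    have h2 := congrArg (fun f : Module.End ℂ V => f w) this
    simpa using h2
  · refine stab_zero T s (fun μ hμ => ?_) _ ?_
    · rw [hs, Multiset.mem_filter] at hμ
      exact hμ.2
    · show aeval T ps (aeval T (b * pu) w) = 0
      rw [← Module.End.mul_apply, ← map_mul]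
      have : ps * (b * pu) = b * p := by rw [← hprod]; ring
      rw [this, map_mul, hCH, mul_zero]
      rfl
  · refine unst_zero T T' h1 u (fun μ hμ => ?_) _ ?_
    · rw [hu, Multiset.mem_filter] at hμ
      rcases lt_or_eq_of_le (not_lt.1 hμ.2) with h | h
      · exact h
      · exact absurd (isRoot_of_mem_roots hμ.1) (hT μ h.symm)
    · show aeval T pu (aeval T (a * ps) w) = 0
      rw [← Module.End.mul_apply, ← map_mul]
      have : pu * (a * ps) = a * p := by rw [← hprod]; ring
      rw [this, map_mul, hCH, mul_zero]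
      rfl

theorem bdd_iter [CompleteSpace V] [FiniteDimensional ℂ V] (T : Module.End ℂ V) (P : V →L[ℂ] V)
    (h : ∀ w, Tendsto (fun k => (T ^ k) (P w)) atTop (𝓝 0)) :
    ∃ C : ℝ, 0 ≤ C ∧ ∀ (k : ℕ) (w : V), ‖(T ^ k) (P w)‖ ≤ C * ‖w‖ := by
  obtain ⟨C, hC⟩ := banach_steinhaus
    (g := fun k : ℕ => (LinearMap.toContinuousLinearMap (T ^ k)).comp P) (fun w => by
      obtain ⟨C, hC⟩ := (h w).norm.bddAbove_range
      exact ⟨C, fun k => hC ⟨k, rfl⟩⟩)
  refine ⟨max C 0, le_max_right _ _, fun k w => ?_⟩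
  have := ((LinearMap.toContinuousLinearMap (T ^ k)).comp P).le_opNorm w
  exact this.trans (mul_le_mul_of_nonneg_right ((hC k).trans (le_max_left _ _)) (norm_nonneg _))

end cx

end Pool.Agent.H244.Fac
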