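import Pool.Agent.H244.Fac1
import Pool.Agent.H244.Fac2

/-!
# Hyperbolic integer matrices: real splitting, density of the leaves
-/

set_option autoImplicit false

open Set Filter Topology

namespace Pool.Agent.H244.Fac

open Pool.Agent.H779R2.To

variable {m : ℕ}

/-- the real linear map of an integer matrix -/
noncomputable def rl (B : Matrix (Fin m) (Fin m) ℤ) : Module.End ℝ (Fin m → ℝ) :=
  Matrix.toLin' (B.map (Int.castRingHom ℝ))

/-- the complex linear map of an integer matrix -/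
noncomputable def cl (B : Matrix (Fin m) (Fin m) ℤ) : Module.End ℂ (Fin m → ℂ) :=
  Matrix.toLin' (B.map (Int.castRingHom ℂ))

theorem rl_apply (B : Matrix (Fin m) (Fin m) ℤ) (v : Fin m → ℝ) (i : Fin m) :
    rl B v i = ∑ j, (B i j : ℝ) * v j := by
  simp [rl, Matrix.toLin'_apply, Matrix.mulVec, dotProduct]

theorem cl_apply (B : Matrix (Fin m) (Fin m) ℤ) (v : Fin m → ℂ) (i : Fin m) :
    cl B v i = ∑ j, (B i j : ℂ) * v j := by
  simp [cl, Matrix.toLin'_apply, Matrix.mulVec, dotProduct]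

theorem rl_mul (B C : Matrix (Fin m) (Fin m) ℤ) : rl (B * C) = rl B * rl C := by
  unfold rl
  rw [Matrix.map_mul, Matrix.toLin'_mul]
  rfl

theorem rl_one : rl (1 : Matrix (Fin m) (Fin m) ℤ) = 1 := by
  unfold rl
  rw [Matrix.map_one _ (map_zero _) (map_one _), Matrix.toLin'_one]
  rfl

theorem cl_mul (B C : Matrix (Fin m) (Fin m) ℤ) : cl (B * C) = cl B * cl C := by
  unfold cl
  rw [Matrix.map_mul, Matrix.toLin'_mul]
  rfl

theorem cl_one : cl (1 : Matrix (Fin m) (Fin m) ℤ) = 1 := by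
  unfold cl
  rw [Matrix.map_one _ (map_zero _) (map_one _), Matrix.toLin'_one]
  rfl

/-- real part -/
def re' (w : Fin m → ℂ) : Fin m → ℝ := fun i => (w i).re

/-- inclusion -/
def co (v : Fin m → ℝ) : Fin m → ℂ := fun i => (v i : ℂ)

theorem re'_co (v : Fin m → ℝ) : re' (co v) = v := by
  funext i; simp [re', co]

theorem norm_re' (w : Fin m → ℂ) : ‖re' w‖ ≤ ‖w‖ := by
  rw [pi_norm_le_iff_of_nonneg (norm_nonneg _)]
  intro i
  exact (Complex.abs_re_le_norm (w i)).trans (norm_le_pi_norm w i)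

theorem norm_co (v : Fin m → ℝ) : ‖co v‖ = ‖v‖ := by
  apply le_antisymm
  · rw [pi_norm_le_iff_of_nonneg (norm_nonneg _)]
    intro i
    simp only [co, Complex.norm_real]
    exact norm_le_pi_norm v i
  · rw [← re'_co v]
    have := norm_re' (co v)
    rwa [re'_co] at this ⊢

theorem re'_add (w w' : Fin m → ℂ) : re' (w + w') = re' w + re' w' := by
  funext i; simp [re']

theorem re'_cl (B : Matrix (Fin m) (Fin m) ℤ) (w : Fin m → ℂ) : re' (cl B w) = rl B (re' w) := by
  funext i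
  rw [re', cl_apply, rl_apply, Complex.re_sum]
  refine Finset.sum_congr rfl fun j _ => ?_
  simp [re']

theorem re'_cl_pow (B : Matrix (Fin m) (Fin m) ℤ) (k : ℕ) (w : Fin m → ℂ) :
    re' ((cl B ^ k) w) = (rl B ^ k) (re' w) := by
  induction k with
  | zero => simp
  | succ k ih =>
    rw [pow_succ', pow_succ', Module.End.mul_apply, Module.End.mul_apply, re'_cl, ih]

theorem re'_tendsto {f : ℕ → Fin m → ℂ} (h : Tendsto f atTop (𝓝 0)) :
    Tendsto (fun k => re' (f k)) atTop (𝓝 0) := by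
  rw [tendsto_zero_iff_norm_tendsto_zero] at h ⊢
  exact squeeze_zero (fun _ => norm_nonneg _) (fun k => norm_re' _) h

/-- `B` and its inverse `B'` split the space -/
def Sp (B B' : Matrix (Fin m) (Fin m) ℤ) : Prop :=
  ∃ C : ℝ, 0 ≤ C ∧ ∀ d : Fin m → ℝ, ∃ s u : Fin m → ℝ, s + u = d ∧
    (∀ k, ‖(rl B ^ k) s‖ ≤ C * ‖d‖) ∧ (∀ k, ‖(rl B' ^ k) u‖ ≤ C * ‖d‖) ∧
    Tendsto (fun k => (rl B ^ k) s) atTop (𝓝 0) ∧ Tendsto (fun k => (rl B' ^ k) u) atTop (𝓝 0)

theorem Sp.symm {B B' : Matrix (Fin m) (Fin m) ℤ} (h : Sp B B') : Sp B' B := by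
  obtain ⟨C, hC, h⟩ := h
  refine ⟨C, hC, fun d => ?_⟩
  obtain ⟨s, u, h1, h2, h3, h4, h5⟩ := h d
  exact ⟨u, s, by rw [add_comm, h1], h3, h2, h5, h4⟩

theorem sp_of_hyp {B B' : Matrix (Fin m) (Fin m) ℤ} (hB : B' * B = 1) (hyp : HypMat B) :
    Sp B B' := by
  obtain ⟨P, Q, h1, h2, h3⟩ := splitC (cl B) (cl B') (by rw [← cl_mul, hB, cl_one]) (by
    intro μ hμ
    have := hyp μ hμ
    unfold cl
    rwa [Matrix.charpoly_toLin'])
  obtain ⟨C₁, hC₁, h4⟩ := bdd_iter (cl B) P h2
  obtain ⟨C₂, hC₂, h5⟩ := bdd_iter (cl B') Q h3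
  refine ⟨max C₁ C₂, le_max_of_le_left hC₁, fun d => ⟨re' (P (co d)), re' (Q (co d)), ?_, ?_, ?_,
    ?_, ?_⟩⟩
  · rw [← re'_add, h1, re'_co]
  · intro k
    rw [← re'_cl_pow]
    refine (norm_re' _).trans ((h4 k _).trans ?_)
    rw [norm_co]
    exact mul_le_mul_of_nonneg_right (le_max_left _ _) (norm_nonneg _)
  · intro k
    rw [← re'_cl_pow]
    refine (norm_re' _).trans ((h5 k _).trans ?_)
    rw [norm_co]
    exact mul_le_mul_of_nonneg_right (le_max_right _ _) (norm_nonneg _)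
  · have := re'_tendsto (h2 (co d))
    simpa only [re'_cl_pow] using this
  · have := re'_tendsto (h3 (co d))
    simpa only [re'_cl_pow] using this

/-- a matrix which is not hyperbolic has bounded orbits -/
theorem bdd_of_not_hyp {B B' : Matrix (Fin m) (Fin m) ℤ} (hB : B' * B = 1) (hyp : ¬ HypMat B) :
    ∃ (w : Fin m → ℝ) (C : ℝ), w ≠ 0 ∧ ∀ k, ‖(rl B ^ k) w‖ ≤ C ∧ ‖(rl B' ^ k) w‖ ≤ C := by
  unfold HypMat at hyp
  push Not at hyp
  obtain ⟨μ, hμ, hr⟩ := hyp
  have h1 : Module.End.HasEigenvalue (cl B) μ := by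
    rw [Module.End.hasEigenvalue_iff_isRoot_charpoly]
    unfold cl
    rwa [Matrix.charpoly_toLin']
  obtain ⟨z, hz, hz0⟩ := h1.exists_hasEigenvector
  have hz' : cl B z = μ • z := Module.End.mem_eigenspace_iff.1 hz
  have hμ0 : μ ≠ 0 := by
    rintro rfl
    simp at hμ
  have key : ∀ y : Fin m → ℂ, cl B y = μ • y → ∀ k, ‖(rl B ^ k) (re' y)‖ ≤ ‖y‖ ∧
      ‖(rl B' ^ k) (re' y)‖ ≤ ‖y‖ := by
    intro y hy
    have e1 : ∀ k, (cl B ^ k) y = μ ^ k • y := by
      intro k
      induction k with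
      | zero => simp
      | succ k ih =>
        rw [pow_succ, Module.End.mul_apply, hy, map_smul, ih, smul_smul, pow_succ']
    have e2 : cl B' y = μ⁻¹ • y := by
      have h2 : cl B' (cl B y) = y := by
        rw [← Module.End.mul_apply, ← cl_mul, hB, cl_one, Module.End.one_apply]
      rw [hy, map_smul] at h2
      have h3 := congrArg (fun w => μ⁻¹ • w) h2
      simp only [smul_smul, inv_mul_cancel₀ hμ0, one_smul] at h3
      exact h3
    have e3 : ∀ k, (cl B' ^ k) y = (μ⁻¹) ^ k • y := by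
      intro k
      induction k with
      | zero => simp
      | succ k ih =>
        rw [pow_succ, Module.End.mul_apply, e2, map_smul, ih, smul_smul, pow_succ']
    intro k
    constructor
    · rw [← re'_cl_pow, e1]
      refine (norm_re' _).trans ?_
      rw [norm_smul, norm_pow, hμ, one_pow, one_mul]
    · rw [← re'_cl_pow, e3]
      refine (norm_re' _).trans ?_
      rw [norm_smul, norm_pow, norm_inv, hμ, inv_one, one_pow, one_mul]
  by_cases hre : re' z = 0
  · refine ⟨re' (Complex.I • z), ‖Complex.I • z‖, ?_, key _ (by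
      rw [map_smul, hz', smul_comm])⟩
    intro h0
    apply hz0
    funext i
    apply Complex.ext
    · exact congrFun hre i
    · have := congrFun h0 i
      simp only [re', Pi.smul_apply, smul_eq_mul, Complex.mul_re, Complex.I_re, zero_mul,
        Complex.I_im, one_mul, zero_sub, Pi.zero_apply, neg_eq_zero] at this
      exact this
  · exact ⟨re' z, ‖z‖, hre, key z hz'⟩

end Pool.Agent.H244.Fac
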