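import Pool.Agent.H244.Fac3

/-!
# Density of the unstable leaves of a hyperbolic toral automorphism
-/

set_option autoImplicit false

open Set Filter Topology

namespace Pool.Agent.H244.Fac

variable {m n : ℕ}

/-- the projection of Euclidean space to the torus -/
def pr (v : Fin m → ℝ) : Tor m := fun i => (v i : AddCircle (1 : ℝ))

theorem pr_zero : pr (0 : Fin m → ℝ) = 0 := by
  funext i; simp [pr]

theorem pr_add (v w : Fin m → ℝ) : pr (v + w) = pr v + pr w := by
  funext i; simp [pr]

theorem pr_neg (v : Fin m → ℝ) : pr (-v) = -pr v := by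
  funext i; simp [pr]

theorem pr_sub (v w : Fin m → ℝ) : pr (v - w) = pr v - pr w := by
  funext i; simp [pr]

theorem pr_cont : Continuous (pr : (Fin m → ℝ) → Tor m) := by
  refine continuous_pi fun i => ?_
  exact (AddCircle.continuous_mk' (1 : ℝ)).comp (continuous_apply i)

theorem pr_surj : Function.Surjective (pr : (Fin m → ℝ) → Tor m) := by
  intro y
  have : ∀ i, ∃ t : ℝ, (t : AddCircle (1 : ℝ)) = y i := fun i =>
    QuotientAddGroup.mk_surjective (y i)
  choose v hv using this
  exact ⟨v, funext hv⟩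

theorem pr_eq_zero {v : Fin m → ℝ} : pr v = 0 ↔ ∃ z : Fin m → ℤ, v = fun i => (z i : ℝ) := by
  constructor
  · intro h
    have : ∀ i, ∃ z : ℤ, (z : ℝ) = v i := by
      intro i
      have h1 := congrFun h i
      simp only [pr, Pi.zero_apply] at h1
      rw [AddCircle.coe_eq_zero_iff] at h1
      obtain ⟨z, hz⟩ := h1
      exact ⟨z, by simpa using hz⟩
    choose z hz using this
    exact ⟨z, funext fun i => (hz i).symm⟩
  · rintro ⟨z, rfl⟩
    funext i
    simp only [pr, Pi.zero_apply]
    rw [AddCircle.coe_eq_zero_iff]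
    exact ⟨z i, by simp⟩

theorem pr_small {v : Fin m → ℝ} (h : pr v = 0) (hv : ‖v‖ < 1) : v = 0 := by
  obtain ⟨z, rfl⟩ := pr_eq_zero.1 h
  funext i
  have h1 := (norm_le_pi_norm (fun i => (z i : ℝ)) i).trans_lt hv
  simp only [Real.norm_eq_abs] at h1
  have h2 : |z i| < 1 := by exact_mod_cast h1
  have h3 : z i = 0 := Int.abs_lt_one_iff.1 h2
  simp [h3]

theorem coe_sum' {ι : Type*} (s : Finset ι) (f : ι → ℝ) :
    ((∑ i ∈ s, f i : ℝ) : AddCircle (1 : ℝ)) = ∑ i ∈ s, (f i : AddCircle (1 : ℝ)) :=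
  map_sum (QuotientAddGroup.mk' (AddSubgroup.zmultiples (1 : ℝ))) f s

theorem act_pr (B : Matrix (Fin m) (Fin m) ℤ) (v : Fin m → ℝ) : act B (pr v) = pr (rl B v) := by
  funext i
  simp only [act, pr]
  rw [rl_apply]
  rw [coe_sum']
  refine Finset.sum_congr rfl fun j _ => ?_
  rw [← AddCircle.coe_zsmul]
  simp

theorem dot_rl (c : Fin m → ℤ) (B : Matrix (Fin m) (Fin m) ℤ) (w : Fin m → ℝ) :
    ∑ i, (c i : ℝ) * rl B w i = ∑ j, ((Matrix.vecMul c B j : ℤ) : ℝ) * w j := by
  simp only [rl_apply, Matrix.vecMul, dotProduct, Finset.mul_sum, Int.cast_sum, Int.cast_mul,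
    Finset.sum_mul]
  rw [Finset.sum_comm]
  refine Finset.sum_congr rfl fun j _ => Finset.sum_congr rfl fun i _ => ?_
  ring

theorem dot_rl_pow (c : Fin m → ℤ) (B : Matrix (Fin m) (Fin m) ℤ) (k : ℕ) (w : Fin m → ℝ) :
    ∑ i, (c i : ℝ) * (rl B ^ k) w i = ∑ j, ((Matrix.vecMul c (B ^ k) j : ℤ) : ℝ) * w j := by
  induction k generalizing c with
  | zero => simp
  | succ k ih =>
    rw [pow_succ', Module.End.mul_apply, dot_rl, ih, pow_succ', Matrix.vecMul_vecMul]

/-- the vectors contracted by the iterates of `B` -/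
def Con (B : Matrix (Fin m) (Fin m) ℤ) (v : Fin m → ℝ) : Prop :=
  Tendsto (fun k => (rl B ^ k) v) atTop (𝓝 0)

theorem Con.zero (B : Matrix (Fin m) (Fin m) ℤ) : Con B 0 := by
  simp [Con]

theorem Con.add {B : Matrix (Fin m) (Fin m) ℤ} {v w : Fin m → ℝ} (hv : Con B v) (hw : Con B w) :
    Con B (v + w) := by
  have := Tendsto.add hv hw
  simpa [Con] using this

theorem Con.smul {B : Matrix (Fin m) (Fin m) ℤ} {v : Fin m → ℝ} (hv : Con B v) (t : ℝ) :
    Con B (t • v) := by
  have := Tendsto.const_smul hv t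
  simpa [Con] using this

theorem Con.neg {B : Matrix (Fin m) (Fin m) ℤ} {v : Fin m → ℝ} (hv : Con B v) :
    Con B (-v) := by
  have := hv.smul (-1)
  simpa using this

theorem Con.sub {B : Matrix (Fin m) (Fin m) ℤ} {v w : Fin m → ℝ} (hv : Con B v) (hw : Con B w) :
    Con B (v - w) := by
  rw [sub_eq_add_neg]
  exact hv.add hw.neg

/-- density of the unstable leaves -/
theorem dense {B B' : Matrix (Fin m) (Fin m) ℤ} (hB : B' * B = 1) (hB' : B * B' = 1)
    (hS : Sp B B') {S : Set (Tor m)} (hcl : IsClosed S) (hne : S.Nonempty)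
    (hinv : ∀ x ∈ S, ∀ u, Con B' u → x + pr u ∈ S) : S = univ := by
  let G : AddSubgroup (Tor m) :=
    { carrier := {y | ∃ u, Con B' u ∧ pr u = y}
      add_mem' := by
        rintro _ _ ⟨u, hu, rfl⟩ ⟨v, hv, rfl⟩
        exact ⟨u + v, hu.add hv, pr_add u v⟩
      zero_mem' := ⟨0, Con.zero B', pr_zero⟩
      neg_mem' := by
        rintro _ ⟨u, hu, rfl⟩
        exact ⟨-u, hu.neg, pr_neg u⟩ }
  have hG : ∀ u, Con B' u → pr u ∈ G := fun u hu => ⟨u, hu, rfl⟩
  have htop : ∀ x, x ∈ G.topologicalClosure := by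
    refine sub_top _ G.isClosed_topologicalClosure ?_
    intro c hc
    -- `c` is orthogonal to the unstable space
    have h1 : ∀ u, Con B' u → ∑ i, (c i : ℝ) * u i = 0 := by
      intro u hu
      by_contra hne
      obtain ⟨a, ha⟩ : ∃ a, a = ∑ i, (c i : ℝ) * u i := ⟨_, rfl⟩
      rw [← ha] at hne
      have h2 := hc (pr ((1 / (2 * a)) • u)) (G.le_topologicalClosure (hG _ (hu.smul _)))
      have h3 : (∑ i : Fin m, c i • (pr ((1 / (2 * a)) • u) : Tor m) i) =
          (((1 / 2 : ℝ)) : AddCircle (1 : ℝ)) := by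
        have h4 : (1 / 2 : ℝ) = ∑ i, (c i : ℝ) * ((1 / (2 * a)) • u) i := by
          simp only [Pi.smul_apply, smul_eq_mul]
          have h4' : ∑ i, (c i : ℝ) * (1 / (2 * a) * u i) =
              (1 / (2 * a)) * ∑ i, (c i : ℝ) * u i := by
            rw [Finset.mul_sum]
            exact Finset.sum_congr rfl fun i _ => by ring
          rw [h4', ← ha]
          field_simp
        rw [h4, coe_sum']
        apply Finset.sum_congr rfl
        intro i _
        simp only [pr]
        rw [← AddCircle.coe_zsmul]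
        simp
      rw [h3, AddCircle.coe_eq_zero_iff] at h2
      obtain ⟨k, hk⟩ := h2
      have h5 : (k : ℝ) = 1 / 2 := by simpa using hk
      have h6 : ((2 * k : ℤ) : ℝ) = ((1 : ℤ) : ℝ) := by push_cast; linarith
      have h7 : (2 * k : ℤ) = 1 := by exact_mod_cast h6
      omega
    have h2 : ∀ j, Tendsto (fun k => ((Matrix.vecMul c (B ^ k) j : ℤ) : ℝ)) atTop (𝓝 0) := by
      intro j
      obtain ⟨C, hC, hsp⟩ := hS
      obtain ⟨s, u, hsu, -, -, hs, hu⟩ := hsp (Pi.single j 1)
      have h3 : ∀ k, ((Matrix.vecMul c (B ^ k) j : ℤ) : ℝ) = ∑ i, (c i : ℝ) * (rl B ^ k) s i := by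
        intro k
        have h4 : ∑ i, (c i : ℝ) * (rl B ^ k) (Pi.single j 1) i =
            ((Matrix.vecMul c (B ^ k) j : ℤ) : ℝ) := by
          rw [dot_rl_pow]
          simp [Pi.single_apply]
        have h5 : Con B' ((rl B ^ k) u) := by
          have h6 : ∀ i, (rl B' ^ (i + k)) ((rl B ^ k) u) = (rl B' ^ i) u := by
            intro i
            have h7 : rl B' ^ k * rl B ^ k = 1 := by
              have hcomm : Commute (rl B') (rl B) := by
                show rl B' * rl B = rl B * rl B'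
                rw [← rl_mul, ← rl_mul, hB, hB']
              rw [← hcomm.mul_pow, ← rl_mul, hB, rl_one, one_pow]
            rw [pow_add, Module.End.mul_apply, ← Module.End.mul_apply (rl B' ^ k), h7,
              Module.End.one_apply]
          unfold Con
          rw [← tendsto_add_atTop_iff_nat k]
          simpa only [h6] using hu
        rw [← h4, ← hsu, map_add]
        simp only [Pi.add_apply, mul_add, Finset.sum_add_distrib]
        rw [h1 _ h5, add_zero]
      simp only [h3]
      have h8 : Tendsto (fun k => ∑ i, (c i : ℝ) * (rl B ^ k) s i) atTop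
          (𝓝 (∑ i, (c i : ℝ) * (0 : Fin m → ℝ) i)) := by
        refine tendsto_finsetSum _ fun i _ => ?_
        exact ((tendsto_pi_nhds.1 hs) i).const_mul _
      simpa using h8
    have h9 : ∀ᶠ k in atTop, ∀ j, Matrix.vecMul c (B ^ k) j = 0 := by
      rw [eventually_all]
      intro j
      have := (h2 j).eventually (Metric.ball_mem_nhds 0 one_pos)
      filter_upwards [this] with k hk
      rw [Real.dist_eq, sub_zero] at hk
      have h10 : |Matrix.vecMul c (B ^ k) j| < 1 := by exact_mod_cast hk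
      exact Int.abs_lt_one_iff.1 h10
    obtain ⟨k, hk⟩ := h9.exists
    have h11 : Matrix.vecMul c (B ^ k) = 0 := funext hk
    have h12 : B ^ k * B' ^ k = 1 := by
      have hcomm : Commute B B' := by
        show B * B' = B' * B
        rw [hB, hB']
      rw [← hcomm.mul_pow, hB', one_pow]
    calc c = Matrix.vecMul c (B ^ k * B' ^ k) := by rw [h12, Matrix.vecMul_one]
      _ = Matrix.vecMul (Matrix.vecMul c (B ^ k)) (B' ^ k) := by rw [Matrix.vecMul_vecMul]
      _ = 0 := by rw [h11, Matrix.zero_vecMul]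
  obtain ⟨x₀, hx₀⟩ := hne
  ext x
  refine ⟨fun _ => mem_univ _, fun _ => ?_⟩
  have h1 : x - x₀ ∈ closure (G : Set (Tor m)) := htop (x - x₀)
  have h2 : closure (G : Set (Tor m)) ⊆ {y | x₀ + y ∈ S} := by
    apply closure_minimal
    · rintro _ ⟨u, hu, rfl⟩
      exact hinv x₀ hx₀ u hu
    · exact hcl.preimage (continuous_const.add continuous_id)
  have h3 := h2 h1
  simpa using h3

end Pool.Agent.H244.Fac
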