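import Pool.Agent.H244.Fac4
import Pool.Graph.R_seed8.TH289.K.Def

/-!
# Expansive factors of toral automorphisms: dynamics
-/

set_option autoImplicit false

open Set Filter Topology

namespace Pool.Agent.H244.Fac

open Pool.Agent.H779R2.To Pool.Agent.TH289.K

variable {m n : ℕ} {Y : Type*} [TopologicalSpace Y]

theorem exists_V [T2Space Y] [CompactSpace Y] {U : Set (Y × Y)} (hU : U ∈ 𝓝ˢ (diagonal Y)) :
    ∃ V ∈ 𝓝ˢ (diagonal Y), (∀ a b, (a, b) ∈ V → (b, a) ∈ V) ∧
      (∀ a b c, (a, b) ∈ V → (b, c) ∈ V → (a, c) ∈ U) ∧ V ⊆ U := by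
  let _ : UniformSpace Y := uniformSpaceOfCompactR1
  rw [nhdsSet_diagonal_eq_uniformity] at hU ⊢
  obtain ⟨V, hV, hs, hVU⟩ := comp_symm_mem_uniformity_sets hU
  refine ⟨V, hV, fun a b h => hs.symm _ _ h, fun a b c h1 h2 => hVU ⟨b, h1, h2⟩, ?_⟩
  intro x hx
  exact hVU ⟨x.1, refl_mem_uniformity hV, hx⟩

theorem exists_δ (p : C(Tor m, Y)) {V : Set (Y × Y)} (hV : V ∈ 𝓝ˢ (diagonal Y)) :
    ∃ δ > 0, ∀ (a : Tor m) (w : Fin m → ℝ), ‖w‖ ≤ δ → (p a, p (a + pr w)) ∈ V := by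
  have h1 : ∀ᶠ w in 𝓝 (0 : Fin m → ℝ), ∀ a ∈ (univ : Set (Tor m)), (p a, p (a + pr w)) ∈ V := by
    refine isCompact_univ.eventually_forall_of_forall_eventually fun a _ => ?_
    have hc : Continuous fun z : (Fin m → ℝ) × Tor m => (p z.2, p (z.2 + pr z.1)) := by
      have := pr_cont (m := m)
      fun_prop
    apply hc.continuousAt.preimage_mem_nhds
    have h2 : (p a, p (a + pr (0 : Fin m → ℝ))) ∈ diagonal Y := by
      rw [pr_zero, add_zero]
      rfl
    exact mem_nhdsSet_iff_forall.1 hV _ h2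
  obtain ⟨δ, hδ, h2⟩ := Metric.eventually_nhds_iff_ball.1 h1
  refine ⟨δ / 2, by positivity, fun a w hw => h2 w ?_ a (mem_univ _)⟩
  rw [mem_ball_zero_iff]
  linarith

/-- small forward orbit -/
def Sm (B : Matrix (Fin m) (Fin m) ℤ) (δ : ℝ) (w : Fin m → ℝ) : Prop :=
  ∀ k, ‖(rl B ^ k) w‖ ≤ δ

theorem Sm.zero (B : Matrix (Fin m) (Fin m) ℤ) {δ : ℝ} (hδ : 0 ≤ δ) : Sm B δ 0 := by
  intro k
  simpa using hδ

/-- the affine map -/
def af (B : Matrix (Fin m) (Fin m) ℤ) (b : Tor m) (x : Tor m) : Tor m := act B x + b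

theorem af_iter (B : Matrix (Fin m) (Fin m) ℤ) (b : Tor m) (k : ℕ) (x : Tor m) (v : Fin m → ℝ) :
    (af B b)^[k] (x + pr v) = (af B b)^[k] x + pr ((rl B ^ k) v) := by
  induction k with
  | zero => simp
  | succ k ih =>
    rw [Function.iterate_succ_apply', ih, Function.iterate_succ_apply']
    simp only [af]
    rw [act_add, act_pr, pow_succ', Module.End.mul_apply]
    abel

/-- a factor map of an affine automorphism -/
structure Fc (B B' : Matrix (Fin m) (Fin m) ℤ) (b : Tor m) (g : Y ≃ₜ Y) (p : C(Tor m, Y)) :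
    Prop where
  h1 : B' * B = 1
  h2 : B * B' = 1
  h3 : ∀ x, p (af B b x) = g (p x)

variable {B B' : Matrix (Fin m) (Fin m) ℤ} {b : Tor m} {g : Y ≃ₜ Y} {p : C(Tor m, Y)}

theorem Fc.symm (F : Fc B B' b g p) : Fc B' B (-(act B' b)) g.symm p where
  h1 := F.h2
  h2 := F.h1
  h3 x := by
    have h4 : af B b (af B' (-(act B' b)) x) = x := by
      simp only [af]
      rw [act_add, ← act_mul, F.h2, act_one, act_neg, ← act_mul, F.h2, act_one]
      abel
    have h5 := F.h3 (af B' (-(act B' b)) x)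
    rw [h4] at h5
    rw [h5, g.symm_apply_apply]

theorem Fc.iter (F : Fc B B' b g p) (k : ℕ) (x : Tor m) :
    p ((af B b)^[k] x) = g^[k] (p x) := by
  induction k generalizing x with
  | zero => rfl
  | succ k ih => rw [Function.iterate_succ_apply, Function.iterate_succ_apply, ih, F.h3]

/-- the properties of the expansivity scale -/
structure Key (B B' : Matrix (Fin m) (Fin m) ℤ) (p : C(Tor m, Y)) (δ : ℝ) : Prop where
  pos : 0 < δ
  k1 : ∀ x v u, Sm B δ v → Sm B' δ u → p (x + pr v) = p x → p (x + pr u + pr v) = p (x + pr u)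
  k2 : ∀ x s u, Sm B δ s → Sm B' δ u → p (x + pr (s + u)) = p x → p (x + pr s) = p x
  k3 : ∀ x w, Sm B δ w → Sm B' δ w → p (x + pr w) = p x

theorem Sm.mono {δ δ' : ℝ} (h : δ ≤ δ') {w : Fin m → ℝ} (hw : Sm B δ w) : Sm B δ' w :=
  fun k => (hw k).trans h

theorem Key.mono {δ δ' : ℝ} (hδ : 0 < δ) (h : δ ≤ δ') (K : Key B B' p δ') : Key B B' p δ where
  pos := hδ
  k1 x v u hv hu := K.k1 x v u (hv.mono h) (hu.mono h)
  k2 x s u hs hu := K.k2 x s u (hs.mono h) (hu.mono h)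
  k3 x w h1 h2 := K.k3 x w (h1.mono h) (h2.mono h)

theorem Fc.key [T2Space Y] [CompactSpace Y] (F : Fc B B' b g p) (hg : Expansive g) :
    ∃ δ, Key B B' p δ := by
  obtain ⟨U, hU, hexp⟩ := hg
  obtain ⟨V, hV, hsymm, hcomp, hVU⟩ := exists_V hU
  obtain ⟨δ, hδ, hδV⟩ := exists_δ p hV
  have F' := F.symm
  have hrefl : ∀ y, (y, y) ∈ V := fun y => subset_of_mem_nhdsSet hV (rfl : (y, y) ∈ diagonal Y)
  have main : ∀ x y, (∀ k, (p ((af B b)^[k] x), p ((af B b)^[k] y)) ∈ U ∧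
      (p ((af B' (-(act B' b)))^[k] x), p ((af B' (-(act B' b)))^[k] y)) ∈ U) → p x = p y := by
    intro x y h
    refine hexp _ _ fun k => ?_
    rw [← F.iter, ← F.iter, ← F'.iter, ← F'.iter]
    exact h k
  have hb : ∀ x y, p x = p y → ∀ k, p ((af B' (-(act B' b)))^[k] x) =
      p ((af B' (-(act B' b)))^[k] y) := by
    intro x y h k
    rw [F'.iter, F'.iter, h]
  refine ⟨δ, hδ, ?_, ?_, ?_⟩
  · intro x v u hv hu h
    refine main _ _ fun k => ⟨?_, ?_⟩
    · rw [af_iter]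
      exact hVU (hsymm _ _ (hδV _ _ (hv k)))
    · have e1 : x + pr u + pr v = (x + pr v) + pr u := by abel
      rw [e1]
      have q1 := hδV ((af B' (-(act B' b)))^[k] (x + pr v)) _ (hu k)
      rw [← af_iter, hb _ _ h k] at q1
      have q2 := hδV ((af B' (-(act B' b)))^[k] x) _ (hu k)
      rw [← af_iter] at q2
      exact hcomp _ _ _ (hsymm _ _ q1) q2
  · intro x s u hs hu h
    refine main _ _ fun k => ⟨?_, ?_⟩
    · rw [af_iter]
      exact hVU (hsymm _ _ (hδV _ _ (hs k)))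
    · have h2 := hδV ((af B' (-(act B' b)))^[k] (x + pr s)) _ (hu k)
      rw [← af_iter] at h2
      have e1 : x + pr s + pr u = x + pr (s + u) := by rw [pr_add]; abel
      rw [e1, hb _ _ h k] at h2
      exact hVU h2
  · intro x w h1 h2
    refine main _ _ fun k => ⟨?_, ?_⟩
    · rw [af_iter]
      exact hVU (hsymm _ _ (hδV _ _ (h1 k)))
    · rw [af_iter]
      exact hVU (hsymm _ _ (hδV _ _ (h2 k)))

theorem exp_symm {g : Y ≃ₜ Y} (hg : Expansive g) : Expansive g.symm := by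
  obtain ⟨U, hU, h⟩ := hg
  exact ⟨U, hU, fun x y hxy => h x y fun n => ⟨(hxy n).2, (hxy n).1⟩⟩

theorem Fc.keys [T2Space Y] [CompactSpace Y] (F : Fc B B' b g p) (hg : Expansive g) :
    ∃ δ, Key B B' p δ ∧ Key B' B p δ := by
  obtain ⟨δ₁, K₁⟩ := F.key hg
  obtain ⟨δ₂, K₂⟩ := F.symm.key (exp_symm hg)
  exact ⟨min δ₁ δ₂, K₁.mono (lt_min K₁.pos K₂.pos) (min_le_left _ _),
    K₂.mono (lt_min K₁.pos K₂.pos) (min_le_right _ _)⟩

/-- if no translation of the torus preserves the fibres, the matrix is hyperbolic -/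
theorem Fc.hyp [T2Space Y] [CompactSpace Y] (F : Fc B B' b g p) (hg : Expansive g)
    (hK : ∀ k : Tor m, (∀ y, p (y + k) = p y) → k = 0) : HypMat B := by
  obtain ⟨δ, K, -⟩ := F.keys hg
  by_contra hyp
  obtain ⟨w, C, hw, hC⟩ := bdd_of_not_hyp F.h1 hyp
  have hC0 : 0 ≤ C := (norm_nonneg _).trans (hC 0).1
  have hwn : 0 < ‖w‖ := norm_pos_iff.2 hw
  set t := min (δ / (C + 1)) (1 / (2 * ‖w‖)) with ht
  have ht0 : 0 < t := lt_min (div_pos K.pos (by linarith)) (by positivity)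
  have htC : t * C ≤ δ := by
    calc t * C ≤ δ / (C + 1) * C := mul_le_mul_of_nonneg_right (min_le_left _ _) hC0
      _ ≤ δ / (C + 1) * (C + 1) := mul_le_mul_of_nonneg_left (by linarith)
          (div_nonneg K.pos.le (by linarith))
      _ = δ := by field_simp
  have h1 : ∀ y, p (y + pr (t • w)) = p y := by
    intro y
    refine K.k3 y _ (fun k => ?_) (fun k => ?_)
    · rw [map_smul, norm_smul, Real.norm_of_nonneg ht0.le]
      exact (mul_le_mul_of_nonneg_left (hC k).1 ht0.le).trans htC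
    · rw [map_smul, norm_smul, Real.norm_of_nonneg ht0.le]
      exact (mul_le_mul_of_nonneg_left (hC k).2 ht0.le).trans htC
  have h2 := hK _ h1
  have h3 : ‖t • w‖ < 1 := by
    rw [norm_smul, Real.norm_of_nonneg ht0.le]
    calc t * ‖w‖ ≤ 1 / (2 * ‖w‖) * ‖w‖ := mul_le_mul_of_nonneg_right (min_le_right _ _) hwn.le
      _ = 1 / 2 := by field_simp
      _ < 1 := by norm_num
  have h4 := pr_small h2 h3
  rcases smul_eq_zero.1 h4 with h5 | h5
  · exact ht0.ne' h5
  · exact hw h5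

theorem Con.bdd {w : Fin m → ℝ} (h : Con B w) : ∃ C, 0 ≤ C ∧ Sm B C w := by
  obtain ⟨C, hC⟩ := (Tendsto.norm h).bddAbove_range
  exact ⟨C, (norm_nonneg _).trans (hC ⟨0, rfl⟩), fun k => hC ⟨k, rfl⟩⟩

/-- a small stable vector that preserves one fibre preserves all fibres -/
theorem Key.global {δ : ℝ} (K : Key B B' p δ) (hT : T2Space Y) (h1 : B' * B = 1) (h2 : B * B' = 1)
    (hS : Sp B B') {x : Tor m} {v : Fin m → ℝ} (hv : Sm B δ v) (hx : p (x + pr v) = p x) :
    ∀ y, p (y + pr v) = p y := by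
  have hcl : IsClosed {y | p (y + pr v) = p y} :=
    isClosed_eq (p.continuous.comp (continuous_id.add continuous_const)) p.continuous
  have huniv := dense h1 h2 hS hcl ⟨x, hx⟩ (by
    intro y hy u hu
    obtain ⟨C, hC, hCu⟩ := hu.bdd
    obtain ⟨N, hN⟩ := exists_nat_gt (C / δ)
    have hN0 : (0 : ℝ) < N := (div_nonneg hC K.pos.le).trans_lt hN
    have hNC : (N : ℝ)⁻¹ * C ≤ δ := by
      rw [div_lt_iff₀ K.pos] at hN
      rw [inv_mul_le_iff₀ hN0]
      exact hN.le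
    have h3 : Sm B' δ ((N : ℝ)⁻¹ • u) := by
      intro k
      rw [map_smul, norm_smul, norm_inv, Real.norm_of_nonneg hN0.le]
      exact (mul_le_mul_of_nonneg_left (hCu k) (inv_nonneg.2 hN0.le)).trans hNC
    have h4 : ∀ j : ℕ, p (y + pr ((j : ℝ) • ((N : ℝ)⁻¹ • u)) + pr v) =
        p (y + pr ((j : ℝ) • ((N : ℝ)⁻¹ • u))) := by
      intro j
      induction j with
      | zero =>
        simp only [Nat.cast_zero, zero_smul, pr_zero, add_zero]
        exact hy
      | succ j ih =>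
        have h5 := K.k1 _ v _ hv h3 ih
        have e1 : y + pr (((j + 1 : ℕ) : ℝ) • ((N : ℝ)⁻¹ • u)) =
            y + pr ((j : ℝ) • ((N : ℝ)⁻¹ • u)) + pr ((N : ℝ)⁻¹ • u) := by
          rw [Nat.cast_add, Nat.cast_one, add_smul, one_smul, pr_add]
          abel
        rw [e1]
        exact h5
    have h6 := h4 N
    rw [smul_smul, mul_inv_cancel₀ hN0.ne', one_smul] at h6
    exact h6)
  intro y
  have : y ∈ {y | p (y + pr v) = p y} := by rw [huniv]; exact mem_univ _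
  exact this

/-- uniform local injectivity -/
theorem Fc.inj [T2Space Y] [CompactSpace Y] (F : Fc B B' b g p) (hg : Expansive g)
    (hK : ∀ k : Tor m, (∀ y, p (y + k) = p y) → k = 0) :
    ∃ δ > 0, ∀ (x : Tor m) (w : Fin m → ℝ), ‖w‖ ≤ δ → p (x + pr w) = p x → w = 0 := by
  obtain ⟨δ, K, K'⟩ := F.keys hg
  have hS := sp_of_hyp F.h1 (F.hyp hg hK)
  obtain ⟨C, hC, hsp⟩ := hS
  refine ⟨min (δ / (C + 1)) (1 / 2), lt_min (div_pos K.pos (by linarith)) (by norm_num),
    fun x w hw h => ?_⟩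
  obtain ⟨s, u, hsu, hs, hu, hs0, hu0⟩ := hsp w
  have hCw : C * ‖w‖ ≤ δ := by
    calc C * ‖w‖ ≤ (C + 1) * (δ / (C + 1)) := by
          gcongr
          · linarith
          · exact hw.trans (min_le_left _ _)
      _ = δ := by field_simp
  have hs' : Sm B δ s := fun k => (hs k).trans hCw
  have hu' : Sm B' δ u := fun k => (hu k).trans hCw
  have h1 : p (x + pr s) = p x := K.k2 x s u hs' hu' (by rw [hsu]; exact h)
  have h2 : pr s = 0 := hK _ (K.global inferInstance F.h1 F.h2 (sp_of_hyp F.h1 (F.hyp hg hK)) hs' h1)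
  have h3 : p (x + pr u) = p x := by
    have : pr w = pr u := by rw [← hsu, pr_add, h2, zero_add]
    rw [← this]
    exact h
  have h4 : pr u = 0 := hK _ (K'.global inferInstance F.h2 F.h1
    (sp_of_hyp F.h1 (F.hyp hg hK)).symm hu' h3)
  refine pr_small ?_ (hw.trans_lt ((min_le_right _ _).trans_lt (by norm_num)))
  rw [← hsu, pr_add, h2, h4, add_zero]

end Pool.Agent.H244.Fac
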