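import Pool.Agent.H244.Fac5

/-!
# Expansive factors of toral automorphisms: reduction
-/

set_option autoImplicit false

open Set Filter Topology

namespace Pool.Agent.H244.Fac

open Pool.Agent.H779R2.To Pool.Agent.TH289.K

variable {m n : ℕ} {Y : Type*} [TopologicalSpace Y]

/-- the translations that preserve the fibres -/
def Ks [T2Space Y] (h : C(Tor n, Y)) : AddSubgroup (Tor n) where
  carrier := {k | ∀ y, h (y + k) = h y}
  add_mem' := by
    intro a b ha hb y
    rw [← add_assoc, hb, ha]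
  zero_mem' := by intro y; rw [add_zero]
  neg_mem' := by
    intro a ha y
    have := ha (y + -a)
    rw [neg_add_cancel_right] at this
    exact this.symm

theorem Ks_closed [T2Space Y] (h : C(Tor n, Y)) : IsClosed (Ks h : Set (Tor n)) := by
  have : (Ks h : Set (Tor n)) = ⋂ y, {k | h (y + k) = h y} := by
    ext k
    simp [Ks]
  rw [this]
  refine isClosed_iInter fun y => isClosed_eq ?_ continuous_const
  exact h.continuous.comp (continuous_const.add continuous_id)

theorem one_sub_surj {B : Matrix (Fin m) (Fin m) ℤ} (hB : HypMat B) :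
    Function.Surjective (act (1 - B)) := by
  apply act_surj
  intro c hc
  by_contra hne
  have h1 : (1 - B).det = 0 := by
    rw [← Matrix.exists_vecMul_eq_zero_iff]
    exact ⟨c, hne, hc⟩
  apply hB 1 norm_one
  rw [Polynomial.IsRoot.def, Matrix.eval_charpoly]
  have h2 : Matrix.scalar (Fin m) (1 : ℂ) - B.map (Int.castRingHom ℂ) =
      (1 - B).map (Int.castRingHom ℂ) := by
    rw [Matrix.map_sub _ (fun a b => map_sub _ a b), Matrix.map_one _ (map_zero _) (map_one _)]
    simp
  rw [h2]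
  have h3 := RingHom.map_det (Int.castRingHom ℂ) (1 - B)
  rw [h1, map_zero] at h3
  exact h3.symm

theorem unit_of_inj {B : Matrix (Fin m) (Fin m) ℤ} (h : Function.Injective (act B)) :
    IsUnit B.det := by
  have h0 : ∀ v : Fin m → ℝ, pr (rl B v) = 0 → pr v = 0 := by
    intro v hv
    apply h
    rw [act_pr, hv, act_zero]
  have hinj : Function.Injective (rl B) := by
    rw [injective_iff_map_eq_zero]
    intro v hv
    by_contra hne
    have hvn : 0 < ‖v‖ := norm_pos_iff.2 hne
    have h1 := h0 ((1 / (2 * ‖v‖)) • v) (by rw [map_smul, hv, smul_zero, pr_zero])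
    have h2 := pr_small h1 (by
      rw [norm_smul, Real.norm_of_nonneg (by positivity)]
      have : 1 / (2 * ‖v‖) * ‖v‖ = 1 / 2 := by field_simp
      rw [this]
      norm_num)
    rcases smul_eq_zero.1 h2 with h3 | h3
    · exact absurd h3 (by positivity)
    · exact hne h3
  have h1 : ∀ j : Fin m, ∃ z : Fin m → ℤ, rl B (fun i => (z i : ℝ)) = Pi.single j 1 := by
    intro j
    obtain ⟨v, hv⟩ := (LinearMap.injective_iff_surjective.1 hinj) (Pi.single j 1)
    have h2 : pr (rl B v) = 0 := by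
      rw [hv, pr_eq_zero]
      refine ⟨Pi.single j 1, ?_⟩
      funext i
      by_cases hij : i = j
      · subst hij; simp
      · simp [Pi.single_eq_of_ne hij]
    obtain ⟨z, rfl⟩ := pr_eq_zero.1 (h0 v h2)
    exact ⟨z, hv⟩
  choose z hz using h1
  obtain ⟨R, hR⟩ : ∃ R : Matrix (Fin m) (Fin m) ℤ, ∀ i j, R i j = z j i :=
    ⟨Matrix.of fun i j => z j i, fun i j => rfl⟩
  apply Matrix.isUnit_det_of_right_inverse (B := R)
  ext i j
  have h2 := congrFun (hz j) i
  rw [rl_apply] at h2
  have h3 : ((B * R) i j : ℝ) = ((1 : Matrix (Fin m) (Fin m) ℤ) i j : ℝ) := by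
    rw [Matrix.mul_apply]
    push_cast
    simp only [hR]
    rw [h2, Matrix.one_apply, Pi.single_apply]
    split_ifs <;> simp
  exact_mod_cast h3

/-- every point is the sum of an image and of an element killed by a power -/
theorem exists_dec (A : Matrix (Fin n) (Fin n) ℤ) (y : Tor n) :
    ∃ (t κ : Tor n) (j : ℕ), y = act A t + κ ∧ act (A ^ j) κ = 0 := by
  obtain ⟨v, rfl⟩ := pr_surj y
  obtain ⟨j, hj, hj1⟩ :=
    ((LinearMap.eventually_codisjoint_ker_pow_range_pow (rl A)).and (eventually_ge_atTop 1)).exists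
  have h1 : v ∈ LinearMap.ker (rl A ^ j) ⊔ LinearMap.range (rl A ^ j) := by
    rw [hj.eq_top]
    trivial
  obtain ⟨κ, hκ, w, ⟨t, rfl⟩, rfl⟩ := Submodule.mem_sup.1 h1
  obtain ⟨i, rfl⟩ := Nat.exists_eq_add_of_le' hj1
  refine ⟨pr ((rl A ^ i) t), pr κ, i + 1, ?_, ?_⟩
  · rw [act_pr, ← pr_add, pow_succ', Module.End.mul_apply, add_comm]
  · have h2 : ∀ (k : ℕ) (w : Fin n → ℝ), act (A ^ k) (pr w) = pr ((rl A ^ k) w) := by
      intro k
      induction k with
      | zero => intro w; simp [act_one]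
      | succ k ih => intro w; rw [pow_succ', act_mul, ih, act_pr, pow_succ', Module.End.mul_apply]
    rw [h2, LinearMap.mem_ker.1 hκ, pr_zero]

theorem stage1 [T2Space Y] [CompactSpace Y] (A : Matrix (Fin n) (Fin n) ℤ)
    (a : Tor n) (g : Y ≃ₜ Y) (hg : Expansive g) (h : C(Tor n, Y))
    (hfg : ∀ x, h (act A x + a) = g (h x)) :
    ∃ (m : ℕ) (B : Matrix (Fin m) (Fin m) ℤ) (L : Matrix (Fin m) (Fin n) ℤ) (c : Tor m)
      (q : C(Tor m, Y)), IsUnit B.det ∧ HypMat B ∧ L * A = B * L ∧ Function.Surjective (act L) ∧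
      (∀ x, h x = q (act L x + c)) ∧ (∀ y, q (act B y) = g (q y)) ∧
      (∀ k, (∀ y, q (y + k) = q y) → k = 0) ∧
      ∃ δ > 0, ∀ (x : Tor m) (w : Fin m → ℝ), ‖w‖ ≤ δ → q (x + pr w) = q x → w = 0 := by
  have hK1 : ∀ k, act A k ∈ Ks h → k ∈ Ks h := by
    intro k hk x
    apply g.injective
    rw [← hfg, ← hfg, act_add]
    have := hk (act A x + a)
    rw [← this]
    congr 1
    abel
  have hK2 : ∀ (j : ℕ) (κ : Tor n), act (A ^ j) κ = 0 → κ ∈ Ks h := by
    intro j
    induction j with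
    | zero =>
      intro κ hκ
      rw [pow_zero, act_one] at hκ
      rw [hκ]
      exact (Ks h).zero_mem
    | succ j ih =>
      intro κ hκ
      apply hK1
      apply ih
      rw [← act_mul, ← pow_succ]
      exact hκ
  have hK3 : ∀ k, k ∈ Ks h → act A k ∈ Ks h := by
    intro k hk y
    obtain ⟨t, κ, j, hy, hκ⟩ := exists_dec A (y - a)
    have hκ' := hK2 j κ hκ
    have e1 : y = (act A t + a) + κ := by
      rw [add_right_comm, ← hy, sub_add_cancel]
    have e2 : y + act A k = (act A (t + k) + a) + κ := by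
      rw [e1, act_add]
      abel
    rw [e2, hκ' _, hfg, hk, ← hfg, e1, hκ' _]
  obtain ⟨m, L, hL, hL0, hLb⟩ := exists_L (Ks h) (Ks_closed h)
  have hLs : Function.Surjective (act L) := act_surj hL0
  obtain ⟨B, hLA⟩ := exists_C hL hLb (C := A) hK3
  have hB : IsUnit B.det := by
    apply unit_of_inj
    have h1 : ∀ y, act B y = 0 → y = 0 := by
      intro y hy
      obtain ⟨x, rfl⟩ := hLs y
      rw [← act_mul, ← hLA, act_mul, hL] at hy
      exact (hL x).2 (hK1 x hy)
    intro y y' he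
    exact sub_eq_zero.1 (h1 _ (by rw [act_sub, he, sub_self]))
  have hq : IsQuotientMap (act L : Tor n → Tor m) :=
    (act_cont L).isClosedMap.isQuotientMap (act_cont L) hLs
  have hfac : Function.FactorsThrough h (⟨act L, act_cont L⟩ : C(Tor n, Tor m)) := by
    intro x y hxy
    have h1 : act L (x - y) = 0 := by
      rw [act_sub]
      exact sub_eq_zero.2 hxy
    have h2 := (hL _).1 h1 y
    rw [add_sub_cancel] at h2
    exact h2
  let q₁ : C(Tor m, Y) := IsQuotientMap.lift (f := (⟨act L, act_cont L⟩ : C(Tor n, Tor m))) hq h hfac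
  have hq₁ : ∀ x, q₁ (act L x) = h x := by
    intro x
    have := IsQuotientMap.lift_comp (f := (⟨act L, act_cont L⟩ : C(Tor n, Tor m))) hq h hfac
    exact congrArg (fun r : C(Tor n, Y) => r x) this
  have hF₁ : ∀ y, q₁ (act B y + act L a) = g (q₁ y) := by
    intro y
    obtain ⟨x, rfl⟩ := hLs y
    rw [← act_mul, ← hLA, act_mul, ← act_add, hq₁, hfg, hq₁]
  have hK₁ : ∀ k, (∀ y, q₁ (y + k) = q₁ y) → k = 0 := by
    intro k hk
    obtain ⟨k', rfl⟩ := hLs k
    rw [hL]
    intro x
    rw [← hq₁, act_add, hk, hq₁]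
  have F₁ : Fc B B⁻¹ (act L a) g q₁ :=
    ⟨Matrix.nonsing_inv_mul _ hB, Matrix.mul_nonsing_inv _ hB, hF₁⟩
  have hyp := F₁.hyp hg hK₁
  obtain ⟨y₀, hy₀⟩ := one_sub_surj hyp (act L a)
  have hy₁ : act B y₀ + act L a = y₀ := by
    rw [← hy₀]
    have : act (1 - B) y₀ = y₀ - act B y₀ := by
      have h1 : act ((1 - B) + B) y₀ = act (1 - B) y₀ + act B y₀ := by
        funext i
        simp only [act, Pi.add_apply, Matrix.add_apply, add_smul, Finset.sum_add_distrib]
      rw [sub_add_cancel, act_one] at h1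
      exact eq_sub_of_add_eq h1.symm
    rw [this]
    abel
  let q : C(Tor m, Y) := q₁.comp ⟨fun y => y + y₀, continuous_id.add continuous_const⟩
  have hqq : ∀ y, q y = q₁ (y + y₀) := fun y => rfl
  have hK : ∀ k, (∀ y, q (y + k) = q y) → k = 0 := by
    intro k hk
    refine hK₁ k fun y => ?_
    have := hk (y - y₀)
    rw [hqq, hqq] at this
    have e1 : y - y₀ + k + y₀ = y + k := by abel
    rw [e1, sub_add_cancel] at this
    exact this
  have hF : ∀ y, q (act B y) = g (q y) := by
    intro y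
    rw [hqq, hqq, ← hF₁, act_add]
    congr 1
    rw [add_assoc, hy₁]
  have F : Fc B B⁻¹ 0 g q :=
    ⟨Matrix.nonsing_inv_mul _ hB, Matrix.mul_nonsing_inv _ hB, fun x => by
      rw [af, add_zero]; exact hF x⟩
  refine ⟨m, B, L, -y₀, q, hB, hyp, hLA, hLs, ?_, hF, hK, F.inj hg hK⟩
  intro x
  rw [hqq, neg_add_cancel_right, hq₁]

end Pool.Agent.H244.Fac
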