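import Pool.Agent.H244.Fac6
import Pool.Graph.R_seed8.TH553.K289.J918
import Pool.Graph.R_seed8.TH289.L.P4

/-!
# Locally injective maps of Euclidean space onto a compact manifold
-/

set_option autoImplicit false

open Set Filter Topology Metric

namespace Pool.Agent.H244.Fac

variable {m : ℕ} {E : Type*} [NormedAddCommGroup E] [NormedSpace ℝ E] [FiniteDimensional ℝ E]
  {Y : Type*} [TopologicalSpace Y] [T2Space Y]

omit [T2Space Y] in
theorem dim_ge [ChartedSpace E Y] {P : (Fin m → ℝ) → Y} (hc : Continuous P) {δ : ℝ} (hδ : 0 < δ)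
    (hinj : ∀ v w, ‖v - w‖ ≤ δ → P v = P w → v = w) : m ≤ Module.finrank ℝ E := by
  obtain ⟨e, he⟩ : ∃ e, e = chartAt E (P 0) := ⟨_, rfl⟩
  have h0 : P 0 ∈ e.source := by rw [he]; exact mem_chart_source E (P 0)
  have h1 := Pool.Agent.W964.LieExp.finrank_le_of_injOn (V := Fin m → ℝ) (W := E)
    (ball 0 (δ / 2) ∩ P ⁻¹' e.source) (isOpen_ball.inter (e.open_source.preimage hc)) 0
    ⟨mem_ball_self (by positivity), h0⟩ (fun v => e (P v)) (by
      exact e.continuousOn.comp hc.continuousOn fun v hv => hv.2) (by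
      rintro v ⟨hv, hv'⟩ w ⟨hw, hw'⟩ hvw
      refine hinj v w ?_ (e.injOn hv' hw' hvw)
      rw [mem_ball_zero_iff] at hv hw
      have := norm_sub_le v w
      linarith)
  simpa using h1

theorem dim_le [CompactSpace Y] [Nonempty Y] [ChartedSpace E Y] {P : (Fin m → ℝ) → Y}
    (hc : Continuous P) (hs : Function.Surjective P) {δ : ℝ} (hδ : 0 < δ)
    (hinj : ∀ v w, ‖v - w‖ ≤ δ → P v = P w → v = w) : Module.finrank ℝ E ≤ m := by
  obtain ⟨i, hi⟩ := nonempty_interior_of_iUnion_of_closed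
    (f := fun i : ℕ => P '' closedBall (TopologicalSpace.denseSeq (Fin m → ℝ) i) (δ / 2))
    (fun i => ((isCompact_closedBall _ _).image hc).isClosed) (by
      rw [eq_univ_iff_forall]
      intro y
      obtain ⟨v, rfl⟩ := hs y
      obtain ⟨i, hi⟩ := (TopologicalSpace.denseRange_denseSeq (Fin m → ℝ)).exists_dist_lt v
        (half_pos hδ)
      exact mem_iUnion.2 ⟨i, v, mem_closedBall.2 hi.le, rfl⟩)
  obtain ⟨y₀, hy₀⟩ := hi
  obtain ⟨K, hK⟩ : ∃ K, K = closedBall (TopologicalSpace.denseSeq (Fin m → ℝ) i) (δ / 2) :=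
    ⟨_, rfl⟩
  rw [← hK] at hy₀
  have hKc : IsCompact K := by rw [hK]; exact isCompact_closedBall _ _
  have _ : CompactSpace K := isCompact_iff_compactSpace.1 hKc
  have hKi : ∀ v ∈ K, ∀ w ∈ K, P v = P w → v = w := by
    intro v hv w hw h
    refine hinj v w ?_ h
    rw [hK, mem_closedBall] at hv hw
    have := dist_triangle_right v w (TopologicalSpace.denseSeq (Fin m → ℝ) i)
    rw [dist_eq_norm] at this
    linarith
  have hF : IsClosedEmbedding (fun v : K => P v) :=
    IsClosedEmbedding.of_continuous_injective_isClosedMap (hc.comp continuous_subtype_val)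
      (fun v w h => Subtype.ext (hKi v v.2 w w.2 h)) (Continuous.isClosedMap
        (hc.comp continuous_subtype_val))
  obtain ⟨e, he⟩ : ∃ e, e = chartAt E y₀ := ⟨_, rfl⟩
  have h0 : y₀ ∈ e.source := by rw [he]; exact mem_chart_source E y₀
  obtain ⟨O, hO⟩ : ∃ O : Set E, O = e.target ∩ e.symm ⁻¹' interior (P '' K) := ⟨_, rfl⟩
  have hOo : IsOpen O := by
    rw [hO]
    exact e.isOpen_inter_preimage_symm isOpen_interior
  have hch : ∀ y : O, ∃ v : K, P v = e.symm y := by
    intro y
    have h1 : (y : E) ∈ e.target ∩ e.symm ⁻¹' interior (P '' K) := hO ▸ y.2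
    obtain ⟨v, hv, hvy⟩ := interior_subset h1.2
    exact ⟨⟨v, hv⟩, hvy⟩
  choose φ hφ using hch
  have hφc : Continuous φ := by
    rw [hF.isInducing.continuous_iff]
    have h1 : (fun v : K => P v) ∘ φ = fun y : O => e.symm y := funext hφ
    rw [h1]
    have h2 : ContinuousOn e.symm O := e.continuousOn_symm.mono (by rw [hO]; exact inter_subset_left)
    exact continuousOn_iff_continuous_domRestrict.1 h2
  classical
  have h3 := Pool.Agent.W964.LieExp.finrank_le_of_injOn (V := E) (W := Fin m → ℝ) O hOo (e y₀)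
    (by
      rw [hO]
      refine ⟨e.map_source h0, ?_⟩
      rw [mem_preimage, e.left_inv h0]
      exact hy₀)
    (fun y => if h : y ∈ O then (φ ⟨y, h⟩ : Fin m → ℝ) else 0) (by
      rw [continuousOn_iff_continuous_domRestrict]
      have h4 : O.domRestrict (fun y => if h : y ∈ O then (φ ⟨y, h⟩ : Fin m → ℝ) else 0) =
          fun y => (φ y : Fin m → ℝ) := by
        funext y
        simp [Set.domRestrict]
      rw [h4]
      exact continuous_subtype_val.comp hφc) (by
      intro y hy z hz hyz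
      simp only [hy, hz, dif_pos] at hyz
      have h5 := hφ ⟨y, hy⟩
      have h6 := hφ ⟨z, hz⟩
      rw [hyz, h6] at h5
      have hy' := hy
      have hz' := hz
      rw [hO] at hy' hz'
      exact (e.symm.injOn hz'.1 hy'.1 h5).symm)
  simpa using h3

theorem open_of_inj [CompactSpace Y] [Nonempty Y] [ChartedSpace E Y] {P : (Fin m → ℝ) → Y}
    (hc : Continuous P) (hs : Function.Surjective P) {δ : ℝ} (hδ : 0 < δ)
    (hinj : ∀ v w, ‖v - w‖ ≤ δ → P v = P w → v = w) :
    m = Module.finrank ℝ E ∧ IsOpenMap P := by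
  have h1 := dim_le (E := E) hc hs hδ hinj
  refine ⟨le_antisymm (dim_ge hc hδ hinj) h1, ?_⟩
  rw [isOpenMap_iff_nhds_le]
  intro x s hs
  rw [Filter.mem_map] at hs
  refine Filter.mem_of_superset (Pool.Agent.TH553.K289.image_nhds (E := Fin m → ℝ) (E' := E)
    (by simpa using h1) hc (U := ball x (δ / 2)) (ball_mem_nhds _ (half_pos hδ)) ?_ hs) ?_
  · intro v hv w hw h
    refine hinj v w ?_ h
    rw [mem_ball] at hv hw
    have := dist_triangle_right v w x
    rw [dist_eq_norm] at this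
    linarith
  · exact image_preimage_subset P s

theorem pr_open : IsOpenMap (pr : (Fin m → ℝ) → Tor m) := by
  have : (pr : (Fin m → ℝ) → Tor m) = Pi.map fun _ => ((↑) : ℝ → AddCircle (1 : ℝ)) := rfl
  rw [this]
  refine IsOpenMap.piMap (fun _ => QuotientAddGroup.isOpenMap_coe) ?_
  exact Filter.Eventually.of_forall fun _ => QuotientAddGroup.mk_surjective

omit [T2Space Y] in
theorem open_of_pr {q : Tor m → Y} (h : IsOpenMap fun v => q (pr v)) : IsOpenMap q := by
  intro U hU
  have h1 := h (pr ⁻¹' U) (hU.preimage pr_cont)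
  have h2 : (fun v => q (pr v)) '' (pr ⁻¹' U) = q '' U := by
    rw [← image_image q pr, image_preimage_eq U pr_surj]
  rwa [h2] at h1

/-- the factor map onto a manifold is a finite covering -/
theorem cover_q [CompactSpace Y] [Nonempty Y] [ChartedSpace E Y] {q : C(Tor m, Y)}
    (hs : Function.Surjective q) {δ : ℝ} (hδ : 0 < δ)
    (hinj : ∀ (x : Tor m) (w : Fin m → ℝ), ‖w‖ ≤ δ → q (x + pr w) = q x → w = 0) :
    m = Module.finrank ℝ E ∧ IsOpenMap q ∧ IsCoveringMap q ∧ ∀ y, (q ⁻¹' {y}).Finite := by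
  have h1 : ∀ v w : Fin m → ℝ, ‖v - w‖ ≤ δ → q (pr v) = q (pr w) → v = w := by
    intro v w h e
    have h2 := hinj (pr w) (v - w) h (by
      rw [← pr_add, add_sub_cancel]
      exact e)
    exact sub_eq_zero.1 h2
  obtain ⟨h2, h3⟩ := open_of_inj (E := E) (P := fun v => q (pr v))
    (q.continuous.comp pr_cont) (hs.comp pr_surj) hδ h1
  have h4 : IsOpenMap q := open_of_pr h3
  have h5 : ∀ x : Tor m, ∃ U ∈ 𝓝 x, InjOn q U := by
    intro x
    obtain ⟨v, rfl⟩ := pr_surj x
    refine ⟨pr '' ball v (δ / 2), pr_open.image_mem_nhds (ball_mem_nhds _ (half_pos hδ)), ?_⟩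
    rintro _ ⟨a, ha, rfl⟩ _ ⟨b, hb, rfl⟩ hab
    rw [h1 a b ?_ hab]
    rw [mem_ball] at ha hb
    have := dist_triangle_right a b v
    rw [dist_eq_norm] at this
    linarith
  obtain ⟨h6, h7⟩ := Pool.Agent.TH289.L.covering_of_open q.continuous h4 h5
  exact ⟨h2, h4, h6, h7⟩

end Pool.Agent.H244.Fac
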