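import Pool.Agent.H244.Fac7

/-!
# Lifts of the identity are affine
-/

set_option autoImplicit false

open Set Filter Topology Metric

namespace Pool.Agent.H244.Fac

open Pool.Agent.H779R2.To Pool.Agent.TH289.K

variable {m : ℕ} {Y : Type*} [TopologicalSpace Y]

/-- integer vectors as real vectors -/
def ic (z : Fin m → ℤ) : Fin m → ℝ := fun i => (z i : ℝ)

theorem pr_ic (z : Fin m → ℤ) : pr (ic z) = 0 := pr_eq_zero.2 ⟨z, rfl⟩

theorem pr_eq {v w : Fin m → ℝ} (h : pr v = pr w) : ∃ z : Fin m → ℤ, v = w + ic z := by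
  have h1 : pr (v - w) = 0 := by rw [pr_sub, h, sub_self]
  obtain ⟨z, hz⟩ := pr_eq_zero.1 h1
  exact ⟨z, by rw [show ic z = v - w from hz.symm, add_sub_cancel]⟩

/-- lifts of the identity -/
structure Dk (q : C(Tor m, Y)) (γ : (Fin m → ℝ) → (Fin m → ℝ)) : Prop where
  cont : Continuous γ
  lift : ∀ v, q (pr (γ v)) = q (pr v)

variable {q : C(Tor m, Y)}

/-- injectivity at the scale `δ` -/
def Ij (q : C(Tor m, Y)) (δ : ℝ) : Prop :=
  0 < δ ∧ ∀ v w : Fin m → ℝ, ‖v - w‖ ≤ δ → q (pr v) = q (pr w) → v = w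

theorem Dk.unique {δ : ℝ} (hI : Ij q δ) {γ γ' : (Fin m → ℝ) → (Fin m → ℝ)} (h : Dk q γ)
    (h' : Dk q γ') {v₀ : Fin m → ℝ} (h0 : pr (γ v₀) = pr (γ' v₀)) :
    ∃ z : Fin m → ℤ, ∀ v, γ v = γ' v + ic z := by
  obtain ⟨z, hz⟩ := pr_eq h0
  refine ⟨z, ?_⟩
  have hcl : IsClosed {v | γ v = γ' v + ic z} :=
    isClosed_eq h.cont (h'.cont.add continuous_const)
  have hop : IsOpen {v | γ v = γ' v + ic z} := by
    rw [isOpen_iff_mem_nhds]
    intro v hv
    have hc : Continuous fun v => γ v - (γ' v + ic z) := h.cont.sub (h'.cont.add continuous_const)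
    have h1 : γ v - (γ' v + ic z) = 0 := sub_eq_zero.2 hv
    have h2 : ∀ᶠ w in 𝓝 v, ‖γ w - (γ' w + ic z)‖ < δ :=
      (hc.norm.tendsto v).eventually_lt_const (by rw [h1, norm_zero]; exact hI.1)
    filter_upwards [h2] with w hw
    refine hI.2 _ _ ?_ ?_
    · exact hw.le
    · rw [h.lift, pr_add, pr_ic, add_zero, h'.lift]
  have := IsClopen.eq_univ ⟨hcl, hop⟩ ⟨v₀, hz⟩
  intro v
  have h3 : v ∈ {v | γ v = γ' v + ic z} := by rw [this]; exact mem_univ _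
  exact h3

theorem Dk.shift {γ : (Fin m → ℝ) → (Fin m → ℝ)} (h : Dk q γ) (z : Fin m → ℤ) :
    Dk q fun v => γ (v + ic z) where
  cont := h.cont.comp (continuous_id.add continuous_const)
  lift v := by rw [h.lift, pr_add, pr_ic, add_zero]

/-- all lifts are equicontinuous -/
theorem equi {δ : ℝ} (hI : Ij q δ) (hfin : ∀ y, (q ⁻¹' {y}).Finite) {ε : ℝ} (hε : 0 < ε) :
    ∃ η > 0, ∀ γ, Dk q γ → ∀ x y, ‖x - y‖ < η → ‖γ x - γ y‖ < ε := by
  have hD : {x : Tor m | q x = q (pr 0) ∧ ∃ γ, Dk q γ ∧ pr (γ 0) = x}.Finite :=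
    (hfin (q (pr 0))).subset fun x hx => hx.1
  have hch : ∀ x : Tor m, ∃ γ : (Fin m → ℝ) → (Fin m → ℝ),
      x ∈ {x : Tor m | q x = q (pr 0) ∧ ∃ γ, Dk q γ ∧ pr (γ 0) = x} →
        Dk q γ ∧ pr (γ 0) = x := by
    intro x
    by_cases hx : x ∈ {x : Tor m | q x = q (pr 0) ∧ ∃ γ, Dk q γ ∧ pr (γ 0) = x}
    · obtain ⟨-, γ, h1, h2⟩ := hx
      exact ⟨γ, fun _ => ⟨h1, h2⟩⟩
    · exact ⟨id, fun h => absurd h hx⟩
  choose G hG using hch
  have h1 : ∀ᶠ η in 𝓝[>] (0 : ℝ),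
      ∀ x ∈ {x : Tor m | q x = q (pr 0) ∧ ∃ γ, Dk q γ ∧ pr (γ 0) = x},
        ∀ a ∈ closedBall (0 : Fin m → ℝ) 2, ∀ b ∈ closedBall (0 : Fin m → ℝ) 2,
          dist a b < η → dist (G x a) (G x b) < ε := by
    rw [hD.eventually_all]
    intro x hx
    have h2 := (isCompact_closedBall (0 : Fin m → ℝ) 2).uniformContinuousOn_of_continuous
      (hG x hx).1.cont.continuousOn
    obtain ⟨η, hη, h3⟩ := Metric.uniformContinuousOn_iff.1 h2 ε hε
    filter_upwards [Ioo_mem_nhdsGT hη] with η' hη' a ha b hb hab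
    exact h3 a ha b hb (hab.trans hη'.2)
  have h0 : ∀ᶠ η in 𝓝[>] (0 : ℝ), η ∈ Ioo (0 : ℝ) 1 := Ioo_mem_nhdsGT one_pos
  obtain ⟨η, ⟨hη0, hη1⟩, hη⟩ := (h0.and h1).exists
  refine ⟨η, hη0, fun γ hγ x y hxy => ?_⟩
  obtain ⟨z, hz⟩ : ∃ z : Fin m → ℤ, z = fun i => ⌊x i⌋ := ⟨_, rfl⟩
  have hx1 : ‖x - ic z‖ ≤ 1 := by
    rw [pi_norm_le_iff_of_nonneg zero_le_one]
    intro i
    rw [hz]
    simp only [Pi.sub_apply, ic, Real.norm_eq_abs]
    rw [abs_of_nonneg (sub_nonneg.2 (Int.floor_le _))]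
    have := Int.lt_floor_add_one (x i)
    linarith
  have hy1 : ‖y - ic z‖ ≤ 2 := by
    have e1 : y - ic z = (x - ic z) - (x - y) := by abel
    rw [e1]
    have := norm_sub_le (x - ic z) (x - y)
    linarith
  have hs := hγ.shift z
  have hmem : pr (γ (0 + ic z)) ∈ {x : Tor m | q x = q (pr 0) ∧ ∃ γ, Dk q γ ∧ pr (γ 0) = x} :=
    ⟨hs.lift 0, _, hs, rfl⟩
  obtain ⟨h2, h3⟩ := hG _ hmem
  obtain ⟨z', hz'⟩ := hs.unique hI h2 (v₀ := 0) h3.symm
  have h4 := hη _ hmem (x - ic z) (mem_closedBall_zero_iff.2 (hx1.trans (by norm_num)))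
    (y - ic z) (mem_closedBall_zero_iff.2 hy1) (by rw [dist_eq_norm, sub_sub_sub_cancel_right]; exact hxy)
  have h5 := hz' (x - ic z)
  have h6 := hz' (y - ic z)
  simp only [sub_add_cancel] at h5 h6
  rw [h5, h6, add_sub_add_right_eq_sub, ← dist_eq_norm]
  exact h4

variable {B B' : Matrix (Fin m) (Fin m) ℤ} {g : Y ≃ₜ Y}

theorem Fc.powP {b : Tor m} {p : C(Tor m, Y)} (F : Fc B B' b g p) (hb : b = 0) (k : ℕ)
    (w : Fin m → ℝ) : p (pr ((rl B ^ k) w)) = g^[k] (p (pr w)) := by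
  subst hb
  induction k with
  | zero => rfl
  | succ k ih =>
    rw [pow_succ', Module.End.mul_apply, ← act_pr]
    have := F.h3 (pr ((rl B ^ k) w))
    rw [af, add_zero] at this
    rw [this, ih, Function.iterate_succ_apply']

theorem inv_pow (h1 : B' * B = 1) (h2 : B * B' = 1) (k : ℕ) (w : Fin m → ℝ) :
    (rl B' ^ k) ((rl B ^ k) w) = w := by
  have hcomm : Commute (rl B') (rl B) := by
    show rl B' * rl B = rl B * rl B'
    rw [← rl_mul, ← rl_mul, h1, h2]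
  rw [← Module.End.mul_apply, ← hcomm.mul_pow, ← rl_mul, h1, rl_one, one_pow, Module.End.one_apply]

theorem cont_rl (B : Matrix (Fin m) (Fin m) ℤ) (k : ℕ) : Continuous (rl B ^ k) :=
  LinearMap.continuous_of_finiteDimensional _

theorem Dk.conj (F : Fc B B' 0 g q) {γ : (Fin m → ℝ) → (Fin m → ℝ)} (h : Dk q γ) (k : ℕ) :
    Dk q fun v => (rl B ^ k) (γ ((rl B' ^ k) v)) where
  cont := (cont_rl B k).comp (h.cont.comp (cont_rl B' k))
  lift v := by
    rw [F.powP rfl, h.lift, ← F.powP rfl, inv_pow F.h2 F.h1]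

theorem Dk.con (F : Fc B B' 0 g q) {δ : ℝ} (hI : Ij q δ) (hfin : ∀ y, (q ⁻¹' {y}).Finite)
    {γ : (Fin m → ℝ) → (Fin m → ℝ)} (h : Dk q γ) {s : Fin m → ℝ} (hs : Con B s) (v : Fin m → ℝ) :
    Con B (γ (v + s) - γ v) := by
  unfold Con
  rw [Metric.tendsto_atTop]
  intro ε hε
  obtain ⟨η, hη, h1⟩ := equi hI hfin hε
  obtain ⟨N, hN⟩ := (Metric.tendsto_atTop.1 hs) η hη
  refine ⟨N, fun k hk => ?_⟩
  have h2 := h1 _ (h.conj F k) ((rl B ^ k) (v + s)) ((rl B ^ k) v) (by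
    rw [← map_sub, add_sub_cancel_left]
    have := hN k hk
    rwa [dist_zero_right] at this)
  simp only [inv_pow F.h1 F.h2] at h2
  rw [dist_zero_right, map_sub]
  exact h2

theorem Fc.nobdd [T2Space Y] [CompactSpace Y] (F : Fc B B' 0 g q) (hg : Expansive g)
    {δ₀ : ℝ} (hI : Ij q δ₀) {w : Fin m → ℝ} (h1 : Con B w) (h2 : Con B' w) : w = 0 := by
  obtain ⟨δ, K, -⟩ := F.keys hg
  by_contra hw
  obtain ⟨C₁, hC₁, h3⟩ := h1.bdd
  obtain ⟨C₂, hC₂, h4⟩ := h2.bdd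
  obtain ⟨C, hC⟩ : ∃ C, C = max C₁ C₂ := ⟨_, rfl⟩
  have hC0 : 0 ≤ C := by rw [hC]; exact le_max_of_le_left hC₁
  have hwn : 0 < ‖w‖ := norm_pos_iff.2 hw
  obtain ⟨t, ht⟩ : ∃ t, t = min (δ / (C + 1)) (δ₀ / ‖w‖) := ⟨_, rfl⟩
  have ht0 : 0 < t := by rw [ht]; exact lt_min (div_pos K.pos (by linarith)) (div_pos hI.1 hwn)
  have htC : t * C ≤ δ := by
    calc t * C ≤ δ / (C + 1) * C := by
          rw [ht]; exact mul_le_mul_of_nonneg_right (min_le_left _ _) hC0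
      _ ≤ δ / (C + 1) * (C + 1) := mul_le_mul_of_nonneg_left (by linarith)
          (div_nonneg K.pos.le (by linarith))
      _ = δ := by field_simp
  have h5 : q (0 + pr (t • w)) = q 0 := by
    refine K.k3 0 _ (fun k => ?_) (fun k => ?_)
    · rw [map_smul, norm_smul, Real.norm_of_nonneg ht0.le]
      refine (mul_le_mul_of_nonneg_left ((h3 k).trans ?_) ht0.le).trans htC
      rw [hC]; exact le_max_left _ _
    · rw [map_smul, norm_smul, Real.norm_of_nonneg ht0.le]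
      refine (mul_le_mul_of_nonneg_left ((h4 k).trans ?_) ht0.le).trans htC
      rw [hC]; exact le_max_right _ _
  have h6 := hI.2 (t • w) 0 (by
    rw [sub_zero, norm_smul, Real.norm_of_nonneg ht0.le]
    calc t * ‖w‖ ≤ δ₀ / ‖w‖ * ‖w‖ := by
          rw [ht]; exact mul_le_mul_of_nonneg_right (min_le_right _ _) hwn.le
      _ = δ₀ := by field_simp) (by
    rw [zero_add] at h5
    rw [h5, pr_zero])
  rcases smul_eq_zero.1 h6 with h7 | h7
  · exact ht0.ne' h7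
  · exact hw h7

theorem Dk.tau [T2Space Y] [CompactSpace Y] (F : Fc B B' 0 g q) (hg : Expansive g)
    {δ : ℝ} (hI : Ij q δ) (hfin : ∀ y, (q ⁻¹' {y}).Finite)
    {γ : (Fin m → ℝ) → (Fin m → ℝ)} (h : Dk q γ) {s u : Fin m → ℝ} (hs : Con B s) (hu : Con B' u)
    (v : Fin m → ℝ) : γ (v + u + s) - γ (v + u) = γ (v + s) - γ v := by
  have F' : Fc B' B 0 g.symm q := by
    have := F.symm
    rwa [act_zero, neg_zero] at this
  have h1 : Con B ((γ (v + u + s) - γ (v + u)) - (γ (v + s) - γ v)) :=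
    (h.con F hI hfin hs _).sub (h.con F hI hfin hs _)
  have h2 : Con B' ((γ (v + u + s) - γ (v + u)) - (γ (v + s) - γ v)) := by
    have e1 : (γ (v + u + s) - γ (v + u)) - (γ (v + s) - γ v) =
        (γ (v + s + u) - γ (v + s)) - (γ (v + u) - γ v) := by
      rw [add_right_comm]; abel
    rw [e1]
    exact (h.con F' hI hfin hu _).sub (h.con F' hI hfin hu _)
  exact sub_eq_zero.1 (F.nobdd hg hI h1 h2)

theorem Dk.per {δ : ℝ} (hI : Ij q δ) (hfin : ∀ y, (q ⁻¹' {y}).Finite)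
    {γ : (Fin m → ℝ) → (Fin m → ℝ)} (h : Dk q γ) (z : Fin m → ℤ) :
    ∃ M : ℕ, 1 ≤ M ∧ ∃ c, ∀ v, γ (v + (M : ℝ) • ic z) = γ v + c := by
  have hmul : ∀ k : ℕ, (k : ℝ) • ic z = ic (k • z) := by
    intro k
    funext i
    simp [ic]
  obtain ⟨k, -, k', -, hne, he⟩ := infinite_univ.exists_ne_map_eq_of_mapsTo
    (f := fun k : ℕ => pr (γ (0 + ic (k • z)))) (s := univ) (t := q ⁻¹' {q (pr 0)})
    (fun k _ => (h.shift (k • z)).lift 0) (hfin _)
  wlog hlt : k < k' generalizing k k' with H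
  · exact H k' k hne.symm he.symm (lt_of_le_of_ne (not_lt.1 hlt) hne.symm)
  obtain ⟨z', hz'⟩ := (h.shift (k' • z)).unique hI (h.shift (k • z)) (v₀ := 0) he.symm
  refine ⟨k' - k, by omega, ic z', fun v => ?_⟩
  have h1 := hz' (v - ic (k • z))
  rw [sub_add_cancel] at h1
  rw [← h1]
  congr 1
  rw [Nat.cast_sub hlt.le, sub_smul, hmul, hmul]
  abel

theorem Dk.const [T2Space Y] [CompactSpace Y] (F : Fc B B' 0 g q) (hg : Expansive g)
    {δ : ℝ} (hI : Ij q δ) (hfin : ∀ y, (q ⁻¹' {y}).Finite) (hS : Sp B B')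
    {γ : (Fin m → ℝ) → (Fin m → ℝ)} (h : Dk q γ) {s : Fin m → ℝ} (hs : Con B s)
    (v : Fin m → ℝ) : γ (v + s) = γ v + (γ s - γ 0) := by
  -- the periods
  let H : AddSubgroup (Fin m → ℝ) :=
    { carrier := {w | ∀ x, γ (x + w + s) - γ (x + w) = γ (x + s) - γ x}
      add_mem' := by
        intro a b ha hb x
        have h1 := hb (x + a)
        rw [add_assoc x a b] at h1
        rw [h1, ha x]
      zero_mem' := by intro x; rw [add_zero]
      neg_mem' := by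
        intro a ha x
        have h1 := ha (x + -a)
        rw [neg_add_cancel_right] at h1
        exact h1.symm }
  have hH : ∀ w, w ∈ H ↔ ∀ x, γ (x + w + s) - γ (x + w) = γ (x + s) - γ x := fun w => Iff.rfl
  have hHcl : IsClosed (H : Set (Fin m → ℝ)) := by
    have : (H : Set (Fin m → ℝ)) = ⋂ x, {w | γ (x + w + s) - γ (x + w) = γ (x + s) - γ x} := by
      ext w
      simp [hH]
    rw [this]
    refine isClosed_iInter fun x => isClosed_eq ?_ continuous_const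
    have := h.cont
    fun_prop
  choose Mi hMi1 hMi using fun i : Fin m => h.per hI hfin (Pi.single i 1)
  obtain ⟨M, hM⟩ : ∃ M : ℕ, M = ∏ i, Mi i := ⟨_, rfl⟩
  have hM0 : (M : ℝ) ≠ 0 := by
    have : 0 < M := by rw [hM]; exact Finset.prod_pos fun i _ => hMi1 i
    exact_mod_cast this.ne'
  have hbas : ∀ i : Fin m, (M : ℝ) • ic (Pi.single i (1 : ℤ)) ∈ H := by
    intro i
    obtain ⟨c, hc⟩ : Mi i ∣ M := by rw [hM]; exact Finset.dvd_prod_of_mem _ (Finset.mem_univ i)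
    have h1 : (Mi i : ℝ) • ic (Pi.single i (1 : ℤ)) ∈ H := by
      obtain ⟨d, hd⟩ := hMi i
      rw [hH]
      intro x
      rw [add_right_comm, hd, hd]
      abel
    have h2 := H.nsmul_mem h1 c
    have e1 : c • ((Mi i : ℝ) • ic (Pi.single i (1 : ℤ)) : Fin m → ℝ) =
        (M : ℝ) • ic (Pi.single i (1 : ℤ)) := by
      rw [hc, ← Nat.cast_smul_eq_nsmul ℝ, smul_smul, mul_comm]
      push_cast
      rfl
    rwa [e1] at h2
  have hint : ∀ z : Fin m → ℤ, (M : ℝ) • ic z ∈ H := by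
    intro z
    have e1 : (M : ℝ) • ic z = ∑ i, z i • ((M : ℝ) • ic (Pi.single i (1 : ℤ)) : Fin m → ℝ) := by
      funext j
      simp [ic, Pi.single_apply]
    rw [e1]
    exact H.sum_mem fun i _ => H.zsmul_mem (hbas i) _
  have hS' : IsClosed {w : Fin m → ℝ | (M : ℝ) • w ∈ H} :=
    hHcl.preimage (continuous_const_smul _)
  have hcl : IsClosed (pr '' {w : Fin m → ℝ | (M : ℝ) • w ∈ H}) := by
    rw [← isOpen_compl_iff]
    have e1 : (pr '' {w : Fin m → ℝ | (M : ℝ) • w ∈ H})ᶜ =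
        pr '' {w : Fin m → ℝ | (M : ℝ) • w ∈ H}ᶜ := by
      ext x
      obtain ⟨w, rfl⟩ := pr_surj x
      constructor
      · intro hx
        exact ⟨w, fun hw => hx ⟨w, hw, rfl⟩, rfl⟩
      · rintro ⟨w', hw', he⟩ ⟨w'', hw'', he'⟩
        apply hw'
        obtain ⟨z, rfl⟩ := pr_eq (he.trans he'.symm)
        show (M : ℝ) • (w'' + ic z) ∈ H
        rw [smul_add]
        exact H.add_mem hw'' (hint z)
    rw [e1]
    exact pr_open _ hS'.isOpen_compl
  have huniv := dense F.h1 F.h2 hS hcl ⟨pr 0, 0, by simp [H.zero_mem], rfl⟩ (by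
    rintro _ ⟨w, hw, rfl⟩ u hu
    refine ⟨w + u, ?_, pr_add w u⟩
    show (M : ℝ) • (w + u) ∈ H
    rw [smul_add]
    refine H.add_mem hw ?_
    rw [hH]
    intro x
    exact h.tau F hg hI hfin hs (hu.smul _) x)
  have hall : ∀ w, w ∈ H := by
    intro w
    have h1 : pr ((M : ℝ)⁻¹ • w) ∈ pr '' {w : Fin m → ℝ | (M : ℝ) • w ∈ H} := by
      rw [huniv]; exact mem_univ _
    obtain ⟨w', hw', he⟩ := h1
    obtain ⟨z, hz⟩ := pr_eq he.symm
    have h2 : w = (M : ℝ) • w' + (M : ℝ) • ic z := by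
      rw [← smul_add, ← hz, smul_smul, mul_inv_cancel₀ hM0, one_smul]
    rw [h2]
    exact H.add_mem hw' (hint z)
  have h3 := (hH v).1 (hall v) 0
  simp only [zero_add] at h3
  rw [← h3]
  abel

end Pool.Agent.H244.Fac
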