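import Pool.Agent.H244.Fac8

/-!
# Deck transformations are integral affine maps
-/

set_option autoImplicit false

open Set Filter Topology Metric

namespace Pool.Agent.H244.Fac

open Pool.Agent.H779R2.To Pool.Agent.TH289.K

variable {m : ℕ} {Y : Type*} [TopologicalSpace Y] {q : C(Tor m, Y)}
  {B B' : Matrix (Fin m) (Fin m) ℤ} {g : Y ≃ₜ Y}

theorem rl_inj {R R' : Matrix (Fin m) (Fin m) ℤ} (h : rl R = rl R') : R = R' := by
  ext i j
  have h1 := congrArg (fun T : Module.End ℝ (Fin m → ℝ) => T (Pi.single j 1) i) h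
  simp only [rl_apply] at h1
  simpa [Pi.single_apply] using h1

/-- lifts of the identity are affine -/
theorem Dk.linear [T2Space Y] [CompactSpace Y] (F : Fc B B' 0 g q) (hg : Expansive g)
    {δ : ℝ} (hI : Ij q δ) (hfin : ∀ y, (q ⁻¹' {y}).Finite) (hS : Sp B B')
    {γ : (Fin m → ℝ) → (Fin m → ℝ)} (h : Dk q γ) :
    ∃ T : (Fin m → ℝ) ≃ₗ[ℝ] (Fin m → ℝ), ∀ v, γ v = T v + γ 0 := by
  have F' : Fc B' B 0 g.symm q := by
    have := F.symm
    rwa [act_zero, neg_zero] at this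
  have hs : ∀ s, Con B s → ∀ v, γ (v + s) = γ v + (γ s - γ 0) := fun s hs v =>
    h.const F hg hI hfin hS hs v
  have hu : ∀ u, Con B' u → ∀ v, γ (v + u) = γ v + (γ u - γ 0) := fun u hu v =>
    h.const F' (exp_symm hg) hI hfin hS.symm hu v
  have hadd : ∀ v w, γ (v + w) - γ 0 = (γ v - γ 0) + (γ w - γ 0) := by
    intro v w
    obtain ⟨C, hC, hsp⟩ := hS
    obtain ⟨s, u, hsu, -, -, hs1, hu1⟩ := hsp w
    have e1 : γ w = γ s + (γ u - γ 0) := by rw [← hsu, hu u hu1]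
    have e2 : γ (v + w) = γ v + (γ s - γ 0) + (γ u - γ 0) := by
      rw [← hsu, ← add_assoc, hu u hu1, hs s hs1]
    rw [e1, e2]
    abel
  let T₀ : (Fin m → ℝ) →+ (Fin m → ℝ) := AddMonoidHom.mk' (fun v => γ v - γ 0) hadd
  have hT₀ : Continuous T₀ := h.cont.sub continuous_const
  let T₁ : (Fin m → ℝ) →L[ℝ] (Fin m → ℝ) := T₀.toRealLinearMap hT₀
  have hT₁ : ∀ v, T₁ v = γ v - γ 0 := fun v => rfl
  have hinj : Function.Injective (T₁ : (Fin m → ℝ) →ₗ[ℝ] (Fin m → ℝ)) := by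
    rw [injective_iff_map_eq_zero]
    intro w hw
    by_contra hne
    have hwn : 0 < ‖w‖ := norm_pos_iff.2 hne
    have h1 : γ ((δ / ‖w‖) • w) = γ 0 := by
      have h2 : T₁ ((δ / ‖w‖) • w) = 0 := by
        rw [map_smul]
        have : T₁ w = 0 := hw
        rw [this, smul_zero]
      rw [hT₁] at h2
      exact sub_eq_zero.1 h2
    have h3 := hI.2 ((δ / ‖w‖) • w) 0 (by
      rw [sub_zero, norm_smul, Real.norm_of_nonneg (div_nonneg hI.1.le hwn.le)]
      exact (div_mul_cancel₀ _ hwn.ne').le) (by rw [← h.lift, h1, h.lift])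
    rcases smul_eq_zero.1 h3 with h4 | h4
    · exact (div_pos hI.1 hwn).ne' h4
    · exact hne h4
  refine ⟨LinearEquiv.ofInjectiveEndo (T₁ : (Fin m → ℝ) →ₗ[ℝ] (Fin m → ℝ)) hinj, fun v => ?_⟩
  rw [LinearEquiv.coe_ofInjectiveEndo]
  show γ v = T₁ v + γ 0
  rw [hT₁, sub_add_cancel]

theorem Dk.integral {γ : (Fin m → ℝ) → (Fin m → ℝ)} (h : Dk q γ)
    (hK : ∀ k, (∀ y, q (y + k) = q y) → k = 0) {T : (Fin m → ℝ) ≃ₗ[ℝ] (Fin m → ℝ)}
    (hT : ∀ v, γ v = T v + γ 0) :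
    ∃ R : Matrix (Fin m) (Fin m) ℤ, ∀ v, T v = rl R v := by
  have h1 : ∀ z : Fin m → ℤ, pr (T (ic z)) = 0 := by
    intro z
    apply hK
    intro y
    obtain ⟨w, rfl⟩ := pr_surj y
    have h2 : γ (T.symm (w - γ 0)) = w := by
      rw [hT, T.apply_symm_apply, sub_add_cancel]
    have h3 : γ (T.symm (w - γ 0) + ic z) = w + T (ic z) := by
      rw [hT, map_add, T.apply_symm_apply]
      abel
    rw [← pr_add, ← h3, h.lift, pr_add, pr_ic, add_zero, ← h.lift, h2]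
  have h2 : ∀ j : Fin m, ∃ z : Fin m → ℤ, T (Pi.single j 1) = ic z := by
    intro j
    have h3 := h1 (Pi.single j 1)
    have e1 : ic (Pi.single j (1 : ℤ)) = Pi.single j (1 : ℝ) := by
      funext i
      by_cases hij : i = j
      · subst hij; simp [ic]
      · simp [ic, Pi.single_eq_of_ne hij]
    rw [e1] at h3
    exact pr_eq_zero.1 h3
  choose z hz using h2
  obtain ⟨R, hR⟩ : ∃ R : Matrix (Fin m) (Fin m) ℤ, ∀ i j, R i j = z j i :=
    ⟨Matrix.of fun i j => z j i, fun i j => rfl⟩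
  refine ⟨R, fun v => ?_⟩
  have h4 : (T : (Fin m → ℝ) →ₗ[ℝ] (Fin m → ℝ)) = rl R := by
    apply (Pi.basisFun ℝ (Fin m)).ext
    intro j
    rw [Pi.basisFun_apply]
    show T (Pi.single j 1) = _
    rw [hz]
    funext i
    rw [rl_apply]
    simp [ic, Pi.single_apply, hR]
  exact congrArg (fun L : (Fin m → ℝ) →ₗ[ℝ] (Fin m → ℝ) => L v) h4

/-- lifts of the identity are integral affine maps -/
theorem Dk.affine [T2Space Y] [CompactSpace Y] (F : Fc B B' 0 g q) (hg : Expansive g)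
    {δ : ℝ} (hI : Ij q δ) (hfin : ∀ y, (q ⁻¹' {y}).Finite) (hS : Sp B B')
    (hK : ∀ k, (∀ y, q (y + k) = q y) → k = 0) {γ : (Fin m → ℝ) → (Fin m → ℝ)} (h : Dk q γ) :
    ∃ (R : Matrix (Fin m) (Fin m) ℤ), IsUnit R.det ∧ ∀ v, γ v = rl R v + γ 0 := by
  obtain ⟨T, hT⟩ := h.linear F hg hI hfin hS
  obtain ⟨R, hR⟩ := h.integral hK hT
  have h' : Dk q fun v => T.symm (v - γ 0) := by
    refine ⟨?_, fun v => ?_⟩
    · exact (LinearMap.continuous_of_finiteDimensional (T.symm : (Fin m → ℝ) →ₗ[ℝ] (Fin m → ℝ))).comp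
        (continuous_id.sub continuous_const)
    · rw [← h.lift, hT, T.apply_symm_apply, sub_add_cancel]
  have h'T : ∀ v, (fun v => T.symm (v - γ 0)) v = T.symm v + (fun v => T.symm (v - γ 0)) 0 := by
    intro v
    simp only [zero_sub, ← map_add]
    rw [sub_eq_add_neg]
  obtain ⟨R', hR'⟩ := h'.integral hK h'T
  refine ⟨R, ?_, fun v => by rw [hT, hR]⟩
  have h1 : R * R' = 1 := by
    apply rl_inj
    rw [rl_mul, rl_one]
    apply LinearMap.ext
    intro v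
    rw [Module.End.mul_apply, ← hR', ← hR, T.apply_symm_apply, Module.End.one_apply]
  exact Matrix.isUnit_det_of_right_inverse h1

theorem Dk.id (q : C(Tor m, Y)) : Dk q id := ⟨continuous_id, fun _ => rfl⟩

theorem ker_discrete : IsDiscrete {v : Fin m → ℝ | pr v = 0} := by
  constructor
  rw [discreteTopology_iff_isOpen_singleton]
  intro x
  rw [isOpen_induced_iff]
  refine ⟨ball (x : Fin m → ℝ) 1, isOpen_ball, ?_⟩
  ext y
  simp only [mem_preimage, mem_ball, mem_singleton_iff]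
  constructor
  · intro h
    apply Subtype.ext
    rw [← sub_eq_zero]
    refine pr_small ?_ (by rwa [dist_eq_norm] at h)
    have h1 : pr (x : Fin m → ℝ) = 0 := x.2
    have h2 : pr (y : Fin m → ℝ) = 0 := y.2
    rw [pr_sub, h1, h2, sub_zero]
  · rintro rfl
    simp

theorem pr_covering : IsCoveringMap (pr : (Fin m → ℝ) → Tor m) := by
  let f : (Fin m → ℝ) →+ Tor m := ⟨⟨pr, pr_zero⟩, pr_add⟩
  have hf : IsQuotientMap f := pr_open.isQuotientMap pr_cont pr_surj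
  have hd : IsDiscrete (f.ker : Set (Fin m → ℝ)) := ker_discrete
  exact (hf.isAddQuotientCoveringMap_of_isDiscrete_ker_addMonoidHom hd).isCoveringMap

theorem exists_deck (hq : IsCoveringMap q) {v₀ w₀ : Fin m → ℝ} (h : q (pr w₀) = q (pr v₀)) :
    ∃ γ, Dk q γ ∧ γ v₀ = w₀ := by
  let P : C(Fin m → ℝ, Y) := ⟨fun v => q (pr v), q.continuous.comp pr_cont⟩
  obtain ⟨Γ, ⟨h1, h2⟩, -⟩ := hq.existsUnique_continuousMap_lifts P v₀ (pr w₀) h
  obtain ⟨γ, ⟨h3, h4⟩, -⟩ := pr_covering.existsUnique_continuousMap_lifts Γ v₀ w₀ h1.symm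
  refine ⟨γ, ⟨γ.continuous, fun v => ?_⟩, h3⟩
  have h5 := congrFun h4 v
  have h6 := congrFun h2 v
  simp only [Function.comp_apply] at h5 h6
  rw [h5, h6]
  rfl

end Pool.Agent.H244.Fac
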