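import Mathlib

/-!
# Homomorphisms of tori
-/

set_option autoImplicit false

namespace Pool.Agent.H244.Fac

/-- The homomorphism of tori `ℝⁿ/ℤⁿ → ℝᵖ/ℤᵖ` induced by the integer `p × n` matrix `M`. -/
def act {p n : ℕ} (M : Matrix (Fin p) (Fin n) ℤ) (x : Fin n → AddCircle (1 : ℝ)) :
    Fin p → AddCircle (1 : ℝ) := fun i => ∑ j, M i j • x j

end Pool.Agent.H244.Fac
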