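import Pool.Agent.H244.Tube
import Pool.Graph.R_seed8.H789R2.AN.Man

set_option autoImplicit false
set_option linter.unusedSectionVars false

open Set Filter Topology Metric
open scoped Manifold ContDiff

namespace Pool.Agent.H244.Loc

open Pool.Agent.H721R2 Pool.Agent.H789R2.AN Pool.Agent.H244.Tube

section abs

variable {E F : Type*} [NormedAddCommGroup E] [NormedSpace ℝ E] [FiniteDimensional ℝ E]
  [NormedAddCommGroup F] [NormedSpace ℝ F]

/-- Continuity of a family of projections from the continuity of its images and kernels. -/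
theorem proj_cont {X : Type*} [TopologicalSpace X] {s : Set X} {A : X → E →L[ℝ] F}
    (hA : ContinuousOn A s) {m K : ℝ} (hm : ∀ x ∈ s, ∀ w, ‖w‖ ≤ m * ‖A x w‖) (hm0 : 0 ≤ m)
    {P : X → E →L[ℝ] E} (hK : ∀ x ∈ s, ∀ w, ‖A x (P x w)‖ ≤ K * ‖A x w‖) (hK0 : 0 ≤ K)
    (hP : ∀ x ∈ s, ∀ w, P x (P x w) = P x w)
    (h1 : ∀ η > 0, ∀ x₀ ∈ s, ∀ a, P x₀ a = a → ∀ᶠ x in 𝓝[s] x₀,
      ∃ a', P x a' = a' ∧ ‖A x a' - A x₀ a‖ ≤ η * ‖A x₀ a‖)
    (h2 : ∀ η > 0, ∀ x₀ ∈ s, ∀ a, P x₀ a = 0 → ∀ᶠ x in 𝓝[s] x₀,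
      ∃ a', P x a' = 0 ∧ ‖A x a' - A x₀ a‖ ≤ η * ‖A x₀ a‖) : ContinuousOn P s := by
  rw [continuousOn_clm_apply]
  intro v x₀ hx₀
  rw [Metric.continuousWithinAt_iff']
  intro ε hε
  set a₀ := P x₀ v with ha₀
  set b₀ := v - a₀ with hb₀
  have hPa : P x₀ a₀ = a₀ := hP x₀ hx₀ v
  have hPb : P x₀ b₀ = 0 := by rw [hb₀, map_sub, hPa, sub_self]
  set Q := ‖A x₀ a₀‖ + ‖A x₀ b₀‖ + 1 with hQ
  have hQ0 : 0 < Q := by positivity
  -- the total error is at most `m (K + 1) (2 η Q + δ)`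
  set c := m * (K + 1) + 1 with hc
  have hc0 : 0 < c := by positivity
  set η := ε / (8 * c * Q) with hη
  have hη0 : 0 < η := by positivity
  have t1 : ∀ᶠ x in 𝓝[s] x₀, dist (A x v) (A x₀ v) < ε / (8 * c) :=
    (Metric.continuousWithinAt_iff'.mp ((hA x₀ hx₀).clm_apply continuousWithinAt_const)) _
      (by positivity)
  have t2 : ∀ᶠ x in 𝓝[s] x₀, dist (A x a₀) (A x₀ a₀) < ε / (8 * c) :=
    (Metric.continuousWithinAt_iff'.mp ((hA x₀ hx₀).clm_apply continuousWithinAt_const)) _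
      (by positivity)
  filter_upwards [h1 η hη0 x₀ hx₀ a₀ hPa, h2 η hη0 x₀ hx₀ b₀ hPb, t1, t2, self_mem_nhdsWithin]
    with x ⟨a', ha', ha''⟩ ⟨b', hb', hb''⟩ u1 u2 hx
  rw [dist_eq_norm] at u1 u2 ⊢
  have e1 : P x v - a₀ = P x (v - a' - b') + (a' - a₀) := by
    rw [map_sub, map_sub, ha', hb']; abel
  have n1 : ‖A x (v - a' - b')‖ ≤ ε / (8 * c) + η * Q := by
    have : A x (v - a' - b') = (A x v - A x₀ v) - (A x a' - A x₀ a₀) - (A x b' - A x₀ b₀) := by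
      have h3 : A x₀ v = A x₀ a₀ + A x₀ b₀ := by rw [hb₀, map_sub]; abel
      rw [map_sub, map_sub, h3]; abel
    rw [this]
    calc ‖(A x v - A x₀ v) - (A x a' - A x₀ a₀) - (A x b' - A x₀ b₀)‖
        ≤ ‖A x v - A x₀ v‖ + ‖A x a' - A x₀ a₀‖ + ‖A x b' - A x₀ b₀‖ :=
          (norm_sub_le _ _).trans (add_le_add_left (norm_sub_le _ _) _)
      _ ≤ ε / (8 * c) + η * ‖A x₀ a₀‖ + η * ‖A x₀ b₀‖ := by gcongr
      _ ≤ ε / (8 * c) + η * Q := by rw [hQ]; nlinarith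
  have n2 : ‖A x (a' - a₀)‖ ≤ ε / (8 * c) + η * Q := by
    have : A x (a' - a₀) = (A x a' - A x₀ a₀) - (A x a₀ - A x₀ a₀) := by
      rw [map_sub]; abel
    rw [this]
    calc ‖(A x a' - A x₀ a₀) - (A x a₀ - A x₀ a₀)‖
        ≤ ‖A x a' - A x₀ a₀‖ + ‖A x a₀ - A x₀ a₀‖ := norm_sub_le _ _
      _ ≤ η * ‖A x₀ a₀‖ + ε / (8 * c) := by gcongr
      _ ≤ ε / (8 * c) + η * Q := by
        rw [hQ]; nlinarith [norm_nonneg (A x₀ b₀), norm_nonneg (A x₀ a₀)]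
  have hηQ : η * Q = ε / (8 * c) := by rw [hη]; field_simp
  rw [hηQ] at n1 n2
  have m1 : ‖P x (v - a' - b')‖ ≤ m * (K * (ε / (8 * c) + ε / (8 * c))) :=
    (hm x hx _).trans (mul_le_mul_of_nonneg_left ((hK x hx _).trans
      (mul_le_mul_of_nonneg_left n1 hK0)) hm0)
  have m2 : ‖a' - a₀‖ ≤ m * (ε / (8 * c) + ε / (8 * c)) :=
    (hm x hx _).trans (mul_le_mul_of_nonneg_left n2 hm0)
  have hlt : m * (K + 1) * (ε / (8 * c) + ε / (8 * c)) < ε := by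
    have h5 : c * (ε / (8 * c) + ε / (8 * c)) = ε / 4 := by field_simp; ring
    have h6 : m * (K + 1) * (ε / (8 * c) + ε / (8 * c)) ≤ c * (ε / (8 * c) + ε / (8 * c)) := by
      apply mul_le_mul_of_nonneg_right _ (by positivity)
      rw [hc]; linarith
    linarith
  calc ‖P x v - P x₀ v‖ = ‖P x (v - a' - b') + (a' - a₀)‖ := by rw [← e1]
    _ ≤ ‖P x (v - a' - b')‖ + ‖a' - a₀‖ := norm_add_le _ _
    _ ≤ m * (K * (ε / (8 * c) + ε / (8 * c))) + m * (ε / (8 * c) + ε / (8 * c)) :=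
        add_le_add m1 m2
    _ = m * (K + 1) * (ε / (8 * c) + ε / (8 * c)) := by ring
    _ < ε := hlt

/-- The projection onto `S` along `U`. -/
theorem exists_proj {S U : Submodule ℝ E} (h : IsCompl S U) : ∃ π : E →L[ℝ] E,
    (∀ v ∈ S, π v = v) ∧ (∀ v ∈ U, π v = 0) ∧ (∀ v, π v ∈ S) ∧ ∀ v, v - π v ∈ U := by
  set q : E →ₗ[ℝ] E := S.subtype ∘ₗ (S.projectionOnto U h) with hq
  refine ⟨LinearMap.toContinuousLinearMap q, fun v hv => ?_, fun v hv => ?_, fun v => ?_,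
    fun v => ?_⟩
  · show (S.projectionOnto U h v : E) = v
    have := Submodule.projectionOnto_apply_left h ⟨v, hv⟩
    exact congrArg Subtype.val this
  · show (S.projectionOnto U h v : E) = 0
    rw [(Submodule.projectionOnto_apply_eq_zero_iff h).mpr hv]; rfl
  · exact (S.projectionOnto U h v).2
  · show v - (S.projectionOnto U h v : E) ∈ U
    rw [← Submodule.projectionOnto_apply_eq_zero_iff h, map_sub]
    have := Submodule.projectionOnto_apply_left h (S.projectionOnto U h v)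
    rw [this, sub_self]

end abs

section man

variable {E : Type*} [NormedAddCommGroup E] [NormedSpace ℝ E] [FiniteDimensional ℝ E]
  {M : Type*} [MetricSpace M] [CompactSpace M] [ChartedSpace E M] [IsManifold 𝓘(ℝ, E) 1 M]
  {F : Type*} [NormedAddCommGroup F] [NormedSpace ℝ F]

/-- the map `G` in the charts at `j` and `j'` -/
noncomputable def rep (G : M → M) (j j' : M) (y : E) : E :=
  extChartAt 𝓘(ℝ, E) j' (G ((extChartAt 𝓘(ℝ, E) j).symm y))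

theorem rep_contDiffAt {G : M → M} (hG : ContMDiff 𝓘(ℝ, E) 𝓘(ℝ, E) 1 G) {j j' : M} {y : E}
    (hy : y ∈ (extChartAt 𝓘(ℝ, E) j).target)
    (hy' : G ((extChartAt 𝓘(ℝ, E) j).symm y) ∈ (extChartAt 𝓘(ℝ, E) j').source) :
    ContDiffAt ℝ 1 (rep G j j') y := by
  rw [← contMDiffAt_iff_contDiffAt]
  have h1 : ContMDiffOn 𝓘(ℝ, E) 𝓘(ℝ, E) 1 (extChartAt 𝓘(ℝ, E) j).symm
      (extChartAt 𝓘(ℝ, E) j).target := contMDiffOn_extChartAt_symm j
  have h2 : ContMDiffAt 𝓘(ℝ, E) 𝓘(ℝ, E) 1 (extChartAt 𝓘(ℝ, E) j).symm y :=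
    h1.contMDiffAt ((isOpen_extChartAt_target j).mem_nhds hy)
  have h3 : ContMDiffAt 𝓘(ℝ, E) 𝓘(ℝ, E) 1 (fun y => G ((extChartAt 𝓘(ℝ, E) j).symm y)) y :=
    ContMDiffAt.comp y hG.contMDiffAt h2
  have h4 : ContMDiffAt 𝓘(ℝ, E) 𝓘(ℝ, E) 1 (extChartAt 𝓘(ℝ, E) j')
      (G ((extChartAt 𝓘(ℝ, E) j).symm y)) :=
    contMDiffAt_extChartAt' (by rwa [extChartAt_source] at hy')
  exact ContMDiffAt.comp y h4 h3

theorem rep_fderiv {G : M → M} (hG : ContMDiff 𝓘(ℝ, E) 𝓘(ℝ, E) 1 G) {j j' x : M}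
    (hx : x ∈ (extChartAt 𝓘(ℝ, E) j).source)
    (hx' : G x ∈ (extChartAt 𝓘(ℝ, E) j').source) (v : E) :
    fderiv ℝ (rep G j j') (extChartAt 𝓘(ℝ, E) j x) (dm E (extChartAt 𝓘(ℝ, E) j) x v) =
      dm E (extChartAt 𝓘(ℝ, E) j') (G x) (dg E G x v) := by
  have hy : extChartAt 𝓘(ℝ, E) j x ∈ (extChartAt 𝓘(ℝ, E) j).target :=
    (extChartAt 𝓘(ℝ, E) j).map_source hx
  have hinv : (extChartAt 𝓘(ℝ, E) j).symm (extChartAt 𝓘(ℝ, E) j x) = x :=
    (extChartAt 𝓘(ℝ, E) j).left_inv hx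
  have h0 : (fun z => extChartAt 𝓘(ℝ, E) j' (G z)) =ᶠ[𝓝 x]
      (rep G j j') ∘ (extChartAt 𝓘(ℝ, E) j) := by
    filter_upwards [(isOpen_extChartAt_source (I := 𝓘(ℝ, E)) j).mem_nhds hx] with z hz
    show _ = extChartAt 𝓘(ℝ, E) j' (G ((extChartAt 𝓘(ℝ, E) j).symm (extChartAt 𝓘(ℝ, E) j z)))
    rw [(extChartAt 𝓘(ℝ, E) j).left_inv hz]
  have h1 : MDifferentiableAt 𝓘(ℝ, E) 𝓘(ℝ, E) (extChartAt 𝓘(ℝ, E) j) x :=
    mdifferentiableAt_extChartAt (by rwa [extChartAt_source] at hx)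
  have h1' : MDifferentiableAt 𝓘(ℝ, E) 𝓘(ℝ, E) (extChartAt 𝓘(ℝ, E) j') (G x) :=
    mdifferentiableAt_extChartAt (by rwa [extChartAt_source] at hx')
  have h2 : MDifferentiableAt 𝓘(ℝ, E) 𝓘(ℝ, E) (rep G j j') (extChartAt 𝓘(ℝ, E) j x) :=
    ((contMDiffAt_iff_contDiffAt.mpr (rep_contDiffAt hG hy (by rwa [hinv])))).mdifferentiableAt
      (by norm_num)
  have h3 : MDifferentiableAt 𝓘(ℝ, E) 𝓘(ℝ, E) G x := (hG x).mdifferentiableAt (by norm_num)
  have e1 := h0.mfderiv_eq (I := 𝓘(ℝ, E)) (I' := 𝓘(ℝ, E))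
  rw [mfderiv_comp x h2 h1, mfderiv_eq_fderiv] at e1
  have e2 : mfderiv 𝓘(ℝ, E) 𝓘(ℝ, E) (fun z => extChartAt 𝓘(ℝ, E) j' (G z)) x =
      (mfderiv 𝓘(ℝ, E) 𝓘(ℝ, E) (extChartAt 𝓘(ℝ, E) j') (G x)).comp
        (mfderiv 𝓘(ℝ, E) 𝓘(ℝ, E) G x) := mfderiv_comp x h1' h3
  rw [e2] at e1
  have e3 := congrArg (fun L : E →L[ℝ] E => L v) e1
  exact e3.symm

end man

section inv

variable {E : Type*} [NormedAddCommGroup E] [NormedSpace ℝ E] [FiniteDimensional ℝ E]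

theorem inv_left {L : E →L[ℝ] E} (hL : Function.Injective L) (v : E) : L.inverse (L v) = v := by
  set q := ContinuousLinearEquiv.ofBijective L (LinearMap.ker_eq_bot.mpr hL) (by
    rw [LinearMap.range_eq_top]
    exact LinearMap.injective_iff_surjective.mp hL) with hq
  have h1 : (q : E →L[ℝ] E) = L := by ext v; rfl
  rw [← h1, ContinuousLinearMap.inverse_equiv]
  exact q.symm_apply_apply v

theorem inv_right {L : E →L[ℝ] E} (hL : Function.Injective L) (v : E) : L (L.inverse v) = v := by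
  have hs : Function.Surjective (L : E →ₗ[ℝ] E) := LinearMap.injective_iff_surjective.mp hL
  obtain ⟨w, hw⟩ := hs v
  have hw' : L w = v := hw
  rw [← hw', inv_left hL]

end inv

section man2

variable {E : Type*} [NormedAddCommGroup E] [NormedSpace ℝ E] [FiniteDimensional ℝ E]
  {M : Type*} [MetricSpace M] [CompactSpace M] [ChartedSpace E M] [IsManifold 𝓘(ℝ, E) 1 M]
  {F : Type*} [NormedAddCommGroup F] [NormedSpace ℝ F]
  {e : M → F} (he : ContMDiff 𝓘(ℝ, E) 𝓘(ℝ, F) 1 e) (hinj : ∀ x, Function.Injective (dm E e x))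

include he hinj

theorem Dc_inj {j x : M} (hx : x ∈ (extChartAt 𝓘(ℝ, E) j).source) :
    Function.Injective (dm E (extChartAt 𝓘(ℝ, E) j) x) := by
  intro v w hvw
  apply hinj x
  rw [hatMap_mfderiv e he j x hx, hatMap_mfderiv e he j x hx, hvw]

theorem A_inj {j : M} {y : E} (hy : y ∈ (extChartAt 𝓘(ℝ, E) j).target) :
    Function.Injective (fderiv ℝ (hatMap e j) y) := by
  have hx := (extChartAt 𝓘(ℝ, E) j).map_target hy
  have hyx : extChartAt 𝓘(ℝ, E) j ((extChartAt 𝓘(ℝ, E) j).symm y) = y :=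
    (extChartAt 𝓘(ℝ, E) j).right_inv hy
  have hD := Dc_inj he hinj hx
  intro v w hvw
  have h1 := hatMap_mfderiv e he j _ hx
  rw [hyx] at h1
  rw [← inv_right hD v, ← inv_right hD w] at hvw ⊢
  rw [← h1, ← h1] at hvw
  rw [hinj _ hvw]

omit [FiniteDimensional ℝ E] [CompactSpace M] in
omit hinj in
theorem A_cont {j : M} {s : Set E} (hs : s ⊆ (extChartAt 𝓘(ℝ, E) j).target) :
    ContinuousOn (fun y => fderiv ℝ (hatMap e j) y) s := by
  intro y hy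
  have hc := hatMap_contDiffAt e he j y (hs hy)
  have h : ContinuousAt (fderiv ℝ (hatMap e j)) y :=
    (hc.fderiv_right (m := 0) (by norm_num)).continuousAt
  exact h.continuousWithinAt

theorem A_low {j : M} {s : Set E} (hs : s ⊆ (extChartAt 𝓘(ℝ, E) j).target) (hc : IsCompact s) :
    ∃ m : ℝ, 0 ≤ m ∧ ∀ y ∈ s, ∀ w, ‖w‖ ≤ m * ‖fderiv ℝ (hatMap e j) y w‖ := by
  rcases (s ×ˢ sphere (0 : E) 1).eq_empty_or_nonempty with h0 | hne
  · refine ⟨0, le_rfl, fun y hy w => ?_⟩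
    rcases eq_or_ne w 0 with rfl | hw
    · simp
    · exfalso
      have : (y, ‖w‖⁻¹ • w) ∈ s ×ˢ sphere (0 : E) 1 := by
        refine ⟨hy, ?_⟩
        rw [mem_sphere_zero_iff_norm, norm_smul, norm_inv, norm_norm,
          inv_mul_cancel₀ (norm_ne_zero_iff.mpr hw)]
      rw [h0] at this
      exact this
  · have hcont : ContinuousOn (fun p : E × E => ‖fderiv ℝ (hatMap e j) p.1 p.2‖)
        (s ×ˢ sphere (0 : E) 1) := by
      apply ContinuousOn.norm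
      apply ContinuousOn.clm_apply
      · exact (A_cont he hs).comp continuousOn_fst fun p hp => hp.1
      · exact continuousOn_snd
    obtain ⟨p, hp, hmin⟩ := (hc.prod (isCompact_sphere (0 : E) 1)).exists_isMinOn hne hcont
    set μ := ‖fderiv ℝ (hatMap e j) p.1 p.2‖ with hμ
    have hμ0 : 0 < μ := by
      rw [hμ, norm_pos_iff]
      intro h
      have h1 : p.2 = 0 := A_inj he hinj (hs hp.1) (by rw [h, map_zero])
      have h2 := hp.2
      rw [h1, mem_sphere_zero_iff_norm, norm_zero] at h2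
      exact zero_ne_one h2
    refine ⟨μ⁻¹, by positivity, fun y hy w => ?_⟩
    rcases eq_or_ne w 0 with rfl | hw
    · simp
    · have hw' : 0 < ‖w‖ := norm_pos_iff.mpr hw
      have h1 : (y, ‖w‖⁻¹ • w) ∈ s ×ˢ sphere (0 : E) 1 := by
        refine ⟨hy, ?_⟩
        rw [mem_sphere_zero_iff_norm, norm_smul, norm_inv, norm_norm, inv_mul_cancel₀ hw'.ne']
      have h2 : μ ≤ ‖fderiv ℝ (hatMap e j) y (‖w‖⁻¹ • w)‖ := hmin h1
      rw [map_smul, norm_smul, norm_inv, norm_norm] at h2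
      rw [le_inv_mul_iff₀ hμ0]
      rw [le_inv_mul_iff₀ hw'] at h2
      linarith

/-- the projection field in the chart at `j` -/
noncomputable def Pj (π : M → E →L[ℝ] E) (j : M) (y : E) : E →L[ℝ] E :=
  (dm E (extChartAt 𝓘(ℝ, E) j) ((extChartAt 𝓘(ℝ, E) j).symm y)).comp
    ((π ((extChartAt 𝓘(ℝ, E) j).symm y)).comp
      (dm E (extChartAt 𝓘(ℝ, E) j) ((extChartAt 𝓘(ℝ, E) j).symm y)).inverse)

omit he hinj in
/-- The field of projections of an Anosov system. -/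
structure IsPi (π : M → E →L[ℝ] E) (Es Eu : M → Submodule ℝ E) : Prop where
  s : ∀ x, ∀ v ∈ Es x, π x v = v
  u : ∀ x, ∀ v ∈ Eu x, π x v = 0
  ms : ∀ x v, π x v ∈ Es x
  mu : ∀ x v, v - π x v ∈ Eu x

end man2

end Pool.Agent.H244.Loc
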