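import Pool.Agent.H244.Semi
import Pool.Graph.R_pool_sql_team_seeded_b0a926ef.Results.MP_610fe3_an.PeriodicFibres

set_option autoImplicit false
set_option linter.unusedSectionVars false

open Set Filter Topology Metric
open scoped Manifold ContDiff

namespace Pool.Agent.H244.Main

open Pool.Agent.H721R2 Pool.Agent.H789R2.AN Pool.Agent.TH289 Pool.Agent.H244.Dyn
  Pool.Agent.H244.Loc

section rank

variable {E : Type*} [NormedAddCommGroup E] [NormedSpace ℝ E] [FiniteDimensional ℝ E]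
  {M : Type*} [MetricSpace M] [CompactSpace M] [ChartedSpace E M] [IsManifold 𝓘(ℝ, E) 1 M]
  {F : Type*} [NormedAddCommGroup F] [InnerProductSpace ℝ F] [FiniteDimensional ℝ F]
  {e : M → F} (he : ContMDiff 𝓘(ℝ, E) 𝓘(ℝ, F) 1 e) (hinj : ∀ x, Function.Injective (dm E e x))

include he hinj

theorem rank_le {f : M ≃ₜ M} {Es Eu : M → Submodule ℝ E} {C a b Ls Lu : ℝ}
    (h : EAnosov e f Es Eu C a b Ls Lu) : ∃ r > 0, ∀ x y, dist x y < r →
      Module.finrank ℝ (Es x) ≤ Module.finrank ℝ (Es y) := by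
  obtain ⟨r, hr, hc⟩ := h.contS he hinj (1 / 2) (by norm_num)
  refine ⟨r, hr, fun x y hxy => ?_⟩
  set W : Submodule ℝ F := (Es y).map (dm E e y).toLinearMap with hW
  set T : Es x →ₗ[ℝ] W :=
    (W.orthogonalProjectionOnto.toLinearMap ∘ₗ (dm E e x).toLinearMap) ∘ₗ (Es x).subtype with hT
  have hTinj : Function.Injective T := by
    rw [← LinearMap.ker_eq_bot, LinearMap.ker_eq_bot']
    rintro ⟨v, hv⟩ h0
    have h1 : W.orthogonalProjectionOnto (dm E e x v) = 0 := h0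
    rw [Submodule.orthogonalProjectionOnto_eq_zero_iff] at h1
    obtain ⟨s', hs', hle⟩ := hc x y hxy v hv
    have h2 : dm E e y s' ∈ W := ⟨s', hs', rfl⟩
    have h3 : inner ℝ (dm E e x v) (dm E e y s') = 0 := by
      rw [real_inner_comm]
      exact (Submodule.mem_orthogonal W _).mp h1 _ h2
    have h4 : ‖dm E e x v‖ ^ 2 ≤ ‖dm E e x v - dm E e y s'‖ ^ 2 := by
      rw [norm_sub_sq_real, h3]
      nlinarith [sq_nonneg ‖dm E e y s'‖]
    have h5 : ‖dm E e x v - dm E e y s'‖ ^ 2 ≤ (1 / 2 * ‖dm E e x v‖) ^ 2 := by gcongr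
    have h6 : ‖dm E e x v‖ = 0 := by nlinarith [norm_nonneg (dm E e x v)]
    have h7 : v = 0 := hinj x ((norm_eq_zero.mp h6).trans (map_zero _).symm)
    exact Subtype.ext h7
  calc Module.finrank ℝ (Es x) ≤ Module.finrank ℝ W := LinearMap.finrank_le_finrank_of_injective hTinj
    _ ≤ Module.finrank ℝ (Es y) := Submodule.finrank_map_le _ _

theorem rank_const [ConnectedSpace M] {f : M ≃ₜ M} {Es Eu : M → Submodule ℝ E} {C a b Ls Lu : ℝ}
    (h : EAnosov e f Es Eu C a b Ls Lu) : ∃ s, ∀ x, Module.finrank ℝ (Es x) = s := by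
  obtain ⟨r, hr, hc⟩ := rank_le he hinj h
  have hloc : IsLocallyConstant fun x => Module.finrank ℝ (Es x) := by
    rw [IsLocallyConstant.iff_eventually_eq]
    intro x
    filter_upwards [ball_mem_nhds x hr] with y hy
    exact le_antisymm (hc y x hy) (hc x y (mem_ball'.mp hy))
  obtain ⟨x₀⟩ : Nonempty M := inferInstance
  exact ⟨Module.finrank ℝ (Es x₀), fun x => hloc.apply_eq_of_preconnectedSpace x x₀⟩

end rank

section main

variable {E : Type*} [NormedAddCommGroup E] [NormedSpace ℝ E] [FiniteDimensional ℝ E]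
  {M : Type*} [MetricSpace M] [CompactSpace M] [ChartedSpace E M] [IsManifold 𝓘(ℝ, E) 1 M]
  {F : Type*} [NormedAddCommGroup F] [NormedSpace ℝ F]
  {e : M → F} (he : ContMDiff 𝓘(ℝ, E) 𝓘(ℝ, F) 1 e) (hinj : ∀ x, Function.Injective (dm E e x))

include he hinj

/-- The semiconjugacy is bijective on the fixed points of all iterates. -/
theorem semi_bij {g : M ≃ₜ M} {Es' Eu' : M → Submodule ℝ E} {C' a' b' Ls' Lu' : ℝ}
    (hg : EAnosov e g Es' Eu' C' a' b' Ls' Lu') {κ : ℝ} (hTA : TA g κ) {η₀ : ℝ} (hη₀ : 0 < η₀) :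
    ∃ ε > 0, ∀ (f : M ≃ₜ M) (Es Eu : M → Submodule ℝ E) (C a b Ls Lu : ℝ),
      EAnosov e f Es Eu C a b Ls Lu → (∀ x, dist (f x) (g x) < ε) →
      ∃ k : M → M, Continuous k ∧ (∀ x, dist (k x) x ≤ η₀) ∧ (∀ x, k (f x) = g (k x)) ∧
        ∀ n : ℕ, 1 ≤ n → BijOn k {x | f^[n] x = x} {x | g^[n] x = x} := by
  have hκ := hTA.pos
  obtain ⟨ε₁, hε₁, ρ, hρ, -, hρκ, h1⟩ := closed_unique he hinj hg hTA one_pos
  set η := min η₀ (min (ρ / 2) (κ / 2)) with hη
  have hη0 : 0 < η := lt_min hη₀ (lt_min (half_pos hρ) (half_pos hκ))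
  have hηρ : η < ρ := ((min_le_right _ _).trans (min_le_left _ _)).trans_lt (half_lt_self hρ)
  have hηκ : η ≤ κ / 2 := (min_le_right _ _).trans (min_le_right _ _)
  obtain ⟨ε₂, hε₂, h2⟩ := exists_semi hTA hη0 hηκ
  refine ⟨min ε₁ ε₂, lt_min hε₁ hε₂, fun f Es Eu C a b Ls Lu hf hfg => ?_⟩
  obtain ⟨k, hk, hkd, hkf⟩ := h2 f (fun x => (hfg x).trans_le (min_le_right _ _))
  have h1' := h1 f Es Eu C a b Ls Lu hf (fun x => (hfg x).trans_le (min_le_left _ _))
  have hkn : ∀ (n : ℕ) (x : M), k (f^[n] x) = g^[n] (k x) := by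
    intro n
    induction n with
    | zero => intro x; rfl
    | succ n ih =>
      intro x
      rw [Function.iterate_succ_apply', Function.iterate_succ_apply', hkf, ih]
  refine ⟨k, hk, fun x => (hkd x).trans (min_le_left _ _), hkf, fun n hn => ?_⟩
  obtain ⟨m, rfl⟩ : ∃ m, n = m + 1 := ⟨n - 1, by omega⟩
  refine ⟨fun x hx => ?_, fun x hx y hy hxy => ?_, fun z hz => ?_⟩
  · show g^[m + 1] (k x) = k x
    rw [← hkn, show f^[m + 1] x = x from hx]
  · -- injectivity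
    have hzfix : g^[m + 1] (k x) = k x := by rw [← hkn, show f^[m + 1] x = x from hx]
    obtain ⟨p, -, -, hu⟩ := h1' (Fin (m + 1)) (finRotate (m + 1)) (fun i => g^[(i : ℕ)] (k x))
      (fun i => fin_orbit hzfix i)
    have ex := hu (fun i => f^[(i : ℕ)] x) (fun i => fin_orbit hx i) (fun i => by
      show dist (f^[(i : ℕ)] x) (g^[(i : ℕ)] (k x)) < ρ
      rw [← hkn, dist_comm]; exact (hkd _).trans_lt hηρ)
    have ey := hu (fun i => f^[(i : ℕ)] y) (fun i => fin_orbit hy i) (fun i => by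
      show dist (f^[(i : ℕ)] y) (g^[(i : ℕ)] (k x)) < ρ
      rw [hxy, ← hkn, dist_comm]; exact (hkd _).trans_lt hηρ)
    exact congrFun (ex.trans ey.symm) 0
  · -- surjectivity
    have hz' : g^[m + 1] z = z := hz
    obtain ⟨p, hp, hpd, -⟩ := h1' (Fin (m + 1)) (finRotate (m + 1)) (fun i => g^[(i : ℕ)] z)
      (fun i => fin_orbit hz' i)
    have hkp : (fun i => k (p i)) = fun i : Fin (m + 1) => g^[(i : ℕ)] z := by
      apply closed_exp hTA (σ := finRotate (m + 1))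
      · intro i; rw [hp, hkf]
      · exact fun i => fin_orbit hz' i
      · intro i
        have e1 := hpd i
        have e2 := hkd (p i)
        have e3 := dist_triangle (k (p i)) (p i) (g^[(i : ℕ)] z)
        linarith
    refine ⟨p 0, ?_, congrFun hkp 0⟩
    show f^[m + 1] (p 0) = p 0
    have hit : ∀ i : ℕ, (hi : i < m + 1) → p ⟨i, hi⟩ = f^[i] (p 0) := by
      intro i
      induction i with
      | zero => intro _; rfl
      | succ i ih =>
        intro hi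
        rw [Function.iterate_succ_apply', ← ih (by omega), ← hp]
        congr 1
        ext
        rw [coe_finRotate, if_neg]
        intro h
        have := congrArg Fin.val h
        simp at this
        omega
    rw [Function.iterate_succ_apply', ← hit m (by omega), ← hp]
    congr 1
    ext
    rw [coe_finRotate, if_pos]
    · rfl
    · ext; simp

end main

section final

variable {E : Type*} [NormedAddCommGroup E] [NormedSpace ℝ E] [FiniteDimensional ℝ E]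
  {M : Type*} [TopologicalSpace M] [T2Space M] [CompactSpace M] [ConnectedSpace M]
  [ChartedSpace E M] [IsManifold 𝓘(ℝ, E) ∞ M]

/-- a common period -/
theorem inj_per {k : M → M} {f g : M → M}
    (h : ∀ n : ℕ, 1 ≤ n → BijOn k {x | f^[n] x = x} {x | g^[n] x = x}) {p q : M}
    (hp : p ∈ Function.periodicPts f) (hq : q ∈ Function.periodicPts f) (hpq : k p = k q) :
    p = q := by
  obtain ⟨m, hm, hpm⟩ := hp
  obtain ⟨n, hn, hqn⟩ := hq
  have h1 : f^[m * n] p = p := (hpm.mul_const n : Function.IsPeriodicPt f (m * n) p)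
  have h2 : f^[m * n] q = q := (hqn.const_mul m : Function.IsPeriodicPt f (m * n) q)
  exact (h (m * n) (Nat.mul_pos hm hn)).injOn h1 h2 hpq

theorem chainTo_map {f g : M → M} {k : M → M} (hk : Continuous k) (hkf : ∀ x, k (f x) = g (k x))
    {x y : M} (h : Pool.Agent.Results.MP_610fe3_an.PeriodicFibres.ChainTo f x y) :
    Pool.Agent.Results.MP_610fe3_an.PeriodicFibres.ChainTo g (k x) (k y) := by
  intro 𝒰 hU
  have hV : (fun p : M × M => (k p.1, k p.2)) ⁻¹' 𝒰 ∈ 𝓝ˢ (diagonal M) := by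
    rw [mem_nhdsSet_iff_forall] at hU ⊢
    rintro ⟨a, b⟩ hab
    have : a = b := hab
    subst this
    have hc : ContinuousAt (fun p : M × M => (k p.1, k p.2)) (a, a) := by fun_prop
    exact hc (hU (k a, k a) rfl)
  have h1 := h _ hV
  clear h
  induction h1 with
  | refl => exact Relation.ReflTransGen.refl
  | tail _ hab ih =>
    refine ih.tail ?_
    have h2 : (k (f _), k _) ∈ 𝒰 := hab
    rwa [hkf] at h2

theorem main (g : Diffeomorph 𝓘(ℝ, E) 𝓘(ℝ, E) M M 1)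
    (Es' Eu' : ∀ x : M, Submodule ℝ (TangentSpace 𝓘(ℝ, E) x)) (hg : IsAnosov g Es' Eu')
    (𝒱 : Set (M × M)) (hV : 𝒱 ∈ 𝓝ˢ (diagonal M)) :
    ∃ 𝒰 ∈ 𝓝ˢ (diagonal M), ∀ (f : Diffeomorph 𝓘(ℝ, E) 𝓘(ℝ, E) M M 1)
      (Es Eu : ∀ x : M, Submodule ℝ (TangentSpace 𝓘(ℝ, E) x)), IsAnosov f Es Eu →
      (∀ x, (f x, g x) ∈ 𝒰) →
      ∃ h : C(M, M), (∀ x, (x, h x) ∈ 𝒱) ∧ (∀ x, h (f x) = g (h x)) ∧
        (∀ n : ℕ, 1 ≤ n → BijOn h {x | f^[n] x = x} {x | g^[n] x = x}) ∧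
        (TopTransitive f ↔ TopTransitive g) ∧ (TopTransitive g → IsHomeomorph h) := by
  obtain ⟨m, ee, hee, hemb, hinje⟩ :=
    exists_embedding_euclidean_of_compact (I := 𝓘(ℝ, E)) (M := M)
  let _ : MetricSpace M := hemb.isEmbedding.comapMetricSpace ee
  have hiso : ∀ x y : M, dist x y = ‖ee x - ee y‖ := fun x y => dist_eq_norm (ee x) (ee y)
  have he1 : ContMDiff 𝓘(ℝ, E) (𝓡 m) 1 ee := hee.of_le (by simp)
  obtain ⟨C', a', b', Ls', Lu', hEg⟩ := eanosov_of_isAnosov ee he1 hinje g Es' Eu' hg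
  obtain ⟨N, ⟨S, hSg, -, -, -⟩, hN⟩ :=
    ((exists_sys_ev hiso he1 hinje g Es' Eu' hg).and (eventually_ge_atTop 1)).exists
  obtain ⟨κ, hTA⟩ := exists_TA hN S hSg
  have hunif : ∀ 𝒲 : Set (M × M), 𝒲 ∈ 𝓝ˢ (diagonal M) → ∃ ε > 0, ∀ x y, dist x y < ε → (x, y) ∈ 𝒲 := by
    intro 𝒲 hW
    rw [nhdsSet_diagonal_eq_uniformity] at hW
    obtain ⟨ε, hε, h⟩ := Metric.mem_uniformity_dist.mp hW
    exact ⟨ε, hε, fun x y hxy => h hxy⟩
  obtain ⟨η, hη, hηV⟩ := hunif 𝒱 hV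
  obtain ⟨ε, hε, hmain⟩ := semi_bij he1 hinje hEg hTA (half_pos hη)
  refine ⟨{p | dist p.1 p.2 < ε}, ?_, fun f Es Eu hf hfg => ?_⟩
  · rw [nhdsSet_diagonal_eq_uniformity]
    exact Metric.dist_mem_uniformity hε
  obtain ⟨C, a, b, Ls, Lu, hEf⟩ := eanosov_of_isAnosov ee he1 hinje f Es Eu hf
  obtain ⟨k, hk, hkd, hkf, hbij⟩ := hmain f.toHomeomorph Es Eu C a b Ls Lu hEf hfg
  have hkf' : ∀ x, k (f x) = g (k x) := hkf
  have hbij' : ∀ n : ℕ, 1 ≤ n → BijOn k {x | f^[n] x = x} {x | g^[n] x = x} := hbij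
  -- from `g` to `f`
  have dir1 : TopTransitive g → IsHomeomorph k ∧ TopTransitive f := by
    intro ht
    obtain ⟨s, hs⟩ := rank_const he1 hinje hEf
    obtain ⟨u, hu⟩ := rank_const he1 hinje hEf.symm
    obtain ⟨s', hs'⟩ := rank_const he1 hinje hEg
    obtain ⟨u', hu'⟩ := rank_const he1 hinje hEg.symm
    have hsep : Separates f.toHomeomorph k univ := fun p _ q _ hp hq _ hpq =>
      inj_per hbij' hp hq hpq
    have hU : ∀ φ : M ≃ₜ M, UnstSat φ univ := fun φ =>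
      ⟨isClosed_univ, univ_nonempty, fun x => by simp, fun _ _ _ _ => mem_univ _⟩
    obtain ⟨-, h2, h3, -, -⟩ := man_main f Es Eu hf hs hu g Es' Eu' hg hs' hu' ht le_rfl k hk hkf'
      univ (hU _) hsep (Or.inr ⟨univ, hU _, hsep⟩)
    exact ⟨h2, h3⟩
  -- from `f` to `g`
  have dir2 : TopTransitive f → TopTransitive g := by
    intro ht
    have htriv : TopTransitive (Homeomorph.refl PUnit.{1}) := fun U V _ ⟨x, hx⟩ _ ⟨y, hy⟩ =>
      ⟨0, y, ⟨x, hx, Subsingleton.elim _ _⟩, hy⟩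
    have hexp : ∃ c > (0 : ℝ), ∀ y z : PUnit.{1}, (∀ n : ℤ, dist (((Homeomorph.refl PUnit.{1}) ^ n) y)
        (((Homeomorph.refl PUnit.{1}) ^ n) z) ≤ c) → y = z := ⟨1, one_pos, fun y z _ => Subsingleton.elim _ _⟩
    have key := fun (φ : Diffeomorph 𝓘(ℝ, E) 𝓘(ℝ, E) M M 1) (Fs Fu) (hφ : IsAnosov φ Fs Fu) =>
      (Pool.Agent.Results.MP_610fe3_an.PeriodicFibres.result E M φ Fs Fu hφ PUnit.{1}
        (Homeomorph.refl PUnit.{1}) htriv (ContinuousMap.const M PUnit.unit.{1})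
        (fun y => ⟨Classical.arbitrary M, Subsingleton.elim _ _⟩) (fun _ => rfl)).2 hexp
    rw [key g Es' Eu' hg]
    rw [key f Es Eu hf] at ht
    intro z hz z' hz' _
    obtain ⟨n, hn, hzn⟩ := hz
    obtain ⟨n', hn', hzn'⟩ := hz'
    obtain ⟨p, hp, rfl⟩ := (hbij' n hn).surjOn hzn
    obtain ⟨p', hp', rfl⟩ := (hbij' n' hn').surjOn hzn'
    exact chainTo_map hk hkf' (ht p ⟨n, hn, hp⟩ p' ⟨n', hn', hp'⟩ rfl)
  refine ⟨⟨k, hk⟩, fun x => ?_, hkf', hbij', ⟨dir2, fun ht => (dir1 ht).2⟩, fun ht => (dir1 ht).1⟩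
  apply hηV
  rw [dist_comm]
  exact (hkd x).trans_lt (half_lt_self hη)

end final

end Pool.Agent.H244.Main
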