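import Pool.Graph.R_seed8.H789R2.GP.LeafP
import Pool.Graph.R_seed8.H789R2.GP.Ulc
import Pool.Graph.R_seed8.W740.TU.Loc

/-!
# Complementary domains of attractors in stable leaves: local facts
-/

set_option autoImplicit false
set_option linter.unusedSectionVars false

open Filter Topology Set Metric unitInterval

namespace Pool.Agent.H244.Nh

open Pool.Agent.H789R2.AN Pool.Agent.H789R2.GP

variable {X : Type*} [MetricSpace X] [CompactSpace X] {g : X ≃ₜ X} {c : ℝ}

theorem SR.self (g : X ≃ₜ X) {ε : ℝ} (hε : 0 ≤ ε) (x : X) : SR g ε x x := fun k => by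
  rwa [dist_self]

theorem SR.tri {ε ε' : ℝ} {x y z : X} (h : SR g ε x y) (h' : SR g ε' y z) :
    SR g (ε + ε') x z := fun k =>
  (dist_triangle _ (g^[k] y) _).trans (add_le_add (h k) (h' k))

theorem sd {ε : ℝ} {x y : X} (h : SR g ε x y) : dist x y ≤ ε := h 0

theorem SR.iter {ε : ℝ} {x y : X} (h : SR g ε x y) (n : ℕ) : SR g ε (g^[n] x) (g^[n] y) := fun k => by
  rw [← Function.iterate_add_apply, ← Function.iterate_add_apply]; exact h _

theorem pow_tend (c : ℝ) {ε : ℝ} (hε : 0 < ε) : ∃ N : ℕ, ∀ n ≥ N, c * (1 / 2 : ℝ) ^ n < ε := by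
  have h5 : Tendsto (fun n : ℕ => c * (1 / 2 : ℝ) ^ n) atTop (𝓝 0) := by
    have := (tendsto_pow_atTop_nhds_zero_of_lt_one (by norm_num : (0:ℝ) ≤ 1 / 2)
      (by norm_num)).const_mul c
    simpa using this
  exact eventually_atTop.mp ((tendsto_order.mp h5).2 ε hε)

theorem SR.contr (h : LP g c) {x y : X} (hxy : SR g c x y) (n : ℕ) :
    SR g (c * (1 / 2) ^ n) (g^[n] x) (g^[n] y) := fun k => by
  rw [← Function.iterate_add_apply, ← Function.iterate_add_apply]
  refine (h.cS x y hxy (k + n)).trans ?_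
  have hc := h.c_pos
  have : ((1:ℝ) / 2) ^ (k + n) ≤ (1 / 2) ^ n :=
    pow_le_pow_of_le_one (by norm_num) (by norm_num) (by omega)
  exact mul_le_mul_of_nonneg_left this hc.le

/-- points of one plaque which are close are close in the plaque -/
theorem up (h : LP g c) : ∀ ε > 0, ∃ η > 0, ∀ x y : X, SR g c x y → dist x y < η → SR g ε x y := by
  intro ε hε
  obtain ⟨N, hN⟩ := pow_tend c hε
  obtain ⟨η, hη, h1⟩ := T1_unif g N hε
  refine ⟨η, hη, fun x y hxy hd k => ?_⟩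
  rcases le_total k N with hk | hk
  · exact (h1 k hk x y hd).le
  · exact (h.cS x y hxy k).trans (hN k hk).le

/-- The bracket. -/
structure BR (g : X ≃ₜ X) (c : ℝ) (br : X → X → X) (δ : ℝ) : Prop where
  pos : 0 < δ
  rel : ∀ x y, dist x y < δ → SR g (c / 3) x (br x y) ∧ SR g.symm (c / 3) y (br x y)
  small : ∀ ε > 0, ∃ η > 0, ∀ x y, dist x y < η → SR g ε x (br x y) ∧ SR g.symm ε y (br x y)
  uniq : ∀ x y z, dist x y < δ → SR g (c / 3) x z → SR g.symm (c / 3) y z → z = br x y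
  cont : ∀ ε > 0, ∃ η > 0, ∀ x x' y y', dist x y < δ → dist x' y' < δ →
    dist x x' < η → dist y y' < η → dist (br x y) (br x' y') < ε
  leaf : ∀ a, ContinuousOn (fun y => (⟨br a y⟩ : SM g)) (ball a δ)

theorem exists_BR (h : LP g c) : ∃ br δ, BR g c br δ := by
  obtain ⟨br, δ, hδ, h1, h2, h3, h4⟩ := exists_br h
  refine ⟨br, δ, hδ, h1, h2, h3, h4, fun a => ?_⟩
  have hc := h.c_pos
  intro y hy
  rw [Metric.continuousWithinAt_iff]
  intro ε hε
  obtain ⟨η, hη, h5⟩ := up h (ε / 2) (half_pos hε)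
  obtain ⟨η', hη', h6⟩ := h4 η hη
  refine ⟨η', hη', fun {y'} hy' hyy' => ?_⟩
  rw [mem_ball, dist_comm] at hy hy'
  refine lt_of_le_of_lt ((SM.dist_le _ _ (half_pos hε).le).mpr ?_) (half_lt_self hε)
  refine h5 _ _ ?_ (h6 a a y' y hy' hy (by rwa [dist_self]) hyy')
  exact ((SR.tri (h1 a y' hy').1.symm' (h1 a y hy).1).mono (by linarith))

/-! ### Complementary domains -/

/-- the complement of `A`, in the leaf topology -/
def Ou (g : X ≃ₜ X) (A : Set X) : Set (SM g) := {q | q.val ∉ A}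

/-- The component of the complement of `A` in the stable leaf of `z`. -/
def V (g : X ≃ₜ X) (A : Set X) (z : X) : Set X := {w | JoinedIn (Ou g A) ⟨z⟩ ⟨w⟩}

variable {A : Set X}

theorem V.self {z : X} (hz : z ∉ A) : z ∈ V g A z := JoinedIn.refl hz

theorem V.left {z w : X} (h : w ∈ V g A z) : z ∉ A := h.source_mem

theorem V.right {z w : X} (h : w ∈ V g A z) : w ∉ A := h.target_mem

theorem V.symm {z w : X} (h : w ∈ V g A z) : z ∈ V g A w := JoinedIn.symm h

theorem V.trans {z w v : X} (h : w ∈ V g A z) (h' : v ∈ V g A w) : v ∈ V g A z := JoinedIn.trans h h'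

theorem V.eq {z w : X} (h : w ∈ V g A z) : V g A w = V g A z := by
  ext v
  exact ⟨fun h' => V.trans h h', fun h' => V.trans (V.symm h) h'⟩

/-- the leaf homeomorphism -/
theorem V.map (hA : IsAtt g A) {z w : X} (h : w ∈ V g A z) : g w ∈ V g A (g z) := by
  have hc : Continuous (fun q : SM g => (⟨g q.val⟩ : SM g)) := SM.continuous_map (fun _ => rfl)
  have h1 := JoinedIn.map_continuousOn h (f := fun q : SM g => (⟨g q.val⟩ : SM g)) hc.continuousOn
  refine h1.mono ?_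
  rintro _ ⟨q, hq, rfl⟩
  show g q.val ∉ A
  rw [hA.inv]
  exact hq

theorem V.map_symm (hA : IsAtt g A) {z w : X} (h : w ∈ V g A z) : g.symm w ∈ V g A (g.symm z) := by
  have hc : Continuous (fun q : SM g => (⟨g.symm q.val⟩ : SM g)) :=
    SM.continuous_map (fun x => by rw [g.symm_apply_apply, g.apply_symm_apply])
  have h1 := JoinedIn.map_continuousOn h (f := fun q : SM g => (⟨g.symm q.val⟩ : SM g))
    hc.continuousOn
  refine h1.mono ?_
  rintro _ ⟨q, hq, rfl⟩
  show g.symm q.val ∉ A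
  rw [inv_symm hA.inv]
  exact hq

theorem V.iter (hA : IsAtt g A) {z w : X} (h : w ∈ V g A z) (n : ℕ) :
    g^[n] w ∈ V g A (g^[n] z) := by
  induction n with
  | zero => exact h
  | succ n ih =>
    rw [Function.iterate_succ_apply', Function.iterate_succ_apply']
    exact V.map hA ih

theorem V.iter_symm (hA : IsAtt g A) {z w : X} (h : w ∈ V g A z) (n : ℕ) :
    g.symm^[n] w ∈ V g A (g.symm^[n] z) := by
  induction n with
  | zero => exact h
  | succ n ih =>
    rw [Function.iterate_succ_apply', Function.iterate_succ_apply']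
    exact V.map_symm hA ih

/-- Small plaques far from `A` are contained in the domains. -/
theorem V.loc (h : LP g c) (hX : ULC X) : ∀ r > 0, ∃ δ > 0, ∀ A : Set X, ∀ z : X,
    (∀ a ∈ A, r ≤ dist z a) → ∀ w, SR g δ z w → w ∈ V g A z := by
  intro r hr
  obtain ⟨η, hη, h1⟩ := leaf_path h hX (r / 2) (half_pos hr)
  refine ⟨η, hη, fun A z hz w hw => ?_⟩
  obtain ⟨υ, h2, h3, h4⟩ := h1 ⟨z⟩ ⟨w⟩ ((SM.dist_le _ _ hη.le).mpr hw)
  refine ⟨⟨υ, h2, h3⟩, fun t => ?_⟩
  show (υ t).val ∉ A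
  intro ht
  have h5 := hz _ ht
  have h6 : dist z (υ t).val ≤ dist (⟨z⟩ : SM g) (υ t) := SM.dist_iter_le ⟨z⟩ (υ t) 0
  have h7 := h4 t
  linarith

theorem exists_far {A : Set X} (hA : IsClosed A) {z : X} (hz : z ∉ A) :
    ∃ r > 0, ∀ a ∈ A, r ≤ dist z a := by
  obtain ⟨r, hr, h⟩ := Metric.isOpen_iff.mp hA.isOpen_compl z hz
  refine ⟨r, hr, fun a ha => ?_⟩
  by_contra hlt
  push Not at hlt
  exact h (mem_ball'.mpr hlt) ha

/-- Transport of domains by the bracket. -/
theorem V.transport {br : X → X → X} {δ : ℝ} (h : LP g c) (hB : BR g c br δ) (hA : IsAtt g A)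
    {z' z w : X} (υ : Path (⟨z⟩ : SM g) ⟨w⟩) (hυ : ∀ t, υ t ∈ Ou g A)
    (hd : ∀ t, dist z' (υ t).val < δ) : br z' w ∈ V g A (br z' z) := by
  have hv : Continuous (fun t => (υ t).val) := (SM.continuous_iter_val 0).comp υ.continuous
  have h1 : Continuous (fun t => (⟨br z' (υ t).val⟩ : SM g)) :=
    (hB.leaf z').comp_continuous hv (fun t => mem_ball'.mpr (hd t))
  refine ⟨⟨⟨_, h1⟩, ?_, ?_⟩, fun t => ?_⟩
  · show (⟨br z' (υ 0).val⟩ : SM g) = _
    rw [υ.source]
  · show (⟨br z' (υ 1).val⟩ : SM g) = _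
    rw [υ.target]
  · show br z' (υ t).val ∉ A
    intro hin
    refine hυ t (hA.sat _ hin _ ?_)
    have h2 := (hB.rel z' _ (hd t)).2
    exact (WS.of_SR (h.cU _ _ (h2.mono (by linarith [h.c_pos])))).symm'

/-- The first point of the transport. -/
theorem V.start {br : X → X → X} {δ : ℝ} (h : LP g c) (hX : ULC X) (hB : BR g c br δ) :
    ∀ r > 0, ∃ ρ > 0, ∀ A : Set X, ∀ z z' : X, (∀ a ∈ A, r ≤ dist z a) → dist z z' < ρ →
      br z' z ∈ V g A z' ∧ br z z' ∈ V g A z := by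
  intro r hr
  obtain ⟨δ₁, hδ₁, h1⟩ := V.loc h hX (r / 2) (half_pos hr)
  obtain ⟨η, hη, h2⟩ := hB.small δ₁ hδ₁
  refine ⟨min η (r / 2), lt_min hη (half_pos hr), fun A z z' hz hzz' => ⟨?_, ?_⟩⟩
  · refine h1 A z' (fun a ha => ?_) _ (h2 z' z ?_).1
    · have h3 := hz a ha
      have h4 := dist_triangle z z' a
      have h5 := hzz'.trans_le (min_le_right _ _)
      linarith
    · rw [dist_comm]; exact hzz'.trans_le (min_le_left _ _)
  · refine h1 A z (fun a ha => ?_) _ (h2 z z' (hzz'.trans_le (min_le_left _ _))).1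
    have h3 := hz a ha
    linarith

/-- Domains depend lower semicontinuously on their points. -/
theorem V.lsc (h : LP g c) (hX : ULC X) (hA : IsAtt g A) {y w : X} (hw : w ∈ V g A y) {η : ℝ}
    (hη : 0 < η) : ∃ ρ > 0, ∀ z, dist y z < ρ → ∃ w' ∈ V g A z, dist w w' < η := by
  obtain ⟨br, δ, hB⟩ := exists_BR h
  have hδ := hB.pos
  have hc := h.c_pos
  obtain ⟨υ, hυ⟩ := id hw
  obtain ⟨n, hn⟩ := path_small h υ.toContinuousMap (η := min (δ / 2) (c / 3))
    (lt_min (half_pos hδ) (by linarith))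
  have hn' : ∀ t, SR g (min (δ / 2) (c / 3)) (g^[n] y) (g^[n] (υ t).val) := fun t => by
    have := hn n le_rfl t
    have h0 : (υ.toContinuousMap 0).val = y := by
      show (υ 0).val = y
      rw [υ.source]
    rw [h0] at this
    exact this
  have hnw : SR g (min (δ / 2) (c / 3)) (g^[n] y) (g^[n] w) := by
    have := hn' 1
    rwa [υ.target] at this
  -- the iterated path
  have hcm : Continuous (fun q : SM g => (⟨g^[n] q.val⟩ : SM g)) :=
    SM.continuous_mapIter (fun _ => rfl) n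
  let υ' : Path (⟨g^[n] y⟩ : SM g) ⟨g^[n] w⟩ :=
    ⟨⟨fun t => ⟨g^[n] (υ t).val⟩, hcm.comp υ.continuous⟩,
      by show (⟨g^[n] (υ 0).val⟩ : SM g) = _; rw [υ.source],
      by show (⟨g^[n] (υ 1).val⟩ : SM g) = _; rw [υ.target]⟩
  have hυ' : ∀ t, υ' t ∈ Ou g A := fun t => by
    show g^[n] (υ t).val ∉ A
    rw [inv_iter hA.inv]
    exact hυ t
  have hyA : g^[n] y ∉ A := by rw [inv_iter hA.inv]; exact V.left hw
  obtain ⟨r, hr, hfar⟩ := exists_far hA.closed hyA
  obtain ⟨ρ₁, hρ₁, h1⟩ := V.start h hX hB r hr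
  -- continuity of the inverse iterate
  obtain ⟨η₁, hη₁, h2⟩ := T1_unif g.symm n hη
  obtain ⟨η₂, hη₂, h3⟩ := hB.cont η₁ hη₁
  obtain ⟨ρ, hρ, h4⟩ := T1_unif g n (ε := min (min ρ₁ η₂) (δ / 2))
    (lt_min (lt_min hρ₁ hη₂) (half_pos hδ))
  refine ⟨ρ, hρ, fun z hz => ?_⟩
  have e1 := h4 n le_rfl y z hz
  have e2 : dist (g^[n] y) (g^[n] z) < ρ₁ := e1.trans_le ((min_le_left _ _).trans (min_le_left _ _))
  have e3 : dist (g^[n] y) (g^[n] z) < η₂ := e1.trans_le ((min_le_left _ _).trans (min_le_right _ _))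
  have e4 : dist (g^[n] y) (g^[n] z) < δ / 2 := e1.trans_le (min_le_right _ _)
  have e5 : ∀ t, dist (g^[n] z) (υ' t).val < δ := fun t => by
    have e6 : dist (g^[n] y) (g^[n] (υ t).val) ≤ δ / 2 := (hn' t 0).trans (min_le_left _ _)
    have e7 := dist_triangle_left (g^[n] z) (g^[n] (υ t).val) (g^[n] y)
    show dist (g^[n] z) (g^[n] (υ t).val) < δ
    linarith
  have h5 := V.transport h hB hA (z' := g^[n] z) υ' hυ' e5
  have h6 := (h1 A _ _ hfar e2).1
  have h7 := V.iter_symm hA (V.trans h6 h5) n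
  rw [iterL] at h7
  refine ⟨_, h7, ?_⟩
  have h8 : g^[n] w = br (g^[n] y) (g^[n] w) := by
    refine hB.uniq _ _ _ ?_ (hnw.mono (min_le_right _ _)) (SR.self _ (by linarith) _)
    have : dist (g^[n] y) (g^[n] w) ≤ _ := hnw 0
    have h9 := min_le_left (δ / 2) (c / 3)
    linarith
  have h9 : dist (g^[n] w) (br (g^[n] z) (g^[n] w)) < η₁ := by
    conv_lhs => arg 1; rw [h8]
    refine h3 _ _ _ _ ?_ ?_ e3 (by rwa [dist_self])
    · have : dist (g^[n] y) (g^[n] w) ≤ _ := hnw 0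
      have h9 := min_le_left (δ / 2) (c / 3)
      linarith
    · have := e5 1
      have h10 : (υ' 1).val = g^[n] w := by rw [υ'.target]
      rwa [h10] at this
  have h10 := h2 n le_rfl _ _ h9
  rwa [iterL] at h10

/-- The domains of the basin are infinite. -/
theorem V.infinite (h : LP g c) (hX : ULC X) (hA : IsAtt g A) {z : X} (hz : z ∉ A)
    (hzB : z ∈ Bas g A) : (V g A z).Infinite := by
  intro hfin
  obtain ⟨a, ha, hza⟩ := hzB
  obtain ⟨υ, hυ0, hυ1⟩ := leaf_conn h hX z a hza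
  set W : Set (SM g) := {q | q.val ∈ V g A z} with hW
  have hWfin : W.Finite := by
    have : W = (fun x : X => (⟨x⟩ : SM g)) '' V g A z := by
      ext q
      constructor
      · intro hq; exact ⟨q.val, hq, rfl⟩
      · rintro ⟨x, hx, rfl⟩; exact hx
    rw [this]
    exact hfin.image _
  have hWo : IsOpen W := by
    rw [Metric.isOpen_iff]
    intro q hq
    obtain ⟨r, hr, hfar⟩ := exists_far hA.closed (V.right hq)
    obtain ⟨δ, hδ, h1⟩ := V.loc h hX r hr
    refine ⟨δ, hδ, fun q' hq' => ?_⟩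
    have h2 : SR g δ q.val q'.val := (SM.dist_le q q' hδ.le).mp (mem_ball'.mp hq').le
    exact V.trans hq (h1 A q.val hfar _ h2)
  have hcl : IsClopen (υ ⁻¹' W) := ⟨hWfin.isClosed.preimage υ.continuous,
    hWo.preimage υ.continuous⟩
  have h1 : υ ⁻¹' W = univ := hcl.eq_univ ⟨0, by
    show (υ 0).val ∈ V g A z
    rw [hυ0]; exact V.self hz⟩
  have h2 : (1 : I) ∈ υ ⁻¹' W := by rw [h1]; trivial
  have h3 : (υ 1).val ∈ V g A z := h2
  rw [hυ1] at h3
  exact V.right h3 ha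

end Pool.Agent.H244.Nh
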