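import Pool.Agent.H244.Nh1

/-!
# Complementary domains of attractors in stable leaves: holonomy of small domains
-/

set_option autoImplicit false
set_option linter.unusedSectionVars false

open Filter Topology Set Metric unitInterval

namespace Pool.Agent.H244.Nh

open Pool.Agent.H789R2.AN Pool.Agent.H789R2.GP

variable {X : Type*} [MetricSpace X] [CompactSpace X] {g : X ≃ₜ X} {c : ℝ} {A : Set X}

theorem clop {T : Set I} (h0 : (0 : I) ∈ T) (hc : IsClosed T) (ho : IsOpen T) : (1 : I) ∈ T := by
  have : T = univ := IsClopen.eq_univ ⟨hc, ho⟩ ⟨0, h0⟩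
  rw [this]; trivial

theorem joined_pt {Y : Type*} [TopologicalSpace Y] {S : Set Y} {x y : Y} (υ : Path x y)
    (h : ∀ t, υ t ∈ S) (t : I) : JoinedIn S x (υ t) :=
  ⟨⟨⟨fun s => υ (s * t), by fun_prop⟩, by simp, by simp⟩, fun s => h _⟩

/-- The domain of `z` is contained in a small plaque. -/
def Sm (g : X ≃ₜ X) (A : Set X) (a : ℝ) (z : X) : Prop := ∀ w ∈ V g A z, SR g a z w

/-- Points of `V z` converging to a point outside `A` in a plaque. -/
theorem V.near (h : LP g c) (hX : ULC X) (hA : IsAtt g A) {z p : X} (hp : p ∉ A) :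
    ∃ η > 0, ∀ q, SR g c p q → dist p q < η → (p ∈ V g A z ↔ q ∈ V g A z) := by
  obtain ⟨r, hr, hfar⟩ := exists_far hA.closed hp
  obtain ⟨δ, hδ, h1⟩ := V.loc h hX r hr
  obtain ⟨η, hη, h2⟩ := up h δ hδ
  refine ⟨η, hη, fun q hq hd => ?_⟩
  have h3 := h1 A p hfar q (h2 p q hq hd)
  exact ⟨fun h4 => V.trans h4 h3, fun h4 => V.trans h4 (V.symm h3)⟩

/-- **Holonomy of small domains.** -/
theorem holonomy {br : X → X → X} {δ : ℝ} (h : LP g c) (hX : ULC X) (hB : BR g c br δ)
    (hA : IsAtt g A) : ∃ a > 0, a ≤ c / 6 ∧ ∀ z, z ∉ A → Sm g A a z →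
      ∃ ρ > 0, ∀ z', dist z z' < ρ →
        (∀ p ∈ V g A z, dist z' p < δ ∧ br z' p ∈ V g A z' ∧ dist z (br z' p) < δ ∧
          br z (br z' p) = p) ∧
        (∀ q ∈ V g A z', SR g (c / 6) z' q ∧ dist z q < δ ∧ br z q ∈ V g A z ∧
          br z' (br z q) = q) := by
  have hc := h.c_pos
  have hδ := hB.pos
  obtain ⟨η₂, hη₂, hup⟩ := up h (c / 6) (by linarith)
  set a : ℝ := min (c / 6) (min (δ / 4) (η₂ / 4)) with ha
  have ha0 : 0 < a := lt_min (by linarith) (lt_min (by linarith) (by linarith))
  have hac : a ≤ c / 6 := min_le_left _ _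
  have haδ : a ≤ δ / 4 := (min_le_right _ _).trans (min_le_left _ _)
  have haη : a ≤ η₂ / 4 := (min_le_right _ _).trans (min_le_right _ _)
  refine ⟨a, ha0, hac, fun z hz hsm => ?_⟩
  obtain ⟨r, hr, hfar⟩ := exists_far hA.closed hz
  obtain ⟨ρ₁, hρ₁, hst⟩ := V.start h hX hB r hr
  obtain ⟨ρ₂, hρ₂, hcont⟩ := hB.cont a ha0
  refine ⟨min (min ρ₁ ρ₂) a, lt_min (lt_min hρ₁ hρ₂) ha0, fun z' hzz' => ?_⟩
  have d1 : dist z z' < ρ₁ := hzz'.trans_le ((min_le_left _ _).trans (min_le_left _ _))
  have d2 : dist z z' < ρ₂ := hzz'.trans_le ((min_le_left _ _).trans (min_le_right _ _))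
  have d3 : dist z z' < a := hzz'.trans_le (min_le_right _ _)
  -- facts on the points of `V z`
  have f1 : ∀ p ∈ V g A z, dist z p ≤ a := fun p hp => sd (hsm p hp)
  have f2 : ∀ p ∈ V g A z, dist z' p ≤ 2 * a := fun p hp => by
    have := f1 p hp
    have := dist_triangle_left z' p z
    linarith
  have f2' : ∀ p ∈ V g A z, dist z' p < δ := fun p hp => by have := f2 p hp; linarith
  have f3 : ∀ p ∈ V g A z, p = br z p := fun p hp => by
    refine hB.uniq z p p ?_ ((hsm p hp).mono (by linarith)) (SR.self _ (by linarith) _)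
    have := f1 p hp
    linarith
  have f4 : ∀ p ∈ V g A z, dist p (br z' p) < a := fun p hp => by
    have e : dist (br z p) (br z' p) < a := by
      refine hcont z z' p p ?_ (f2' p hp) d2 (by rwa [dist_self])
      have := f1 p hp
      linarith
    rwa [← f3 p hp] at e
  have f5 : ∀ p ∈ V g A z, dist z (br z' p) ≤ 2 * a := fun p hp => by
    have h1 := f1 p hp
    have h2 := f4 p hp
    have := dist_triangle z p (br z' p)
    linarith
  have f6 : ∀ p ∈ V g A z, br z (br z' p) = p := fun p hp => by
    refine (hB.uniq z (br z' p) p ?_ ((hsm p hp).mono (by linarith)) ?_).symm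
    · have := f5 p hp; linarith
    · exact (hB.rel z' p (f2' p hp)).2.symm'
  have f7 : ∀ p ∈ V g A z, SR g (c / 6) z' (br z' p) := fun p hp => by
    refine hup _ _ ((hB.rel z' p (f2' p hp)).1.mono (by linarith)) ?_
    have h1 := f5 p hp
    have h2 := dist_triangle_left z' (br z' p) z
    linarith
  have f8 : ∀ p ∈ V g A z, br z' p ∈ V g A z' := fun p hp => by
    obtain ⟨υ, hυ⟩ := id hp
    have h1 := V.transport h hB hA (z' := z') υ hυ (fun t => f2' _ (joined_pt υ hυ t))
    exact V.trans (hst A z z' hfar d1).1 h1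
  refine ⟨fun p hp => ⟨f2' p hp, f8 p hp, ?_, f6 p hp⟩, fun q hq => ?_⟩
  · have := f5 p hp; linarith
  -- surjectivity
  have key : ∃ p ∈ V g A z, q = br z' p := by
    obtain ⟨υ, hυ⟩ := id hq
    have hv : Continuous (fun t => (υ t).val) := (SM.continuous_iter_val 0).comp υ.continuous
    have h1 : (1 : I) ∈ {t : I | ∃ p ∈ V g A z, (υ t).val = br z' p} := by
      refine clop ?_ ?_ ?_
      · -- the first point
        refine ⟨br z z', (hst A z z' hfar d1).2, ?_⟩
        rw [υ.source]
        have e1 := (hst A z z' hfar d1).2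
        refine hB.uniq z' _ z' (f2' _ e1) (SR.self _ (by linarith) _) ?_
        exact (hB.rel z z' (by linarith)).2.symm'
      · -- closed
        refine isClosed_of_closure_subset fun t ht => ?_
        rw [mem_closure_iff_seq_limit] at ht
        obtain ⟨s, hs, hst'⟩ := ht
        choose p hp hps using hs
        have hlim : Tendsto (fun n => (υ (s n)).val) atTop (𝓝 (υ t).val) :=
          (hv.tendsto t).comp hst'
        have e1 : dist z (υ t).val ≤ 2 * a := by
          refine le_of_tendsto' ((tendsto_const_nhds (x := z)).dist hlim) fun n => ?_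
          show dist z (υ (s n)).val ≤ 2 * a
          rw [hps]
          exact f5 _ (hp n)
        have e2 : ∀ n, p n = br z (υ (s n)).val := fun n => by rw [hps, f6 _ (hp n)]
        have hplim : Tendsto p atTop (𝓝 (br z (υ t).val)) := by
          rw [Metric.tendsto_atTop]
          intro ε hε
          obtain ⟨η, hη, hc1⟩ := hB.cont ε hε
          obtain ⟨N, hN⟩ := Metric.tendsto_atTop.mp hlim η hη
          refine ⟨N, fun n hn => ?_⟩
          rw [e2]
          refine hc1 z z _ _ ?_ (by linarith) (by rwa [dist_self]) (hN n hn)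
          rw [hps]
          have := f5 _ (hp n)
          linarith
        set p₀ := br z (υ t).val with hp₀
        have e3 := hB.rel z (υ t).val (by linarith)
        have e4 : p₀ ∉ A := by
          intro hin
          refine hυ t (hA.sat _ hin _ ?_)
          exact (WS.of_SR (h.cU _ _ (e3.2.mono (by linarith)))).symm'
        have e5 : SR g a z p₀ := by
          have hcl := Pool.Agent.W740.TU.isClosed_SR g a
          exact hcl.mem_of_tendsto ((tendsto_const_nhds (x := z)).prodMk_nhds hplim)
            (Eventually.of_forall fun n => hsm _ (hp n))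
        obtain ⟨η, hη, hnear⟩ := V.near (z := z) h hX hA e4
        obtain ⟨n, hn⟩ := (Metric.tendsto_atTop.mp hplim η hη)
        have e6 : p₀ ∈ V g A z := by
          rw [hnear (p n) ((SR.tri e5.symm' (hsm _ (hp n))).mono (by linarith))
            (by rw [dist_comm]; exact hn n le_rfl)]
          exact hp n
        refine ⟨p₀, e6, ?_⟩
        have h8 : Tendsto (fun n => br z' (p n)) atTop (𝓝 (br z' p₀)) := by
          rw [Metric.tendsto_atTop]
          intro ε hε
          obtain ⟨η, hη, hc1⟩ := hB.cont ε hε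
          obtain ⟨N, hN⟩ := Metric.tendsto_atTop.mp hplim η hη
          exact ⟨N, fun n hn => hc1 z' z' _ _ (f2' _ (hp n)) (f2' _ e6) (by rwa [dist_self])
            (hN n hn)⟩
        refine tendsto_nhds_unique hlim (h8.congr fun n => (hps n).symm)
      · -- open
        rw [isOpen_iff_mem_nhds]
        rintro t ⟨p₀, hp₀, hpt⟩
        obtain ⟨η, hη, hnear⟩ := V.near (z := z) h hX hA (V.right hp₀)
        obtain ⟨η', hη', hc1⟩ := hB.cont η hη
        have hnb : ∀ᶠ t' in 𝓝 t, dist (υ t') (υ t) < min a η' :=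
          Metric.tendsto_nhds.mp (υ.continuous.tendsto t) _ (lt_min ha0 hη')
        filter_upwards [hnb] with t' ht'
        have e1 : SR g a (υ t).val (υ t').val :=
          (SM.dist_le _ _ ha0.le).mp (by rw [dist_comm]; exact (ht'.trans_le (min_le_left _ _)).le)
        have e1' : dist (υ t').val (υ t).val < η' :=
          lt_of_le_of_lt (SM.dist_iter_le (υ t') (υ t) 0) (ht'.trans_le (min_le_right _ _))
        have e2 : dist z (υ t).val ≤ 2 * a := by rw [hpt]; exact f5 _ hp₀
        have e3 : dist z (υ t').val < δ := by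
          have h1 := sd e1
          have h2 := dist_triangle z (υ t).val (υ t').val
          linarith
        have e4 := hB.rel z _ e3
        have e5 : br z (υ t).val = p₀ := by rw [hpt]; exact f6 _ hp₀
        have e6 : dist p₀ (br z (υ t').val) < η := by
          rw [← e5]
          exact hc1 z z _ _ (by linarith) e3 (by rwa [dist_self]) (by rwa [dist_comm])
        have e7 : br z (υ t').val ∈ V g A z := by
          rw [← hnear _ ((SR.tri (hsm _ hp₀).symm' e4.1).mono (by linarith)) e6]
          exact hp₀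
        refine ⟨_, e7, ?_⟩
        refine hB.uniq z' _ _ (f2' _ e7) ?_ e4.2.symm'
        have e8 : SR g (c / 6) z' (υ t).val := by rw [hpt]; exact f7 _ hp₀
        exact (SR.tri e8 e1).mono (by linarith)
    obtain ⟨p, hp, hp1⟩ := h1
    refine ⟨p, hp, ?_⟩
    rw [υ.target] at hp1
    exact hp1
  obtain ⟨p, hp, rfl⟩ := key
  refine ⟨f7 p hp, ?_, ?_, ?_⟩
  · have := f5 p hp; linarith
  · rw [f6 p hp]; exact hp
  · rw [f6 p hp]

end Pool.Agent.H244.Nh
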