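import Pool.Agent.H244.Nh2

/-!
# Complementary domains of attractors in stable leaves: good transports
-/

set_option autoImplicit false
set_option linter.unusedSectionVars false

open Filter Topology Set Metric unitInterval

namespace Pool.Agent.H244.Nh

open Pool.Agent.H789R2.AN Pool.Agent.H789R2.GP

variable {X : Type*} [MetricSpace X] [CompactSpace X] {g : X ≃ₜ X} {c : ℝ} {A : Set X}

/-- A good transport from the domain of `z` to that of `z'`: a bijection along unstable leaves. -/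
def GT (g : X ≃ₜ X) (A : Set X) (z z' : X) : Prop :=
  ∃ τ : X → X, BijOn τ (V g A z) (V g A z') ∧
    (∃ C : ℝ, 0 ≤ C ∧ ∀ m : ℕ, ∀ p ∈ V g A z,
      dist (g.symm^[m] p) (g.symm^[m] (τ p)) ≤ C * (1 / 2) ^ m) ∧
    (∀ ε > 0, ∃ δ > 0, ∀ p ∈ V g A z, ∀ q ∈ V g A z, SR g δ p q → SR g ε (τ p) (τ q))

theorem GT.of_eq {z z' : X} (h : V g A z = V g A z') : GT g A z z' := by
  refine ⟨id, by rw [← h]; exact bijOn_id _, ⟨0, le_rfl, fun m p _ => ?_⟩, fun ε hε => ⟨ε, hε, ?_⟩⟩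
  · simp
  · intro p _ q _ h; exact h

theorem GT.trans {z z' z'' : X} (h : GT g A z z') (h' : GT g A z' z'') : GT g A z z'' := by
  obtain ⟨τ, h1, ⟨C, hC, h2⟩, h3⟩ := h
  obtain ⟨τ', h1', ⟨C', hC', h2'⟩, h3'⟩ := h'
  refine ⟨τ' ∘ τ, h1'.comp h1, ⟨C + C', by positivity, fun m p hp => ?_⟩, fun ε hε => ?_⟩
  · have e1 := h2 m p hp
    have e2 := h2' m (τ p) (h1.mapsTo hp)
    have e3 := dist_triangle (g.symm^[m] p) (g.symm^[m] (τ p)) (g.symm^[m] (τ' (τ p)))
    show dist (g.symm^[m] p) (g.symm^[m] (τ' (τ p))) ≤ _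
    rw [add_mul]
    linarith
  · obtain ⟨δ', hδ', h4⟩ := h3' ε hε
    obtain ⟨δ, hδ, h5⟩ := h3 δ' hδ'
    exact ⟨δ, hδ, fun p hp q hq hpq => h4 _ (h1.mapsTo hp) _ (h1.mapsTo hq) (h5 p hp q hq hpq)⟩

theorem V.image (hA : IsAtt g A) (z : X) : V g A (g z) = g '' V g A z := by
  ext w
  constructor
  · intro h
    have := V.map_symm hA h
    rw [g.symm_apply_apply] at this
    exact ⟨_, this, g.apply_symm_apply w⟩
  · rintro ⟨v, hv, rfl⟩
    exact V.map hA hv

/-- uniform continuity of the inverse in the leaves -/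
theorem SR.back (g : X ≃ₜ X) (m : ℕ) : ∀ ε > 0, ∃ δ > 0, ∀ x y, SR g δ x y →
    SR g ε (g.symm^[m] x) (g.symm^[m] y) := by
  intro ε hε
  obtain ⟨η, hη, h1⟩ := T1_unif g.symm m hε
  refine ⟨min (η / 2) ε, lt_min (half_pos hη) hε, fun x y hxy k => ?_⟩
  rcases le_total k m with hk | hk
  · rw [T1_iter_sub g hk, T1_iter_sub g hk]
    refine (h1 _ (by omega) x y ?_).le
    have := sd hxy
    have := min_le_left (η / 2) ε
    linarith
  · rw [T1_iter_add g hk, T1_iter_add g hk]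
    exact (hxy _).trans (min_le_right _ _)

theorem GT.map (hA : IsAtt g A) {z z' : X} (h : GT g A z z') : GT g A (g z) (g z') := by
  obtain ⟨τ, h1, ⟨C, hC, h2⟩, h3⟩ := h
  have hs : ∀ z, ∀ p ∈ V g A (g z), g.symm p ∈ V g A z := fun z p hp => by
    have := V.map_symm hA hp
    rwa [g.symm_apply_apply] at this
  refine ⟨fun x => g (τ (g.symm x)), ⟨fun p hp => ?_, fun p hp q hq hpq => ?_, fun q hq => ?_⟩,
    ⟨max (2 * C) (diam (univ : Set X)), le_max_of_le_left (by positivity), fun m p hp => ?_⟩,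
    fun ε hε => ?_⟩
  · exact V.map hA (h1.mapsTo (hs z p hp))
  · exact g.symm.injective (h1.injOn (hs z p hp) (hs z q hq) (g.injective hpq))
  · obtain ⟨p, hp, hpq⟩ := h1.surjOn (hs z' q hq)
    refine ⟨g p, V.map hA hp, ?_⟩
    show g (τ (g.symm (g p))) = q
    rw [g.symm_apply_apply, hpq, g.apply_symm_apply]
  · rcases m with _ | m
    · show dist p (g (τ (g.symm p))) ≤ _
      rw [pow_zero, mul_one]
      exact (dist_le_diam_of_mem isCompact_univ.isBounded (mem_univ _) (mem_univ _)).trans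
        (le_max_right _ _)
    · have e1 := h2 m _ (hs z p hp)
      rw [Function.iterate_succ_apply, Function.iterate_succ_apply, g.symm_apply_apply]
      refine e1.trans ?_
      have e2 : 2 * C ≤ max (2 * C) (diam (univ : Set X)) := le_max_left _ _
      have e3 : C * (1 / 2) ^ m = (2 * C) * (1 / 2) ^ (m + 1) := by ring
      rw [e3]
      exact mul_le_mul_of_nonneg_right e2 (by positivity)
  · obtain ⟨δ, hδ, h4⟩ := h3 ε hε
    obtain ⟨δ', hδ', h5⟩ := SR.back g 1 δ hδ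
    refine ⟨δ', hδ', fun p hp q hq hpq => ?_⟩
    have e1 := h4 _ (hs z p hp) _ (hs z q hq) (h5 p q hpq)
    exact SR.iter e1 1

theorem GT.map_symm (hA : IsAtt g A) {z z' : X} (h : GT g A (g z) (g z')) : GT g A z z' := by
  obtain ⟨τ, h1, ⟨C, hC, h2⟩, h3⟩ := h
  have hs : ∀ z, ∀ p ∈ V g A (g z), g.symm p ∈ V g A z := fun z p hp => by
    have := V.map_symm hA hp
    rwa [g.symm_apply_apply] at this
  refine ⟨fun x => g.symm (τ (g x)), ⟨fun p hp => ?_, fun p hp q hq hpq => ?_, fun q hq => ?_⟩,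
    ⟨C, hC, fun m p hp => ?_⟩,
    fun ε hε => ?_⟩
  · exact hs _ _ (h1.mapsTo (V.map hA hp))
  · exact g.injective (h1.injOn (V.map hA hp) (V.map hA hq) (g.symm.injective hpq))
  · obtain ⟨p, hp, hpq⟩ := h1.surjOn (V.map hA hq)
    refine ⟨g.symm p, hs z p hp, ?_⟩
    show g.symm (τ (g (g.symm p))) = q
    rw [g.apply_symm_apply, hpq, g.symm_apply_apply]
  · have e1 := h2 (m + 1) _ (V.map hA hp)
    rw [Function.iterate_succ_apply, Function.iterate_succ_apply, g.symm_apply_apply] at e1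
    refine e1.trans ?_
    rw [pow_succ]
    nlinarith [pow_pos (show (0:ℝ) < 1 / 2 by norm_num) m, mul_nonneg hC (pow_pos (show (0:ℝ) < 1 / 2 by norm_num) m).le]
  · obtain ⟨δ', hδ', h5⟩ := SR.back g 1 ε hε
    obtain ⟨δ, hδ, h4⟩ := h3 δ' hδ'
    refine ⟨δ, hδ, fun p hp q hq hpq => ?_⟩
    exact h5 _ _ (h4 _ (V.map hA hp) _ (V.map hA hq) (SR.iter hpq 1))

/-- Good transports in both directions. -/
def Rel (g : X ≃ₜ X) (A : Set X) (z z' : X) : Prop := GT g A z z' ∧ GT g A z' z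

theorem Rel.of_mem {z z' : X} (h : z' ∈ V g A z) : Rel g A z z' :=
  ⟨GT.of_eq (V.eq h).symm, GT.of_eq (V.eq h)⟩

theorem Rel.refl (z : X) : Rel g A z z := ⟨GT.of_eq rfl, GT.of_eq rfl⟩

theorem Rel.symm {z z' : X} (h : Rel g A z z') : Rel g A z' z := ⟨h.2, h.1⟩

theorem Rel.trans {z z' z'' : X} (h : Rel g A z z') (h' : Rel g A z' z'') : Rel g A z z'' :=
  ⟨h.1.trans h'.1, h'.2.trans h.2⟩

theorem Rel.map (hA : IsAtt g A) {z z' : X} (h : Rel g A z z') : Rel g A (g z) (g z') :=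
  ⟨h.1.map hA, h.2.map hA⟩

theorem Rel.map_symm (hA : IsAtt g A) {z z' : X} (h : Rel g A z z') :
    Rel g A (g.symm z) (g.symm z') := by
  constructor
  · apply GT.map_symm hA; rw [g.apply_symm_apply, g.apply_symm_apply]; exact h.1
  · apply GT.map_symm hA; rw [g.apply_symm_apply, g.apply_symm_apply]; exact h.2

theorem Rel.iter (hA : IsAtt g A) {z z' : X} (h : Rel g A z z') (n : ℕ) :
    Rel g A (g^[n] z) (g^[n] z') := by
  induction n with
  | zero => exact h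
  | succ n ih => rw [Function.iterate_succ_apply', Function.iterate_succ_apply']; exact ih.map hA

theorem Rel.iter_symm (hA : IsAtt g A) {z z' : X} (h : Rel g A z z') (n : ℕ) :
    Rel g A (g.symm^[n] z) (g.symm^[n] z') := by
  induction n with
  | zero => exact h
  | succ n ih =>
    rw [Function.iterate_succ_apply', Function.iterate_succ_apply']; exact ih.map_symm hA

/-- The domain of `z` is bounded. -/
def Bd (g : X ≃ₜ X) (A : Set X) (z : X) : Prop :=
  ∀ ε > 0, ∃ n : ℕ, ∀ m ≥ n, ∀ w ∈ V g A z, dist (g^[m] z) (g^[m] w) ≤ ε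

theorem Bd.of_small (h : LP g c) (hA : IsAtt g A) {z : X} {n : ℕ} (hs : Sm g A c (g^[n] z)) :
    Bd g A z := by
  intro ε hε
  obtain ⟨N, hN⟩ := pow_tend c hε
  refine ⟨N + n, fun m hm w hw => ?_⟩
  obtain ⟨k, rfl⟩ := Nat.exists_eq_add_of_le' (show n ≤ m by omega)
  rw [Function.iterate_add_apply, Function.iterate_add_apply]
  have h1 := h.cS _ _ (hs _ (V.iter hA hw n)) k
  exact h1.trans (hN k (by omega)).le

theorem Bd.small (hA : IsAtt g A) {z : X} (hs : Bd g A z) {a : ℝ} (ha : 0 < a) :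
    ∃ n, ∀ m ≥ n, Sm g A a (g^[m] z) := by
  obtain ⟨n, hn⟩ := hs a ha
  refine ⟨n, fun m hm w hw k => ?_⟩
  have h1 := V.iter_symm hA hw m
  rw [iterL] at h1
  have h2 := hn (k + m) (by omega) _ h1
  rwa [Function.iterate_add_apply, Function.iterate_add_apply, iterR] at h2

theorem Sm.congr {z z' : X} {a : ℝ} (h : Sm g A a z) (hz : z' ∈ V g A z) : Sm g A (2 * a) z' := by
  intro w hw
  rw [V.eq hz] at hw
  exact (SR.tri (h _ hz).symm' (h _ hw)).mono (by linarith)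

/-- Bounded domains are stable, and nearby ones are related by good transports. -/
theorem Bd.stable (h : LP g c) (hX : ULC X) (hA : IsAtt g A) {z : X} (hz : z ∉ A)
    (hb : Bd g A z) : ∃ ρ > 0, ∀ z', dist z z' < ρ → z' ∉ A ∧ Bd g A z' ∧ Rel g A z z' := by
  obtain ⟨br, δ, hB⟩ := exists_BR h
  obtain ⟨a, ha, hac, hhol⟩ := holonomy h hX hB hA
  have hc := h.c_pos
  obtain ⟨n, hn⟩ := hb.small hA ha
  have hzn : g^[n] z ∉ A := by rwa [inv_iter hA.inv]
  obtain ⟨ρ₁, hρ₁, h1⟩ := hhol _ hzn (hn n le_rfl)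
  obtain ⟨r, hr, hfar⟩ := exists_far hA.closed hz
  obtain ⟨ρ₂, hρ₂, h2⟩ := T1_unif g n hρ₁
  refine ⟨min r ρ₂, lt_min hr hρ₂, fun z' hz' => ?_⟩
  have hz'A : z' ∉ A := fun hin => by
    have := hfar _ hin
    have := hz'.trans_le (min_le_left _ _)
    linarith
  obtain ⟨h3, h4⟩ := h1 _ (h2 n le_rfl _ _ (hz'.trans_le (min_le_right _ _)))
  have hbd : Bd g A z' := Bd.of_small h hA (n := n) fun w hw => (h4 w hw).1.mono (by linarith)
  have hbr : ∀ p ∈ V g A (g^[n] z), SR g (c / 3) (g^[n] z') (br (g^[n] z') p) ∧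
      SR g.symm (c / 3) p (br (g^[n] z') p) := fun p hp => hB.rel _ _ (h3 p hp).1
  have hbr' : ∀ p ∈ V g A (g^[n] z'), SR g (c / 3) (g^[n] z) (br (g^[n] z) p) ∧
      SR g.symm (c / 3) p (br (g^[n] z) p) := fun p hp => hB.rel _ _ (h4 p hp).2.1
  have hGT : GT g A (g^[n] z) (g^[n] z') := by
    refine ⟨br (g^[n] z'), ⟨fun p hp => (h3 p hp).2.1, fun p hp q hq hpq => ?_, fun q hq => ?_⟩,
      ⟨c, hc.le, fun m p hp => ?_⟩, fun ε hε => ?_⟩
    · rw [← (h3 p hp).2.2.2, ← (h3 q hq).2.2.2, hpq]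
    · exact ⟨_, (h4 q hq).2.2.1, (h4 q hq).2.2.2⟩
    · exact h.cU _ _ ((hbr p hp).2.mono (by linarith)) m
    · obtain ⟨η, hη, h5⟩ := up h ε hε
      obtain ⟨η', hη', h6⟩ := hB.cont η hη
      refine ⟨η' / 2, half_pos hη', fun p hp q hq hpq => ?_⟩
      refine h5 _ _ ((SR.tri (hbr p hp).1.symm' (hbr q hq).1).mono (by linarith)) ?_
      refine h6 _ _ _ _ (h3 p hp).1 (h3 q hq).1 (by rwa [dist_self]) ?_
      have := sd hpq
      linarith
  have hGT' : GT g A (g^[n] z') (g^[n] z) := by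
    refine ⟨br (g^[n] z), ⟨fun p hp => (h4 p hp).2.2.1, fun p hp q hq hpq => ?_, fun q hq => ?_⟩,
      ⟨c, hc.le, fun m p hp => ?_⟩, fun ε hε => ?_⟩
    · rw [← (h4 p hp).2.2.2, ← (h4 q hq).2.2.2, hpq]
    · exact ⟨_, (h3 q hq).2.1, (h3 q hq).2.2.2⟩
    · exact h.cU _ _ ((hbr' p hp).2.mono (by linarith)) m
    · obtain ⟨η, hη, h5⟩ := up h ε hε
      obtain ⟨η', hη', h6⟩ := hB.cont η hη
      refine ⟨η' / 2, half_pos hη', fun p hp q hq hpq => ?_⟩
      refine h5 _ _ ((SR.tri (hbr' p hp).1.symm' (hbr' q hq).1).mono (by linarith)) ?_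
      refine h6 _ _ _ _ (h4 p hp).2.1 (h4 q hq).2.1 (by rwa [dist_self]) ?_
      have := sd hpq
      linarith
  have hR : Rel g A (g^[n] z) (g^[n] z') := ⟨hGT, hGT'⟩
  have := hR.iter_symm hA n
  rw [iterL, iterL] at this
  exact ⟨hz'A, hbd, this⟩

end Pool.Agent.H244.Nh
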