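import Pool.Agent.H244.Nh3

/-!
# Complementary domains of attractors in stable leaves: no periodic bounded domains
-/

set_option autoImplicit false
set_option linter.unusedSectionVars false

open Filter Topology Set Metric unitInterval

namespace Pool.Agent.H244.Nh

open Pool.Agent.H789R2.AN Pool.Agent.H789R2.GP

variable {X : Type*} [MetricSpace X] [CompactSpace X] {g : X ≃ₜ X} {c : ℝ} {A : Set X}

theorem iter_shift (g : X ≃ₜ X) {i j m n : ℕ} (h : i + m = n + j) (x : X) :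
    g^[j] (g.symm^[m] x) = g^[i] (g.symm^[n] x) := by
  rcases le_total m j with hj | hj
  · rw [T1_iter_add g hj, T1_iter_add g (by omega : n ≤ i)]
    congr 1
    omega
  · rw [T1_iter_sub g hj, T1_iter_sub g (by omega : i ≤ n)]
    congr 1
    omega

/-- A self-bijection of an infinite domain cannot contract all small plaques uniformly. -/
theorem no_contr (h : LP g c) {W : Set X} (hW : W.Infinite) (hsm : ∀ p ∈ W, ∀ q ∈ W, SR g c p q)
    {ψ : X → X} (hψ : BijOn ψ W W) {δ₀ : ℝ} (hδ₀ : 0 < δ₀)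
    (hc : ∀ p ∈ W, ∀ q ∈ W, SR g δ₀ p q → ∀ n : ℕ, dist (ψ^[n] p) (ψ^[n] q) ≤ c * (1 / 2) ^ n) :
    False := by
  obtain ⟨η, hη, hup⟩ := up h δ₀ hδ₀
  obtain ⟨t, -, htf, htc⟩ := finite_cover_balls_of_compact (isCompact_univ (X := X)) (half_pos hη)
  obtain ⟨s, hsW, hscard⟩ := hW.exists_subset_card_eq (htf.toFinset.card + 1)
  -- the least distance
  obtain ⟨μ, hμ, hμ'⟩ : ∃ μ > 0, ∀ v ∈ s, ∀ v' ∈ s, v ≠ v' → μ ≤ dist v v' := by
    classical
    rcases (s.offDiag).eq_empty_or_nonempty with he | hne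
    · refine ⟨1, one_pos, fun v hv v' hv' hvv' => ?_⟩
      have : (v, v') ∈ s.offDiag := Finset.mem_offDiag.mpr ⟨hv, hv', hvv'⟩
      rw [he] at this
      simp at this
    · obtain ⟨b, hb, hmin⟩ := s.offDiag.exists_min_image (fun b => dist b.1 b.2) hne
      refine ⟨dist b.1 b.2, dist_pos.mpr (Finset.mem_offDiag.mp hb).2.2, fun v hv v' hv' hvv' => ?_⟩
      exact hmin (v, v') (Finset.mem_offDiag.mpr ⟨hv, hv', hvv'⟩)
  obtain ⟨n, hn⟩ := pow_tend c hμ
  have hψn : BijOn ψ^[n] W W := hψ.iterate n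
  have hpre : ∀ v ∈ s, ∃ u ∈ W, ψ^[n] u = v := fun v hv => hψn.surjOn (hsW hv)
  choose! u huW huv using hpre
  have hcen : ∀ v ∈ s, ∃ x ∈ htf.toFinset, u v ∈ ball x (η / 2) := fun v _ => by
    have h1 := htc (mem_univ (u v))
    rw [mem_iUnion₂] at h1
    obtain ⟨x, hx, hux⟩ := h1
    exact ⟨x, htf.mem_toFinset.mpr hx, hux⟩
  choose! x hxt hux using hcen
  obtain ⟨v, hv, v', hv', hvv', he⟩ := Finset.exists_ne_map_eq_of_card_lt_of_maps_to
    (by rw [hscard]; exact Nat.lt_succ_self _) hxt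
  have e1 : dist (u v) (u v') < η := by
    have a1 := mem_ball.mp (hux v hv)
    have a2 := mem_ball.mp (hux v' hv')
    rw [← he] at a2
    have a3 := dist_triangle_right (u v) (u v') (x v)
    linarith
  have e2 := hc _ (huW v hv) _ (huW v' hv')
    (hup _ _ (hsm _ (huW v hv) _ (huW v' hv')) e1) n
  rw [huv v hv, huv v' hv'] at e2
  have e3 := hμ' v hv v' hv' hvv'
  have e4 := hn n le_rfl
  linarith

/-- **No bounded domain is transported to its own iterate.** -/
theorem no_per (h : LP g c) (hA : IsAtt g A) {z : X} (hsm : Sm g A (c / 2) z)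
    (hinf : (V g A z).Infinite) {k : ℕ} (hk : 1 ≤ k) (hG : GT g A z (g.symm^[k] z)) : False := by
  have hc := h.c_pos
  obtain ⟨τ, h1, ⟨C, hC, h2⟩, h3⟩ := hG
  set W := V g A z with hW
  set ψ : X → X := fun p => g^[k] (τ p) with hψ
  have hψb : BijOn ψ W W := by
    refine ⟨fun p hp => ?_, fun p hp q hq hpq => ?_, fun q hq => ?_⟩
    · have e := V.iter hA (h1.mapsTo hp) k
      rwa [iterR] at e
    · exact h1.injOn hp hq ((g.injective.iterate k) hpq)
    · have e := V.iter_symm hA (show q ∈ V g A z from hq) k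
      obtain ⟨p, hp, hpq⟩ := h1.surjOn e
      exact ⟨p, hp, by show g^[k] (τ p) = q; rw [hpq, iterR]⟩
  have hψm : ∀ n : ℕ, ∀ p ∈ W, ψ^[n] p ∈ W := fun n p hp => (hψb.mapsTo.iterate n) hp
  have hsmW : ∀ p ∈ W, ∀ q ∈ W, SR g c p q := fun p hp q hq =>
    (SR.tri (hsm p hp).symm' (hsm q hq)).mono (by linarith)
  -- the points `a n p`
  set a : ℕ → X → X := fun n p => g.symm^[n * k] (ψ^[n] p) with ha
  have ha1 : ∀ n p, a (n + 1) p = g.symm^[n * k] (τ (ψ^[n] p)) := by
    intro n p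
    show g.symm^[(n + 1) * k] (ψ^[n + 1] p) = _
    rw [Function.iterate_succ_apply', add_mul, one_mul, Function.iterate_add_apply]
    congr 1
    exact iterL g k _
  have ha2 : ∀ n p, g^[n * k] (a n p) = ψ^[n] p := fun n p => iterR g _ _
  -- displacements
  have hstep : ∀ n i : ℕ, i ≤ n * k → ∀ p ∈ W,
      dist (g^[i] (a n p)) (g^[i] (a (n + 1) p)) ≤ C * (1 / 2) ^ (n * k - i) := by
    intro n i hi p hp
    rw [ha1]
    show dist (g^[i] (g.symm^[n * k] (ψ^[n] p))) _ ≤ _
    rw [T1_iter_sub g hi, T1_iter_sub g hi]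
    exact h2 _ _ (hψm n p hp)
  have htel : ∀ j l : ℕ, j ≤ l → ∀ p ∈ W,
      dist (a l p) (a j p) ≤ 2 * C * ((1 / 2) ^ (j * k) - (1 / 2) ^ (l * k)) := by
    intro j l hjl p hp
    induction l, hjl using Nat.le_induction with
    | base => simp
    | succ l hjl ih =>
      have e1 := hstep l 0 (Nat.zero_le _) p hp
      have e1' : dist (a l p) (a (l + 1) p) ≤ C * (1 / 2) ^ (l * k) := e1
      have e2 := dist_triangle_left (a (l + 1) p) (a j p) (a l p)
      have e3 : ((1:ℝ) / 2) ^ ((l + 1) * k) ≤ 1 / 2 * (1 / 2) ^ (l * k) := by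
        rw [← pow_succ']
        exact pow_le_pow_of_le_one (by norm_num) (by norm_num) (by nlinarith)
      nlinarith
  -- the first iterates
  have hfin : ∀ n : ℕ, ∀ ε > 0, ∃ δ > 0, ∀ p ∈ W, ∀ q ∈ W, SR g δ p q →
      SR g ε (ψ^[n] p) (ψ^[n] q) := by
    intro n
    induction n with
    | zero => intro ε hε; exact ⟨ε, hε, fun p _ q _ h => h⟩
    | succ n ih =>
      intro ε hε
      obtain ⟨δ₁, hδ₁, e1⟩ := h3 ε hε
      obtain ⟨δ₂, hδ₂, e2⟩ := ih δ₁ hδ₁
      refine ⟨δ₂, hδ₂, fun p hp q hq hpq => ?_⟩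
      rw [Function.iterate_succ_apply', Function.iterate_succ_apply']
      exact SR.iter (e1 _ (hψm n p hp) _ (hψm n q hq) (e2 p hp q hq hpq)) k
  have hfin' : ∀ N : ℕ, ∃ δ > 0, ∀ p ∈ W, ∀ q ∈ W, SR g δ p q → ∀ n ≤ N,
      SR g (c / 2) (a n p) (a n q) := by
    intro N
    induction N with
    | zero =>
      refine ⟨c / 2, half_pos hc, fun p _ q _ hpq n hn => ?_⟩
      obtain rfl : n = 0 := by omega
      simpa [ha] using hpq
    | succ N ih =>
      obtain ⟨δ₁, hδ₁, e1⟩ := ih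
      obtain ⟨δ₂, hδ₂, e2⟩ := SR.back g ((N + 1) * k) (c / 2) (half_pos hc)
      obtain ⟨δ₃, hδ₃, e3⟩ := hfin (N + 1) δ₂ hδ₂
      refine ⟨min δ₁ δ₃, lt_min hδ₁ hδ₃, fun p hp q hq hpq n hn => ?_⟩
      rcases Nat.lt_or_ge N n with hn' | hn'
      · obtain rfl : n = N + 1 := by omega
        exact e2 _ _ (e3 p hp q hq (hpq.mono (min_le_right _ _)))
      · exact e1 p hp q hq (hpq.mono (min_le_left _ _)) n hn'
  -- constants
  obtain ⟨m₀, hm₀⟩ := pow_tend (2 * C) (show (0:ℝ) < c / 4 by linarith)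
  obtain ⟨δ₁, hδ₁, hback⟩ := SR.back g m₀ c hc
  obtain ⟨δ₂, hδ₂, hτ⟩ := h3 δ₁ hδ₁
  obtain ⟨N₁, hN₁⟩ := pow_tend c hδ₂
  set N₀ := max m₀ N₁ with hN₀
  obtain ⟨δ₀, hδ₀, hfirst⟩ := hfin' N₀
  have hmain : ∀ p ∈ W, ∀ q ∈ W, SR g δ₀ p q → ∀ n : ℕ, SR g c (a n p) (a n q) := by
    intro p hp q hq hpq n
    rcases le_total n N₀ with hn | hn
    · exact (hfirst p hp q hq hpq n hn).mono (by linarith)
    induction n, hn using Nat.le_induction with
    | base => exact (hfirst p hp q hq hpq N₀ le_rfl).mono (by linarith)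
    | succ n hn ih =>
      intro i
      have hnk : n ≤ n * k := Nat.le_mul_of_pos_right n hk
      have hm₀n : m₀ ≤ n * k := ((le_max_left _ _).trans hn).trans hnk
      rcases Nat.lt_or_ge (i + m₀) (n * k) with hi | hi
      · rcases Nat.eq_zero_or_pos i with rfl | hi0
        · -- `i = 0`
          show dist (a (n + 1) p) (a (n + 1) q) ≤ c
          have e1 := htel N₀ (n + 1) (by omega) p hp
          have e2 := htel N₀ (n + 1) (by omega) q hq
          have e3 : dist (a N₀ p) (a N₀ q) ≤ c / 2 := sd (hfirst p hp q hq hpq N₀ le_rfl)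
          have e4 : 2 * C * (1 / 2) ^ (N₀ * k) < c / 4 :=
            hm₀ _ ((le_max_left m₀ N₁).trans (Nat.le_mul_of_pos_right N₀ hk))
          have e5 : 0 ≤ 2 * C * (1 / 2) ^ ((n + 1) * k) := by positivity
          have e6 := dist_triangle4_right (a (n + 1) p) (a (n + 1) q) (a N₀ p) (a N₀ q)
          linarith
        · -- `i ≥ 1`
          have e1 := hstep n i (by omega) p hp
          have e2 := hstep n i (by omega) q hq
          have e3 : 2 * C * (1 / 2) ^ (n * k - i) < c / 4 := hm₀ _ (by omega)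
          have e4 := h.cS _ _ ih i
          have e5 : c * (1 / 2) ^ i ≤ c / 2 := by
            have : ((1:ℝ) / 2) ^ i ≤ 1 / 2 := by
              calc ((1:ℝ) / 2) ^ i ≤ (1 / 2) ^ 1 :=
                    pow_le_pow_of_le_one (by norm_num) (by norm_num) hi0
                _ = 1 / 2 := by norm_num
            nlinarith
          have e6 := dist_triangle4_right (g^[i] (a (n + 1) p)) (g^[i] (a (n + 1) q))
            (g^[i] (a n p)) (g^[i] (a n q))
          rw [dist_comm] at e1 e2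
          linarith
      · -- the last times
        obtain ⟨j, hj⟩ := Nat.exists_eq_add_of_le hi
        have e1 := SR.contr h ih (n * k)
        rw [ha2, ha2] at e1
        have e2 : SR g δ₂ (ψ^[n] p) (ψ^[n] q) :=
          e1.mono (hN₁ _ (((le_max_right _ _).trans hn).trans hnk)).le
        have e3 := hback _ _ (hτ _ (hψm n p hp) _ (hψm n q hq) e2) j
        rw [iter_shift g hj, iter_shift g hj] at e3
        rw [ha1, ha1]
        exact e3
  refine no_contr h hinf hsmW hψb hδ₀ fun p hp q hq hpq n => ?_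
  have e1 := h.cS _ _ (hmain p hp q hq hpq n) (n * k)
  rw [ha2, ha2] at e1
  refine e1.trans ?_
  have : ((1:ℝ) / 2) ^ (n * k) ≤ (1 / 2) ^ n :=
    pow_le_pow_of_le_one (by norm_num) (by norm_num) (Nat.le_mul_of_pos_right n hk)
  exact mul_le_mul_of_nonneg_left this hc.le

end Pool.Agent.H244.Nh
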