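import Pool.Agent.H244.Nh4

/-!
# Complementary domains of attractors in stable leaves: the main theorem
-/

set_option autoImplicit false
set_option linter.unusedSectionVars false

open Filter Topology Set Metric unitInterval

namespace Pool.Agent.H244.Nh

open Pool.Agent.H789R2.AN Pool.Agent.H789R2.GP

variable {X : Type*} [MetricSpace X] [CompactSpace X] {g : X ≃ₜ X} {c : ℝ} {A : Set X}

theorem bas_iter (hA : IsAtt g A) (n : ℕ) (x : X) : g^[n] x ∈ Bas g A ↔ x ∈ Bas g A := by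
  induction n with
  | zero => rfl
  | succ n ih => rw [Function.iterate_succ_apply', bas_map (fun _ => rfl) hA.inv, ih]

theorem Bd.of_iter (hA : IsAtt g A) {x : X} {n : ℕ} (hb : Bd g A (g^[n] x)) : Bd g A x := by
  intro ε hε
  obtain ⟨m, hm⟩ := hb ε hε
  refine ⟨m + n, fun k hk w hw => ?_⟩
  obtain ⟨j, rfl⟩ := Nat.exists_eq_add_of_le' (show n ≤ k by omega)
  rw [Function.iterate_add_apply, Function.iterate_add_apply]
  exact hm j (by omega) _ (V.iter hA hw n)

theorem Bd.iter (hA : IsAtt g A) {x : X} (hb : Bd g A x) (n : ℕ) : Bd g A (g^[n] x) := by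
  intro ε hε
  obtain ⟨m, hm⟩ := hb ε hε
  refine ⟨m, fun k hk w hw => ?_⟩
  have h1 := V.iter_symm hA hw n
  rw [iterL] at h1
  have h2 := hm (k + n) (by omega) _ h1
  rwa [Function.iterate_add_apply, Function.iterate_add_apply, iterR] at h2

/-- No bounded domain of the basin is related to its iterates. -/
theorem no_rel (h : LP g c) (hX : ULC X) (hA : IsAtt g A) {x : X} (hx : x ∉ A)
    (hxB : x ∈ Bas g A) (hb : Bd g A x) {k : ℕ} (hk : 1 ≤ k) : ¬ Rel g A x (g^[k] x) := by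
  intro hR
  have hc := h.c_pos
  obtain ⟨n, hn⟩ := (hb.iter hA k).small hA (half_pos hc)
  have h1 := (hR.iter hA n).2
  set y := g^[n] (g^[k] x) with hy
  have h2 : g.symm^[k] y = g^[n] x := by
    rw [hy, ← Function.iterate_add_apply, add_comm, Function.iterate_add_apply, iterL]
  rw [← h2] at h1
  refine no_per h hA (hn n le_rfl) (V.infinite h hX hA ?_ ?_) hk h1
  · rwa [inv_iter hA.inv, inv_iter hA.inv]
  · rwa [bas_iter hA, bas_iter hA]

/-- The closed neighbourhoods of `A` made of plaques. -/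
def Nb (g : X ≃ₜ X) (A : Set X) (e : ℝ) : Set X := {y | ∃ a ∈ A, SR g e a y}

theorem Nb.closed (hA : IsClosed A) (e : ℝ) : IsClosed (Nb g A e) := by
  have h1 : IsCompact ({q : X × X | SR g e q.1 q.2} ∩ {q | q.1 ∈ A}) :=
    ((Pool.Agent.W740.TU.isClosed_SR g e).inter (hA.preimage continuous_fst)).isCompact
  have h2 : Nb g A e = Prod.snd '' ({q : X × X | SR g e q.1 q.2} ∩ {q | q.1 ∈ A}) := by
    ext y
    constructor
    · rintro ⟨a, ha, hay⟩; exact ⟨(a, y), ⟨hay, ha⟩, rfl⟩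
    · rintro ⟨⟨a, y'⟩, ⟨hay, ha⟩, rfl⟩; exact ⟨a, ha, hay⟩
  rw [h2]
  exact (h1.image continuous_snd).isClosed

theorem Nb.map (hA : IsAtt g A) {e : ℝ} {y : X} (hy : y ∈ Nb g A e) : g y ∈ Nb g A e := by
  obtain ⟨a, ha, hay⟩ := hy
  exact ⟨g a, (hA.inv a).mpr ha, SR.iter hay 1⟩

theorem Nb.iter (hA : IsAtt g A) {e : ℝ} {y : X} (hy : y ∈ Nb g A e) (n : ℕ) :
    g^[n] y ∈ Nb g A e := by
  induction n with
  | zero => exact hy
  | succ n ih => rw [Function.iterate_succ_apply']; exact Nb.map hA ih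

theorem Nb.nhd (h : LP g c) (hA : IsAtt g A) {e : ℝ} (he : 0 < e) (hec : e ≤ c) (n : ℕ) :
    ∃ ρ > 0, ∀ a ∈ A, ∀ y, dist y a < ρ → g.symm^[n] y ∈ Nb g A e := by
  obtain ⟨δ, hδ, h1⟩ := h.lp e he
  obtain ⟨ρ, hρ, h2⟩ := T1_unif g.symm n hδ
  refine ⟨ρ, hρ, fun a ha y hy => ?_⟩
  obtain ⟨z, h3, h4⟩ := h1 (g.symm^[n] y) (g.symm^[n] a) (h2 n le_rfl _ _ hy)
  refine ⟨z, hA.sat (g.symm^[n] a) ((inv_iter (inv_symm hA.inv) n a).mpr ha) z ?_, h3.symm'⟩
  exact WS.of_SR (h.cU _ _ (h4.mono hec))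

theorem Nb.back (h : LP g c) (hA : IsAtt g A) {e : ℝ} (hec : e ≤ c) {y : X}
    (hy : ∀ n, g.symm^[n] y ∈ Nb g A e) : y ∈ A := by
  rw [← hA.closed.closure_eq, Metric.mem_closure_iff]
  intro ε hε
  obtain ⟨n, hn⟩ := pow_tend c hε
  obtain ⟨a, ha, h1⟩ := hy n
  refine ⟨g^[n] a, (inv_iter hA.inv n a).mpr ha, ?_⟩
  have h2 := h.cS _ _ (h1.mono hec) n
  rw [iterR, dist_comm] at h2
  exact h2.trans_lt (hn n le_rfl)

theorem Nb.bas (h : LP g c) {e : ℝ} (hec : e ≤ c) {y : X} (hy : y ∈ Nb g A e) : y ∈ Bas g A := by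
  obtain ⟨a, ha, h1⟩ := hy
  exact ⟨a, ha, (WS.of_SR (h.cS _ _ (h1.mono hec))).symm'⟩

/-- Bounded domains of the basin enter the neighbourhoods. -/
theorem Nb.enter (hA : IsAtt g A) {e : ℝ} (he : 0 < e) {x : X} (hxB : x ∈ Bas g A)
    (hb : Bd g A x) : ∃ n, V g A (g^[n] x) ⊆ Nb g A e := by
  obtain ⟨a, ha, hxa⟩ := hxB
  obtain ⟨n₁, h1⟩ := hxa.eventually_lt (half_pos he)
  obtain ⟨n₂, h2⟩ := hb.small hA (half_pos he)
  refine ⟨max n₁ n₂, fun w hw => ⟨g^[max n₁ n₂] a, (inv_iter hA.inv _ a).mpr ha, ?_⟩⟩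
  have h3 : SR g (e / 2) (g^[max n₁ n₂] a) (g^[max n₁ n₂] x) := fun k => by
    rw [← Function.iterate_add_apply, ← Function.iterate_add_apply, dist_comm]
    exact (h1 _ ((le_max_left n₁ n₂).trans (Nat.le_add_left _ _))).le
  exact (SR.tri h3 (h2 _ (le_max_right _ _) w hw)).mono (by linarith)

/-- Sets which are open, and closed outside `A`, contain the small balls which they meet. -/
theorem ball_sub (hX : ULC X) {r : ℝ} (hr : 0 < r) : ∃ δ > 0, ∀ (B : Set X) (y : X),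
    (∀ a ∈ A, r ≤ dist y a) → IsOpen B → (∀ x, x ∉ A → x ∈ closure B → x ∈ B) →
    (∃ x ∈ B, dist y x < δ) → y ∈ B := by
  obtain ⟨δ, hδ, h1⟩ := hX.path r hr
  refine ⟨δ, hδ, fun B y hy hBo hBc => ?_⟩
  rintro ⟨x, hx, hxy⟩
  obtain ⟨κ, hκ0, hκ1, hκ⟩ := h1 y x y (by rwa [mem_ball, dist_comm]) (mem_ball_self hδ)
  have hκA : ∀ t, κ t ∉ A := fun t ht => by
    have e1 := hy _ ht
    have e2 := hκ t
    rw [mem_ball, dist_comm] at e2
    linarith
  have h2 : (1 : I) ∈ κ ⁻¹' B := by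
    refine clop (by show κ 0 ∈ B; rwa [hκ0]) ?_ (hBo.preimage κ.continuous)
    refine isClosed_of_closure_subset fun t ht => hBc _ (hκA t) ?_
    exact κ.continuous.closure_preimage_subset B ht
  rw [← hκ1]
  exact h2

/-- **Main theorem** for homeomorphisms with local product structure. -/
theorem main_LP [ConnectedSpace X] (h : LP g c) (hX : ULC X) (hA : IsAtt g A) {U : Set X}
    (hU : IsOpen U) (hAU : A ⊆ U) {z₀ : X} (hz₀ : z₀ ∉ A) (hz₀B : z₀ ∈ Bas g A)
    (hz₀b : Bd g A z₀) :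
    ∃ y, y ∉ A ∧ V g A y ⊆ U ∧ ¬ Bd g A y ∧
      y ∈ closure {z | z ∉ A ∧ Bd g A z ∧ V g A z ⊆ U} := by
  have hc := h.c_pos
  by_contra hcon
  push Not at hcon
  -- the neighbourhood
  obtain ⟨e₀, he₀, he₀U⟩ : ∃ e₀ > 0, ∀ y, (∃ a ∈ A, dist a y ≤ e₀) → y ∈ U := by
    obtain ⟨e₁, he₁, h1⟩ := hA.closed.isCompact.exists_thickening_subset_open hU hAU
    refine ⟨e₁ / 2, half_pos he₁, fun y => ?_⟩
    rintro ⟨a, ha, hay⟩
    apply h1
    rw [mem_thickening_iff]
    exact ⟨a, ha, by rw [dist_comm]; linarith⟩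
  set e := min e₀ c with he
  have he0 : 0 < e := lt_min he₀ hc
  have hec : e ≤ c := min_le_right _ _
  set N := Nb g A e with hN
  have hNU : N ⊆ U := by
    rintro y ⟨a, ha, hay⟩
    exact he₀U y ⟨a, ha, (sd hay).trans (min_le_left _ _)⟩
  have hNc : IsClosed N := Nb.closed hA.closed e
  set Q : Set X := {z | z ∉ A ∧ Bd g A z ∧ V g A z ⊆ N} with hQ
  have hH : ∀ y, y ∉ A → y ∈ closure Q → Bd g A y := by
    intro y hy hyQ
    have h1 : V g A y ⊆ N := by
      intro w hw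
      rw [← hNc.closure_eq, Metric.mem_closure_iff]
      intro η hη
      obtain ⟨ρ, hρ, h2⟩ := V.lsc h hX hA hw hη
      obtain ⟨z, hz, hyz⟩ := Metric.mem_closure_iff.mp hyQ ρ hρ
      obtain ⟨w', hw', h3⟩ := h2 z hyz
      exact ⟨w', hz.2.2 hw', h3⟩
    by_contra hb
    have hmono : Q ⊆ {z | z ∉ A ∧ Bd g A z ∧ V g A z ⊆ U} :=
      fun z hz => ⟨hz.1, hz.2.1, hz.2.2.trans hNU⟩
    exact hcon y hy (h1.trans hNU) hb (closure_mono hmono hyQ)
  -- the fundamental domain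
  obtain ⟨ρ₁, hρ₁, hρ₁'⟩ := Nb.nhd h hA he0 hec 1
  set D : Set X := {y | y ∈ N ∧ ∀ a ∈ A, ρ₁ ≤ dist y a} with hD
  have hDc : IsCompact D := by
    apply IsClosed.isCompact
    have : D = N ∩ ⋂ a ∈ A, {y | ρ₁ ≤ dist y a} := by
      ext y
      simp only [hD, mem_inter_iff, mem_iInter]
      rfl
    rw [this]
    exact hNc.inter (isClosed_biInter fun a _ => isClosed_le continuous_const
      (continuous_id.dist continuous_const))
  have hDA : ∀ y ∈ D, y ∉ A := fun y hy hin => by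
    have := hy.2 y hin
    rw [dist_self] at this
    linarith
  have hDN : ∀ y ∈ N, g.symm y ∉ N → y ∈ D := fun y hy hy' => by
    refine ⟨hy, fun a ha => ?_⟩
    by_contra hlt
    push Not at hlt
    exact hy' (hρ₁' a ha y hlt)
  -- finitely many classes
  have hGc : IsCompact (closure Q ∩ D) := hDc.inter_left isClosed_closure
  have hG : ∀ y ∈ closure Q ∩ D, ∃ ρ > 0, ∀ z', dist y z' < ρ → z' ∉ A ∧ Bd g A z' ∧ Rel g A y z' :=
    fun y hy => Bd.stable h hX hA (hDA y hy.2) (hH y (hDA y hy.2) hy.1)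
  choose! ρ hρ hρ' using hG
  obtain ⟨T, hTG, hTcov⟩ := hGc.elim_nhds_subcover (fun y => ball y (ρ y))
    (fun y hy => ball_mem_nhds y (hρ y hy))
  -- times at which a domain enters `N`
  have hL1 : ∀ z, z ∉ A → z ∈ Bas g A → Bd g A z → ∀ b : ℕ, ¬ V g A (g^[b] z) ⊆ N →
      ∃ n > b, ∃ y ∈ T, Rel g A y (g^[n] z) := by
    classical
    intro z hz hzB hzb b hb
    have hex : ∃ n, V g A (g^[n] z) ⊆ N := Nb.enter hA he0 hzB hzb
    set n := Nat.find hex with hn
    have h1 : V g A (g^[n] z) ⊆ N := Nat.find_spec hex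
    have hmono : ∀ m, V g A (g^[m] z) ⊆ N → ∀ k, V g A (g^[k] (g^[m] z)) ⊆ N := by
      intro m hm k w hw
      have e1 := V.iter_symm hA hw k
      rw [iterL] at e1
      have e2 := Nb.iter hA (hm e1) k
      rwa [iterR] at e2
    have hbn : b < n := by
      by_contra hle
      push Not at hle
      apply hb
      have := hmono n h1 (b - n)
      rwa [← Function.iterate_add_apply, Nat.sub_add_cancel hle] at this
    obtain ⟨m, hm⟩ : ∃ m, n = m + 1 := ⟨n - 1, by omega⟩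
    have h2 : ¬ V g A (g^[m] z) ⊆ N := Nat.find_min hex (by omega)
    rw [not_subset] at h2
    obtain ⟨v, hv, hvN⟩ := h2
    have h3 : g v ∈ V g A (g^[n] z) := by
      rw [hm, Function.iterate_succ_apply']
      exact V.map hA hv
    have h4 : g v ∈ D := hDN _ (h1 h3) (by rwa [g.symm_apply_apply])
    have h5 : g v ∈ Q := ⟨V.right h3, by
      refine fun ε hε => ?_
      obtain ⟨k, hk⟩ := (hzb.iter hA n) (ε / 2) (half_pos hε)
      refine ⟨k, fun m hm w hw => ?_⟩
      rw [V.eq h3] at hw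
      have e1 := hk m hm _ h3
      have e2 := hk m hm _ hw
      have e3 := dist_triangle_left (g^[m] (g v)) (g^[m] w) (g^[m] (g^[n] z))
      linarith, by rw [V.eq h3]; exact h1⟩
    obtain ⟨y, hy, hvy⟩ := mem_iUnion₂.mp
      (hTcov (show g v ∈ closure Q ∩ D from ⟨subset_closure h5, h4⟩))
    refine ⟨n, hbn, y, hy, ?_⟩
    have h6 := (hρ' y (hTG y hy) (g v) (by rwa [mem_ball, dist_comm] at hvy)).2.2
    exact h6.trans (Rel.of_mem (V.symm h3))
  -- the times of `z₀`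
  have hfin : ∃ b : ℕ, ∀ n > b, ∀ y ∈ T, ¬ Rel g A y (g^[n] z₀) := by
    by_contra hno
    push Not at hno
    choose n hn y hy hR using hno
    -- an increasing sequence of times
    set t : ℕ → ℕ := fun i => n^[i] 0 with ht
    have htmono : StrictMono t := strictMono_nat_of_lt_succ fun i => by
      show n^[i] 0 < n^[i + 1] 0
      rw [Function.iterate_succ_apply']
      exact hn _
    obtain ⟨i, -, j, -, hij, hyy⟩ := Finset.exists_ne_map_eq_of_card_lt_of_maps_to
      (s := Finset.range (T.card + 1)) (t := T) (by rw [Finset.card_range]; exact Nat.lt_succ_self _)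
      (f := fun i => y (t i)) (fun i _ => hy _)
    wlog hlt : i < j generalizing i j
    · exact this j i hij.symm hyy.symm (lt_of_le_of_ne (not_lt.mp hlt) hij.symm)
    have e1 := hR (t i)
    have e2 := hR (t j)
    have hyy' : y (t i) = y (t j) := hyy
    rw [hyy'] at e1
    have e3 := e1.symm.trans e2
    have e4 : n (t i) < n (t j) := by
      have a1 : t (i + 1) = n (t i) := Function.iterate_succ_apply' n i 0
      have a2 : t (j + 1) = n (t j) := Function.iterate_succ_apply' n j 0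
      rw [← a1, ← a2]
      exact htmono (by omega)
    obtain ⟨k, hk⟩ := Nat.exists_eq_add_of_le' e4.le
    rw [hk, Function.iterate_add_apply] at e3
    refine no_rel h hX hA ?_ ?_ (hz₀b.iter hA (n (t i))) (k := k) (by omega) e3
    · rwa [inv_iter hA.inv]
    · rwa [bas_iter hA]
  obtain ⟨b, hb⟩ := hfin
  -- the class
  set C : Set X := {z | z ∉ A ∧ z ∈ Bas g A ∧ Bd g A z ∧ Rel g A z₀ z} with hC
  have hCN : ∀ z ∈ C, V g A (g^[b] z) ⊆ N := by
    rintro z ⟨hz, hzB, hzb, hzR⟩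
    by_contra hno
    obtain ⟨n, hn, y, hy, hR⟩ := hL1 z hz hzB hzb b hno
    exact hb n hn y hy (hR.trans ((hzR.iter hA n).symm))
  have hCo : IsOpen C := by
    rw [isOpen_iff_mem_nhds]
    rintro z ⟨hz, hzB, hzb, hzR⟩
    obtain ⟨r, hr, h1⟩ := Bd.stable h hX hA hz hzb
    filter_upwards [ball_mem_nhds z hr, (isOpen_bas h hA).mem_nhds hzB] with z' hz' hz'B
    obtain ⟨h2, h3, h4⟩ := h1 z' (by rwa [mem_ball, dist_comm] at hz')
    exact ⟨h2, hz'B, h3, hzR.trans h4⟩
  have hCc : ∀ x, x ∉ A → x ∈ closure C → x ∈ C := by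
    intro x hx hxC
    have h1 : g^[b] x ∈ closure Q := by
      have h2 : g^[b] x ∈ closure (g^[b] '' C) :=
        mem_closure_image ((g.continuous.iterate b).continuousAt) hxC
      refine closure_mono ?_ h2
      rintro _ ⟨z, hz, rfl⟩
      exact ⟨by rw [inv_iter hA.inv]; exact hz.1, hz.2.2.1.iter hA b, hCN z hz⟩
    have hxn : g^[b] x ∉ A := by rwa [inv_iter hA.inv]
    have hxb : Bd g A x := Bd.of_iter hA (hH _ hxn h1)
    have hxN : g^[b] x ∈ N := by
      have h2 : closure Q ⊆ N := by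
        refine closure_minimal (fun z hz => hz.2.2 (V.self hz.1)) hNc
      exact h2 h1
    have hxB : x ∈ Bas g A := (bas_iter hA b x).mp (Nb.bas h hec hxN)
    obtain ⟨r, hr, h3⟩ := Bd.stable h hX hA hx hxb
    obtain ⟨z, hz, hxz⟩ := Metric.mem_closure_iff.mp hxC r hr
    exact ⟨hx, hxB, hxb, hz.2.2.2.trans (h3 z hxz).2.2.symm⟩
  -- `C` accumulates at `A`
  have hCA : ∀ ρ > 0, ∃ z ∈ C, ∃ a ∈ A, dist z a < ρ := by
    intro ρ' hρ'
    by_contra hno
    push Not at hno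
    have hCcl : IsClosed C := by
      refine isClosed_of_closure_subset fun x hx => hCc x (fun hxA => ?_) hx
      obtain ⟨z, hz, hxz⟩ := Metric.mem_closure_iff.mp hx ρ' hρ'
      have := hno z hz x hxA
      rw [dist_comm] at this
      linarith
    have hCu : C = univ := IsClopen.eq_univ ⟨hCcl, hCo⟩ ⟨z₀, hz₀, hz₀B, hz₀b, Rel.refl z₀⟩
    obtain ⟨a, ha⟩ := hA.nonempty
    have : a ∈ C := by rw [hCu]; trivial
    exact this.1 ha
  -- the backward images of `C` meet `D`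
  have hmeet : ∀ m : ℕ, ∃ n ≥ m, ∃ z ∈ C, g.symm^[n] z ∈ D := by
    classical
    intro m
    obtain ⟨ρ₂, hρ₂, h1⟩ := Nb.nhd h hA he0 hec m
    obtain ⟨z, hz, a, ha, hza⟩ := hCA ρ₂ hρ₂
    have h2 : g.symm^[m] z ∈ N := h1 a ha z hza
    have hex : ∃ n, g.symm^[n] z ∉ N := by
      by_contra hno
      push Not at hno
      exact hz.1 (Nb.back h hA hec hno)
    set n := Nat.find hex with hn
    have h3 : g.symm^[n] z ∉ N := Nat.find_spec hex
    have h4 : m < n := by
      by_contra hle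
      push Not at hle
      apply h3
      have := Nb.iter hA h2 (m - n)
      rwa [T1_iter_sub g (by omega : m - n ≤ m), show m - (m - n) = n by omega] at this
    obtain ⟨k, hk⟩ : ∃ k, n = k + 1 := ⟨n - 1, by omega⟩
    have h5 : g.symm^[k] z ∈ N := by
      by_contra hno
      exact Nat.find_min hex (by omega : k < n) hno
    refine ⟨k, by omega, z, hz, hDN _ h5 ?_⟩
    rw [hk, Function.iterate_succ_apply'] at h3
    exact h3
  -- finitely many balls
  obtain ⟨δ, hδ, hball⟩ := ball_sub (A := A) hX hρ₁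
  obtain ⟨S, hSD, hScov⟩ := hDc.elim_nhds_subcover (fun y => ball y δ) (fun y _ => ball_mem_nhds y hδ)
  have hpre : ∀ n : ℕ, ∀ y ∈ S, (∃ z ∈ C, dist y (g.symm^[n] z) < δ) → g^[n] y ∈ C := by
    intro n y hy
    rintro ⟨z, hz, hyz⟩
    have h1 : y ∈ g^[n] ⁻¹' C := by
      refine hball _ y (hSD y hy).2 (hCo.preimage (g.continuous.iterate n)) (fun x hx hxC => ?_)
        ⟨g.symm^[n] z, by show g^[n] (g.symm^[n] z) ∈ C; rwa [iterR], hyz⟩
      refine hCc _ (by rwa [inv_iter hA.inv]) ?_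
      exact (g.continuous.iterate n).closure_preimage_subset C hxC
    exact h1
  have hseq : ∀ m : ℕ, ∃ n ≥ m, ∃ y ∈ S, g^[n] y ∈ C := by
    intro m
    obtain ⟨n, hn, z, hz, hzD⟩ := hmeet m
    obtain ⟨y, hy, hzy⟩ := mem_iUnion₂.mp (hScov hzD)
    exact ⟨n, hn, y, hy, hpre n y hy ⟨z, hz, by rwa [mem_ball, dist_comm] at hzy⟩⟩
  choose n hn y hy hyC using fun m => hseq (m + 1)
  set t : ℕ → ℕ := fun i => n^[i] 0 with ht
  have htmono : StrictMono t := strictMono_nat_of_lt_succ fun i => by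
    show n^[i] 0 < n^[i + 1] 0
    rw [Function.iterate_succ_apply']
    exact hn _
  obtain ⟨i, -, j, -, hij, hyy⟩ := Finset.exists_ne_map_eq_of_card_lt_of_maps_to
    (s := Finset.range (S.card + 1)) (t := S) (by rw [Finset.card_range]; exact Nat.lt_succ_self _)
    (f := fun i => y (t i)) (fun i _ => hy _)
  wlog hlt : i < j generalizing i j
  · exact this j i hij.symm hyy.symm (lt_of_le_of_ne (not_lt.mp hlt) hij.symm)
  have hyy' : y (t i) = y (t j) := hyy
  have e1 := hyC (t i)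
  have e2 := hyC (t j)
  rw [hyy'] at e1
  have e4 : n (t i) < n (t j) := by
    have a1 : t (i + 1) = n (t i) := Function.iterate_succ_apply' n i 0
    have a2 : t (j + 1) = n (t j) := Function.iterate_succ_apply' n j 0
    rw [← a1, ← a2]
    exact htmono (by omega)
  obtain ⟨k, hk⟩ := Nat.exists_eq_add_of_le' e4.le
  rw [hk, Function.iterate_add_apply] at e2
  exact no_rel h hX hA e1.1 e1.2.1 e1.2.2.1 (k := k) (by omega) (e1.2.2.2.symm.trans e2.2.2.2)

end Pool.Agent.H244.Nh
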