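import Pool.Agent.H244.Nh5

/-!
# Complementary domains of attractors in stable leaves: components of the attractor
-/

set_option autoImplicit false
set_option linter.unusedSectionVars false

open Filter Topology Set Metric unitInterval

namespace Pool.Agent.H244.Nh

open Pool.Agent.H789R2.AN Pool.Agent.H789R2.GP

variable {X : Type*} [MetricSpace X] [CompactSpace X] {g : X ≃ₜ X} {c : ℝ} {A : Set X}

/-- Chains in `A` with steps of size `e` in the stable leaves. -/
def Ch (g : X ≃ₜ X) (A : Set X) (e : ℝ) : X → X → Prop :=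
  Relation.ReflTransGen (fun x y => y ∈ A ∧ SR g e x y)

/-- A domain contained in a thin neighbourhood is bounded if the chains are. -/
theorem Bd.of_chain (h : LP g c) (hA : IsAtt g A) {e : ℝ} (he : 0 < e) (hec : e ≤ c / 2) {n : ℕ}
    (hch : ∀ a ∈ A, ∀ b, Ch g A e a b → SR g (c / 2) (g^[n] a) (g^[n] b)) {y : X}
    (hy : V g A y ⊆ Nb g A (e / 3)) (hyA : y ∉ A) : Bd g A y := by
  have hc := h.c_pos
  obtain ⟨a₀, ha₀, h0⟩ := hy (V.self hyA)
  apply Bd.of_small h hA (n := n)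
  intro w' hw'
  have hw : g.symm^[n] w' ∈ V g A y := by
    have := V.iter_symm hA hw' n
    rwa [iterL] at this
  obtain ⟨w, rfl⟩ : ∃ w, w' = g^[n] w := ⟨g.symm^[n] w', (iterR g n w').symm⟩
  rw [iterL] at hw
  obtain ⟨υ, hυ⟩ := id hw
  set T : Set I := {t | ∃ a, a ∈ A ∧ SR g (e / 3) a (υ t).val ∧ Ch g A e a₀ a} with hT
  have hloc : ∀ t ∈ T, ∀ t', dist (υ t) (υ t') ≤ e / 3 → t' ∈ T := by
    rintro t ⟨a, ha, ha1, ha2⟩ t' ht'
    obtain ⟨a', ha', h1⟩ := hy (joined_pt υ hυ t' : (υ t').val ∈ V g A y)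
    refine ⟨a', ha', h1, ha2.tail ⟨ha', ?_⟩⟩
    have h2 : SR g (e / 3) (υ t).val (υ t').val := (SM.dist_le _ _ (by linarith)).mp ht'
    exact (SR.tri (SR.tri ha1 h2) h1.symm').mono (by linarith)
  have hnb : ∀ t, ∀ᶠ t' in 𝓝 t, dist (υ t') (υ t) < e / 3 := fun t =>
    Metric.tendsto_nhds.mp (υ.continuous.tendsto t) _ (by linarith)
  have h1 : (1 : I) ∈ T := by
    refine clop ?_ ?_ ?_
    · exact ⟨a₀, ha₀, by rw [υ.source]; exact h0, Relation.ReflTransGen.refl⟩
    · refine isClosed_of_closure_subset fun t ht => ?_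
      obtain ⟨t', ht', ht'T⟩ := mem_closure_iff_nhds.mp ht _ (hnb t)
      exact hloc t' ht'T t (le_of_lt ht')
    · rw [isOpen_iff_mem_nhds]
      intro t ht
      filter_upwards [hnb t] with t' ht'
      exact hloc t ht t' (by rw [dist_comm]; exact ht'.le)
  obtain ⟨a, ha, ha1, ha2⟩ := h1
  rw [υ.target] at ha1
  have h2 := hch a₀ ha₀ a ha2
  have h3 := SR.iter (g := g) h0 n
  have h4 := SR.iter (g := g) ha1 n
  exact (SR.tri (SR.tri h3.symm' h2) h4).mono (by linarith)

/-- Truncation of chains. -/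
theorem trunc {e : ℝ} (hc : 0 < c) (hec : e ≤ c / 4) {N : ℕ} {a b : X} (ha : a ∈ A) (hab : Ch g A e a b)
    (hno : ¬ SR g (c / 2) (g^[N] a) (g^[N] b)) :
    ∃ b', Relation.ReflTransGen (fun x y => (y ∈ A ∧ SR g (c / 2) (g^[N] a) (g^[N] y)) ∧ SR g e x y)
      a b' ∧ b' ∈ A ∧ SR g (c / 2) (g^[N] a) (g^[N] b') ∧ ¬ SR g (c / 4) (g^[N] a) (g^[N] b') := by
  by_contra hcon
  have key : Relation.ReflTransGen
      (fun x y => (y ∈ A ∧ SR g (c / 2) (g^[N] a) (g^[N] y)) ∧ SR g e x y) a b ∧ b ∈ A ∧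
      SR g (c / 2) (g^[N] a) (g^[N] b) := by
    clear hno
    induction hab with
    | refl => exact ⟨Relation.ReflTransGen.refl, ha, SR.self g (by linarith) _⟩
    | @tail b b₁ _ hb ih =>
      obtain ⟨h1, h2, h3⟩ := ih
      have h4 : SR g (c / 4) (g^[N] a) (g^[N] b) := by
        by_contra h4
        exact hcon ⟨b, h1, h2, h3, h4⟩
      have h5 : SR g (c / 2) (g^[N] a) (g^[N] b₁) :=
        (SR.tri h4 (SR.iter (g := g) hb.2 N)).mono (by linarith)
      exact ⟨h1.tail ⟨⟨hb.1, h5⟩, hb.2⟩, hb.1, h5⟩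
  exact hno key.2.2

/-- A chain cannot jump between two separated sets. -/
theorem no_jump {F₁ F₂ : Set X} {δ e : ℝ} (hδ : 0 < δ)
    (hd : Disjoint (thickening δ F₁) (thickening δ F₂)) (he : e < δ / 2) {P : X → Prop}
    (hP : ∀ x, P x → x ∈ thickening (δ / 2) (F₁ ∪ F₂)) {a b : X}
    (hab : Relation.ReflTransGen (fun x y => P y ∧ SR g e x y) a b)
    (ha : a ∈ thickening (δ / 2) F₁) : b ∈ thickening (δ / 2) F₁ := by
  induction hab with
  | refl => exact ha
  | @tail x y _ hxy ih =>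
    have h1 := hP y hxy.1
    rw [thickening_union] at h1
    rcases h1 with h1 | h1
    · exact h1
    · exfalso
      refine disjoint_left.mp hd ?_ (thickening_mono (by linarith) F₂ h1)
      rw [mem_thickening_iff] at ih ⊢
      obtain ⟨z, hz, hxz⟩ := ih
      refine ⟨z, hz, ?_⟩
      have h2 := sd hxy.2
      have h3 := dist_triangle_left y z x
      linarith

/-- The attractor has continua of unbounded size through `a` in the stable leaf of `a`. -/
def BigComp (g : X ≃ₜ X) (c : ℝ) (A : Set X) (a : X) : Prop :=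
  ∃ η > 0, ∀ N : ℕ, ∃ K : Set X, a ∈ K ∧ K ⊆ A ∧ IsCompact K ∧ IsConnected K ∧
    (∀ x ∈ K, SR g c (g^[N] a) (g^[N] x)) ∧ ∃ b ∈ K, η ≤ dist (g^[N] a) (g^[N] b)

theorem bigComp_of_chains (h : LP g c) (hA : IsAtt g A)
    (hno : ∀ e > 0, ∀ n : ℕ, ∃ a ∈ A, ∃ b, Ch g A e a b ∧ ¬ SR g (c / 2) (g^[n] a) (g^[n] b)) :
    ∃ a ∈ A, BigComp g c A a := by
  have hc := h.c_pos
  obtain ⟨η, hη, hup⟩ := up h (c / 4) (by linarith)
  set ε : ℕ → ℝ := fun j => min (c / 4) (1 / ((j : ℝ) + 1)) with hε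
  have hε0 : ∀ j, 0 < ε j := fun j => lt_min (by linarith) (by positivity)
  have hεlim : Tendsto ε atTop (𝓝 0) := by
    refine squeeze_zero (fun j => (hε0 j).le) (fun j => min_le_right _ _) ?_
    exact tendsto_one_div_add_atTop_nhds_zero_nat
  choose a haA b hab hnab using fun j : ℕ => hno (ε j) (hε0 j) j
  obtain ⟨α, hα, φ, hφ, hlim⟩ := hA.closed.isCompact.tendsto_subseq haA
  refine ⟨α, hα, η, hη, fun N => ?_⟩
  -- truncated chains
  have htr : ∀ j, N ≤ j → ∃ b', Relation.ReflTransGen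
      (fun x y => (y ∈ A ∧ SR g (c / 2) (g^[N] (a j)) (g^[N] y)) ∧ SR g (ε j) x y) (a j) b' ∧
      b' ∈ A ∧ SR g (c / 2) (g^[N] (a j)) (g^[N] b') ∧ η ≤ dist (g^[N] (a j)) (g^[N] b') := by
    intro j hj
    obtain ⟨b', h1, h2, h3, h4⟩ := trunc (N := N) hc (min_le_left _ _) (haA j) (hab j) (fun hSR => by
      apply hnab j
      obtain ⟨k, rfl⟩ := Nat.exists_eq_add_of_le' hj
      rw [Function.iterate_add_apply, Function.iterate_add_apply]
      exact SR.iter hSR k)
    refine ⟨b', h1, h2, h3, ?_⟩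
    by_contra hlt
    push Not at hlt
    exact h4 (hup _ _ (h3.mono (by linarith)) hlt)
  have hφ1 : ∀ i, N ≤ φ (i + N) := fun i => (Nat.le_add_left N i).trans (hφ.id_le _)
  choose β hβ1 hβA hβ2 hβ3 using fun i => htr (φ (i + N)) (hφ1 i)
  obtain ⟨β₀, hβ₀, ψ, hψ, hβlim⟩ := hA.closed.isCompact.tendsto_subseq hβA
  have halim : Tendsto (fun i => a (φ (ψ i + N))) atTop (𝓝 α) :=
    hlim.comp ((tendsto_add_atTop_nat N).comp hψ.tendsto_atTop)
  have hclN : IsClosed {q : X × X | SR g (c / 2) (g^[N] q.1) (g^[N] q.2)} :=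
    (Pool.Agent.W740.TU.isClosed_SR g (c / 2)).preimage
      (((g.continuous.iterate N).comp continuous_fst).prodMk
        ((g.continuous.iterate N).comp continuous_snd))
  have hαβ : SR g (c / 2) (g^[N] α) (g^[N] β₀) :=
    hclN.mem_of_tendsto (halim.prodMk_nhds hβlim) (Eventually.of_forall fun i => hβ2 (ψ i))
  have hηβ : η ≤ dist (g^[N] α) (g^[N] β₀) := by
    refine ge_of_tendsto' (((g.continuous.iterate N).tendsto α |>.comp halim).dist
      ((g.continuous.iterate N).tendsto β₀ |>.comp hβlim)) fun i => hβ3 (ψ i)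
  set F : Set X := {x | x ∈ A ∧ SR g (c / 2) (g^[N] α) (g^[N] x)} with hF
  have hFc : IsCompact F := by
    apply IsClosed.isCompact
    exact hA.closed.inter (hclN.preimage (Continuous.prodMk_right α))
  have hαF : α ∈ F := ⟨hα, SR.self g (by linarith) _⟩
  have hβF : β₀ ∈ F := ⟨hβ₀, hαβ⟩
  refine ⟨connectedComponentIn F α, mem_connectedComponentIn hαF,
    (connectedComponentIn_subset F α).trans fun x hx => hx.1, ?_,
    isConnected_connectedComponentIn_iff.mpr hαF,
    fun x hx => ((connectedComponentIn_subset F α) hx).2.mono (by linarith), β₀, ?_, hηβ⟩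
  · -- compactness
    rw [connectedComponentIn_eq_image hαF]
    have := isCompact_iff_compactSpace.mp hFc
    exact isClosed_connectedComponent.isCompact.image continuous_subtype_val
  · by_contra hβK
    have := isCompact_iff_compactSpace.mp hFc
    rw [connectedComponentIn_eq_image hαF] at hβK
    have h1 : (⟨β₀, hβF⟩ : F) ∉ connectedComponent (⟨α, hαF⟩ : F) := fun hin =>
      hβK ⟨_, hin, rfl⟩
    rw [connectedComponent_eq_iInter_isClopen, mem_iInter] at h1
    push Not at h1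
    obtain ⟨⟨Z, hZ, hαZ⟩, hβZ⟩ := h1
    set F₁ : Set X := Subtype.val '' Z with hF₁
    set F₂ : Set X := Subtype.val '' Zᶜ with hF₂
    have hF₁c : IsCompact F₁ := hZ.isClosed.isCompact.image continuous_subtype_val
    have hF₂c : IsCompact F₂ := hZ.compl.isClosed.isCompact.image continuous_subtype_val
    have hdisj : Disjoint F₁ F₂ := by
      rw [disjoint_image_iff Subtype.val_injective]
      exact disjoint_compl_right
    have hFu : F ⊆ F₁ ∪ F₂ := by
      intro x hx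
      by_cases hxZ : (⟨x, hx⟩ : F) ∈ Z
      · exact Or.inl ⟨_, hxZ, rfl⟩
      · exact Or.inr ⟨_, hxZ, rfl⟩
    obtain ⟨δ, hδ, hd⟩ := hdisj.exists_thickenings hF₁c hF₂c.isClosed
    -- upper semicontinuity
    have husc : ∀ᶠ i in atTop, ∀ x, (x ∈ A ∧ SR g (c / 2) (g^[N] (a (φ (ψ i + N)))) (g^[N] x)) →
        x ∈ thickening (δ / 2) (F₁ ∪ F₂) := by
      by_contra hcon
      rw [not_eventually] at hcon
      obtain ⟨θ, hθ, hθ1⟩ := extraction_of_frequently_atTop hcon
      push Not at hθ1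
      choose x hx hxn using hθ1
      obtain ⟨x₀, hx₀, κ, hκ, hxlim⟩ := hA.closed.isCompact.tendsto_subseq (fun i => (hx i).1)
      have e1 : SR g (c / 2) (g^[N] α) (g^[N] x₀) :=
        hclN.mem_of_tendsto (((halim.comp hθ.tendsto_atTop).comp hκ.tendsto_atTop).prodMk_nhds hxlim)
          (Eventually.of_forall fun i => (hx (κ i)).2)
      have e2 : x₀ ∈ thickening (δ / 2) (F₁ ∪ F₂) :=
        self_subset_thickening (half_pos hδ) _ (hFu ⟨hx₀, e1⟩)
      have e3 := hxlim.eventually (isOpen_thickening.mem_nhds e2)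
      obtain ⟨i, hi⟩ := e3.exists
      exact hxn (κ i) hi
    have ev1 : ∀ᶠ i in atTop, a (φ (ψ i + N)) ∈ thickening (δ / 2) F₁ :=
      halim.eventually (isOpen_thickening.mem_nhds
        (self_subset_thickening (half_pos hδ) _ ⟨_, hαZ, rfl⟩))
    have ev2 : ∀ᶠ i in atTop, β (ψ i) ∈ thickening δ F₂ :=
      hβlim.eventually (isOpen_thickening.mem_nhds
        (self_subset_thickening hδ _ ⟨_, hβZ, rfl⟩))
    have ev3 : ∀ᶠ i in atTop, ε (φ (ψ i + N)) < δ / 2 := by
      have : Tendsto (fun i => ε (φ (ψ i + N))) atTop (𝓝 0) :=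
        hεlim.comp (hφ.tendsto_atTop.comp ((tendsto_add_atTop_nat N).comp hψ.tendsto_atTop))
      exact (tendsto_order.mp this).2 _ (half_pos hδ)
    obtain ⟨i, h2, h3, h4, h5⟩ := (husc.and (ev1.and (ev2.and ev3))).exists
    have h6 := no_jump (g := g) hδ hd h5 h2 (hβ1 (ψ i)) h3
    exact disjoint_left.mp hd (thickening_mono (by linarith) F₁ h6) h4

/-- **Second part of the main theorem**: a bounded domain of the basin forces unbounded components
of the attractor in the stable leaves. -/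
theorem main_comp [ConnectedSpace X] (h : LP g c) (hX : ULC X) (hA : IsAtt g A)
    {z₀ : X} (hz₀ : z₀ ∉ A) (hz₀B : z₀ ∈ Bas g A) (hz₀b : Bd g A z₀) :
    ∃ a ∈ A, BigComp g c A a := by
  have hc := h.c_pos
  apply bigComp_of_chains h hA
  by_contra hcon
  push Not at hcon
  obtain ⟨e₀, he₀, n, hch⟩ := hcon
  set e := min e₀ (c / 2) with he
  have he0 : 0 < e := lt_min he₀ (half_pos hc)
  have hch' : ∀ a ∈ A, ∀ b, Ch g A e a b → SR g (c / 2) (g^[n] a) (g^[n] b) := by
    intro a ha b hab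
    refine hch a ha b ?_
    exact Relation.ReflTransGen.mono (r := fun x y => y ∈ A ∧ SR g e x y)
      (p := fun x y => y ∈ A ∧ SR g e₀ x y)
      (fun x y hxy => ⟨hxy.1, hxy.2.mono (min_le_left _ _)⟩) a b hab
  obtain ⟨ρ, hρ, h1⟩ := Nb.nhd h hA (e := e / 3) (by linarith) (by
    have : e ≤ c / 2 := min_le_right _ _
    linarith) 0
  obtain ⟨y, hy, hyU, hyb, -⟩ := main_LP h hX hA (U := thickening ρ A) isOpen_thickening
    (self_subset_thickening hρ A) hz₀ hz₀B hz₀b
  refine hyb (Bd.of_chain h hA he0 (min_le_right _ _) hch' (fun w hw => ?_) hy)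
  obtain ⟨a, ha, hwa⟩ := (mem_thickening_iff).mp (hyU hw)
  exact h1 a ha w hwa

end Pool.Agent.H244.Nh
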