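import Mathlib

/-!
# Complementary domains of attractors in stable leaves: definitions
-/

set_option autoImplicit false

open Filter Topology Set

namespace Pool.Agent.H244.NhDef

variable {M : Type*} [TopologicalSpace M]

/-- The images `fⁿ(S)` shrink to the orbit of `z`, uniformly: for every neighbourhood `𝒰` of the
diagonal of `M × M`, all pairs `(fⁿ z, fⁿ w)`, `w ∈ S`, are in `𝒰` for all large `n`.  For an Anosov
diffeomorphism this says that `S` is a bounded subset of the stable leaf `W^s(z)`, in the leaf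
topology. -/
def Shrinks (f : M → M) (z : M) (S : Set M) : Prop :=
  ∀ 𝒰 ∈ 𝓝ˢ (diagonal M), ∀ᶠ n : ℕ in atTop, ∀ w ∈ S, (f^[n] z, f^[n] w) ∈ 𝒰

/-- The component of `z` in `W^s(z) ∖ A`: the points `w` which can be joined to `z` by a path in the
complement of `A` whose images under `fⁿ` shrink. -/
def Dom (f : M → M) (A : Set M) (z : M) : Set M :=
  {w | ∃ γ : Path z w, (∀ t, γ t ∉ A) ∧ Shrinks f z (range γ)}

/-- The union of the continua `K` with `a ∈ K ⊆ A` whose images under `fⁿ` shrink, that is, of the
continua through `a` in `A ∩ W^s(a)`. -/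
def Cont (f : M → M) (A : Set M) (a : M) : Set M :=
  {w | ∃ K : Set M, a ∈ K ∧ w ∈ K ∧ K ⊆ A ∧ IsCompact K ∧ IsConnected K ∧ Shrinks f a K}

end Pool.Agent.H244.NhDef
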