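import Pool.Agent.H244.Nh6
import Pool.Agent.H244.NhDef
import Pool.Graph.R_seed8.TH289.HomMain
import Pool.Graph.R_seed8.TH289.L.Q4

/-!
# Complementary domains of attractors in stable leaves: Anosov diffeomorphisms
-/

set_option autoImplicit false
set_option linter.unusedSectionVars false

open Filter Topology Set Metric
open scoped Manifold ContDiff

namespace Pool.Agent.H244.Nh

open Pool.Agent.H721R2 Pool.Agent.H789R2.AN Pool.Agent.H789R2.GP Pool.Agent.TH289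
  Pool.Agent.H244.NhDef

section metric

variable {X : Type*} [MetricSpace X] [CompactSpace X] {f : X ≃ₜ X} {N : ℕ} {c : ℝ} {A : Set X}

theorem shrinks_dist (f : X → X) (z : X) (S : Set X) : Shrinks f z S ↔
    ∀ ε > 0, ∃ n : ℕ, ∀ m ≥ n, ∀ w ∈ S, dist (f^[m] z) (f^[m] w) < ε := by
  unfold Shrinks
  constructor
  · intro h ε hε
    have h1 := h {p | dist p.1 p.2 < ε} (by
      rw [nhdsSet_diagonal_eq_uniformity]; exact Metric.dist_mem_uniformity hε)
    exact eventually_atTop.mp h1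
  · intro h 𝒰 hU
    rw [nhdsSet_diagonal_eq_uniformity] at hU
    obtain ⟨ε, hε, h1⟩ := Metric.mem_uniformity_dist.mp hU
    obtain ⟨n, hn⟩ := h ε hε
    exact eventually_atTop.mpr ⟨n, fun m hm w hw => h1 (hn m hm w hw)⟩

/-- shrinking under an iterate -/
theorem shrinks_iter (f : X ≃ₜ X) (hN : 1 ≤ N) (z : X) (S : Set X) : Shrinks f z S ↔
    ∀ ε > 0, ∃ n : ℕ, ∀ m ≥ n, ∀ w ∈ S,
      dist ((iterHomeo f N)^[m] z) ((iterHomeo f N)^[m] w) ≤ ε := by
  rw [shrinks_dist]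
  constructor
  · intro h ε hε
    obtain ⟨n, hn⟩ := h ε hε
    refine ⟨n, fun m hm w hw => ?_⟩
    rw [iterHomeo_iter, iterHomeo_iter]
    exact (hn _ (hm.trans (Nat.le_mul_of_pos_left m hN)) w hw).le
  · intro h ε hε
    obtain ⟨η, hη, h1⟩ := T1_unif f N hε
    obtain ⟨n, hn⟩ := h (η / 2) (half_pos hη)
    refine ⟨N * n, fun m hm w hw => ?_⟩
    have hmm : m = m % N + N * (m / N) := (Nat.mod_add_div m N).symm
    have hge : n ≤ m / N := by
      rw [Nat.le_div_iff_mul_le (by omega)]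
      rwa [mul_comm]
    have h2 := hn _ hge w hw
    rw [iterHomeo_iter, iterHomeo_iter] at h2
    have h3 := h1 (m % N) (Nat.mod_lt _ (by omega)).le _ _ (h2.trans_lt (half_lt_self hη))
    rwa [← Function.iterate_add_apply, ← Function.iterate_add_apply, ← hmm] at h3

theorem dom_eq (hN : 1 ≤ N) (h : LP (iterHomeo f N) c) (A : Set X) (z : X) :
    Dom f A z = V (iterHomeo f N) A z := by
  set g := iterHomeo f N with hg
  ext w
  constructor
  · rintro ⟨γ, hγA, hγ⟩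
    rw [shrinks_iter f hN] at hγ
    have hcont : Continuous (fun t => (⟨γ t⟩ : SM g)) := by
      rw [continuous_iff_continuousAt]
      intro t₀
      rw [ContinuousAt, Metric.tendsto_nhds]
      intro ε hε
      obtain ⟨n, hn⟩ := hγ (ε / 4) (by linarith)
      have hev : ∀ᶠ t in 𝓝 t₀, ∀ k ≤ n, dist (g^[k] (γ t)) (g^[k] (γ t₀)) ≤ ε / 2 := by
        obtain ⟨η, hη, h1⟩ := T1_unif g n (half_pos hε)
        have h2 : ∀ᶠ t in 𝓝 t₀, dist (γ t) (γ t₀) < η :=
          Metric.tendsto_nhds.mp (γ.continuous.tendsto t₀) η hη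
        filter_upwards [h2] with t ht k hk
        exact (h1 k hk _ _ ht).le
      filter_upwards [hev] with t ht
      refine lt_of_le_of_lt ((SM.dist_le _ _ (half_pos hε).le).mpr fun k => ?_) (half_lt_self hε)
      rcases le_total k n with hk | hk
      · exact ht k hk
      · have e1 := hn k hk _ (mem_range_self t)
        have e2 := hn k hk _ (mem_range_self t₀)
        have e3 := dist_triangle_left (g^[k] (γ t)) (g^[k] (γ t₀)) (g^[k] z)
        show dist (g^[k] (γ t)) (g^[k] (γ t₀)) ≤ ε / 2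
        linarith
    exact ⟨⟨⟨_, hcont⟩, by simp, by simp⟩, fun t => hγA t⟩
  · rintro ⟨υ, hυ⟩
    have hv : Continuous (fun t => (υ t).val) := (SM.continuous_iter_val 0).comp υ.continuous
    refine ⟨⟨⟨_, hv⟩, by simp, by simp⟩, fun t => hυ t, ?_⟩
    rw [shrinks_iter f hN]
    intro ε hε
    obtain ⟨n, hn⟩ := path_small h υ.toContinuousMap hε
    refine ⟨n, fun m hm w hw => ?_⟩
    obtain ⟨t, rfl⟩ := hw
    have e1 := hn m hm t 0
    have h0 : (υ.toContinuousMap 0).val = z := by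
      show (υ 0).val = z
      rw [υ.source]
    rw [h0] at e1
    exact e1

theorem shrinks_dom (hN : 1 ≤ N) (h : LP (iterHomeo f N) c) (A : Set X) (z : X) :
    Shrinks f z (Dom f A z) ↔ Bd (iterHomeo f N) A z := by
  rw [shrinks_iter f hN, dom_eq hN h]
  rfl

theorem not_shrinks_cont (hN : 1 ≤ N) (h : LP (iterHomeo f N) c) {a : X}
    (hb : BigComp (iterHomeo f N) c A a) : ¬ Shrinks f a (Cont f A a) := by
  intro hS
  rw [shrinks_iter f hN] at hS
  obtain ⟨η, hη, hb⟩ := hb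
  obtain ⟨n, hn⟩ := hS (η / 2) (half_pos hη)
  obtain ⟨K, haK, hKA, hKc, hKconn, hKs, b, hbK, hb⟩ := hb n
  have h1 := hn n le_rfl b ⟨K, haK, hbK, hKA, hKc, hKconn, ?_⟩
  · linarith
  · rw [shrinks_iter f hN]
    intro ε hε
    obtain ⟨m, hm⟩ := pow_tend c hε
    refine ⟨m + n, fun k hk w hw => ?_⟩
    obtain ⟨j, rfl⟩ := Nat.exists_eq_add_of_le' (show n ≤ k by omega)
    rw [Function.iterate_add_apply, Function.iterate_add_apply]
    exact (h.cS _ _ (hKs w hw) j).trans (hm j (by omega)).le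

/-- The main theorem for homeomorphisms with an iterate with local product structure. -/
theorem main_met [ConnectedSpace X] (hN : 1 ≤ N) (h : LP (iterHomeo f N) c) (hX : ULC X)
    (hA : UnstSat f A) (hne : A ≠ univ) :
    (∃ z ∉ A, (∃ a ∈ A, Asym f z a) ∧ ¬ Shrinks f z (Dom f A z)) ∧
    ((∃ z ∉ A, (∃ a ∈ A, Asym f z a) ∧ Shrinks f z (Dom f A z)) →
      (∀ U : Set X, IsOpen U → A ⊆ U → ∃ y ∉ A, Dom f A y ⊆ U ∧ ¬ Shrinks f y (Dom f A y) ∧
        y ∈ closure {z | z ∉ A ∧ Shrinks f z (Dom f A z) ∧ Dom f A z ⊆ U}) ∧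
      ∃ a ∈ A, ¬ Shrinks f a (Cont f A a)) := by
  set g := iterHomeo f N with hg
  have hA' : IsAtt f A := ⟨hA.closed, hA.nonempty, hA.inv, fun x hx y hxy =>
    hA.sat x hx y ((asym_iff f.symm x y).mpr hxy)⟩
  have hAg : IsAtt g A := att_iter hA' hN
  have hbas : ∀ z, (∃ a ∈ A, Asym f z a) ↔ z ∈ Bas g A := fun z =>
    exists_congr fun a => and_congr_right fun _ => (asym_iff f z a).trans (WS_iter_iff f hN z a).symm
  have hset : ∀ U : Set X, {z | z ∉ A ∧ Shrinks f z (Dom f A z) ∧ Dom f A z ⊆ U} =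
      {z | z ∉ A ∧ Bd g A z ∧ V g A z ⊆ U} := by
    intro U
    ext z
    show (z ∉ A ∧ Shrinks f z (Dom f A z) ∧ Dom f A z ⊆ U) ↔ _
    rw [shrinks_dom hN h, dom_eq hN h]
    rfl
  have hpart2 : (∃ z ∉ A, (∃ a ∈ A, Asym f z a) ∧ Shrinks f z (Dom f A z)) →
      (∀ U : Set X, IsOpen U → A ⊆ U → ∃ y ∉ A, Dom f A y ⊆ U ∧ ¬ Shrinks f y (Dom f A y) ∧
        y ∈ closure {z | z ∉ A ∧ Shrinks f z (Dom f A z) ∧ Dom f A z ⊆ U}) ∧
      ∃ a ∈ A, ¬ Shrinks f a (Cont f A a) := by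
    rintro ⟨z₀, hz₀, hz₀B, hz₀b⟩
    rw [hbas] at hz₀B
    rw [shrinks_dom hN h] at hz₀b
    constructor
    · intro U hU hAU
      obtain ⟨y, h1, h2, h3, h4⟩ := main_LP h hX hAg hU hAU hz₀ hz₀B hz₀b
      refine ⟨y, h1, ?_, ?_, ?_⟩
      · rwa [dom_eq hN h]
      · rwa [shrinks_dom hN h]
      · rwa [hset]
    · obtain ⟨a, ha, h1⟩ := main_comp h hX hAg hz₀ hz₀B hz₀b
      exact ⟨a, ha, not_shrinks_cont hN h h1⟩
  refine ⟨?_, hpart2⟩
  -- an unbounded domain
  by_contra hcon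
  push Not at hcon
  have hopen := isOpen_bas h hAg
  have hsub := subset_bas g A
  -- a point of the basin outside `A`
  have hex : ∃ z ∈ Bas g A, z ∉ A := by
    by_contra hno
    push Not at hno
    have : A = Bas g A := Subset.antisymm hsub hno
    have hop : IsOpen A := by rw [this]; exact hopen
    exact hne (IsClopen.eq_univ ⟨hA.closed, hop⟩ hA.nonempty)
  obtain ⟨z, hzB, hzA⟩ := hex
  have h1 := hcon z hzA ((hbas z).mpr hzB)
  obtain ⟨y, hy, hyU, hyb, -⟩ := (hpart2 ⟨z, hzA, (hbas z).mpr hzB, h1⟩).1 _ hopen hsub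
  have hyD : y ∈ Dom f A y := by
    rw [dom_eq hN h]; exact V.self hy
  exact hyb (hcon y hy ((hbas y).mpr (hyU hyD)))

end metric

section manifold

variable {E : Type*} [NormedAddCommGroup E] [NormedSpace ℝ E] [FiniteDimensional ℝ E]
  {M : Type*} [TopologicalSpace M] [T2Space M] [CompactSpace M] [ConnectedSpace M]
  [ChartedSpace E M] [IsManifold 𝓘(ℝ, E) ∞ M]

theorem main (f : Diffeomorph 𝓘(ℝ, E) 𝓘(ℝ, E) M M 1)
    (Es Eu : ∀ x : M, Submodule ℝ (TangentSpace 𝓘(ℝ, E) x)) (hf : IsAnosov f Es Eu) :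
    (∀ A : Set M, UnstSat f.toHomeomorph A → A ≠ univ →
      (∃ z ∉ A, (∃ a ∈ A, Asym f z a) ∧ ¬ Shrinks f z (Dom f A z)) ∧
      ((∃ z ∉ A, (∃ a ∈ A, Asym f z a) ∧ Shrinks f z (Dom f A z)) →
        (∀ U : Set M, IsOpen U → A ⊆ U → ∃ y ∉ A, Dom f A y ⊆ U ∧ ¬ Shrinks f y (Dom f A y) ∧
          y ∈ closure {z | z ∉ A ∧ Shrinks f z (Dom f A z) ∧ Dom f A z ⊆ U}) ∧
        ∃ a ∈ A, ¬ Shrinks f a (Cont f A a))) ∧
    ((∀ A : Set M, UnstSat f.toHomeomorph A → A ≠ univ →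
        ∃ A' ⊆ A, UnstSat f.toHomeomorph A' ∧
          (∃ z ∉ A', (∃ a ∈ A', Asym f z a) ∧ Shrinks f z (Dom f A' z)) ∧
          ∀ a ∈ A', Shrinks f a (Cont f A' a)) → TopTransitive f) := by
  obtain ⟨m, ee, hee, hemb, hinje⟩ :=
    exists_embedding_euclidean_of_compact (I := 𝓘(ℝ, E)) (M := M)
  let _ : MetricSpace M := hemb.isEmbedding.comapMetricSpace ee
  have hiso : ∀ x y : M, dist x y = ‖ee x - ee y‖ := fun x y => dist_eq_norm (ee x) (ee y)
  have he1 : ContMDiff 𝓘(ℝ, E) (𝓡 m) 1 ee := hee.of_le (by simp)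
  obtain ⟨N, ⟨S, hSg, -, -, -⟩, hN⟩ :=
    ((exists_sys_ev hiso he1 hinje f Es Eu hf).and (eventually_ge_atTop 1)).exists
  obtain ⟨c, hLP⟩ := exists_LP S
  rw [hSg] at hLP
  have hX : ULC M := ulc_of_charted (X := M) (E := E)
  have hmain := fun (A : Set M) (hA : UnstSat f.toHomeomorph A) (hne : A ≠ univ) =>
    main_met hN hLP hX hA hne
  refine ⟨fun A hA hne => hmain A hA hne, fun hcrit => ?_⟩
  refine Pool.Agent.TH289.L.man_nw f Es Eu hf ?_
  refine Pool.Agent.TH289.L.nw_of_unique S hN hSg (fun A hA => ?_)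
  by_contra hne
  have hA' : UnstSat f.toHomeomorph A := ⟨hA.closed, hA.nonempty, hA.inv, fun x hx y hxy =>
    hA.sat x hx y ((asym_iff f.toHomeomorph.symm x y).mp hxy)⟩
  obtain ⟨B, hBA, hB, hz, hcomp⟩ := hcrit A hA' hne
  have hBne : B ≠ univ := fun h => hne (univ_subset_iff.mp (h ▸ hBA))
  obtain ⟨a, ha, h1⟩ := ((hmain B hB hBne).2 hz).2
  exact h1 (hcomp a ha)

end manifold

end Pool.Agent.H244.Nh
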