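import Pool.Agent.H244.Nh6
import Pool.Graph.R_seed8.TH289.AttInj

/-!
# Newhouse's theorem for homeomorphisms with local product structure
-/

set_option autoImplicit false
set_option linter.unusedSectionVars false

open Filter Topology Set Metric unitInterval

namespace Pool.Agent.H244.Nh

open Pool.Agent.H721R2 Pool.Agent.H789R2.AN Pool.Agent.H789R2.GP Pool.Agent.TH289

variable {X : Type*} [MetricSpace X] [CompactSpace X] {g : X ≃ₜ X} {c : ℝ} {A : Set X}

/-- Small stable plaques embed in the line. -/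
def Emb1 (g : X ≃ₜ X) (δ : ℝ) : Prop :=
  ∀ x, ∃ φ : X → ℝ, ContinuousOn φ {y | SR g δ x y} ∧ InjOn φ {y | SR g δ x y}

theorem interior_inv (hA : IsAtt g A) (n : ℕ) (x : X) : g^[n] x ∈ interior A ↔ x ∈ interior A := by
  have h1 : ∀ x, g x ∈ interior A ↔ x ∈ interior A := by
    intro x
    have e1 : g ⁻¹' A = A := by
      ext y; exact hA.inv y
    have e2 := g.preimage_interior A
    rw [e1] at e2
    rw [← mem_preimage, e2]
  exact inv_iter h1 n x

/-- Saturation of small stable plaques. -/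
theorem ball_sub_of_plaque (h : LP g c) (hA : IsAtt g A) {r : ℝ} (hr : 0 < r) : ∃ ρ > 0, ∀ x,
    (∀ y, SR g r x y → y ∈ A) → ball x ρ ⊆ A := by
  obtain ⟨ρ, hρ, h1⟩ := h.lp (min r c) (lt_min hr h.c_pos)
  refine ⟨ρ, hρ, fun x hx y hy => ?_⟩
  obtain ⟨z, h2, h3⟩ := h1 x y (mem_ball'.mp hy)
  exact hA.sat z (hx z (h2.mono (min_le_left _ _))) y
    (WS.of_SR (h.cU _ _ (h3.mono (min_le_right _ _)))).symm'

/-- A minimal attractor with interior points is everything. -/
theorem univ_of_interior [ConnectedSpace X] (h : LP g c) (hA : MinAtt g A)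
    (hint : (interior A).Nonempty) : A = univ := by
  have hc := h.c_pos
  have hLP1 : LP (iterHomeo g 1) c := by
    have : iterHomeo g 1 = g := by ext x; rfl
    rwa [this]
  have hop : A ⊆ interior A := by
    intro x hx
    have hatt := att_omega (f := g) le_rfl hLP1 x
    set S : Set X := {w | ∃ y, MapClusterPt y atTop (fun n : ℕ => g^[n] x) ∧ WS g.symm y w} with hS
    have hSA : closure S ⊆ A := by
      refine closure_minimal ?_ hA.1.closed
      rintro w ⟨y, hy, hyw⟩
      refine hA.1.sat y ?_ w hyw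
      have h1 : ∀ᶠ n : ℕ in atTop, g^[n] x ∈ A :=
        Eventually.of_forall fun n => (inv_iter hA.1.inv n x).mpr hx
      exact hA.1.closed.mem_of_mapClusterPt hy h1
    have hAS := hA.2 _ hatt hSA
    obtain ⟨p, hp⟩ := hint
    obtain ⟨w, hw, y, hy, hyw⟩ := mem_closure_iff.mp (hAS (interior_subset hp)) _ isOpen_interior hp
    obtain ⟨r, hr, hball⟩ := Metric.isOpen_iff.mp isOpen_interior w hw
    obtain ⟨ρ, hρ, h2⟩ := ball_sub_of_plaque h hA.1 hc
    obtain ⟨m₁, hm₁⟩ := pow_tend c hr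
    obtain ⟨m₂, hm₂⟩ := hyw.eventually_lt hρ
    set m := max m₁ m₂ with hm
    have h3 : ball (g.symm^[m] w) ρ ⊆ A := h2 _ fun q hq => by
      have e1 := h.cS _ _ hq m
      rw [iterR] at e1
      have e2 : g^[m] q ∈ interior A := hball (mem_ball'.mpr (e1.trans_lt (hm₁ m (le_max_left _ _))))
      exact interior_subset ((interior_inv hA.1 m q).mp e2)
    have h4 : g.symm^[m] y ∈ interior A :=
      interior_maximal h3 isOpen_ball (mem_ball.mpr (hm₂ m (le_max_right _ _)))
    have h5 : y ∈ interior A := by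
      have := (interior_inv hA.1 m _).mpr h4
      rwa [iterR] at this
    have h6 := (mapClusterPt_iff_frequently.mp hy) (interior A) (isOpen_interior.mem_nhds h5)
    obtain ⟨n, hn⟩ := h6.exists
    exact (interior_inv hA.1 n x).mp hn
  have h1 : IsOpen A := by
    rw [← subset_interior_iff_isOpen]
    exact hop
  exact IsClopen.eq_univ ⟨hA.1.closed, h1⟩ hA.1.nonempty

/-- No arcs of a proper minimal attractor in small stable plaques which embed in the line. -/
theorem subsingleton_of_emb [ConnectedSpace X] (h : LP g c) (hA : MinAtt g A) (hne : A ≠ univ)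
    {δ : ℝ} (hδ : 0 < δ) {x : X} {φ : X → ℝ} (hφ : ContinuousOn φ {y | SR g δ x y})
    (hinj : InjOn φ {y | SR g δ x y}) {K : Set X} (hKA : K ⊆ A) (hKc : IsPreconnected K)
    (hKx : ∀ y ∈ K, SR g (δ / 2) x y) : K.Subsingleton := by
  have hKδ : K ⊆ {y | SR g δ x y} := fun y hy => (hKx y hy).mono (by linarith)
  have himg : IsPreconnected (φ '' K) := hKc.image φ (hφ.mono hKδ)
  have key : ∀ p ∈ K, ∀ q ∈ K, φ p < φ q → False := by
    intro p hp q hq hpq
    have hsub : Icc (φ p) (φ q) ⊆ φ '' K :=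
      himg.Icc_subset ⟨p, hp, rfl⟩ ⟨q, hq, rfl⟩
    obtain ⟨x', hx', hφx'⟩ := hsub (⟨by linarith, by linarith⟩ :
      (φ p + φ q) / 2 ∈ Icc (φ p) (φ q))
    have h1 := hφ x' (hKδ hx')
    rw [Metric.continuousWithinAt_iff] at h1
    obtain ⟨ρ, hρ, h2⟩ := h1 ((φ q - φ p) / 2) (by linarith)
    obtain ⟨ρ', hρ', h3⟩ := ball_sub_of_plaque h hA.1 (r := min (δ / 2) (ρ / 2)) (by positivity)
    have h4 : ball x' ρ' ⊆ A := h3 x' fun y hy => by
      have e1 : SR g δ x y := (SR.tri (hKx x' hx') hy).mono (by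
        have := min_le_left (δ / 2) (ρ / 2); linarith)
      have e2 : dist y x' < ρ := by
        have := sd hy
        have := min_le_right (δ / 2) (ρ / 2)
        rw [dist_comm]; linarith
      have e3 := h2 e1 e2
      rw [hφx', Real.dist_eq, abs_lt] at e3
      obtain ⟨y', hy', he⟩ := hsub (⟨by linarith, by linarith⟩ : φ y ∈ Icc (φ p) (φ q))
      rw [← hinj (hKδ hy') e1 he]
      exact hKA hy'
    exact hne (univ_of_interior h hA ⟨x', interior_maximal h4 isOpen_ball (mem_ball_self hρ')⟩)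
  intro p hp q hq
  by_contra hpq
  rcases lt_trichotomy (φ p) (φ q) with hlt | heq | hlt
  · exact key p hp q hq hlt
  · exact hpq (hinj (hKδ hp) (hKδ hq) heq)
  · exact key q hq p hp hlt

/-- An attractor whose traces on small stable plaques are points is finite. -/
theorem finite_of_iso (h : LP g c) (hA : IsAtt g A) {δ : ℝ} (hδ : 0 < δ)
    (hiso : ∀ a ∈ A, ∀ a' ∈ A, SR g δ a a' → a = a') : A.Finite := by
  by_contra hinf
  obtain ⟨η, hη, h1⟩ := h.lp (min δ c) (lt_min hδ h.c_pos)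
  have hcl : ∀ a ∈ A, ∀ a' ∈ A, dist a a' < η → SR g.symm c a a' := by
    intro a ha a' ha' hd
    obtain ⟨z, h2, h3⟩ := h1 a a' hd
    have hz : z ∈ A := hA.sat a' ha' z (WS.of_SR (h.cU _ _ (h3.mono (min_le_right _ _))))
    have := hiso a ha z hz (h2.mono (min_le_left _ _))
    rw [this]
    exact (h3.mono (min_le_right _ _)).symm'
  obtain ⟨t, -, htf, htc⟩ := finite_cover_balls_of_compact (isCompact_univ (X := X)) (half_pos hη)
  obtain ⟨s, hsW, hscard⟩ := (not_finite.mp hinf : A.Infinite).exists_subset_card_eq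
    (htf.toFinset.card + 1)
  obtain ⟨μ, hμ, hμ'⟩ : ∃ μ > 0, ∀ v ∈ s, ∀ v' ∈ s, v ≠ v' → μ ≤ dist v v' := by
    classical
    rcases (s.offDiag).eq_empty_or_nonempty with he | hne
    · refine ⟨1, one_pos, fun v hv v' hv' hvv' => ?_⟩
      have : (v, v') ∈ s.offDiag := Finset.mem_offDiag.mpr ⟨hv, hv', hvv'⟩
      rw [he] at this
      simp at this
    · obtain ⟨b, hb, hmin⟩ := s.offDiag.exists_min_image (fun b => dist b.1 b.2) hne
      refine ⟨dist b.1 b.2, dist_pos.mpr (Finset.mem_offDiag.mp hb).2.2, fun v hv v' hv' hvv' => ?_⟩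
      exact hmin (v, v') (Finset.mem_offDiag.mpr ⟨hv, hv', hvv'⟩)
  obtain ⟨n, hn⟩ := pow_tend c hμ
  have hcen : ∀ v ∈ s, ∃ x ∈ htf.toFinset, g^[n] v ∈ ball x (η / 2) := fun v _ => by
    have h1 := htc (mem_univ (g^[n] v))
    rw [mem_iUnion₂] at h1
    obtain ⟨x, hx, hux⟩ := h1
    exact ⟨x, htf.mem_toFinset.mpr hx, hux⟩
  choose! x hxt hux using hcen
  obtain ⟨v, hv, v', hv', hvv', he⟩ := Finset.exists_ne_map_eq_of_card_lt_of_maps_to
    (by rw [hscard]; exact Nat.lt_succ_self _) hxt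
  have e1 : dist (g^[n] v) (g^[n] v') < η := by
    have a1 := mem_ball.mp (hux v hv)
    have a2 := mem_ball.mp (hux v' hv')
    rw [← he] at a2
    have a3 := dist_triangle_right (g^[n] v) (g^[n] v') (x v)
    linarith
  have e2 := h.cU _ _ (hcl _ ((inv_iter hA.inv n v).mpr (hsW hv)) _
    ((inv_iter hA.inv n v').mpr (hsW hv')) e1) n
  rw [iterL, iterL] at e2
  have e3 := hμ' v hv v' hv' hvv'
  have e4 := hn n le_rfl
  linarith

/-- a path in a leaf starting at an isolated point of the leaf is constant -/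
theorem leaf_iso (h : LP g c) (hX : ULC X) {w y : X} (hwy : WS g w y) {r : ℝ} (hr : 0 < r)
    (hiso : ∀ q, SR g r w q → q = w) : y = w := by
  obtain ⟨υ, h0, h1⟩ := leaf_conn h hX w y hwy
  have h2 : (1 : I) ∈ {t : I | υ t = ⟨w⟩} := by
    refine clop h0 (isClosed_singleton.preimage υ.continuous) ?_
    have : IsOpen ({⟨w⟩} : Set (SM g)) := by
      rw [Metric.isOpen_iff]
      rintro q rfl
      refine ⟨r, hr, fun q' hq' => ?_⟩
      have := hiso q'.val ((SM.dist_le _ _ hr.le).mp (mem_ball'.mp hq').le)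
      exact SM.ext this
    exact this.preimage υ.continuous
  have h3 : υ 1 = ⟨w⟩ := h2
  rw [h1] at h3
  exact congrArg SM.val h3

/-- An attractor whose traces on small stable plaques are points is everything. -/
theorem univ_of_iso [ConnectedSpace X] (h : LP g c) (hX : ULC X) (hA : IsAtt g A) {δ : ℝ}
    (hδ : 0 < δ) (hiso : ∀ a ∈ A, ∀ a' ∈ A, SR g δ a a' → a = a') : A = univ := by
  have hc := h.c_pos
  have hfin := finite_of_iso h hA hδ hiso
  -- the unstable leaves of `A` are points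
  obtain ⟨μ, hμ, hμ'⟩ : ∃ μ > 0, ∀ v ∈ A, ∀ v' ∈ A, v ≠ v' → μ ≤ dist v v' := by
    classical
    rcases (hfin.toFinset.offDiag).eq_empty_or_nonempty with he | hne
    · refine ⟨1, one_pos, fun v hv v' hv' hvv' => ?_⟩
      have : (v, v') ∈ hfin.toFinset.offDiag := Finset.mem_offDiag.mpr
        ⟨hfin.mem_toFinset.mpr hv, hfin.mem_toFinset.mpr hv', hvv'⟩
      rw [he] at this
      simp at this
    · obtain ⟨b, hb, hmin⟩ := hfin.toFinset.offDiag.exists_min_image (fun b => dist b.1 b.2) hne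
      refine ⟨dist b.1 b.2, dist_pos.mpr (Finset.mem_offDiag.mp hb).2.2, fun v hv v' hv' hvv' => ?_⟩
      exact hmin (v, v') (Finset.mem_offDiag.mpr
        ⟨hfin.mem_toFinset.mpr hv, hfin.mem_toFinset.mpr hv', hvv'⟩)
  have hU : ∀ a ∈ A, ∀ q, WS g.symm a q → q = a := by
    intro a ha q haq
    refine leaf_iso h.symm hX haq (r := min (μ / 2) c) (by positivity) fun q' hq' => ?_
    have hq'A : q' ∈ A := hA.sat a ha q' (WS.of_SR (h.cU _ _ (hq'.mono (min_le_right _ _))))
    by_contra hne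
    have e1 := hμ' q' hq'A a ha hne
    have e2 := sd hq'
    have e3 := min_le_left (μ / 2) c
    rw [dist_comm] at e1
    linarith
  -- near `A` the unstable plaques are points
  obtain ⟨ρ, hρ, h1⟩ := h.lp (c / 2) (half_pos hc)
  have hnear : ∀ a ∈ A, ∀ x, dist x a < ρ → SR g (c / 2) x a := by
    intro a ha x hx
    obtain ⟨z, h2, h3⟩ := h1 x a hx
    have := hU a ha z (WS.of_SR (h.cU _ _ (h3.mono (by linarith))))
    rwa [this] at h2
  set r := min (ρ / 2) c with hr
  have hr0 : 0 < r := by positivity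
  have hpt : ∀ a ∈ A, ∀ x, dist x a < ρ / 2 → ∀ q, SR g.symm r x q → q = x := by
    intro a ha x hx q hq
    have e1 : dist q a < ρ := by
      have e2 := sd hq
      have e3 : r ≤ ρ / 2 := min_le_left _ _
      have e4 := dist_triangle_left q a x
      linarith
    have e2 : SR g c x q := (SR.tri (hnear a ha x (by linarith)) (hnear a ha q e1).symm').mono
      (by linarith)
    exact (Pool.Agent.H789R2.GP.expansive h e2 (hq.mono (min_le_right _ _))).symm
  -- in the basin the unstable leaves are points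
  have hbas : ∀ w ∈ Bas g A, ∀ q, WS g.symm w q → q = w := by
    rintro w ⟨a, ha, hwa⟩ q hwq
    obtain ⟨n, hn⟩ := hwa.eventually_lt (half_pos hρ)
    obtain ⟨r', hr', h2⟩ := SR.back g.symm n r hr0
    refine leaf_iso h.symm hX hwq hr' fun q' hq' => ?_
    have e1 := h2 w q' hq'
    have e2 := hpt (g^[n] a) ((inv_iter hA.inv n a).mpr ha) (g^[n] w) (hn n le_rfl) (g^[n] q') e1
    exact (g.injective.iterate n) e2
  have hclosed : IsClosed (Bas g A) := by
    refine isClosed_of_closure_subset fun y hy => ?_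
    obtain ⟨ρ', hρ', h2⟩ := h.lp c hc
    obtain ⟨z, hz, hyz⟩ := Metric.mem_closure_iff.mp hy ρ' hρ'
    rw [dist_comm] at hyz
    obtain ⟨w, h3, h4⟩ := h2 z y hyz
    have hw : w ∈ Bas g A := by
      obtain ⟨a, ha, hza⟩ := hz
      exact ⟨a, ha, (WS.of_SR (h.cS _ _ h3)).symm'.trans hza⟩
    have := hbas w hw y (WS.of_SR (h.cU _ _ h4)).symm'
    rwa [this]
  have hu : Bas g A = univ := IsClopen.eq_univ ⟨hclosed, isOpen_bas h hA⟩
    (hA.nonempty.mono (subset_bas g A))
  rw [eq_univ_iff_forall]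
  intro z
  by_contra hz
  obtain ⟨w, hw, -⟩ := exists_repeller h hA hz
  exact hw (by rw [hu]; trivial)

/-- **Newhouse's theorem** for homeomorphisms with local product structure. -/
theorem newhouse_LP [ConnectedSpace X] (h : LP g c) (hX : ULC X) {δ : ℝ} (hδ : 0 < δ)
    (hE : Emb1 g δ) : ∀ A, IsAtt g A → A = univ := by
  intro A₀ hA₀
  by_contra hne₀
  have hc := h.c_pos
  obtain ⟨A, hAA, hA⟩ := exists_minAtt hA₀
  have hne : A ≠ univ := fun he => hne₀ (univ_subset_iff.mp (he ▸ hAA))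
  -- two points of `A` in a small plaque
  set ε := min (δ / 2) c with hε
  have hε0 : 0 < ε := by positivity
  obtain ⟨η, hη, hpath⟩ := leaf_path h hX ε hε0
  obtain ⟨a, ha, b, hb, hab, hneab⟩ : ∃ a ∈ A, ∃ b ∈ A, SR g η a b ∧ a ≠ b := by
    by_contra hno
    push Not at hno
    exact hne (univ_of_iso h hX hA.1 hη fun a ha b hb hab => hno a ha b hb hab)
  obtain ⟨υ, h0, h1, h2⟩ := hpath ⟨a⟩ ⟨b⟩ ((SM.dist_le _ _ hη.le).mpr hab)
  have hv : Continuous (fun t => (υ t).val) := (SM.continuous_iter_val 0).comp υ.continuous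
  set Γ : Set X := range (fun t => (υ t).val) with hΓ
  have hΓc : IsCompact Γ := isCompact_range hv
  have hΓsm : ∀ y ∈ Γ, SR g ε a y := by
    rintro _ ⟨t, rfl⟩
    exact (SM.dist_le _ _ hε0.le).mp (h2 t)
  have haΓ : a ∈ Γ := ⟨0, by show (υ 0).val = a; rw [h0]⟩
  have hbΓ : b ∈ Γ := ⟨1, by show (υ 1).val = b; rw [h1]⟩
  have hΓconn : IsPreconnected Γ := isPreconnected_range hv
  obtain ⟨φ₀, hφ₀, hinj₀⟩ := hE a
  have hab' : φ₀ a ≠ φ₀ b := fun he =>
    hneab (hinj₀ (SR.self g hδ.le a) ((hΓsm b hbΓ).mono (by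
      have := min_le_left (δ / 2) c; linarith)) he)
  -- orient `φ`
  obtain ⟨φ, hφ, hinj, hlt⟩ : ∃ φ : X → ℝ, ContinuousOn φ {y | SR g δ a y} ∧
      InjOn φ {y | SR g δ a y} ∧ φ a < φ b := by
    rcases lt_or_gt_of_ne hab' with h3 | h3
    · exact ⟨φ₀, hφ₀, hinj₀, h3⟩
    · refine ⟨fun x => - φ₀ x, hφ₀.neg, fun x hx y hy hxy => hinj₀ hx hy (neg_injective hxy), ?_⟩
      show - φ₀ a < - φ₀ b
      linarith
  have hΓδ : ∀ y ∈ Γ, SR g (δ / 2) a y := fun y hy => (hΓsm y hy).mono (min_le_left _ _)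
  have hΓδ' : Γ ⊆ {y | SR g δ a y} := fun y hy => (hΓδ y hy).mono (by linarith)
  have himg : Icc (φ a) (φ b) ⊆ φ '' Γ :=
    (hΓconn.image φ (hφ.mono hΓδ')).Icc_subset ⟨a, haΓ, rfl⟩ ⟨b, hbΓ, rfl⟩
  -- the arc between `a` and `b`
  set K : Set X := Γ ∩ φ ⁻¹' Icc (φ a) (φ b) with hK
  have hKconn : IsPreconnected K := by
    -- `K` is the image of the interval under the inverse of `φ`
    have hφΓ : ContinuousOn φ Γ := hφ.mono hΓδ'
    have hKc : IsCompact K := by
      have : IsClosed K := hφΓ.preimage_isClosed_of_isClosed hΓc.isClosed isClosed_Icc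
      exact this.isCompact
    rw [isPreconnected_closed_iff]
    intro s t hs ht hst hKs hKt
    by_contra hemp
    have hK1 : φ '' K = Icc (φ a) (φ b) := by
      ext r
      constructor
      · rintro ⟨y, hy, rfl⟩; exact hy.2
      · intro hr
        obtain ⟨y, hy, rfl⟩ := himg hr
        exact ⟨y, ⟨hy, hr⟩, rfl⟩
    have hφK : ContinuousOn φ K := hφΓ.mono inter_subset_left
    have hcs : IsClosed (φ '' (K ∩ s)) :=
      ((hKc.inter_right hs).image_of_continuousOn (hφK.mono inter_subset_left)).isClosed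
    have hct : IsClosed (φ '' (K ∩ t)) :=
      ((hKc.inter_right ht).image_of_continuousOn (hφK.mono inter_subset_left)).isClosed
    have hcov : Icc (φ a) (φ b) ⊆ φ '' (K ∩ s) ∪ φ '' (K ∩ t) := by
      rw [← hK1, ← image_union, ← inter_union_distrib_left]
      rintro _ ⟨y, hy, rfl⟩
      exact ⟨y, ⟨hy, hst hy⟩, rfl⟩
    have hpc := (isPreconnected_closed_iff.mp (isPreconnected_Icc (a := φ a) (b := φ b)))
      _ _ hcs hct hcov (by
        obtain ⟨y, hy⟩ := hKs
        exact ⟨φ y, by rw [← hK1]; exact ⟨y, hy.1, rfl⟩, y, hy, rfl⟩) (by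
        obtain ⟨y, hy⟩ := hKt
        exact ⟨φ y, by rw [← hK1]; exact ⟨y, hy.1, rfl⟩, y, hy, rfl⟩)
    obtain ⟨r, -, ⟨y, hy, hyr⟩, ⟨y', hy', hyr'⟩⟩ := hpc
    have he : y = y' := hinj (hΓδ' hy.1.1) (hΓδ' hy'.1.1) (hyr.trans hyr'.symm)
    subst he
    exact hemp ⟨y, hy.1, hy.2, hy'.2⟩
  obtain ⟨z, hzK, hzA⟩ : ∃ z ∈ K, z ∉ A := by
    by_contra hno
    push Not at hno
    have := subsingleton_of_emb h hA hne hδ hφ hinj (K := K) hno hKconn (fun y hy => hΓδ y hy.1)
    exact hneab (this ⟨haΓ, ⟨le_rfl, hlt.le⟩⟩ ⟨hbΓ, ⟨hlt.le, le_rfl⟩⟩)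
  have hz1 : φ a < φ z := lt_of_le_of_ne hzK.2.1 fun he =>
    hzA (hinj (SR.self g hδ.le a) (hΓδ' hzK.1) he ▸ ha)
  have hz2 : φ z < φ b := lt_of_le_of_ne hzK.2.2 fun he =>
    hzA (hinj (hΓδ' hzK.1) (hΓδ' hbΓ) he ▸ hb)
  -- the domain of `z` is contained in the arc
  have hVΓ : ∀ w ∈ V g A z, w ∈ Γ := by
    intro w hw
    obtain ⟨κ, hκ⟩ := id hw
    have hκv : Continuous (fun t => (κ t).val) := (SM.continuous_iter_val 0).comp κ.continuous
    have h3 : (1 : I) ∈ {t : I | (κ t).val ∈ Γ ∧ φ (κ t).val ∈ Ioo (φ a) (φ b)} := by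
      refine clop ⟨?_, ?_⟩ ?_ ?_
      · rw [κ.source]; exact hzK.1
      · rw [κ.source]; exact ⟨hz1, hz2⟩
      · -- closed
        have e1 : {t : I | (κ t).val ∈ Γ ∧ φ (κ t).val ∈ Ioo (φ a) (φ b)} =
            (fun t => (κ t).val) ⁻¹' K := by
          ext t
          constructor
          · rintro ⟨h3, h4⟩; exact ⟨h3, Ioo_subset_Icc_self h4⟩
          · rintro ⟨h3, h4⟩
            refine ⟨h3, lt_of_le_of_ne h4.1 fun he => ?_, lt_of_le_of_ne h4.2 fun he => ?_⟩
            · have e2 : a = (κ t).val := hinj (SR.self g hδ.le a) (hΓδ' h3) he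
              exact hκ t (show (κ t).val ∈ A by rw [← e2]; exact ha)
            · have e2 : (κ t).val = b := hinj (hΓδ' h3) (hΓδ' hbΓ) he
              exact hκ t (show (κ t).val ∈ A by rw [e2]; exact hb)
        rw [e1]
        have hKcl : IsClosed K :=
          (hφ.mono hΓδ').preimage_isClosed_of_isClosed hΓc.isClosed isClosed_Icc
        exact hKcl.preimage hκv
      · -- open
        rw [isOpen_iff_mem_nhds]
        rintro t ⟨h3, h4⟩
        have h5 := hφ _ (hΓδ' h3)
        rw [Metric.continuousWithinAt_iff] at h5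
        set m := min (φ (κ t).val - φ a) (φ b - φ (κ t).val) with hm
        have hm0 : 0 < m := lt_min (by linarith [h4.1]) (by linarith [h4.2])
        obtain ⟨ρ, hρ, h6⟩ := h5 m hm0
        have hnb : ∀ᶠ t' in 𝓝 t, dist (κ t') (κ t) < min (δ / 2) ρ :=
          Metric.tendsto_nhds.mp (κ.continuous.tendsto t) _ (by positivity)
        filter_upwards [hnb] with t' ht'
        have e1 : SR g (δ / 2) (κ t).val (κ t').val :=
          (SM.dist_le _ _ (by linarith)).mp
            (by rw [dist_comm]; exact (ht'.trans_le (min_le_left _ _)).le)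
        have e2 : SR g δ a (κ t').val := (SR.tri (hΓδ _ h3) e1).mono (by linarith)
        have e3 : dist (κ t').val (κ t).val < ρ :=
          lt_of_le_of_lt (SM.dist_iter_le (κ t') (κ t) 0) (ht'.trans_le (min_le_right _ _))
        have e4 := h6 e2 e3
        rw [Real.dist_eq, abs_lt] at e4
        have e5 : m ≤ φ (κ t).val - φ a := min_le_left _ _
        have e6 : m ≤ φ b - φ (κ t).val := min_le_right _ _
        have e7 : φ (κ t').val ∈ Ioo (φ a) (φ b) := ⟨by linarith, by linarith⟩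
        obtain ⟨y, hy, hyφ⟩ := himg (Ioo_subset_Icc_self e7)
        rw [hinj (hΓδ' hy) e2 hyφ] at hy
        exact ⟨hy, e7⟩
    have h4 := h3.1
    rwa [κ.target] at h4
  have hBd : Bd g A z := by
    refine Bd.of_small h hA.1 (n := 1) fun w hw => ?_
    have e1 : g.symm^[1] w ∈ V g A z := by
      have := V.iter_symm hA.1 hw 1
      rwa [iterL] at this
    have e2 : SR g ε (g^[1] a) w := by
      have := SR.iter (hΓsm _ (hVΓ _ e1)) 1
      rwa [iterR] at this
    have e3 : SR g ε (g^[1] a) (g^[1] z) := SR.iter (hΓsm _ hzK.1) 1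
    -- the first iterate halves the sizes
    have e4 := SR.contr h ((hΓsm _ (hVΓ _ e1)).mono (min_le_right _ _)) 1
    rw [iterR] at e4
    have e5 := SR.contr h ((hΓsm _ hzK.1).mono (min_le_right _ _)) 1
    refine (SR.tri e5.symm' e4).mono ?_
    norm_num
    linarith
  have hzB : z ∈ Bas g A := ⟨a, ha, (WS.of_SR (h.cS _ _ ((hΓsm _ hzK.1).mono
    (min_le_right _ _)))).symm'⟩
  -- large components are impossible
  obtain ⟨x, hx, η', hη', hbig⟩ := main_comp h hX hA.1 hzA hzB hBd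
  obtain ⟨m, hm⟩ := pow_tend c (half_pos hδ)
  obtain ⟨K', hxK, hK'A, hK'c, hK'conn, hK's, y, hyK, hy⟩ := hbig 0
  obtain ⟨ψ, hψ, hψi⟩ := hE (g^[m] x)
  have hsub : (g^[m] '' K').Subsingleton := by
    refine subsingleton_of_emb h hA hne hδ hψ hψi ?_ (hK'conn.isPreconnected.image _
      (g.continuous.iterate m).continuousOn) ?_
    · rintro _ ⟨p, hp, rfl⟩
      exact (inv_iter hA.1.inv m p).mpr (hK'A hp)
    · rintro _ ⟨p, hp, rfl⟩
      exact (SR.contr h (hK's p hp) m).mono (hm m le_rfl).le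
  have he := (g.injective.iterate m) (hsub ⟨x, hxK, rfl⟩ ⟨y, hyK, rfl⟩)
  rw [he] at hy
  have : dist (g^[0] y) (g^[0] y) = 0 := dist_self _
  linarith

end Pool.Agent.H244.Nh
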