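import Pool.Agent.H244.Nw7
import Pool.Graph.R_pool_sql_team_seeded_b0a926ef.R189.PF

/-!
# The tangent spaces of the fibres split over transitive bases
-/

set_option autoImplicit false
set_option linter.unusedSectionVars false

open Filter Topology Set Metric
open scoped Manifold ContDiff

namespace Pool.Agent.H244.Nh

open Pool.Agent.H721R2 Pool.Agent.H789R2.AN Pool.Agent.H789R2.GP Pool.Agent.TH289
  Pool.Agent.TH289.K Pool.Agent.R189.Sf Pool.Agent.R189.Fb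

section lin

variable {F : Type*} [NormedAddCommGroup F] [InnerProductSpace ℝ F] [FiniteDimensional ℝ F]

/-- Vectors close to two subspaces and orthogonal to their intersection vanish. -/
theorem near_inter (V W : Submodule ℝ F) :
    ∃ κ > 0, ∀ w : F, (∃ v ∈ V, ‖w - v‖ ≤ κ * ‖w‖) →
      (∃ t ∈ W, ‖w - t‖ ≤ κ * ‖w‖) → w ∈ (V ⊓ W)ᗮ → w = 0 := by
  by_contra hcon
  push Not at hcon
  have h1 : ∀ n : ℕ, ∃ w : F, ‖w‖ = 1 ∧ (∃ v ∈ V, ‖w - v‖ ≤ 1 / ((n : ℝ) + 1)) ∧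
      (∃ t ∈ W, ‖w - t‖ ≤ 1 / ((n : ℝ) + 1)) ∧ w ∈ (V ⊓ W)ᗮ := by
    intro n
    obtain ⟨w, ⟨v, hv, h2⟩, ⟨t, ht, h3⟩, h4, h5⟩ := hcon (1 / ((n : ℝ) + 1)) (by positivity)
    have hw : 0 < ‖w‖ := norm_pos_iff.mpr h5
    refine ⟨‖w‖⁻¹ • w, ?_, ⟨‖w‖⁻¹ • v, V.smul_mem _ hv, ?_⟩, ⟨‖w‖⁻¹ • t, W.smul_mem _ ht, ?_⟩,
      Submodule.smul_mem _ _ h4⟩
    · rw [norm_smul, norm_inv, norm_norm, inv_mul_cancel₀ hw.ne']
    · rw [← smul_sub, norm_smul, norm_inv, norm_norm, inv_mul_le_iff₀ hw]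
      linarith
    · rw [← smul_sub, norm_smul, norm_inv, norm_norm, inv_mul_le_iff₀ hw]
      linarith
  choose w hw1 hwV hwW hwu using h1
  choose v hv hwv using hwV
  choose t ht hwt using hwW
  have hcomp : IsCompact (sphere (0 : F) 1) := isCompact_sphere _ _
  obtain ⟨w₀, hw₀, φ, hφ, hlim⟩ := hcomp.tendsto_subseq (x := w) (fun n => by
    rw [mem_sphere_zero_iff_norm]; exact hw1 n)
  rw [mem_sphere_zero_iff_norm] at hw₀
  have h0 : Tendsto (fun n : ℕ => 1 / ((φ n : ℝ) + 1)) atTop (𝓝 0) :=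
    (tendsto_one_div_add_atTop_nhds_zero_nat (𝕜 := ℝ)).comp hφ.tendsto_atTop
  have hclose : ∀ (V : Submodule ℝ F) (v : ℕ → F), (∀ n, v n ∈ V) →
      (∀ n, ‖w n - v n‖ ≤ 1 / ((n : ℝ) + 1)) → w₀ ∈ V := by
    intro V v hv hwv
    have h2 : Tendsto (fun n => w (φ n) - v (φ n)) atTop (𝓝 0) :=
      squeeze_zero_norm (fun n => hwv (φ n)) h0
    have h3 : Tendsto (fun n => v (φ n)) atTop (𝓝 w₀) := by
      have := hlim.sub h2
      simp only [Function.comp_apply, sub_sub_cancel, sub_zero] at this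
      exact this
    exact V.closed_of_finiteDimensional.mem_of_tendsto h3 (Eventually.of_forall fun n => hv _)
  have hV := hclose V v hv hwv
  have hW := hclose W t ht hwt
  have hperp : w₀ ∈ (V ⊓ W)ᗮ :=
    (Submodule.isClosed_orthogonal (V ⊓ W)).mem_of_tendsto hlim
      (Eventually.of_forall fun n => hwu _)
  have h5 : inner ℝ w₀ w₀ = 0 := (Submodule.mem_orthogonal _ _).mp hperp w₀ ⟨hV, hW⟩
  rw [inner_self_eq_zero] at h5
  rw [h5, norm_zero] at hw₀
  exact zero_ne_one hw₀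

/-- Subspaces close to two subspaces have at most the dimension of the intersection. -/
theorem inter_near (V W : Submodule ℝ F) :
    ∃ κ > 0, ∀ U : Submodule ℝ F, (∀ w ∈ U, (∃ v ∈ V, ‖w - v‖ ≤ κ * ‖w‖) ∧
      ∃ t ∈ W, ‖w - t‖ ≤ κ * ‖w‖) → Module.finrank ℝ U ≤ Module.finrank ℝ (V ⊓ W : Submodule ℝ F) := by
  obtain ⟨κ, hκ, h⟩ := near_inter V W
  refine ⟨κ, hκ, fun U hU => ?_⟩
  set L : U →ₗ[ℝ] (V ⊓ W : Submodule ℝ F) :=
    ((V ⊓ W).orthogonalProjectionOnto.toLinearMap).comp U.subtype with hL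
  have hinj : Function.Injective L := by
    rw [← LinearMap.ker_eq_bot, eq_bot_iff]
    intro s hs
    have h1 : (V ⊓ W).orthogonalProjectionOnto s.1 = 0 := hs
    have h2 : s.1 ∈ (V ⊓ W)ᗮ := Submodule.orthogonalProjectionOnto_eq_zero_iff.mp h1
    have h3 := h s.1 (hU s.1 s.2).1 (hU s.1 s.2).2 h2
    rw [Submodule.mem_bot]
    exact Subtype.ext h3
  exact LinearMap.finrank_le_finrank_of_injective hinj

/-- a subspace without vectors in `A` lies in a cone around `A'` -/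
theorem cone_of_disjoint {E : Type*} [NormedAddCommGroup E] [NormedSpace ℝ E]
    [FiniteDimensional ℝ E] {G : Type*} [NormedAddCommGroup G] [NormedSpace ℝ G] (J : E →L[ℝ] G)
    (hJ : Function.Injective J) {A A' C : Submodule ℝ E} (hC : C ⊓ A = ⊥) :
    ∃ κ ≥ 0, ∀ s ∈ A, ∀ u ∈ A', s + u ∈ C → ‖J s‖ ≤ κ * ‖J u‖ := by
  by_contra hcon
  push Not at hcon
  have h1 : ∀ n : ℕ, ∃ s ∈ A, ∃ u ∈ A', s + u ∈ C ∧ (n : ℝ) * ‖J u‖ < ‖J s‖ := fun n =>
    hcon n (Nat.cast_nonneg n)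
  choose s hs u hu hsu hlt using h1
  obtain ⟨K, hK0, hK⟩ := (LinearMap.injective_iff_antilipschitz (J : E →ₗ[ℝ] G)).mp hJ
  have hlow : ∀ w : E, ‖w‖ ≤ K * ‖J w‖ := fun w =>
    ZeroHomClass.bound_of_antilipschitz (J : E →ₗ[ℝ] G) hK w
  have hs0 : ∀ n, 0 < ‖s n‖ := fun n => by
    rw [norm_pos_iff]
    intro h0
    have := hlt n
    rw [h0, map_zero, norm_zero] at this
    have h2 : 0 ≤ (n : ℝ) * ‖J (u n)‖ := by positivity
    linarith
  have : ProperSpace E := FiniteDimensional.proper ℝ E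
  obtain ⟨w, hw, φ, hφ, hlim⟩ := (isCompact_sphere (0 : E) 1).tendsto_subseq
    (x := fun n => ‖s n‖⁻¹ • s n) (fun n => by
      rw [mem_sphere_zero_iff_norm, norm_smul, norm_inv, norm_norm]
      exact inv_mul_cancel₀ (hs0 n).ne')
  have hw1 : ‖w‖ = 1 := by simpa using hw
  have h3 : Tendsto (fun n => ‖s n‖⁻¹ • u n) atTop (𝓝 0) := by
    rw [tendsto_zero_iff_norm_tendsto_zero]
    have h4 : Tendsto (fun n : ℕ => (K * ‖J‖) * (1 / (n : ℝ))) atTop (𝓝 0) := by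
      have := (tendsto_one_div_atTop_nhds_zero_nat (𝕜 := ℝ)).const_mul (K * ‖J‖)
      simpa using this
    refine squeeze_zero' (Eventually.of_forall fun _ => norm_nonneg _) ?_ h4
    filter_upwards [eventually_ge_atTop 1] with n hn
    rw [norm_smul, norm_inv, norm_norm]
    have hn0 : (0 : ℝ) < n := by exact_mod_cast hn
    rw [inv_mul_le_iff₀ (hs0 n)]
    have e1 : ‖u n‖ ≤ K * ‖J (u n)‖ := hlow _
    have e2 : ‖J (s n)‖ ≤ ‖J‖ * ‖s n‖ := J.le_opNorm _
    have e3 : ‖J (u n)‖ ≤ 1 / n * (‖J‖ * ‖s n‖) := by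
      have e4 := (hlt n).le.trans e2
      rw [one_div, inv_mul_eq_div, le_div_iff₀ hn0]
      linarith
    calc ‖u n‖ ≤ K * ‖J (u n)‖ := e1
      _ ≤ K * (1 / n * (‖J‖ * ‖s n‖)) := mul_le_mul_of_nonneg_left e3 K.coe_nonneg
      _ = ‖s n‖ * (K * ‖J‖ * (1 / n)) := by ring
  have hwS : w ∈ A := A.closed_of_finiteDimensional.mem_of_tendsto hlim
    (Eventually.of_forall fun n => A.smul_mem _ (hs _))
  have hwT : w ∈ C := by
    have h4 : Tendsto (fun n => ‖s (φ n)‖⁻¹ • s (φ n) + ‖s (φ n)‖⁻¹ • u (φ n)) atTop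
        (𝓝 (w + 0)) := hlim.add (h3.comp hφ.tendsto_atTop)
    rw [add_zero] at h4
    refine C.closed_of_finiteDimensional.mem_of_tendsto h4 (Eventually.of_forall fun n => ?_)
    rw [← smul_add]
    exact C.smul_mem _ (hsu _)
  have h6 : w ∈ C ⊓ A := ⟨hwT, hwS⟩
  rw [hC, Submodule.mem_bot] at h6
  rw [h6, norm_zero] at hw1
  exact zero_ne_one hw1

end lin

section fe

variable {E : Type*} [NormedAddCommGroup E] [NormedSpace ℝ E]
  {M : Type*} [TopologicalSpace M] [ChartedSpace E M] [IsManifold 𝓘(ℝ, E) 1 M]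
  {F : Type*} [NormedAddCommGroup F] [NormedSpace ℝ F]
  {E' : Type*} [NormedAddCommGroup E'] [NormedSpace ℝ E']
  {B : Type*} [TopologicalSpace B] [ChartedSpace E' B] [IsManifold 𝓘(ℝ, E') 1 B]
  {F' : Type*} [NormedAddCommGroup F'] [NormedSpace ℝ F']

/-- Anosov data with an invariant submersion, in ambient norms. -/
structure FE (e : M → F) (e' : B → F') (p : M → B) (f : M ≃ₜ M) (g : B ≃ₜ B)
    (Es Eu : M → Submodule ℝ E) (C a b Ls Lu K K₀ R : ℝ) : Prop where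
  an : EAnosov e f Es Eu C a b Ls Lu
  psm : ContMDiff 𝓘(ℝ, E) 𝓘(ℝ, E') 1 p
  surj : ∀ x, Function.Surjective (di E E' p x)
  fg : ∀ x, p (f x) = g (p x)
  gsm : ContMDiff 𝓘(ℝ, E') 𝓘(ℝ, E') 1 g
  gsm' : ContMDiff 𝓘(ℝ, E') 𝓘(ℝ, E') 1 g.symm
  inj' : ∀ y, Function.Injective (dm E' e' y)
  K_pos : 0 < K
  ang : ∀ x, ∀ s ∈ Es x, ∀ u ∈ Eu x,
      ‖dm E e x s‖ ≤ K * ‖dm E e x (s + u)‖ ∧ ‖dm E e x u‖ ≤ K * ‖dm E e x (s + u)‖
  K₀_pos : 0 < K₀
  ker : ∀ x, ∀ v : E, ∃ v', di E E' p x v' = 0 ∧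
      ‖dm E e x (v - v')‖ ≤ K₀ * ‖dm E' e' (p x) (di E E' p x v)‖
  R_pos : 0 < R
  up : ∀ x, ∀ v : E, ‖dm E' e' (p x) (di E E' p x v)‖ ≤ R * ‖dm E e x v‖

/-- the tangent space of the fibre splits at `x` -/
def Spl (E' : Type*) [NormedAddCommGroup E'] [NormedSpace ℝ E']
    {E : Type*} [NormedAddCommGroup E] [NormedSpace ℝ E]
    {M : Type*} [TopologicalSpace M] [ChartedSpace E M]
    {B : Type*} [TopologicalSpace B] [ChartedSpace E' B] (p : M → B)
    (Es Eu : M → Submodule ℝ E) (x : M) : Prop :=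
  ∀ v : E, di E E' p x v = 0 → ∃ s ∈ Es x, ∃ u ∈ Eu x,
    di E E' p x s = 0 ∧ di E E' p x u = 0 ∧ s + u = v

variable {e : M → F} {e' : B → F'} {p : M → B} {f : M ≃ₜ M} {g : B ≃ₜ B}
    {Es Eu : M → Submodule ℝ E} {C a b Ls Lu K K₀ R : ℝ}

theorem Spl.symm {x : M} (h : Spl E' p Es Eu x) : Spl E' p Eu Es x := fun v hv => by
  obtain ⟨s, hs, u, hu, h1, h2, h3⟩ := h v hv
  exact ⟨u, hu, s, hs, h2, h1, by rw [add_comm]; exact h3⟩

theorem FE.symm (h : FE (E' := E') e e' p f g Es Eu C a b Ls Lu K K₀ R) :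
    FE (E' := E') e e' p f.symm g.symm Eu Es C b a Lu Ls K K₀ R where
  an := h.an.symm
  psm := h.psm
  surj := h.surj
  fg := fun x => by
    have h1 := h.fg (f.symm x)
    rw [f.apply_symm_apply] at h1
    rw [h1, g.symm_apply_apply]
  gsm := h.gsm'
  gsm' := h.gsm
  inj' := h.inj'
  K_pos := h.K_pos
  ang := fun x s hs u hu => by
    have := h.ang x u hu s hs
    rw [add_comm u s] at this
    exact ⟨this.2, this.1⟩
  K₀_pos := h.K₀_pos
  ker := h.ker
  R_pos := h.R_pos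
  up := h.up

theorem FE.fg_iter (h : FE (E' := E') e e' p f g Es Eu C a b Ls Lu K K₀ R) (n : ℕ) (x : M) :
    p (f^[n] x) = g^[n] (p x) := by
  induction n with
  | zero => rfl
  | succ n ih => rw [Function.iterate_succ_apply', h.fg, ih, Function.iterate_succ_apply']

/-- equivariance of the differential -/
theorem FE.di_iter (h : FE (E' := E') e e' p f g Es Eu C a b Ls Lu K K₀ R) (n : ℕ) (x : M) (v : E) :
    di E E' p (f^[n] x) (dg E (f^[n]) x v) = dg E' (g^[n]) (p x) (di E E' p x v) :=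
  di_sq p h.psm (f^[n]) (iter_smooth f h.an.smooth n) (g^[n]) (iter_smooth g h.gsm n)
    (h.fg_iter n) x v

/-- invariance of the tangent spaces of the fibres -/
theorem FE.ker_iter (h : FE (E' := E') e e' p f g Es Eu C a b Ls Lu K K₀ R) (n : ℕ) (x : M) {v : E}
    (hv : di E E' p x v = 0) : di E E' p (f^[n] x) (dg E (f^[n]) x v) = 0 := by
  rw [h.di_iter, hv, map_zero]

/-- splitting is invariant -/
theorem FE.spl_iter (h : FE (E' := E') e e' p f g Es Eu C a b Ls Lu K K₀ R) (n : ℕ) {x : M}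
    (hx : Spl E' p Es Eu x) : Spl E' p Es Eu (f^[n] x) := by
  intro v hv
  have e3 : f.symm^[n] (f^[n] x) = x := iter_left f n x
  have h1 := h.symm.ker_iter n (f^[n] x) hv
  rw [e3] at h1
  obtain ⟨s, hs, u, hu, h2, h3, h4⟩ := hx _ h1
  refine ⟨dg E (f^[n]) x s, h.an.mapS n x s hs, dg E (f^[n]) x u, h.an.mapU n x u hu,
    h.ker_iter n x h2, h.ker_iter n x h3, ?_⟩
  rw [← map_add, h4]
  have h5 := dg_inv (E₀ := E) (f.symm^[n]) (f^[n]) (iter_smooth _ h.an.smooth' n)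
    (iter_smooth f h.an.smooth n) (iter_right f n) (f^[n] x) v
  rwa [e3] at h5

/-- bounded lifts -/
theorem FE.lift (h : FE (E' := E') e e' p f g Es Eu C a b Ls Lu K K₀ R) {x : M}
    (hx : Spl E' p Es Eu x) (u : E) (hu : u ∈ Eu x) :
    ∃ u' ∈ Eu x, di E E' p x u' = di E E' p x u ∧
      ‖dm E e x u'‖ ≤ K * K₀ * ‖dm E' e' (p x) (di E E' p x u)‖ := by
  obtain ⟨k, hk, hkn⟩ := h.ker x u
  obtain ⟨ks, hks, ku, hku, h1, h2, h3⟩ := hx k hk
  refine ⟨u - ku, Submodule.sub_mem _ hu hku, by rw [map_sub, h2, sub_zero], ?_⟩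
  obtain ⟨-, h4⟩ := h.ang x (-ks) (Submodule.neg_mem _ hks) (u - ku) (Submodule.sub_mem _ hu hku)
  have e1 : -ks + (u - ku) = u - k := by rw [← h3]; abel
  rw [e1] at h4
  calc _ ≤ K * ‖dm E e x (u - k)‖ := h4
    _ ≤ K * (K₀ * ‖dm E' e' (p x) (di E E' p x u)‖) :=
        mul_le_mul_of_nonneg_left hkn h.K_pos.le
    _ = _ := by ring

/-- the projections of the stable spaces are contained in the projection at a splitting point -/
theorem FE.transfer (h : FE (E' := E') e e' p f g Es Eu C a b Ls Lu K K₀ R) (x x' : M)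
    (hx : p x = p x') (hspl : Spl E' p Es Eu x') (s : E) (hs : s ∈ Es x) :
    ∃ s' ∈ Es x', di E E' p x' s' = di E E' p x s := by
  obtain ⟨v', hv'⟩ := h.surj x' (di E E' p x s)
  obtain ⟨s', hs', u', hu', hsum⟩ := h.an.decomp x' v'
  refine ⟨s', hs', ?_⟩
  have key : dm E' e' (p x') (di E E' p x' u') = 0 := by
    set N := ‖dm E e x s‖ + ‖dm E e x' s'‖ with hN
    have hb : ∀ n : ℕ, ‖dm E' e' (p x') (di E E' p x' u')‖ ≤
        (R * (K * K₀) * R * C * N) * (C * b ^ n) * a ^ n := by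
      intro n
      set y := f^[n] x' with hy
      set un := dg E (f^[n]) x' u' with hun
      obtain ⟨wn, hwn, hw1, hw2⟩ := h.lift (h.spl_iter n hspl) un (h.an.mapU n x' u' hu')
      -- pull back
      have e1 : dm E' e' (p (f.symm^[n] y)) (di E E' p (f.symm^[n] y) (dg E (f.symm^[n]) y wn)) =
          dm E' e' (p (f.symm^[n] y)) (di E E' p (f.symm^[n] y) (dg E (f.symm^[n]) y un)) := by
        rw [h.symm.di_iter n y wn, h.symm.di_iter n y un, hw1]
      have e2 : dg E (f.symm^[n]) y un = u' :=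
        dg_inv (f^[n]) (f.symm^[n]) (iter_smooth f h.an.smooth n) (iter_smooth _ h.an.smooth' n)
          (iter_left f n) x' u'
      rw [e2] at e1
      have e3 : f.symm^[n] y = x' := iter_left f n x'
      have b1 := h.up (f.symm^[n] y) (dg E (f.symm^[n]) y wn)
      rw [e1] at b1
      have b2 := h.an.hU' n y wn hwn
      have b3 : ‖dm E' e' (p x') (di E E' p x' u')‖ ≤ R * (C * b ^ n * ‖dm E e y wn‖) := by
        rw [e3] at b1
        exact b1.trans (mul_le_mul_of_nonneg_left (by rw [← e3] ; exact b2) h.R_pos.le)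
      -- the size of the projection
      have c1 : dm E' e' (p y) (di E E' p y (dg E (f^[n]) x' v')) =
          dm E' e' (p (f^[n] x)) (di E E' p (f^[n] x) (dg E (f^[n]) x s)) := by
        rw [hy, h.di_iter n x' v', hv', h.di_iter n x s, h.fg_iter n x', h.fg_iter n x, hx]
      have c2 : ‖dm E' e' (p y) (di E E' p y (dg E (f^[n]) x' v'))‖ ≤
          R * (C * a ^ n * ‖dm E e x s‖) := by
        rw [c1]
        exact (h.up _ _).trans (mul_le_mul_of_nonneg_left (h.an.hS n x s hs) h.R_pos.le)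
      have c3 : ‖dm E' e' (p y) (di E E' p y (dg E (f^[n]) x' s'))‖ ≤
          R * (C * a ^ n * ‖dm E e x' s'‖) :=
        (h.up _ _).trans (mul_le_mul_of_nonneg_left (h.an.hS n x' s' hs') h.R_pos.le)
      have c4 : un = dg E (f^[n]) x' v' - dg E (f^[n]) x' s' := by
        rw [hun, ← hsum, map_add]; abel
      have c5 : ‖dm E' e' (p y) (di E E' p y un)‖ ≤ R * C * N * a ^ n := by
        rw [c4, map_sub, map_sub]
        refine (norm_sub_le _ _).trans ((add_le_add c2 c3).trans (le_of_eq ?_))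
        rw [hN]; ring
      have hC := h.an.C_pos
      have hb0 : 0 ≤ C * b ^ n := mul_nonneg (by linarith) (pow_nonneg h.an.b_pos.le n)
      have hKK : 0 ≤ K * K₀ := mul_nonneg h.K_pos.le h.K₀_pos.le
      calc _ ≤ R * (C * b ^ n * ‖dm E e y wn‖) := b3
        _ ≤ R * (C * b ^ n * (K * K₀ * (R * C * N * a ^ n))) := by
            refine mul_le_mul_of_nonneg_left (mul_le_mul_of_nonneg_left ?_ hb0) h.R_pos.le
            exact hw2.trans (mul_le_mul_of_nonneg_left c5 hKK)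
        _ = _ := by ring
    have ht : Tendsto (fun n : ℕ => (R * (K * K₀) * R * C * N) * (C * b ^ n) * a ^ n) atTop
        (𝓝 0) := by
      have h1 := (tendsto_pow_atTop_nhds_zero_of_lt_one h.an.b_pos.le h.an.b_lt).const_mul C
      have h2 := (h1.const_mul (R * (K * K₀) * R * C * N)).mul
        (tendsto_pow_atTop_nhds_zero_of_lt_one h.an.a_pos.le h.an.a_lt)
      simpa using h2
    exact norm_le_zero_iff.mp (ge_of_tendsto' ht hb)
  have h0 : di E E' p x' u' = 0 := h.inj' _ (key.trans (map_zero _).symm)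
  have h1 : di E E' p x' v' = di E E' p x' s' := by rw [← hsum, map_add, h0, add_zero]
  rw [← h1, hv']

end fe

section dims

variable {E : Type*} [NormedAddCommGroup E] [NormedSpace ℝ E] [FiniteDimensional ℝ E]
  {M : Type*} [MetricSpace M] [CompactSpace M] [ChartedSpace E M] [IsManifold 𝓘(ℝ, E) 1 M]
  {F : Type*} [NormedAddCommGroup F] [InnerProductSpace ℝ F] [FiniteDimensional ℝ F]
  {E' : Type*} [NormedAddCommGroup E'] [NormedSpace ℝ E'] [FiniteDimensional ℝ E']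
  {B : Type*} [TopologicalSpace B] [ChartedSpace E' B] [IsManifold 𝓘(ℝ, E') 1 B]
  {F' : Type*} [NormedAddCommGroup F'] [NormedSpace ℝ F']
  {e : M → F} {e' : B → F'} {p : M → B} {f : M ≃ₜ M} {g : B ≃ₜ B}
  {Es Eu : M → Submodule ℝ E} {C a b Ls Lu K K₀ R : ℝ}

/-- the tangent space of the fibre -/
noncomputable def kr (E' : Type*) [NormedAddCommGroup E'] [NormedSpace ℝ E']
    {E : Type*} [NormedAddCommGroup E] [NormedSpace ℝ E]
    {M : Type*} [TopologicalSpace M] [ChartedSpace E M]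
    {B : Type*} [TopologicalSpace B] [ChartedSpace E' B] (p : M → B) (x : M) : Submodule ℝ E :=
  LinearMap.ker (di E E' p x).toLinearMap

omit [FiniteDimensional ℝ E] [CompactSpace M] [IsManifold 𝓘(ℝ, E) 1 M] [FiniteDimensional ℝ E']
  [IsManifold 𝓘(ℝ, E') 1 B] in
theorem mem_kr {x : M} {v : E} : v ∈ kr E' p x ↔ di E E' p x v = 0 := Iff.rfl

/-- dimension of the part in `V` of the tangent space of the fibre -/
noncomputable def fr (E' : Type*) [NormedAddCommGroup E'] [NormedSpace ℝ E']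
    {E : Type*} [NormedAddCommGroup E] [NormedSpace ℝ E]
    {M : Type*} [TopologicalSpace M] [ChartedSpace E M]
    {B : Type*} [TopologicalSpace B] [ChartedSpace E' B] (p : M → B)
    (V : M → Submodule ℝ E) (x : M) : ℕ := Module.finrank ℝ (V x ⊓ kr E' p x : Submodule ℝ E)

/-- continuity of the tangent spaces of the fibres -/
theorem FE.ker_cont (h : FE (E' := E') e e' p f g Es Eu C a b Ls Lu K K₀ R)
    (he : ContMDiff 𝓘(ℝ, E) 𝓘(ℝ, F) 1 e) (hinj : ∀ x, Function.Injective (dm E e x))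
    (he' : ContMDiff 𝓘(ℝ, E') 𝓘(ℝ, F') 1 e') (y : M) {η : ℝ} (hη : 0 < η) :
    ∃ r > 0, ∀ x, dist x y < r → ∀ v ∈ kr E' p x, ∃ v' ∈ kr E' p y,
      ‖dm E e x v - dm E e y v'‖ ≤ η * ‖dm E e x v‖ := by
  have hh : ContMDiff 𝓘(ℝ, E) 𝓘(ℝ, F') 1 (e' ∘ p) := he'.comp h.psm
  have hdp : ∀ z v, dm E (e' ∘ p) z v = dm E' e' (p z) (di E E' p z v) :=
    dm_comp_di e' he' p h.psm
  have hK₀ := h.K₀_pos
  set θ := η / (1 + K₀) with hθ
  have hθ0 : 0 < θ := by positivity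
  have hθ2 : θ + K₀ * θ = η := by rw [hθ]; field_simp
  obtain ⟨-, hloc⟩ := local_all e he hinj (e' ∘ p) hh y
  obtain ⟨W, hW, -, -, -, -, h3⟩ := hloc θ hθ0
  obtain ⟨r, hr, hrW⟩ := Metric.mem_nhds_iff.mp hW
  refine ⟨r, hr, fun x hx v hv => ?_⟩
  obtain ⟨w, h4, h5⟩ := h3 x (hrW hx) y (hrW (mem_ball_self hr)) v
  obtain ⟨w', h6, h7⟩ := h.ker y w
  refine ⟨w', h6, ?_⟩
  rw [hdp, hdp, mem_kr.mp hv, map_zero, zero_sub, norm_neg] at h5
  have e1 : dm E e x v - dm E e y w' = (dm E e x v - dm E e y w) + dm E e y (w - w') := by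
    rw [map_sub]; abel
  rw [e1]
  have e2 := norm_add_le (dm E e x v - dm E e y w) (dm E e y (w - w'))
  have e3 := mul_le_mul_of_nonneg_left h5 hK₀.le
  rw [← hθ2]
  linarith

/-- the two bundles used below -/
theorem FE.usc (h : FE (E' := E') e e' p f g Es Eu C a b Ls Lu K K₀ R)
    (he : ContMDiff 𝓘(ℝ, E) 𝓘(ℝ, F) 1 e) (hinj : ∀ x, Function.Injective (dm E e x))
    (he' : ContMDiff 𝓘(ℝ, E') 𝓘(ℝ, F') 1 e') (y : M) :
    ∃ r > 0, ∀ x, dist x y < r → fr E' p Es x ≤ fr E' p Es y := by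
  obtain ⟨κ, hκ, h1⟩ := inter_near ((Es y).map (dm E e y).toLinearMap)
    ((kr E' p y).map (dm E e y).toLinearMap)
  obtain ⟨r₁, hr₁, h2⟩ := h.an.contS he hinj κ hκ
  obtain ⟨r₂, hr₂, h3⟩ := h.ker_cont he hinj he' y hκ
  refine ⟨min r₁ r₂, lt_min hr₁ hr₂, fun x hx => ?_⟩
  have h4 := h1 ((Es x ⊓ kr E' p x).map (dm E e x).toLinearMap) (by
    rintro _ ⟨v, ⟨hv1, hv2⟩, rfl⟩
    obtain ⟨s, hs, h5⟩ := h2 x y (hx.trans_le (min_le_left _ _)) v hv1
    obtain ⟨t, ht, h6⟩ := h3 x (hx.trans_le (min_le_right _ _)) v hv2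
    exact ⟨⟨_, ⟨s, hs, rfl⟩, h5⟩, ⟨_, ⟨t, ht, rfl⟩, h6⟩⟩)
  rw [← Submodule.map_inf _ (hinj y)] at h4
  have e1 : Module.finrank ℝ ((Es x ⊓ kr E' p x).map (dm E e x).toLinearMap) = fr E' p Es x :=
    (Submodule.equivMapOfInjective (dm E e x).toLinearMap (hinj x) _).symm.finrank_eq
  have e2 : Module.finrank ℝ ((Es y ⊓ kr E' p y).map (dm E e y).toLinearMap) = fr E' p Es y :=
    (Submodule.equivMapOfInjective (dm E e y).toLinearMap (hinj y) _).symm.finrank_eq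
  rwa [e1, e2] at h4

theorem FE.dg_injective (h : FE (E' := E') e e' p f g Es Eu C a b Ls Lu K K₀ R) (n : ℕ) (x : M) :
    Function.Injective (dg E (f^[n]) x) := by
  intro v w hvw
  have h1 := dg_inv (E₀ := E) (f^[n]) (f.symm^[n]) (iter_smooth f h.an.smooth n)
    (iter_smooth _ h.an.smooth' n) (iter_left f n) x
  rw [← h1 v, ← h1 w, hvw]

theorem FE.fr_iter (h : FE (E' := E') e e' p f g Es Eu C a b Ls Lu K K₀ R) (n : ℕ) (x : M) :
    fr E' p Es x ≤ fr E' p Es (f^[n] x) := by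
  have h1 : (Es x ⊓ kr E' p x).map (dg E (f^[n]) x).toLinearMap ≤
      Es (f^[n] x) ⊓ kr E' p (f^[n] x) := by
    rintro _ ⟨v, ⟨hv1, hv2⟩, rfl⟩
    exact ⟨h.an.mapS n x v hv1, h.ker_iter n x hv2⟩
  have h2 := Submodule.finrank_mono h1
  have e1 : Module.finrank ℝ ((Es x ⊓ kr E' p x).map (dg E (f^[n]) x).toLinearMap) =
      fr E' p Es x :=
    (Submodule.equivMapOfInjective (dg E (f^[n]) x).toLinearMap (h.dg_injective n x)
      _).symm.finrank_eq
  rw [e1] at h2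
  exact h2

/-- the fibre dimension -/
theorem FE.kr_dim (h : FE (E' := E') e e' p f g Es Eu C a b Ls Lu K K₀ R) (x : M) :
    Module.finrank ℝ (kr (E := E) E' p x) = Module.finrank ℝ E - Module.finrank ℝ E' := by
  have h2 := LinearMap.finrank_range_add_finrank_ker (di E E' p x).toLinearMap
  have h3 : LinearMap.range (di E E' p x).toLinearMap = ⊤ := LinearMap.range_eq_top.mpr (h.surj x)
  rw [h3, finrank_top] at h2
  show Module.finrank ℝ (LinearMap.ker (di E E' p x).toLinearMap) = _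
  omega

/-- At limit points the fibre has the complementary unstable dimension. -/
theorem FE.limit (h : FE (E' := E') e e' p f g Es Eu C a b Ls Lu K K₀ R)
    (he : ContMDiff 𝓘(ℝ, E) 𝓘(ℝ, F) 1 e) (hinj : ∀ x, Function.Injective (dm E e x))
    (he' : ContMDiff 𝓘(ℝ, E') 𝓘(ℝ, F') 1 e') {x y : M} (hy : y ∈ Pool.Agent.R189.PF.Om f x) :
    Module.finrank ℝ E - Module.finrank ℝ E' ≤ fr E' p Es x + fr E' p Eu y := by
  have hC1 := h.an.C_pos
  have ha0 := h.an.a_pos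
  have hb0 := h.an.b_pos
  -- a complement
  obtain ⟨C', hC'⟩ := Submodule.exists_isCompl (Es x ⊓ kr E' p x)
  set D := C' ⊓ kr E' p x with hD
  have hDs : D ⊓ Es x = ⊥ := by
    rw [eq_bot_iff, ← hC'.inf_eq_bot]
    rintro w ⟨⟨h1, h2⟩, h3⟩
    exact ⟨⟨h3, h2⟩, h1⟩
  have hDdim : fr E' p Es x + Module.finrank ℝ D = Module.finrank ℝ (kr (E := E) E' p x) := by
    have h1 := Submodule.finrank_sup_add_finrank_inf_eq (Es x ⊓ kr E' p x) D
    have h2 : (Es x ⊓ kr E' p x) ⊔ D = kr E' p x := by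
      rw [hD, ← sup_inf_assoc_of_le C' (inf_le_right : Es x ⊓ kr E' p x ≤ kr E' p x),
        hC'.sup_eq_top, top_inf_eq]
    have h3 : (Es x ⊓ kr E' p x) ⊓ D = ⊥ := by
      rw [eq_bot_iff, ← hC'.inf_eq_bot]
      exact inf_le_inf le_rfl inf_le_left
    rw [h2, h3, finrank_bot] at h1
    show Module.finrank ℝ (Es x ⊓ kr E' p x : Submodule ℝ E) + _ = _
    omega
  obtain ⟨κ₀, hκ₀, hcone⟩ := cone_of_disjoint (A' := Eu x) (dm E e x) (hinj x) hDs
  obtain ⟨κ, hκ, h1⟩ := inter_near ((Eu y).map (dm E e y).toLinearMap)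
    ((kr E' p y).map (dm E e y).toLinearMap)
  obtain ⟨r₁, hr₁, h2⟩ := h.an.symm.contS he hinj (κ / 4) (by positivity)
  obtain ⟨r₂, hr₂, h3⟩ := h.ker_cont he hinj he' y hκ
  have ht : Tendsto (fun n : ℕ => (C * a ^ n) * κ₀ * (C * b ^ n)) atTop (𝓝 0) := by
    have t1 := ((tendsto_pow_atTop_nhds_zero_of_lt_one ha0.le h.an.a_lt).const_mul C).mul_const κ₀
    have t2 := (tendsto_pow_atTop_nhds_zero_of_lt_one hb0.le h.an.b_lt).const_mul C
    have := t1.mul t2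
    simpa using this
  obtain ⟨n₀, hn₀⟩ := eventually_atTop.mp ((tendsto_order.mp ht).2 (min (1 / 2) (κ / 8))
    (by positivity))
  obtain ⟨n, hn, hd⟩ := Pool.Agent.R189.PF.om_freq hy (lt_min hr₁ hr₂) n₀
  set q := (C * a ^ n) * κ₀ * (C * b ^ n) with hq
  have hq1 : q ≤ 1 / 2 := (hn₀ n hn).le.trans (min_le_left _ _)
  have hq2 : q ≤ κ / 8 := (hn₀ n hn).le.trans (min_le_right _ _)
  have hq0 : 0 ≤ q := by positivity
  set x' := f^[n] x with hx'
  set L : E →ₗ[ℝ] F := (dm E e x').toLinearMap.comp (dg E (f^[n]) x).toLinearMap with hL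
  have hLinj : Function.Injective L := (hinj x').comp (h.dg_injective n x)
  have h4 := h1 (D.map L) (by
    rintro _ ⟨v, hv, rfl⟩
    obtain ⟨s, hs, u, hu, rfl⟩ := h.an.decomp x v
    set ws := dm E e x' (dg E (f^[n]) x s) with hws
    set wu := dm E e x' (dg E (f^[n]) x u) with hwu
    have hw : L (s + u) = ws + wu := by
      show dm E e x' (dg E (f^[n]) x (s + u)) = _
      rw [map_add, map_add]
    rw [hw]
    have e1 : ‖ws‖ ≤ C * a ^ n * ‖dm E e x s‖ := h.an.hS n x s hs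
    have e2 := hcone s hs u hu hv
    have e3 : ‖dm E e x u‖ ≤ C * b ^ n * ‖wu‖ := by
      have e4 := h.an.hU' n x' _ (h.an.mapU n x u hu)
      rw [dg_inv (f^[n]) (f.symm^[n]) (iter_smooth f h.an.smooth n)
        (iter_smooth _ h.an.smooth' n) (iter_left f n), iter_left] at e4
      exact e4
    have e5 : ‖ws‖ ≤ q * ‖wu‖ := by
      calc ‖ws‖ ≤ C * a ^ n * ‖dm E e x s‖ := e1
        _ ≤ C * a ^ n * (κ₀ * (C * b ^ n * ‖wu‖)) :=
            mul_le_mul_of_nonneg_left (e2.trans (mul_le_mul_of_nonneg_left e3 hκ₀)) (by positivity)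
        _ = q * ‖wu‖ := by rw [hq]; ring
    have hwn := norm_nonneg wu
    have e6 : ‖wu‖ ≤ 2 * ‖ws + wu‖ := by
      have e7 := norm_sub_le (ws + wu) ws
      rw [add_sub_cancel_left] at e7
      have e8 : q * ‖wu‖ ≤ 1 / 2 * ‖wu‖ := mul_le_mul_of_nonneg_right hq1 hwn
      linarith
    have e9 : ‖ws‖ ≤ κ / 4 * ‖ws + wu‖ := by
      have e10 : q * ‖wu‖ ≤ κ / 8 * (2 * ‖ws + wu‖) :=
        mul_le_mul hq2 e6 hwn (by positivity)
      linarith
    constructor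
    · obtain ⟨u', hu', e11⟩ := h2 x' y (hd.trans_le (min_le_left _ _)) _ (h.an.mapU n x u hu)
      refine ⟨_, ⟨u', hu', rfl⟩, ?_⟩
      show ‖ws + wu - dm E e y u'‖ ≤ _
      have e12 : ws + wu - dm E e y u' = ws + (wu - dm E e y u') := by abel
      rw [e12]
      have e13 := norm_add_le ws (wu - dm E e y u')
      have e14 : κ / 4 * ‖wu‖ ≤ κ / 4 * (2 * ‖ws + wu‖) :=
        mul_le_mul_of_nonneg_left e6 (by positivity)
      have e15 : 0 ≤ κ * ‖ws + wu‖ := by positivity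
      linarith
    · have hk : dg E (f^[n]) x (s + u) ∈ kr E' p x' := h.ker_iter n x hv.2
      obtain ⟨v', hv', e11⟩ := h3 x' (hd.trans_le (min_le_right _ _)) _ hk
      rw [map_add, map_add] at e11
      exact ⟨_, ⟨v', hv', rfl⟩, e11⟩)
  rw [← Submodule.map_inf _ (hinj y)] at h4
  have e1 : Module.finrank ℝ (D.map L) = Module.finrank ℝ D :=
    (Submodule.equivMapOfInjective L hLinj _).symm.finrank_eq
  have e2 : Module.finrank ℝ ((Eu y ⊓ kr E' p y).map (dm E e y).toLinearMap) = fr E' p Eu y :=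
    (Submodule.equivMapOfInjective (dm E e y).toLinearMap (hinj y) _).symm.finrank_eq
  rw [e1, e2] at h4
  rw [h.kr_dim] at hDdim
  omega

theorem FE.spl_of_dim (h : FE (E' := E') e e' p f g Es Eu C a b Ls Lu K K₀ R) {x : M}
    (hd : Module.finrank ℝ E - Module.finrank ℝ E' ≤ fr E' p Es x + fr E' p Eu x) :
    Spl E' p Es Eu x := by
  intro v hv
  have h1 := Submodule.finrank_sup_add_finrank_inf_eq (Es x ⊓ kr E' p x) (Eu x ⊓ kr E' p x)
  have h2 : (Es x ⊓ kr E' p x) ⊓ (Eu x ⊓ kr E' p x) = ⊥ := by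
    rw [eq_bot_iff, ← (h.an.compl x).inf_eq_bot]
    exact le_inf (inf_le_left.trans inf_le_left) (inf_le_right.trans inf_le_left)
  rw [h2, finrank_bot, add_zero] at h1
  have h3 : (Es x ⊓ kr E' p x) ⊔ (Eu x ⊓ kr E' p x) ≤ kr E' p x :=
    sup_le inf_le_right inf_le_right
  have h4 : (Es x ⊓ kr E' p x) ⊔ (Eu x ⊓ kr E' p x) = kr E' p x := by
    refine Submodule.eq_of_le_of_finrank_le h3 ?_
    rw [h1, h.kr_dim]
    exact hd
  have h5 : v ∈ (Es x ⊓ kr E' p x) ⊔ (Eu x ⊓ kr E' p x) := by rw [h4]; exact hv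
  obtain ⟨s, hs, u, hu, hsu⟩ := Submodule.mem_sup.mp h5
  exact ⟨s, hs.1, u, hu.1, hs.2, hu.2, hsu⟩

theorem FE.dim_of_spl (h : FE (E' := E') e e' p f g Es Eu C a b Ls Lu K K₀ R) {x : M}
    (hx : Spl E' p Es Eu x) :
    Module.finrank ℝ E - Module.finrank ℝ E' ≤ fr E' p Es x + fr E' p Eu x := by
  have h1 := Submodule.finrank_sup_add_finrank_inf_eq (Es x ⊓ kr E' p x) (Eu x ⊓ kr E' p x)
  have h2 : kr E' p x ≤ (Es x ⊓ kr E' p x) ⊔ (Eu x ⊓ kr E' p x) := by
    intro v hv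
    obtain ⟨s, hs, u, hu, h3, h4, h5⟩ := hx v hv
    exact Submodule.mem_sup.mpr ⟨s, ⟨hs, h3⟩, u, ⟨hu, h4⟩, h5⟩
  have h3 := Submodule.finrank_mono h2
  rw [h.kr_dim] at h3
  show _ ≤ Module.finrank ℝ (Es x ⊓ kr E' p x : Submodule ℝ E) +
    Module.finrank ℝ (Eu x ⊓ kr E' p x : Submodule ℝ E)
  omega

/-- limit points split -/
theorem FE.om_spl (h : FE (E' := E') e e' p f g Es Eu C a b Ls Lu K K₀ R)
    (he : ContMDiff 𝓘(ℝ, E) 𝓘(ℝ, F) 1 e) (hinj : ∀ x, Function.Injective (dm E e x))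
    (he' : ContMDiff 𝓘(ℝ, E') 𝓘(ℝ, F') 1 e') {x y : M} (hy : y ∈ Pool.Agent.R189.PF.Om f x) :
    Spl E' p Es Eu y := by
  refine h.spl_of_dim ((h.limit he hinj he' hy).trans (Nat.add_le_add_right ?_ _))
  obtain ⟨r, hr, h1⟩ := h.usc he hinj he' y
  obtain ⟨n, -, hn⟩ := Pool.Agent.R189.PF.om_freq hy hr 0
  exact (h.fr_iter n x).trans (h1 _ hn)

/-- one splitting point in a fibre is enough -/
theorem FE.spl_fibre (h : FE (E' := E') e e' p f g Es Eu C a b Ls Lu K K₀ R)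
    (hs : ∀ x x', Module.finrank ℝ (Es x) = Module.finrank ℝ (Es x'))
    (hu : ∀ x x', Module.finrank ℝ (Eu x) = Module.finrank ℝ (Eu x'))
    {z w : M} (hzw : p z = p w) (hw : Spl E' p Es Eu w) : Spl E' p Es Eu z := by
  have h1 : (Es z).map (di E E' p z).toLinearMap ≤ (Es w).map (di E E' p w).toLinearMap := by
    rintro _ ⟨s, hs, rfl⟩
    obtain ⟨s', hs', h2⟩ := h.transfer z w hzw hw s hs
    exact ⟨s', hs', h2⟩
  have h2 : (Eu z).map (di E E' p z).toLinearMap ≤ (Eu w).map (di E E' p w).toLinearMap := by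
    rintro _ ⟨s, hs, rfl⟩
    obtain ⟨s', hs', h2⟩ := h.symm.transfer z w hzw hw.symm s hs
    exact ⟨s', hs', h2⟩
  have h3 := Submodule.finrank_mono h1
  have h4 := Submodule.finrank_mono h2
  have a1 : fr E' p Es z + Module.finrank ℝ ((Es z).map (di E E' p z).toLinearMap) =
      Module.finrank ℝ (Es z) := finrank_inf_ker (di E E' p z) (Es z)
  have a2 : fr E' p Es w + Module.finrank ℝ ((Es w).map (di E E' p w).toLinearMap) =
      Module.finrank ℝ (Es w) := finrank_inf_ker (di E E' p w) (Es w)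
  have a3 : fr E' p Eu z + Module.finrank ℝ ((Eu z).map (di E E' p z).toLinearMap) =
      Module.finrank ℝ (Eu z) := finrank_inf_ker (di E E' p z) (Eu z)
  have a4 : fr E' p Eu w + Module.finrank ℝ ((Eu w).map (di E E' p w).toLinearMap) =
      Module.finrank ℝ (Eu w) := finrank_inf_ker (di E E' p w) (Eu w)
  have h5 := h.dim_of_spl hw
  have h6 := hs z w
  have h7 := hu z w
  exact h.spl_of_dim (by omega)

end dims

end Pool.Agent.H244.Nh
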