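import Pool.Agent.H244.Nw7
import Pool.Graph.R_seed8.TH289.L.P3

/-!
# Fibred version of the Franks-Newhouse theorem
-/

set_option autoImplicit false
set_option linter.unusedSectionVars false

open Filter Topology Set Metric
open scoped Manifold ContDiff

namespace Pool.Agent.H244.Nh

open Pool.Agent.H721R2 Pool.Agent.H789R2.AN Pool.Agent.H789R2.GP Pool.Agent.TH289
  Pool.Agent.TH289.K Pool.Agent.R189.Sf Pool.Agent.R189.Fb

section newhouse

variable {E : Type*} [NormedAddCommGroup E] [NormedSpace ℝ E] [FiniteDimensional ℝ E]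
  {M : Type*} [TopologicalSpace M] [T2Space M] [CompactSpace M] [ConnectedSpace M]
  [ChartedSpace E M] [IsManifold 𝓘(ℝ, E) ∞ M]

/-- The Franks-Newhouse theorem, in class `C¹`. -/
theorem newhouse_man (f : Diffeomorph 𝓘(ℝ, E) 𝓘(ℝ, E) M M 1)
    (Es Eu : ∀ x : M, Submodule ℝ (TangentSpace 𝓘(ℝ, E) x)) (hA : IsAnosov f Es Eu)
    (h1 : ∃ x, Module.finrank ℝ (Es x : Submodule ℝ E) ≤ 1 ∨
      Module.finrank ℝ (Eu x : Submodule ℝ E) ≤ 1) : TopTransitive f := by
  obtain ⟨x₀, hx₀⟩ := h1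
  obtain ⟨m, ee, hee, hemb, hinje⟩ :=
    exists_embedding_euclidean_of_compact (I := 𝓘(ℝ, E)) (M := M)
  let _ : MetricSpace M := hemb.isEmbedding.comapMetricSpace ee
  have hiso : ∀ x y : M, dist x y = ‖ee x - ee y‖ := fun x y => dist_eq_norm (ee x) (ee y)
  have he1 : ContMDiff 𝓘(ℝ, E) (𝓡 m) 1 ee := hee.of_le (by simp)
  obtain ⟨N, ⟨S, hSg, -, hSs, hSu⟩, hN⟩ :=
    ((exists_sys_ev hiso he1 hinje f Es Eu hA).and (eventually_ge_atTop 1)).exists
  obtain ⟨c, hLP⟩ := exists_LP S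
  have hULC : ULC M := ulc_of_charted (X := M) (E := E)
  have hfr : ∀ (V : M → Submodule ℝ E) z,
      Module.finrank ℝ (Submodule.map (dm E ee z).toLinearMap (V z)) =
      Module.finrank ℝ (V z) := fun V z =>
    (Submodule.equivMapOfInjective (dm E ee z).toLinearMap (hinje z) (V z)).symm.finrank_eq
  have hT : ∀ (S : HypSys M (EuclideanSpace ℝ (Fin m))) (q₀ : M), ∀ η > 0, ∃ r > 0,
      ∀ q q' : M, dist q q₀ < r → dist q' q₀ < r →
      ∃ t ∈ (⊤ : Submodule ℝ (EuclideanSpace ℝ (Fin m))), ‖S.e (id q') - S.e (id q) - t‖ ≤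
        η * dist q q' := by
    intro S q₀ η hη
    refine ⟨1, one_pos, fun q q' _ _ => ⟨S.e (id q') - S.e (id q), trivial, ?_⟩⟩
    rw [sub_self, norm_zero]
    positivity
  have huniq : ∀ A, IsAtt S.g A → A = univ := by
    rcases hx₀ with hx₀ | hx₀
    · have hall : ∀ x, Module.finrank ℝ (Es x : Submodule ℝ E) ≤ 1 := fun x => by
        rw [(rank_const f Es Eu hA x x₀).1]; exact hx₀
      obtain ⟨δ, hδ, hE⟩ := exists_emb1 S (id : M → M) isometry_id S.g (fun _ => rfl)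
        (fun _ => ⊤) (hT S) (fun q => by
          rw [inf_top_eq, hSs]
          exact (hfr (fun z => Es z) _).trans_le (hall _))
      exact newhouse_LP hLP hULC hδ hE
    · have hall : ∀ x, Module.finrank ℝ (Eu x : Submodule ℝ E) ≤ 1 := fun x => by
        rw [(rank_const f Es Eu hA x x₀).2]; exact hx₀
      obtain ⟨δ, hδ, hE⟩ := exists_emb1 S.symm (id : M → M) isometry_id S.g.symm (fun _ => rfl)
        (fun _ => ⊤) (hT S.symm) (fun q => by
          show Module.finrank ℝ (S.Vu (id q) ⊓ ⊤ : Submodule ℝ (EuclideanSpace ℝ (Fin m))) ≤ 1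
          rw [inf_top_eq, hSu]
          exact (hfr (fun z => Eu z) _).trans_le (hall _))
      exact unique_symm hLP (newhouse_LP hLP.symm hULC hδ hE)
  rw [hSg] at huniq
  refine Pool.Agent.TH289.L.man_nw f Es Eu hA ?_
  exact Pool.Agent.TH289.L.nw_of_unique S hN hSg (f := f.toHomeomorph)
    (fun A hAtt => huniq A (att_iter hAtt hN))

end newhouse

section main

variable {E : Type*} [NormedAddCommGroup E] [NormedSpace ℝ E] [FiniteDimensional ℝ E]
  {M : Type*} [TopologicalSpace M] [T2Space M] [CompactSpace M] [ConnectedSpace M]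
  [ChartedSpace E M] [IsManifold 𝓘(ℝ, E) ∞ M]
  {E' : Type*} [NormedAddCommGroup E'] [NormedSpace ℝ E'] [FiniteDimensional ℝ E']
  {B : Type*} [TopologicalSpace B] [T2Space B] [CompactSpace B] [ConnectedSpace B]
  [ChartedSpace E' B] [IsManifold 𝓘(ℝ, E') ∞ B]

theorem subm_surj (p : M → B) (hp : ContMDiff 𝓘(ℝ, E) 𝓘(ℝ, E') 1 p)
    (hps : ∀ x, Function.Surjective (mfderiv 𝓘(ℝ, E) 𝓘(ℝ, E') p x)) : Function.Surjective p := by
  have h1 : IsClopen (range p) :=
    ⟨(isCompact_range hp.continuous).isClosed, (subm_open p hp hps).isOpen_range⟩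
  rw [← range_eq_univ]
  exact h1.eq_univ (range_nonempty p)

/-- dimension of the stable and unstable parts of the fibres -/
theorem fibre_ranks (f : Diffeomorph 𝓘(ℝ, E) 𝓘(ℝ, E) M M 1)
    (Es Eu : ∀ x : M, Submodule ℝ (TangentSpace 𝓘(ℝ, E) x)) (hA : IsAnosov f Es Eu)
    (p : M → B) (hp : ContMDiff 𝓘(ℝ, E) 𝓘(ℝ, E') 1 p)
    (hps : ∀ x, Function.Surjective (mfderiv 𝓘(ℝ, E) 𝓘(ℝ, E') p x))
    (g : Diffeomorph 𝓘(ℝ, E') 𝓘(ℝ, E') B B 1) (hfg : ∀ x, p (f x) = g (p x))
    (Gs Gu : ∀ y : B, Submodule ℝ (TangentSpace 𝓘(ℝ, E') y)) (hB : IsAnosov g Gs Gu) (x : M) :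
    Module.finrank ℝ ((Es x : Submodule ℝ E) ⊓
        LinearMap.ker (di E E' p x).toLinearMap : Submodule ℝ E) +
      Module.finrank ℝ (Gs (p x) : Submodule ℝ E') = Module.finrank ℝ (Es x : Submodule ℝ E) ∧
    Module.finrank ℝ ((Eu x : Submodule ℝ E) ⊓
        LinearMap.ker (di E E' p x).toLinearMap : Submodule ℝ E) +
      Module.finrank ℝ (Gu (p x) : Submodule ℝ E') = Module.finrank ℝ (Eu x : Submodule ℝ E) := by
  obtain ⟨h1, h2⟩ := base_map f Es Eu hA p hp hps g hfg Gs Gu hB x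
  rw [← h1, ← h2]
  exact ⟨finrank_inf_ker (di E E' p x) (Es x), finrank_inf_ker (di E E' p x) (Eu x)⟩

/-- the fibre dimension -/
theorem ker_dim (p : M → B) (hps : ∀ x, Function.Surjective (mfderiv 𝓘(ℝ, E) 𝓘(ℝ, E') p x))
    (x : M) : Module.finrank ℝ (LinearMap.ker (di E E' p x).toLinearMap) =
      Module.finrank ℝ E - Module.finrank ℝ E' := by
  have h2 := LinearMap.finrank_range_add_finrank_ker (di E E' p x).toLinearMap
  have h3 : LinearMap.range (di E E' p x).toLinearMap = ⊤ := LinearMap.range_eq_top.mpr (hps x)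
  rw [h3, finrank_top] at h2
  omega

/-- **Fibred Franks-Newhouse theorem.** -/
theorem main_fib (f : Diffeomorph 𝓘(ℝ, E) 𝓘(ℝ, E) M M 1)
    (Es Eu : ∀ x : M, Submodule ℝ (TangentSpace 𝓘(ℝ, E) x)) (hA : IsAnosov f Es Eu)
    (p : M → B) (hp : ContMDiff 𝓘(ℝ, E) 𝓘(ℝ, E') 1 p)
    (hps : ∀ x, Function.Surjective (mfderiv 𝓘(ℝ, E) 𝓘(ℝ, E') p x)) :
    (∀ g : B ≃ₜ B, (∀ x, p (f x) = g (p x)) → Expansive g →
      (Module.finrank ℝ E ≤ Module.finrank ℝ E' + 3 ∨
        ∀ x : M, (∃ k ≥ 1, g^[k] (p x) = p x) →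
        Module.finrank ℝ ((Es x : Submodule ℝ E) ⊓
          LinearMap.ker (di E E' p x).toLinearMap : Submodule ℝ E) ≤ 1 ∨
        Module.finrank ℝ ((Eu x : Submodule ℝ E) ⊓
          LinearMap.ker (di E E' p x).toLinearMap : Submodule ℝ E) ≤ 1) →
      (TopTransitive f ↔ TopTransitive g)) ∧
    (∀ g : Diffeomorph 𝓘(ℝ, E') 𝓘(ℝ, E') B B 1, (∀ x, p (f x) = g (p x)) →
      ∀ Gs Gu : ∀ y : B, Submodule ℝ (TangentSpace 𝓘(ℝ, E') y), IsAnosov g Gs Gu →
      (Module.finrank ℝ E ≤ Module.finrank ℝ E' + 3 ∨ ∃ x : M,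
        Module.finrank ℝ ((Es x : Submodule ℝ E) ⊓
          LinearMap.ker (di E E' p x).toLinearMap : Submodule ℝ E) ≤ 1 ∨
        Module.finrank ℝ ((Eu x : Submodule ℝ E) ⊓
          LinearMap.ker (di E E' p x).toLinearMap : Submodule ℝ E) ≤ 1) →
      (TopTransitive f ↔ TopTransitive g) ∧
      ((Module.finrank ℝ E' ≤ 3 ∨ ∃ y : B, Module.finrank ℝ (Gs y : Submodule ℝ E') ≤ 1 ∨
        Module.finrank ℝ (Gu y : Submodule ℝ E') ≤ 1) → TopTransitive f)) := by
  have hsur := subm_surj p hp hps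
  have hpart1 : ∀ g : B ≃ₜ B, (∀ x, p (f x) = g (p x)) → Expansive g →
      (Module.finrank ℝ E ≤ Module.finrank ℝ E' + 3 ∨
        ∀ x : M, (∃ k ≥ 1, g^[k] (p x) = p x) →
        Module.finrank ℝ ((Es x : Submodule ℝ E) ⊓
          LinearMap.ker (di E E' p x).toLinearMap : Submodule ℝ E) ≤ 1 ∨
        Module.finrank ℝ ((Eu x : Submodule ℝ E) ⊓
          LinearMap.ker (di E E' p x).toLinearMap : Submodule ℝ E) ≤ 1) →
      (TopTransitive f ↔ TopTransitive g) := by
    intro g hfg hg hcod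
    refine ⟨fun h => Pool.Agent.R189.Fb.trans_factor hp.continuous hsur hfg h,
      fun h => trans_of_base f Es Eu hA p hp hps g hfg hg (fun x hx => ?_) h⟩
    rcases hcod with hd | hcod
    · have h1 := finrank_parts (K := LinearMap.ker (di E E' p x).toLinearMap)
        (hA.isCompl x).inf_eq_bot
      rw [ker_dim p hps x] at h1
      have h2 : Module.finrank ℝ ((Es x : Submodule ℝ E) ⊓
          LinearMap.ker (di E E' p x).toLinearMap : Submodule ℝ E) +
        Module.finrank ℝ ((Eu x : Submodule ℝ E) ⊓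
          LinearMap.ker (di E E' p x).toLinearMap : Submodule ℝ E) ≤
          Module.finrank ℝ E - Module.finrank ℝ E' := h1
      omega
    · exact hcod x hx
  refine ⟨hpart1, fun g hfg Gs Gu hB hcod => ?_⟩
  have hr := fibre_ranks f Es Eu hA p hp hps g hfg Gs Gu hB
  have hgen' : ∀ (V V' : Submodule ℝ E'), IsCompl V V' →
      Module.finrank ℝ V + Module.finrank ℝ V' = Module.finrank ℝ E' :=
    fun V V' h => Submodule.finrank_add_eq_of_isCompl h
  obtain ⟨x₀⟩ : Nonempty M := inferInstance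
  have hiff : TopTransitive f ↔ TopTransitive g := by
    refine hpart1 g.toHomeomorph hfg (Pool.Agent.TH289.L.expansive_of_anosov g Gs Gu hB) ?_
    rcases hcod with hd | ⟨x, hx⟩
    · exact Or.inl hd
    · right
      intro z _
      have h1 := hr x
      have h2 := hr z
      have h3 := rank_const f Es Eu hA x z
      have h4 := rank_const g Gs Gu hB (p x) (p z)
      omega
  refine ⟨hiff, fun hbase => hiff.mpr (newhouse_man g Gs Gu hB ?_)⟩
  rcases hbase with hd | hy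
  · refine ⟨p x₀, ?_⟩
    have h4 : Module.finrank ℝ (Gs (p x₀) : Submodule ℝ E') +
        Module.finrank ℝ (Gu (p x₀) : Submodule ℝ E') = Module.finrank ℝ E' :=
      hgen' _ _ (hB.isCompl (p x₀))
    omega
  · exact hy

end main

end Pool.Agent.H244.Nh
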