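import Pool.Agent.H244.Nw10
import Pool.Agent.H244.Nw8

/-!
# Transitive smooth factors of Anosov diffeomorphisms are Anosov
-/

set_option autoImplicit false
set_option linter.unusedSectionVars false

open Filter Topology Set Metric
open scoped Manifold ContDiff

namespace Pool.Agent.H244.Nh

open Pool.Agent.H721R2 Pool.Agent.H789R2.AN Pool.Agent.H789R2.GP Pool.Agent.TH289
  Pool.Agent.TH289.K Pool.Agent.R189.Sf Pool.Agent.R189.Fb

variable {E : Type*} [NormedAddCommGroup E] [NormedSpace ℝ E] [FiniteDimensional ℝ E]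
  {M : Type*} [TopologicalSpace M] [T2Space M] [CompactSpace M] [ConnectedSpace M]
  [ChartedSpace E M] [IsManifold 𝓘(ℝ, E) ∞ M]
  {E' : Type*} [NormedAddCommGroup E'] [NormedSpace ℝ E'] [FiniteDimensional ℝ E']
  {B : Type*} [TopologicalSpace B] [T2Space B] [CompactSpace B] [ConnectedSpace B]
  [ChartedSpace E' B] [IsManifold 𝓘(ℝ, E') ∞ B]

/-- Over a transitive base the tangent spaces of the fibres split. -/
theorem spl_of_trans (f : Diffeomorph 𝓘(ℝ, E) 𝓘(ℝ, E) M M 1)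
    (Es Eu : ∀ x : M, Submodule ℝ (TangentSpace 𝓘(ℝ, E) x)) (hA : IsAnosov f Es Eu)
    (p : M → B) (hp : ContMDiff 𝓘(ℝ, E) 𝓘(ℝ, E') 1 p)
    (hps : ∀ x, Function.Surjective (mfderiv 𝓘(ℝ, E) 𝓘(ℝ, E') p x))
    (g : Diffeomorph 𝓘(ℝ, E') 𝓘(ℝ, E') B B 1) (hfg : ∀ x, p (f x) = g (p x))
    (ht : TopTransitive g) (x : M) : Spl E' p (fun x => Es x) (fun x => Eu x) x := by
  have hsur := subm_surj p hp hps
  obtain ⟨m, e, he, hemb, hinj⟩ := exists_embedding_euclidean_of_compact (I := 𝓘(ℝ, E)) (M := M)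
  let _ : MetricSpace M := hemb.isEmbedding.comapMetricSpace e
  have he1 : ContMDiff 𝓘(ℝ, E) (𝓡 m) 1 e := he.of_le (by simp)
  obtain ⟨m', e', he', hemb', hinj'⟩ :=
    exists_embedding_euclidean_of_compact (I := 𝓘(ℝ, E')) (M := B)
  let _ : MetricSpace B := hemb'.isEmbedding.comapMetricSpace e'
  have he1' : ContMDiff 𝓘(ℝ, E') (𝓡 m') 1 e' := he'.of_le (by simp)
  have hh : ContMDiff 𝓘(ℝ, E) (𝓡 m') 1 (e' ∘ p) := he1'.comp hp
  have hdp : ∀ z v, dm E (e' ∘ p) z v = dm E' e' (p z) (di E E' p z v) :=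
    dm_comp_di e' he1' p hp
  have hker : ∀ z v, dm E (e' ∘ p) z v = 0 ↔ di E E' p z v = 0 := fun z v => by
    rw [hdp]
    constructor
    · intro h0
      exact hinj' _ (h0.trans (map_zero _).symm)
    · intro h0
      rw [h0, map_zero]
  obtain ⟨K₀, hK₀, hkp⟩ := ker_unif e he1 (e' ∘ p) hh
    (Module.finrank ℝ E - Module.finrank ℝ E') (fun x => by
    have h1 : LinearMap.ker (dm E (e' ∘ p) x).toLinearMap =
        LinearMap.ker (di E E' p x).toLinearMap := by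
      ext v
      exact hker x v
    rw [h1]
    exact ker_dim p hps x)
  obtain ⟨C', a, b, Ls, Lu, hE⟩ := eanosov_of_isAnosov e he1 hinj f Es Eu hA
  obtain ⟨K, hK, hang⟩ := hE.angle he1 hinj
  obtain ⟨R, hR, hRv⟩ := exists_up e he1 hinj e' he1' p hp
  have hFE : FE (E' := E') e e' p f.toHomeomorph g.toHomeomorph Es Eu C' a b Ls Lu K K₀ R := {
    an := hE
    psm := hp
    surj := hps
    fg := hfg
    gsm := g.contMDiff
    gsm' := g.symm.contMDiff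
    inj' := hinj'
    K_pos := by linarith
    ang := hang
    K₀_pos := hK₀
    ker := fun x v => by
      obtain ⟨v', h1, h2⟩ := hkp x v
      rw [hdp] at h2
      exact ⟨v', (hker x v').mp h1, h2⟩
    R_pos := hR
    up := hRv }
  obtain ⟨y, hy⟩ := Pool.Agent.R189.PF.exists_dense_orbit (g := g.toHomeomorph) ht
  obtain ⟨x₀, hx₀⟩ := Pool.Agent.R189.PF.exists_full (f := f.toHomeomorph) (g := g.toHomeomorph)
    hp.continuous hsur hfg hy
  obtain ⟨w, hw, hwx⟩ := hx₀ (p x)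
  exact hFE.spl_fibre (fun x x' => (rank_const f Es Eu hA x x').1)
    (fun x x' => (rank_const f Es Eu hA x x').2) hwx.symm (hFE.om_spl he1 hinj he1' hw)

/-- **Transitive smooth factors of Anosov diffeomorphisms are Anosov.** -/
theorem anosov_of_trans (f : Diffeomorph 𝓘(ℝ, E) 𝓘(ℝ, E) M M 1)
    (Es Eu : ∀ x : M, Submodule ℝ (TangentSpace 𝓘(ℝ, E) x)) (hA : IsAnosov f Es Eu)
    (p : M → B) (hp : ContMDiff 𝓘(ℝ, E) 𝓘(ℝ, E') 1 p)
    (hps : ∀ x, Function.Surjective (mfderiv 𝓘(ℝ, E) 𝓘(ℝ, E') p x))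
    (g : Diffeomorph 𝓘(ℝ, E') 𝓘(ℝ, E') B B 1) (hfg : ∀ x, p (f x) = g (p x))
    (ht : TopTransitive g) :
    ∃ Gs Gu : ∀ y : B, Submodule ℝ (TangentSpace 𝓘(ℝ, E') y), IsAnosov g Gs Gu :=
  (base_iff f Es Eu hA p hp hps g hfg).mpr
    (fun x => spl_of_trans f Es Eu hA p hp hps g hfg ht x)

/-- **Fibred Franks-Newhouse theorem.** -/
theorem main_fib' (f : Diffeomorph 𝓘(ℝ, E) 𝓘(ℝ, E) M M 1)
    (Es Eu : ∀ x : M, Submodule ℝ (TangentSpace 𝓘(ℝ, E) x)) (hA : IsAnosov f Es Eu)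
    (p : M → B) (hp : ContMDiff 𝓘(ℝ, E) 𝓘(ℝ, E') 1 p)
    (hps : ∀ x, Function.Surjective (mfderiv 𝓘(ℝ, E) 𝓘(ℝ, E') p x))
    (g : Diffeomorph 𝓘(ℝ, E') 𝓘(ℝ, E') B B 1) (hfg : ∀ x, p (f x) = g (p x))
    (hcod : Module.finrank ℝ E ≤ Module.finrank ℝ E' + 3 ∨ ∃ x : M,
        Module.finrank ℝ ((Es x : Submodule ℝ E) ⊓
          LinearMap.ker (di E E' p x).toLinearMap : Submodule ℝ E) ≤ 1 ∨
        Module.finrank ℝ ((Eu x : Submodule ℝ E) ⊓
          LinearMap.ker (di E E' p x).toLinearMap : Submodule ℝ E) ≤ 1) :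
    (TopTransitive f ↔ TopTransitive g) ∧
      ∀ Gs Gu : ∀ y : B, Submodule ℝ (TangentSpace 𝓘(ℝ, E') y), IsAnosov g Gs Gu →
      ((Module.finrank ℝ E' ≤ 3 ∨ ∃ y : B, Module.finrank ℝ (Gs y : Submodule ℝ E') ≤ 1 ∨
        Module.finrank ℝ (Gu y : Submodule ℝ E') ≤ 1) → TopTransitive f) := by
  have h := (main_fib f Es Eu hA p hp hps).2 g hfg
  refine ⟨⟨fun ht => Pool.Agent.R189.Fb.trans_factor hp.continuous (subm_surj p hp hps) hfg ht,
    fun ht => ?_⟩, fun Gs Gu hB hbase => (h Gs Gu hB hcod).2 hbase⟩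
  obtain ⟨Gs, Gu, hB⟩ := anosov_of_trans f Es Eu hA p hp hps g hfg ht
  exact (h Gs Gu hB hcod).1.mpr ht

end Pool.Agent.H244.Nh
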