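import Pool.Agent.H244.Nw1
import Pool.Graph.R_seed8.TH289.HomMain

/-!
# Stable plaques whose directions lie in a line field embed in the line
-/

set_option autoImplicit false
set_option linter.unusedSectionVars false

open Filter Topology Set Metric

namespace Pool.Agent.H244.Nh

open Pool.Agent.H721R2 Pool.Agent.H789R2.AN Pool.Agent.H789R2.GP Pool.Agent.TH289

section lin

variable {F : Type*} [NormedAddCommGroup F] [InnerProductSpace ℝ F] [FiniteDimensional ℝ F]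

/-- Vectors which are close to two subspaces with intersection of dimension at most one. -/
theorem line_inter (V W : Submodule ℝ F) (hd : Module.finrank ℝ (V ⊓ W : Submodule ℝ F) ≤ 1) :
    ∃ u ∈ V ⊓ W, ∃ κ > 0, ∀ w : F, (∃ v ∈ V, ‖w - v‖ ≤ κ * ‖w‖) →
      (∃ t ∈ W, ‖w - t‖ ≤ κ * ‖w‖) → inner ℝ u w = 0 → w = 0 := by
  obtain ⟨u, hu⟩ := finrank_le_one_iff.mp hd
  refine ⟨u, u.2, ?_⟩
  by_contra hcon
  push Not at hcon
  have h1 : ∀ n : ℕ, ∃ w : F, ‖w‖ = 1 ∧ (∃ v ∈ V, ‖w - v‖ ≤ 1 / ((n : ℝ) + 1)) ∧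
      (∃ t ∈ W, ‖w - t‖ ≤ 1 / ((n : ℝ) + 1)) ∧ inner ℝ (u : F) w = 0 := by
    intro n
    obtain ⟨w, ⟨v, hv, h2⟩, ⟨t, ht, h3⟩, h4, h5⟩ := hcon (1 / ((n : ℝ) + 1)) (by positivity)
    have hw : 0 < ‖w‖ := norm_pos_iff.mpr h5
    refine ⟨‖w‖⁻¹ • w, ?_, ⟨‖w‖⁻¹ • v, V.smul_mem _ hv, ?_⟩, ⟨‖w‖⁻¹ • t, W.smul_mem _ ht, ?_⟩, ?_⟩
    · rw [norm_smul, norm_inv, norm_norm, inv_mul_cancel₀ hw.ne']
    · rw [← smul_sub, norm_smul, norm_inv, norm_norm, inv_mul_le_iff₀ hw]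
      linarith
    · rw [← smul_sub, norm_smul, norm_inv, norm_norm, inv_mul_le_iff₀ hw]
      linarith
    · rw [inner_smul_right, h4, mul_zero]
  choose w hw1 hwV hwW hwu using h1
  choose v hv hwv using hwV
  choose t ht hwt using hwW
  have hcomp : IsCompact (sphere (0 : F) 1) := isCompact_sphere _ _
  obtain ⟨w₀, hw₀, φ, hφ, hlim⟩ := hcomp.tendsto_subseq (x := w) (fun n => by
    rw [mem_sphere_zero_iff_norm]; exact hw1 n)
  rw [mem_sphere_zero_iff_norm] at hw₀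
  have h0 : Tendsto (fun n : ℕ => 1 / ((φ n : ℝ) + 1)) atTop (𝓝 0) :=
    (tendsto_one_div_add_atTop_nhds_zero_nat (𝕜 := ℝ)).comp hφ.tendsto_atTop
  have hclose : ∀ (V : Submodule ℝ F) (v : ℕ → F), (∀ n, v n ∈ V) →
      (∀ n, ‖w n - v n‖ ≤ 1 / ((n : ℝ) + 1)) → w₀ ∈ V := by
    intro V v hv hwv
    have h2 : Tendsto (fun n => w (φ n) - v (φ n)) atTop (𝓝 0) :=
      squeeze_zero_norm (fun n => hwv (φ n)) h0
    have h3 : Tendsto (fun n => v (φ n)) atTop (𝓝 w₀) := by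
      have := hlim.sub h2
      simp only [Function.comp_apply, sub_sub_cancel, sub_zero] at this
      exact this
    exact V.closed_of_finiteDimensional.mem_of_tendsto h3 (Eventually.of_forall fun n => hv _)
  have hV := hclose V v hv hwv
  have hW := hclose W t ht hwt
  have hin : inner ℝ (u : F) w₀ = 0 := by
    have h2 : Tendsto (fun n => inner ℝ (u : F) (w (φ n))) atTop (𝓝 (inner ℝ (u : F) w₀)) :=
      tendsto_const_nhds.inner hlim
    simp only [hwu] at h2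
    exact tendsto_nhds_unique h2 tendsto_const_nhds |>.symm ▸ rfl
  obtain ⟨c, hc⟩ := hu ⟨w₀, hV, hW⟩
  have hc' : c • (u : F) = w₀ := congrArg Subtype.val hc
  rw [← hc', inner_smul_right, mul_eq_zero] at hin
  have : w₀ = 0 := by
    rcases hin with h | h
    · rw [← hc', h, zero_smul]
    · rw [inner_self_eq_zero] at h
      rw [← hc', h, smul_zero]
  rw [this, norm_zero] at hw₀
  exact zero_ne_one hw₀

end lin

section emb

variable {X : Type*} [MetricSpace X] {F : Type*} [NormedAddCommGroup F] [InnerProductSpace ℝ F]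
  [FiniteDimensional ℝ F] {Q : Type*} [MetricSpace Q] [CompactSpace Q]

/-- The plaque of `x` of size `δ` embeds in the line. -/
def E1 (G : Q ≃ₜ Q) (δ : ℝ) (x : Q) : Prop :=
  ∃ φ : Q → ℝ, ContinuousOn φ {y | SR G δ x y} ∧ InjOn φ {y | SR G δ x y}

/-- The points near which the stable plaques embed in the line. -/
def Zs (G : Q ≃ₜ Q) : Set Q := {x | ∃ r > 0, ∀ y ∈ ball x r, E1 G r y}

theorem E1.mono {G : Q ≃ₜ Q} {δ δ' : ℝ} {x : Q} (h : E1 G δ x) (hδ : δ' ≤ δ) : E1 G δ' x := by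
  obtain ⟨φ, h1, h2⟩ := h
  have hs : {y | SR G δ' x y} ⊆ {y | SR G δ x y} := fun y hy => SR.mono hy hδ
  exact ⟨φ, h1.mono hs, h2.mono hs⟩

theorem isOpen_Zs (G : Q ≃ₜ Q) : IsOpen (Zs G) := by
  rw [Metric.isOpen_iff]
  rintro x ⟨r, hr, h⟩
  refine ⟨r / 2, half_pos hr, fun y hy => ⟨r / 2, half_pos hr, fun z hz => ?_⟩⟩
  refine (h z ?_).mono (by linarith)
  rw [mem_ball] at hy hz ⊢
  have := dist_triangle z y x
  linarith

theorem emb_local (S : HypSys X F) (ι : Q → X) (hι : Isometry ι) (G : Q ≃ₜ Q)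
    (hG : ∀ q, ι (G q) = S.g (ι q)) (T : Submodule ℝ F) (q₀ : Q)
    (hT : ∀ η > 0, ∃ r > 0, ∀ q q', dist q q₀ < r → dist q' q₀ < r →
      ∃ t ∈ T, ‖S.e (ι q') - S.e (ι q) - t‖ ≤ η * dist q q')
    (hd : Module.finrank ℝ (S.Vs (ι q₀) ⊓ T : Submodule ℝ F) ≤ 1) :
    ∃ u ∈ S.Vs (ι q₀) ⊓ T, ∃ r > 0, ∀ q q', dist q q₀ < r → dist q' q₀ < r →
      SR G r q q' → inner ℝ u (S.e (ι q') - S.e (ι q)) = 0 → q = q' := by
  have hGn : ∀ (n : ℕ) (q : Q), ι (G^[n] q) = S.g^[n] (ι q) := by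
    intro n
    induction n with
    | zero => intro q; rfl
    | succ n ih => intro q; rw [Function.iterate_succ_apply', hG, ih, Function.iterate_succ_apply']
  have hSR : ∀ (ε : ℝ) (q q' : Q), SR G ε q q' → S.SRel ε (ι q) (ι q') := by
    intro ε q q' h k
    rw [← hGn, ← hGn, hι.dist_eq]
    exact h k
  have hdist : ∀ q q', dist q q' = ‖S.e (ι q') - S.e (ι q)‖ := fun q q' => by
    rw [← hι.dist_eq, S.isom, norm_sub_rev]
  obtain ⟨u, huV, κ, hκ, hu⟩ := line_inter (S.Vs (ι q₀)) T hd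
  set η := min 1 (κ / 5) with hη
  have hη0 : 0 < η := by positivity
  have hη1 : η ≤ 1 := min_le_left _ _
  have hη2 : 5 * η ≤ κ := by
    have : η ≤ κ / 5 := min_le_right _ _
    linarith
  obtain ⟨r₁, hr₁, h2⟩ := S.coneS' η hη0 hη1
  obtain ⟨r₂, hr₂, h3⟩ := S.A3 η hη0
  obtain ⟨r₃, hr₃, h4⟩ := hT η hη0
  refine ⟨u, huV, min r₁ (min r₂ r₃), by positivity, fun q q' hq hq' hqq hin => ?_⟩
  set w := S.e (ι q') - S.e (ι q) with hw
  have hw1 : dist q q' = ‖w‖ := hdist q q'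
  obtain ⟨s, hs, h5⟩ := h2 _ _ (hSR _ _ _ (hqq.mono (min_le_left _ _)))
  obtain ⟨s', hs', h6⟩ := h3 (ι q) (ι q₀) (by
    rw [hι.dist_eq]
    exact hq.trans_le ((min_le_right _ _).trans (min_le_left _ _))) s hs
  obtain ⟨t, ht, h7⟩ := h4 q q' (hq.trans_le ((min_le_right _ _).trans (min_le_right _ _)))
    (hq'.trans_le ((min_le_right _ _).trans (min_le_right _ _)))
  have hd2 : dist (ι q) (ι q') = ‖w‖ := by rw [hι.dist_eq, hw1]
  rw [hd2] at h5
  rw [hw1] at h7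
  have hw0 := norm_nonneg w
  have hmul : η * ‖w‖ ≤ 1 * ‖w‖ := mul_le_mul_of_nonneg_right hη1 hw0
  have hκw : 5 * η * ‖w‖ ≤ κ * ‖w‖ := mul_le_mul_of_nonneg_right hη2 hw0
  have h8 : w = 0 := by
    refine hu w ⟨s', hs', ?_⟩ ⟨t, ht, ?_⟩ hin
    · have e1 : ‖s‖ ≤ ‖w‖ + 2 * η * ‖w‖ := by
        have := norm_sub_le w (w - s)
        rw [sub_sub_cancel] at this
        linarith
      have e2 : η * ‖s‖ ≤ η * (3 * ‖w‖) := mul_le_mul_of_nonneg_left (by linarith) hη0.le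
      have e3 : w - s' = (w - s) + (s - s') := by abel
      rw [e3]
      have := norm_add_le (w - s) (s - s')
      linarith
    · linarith [mul_nonneg hη0.le hw0]
  have h9 : dist q q' = 0 := by rw [hw1, h8, norm_zero]
  exact dist_eq_zero.mp h9

/-- Points with one-dimensional stable directions are in `Zs`. -/
theorem mem_Zs (S : HypSys X F) (ι : Q → X) (hι : Isometry ι) (G : Q ≃ₜ Q)
    (hG : ∀ q, ι (G q) = S.g (ι q)) (T : Submodule ℝ F) (q₀ : Q)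
    (hT : ∀ η > 0, ∃ r > 0, ∀ q q', dist q q₀ < r → dist q' q₀ < r →
      ∃ t ∈ T, ‖S.e (ι q') - S.e (ι q) - t‖ ≤ η * dist q q')
    (hd : Module.finrank ℝ (S.Vs (ι q₀) ⊓ T : Submodule ℝ F) ≤ 1) : q₀ ∈ Zs G := by
  obtain ⟨u, -, r, hr, h⟩ := emb_local S ι hι G hG T q₀ hT hd
  refine ⟨r / 4, by positivity, fun x hx => ?_⟩
  have hcon : Continuous fun y : Q => inner ℝ u (S.e (ι y)) := by
    have : Isometry (fun y : Q => S.e (ι y)) := Isometry.of_dist_eq fun y z => by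
      rw [dist_eq_norm, ← S.isom, hι.dist_eq]
    exact continuous_const.inner this.continuous
  refine ⟨fun y => inner ℝ u (S.e (ι y)), hcon.continuousOn, ?_⟩
  intro y hy y' hy' he
  have hb : ∀ y, SR G (r / 4) x y → dist y q₀ < r := by
    intro y hy
    have e1 : dist x y ≤ r / 4 := hy 0
    have e2 := mem_ball.mp hx
    have e3 := dist_triangle_left y q₀ x
    linarith
  refine h y y' (hb y hy) (hb y' hy') ((SR.tri (SR.symm' hy) hy').mono (by linarith)) ?_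
  rw [inner_sub_right, sub_eq_zero]
  exact he.symm

/-- Plaques without stable directions are points. -/
theorem plaque_pt (S : HypSys X F) (ι : Q → X) (hι : Isometry ι) (G : Q ≃ₜ Q)
    (hG : ∀ q, ι (G q) = S.g (ι q)) (T : Submodule ℝ F) (q₀ : Q)
    (hT : ∀ η > 0, ∃ r > 0, ∀ q q', dist q q₀ < r → dist q' q₀ < r →
      ∃ t ∈ T, ‖S.e (ι q') - S.e (ι q) - t‖ ≤ η * dist q q')
    (hd : S.Vs (ι q₀) ⊓ T = ⊥) : ∃ δ > 0, ∀ q, SR G δ q₀ q → q = q₀ := by
  obtain ⟨u, hu, r, hr, h⟩ := emb_local S ι hι G hG T q₀ hT (by rw [hd, finrank_bot]; omega)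
  rw [hd, Submodule.mem_bot] at hu
  refine ⟨r / 2, half_pos hr, fun q hq => (h q₀ q (by rw [dist_self]; exact hr) ?_
    (hq.mono (by linarith)) (by rw [hu, inner_zero_left])).symm⟩
  have := hq 0
  rw [dist_comm] at this
  exact lt_of_le_of_lt this (half_lt_self hr)

/-- uniform sizes -/
theorem emb1_of_Zs {G : Q ≃ₜ Q} (h : Zs G = univ) : ∃ δ > 0, Emb1 G δ := by
  have h0 : ∀ x : Q, ∃ r > 0, ∀ y ∈ ball x r, E1 G r y := fun x => by
    have : x ∈ Zs G := by rw [h]; trivial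
    exact this
  choose r hr hr' using h0
  obtain ⟨t, ht⟩ := CompactSpace.elim_nhds_subcover (fun q : Q => ball q (r q))
    (fun q => ball_mem_nhds q (hr q))
  rcases isEmpty_or_nonempty Q with hQ | hQ
  · exact ⟨1, one_pos, fun x => hQ.elim x⟩
  have htn : t.Nonempty := by
    by_contra hcon
    rw [Finset.not_nonempty_iff_eq_empty] at hcon
    obtain ⟨q⟩ := hQ
    have : q ∈ (⊤ : Set Q) := trivial
    rw [← ht, hcon] at this
    simp at this
  refine ⟨t.inf' htn r, ?_, fun x => ?_⟩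
  · rw [gt_iff_lt, Finset.lt_inf'_iff]
    intro q _
    exact hr q
  · obtain ⟨q₀, hq₀, hx⟩ : ∃ q₀ ∈ t, x ∈ ball q₀ (r q₀) := by
      have : x ∈ (⊤ : Set Q) := trivial
      rw [← ht] at this
      simpa using this
    exact (hr' q₀ x hx).mono (Finset.inf'_le _ hq₀)

/-- Small stable plaques embed in the line. -/
theorem exists_emb1 (S : HypSys X F) (ι : Q → X) (hι : Isometry ι) (G : Q ≃ₜ Q)
    (hG : ∀ q, ι (G q) = S.g (ι q)) (T : Q → Submodule ℝ F)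
    (hT : ∀ q₀, ∀ η > 0, ∃ r > 0, ∀ q q', dist q q₀ < r → dist q' q₀ < r →
      ∃ t ∈ T q₀, ‖S.e (ι q') - S.e (ι q) - t‖ ≤ η * dist q q')
    (hd : ∀ q, Module.finrank ℝ (S.Vs (ι q) ⊓ T q : Submodule ℝ F) ≤ 1) :
    ∃ δ > 0, Emb1 G δ :=
  emb1_of_Zs (eq_univ_of_forall fun q => mem_Zs S ι hι G hG (T q) q (hT q) (hd q))

end emb

end Pool.Agent.H244.Nh
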