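import Mathlib

/-!
# Charts on the fibres of a submersion
-/

set_option autoImplicit false
set_option linter.unusedSectionVars false

open Filter Topology Set
open scoped Manifold ContDiff

namespace Pool.Agent.H244.Nh

section gen
variable {X Y Z : Type*} [TopologicalSpace X] [TopologicalSpace Y] [TopologicalSpace Z]

open Classical in
/-- A chart of a level set. -/
noncomputable def fibChart (Φ : OpenPartialHomeomorph X (Y × Z)) (P : X → Prop) (y : Y)
    (h : ∀ x ∈ Φ.source, P x ↔ (Φ x).1 = y) (x₀ : {x // P x}) :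
    OpenPartialHomeomorph {x // P x} Z where
  toFun z := (Φ z.1).2
  invFun k := if h : P (Φ.symm (y, k)) then ⟨_, h⟩ else x₀
  source := {z | z.1 ∈ Φ.source}
  target := {k | (y, k) ∈ Φ.target}
  map_source' := by
    intro z hz
    show (y, (Φ z.1).2) ∈ Φ.target
    have h1 := (h z.1 hz).mp z.2
    rw [← h1]
    exact Φ.map_source hz
  map_target' := by
    intro k hk
    have h1 : P (Φ.symm (y, k)) := by
      rw [h _ (Φ.map_target hk), Φ.right_inv hk]
    rw [dif_pos h1]
    exact Φ.map_target hk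
  left_inv' := by
    intro z hz
    have h1 := (h z.1 hz).mp z.2
    have h2 : Φ.symm (y, (Φ z.1).2) = z.1 := by
      rw [← h1]
      exact Φ.left_inv hz
    have h3 : P (Φ.symm (y, (Φ z.1).2)) := by rw [h2]; exact z.2
    rw [dif_pos h3]
    exact Subtype.ext h2
  right_inv' := by
    intro k hk
    have h1 : P (Φ.symm (y, k)) := by
      rw [h _ (Φ.map_target hk), Φ.right_inv hk]
    rw [dif_pos h1]
    show (Φ (Φ.symm (y, k))).2 = k
    rw [Φ.right_inv hk]
  open_source := Φ.open_source.preimage continuous_subtype_val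
  open_target := Φ.open_target.preimage (by fun_prop)
  continuousOn_toFun := by
    refine continuous_snd.comp_continuousOn ?_
    exact Φ.continuousOn.comp continuous_subtype_val.continuousOn fun z hz => hz
  continuousOn_invFun := by
    refine (Topology.IsInducing.subtypeVal (t := {x | P x})).continuousOn_iff.mpr ?_
    have h1 : ContinuousOn (fun k => Φ.symm (y, k)) {k | (y, k) ∈ Φ.target} :=
      Φ.continuousOn_symm.comp (by fun_prop) fun k hk => hk
    refine h1.congr fun k hk => ?_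
    have h2 : P (Φ.symm (y, k)) := by
      rw [h _ (Φ.map_target hk), Φ.right_inv hk]
    show ((if h : P (Φ.symm (y, k)) then (⟨_, h⟩ : {x // P x}) else x₀) : {x // P x}).1 = _
    rw [dif_pos h2]

theorem fibChart_source (Φ : OpenPartialHomeomorph X (Y × Z)) (P : X → Prop) (y : Y)
    (h : ∀ x ∈ Φ.source, P x ↔ (Φ x).1 = y) (x₀ z : {x // P x}) :
    z ∈ (fibChart Φ P y h x₀).source ↔ z.1 ∈ Φ.source := Iff.rfl

end gen

section man
variable {E : Type*} [NormedAddCommGroup E] [NormedSpace ℝ E] [FiniteDimensional ℝ E]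
  {M : Type*} [TopologicalSpace M] [ChartedSpace E M]
  {E' : Type*} [NormedAddCommGroup E'] [NormedSpace ℝ E'] [FiniteDimensional ℝ E']
  {B : Type*} [TopologicalSpace B] [ChartedSpace E' B]

theorem exists_fib_chart (p : M → B) (hp : ContMDiff 𝓘(ℝ, E) 𝓘(ℝ, E') 1 p)
    (hs : ∀ x, Function.Surjective (mfderiv 𝓘(ℝ, E) 𝓘(ℝ, E') p x)) (b : B) (P : M → Prop)
    {O : Set M} (hO : IsOpen O) (hPO : ∀ x, P x → x ∈ O) (hP : ∀ x ∈ O, P x ↔ p x = b)
    (x : {x // P x}) :
    ∃ c : OpenPartialHomeomorph {x // P x}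
      (EuclideanSpace ℝ (Fin (Module.finrank ℝ E - Module.finrank ℝ E'))), x ∈ c.source := by
  have := FiniteDimensional.complete ℝ E
  have := FiniteDimensional.complete ℝ E'
  obtain ⟨x, hxP⟩ := x
  obtain rfl : p x = b := (hP x (hPO x hxP)).mp hxP
  set φ := extChartAt 𝓘(ℝ, E) x with hφ
  set ψ := extChartAt 𝓘(ℝ, E') (p x) with hψ
  set q : E → E' := ψ ∘ p ∘ φ.symm with hq
  obtain ⟨hc, hd⟩ := contMDiffAt_iff.mp (hp x)
  have hr : range (𝓘(ℝ, E) : ModelWithCorners ℝ E E) = univ := by simp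
  have hd' : ContDiffAt ℝ 1 q (φ x) := by
    rw [hr, contDiffWithinAt_univ] at hd
    exact hd
  have hst : HasStrictFDerivAt q (fderiv ℝ q (φ x)) (φ x) := hd'.hasStrictFDerivAt (by norm_num)
  have hmd : mfderiv 𝓘(ℝ, E) 𝓘(ℝ, E') p x = fderiv ℝ q (φ x) := by
    rw [((hp x).mdifferentiableAt (by norm_num)).mfderiv, hr, fderivWithin_univ]
    rfl
  have hsur : (fderiv ℝ q (φ x)).range = ⊤ := by
    rw [LinearMap.range_eq_top]
    have := hs x
    rw [hmd] at this
    exact this
  set e₁ := hst.implicitToOpenPartialHomeomorph q (fderiv ℝ q (φ x)) hsur with he₁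
  have hfst : ∀ z, (e₁ z).1 = q z := fun z =>
    hst.implicitToOpenPartialHomeomorph_fst hsur z
  set Φ : OpenPartialHomeomorph M (E' × (fderiv ℝ q (φ x)).ker) :=
    ((chartAt E x).trans e₁).restrOpen (p ⁻¹' ψ.source ∩ O)
      (((isOpen_extChartAt_source (p x)).preimage hp.continuous).inter hO) with hΦ
  have hsrc : ∀ z ∈ Φ.source, z ∈ φ.source ∧ p z ∈ ψ.source ∧ z ∈ O := by
    intro z hz
    rw [hΦ, OpenPartialHomeomorph.restrOpen_source] at hz
    refine ⟨?_, hz.2.1, hz.2.2⟩
    rw [hφ, extChartAt_source]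
    exact hz.1.1
  have h : ∀ z ∈ Φ.source, P z ↔ (Φ z).1 = ψ (p x) := by
    intro z hz
    obtain ⟨h1, h2, h2'⟩ := hsrc z hz
    have h3 : (Φ z).1 = ψ (p z) := by
      show (e₁ (φ z)).1 = _
      rw [hfst]
      show ψ (p (φ.symm (φ z))) = _
      rw [φ.left_inv h1]
    rw [h3, hP z h2']
    constructor
    · intro h4
      rw [h4]
    · intro h4
      exact ψ.injOn h2 (mem_extChartAt_source (p x)) h4
  have hdim : Module.finrank ℝ (fderiv ℝ q (φ x)).ker =
      Module.finrank ℝ (EuclideanSpace ℝ (Fin (Module.finrank ℝ E - Module.finrank ℝ E'))) := by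
    have h1 := LinearMap.finrank_range_add_finrank_ker (fderiv ℝ q (φ x)).toLinearMap
    have h2 : LinearMap.range (fderiv ℝ q (φ x)).toLinearMap = ⊤ := hsur
    rw [h2, finrank_top] at h1
    rw [finrank_euclideanSpace, Fintype.card_fin]
    exact (Nat.sub_eq_of_eq_add (by rw [add_comm]; exact h1.symm)).symm
  set A := ContinuousLinearEquiv.ofFinrankEq hdim with hA
  refine ⟨(fibChart Φ P (ψ (p x)) h ⟨x, hxP⟩).transHomeomorph A.toHomeomorph, ?_⟩
  rw [OpenPartialHomeomorph.transHomeomorph_source, fibChart_source]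
  show x ∈ Φ.source
  rw [hΦ, OpenPartialHomeomorph.restrOpen_source]
  refine ⟨?_, mem_extChartAt_source (p x), hPO x hxP⟩
  rw [OpenPartialHomeomorph.trans_source]
  refine ⟨mem_chart_source E x, ?_⟩
  exact hst.mem_implicitToOpenPartialHomeomorph_source hsur

/-- The fibres of a submersion are manifolds. -/
@[reducible] noncomputable def fibCharted (p : M → B) (hp : ContMDiff 𝓘(ℝ, E) 𝓘(ℝ, E') 1 p)
    (hs : ∀ x, Function.Surjective (mfderiv 𝓘(ℝ, E) 𝓘(ℝ, E') p x)) (b : B) (P : M → Prop)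
    {O : Set M} (hO : IsOpen O) (hPO : ∀ x, P x → x ∈ O) (hP : ∀ x ∈ O, P x ↔ p x = b) :
    ChartedSpace (EuclideanSpace ℝ (Fin (Module.finrank ℝ E - Module.finrank ℝ E')))
      {x // P x} where
  atlas := univ
  chartAt x := (exists_fib_chart p hp hs b P hO hPO hP x).choose
  mem_chart_source x := (exists_fib_chart p hp hs b P hO hPO hP x).choose_spec
  chart_mem_atlas _ := trivial

end man

end Pool.Agent.H244.Nh
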