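import Pool.Agent.H244.Nw2
import Pool.Agent.H244.Nw3
import Pool.Graph.R_seed8.TH289.K.Def
import Pool.Graph.R_seed8.TH289.L.Q4
import Pool.Graph.R_pool_sql_team_seeded_b0a926ef.R189.Fb4

/-!
# Periodic fibres: local product structure
-/

set_option autoImplicit false
set_option linter.unusedSectionVars false

open Filter Topology Set Metric
open scoped Manifold ContDiff

namespace Pool.Agent.H244.Nh

open Pool.Agent.H721R2 Pool.Agent.H789R2.AN Pool.Agent.H789R2.GP Pool.Agent.TH289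
  Pool.Agent.TH289.K Pool.Agent.R189.Sf Pool.Agent.R189.Fb

/-- Hyperbolic systems have periodic points. -/
theorem exists_per {X : Type*} [MetricSpace X] [CompactSpace X] [Nonempty X] {E : Type*}
    [NormedAddCommGroup E] [NormedSpace ℝ E] (S : HypSys X E) :
    ∃ n ≥ 1, ∃ p, S.g^[n] p = p := by
  obtain ⟨δ, hδ, hsh⟩ := per_shadow S one_pos
  obtain ⟨x⟩ : Nonempty X := inferInstance
  obtain ⟨a, φ, hφ, hlim⟩ := CompactSpace.tendsto_subseq (fun n : ℕ => S.g^[n] x)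
  have hc := (hlim.cauchySeq)
  rw [Metric.cauchySeq_iff] at hc
  obtain ⟨k, hk⟩ := hc δ hδ
  have h1 := hk k le_rfl (k + 1) (by omega)
  simp only [Function.comp_apply] at h1
  have hlt : φ k < φ (k + 1) := hφ (by omega)
  set y := S.g^[φ k] x with hy
  obtain ⟨m, hm⟩ : ∃ m : ℕ, φ (k + 1) = (m + 1) + φ k := ⟨φ (k + 1) - φ k - 1, by omega⟩
  rw [hm, Function.iterate_add_apply, ← hy] at h1
  obtain ⟨p, hp, -⟩ := hsh (m + 1) (fun n : ℤ => S.g^[(n % ((m + 1 : ℕ) : ℤ)).toNat] y) (fun n => by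
    show S.g^[((n + ((m + 1 : ℕ) : ℤ)) % ((m + 1 : ℕ) : ℤ)).toNat] y = _
    rw [Int.add_emod_right]) (fun n => by
    set M : ℤ := ((m + 1 : ℕ) : ℤ) with hM
    have hM0 : 0 < M := by rw [hM]; positivity
    have e1 := Int.emod_nonneg n hM0.ne'
    have e2 := Int.emod_lt_of_pos n hM0
    obtain ⟨j, hj⟩ := Int.eq_ofNat_of_zero_le e1
    have e3 : (n + 1) % M = ((j : ℤ) + 1) % M := by rw [← hj, Int.emod_add_emod]
    show dist (S.g (S.g^[(n % M).toNat] y)) (S.g^[((n + 1) % M).toNat] y) ≤ δ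
    rw [e3, hj, Int.toNat_natCast, ← Function.iterate_succ_apply' S.g]
    rw [hj, hM] at e2
    have e2' : j < m + 1 := by exact_mod_cast e2
    rcases lt_or_ge (j + 1) (m + 1) with hlt | hge
    · have e4 : ((j : ℤ) + 1) % M = ((j + 1 : ℕ) : ℤ) := by
        rw [Int.emod_eq_of_lt (by positivity) (by rw [hM]; exact_mod_cast hlt)]
        push_cast; rfl
      rw [e4, Int.toNat_natCast, dist_self]
      exact hδ.le
    · have e5 : j = m := by omega
      have e4 : ((j : ℤ) + 1) % M = 0 := by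
        rw [hM, e5]; push_cast; exact Int.emod_self
      rw [e4, e5, Int.toNat_zero, Function.iterate_zero_apply, dist_comm]
      exact h1.le)
  exact ⟨m + 1, by omega, p, hp⟩

section fibre

variable {X : Type*} [MetricSpace X] [CompactSpace X] {B : Type*} [TopologicalSpace B]
  [CompactSpace B] [T2Space B] {f : X ≃ₜ X} {γ : B ≃ₜ B} {p : X → B}

theorem semi_iter (hpf : ∀ x, p (f x) = γ (p x)) (n : ℕ) (x : X) : p (f^[n] x) = γ^[n] (p x) :=
  (Function.Semiconj.iterate_right (f := p) (ga := f) (gb := γ) hpf n) x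

theorem semi_symm (hpf : ∀ x, p (f x) = γ (p x)) (x : X) : p (f.symm x) = γ.symm (p x) := by
  apply γ.injective
  rw [← hpf, f.apply_symm_apply, γ.apply_symm_apply]

theorem nhds_pull (hp : Continuous p) (n : ℕ) {𝒰 : Set (B × B)} (hU : 𝒰 ∈ 𝓝ˢ (diagonal B)) :
    ∃ ε > 0, ∀ i ≤ n, ∀ x x', dist x x' < ε → (p (f^[i] x), p (f^[i] x')) ∈ 𝒰 := by
  obtain ⟨e, he, h1⟩ : ∃ e > 0, ∀ x x', dist x x' < e → (p x, p x') ∈ 𝒰 := by
    have h2 : Tendsto (fun q : X × X => (p q.1, p q.2)) (𝓝ˢ (diagonal X)) (𝓝ˢ (diagonal B)) := by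
      refine Continuous.tendsto_nhdsSet (by fun_prop) ?_
      rintro ⟨a, b⟩ hab
      show p a = p b
      rw [show a = b from hab]
    have h3 := h2 hU
    rw [nhdsSet_diagonal_eq_uniformity] at h3
    obtain ⟨e, he, h4⟩ := Metric.mem_uniformity_dist.mp h3
    exact ⟨e, he, fun x x' h => h4 h⟩
  obtain ⟨ε, hε, h2⟩ := T1_unif f n he
  exact ⟨ε, hε, fun i hi x x' h => h1 _ _ (h2 i hi x x' h)⟩

/-- Brackets of points of a periodic fibre over an expansive base stay in the fibre. -/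
theorem bracket_mem (hp : Continuous p) (hpf : ∀ x, p (f x) = γ (p x)) (hγ : Expansive γ) {N : ℕ}
    (hN : 1 ≤ N) : ∃ ε > 0, ∀ x y z, p x = p y → SR (iterHomeo f N) ε x z →
      SR (iterHomeo f N).symm ε y z → p z = p x := by
  obtain ⟨𝒰, hU, hexp⟩ := hγ
  obtain ⟨ε₁, hε₁, h1⟩ := nhds_pull (f := f) hp N hU
  obtain ⟨ε₂, hε₂, h2⟩ := nhds_pull (f := f.symm) hp N hU
  refine ⟨min (ε₁ / 2) (ε₂ / 2), by positivity, fun x y z hxy hxz hyz => ?_⟩
  refine (hexp _ _ fun n => ⟨?_, ?_⟩).symm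
  · rw [← semi_iter hpf, ← semi_iter hpf]
    have hn : n = n % N + N * (n / N) := (Nat.mod_add_div n N).symm
    rw [hn, Function.iterate_add_apply, Function.iterate_add_apply, ← iterHomeo_iter,
      ← iterHomeo_iter]
    refine h1 _ (Nat.mod_lt _ (by omega)).le _ _ (lt_of_le_of_lt (hxz _) ?_)
    have := min_le_left (ε₁ / 2) (ε₂ / 2)
    linarith
  · rw [hxy, ← semi_iter (f := f.symm) (γ := γ.symm) (semi_symm hpf),
      ← semi_iter (f := f.symm) (γ := γ.symm) (semi_symm hpf)]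
    have hn : n = n % N + N * (n / N) := (Nat.mod_add_div n N).symm
    rw [hn, Function.iterate_add_apply, Function.iterate_add_apply, ← iterHomeo_symm_iter,
      ← iterHomeo_symm_iter]
    refine h2 _ (Nat.mod_lt _ (by omega)).le _ _ (lt_of_le_of_lt (hyz _) ?_)
    have := min_le_right (ε₁ / 2) (ε₂ / 2)
    linarith

/-- The return map of a part of a periodic fibre over an expansive base has local product
structure. -/
theorem fibre_LP (hp : Continuous p) (hpf : ∀ x, p (f x) = γ (p x)) (hγ : Expansive γ) {N : ℕ}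
    (hN : 1 ≤ N) {y₀ : B} {P : X → Prop} (hPc : IsClosed {x | P x}) {O : Set X} (hO : IsOpen O)
    (hPO : ∀ x, P x → x ∈ O) (hP : ∀ x ∈ O, P x ↔ p x = y₀) {c : ℝ} (h : LP (iterHomeo f N) c)
    (G : {x // P x} ≃ₜ {x // P x}) (hG : ∀ q, (G q).1 = iterHomeo f N q.1) :
    LP G c := by
  have hG' : ∀ q, (G.symm q).1 = (iterHomeo f N).symm q.1 := by
    intro q
    apply (iterHomeo f N).injective
    rw [← hG, G.apply_symm_apply, (iterHomeo f N).apply_symm_apply]
  have hGn : ∀ (n : ℕ) q, (G^[n] q).1 = (iterHomeo f N)^[n] q.1 := by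
    intro n
    induction n with
    | zero => intro q; rfl
    | succ n ih => intro q; rw [Function.iterate_succ_apply', hG, ih, Function.iterate_succ_apply']
  have hGn' : ∀ (n : ℕ) q, (G.symm^[n] q).1 = (iterHomeo f N).symm^[n] q.1 := by
    intro n
    induction n with
    | zero => intro q; rfl
    | succ n ih => intro q; rw [Function.iterate_succ_apply', hG', ih, Function.iterate_succ_apply']
  have hSR : ∀ ε q q', SR G ε q q' ↔ SR (iterHomeo f N) ε q.1 q'.1 := by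
    intro ε q q'
    refine forall_congr' fun k => ?_
    rw [← hGn, ← hGn]
    exact Iff.rfl
  have hSR' : ∀ ε q q', SR G.symm ε q q' ↔ SR (iterHomeo f N).symm ε q.1 q'.1 := by
    intro ε q q'
    refine forall_congr' fun k => ?_
    rw [← hGn', ← hGn']
    exact Iff.rfl
  obtain ⟨ρ, hρ, hρO⟩ : ∃ ρ > 0, ∀ x, P x → ∀ z, dist x z ≤ ρ → z ∈ O := by
    obtain ⟨ρ, hρ, h1⟩ := (hPc.isCompact).exists_cthickening_subset_open hO (fun x hx => hPO x hx)
    refine ⟨ρ, hρ, fun x hx z hz => h1 ?_⟩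
    exact mem_cthickening_of_dist_le z x ρ _ hx (by rwa [dist_comm])
  refine ⟨h.c_pos, fun x y hxy n => ?_, fun x y hxy n => ?_, fun ε hε => ?_⟩
  · have := h.cS _ _ ((hSR _ _ _).mp hxy) n
    rw [← hGn, ← hGn] at this
    exact this
  · have := h.cU _ _ ((hSR' _ _ _).mp hxy) n
    rw [← hGn', ← hGn'] at this
    exact this
  · obtain ⟨ε₁, hε₁, h1⟩ := bracket_mem hp hpf hγ hN
    obtain ⟨δ, hδ, h2⟩ := h.lp (min (min ε ρ) ε₁) (lt_min (lt_min hε hρ) hε₁)
    refine ⟨δ, hδ, fun x y hxy => ?_⟩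
    obtain ⟨z, h3, h4⟩ := h2 x.1 y.1 hxy
    have hx0 := (hP _ (hPO _ x.2)).mp x.2
    have hy0 := (hP _ (hPO _ y.2)).mp y.2
    have hz : p z = y₀ := (h1 x.1 y.1 z (hx0.trans hy0.symm) (h3.mono (min_le_right _ _))
      (h4.mono (min_le_right _ _))).trans hx0
    have hzO : z ∈ O := hρO x.1 x.2 z ((h3 0).trans ((min_le_left _ _).trans (min_le_right _ _)))
    exact ⟨⟨z, (hP z hzO).mpr hz⟩,
      (hSR _ _ _).mpr (h3.mono ((min_le_left _ _).trans (min_le_left _ _))),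
      (hSR' _ _ _).mpr (h4.mono ((min_le_left _ _).trans (min_le_left _ _)))⟩

end fibre

section tangent

variable {E : Type*} [NormedAddCommGroup E] [NormedSpace ℝ E] [FiniteDimensional ℝ E]
  {M : Type*} [MetricSpace M] [CompactSpace M] [ChartedSpace E M] [IsManifold 𝓘(ℝ, E) 1 M]
  {E' : Type*} [NormedAddCommGroup E'] [NormedSpace ℝ E'] [FiniteDimensional ℝ E']
  {B : Type*} [TopologicalSpace B] [ChartedSpace E' B] [IsManifold 𝓘(ℝ, E') 1 B]
  {F : Type*} [NormedAddCommGroup F] [NormedSpace ℝ F]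
  {F' : Type*} [NormedAddCommGroup F'] [NormedSpace ℝ F']

/-- Differences of close points of a fibre are close to the tangent space of the fibre. -/
theorem fib_tangent {e : M → F} (hiso : ∀ x y, dist x y = ‖e x - e y‖)
    (he : ContMDiff 𝓘(ℝ, E) 𝓘(ℝ, F) 1 e) (hinj : ∀ x, Function.Injective (dm E e x))
    {e' : B → F'} (he' : ContMDiff 𝓘(ℝ, E') 𝓘(ℝ, F') 1 e')
    (hinj' : ∀ y, Function.Injective (dm E' e' y))
    (p : M → B) (hp : ContMDiff 𝓘(ℝ, E) 𝓘(ℝ, E') 1 p)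
    (hs : ∀ x, Function.Surjective (di E E' p x)) (x₀ : M) {η : ℝ} (hη : 0 < η) :
    ∃ r > 0, ∀ x y, dist x x₀ < r → dist y x₀ < r → p x = p y →
      ∃ v, di E E' p x₀ v = 0 ∧ ‖e y - e x - dm E e x₀ v‖ ≤ η * dist x y := by
  have hh : ContMDiff 𝓘(ℝ, E) 𝓘(ℝ, F') 1 (e' ∘ p) := he'.comp hp
  have hdp : ∀ z v, dm E (e' ∘ p) z v = dm E' e' (p z) (di E E' p z v) := dm_comp_di e' he' p hp
  have hker : ∀ z v, dm E (e' ∘ p) z v = 0 ↔ di E E' p z v = 0 := fun z v => by
    rw [hdp]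
    constructor
    · intro h0
      exact hinj' _ (h0.trans (map_zero _).symm)
    · intro h0
      rw [h0, map_zero]
  have hrank : ∀ x, Module.finrank ℝ (LinearMap.ker (dm E (e' ∘ p) x).toLinearMap) =
      Module.finrank ℝ E - Module.finrank ℝ E' := by
    intro x
    have h1 : LinearMap.ker (dm E (e' ∘ p) x).toLinearMap =
        LinearMap.ker (di E E' p x).toLinearMap := by
      ext v
      exact hker x v
    have h2 := LinearMap.finrank_range_add_finrank_ker (di E E' p x).toLinearMap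
    have h3 : LinearMap.range (di E E' p x).toLinearMap = ⊤ := LinearMap.range_eq_top.mpr (hs x)
    rw [h3, finrank_top] at h2
    rw [h1]
    omega
  obtain ⟨C, hC, hkp⟩ := ker_unif e he (e' ∘ p) hh _ hrank
  set θ := min 1 (η / (3 * (1 + C))) with hθ
  have hθ0 : 0 < θ := by positivity
  have hθ1 : θ ≤ 1 := min_le_left _ _
  have hθ2 : θ * (3 * (1 + C)) ≤ η := by
    have : θ ≤ η / (3 * (1 + C)) := min_le_right _ _
    rwa [le_div_iff₀ (by positivity)] at this
  obtain ⟨-, hloc⟩ := local_all e he hinj (e' ∘ p) hh x₀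
  obtain ⟨W, hW, -, -, h1, -, h3⟩ := hloc θ hθ0
  obtain ⟨r, hr, hrW⟩ := Metric.mem_nhds_iff.mp hW
  refine ⟨r, hr, fun x y hx hy hxy => ?_⟩
  obtain ⟨v, h4, h5⟩ := h1 x (hrW hx) y (hrW hy)
  obtain ⟨w, h6, h7⟩ := h3 x (hrW hx) x₀ (hrW (mem_ball_self hr)) v
  obtain ⟨w', h8, h9⟩ := hkp x₀ w
  have hd : ‖e y - e x‖ = dist x y := by rw [hiso, norm_sub_rev]
  have hd0 : 0 ≤ dist x y := dist_nonneg
  rw [hd] at h4 h5
  have e1 : (e' ∘ p) y - (e' ∘ p) x = 0 := by
    show e' (p y) - e' (p x) = 0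
    rw [hxy, sub_self]
  rw [e1, zero_sub, norm_neg] at h5
  have e2 : ‖dm E e x v‖ ≤ 2 * dist x y := by
    have := norm_sub_le (e y - e x) (e y - e x - dm E e x v)
    rw [sub_sub_cancel, hd] at this
    have h10 : θ * dist x y ≤ 1 * dist x y := mul_le_mul_of_nonneg_right hθ1 hd0
    linarith
  have e3 : θ * ‖dm E e x v‖ ≤ θ * (2 * dist x y) := mul_le_mul_of_nonneg_left e2 hθ0.le
  have e4 : ‖dm E (e' ∘ p) x₀ w‖ ≤ 3 * (θ * dist x y) := by
    have := norm_sub_le (dm E (e' ∘ p) x v) (dm E (e' ∘ p) x v - dm E (e' ∘ p) x₀ w)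
    rw [sub_sub_cancel] at this
    linarith
  refine ⟨w', (hker x₀ w').mp h8, ?_⟩
  have e5 : e y - e x - dm E e x₀ w' = (e y - e x - dm E e x v) +
      (dm E e x v - dm E e x₀ w) + dm E e x₀ (w - w') := by
    rw [map_sub]; abel
  rw [e5]
  have e6 := norm_add₃_le (a := e y - e x - dm E e x v) (b := dm E e x v - dm E e x₀ w)
    (c := dm E e x₀ (w - w'))
  have e7 : C * ‖dm E (e' ∘ p) x₀ w‖ ≤ C * (3 * (θ * dist x y)) :=
    mul_le_mul_of_nonneg_left e4 hC.le
  have e8 : θ * (3 * (1 + C)) * dist x y ≤ η * dist x y := mul_le_mul_of_nonneg_right hθ2 hd0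
  have e9 : θ * (3 * (1 + C)) * dist x y = 3 * (θ * dist x y) + C * (3 * (θ * dist x y)) := by ring
  linarith

end tangent

end Pool.Agent.H244.Nh
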