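import Pool.Agent.H244.Nw4

/-!
# Anosov extensions with fibres of codimension one
-/

set_option autoImplicit false
set_option linter.unusedSectionVars false

open Filter Topology Set Metric
open scoped Manifold ContDiff

namespace Pool.Agent.H244.Nh

open Pool.Agent.H721R2 Pool.Agent.H789R2.AN Pool.Agent.H789R2.GP Pool.Agent.TH289
  Pool.Agent.TH289.K Pool.Agent.R189.Sf Pool.Agent.R189.Fb

theorem finrank_inf_map {E F : Type*} [NormedAddCommGroup E] [NormedSpace ℝ E]
    [FiniteDimensional ℝ E] [NormedAddCommGroup F] [NormedSpace ℝ F] (L : E →L[ℝ] F)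
    (hL : Function.Injective L) {V W : Submodule ℝ E} {n : ℕ}
    (h : Module.finrank ℝ (V ⊓ W : Submodule ℝ E) ≤ n) :
    Module.finrank ℝ (V.map L.toLinearMap ⊓ W.map L.toLinearMap : Submodule ℝ F) ≤ n := by
  rw [← Submodule.map_inf L.toLinearMap hL]
  exact (Submodule.finrank_map_le _ _).trans h

section comp

variable {Q : Type*} [TopologicalSpace Q]

theorem homeo_comp (H : Q ≃ₜ Q) (x y : Q) :
    H x ∈ connectedComponent (H y) ↔ x ∈ connectedComponent y := by
  constructor
  · intro h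
    have := H.symm.continuous.mapsTo_connectedComponent (H y) h
    rwa [H.symm_apply_apply, H.symm_apply_apply] at this
  · intro h
    exact H.continuous.mapsTo_connectedComponent y h

theorem homeo_comp_iter (H : Q ≃ₜ Q) (n : ℕ) (x y : Q) :
    H^[n] x ∈ connectedComponent (H^[n] y) ↔ x ∈ connectedComponent y := by
  induction n with
  | zero => exact Iff.rfl
  | succ n ih =>
    rw [Function.iterate_succ_apply', Function.iterate_succ_apply', homeo_comp, ih]

/-- Some iterate of a homeomorphism maps a given component to itself. -/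
theorem exists_comp_iter [CompactSpace Q] [LocallyConnectedSpace Q] (H : Q ≃ₜ Q) (b : Q) :
    ∃ n ≥ 1, ∀ x, H^[n] x ∈ connectedComponent b ↔ x ∈ connectedComponent b := by
  obtain ⟨z, hz⟩ := exists_clusterPt_of_compactSpace (map (fun n : ℕ => H^[n] b) atTop)
  have hz' : MapClusterPt z atTop (fun n : ℕ => H^[n] b) := hz
  rw [mapClusterPt_iff_frequently] at hz'
  have h1 := hz' (connectedComponent z) (isOpen_connectedComponent.mem_nhds mem_connectedComponent)
  rw [frequently_atTop] at h1
  obtain ⟨i, -, hi⟩ := h1 0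
  obtain ⟨j, hj, hj'⟩ := h1 (i + 1)
  obtain ⟨n, rfl⟩ : ∃ n, j = (n + 1) + i := ⟨j - i - 1, by omega⟩
  refine ⟨n + 1, by omega, fun x => ?_⟩
  have h2 : connectedComponent (H^[n + 1 + i] b) = connectedComponent (H^[i] b) :=
    (connectedComponent_eq hj').symm.trans (connectedComponent_eq hi)
  rw [← homeo_comp_iter H i, ← Function.iterate_add_apply, ← h2, Nat.add_comm i (n + 1),
    homeo_comp_iter]

end comp

section top

variable {X : Type*} [MetricSpace X] [CompactSpace X]

/-- periodic points near points of minimal attractors -/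
theorem per_near {E : Type*} [NormedAddCommGroup E] [NormedSpace ℝ E]
    (S : HypSys X E) {f : X ≃ₜ X} {N : ℕ} (hN : 1 ≤ N) (hS : S.g = iterHomeo f N)
    {A : Set X} (hA : MinAtt f A) {x : X} (hx : x ∈ A) {ε : ℝ} (hε : 0 < ε) :
    ∃ q, dist q x < ε ∧ ∃ m ≥ 1, f^[m] q = q := by
  obtain ⟨c, hLP⟩ := exists_LP S
  rw [hS] at hLP
  obtain ⟨δ₁, hδ₁, hsh⟩ := per_shadow S (half_pos hε)
  obtain ⟨δ, hδ, hps⟩ := pseudo_iter f N hδ₁
  obtain ⟨m, hm, u, hu1, hu2, hu3⟩ := loop_of_transGen (chain_tr hN hLP hA hx hx hδ)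
  have hper : ∀ (k : ℕ) (n : ℤ), u (n + k * m) = u n := by
    intro k
    induction k with
    | zero => intro n; simp
    | succ k ih =>
      intro n
      have : n + ((k + 1 : ℕ) : ℤ) * m = (n + k * m) + m := by push_cast; ring
      rw [this, hu1, ih]
  have h1 : ∀ n : ℤ, dist (S.g (u (N * n))) (u (N * (n + 1))) ≤ δ₁ := by
    intro n
    have h2 := hps (fun i : ℕ => u (N * n + i)) (fun i => by
      have h3 := (hu3 (N * n + i)).2.2
      push_cast
      rw [← add_assoc]
      exact h3)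
    simp only [Nat.cast_zero, add_zero] at h2
    rw [hS, iterHomeo_apply]
    have h4 : (N : ℤ) * (n + 1) = N * n + N := by ring
    rw [h4]
    exact h2
  obtain ⟨p, hp1, hp2, -⟩ := hsh m (fun n => u (N * n)) (fun n => by
    show u (N * (n + m)) = u (N * n)
    have := hper N (N * n)
    rw [← this]
    congr 1
    ring) h1
  have h5 := hp2 0
  simp only [Function.iterate_zero, id_eq, Nat.cast_zero, mul_zero, hu2] at h5
  refine ⟨p, by linarith, N * m, Nat.mul_pos (by omega) (by omega), ?_⟩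
  rw [hS, iterHomeo_iter] at hp1
  exact hp1

variable {B : Type*} [TopologicalSpace B] [CompactSpace B] [T2Space B] {f : X ≃ₜ X} {g : B ≃ₜ B}
  {p : X → B}

/-- the periodic points of the base are dense -/
theorem per_dense {E : Type*} [NormedAddCommGroup E] [NormedSpace ℝ E] [Nonempty X]
    (S : HypSys X E) {N : ℕ} (hN : 1 ≤ N) (hS : S.g = iterHomeo f N) (ht : TopTransitive g)
    (hc : Continuous p) (hfg : ∀ x, p (f x) = g (p x))
    (hint : ∀ W : Set X, IsOpen W → W.Nonempty → (interior (p '' W)).Nonempty)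
    {V : Set B} (hV : IsOpen V) (hVn : V.Nonempty) : ∃ y ∈ V, ∃ k ≥ 1, g^[k] y = y := by
  obtain ⟨c, hLP⟩ := exists_LP S
  rw [hS] at hLP
  obtain ⟨A, -, hA⟩ := exists_minAtt (isAtt_univ f)
  obtain ⟨y, hy⟩ := hVn
  have h1 : y ∈ p '' A := by
    rw [Pool.Agent.TH289.L.att_surj hN hLP hA.1 ht hc hfg hint]; trivial
  obtain ⟨x, hx, rfl⟩ := h1
  obtain ⟨ε, hε, hball⟩ := Metric.isOpen_iff.mp (hV.preimage hc) x hy
  obtain ⟨q, hq, m, hm, hmq⟩ := per_near S hN hS hA hx hε
  refine ⟨p q, hball (mem_ball.mpr hq), m, hm, ?_⟩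
  rw [← semi_iter (f := f) (γ := g) hfg, hmq]

/-- If basins contain only points of the attractor in the periodic fibres then there are no proper
attractors. -/
theorem unique_of_per [ConnectedSpace X] {E : Type*} [NormedAddCommGroup E] [NormedSpace ℝ E]
    (S : HypSys X E) {N : ℕ} (hN : 1 ≤ N) (hS : S.g = iterHomeo f N) (ht : TopTransitive g)
    (hc : Continuous p) (hfg : ∀ x, p (f x) = g (p x))
    (hint : ∀ W : Set X, IsOpen W → W.Nonempty → (interior (p '' W)).Nonempty)
    {A : Set X} (hA : IsAtt f A)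
    (hper : ∀ b ∈ Bas f A, ∀ k ≥ 1, g^[k] (p b) = p b → b ∈ A) : A = univ := by
  obtain ⟨c, hLP⟩ := exists_LP S
  rw [hS] at hLP
  have hopen : IsOpen (Bas f A) := Pool.Agent.TH289.L.isOpen_bas' hN hLP hA
  have hsub : Bas f A ⊆ A := by
    intro b hb
    rw [← hA.closed.closure_eq, _root_.mem_closure_iff]
    intro W hW hbW
    have h1 := hint (W ∩ Bas f A) (hW.inter hopen) ⟨b, hbW, hb⟩
    obtain ⟨y, hy, k, hk, hky⟩ := per_dense S hN hS ht hc hfg hint isOpen_interior h1
    obtain ⟨b', ⟨hb'W, hb'⟩, rfl⟩ := interior_subset hy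
    exact ⟨b', hb'W, hper b' hb' k hk hky⟩
  have he : A = Bas f A := Subset.antisymm (subset_bas f A) hsub
  have hop : IsOpen A := by rw [he]; exact hopen
  exact IsClopen.eq_univ ⟨hA.closed, hop⟩ hA.nonempty

end top

end Pool.Agent.H244.Nh
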