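import Pool.Agent.H244.Nw2
import Pool.Graph.R_seed8.W964.LieExp.InvDim

/-!
# Newhouse's theorem, mixed version
-/

set_option autoImplicit false
set_option linter.unusedSectionVars false

open Filter Topology Set Metric

namespace Pool.Agent.H244.Nh

open Pool.Agent.H721R2 Pool.Agent.H789R2.AN Pool.Agent.H789R2.GP Pool.Agent.TH289

/-- no proper repellers imply no proper attractors -/
theorem unique_symm {X : Type*} [MetricSpace X] [CompactSpace X] {G : X ≃ₜ X} {c : ℝ}
    (h : LP G c) (huniq : ∀ A, IsAtt G.symm A → A = univ) (A' : Set X) (hA' : IsAtt G A') :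
    A' = univ := by
  by_contra hne
  obtain ⟨z, hz⟩ := (ne_univ_iff_exists_notMem A').mp hne
  obtain ⟨w, hw, -⟩ := exists_repeller h hA' hz
  have hR : IsAtt G.symm (Bas G A')ᶜ := by
    refine ⟨(isOpen_bas h hA').isClosed_compl, ⟨w, hw⟩, fun x => ?_, fun x hx y hxy hy => ?_⟩
    · rw [mem_compl_iff, mem_compl_iff]
      exact not_congr (inv_symm (fun x => bas_map (fun _ => rfl) hA'.inv x) x)
    · obtain ⟨a, ha, hya⟩ := hy
      exact hx ⟨a, ha, WS.trans hxy hya⟩
  have h1 := huniq _ hR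
  obtain ⟨a, ha⟩ := hA'.nonempty
  have h2 : a ∈ (Bas G A')ᶜ := by rw [h1]; trivial
  exact h2 (subset_bas G A' ha)

variable {X : Type*} [MetricSpace X] [CompactSpace X] {g : X ≃ₜ X} {c : ℝ}

/-- near a point of `Zs g ∩ Zs g.symm` the space injects into the plane -/
theorem inj_plane (h : LP g c) {x : X} (h1 : x ∈ Zs g) (h2 : x ∈ Zs g.symm) :
    ∃ η > 0, ∃ ψ : X → ℝ × ℝ, ContinuousOn ψ (ball x η) ∧ InjOn ψ (ball x η) := by
  obtain ⟨r₁, hr₁, h1⟩ := h1
  obtain ⟨r₂, hr₂, h2⟩ := h2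
  obtain ⟨φ₁, hφ₁, hi₁⟩ := h1 x (mem_ball_self hr₁)
  obtain ⟨φ₂, hφ₂, hi₂⟩ := h2 x (mem_ball_self hr₂)
  obtain ⟨br, δ, hbr⟩ := exists_BR h
  have hc := h.c_pos
  obtain ⟨η, hη, h3⟩ := hbr.small (min (min r₁ r₂) (c / 2)) (by positivity)
  set ε := min (min r₁ r₂) (c / 2) with hε
  have hε1 : ε ≤ r₁ := (min_le_left _ _).trans (min_le_left _ _)
  have hε2 : ε ≤ r₂ := (min_le_left _ _).trans (min_le_right _ _)
  have hε3 : ε ≤ c / 2 := min_le_right _ _
  refine ⟨min η δ, lt_min hη hbr.pos, fun y => (φ₁ (br x y), φ₂ (br y x)), ?_, ?_⟩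
  · have hb : ∀ y ∈ ball x (min η δ), dist x y < η ∧ dist y x < η ∧ dist x y < δ ∧
        dist y x < δ := by
      intro y hy
      have e1 := mem_ball.mp hy
      have e2 := mem_ball'.mp hy
      exact ⟨e2.trans_le (min_le_left _ _), e1.trans_le (min_le_left _ _),
        e2.trans_le (min_le_right _ _), e1.trans_le (min_le_right _ _)⟩
    have c1 : ContinuousOn (fun y => br x y) (ball x (min η δ)) := by
      intro y hy
      rw [Metric.continuousWithinAt_iff]
      intro e he
      obtain ⟨ρ, hρ, h4⟩ := hbr.cont e he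
      exact ⟨ρ, hρ, fun {y'} hy' hyy' => h4 x x y' y (hb y' hy').2.2.1 (hb y hy).2.2.1
        (by rwa [dist_self]) hyy'⟩
    have c2 : ContinuousOn (fun y => br y x) (ball x (min η δ)) := by
      intro y hy
      rw [Metric.continuousWithinAt_iff]
      intro e he
      obtain ⟨ρ, hρ, h4⟩ := hbr.cont e he
      exact ⟨ρ, hρ, fun {y'} hy' hyy' => h4 y' y x x (hb y' hy').2.2.2 (hb y hy).2.2.2
        hyy' (by rwa [dist_self])⟩
    refine (hφ₁.comp c1 fun y hy => ?_).prodMk (hφ₂.comp c2 fun y hy => ?_)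
    · exact (h3 x y (hb y hy).1).1.mono hε1
    · exact (h3 y x (hb y hy).2.1).2.mono hε2
  · intro y hy y' hy' he
    have hb : ∀ y ∈ ball x (min η δ), dist x y < η ∧ dist y x < η := by
      intro y hy
      have e1 := mem_ball.mp hy
      have e2 := mem_ball'.mp hy
      exact ⟨e2.trans_le (min_le_left _ _), e1.trans_le (min_le_left _ _)⟩
    obtain ⟨a1, a2⟩ := h3 x y (hb y hy).1
    obtain ⟨b1, b2⟩ := h3 y x (hb y hy).2
    obtain ⟨a1', a2'⟩ := h3 x y' (hb y' hy').1
    obtain ⟨b1', b2'⟩ := h3 y' x (hb y' hy').2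
    have e1 : br x y = br x y' := hi₁ (a1.mono hε1) (a1'.mono hε1) (congrArg Prod.fst he)
    have e2 : br y x = br y' x := hi₂ (b2.mono hε2) (b2'.mono hε2) (congrArg Prod.snd he)
    rw [← e1] at a2'
    rw [← e2] at b1'
    exact Pool.Agent.H789R2.GP.expansive h ((SR.tri b1 b1'.symm').mono (by linarith))
      ((SR.tri a2 a2'.symm').mono (by linarith))

/-- A point whose unstable plaque is a point: the space is a point. -/
theorem subsingleton_of_pt [ConnectedSpace X] (h : LP g c) (hX : ULC X) {x : X}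
    (hx : ∃ δ > 0, ∀ q, SR g.symm δ x q → q = x) : Subsingleton X := by
  have hc := h.c_pos
  obtain ⟨δ, hδ, hx⟩ := hx
  set Tu : Set X := {x | ∀ q, WS g.symm x q → q = x} with hTu
  have hxT : x ∈ Tu := fun q hq => leaf_iso h.symm hX hq hδ hx
  obtain ⟨ρ, hρ, h1⟩ := h.lp (c / 2) (half_pos hc)
  have hnear : ∀ a ∈ Tu, ∀ x, dist x a < ρ → SR g (c / 2) x a := by
    intro a ha x hx
    obtain ⟨z, h2, h3⟩ := h1 x a hx
    have := ha z (WS.of_SR (h.cU _ _ (h3.mono (by linarith))))
    rwa [this] at h2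
  have hstep : ∀ a ∈ Tu, ∀ y, dist y a < ρ / 2 → y ∈ Tu := by
    intro a ha y hy q hq
    refine leaf_iso h.symm hX hq (r := min (ρ / 2) c) (by positivity) fun q' hq' => ?_
    have e1 : dist q' a < ρ := by
      have e2 := sd hq'
      have e3 : min (ρ / 2) c ≤ ρ / 2 := min_le_left _ _
      have e4 := dist_triangle_left q' a y
      linarith
    have e2 : SR g c y q' := (SR.tri (hnear a ha y (by linarith)) (hnear a ha q' e1).symm').mono
      (by linarith)
    exact (Pool.Agent.H789R2.GP.expansive h e2 (hq'.mono (min_le_right _ _))).symm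
  have hop : IsOpen Tu := by
    rw [Metric.isOpen_iff]
    exact fun a ha => ⟨ρ / 2, half_pos hρ, fun y hy => hstep a ha y (mem_ball.mp hy)⟩
  have hcl : IsClosed Tu := by
    refine isClosed_of_closure_subset fun y hy => ?_
    obtain ⟨a, ha, hya⟩ := Metric.mem_closure_iff.mp hy (ρ / 2) (half_pos hρ)
    exact hstep a ha y hya
  have hT : Tu = univ := IsClopen.eq_univ ⟨hcl, hop⟩ ⟨x, hxT⟩
  have hfin : (univ : Set X).Finite := by
    refine finite_of_iso h.symm (isAtt_univ g.symm) hc fun a _ a' _ haa' => ?_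
    have : a ∈ Tu := by rw [hT]; trivial
    exact (this a' (WS.of_SR (h.cU _ _ haa'))).symm
  have : Finite X := Set.finite_univ_iff.mp hfin
  have hu : (univ : Set X).Subsingleton := by
    have h2 : IsPreconnected (univ : Set X) := isPreconnected_univ
    by_contra hns
    rw [Set.not_subsingleton_iff] at hns
    exact (h2.infinite_of_nontrivial hns) hfin
  exact Set.subsingleton_univ_iff.mp hu

/-- **Newhouse's theorem, mixed version.** -/
theorem newhouse_mixed [ConnectedSpace X] {r : ℕ} [ChartedSpace (EuclideanSpace ℝ (Fin r)) X]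
    (h : LP g c) (h3 : 3 ≤ r → ∀ x, x ∈ Zs g ∨ x ∈ Zs g.symm)
    (h2 : r ≤ 2 → ∀ x, x ∈ Zs g ∨ ∃ δ > 0, ∀ q, SR g.symm δ x q → q = x) :
    ∀ A, IsAtt g A → A = univ := by
  have hX : ULC X := ulc_of_charted (E := EuclideanSpace ℝ (Fin r))
  intro A hA
  rcases le_or_gt r 2 with hr | hr
  · by_cases hall : ∀ x, x ∈ Zs g
    · obtain ⟨δ, hδ, hE⟩ := emb1_of_Zs (eq_univ_of_forall hall)
      exact newhouse_LP h hX hδ hE A hA
    · push Not at hall
      obtain ⟨x, hx⟩ := hall
      have hs := subsingleton_of_pt h hX ((h2 hr x).resolve_left hx)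
      obtain ⟨a, ha⟩ := hA.nonempty
      exact eq_univ_of_forall fun y => by rw [Subsingleton.elim y a]; exact ha
  · have h3 := h3 hr
    have hdis : Zs g ∩ Zs g.symm = ∅ := by
      rw [eq_empty_iff_forall_notMem]
      rintro x ⟨hx1, hx2⟩
      obtain ⟨η, hη, ψ, hψ, hψi⟩ := inj_plane h hx1 hx2
      set φ := chartAt (EuclideanSpace ℝ (Fin r)) x with hφ
      have hopen : IsOpen (φ.target ∩ φ.symm ⁻¹' ball x η) :=
        φ.isOpen_inter_preimage_symm isOpen_ball
      have hmaps : MapsTo φ.symm (φ.target ∩ φ.symm ⁻¹' ball x η) (ball x η) := fun y hy => hy.2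
      have hle := Pool.Agent.W964.LieExp.finrank_le_of_injOn _ hopen (φ x)
        ⟨mem_chart_target _ x, by
          rw [mem_preimage, φ.left_inv (mem_chart_source _ x)]
          exact mem_ball_self hη⟩ (fun y => ψ (φ.symm y))
        (hψ.comp (φ.continuousOn_symm.mono inter_subset_left) hmaps)
        (fun y hy y' hy' he => φ.symm.injOn hy.1 hy'.1 (hψi (hmaps hy) (hmaps hy') he))
      rw [finrank_euclideanSpace, Fintype.card_fin, Module.finrank_prod, Module.finrank_self] at hle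
      omega
    have hcov : (univ : Set X) ⊆ Zs g ∪ Zs g.symm := fun x _ => h3 x
    have hpc := isPreconnected_univ (α := X)
    rcases (isPreconnected_iff_subset_of_disjoint.mp hpc) _ _ (isOpen_Zs g) (isOpen_Zs g.symm)
      hcov (by rw [univ_inter, hdis]) with hs | hs
    · obtain ⟨δ, hδ, hE⟩ := emb1_of_Zs (univ_subset_iff.mp hs)
      exact newhouse_LP h hX hδ hE A hA
    · obtain ⟨δ, hδ, hE⟩ := emb1_of_Zs (univ_subset_iff.mp hs)
      exact unique_symm h (newhouse_LP h.symm hX hδ hE) A hA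

end Pool.Agent.H244.Nh
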