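import Pool.Agent.H244.Nw5
import Pool.Agent.H244.Nw9

/-!
# Anosov extensions with fibres of codimension one: transitivity
-/

set_option autoImplicit false
set_option linter.unusedSectionVars false

open Filter Topology Set Metric
open scoped Manifold ContDiff

namespace Pool.Agent.H244.Nh

open Pool.Agent.H721R2 Pool.Agent.H789R2.AN Pool.Agent.H789R2.GP Pool.Agent.TH289
  Pool.Agent.TH289.K Pool.Agent.R189.Sf Pool.Agent.R189.Fb

theorem finrank_parts {E : Type*} [NormedAddCommGroup E] [NormedSpace ℝ E] [FiniteDimensional ℝ E]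
    {V V' K : Submodule ℝ E} (h : V ⊓ V' = ⊥) :
    Module.finrank ℝ (V ⊓ K : Submodule ℝ E) + Module.finrank ℝ (V' ⊓ K : Submodule ℝ E) ≤
      Module.finrank ℝ K := by
  have h1 := Submodule.finrank_sup_add_finrank_inf_eq (V ⊓ K) (V' ⊓ K)
  have h2 : (V ⊓ K) ⊓ (V' ⊓ K) = ⊥ := by
    rw [eq_bot_iff, ← h]
    exact le_inf (inf_le_left.trans inf_le_left) (inf_le_right.trans inf_le_left)
  rw [h2, finrank_bot, add_zero] at h1
  rw [← h1]
  exact Submodule.finrank_mono (sup_le inf_le_right inf_le_right)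

section manifold

variable {E : Type*} [NormedAddCommGroup E] [NormedSpace ℝ E] [FiniteDimensional ℝ E]
  {M : Type*} [MetricSpace M] [CompactSpace M]
  [ChartedSpace E M] [IsManifold 𝓘(ℝ, E) 1 M]
  {E' : Type*} [NormedAddCommGroup E'] [NormedSpace ℝ E'] [FiniteDimensional ℝ E']
  {B : Type*} [TopologicalSpace B] [T2Space B] [CompactSpace B]
  [ChartedSpace E' B] [IsManifold 𝓘(ℝ, E') 1 B]
  {F : Type*} [NormedAddCommGroup F] [InnerProductSpace ℝ F] [FiniteDimensional ℝ F]
  {F' : Type*} [NormedAddCommGroup F'] [NormedSpace ℝ F']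

/-- In a periodic fibre of codimension one the basin of an attractor is contained in the
attractor. -/
theorem fibre_full {ee : M → F} (hiso : ∀ x y, dist x y = ‖ee x - ee y‖)
    (he : ContMDiff 𝓘(ℝ, E) 𝓘(ℝ, F) 1 ee) (hinj : ∀ x, Function.Injective (dm E ee x))
    {e' : B → F'} (he' : ContMDiff 𝓘(ℝ, E') 𝓘(ℝ, F') 1 e')
    (hinj' : ∀ y, Function.Injective (dm E' e' y))
    {f : M ≃ₜ M} {Es Eu : M → Submodule ℝ E} (hdisj : ∀ x, Es x ⊓ Eu x = ⊥) {N₀ : ℕ}
    (hsys : ∀ N ≥ N₀, ∃ S : HypSys M F, S.g = iterHomeo f N ∧ S.e = ee ∧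
      (∀ x, S.Vs x = Submodule.map (dm E ee x).toLinearMap (Es x)) ∧
      (∀ x, S.Vu x = Submodule.map (dm E ee x).toLinearMap (Eu x)))
    (p : M → B) (hp : ContMDiff 𝓘(ℝ, E) 𝓘(ℝ, E') 1 p)
    (hps : ∀ x, Function.Surjective (mfderiv 𝓘(ℝ, E) 𝓘(ℝ, E') p x))
    {g : B ≃ₜ B} (hfg : ∀ x, p (f x) = g (p x)) (hg : Expansive g) {A : Set M} (hA : IsAtt f A)
    {b : M} (hb : b ∈ Bas f A) {k : ℕ} (hk : 1 ≤ k) (hkb : g^[k] (p b) = p b)
    (hcod : ∀ x, p x = p b → Module.finrank ℝ (Es x ⊓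
        LinearMap.ker (di E E' p x).toLinearMap : Submodule ℝ E) ≤ 1 ∨
      Module.finrank ℝ (Eu x ⊓
        LinearMap.ker (di E E' p x).toLinearMap : Submodule ℝ E) ≤ 1) : b ∈ A := by
  classical
  set y₀ := p b with hy₀
  -- the return map of the fibre
  have hiff : ∀ n, g^[n] y₀ = y₀ → ∀ x, p x = y₀ ↔ p (f^[n] x) = y₀ := by
    intro n hn x
    rw [semi_iter (f := f) (γ := g) hfg]
    constructor
    · intro h; rw [h, hn]
    · intro h
      exact (g.injective.iterate n) (h.trans hn.symm)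
  set H : {x // p x = y₀} ≃ₜ {x // p x = y₀} :=
    (iterHomeo f k).subtype (p := fun x => p x = y₀) (q := fun x => p x = y₀) (hiff k hkb)
    with hHdef
  have hHn : ∀ (n : ℕ) (q : {x // p x = y₀}), (H^[n] q).1 = f^[k * n] q.1 := by
    intro n
    induction n with
    | zero => intro q; rfl
    | succ n ih =>
      intro q
      rw [Function.iterate_succ_apply']
      show f^[k] (H^[n] q).1 = _
      rw [ih, ← Function.iterate_add_apply, Nat.mul_succ, Nat.add_comm]
  have : CompactSpace {x // p x = y₀} := isCompact_iff_compactSpace.mp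
    ((isClosed_singleton (x := y₀)).preimage hp.continuous).isCompact
  have : LocallyConnectedSpace {x // p x = y₀} := by
    let _ := fibCharted p hp hps y₀ (fun x => p x = y₀) isOpen_univ (fun x _ => trivial)
      (fun x _ => Iff.rfl)
    exact ChartedSpace.locallyConnectedSpace
      (EuclideanSpace ℝ (Fin (Module.finrank ℝ E - Module.finrank ℝ E'))) _
  obtain ⟨n, hn, hnC⟩ := exists_comp_iter H ⟨b, rfl⟩
  set C : Set {x // p x = y₀} := connectedComponent ⟨b, rfl⟩ with hC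
  obtain ⟨O, hO, hOC⟩ := isOpen_induced_iff.mp (isOpen_connectedComponent (x := (⟨b, rfl⟩ :
    {x // p x = y₀})))
  set P : M → Prop := fun x => ∃ h : p x = y₀, (⟨x, h⟩ : {x // p x = y₀}) ∈ C with hP
  have hPset : {x | P x} = Subtype.val '' C := by
    ext x
    constructor
    · rintro ⟨h, hx⟩; exact ⟨_, hx, rfl⟩
    · rintro ⟨q, hq, rfl⟩; exact ⟨q.2, hq⟩
  have hPc : IsClosed {x | P x} := by
    rw [hPset]
    exact (isClosed_connectedComponent.isCompact.image continuous_subtype_val).isClosed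
  have hPconn : IsConnected {x | P x} := by
    rw [hPset]
    exact isConnected_connectedComponent.image _ continuous_subtype_val.continuousOn
  have hCO : ∀ (x : M) (h : p x = y₀), (⟨x, h⟩ : {x // p x = y₀}) ∈ C ↔ x ∈ O := by
    intro x h
    have : (⟨x, h⟩ : {x // p x = y₀}) ∈ Subtype.val ⁻¹' O ↔ x ∈ O := Iff.rfl
    rw [← this, hOC]
  have hPO : ∀ x, P x → x ∈ O := fun x ⟨h, hx⟩ => (hCO x h).mp hx
  have hPp : ∀ x ∈ O, P x ↔ p x = y₀ := fun x hx =>
    ⟨fun ⟨h, _⟩ => h, fun h => ⟨h, (hCO x h).mpr hx⟩⟩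
  have hPb : P b := ⟨rfl, mem_connectedComponent⟩
  have hHCj : ∀ (j : ℕ) x, H^[n * j] x ∈ C ↔ x ∈ C := by
    intro j
    induction j with
    | zero => intro x; exact Iff.rfl
    | succ j ih => intro x; rw [Nat.mul_succ, Function.iterate_add_apply, ih, hnC]
  set N := k * (n * (N₀ + 1)) with hN
  have hN1 : 1 ≤ N := Nat.mul_pos (by omega) (Nat.mul_pos (by omega) (by omega))
  have hNN : N₀ ≤ N := by
    have h1 : 1 * (1 * (N₀ + 1)) ≤ k * (n * (N₀ + 1)) :=
      Nat.mul_le_mul hk (Nat.mul_le_mul hn le_rfl)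
    omega
  have hgN : g^[N] y₀ = y₀ := by
    rw [hN, Function.iterate_mul]
    exact Function.iterate_fixed hkb _
  have hPN : ∀ x, P x ↔ P (iterHomeo f N x) := by
    intro x
    have h1 : ∀ h : p x = y₀, (H^[n * (N₀ + 1)] ⟨x, h⟩).1 = f^[N] x := fun h => hHn _ _
    constructor
    · rintro ⟨h, hx⟩
      refine ⟨(hiff N hgN x).mp h, ?_⟩
      have h2 := (hHCj (N₀ + 1) ⟨x, h⟩).mpr hx
      have h3 : H^[n * (N₀ + 1)] ⟨x, h⟩ = ⟨iterHomeo f N x, (hiff N hgN x).mp h⟩ :=
        Subtype.ext (h1 h)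
      rwa [h3] at h2
    · rintro ⟨h, hx⟩
      have h0 : p x = y₀ := (hiff N hgN x).mpr h
      refine ⟨h0, ?_⟩
      have h3 : H^[n * (N₀ + 1)] ⟨x, h0⟩ = ⟨iterHomeo f N x, h⟩ := Subtype.ext (h1 h0)
      rw [← h3, hHCj] at hx
      exact hx
  obtain ⟨S, hSg, hSe, hSs, hSu⟩ := hsys N hNN
  obtain ⟨c, hLP⟩ := exists_LP S
  rw [hSg] at hLP
  set G : {x // P x} ≃ₜ {x // P x} :=
    (iterHomeo f N).subtype (p := P) (q := P) hPN with hGdef
  have hG : ∀ q, (G q).1 = iterHomeo f N q.1 := fun q => rfl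
  have hG' : ∀ q, (G.symm q).1 = (iterHomeo f N).symm q.1 := fun q => rfl
  have hLPG : LP G c := fibre_LP (f := f) hp.continuous hfg hg hN1 hPc hO hPO hPp hLP G hG
  have : CompactSpace {x // P x} := isCompact_iff_compactSpace.mp hPc.isCompact
  have : ConnectedSpace {x // P x} := isConnected_iff_connectedSpace.mp hPconn
  let _ := fibCharted p hp hps y₀ P hO hPO hPp
  have hιs : Isometry (fun q : {x // P x} => q.1) := isometry_subtype_coe
  set T : {x // P x} → Submodule ℝ F := fun q =>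
    Submodule.map (dm E ee q.1).toLinearMap (LinearMap.ker (di E E' p q.1).toLinearMap) with hTdef
  have hT : ∀ q₀, ∀ η > 0, ∃ r > 0, ∀ q q' : {x // P x}, dist q q₀ < r → dist q' q₀ < r →
      ∃ t ∈ T q₀, ‖S.e q'.1 - S.e q.1 - t‖ ≤ η * dist q q' := by
    intro q₀ η hη
    obtain ⟨r, hr, h1⟩ := fib_tangent hiso he hinj he' hinj' p hp hps q₀.1 hη
    refine ⟨r, hr, fun q q' hq hq' => ?_⟩
    obtain ⟨v, hv, h2⟩ := h1 q.1 q'.1 hq hq'
      (((hPp _ (hPO _ q.2)).mp q.2).trans ((hPp _ (hPO _ q'.2)).mp q'.2).symm)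
    rw [hSe]
    exact ⟨_, ⟨v, hv, rfl⟩, h2⟩
  have hPq : ∀ q : {x // P x}, p q.1 = y₀ := fun q => (hPp _ (hPO _ q.2)).mp q.2
  have hGn : ∀ (n : ℕ) q, (G^[n] q).1 = (iterHomeo f N)^[n] q.1 := by
    intro n
    induction n with
    | zero => intro q; rfl
    | succ n ih => intro q; rw [Function.iterate_succ_apply', hG, ih, Function.iterate_succ_apply']
  have hGn' : ∀ (n : ℕ) q, (G.symm^[n] q).1 = (iterHomeo f N).symm^[n] q.1 := by
    intro n
    induction n with
    | zero => intro q; rfl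
    | succ n ih => intro q; rw [Function.iterate_succ_apply', hG', ih, Function.iterate_succ_apply']
  -- the trace of the attractor
  have hAN : IsAtt (iterHomeo f N) A := att_iter hA hN1
  have hZs : ∀ q : {x // P x}, Module.finrank ℝ (Es q.1 ⊓
      LinearMap.ker (di E E' p q.1).toLinearMap : Submodule ℝ E) ≤ 1 → q ∈ Zs G := fun q hq =>
    mem_Zs S (fun q : {x // P x} => q.1) hιs G (fun q => by rw [hSg]; exact hG q) (T q) q (hT q)
      (by rw [hSs]; exact finrank_inf_map _ (hinj q.1) hq)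
  have hGs : ∀ q : {x // P x}, (fun q : {x // P x} => q.1) (G.symm q) = S.symm.g q.1 := fun q => by
    show (G.symm q).1 = S.g.symm q.1
    rw [hSg]; exact hG' q
  have hA' : ∀ A', IsAtt G A' → A' = univ := by
    refine newhouse_mixed (r := Module.finrank ℝ E - Module.finrank ℝ E') hLPG
      (fun _ q => ?_) (fun hr q => ?_)
    · rcases hcod q.1 (hPq q) with hq | hq
      · exact Or.inl (hZs q hq)
      · right
        refine mem_Zs S.symm (fun q : {x // P x} => q.1) hιs G.symm hGs (T q) q (hT q) ?_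
        show Module.finrank ℝ (S.Vu q.1 ⊓ T q : Submodule ℝ F) ≤ 1
        rw [hSu]
        exact finrank_inf_map _ (hinj q.1) hq
    · by_cases hq : Module.finrank ℝ (Es q.1 ⊓
        LinearMap.ker (di E E' p q.1).toLinearMap : Submodule ℝ E) ≤ 1
      · exact Or.inl (hZs q hq)
      · right
        refine plaque_pt S.symm (fun q : {x // P x} => q.1) hιs G.symm hGs (T q) q (hT q) ?_
        show (S.Vu q.1 ⊓ T q : Submodule ℝ F) = ⊥
        have h1 := finrank_parts (K := LinearMap.ker (di E E' p q.1).toLinearMap) (hdisj q.1)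
        have h2 := LinearMap.finrank_range_add_finrank_ker (di E E' p q.1).toLinearMap
        have h3 : LinearMap.range (di E E' p q.1).toLinearMap = ⊤ :=
          LinearMap.range_eq_top.mpr (hps q.1)
        rw [h3, finrank_top] at h2
        have h4 : Module.finrank ℝ (Eu q.1 ⊓
            LinearMap.ker (di E E' p q.1).toLinearMap : Submodule ℝ E) = 0 := by omega
        rw [Submodule.finrank_eq_zero] at h4
        rw [hSu, ← Submodule.map_inf _ (hinj q.1), h4, Submodule.map_bot]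
  have hne : ({q : {x // P x} | q.1 ∈ A}).Nonempty := by
    obtain ⟨a, ha, hba⟩ := hb
    rw [← WS_iter_iff f hN1] at hba
    by_contra hemp
    rw [not_nonempty_iff_eq_empty] at hemp
    have hdisj : Disjoint A {x | P x} := by
      rw [Set.disjoint_left]
      intro x hxA hxP
      have : (⟨x, hxP⟩ : {x // P x}) ∈ {q : {x // P x} | q.1 ∈ A} := hxA
      rw [hemp] at this
      exact this
    obtain ⟨ρ, hρ, h1⟩ := exists_pos_forall_lt_edist hA.closed.isCompact hPc hdisj
    obtain ⟨m, hm⟩ := hba.eventually_lt (ε := ρ) hρ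
    have h2 := hm m le_rfl
    have h3 := h1 ((iterHomeo f N)^[m] a) ((inv_iter hAN.inv m a).mpr ha)
      ((iterHomeo f N)^[m] b) (by
        show P _
        have := (G^[m] ⟨b, hPb⟩).2
        rwa [hGn] at this)
    rw [edist_dist, ← ENNReal.ofReal_coe_nnreal] at h3
    have h4 := (ENNReal.ofReal_lt_ofReal_iff_of_nonneg ρ.coe_nonneg).mp h3
    rw [dist_comm] at h4
    linarith
  have hatt : IsAtt G {q : {x // P x} | q.1 ∈ A} := by
    refine ⟨hA.closed.preimage continuous_subtype_val, hne, fun q => hAN.inv q.1,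
      fun q hq q' hqq' => ?_⟩
    refine hAN.sat q.1 hq q'.1 ?_
    unfold WS at hqq' ⊢
    refine hqq'.congr fun n => ?_
    rw [← hGn', ← hGn']
    rfl
  have h1 := hA' _ hatt
  have h2 : (⟨b, hPb⟩ : {x // P x}) ∈ {q : {x // P x} | q.1 ∈ A} := by rw [h1]; trivial
  exact h2

end manifold

section main

variable {E : Type*} [NormedAddCommGroup E] [NormedSpace ℝ E] [FiniteDimensional ℝ E]
  {M : Type*} [TopologicalSpace M] [T2Space M] [CompactSpace M] [ConnectedSpace M]
  [ChartedSpace E M] [IsManifold 𝓘(ℝ, E) ∞ M]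
  {E' : Type*} [NormedAddCommGroup E'] [NormedSpace ℝ E'] [FiniteDimensional ℝ E']
  {B : Type*} [TopologicalSpace B] [T2Space B] [CompactSpace B]
  [ChartedSpace E' B] [IsManifold 𝓘(ℝ, E') ∞ B]

/-- **Extensions of expansive transitive homeomorphisms with fibres of codimension one.** -/
theorem trans_of_base (f : Diffeomorph 𝓘(ℝ, E) 𝓘(ℝ, E) M M 1)
    (Es Eu : ∀ x : M, Submodule ℝ (TangentSpace 𝓘(ℝ, E) x)) (hA : IsAnosov f Es Eu)
    (p : M → B) (hp : ContMDiff 𝓘(ℝ, E) 𝓘(ℝ, E') 1 p)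
    (hps : ∀ x, Function.Surjective (mfderiv 𝓘(ℝ, E) 𝓘(ℝ, E') p x))
    (g : B ≃ₜ B) (hfg : ∀ x, p (f x) = g (p x)) (hg : Expansive g)
    (hcod : ∀ x : M, (∃ k ≥ 1, g^[k] (p x) = p x) →
      Module.finrank ℝ ((Es x : Submodule ℝ E) ⊓
        LinearMap.ker (di E E' p x).toLinearMap : Submodule ℝ E) ≤ 1 ∨
      Module.finrank ℝ ((Eu x : Submodule ℝ E) ⊓
        LinearMap.ker (di E E' p x).toLinearMap : Submodule ℝ E) ≤ 1)
    (ht : TopTransitive g) : TopTransitive f := by
  obtain ⟨m, ee, hee, hemb, hinje⟩ :=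
    exists_embedding_euclidean_of_compact (I := 𝓘(ℝ, E)) (M := M)
  let _ : MetricSpace M := hemb.isEmbedding.comapMetricSpace ee
  have hiso : ∀ x y : M, dist x y = ‖ee x - ee y‖ := fun x y => dist_eq_norm (ee x) (ee y)
  have he1 : ContMDiff 𝓘(ℝ, E) (𝓡 m) 1 ee := hee.of_le (by simp)
  obtain ⟨m', e', he', hemb', hinj'⟩ :=
    exists_embedding_euclidean_of_compact (I := 𝓘(ℝ, E')) (M := B)
  have he1' : ContMDiff 𝓘(ℝ, E') (𝓡 m') 1 e' := he'.of_le (by simp)
  obtain ⟨N₀, hN₀⟩ := eventually_atTop.mp (exists_sys_ev hiso he1 hinje f Es Eu hA)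
  obtain ⟨S, hSg, -, -, -⟩ := hN₀ (max N₀ 1) (le_max_left _ _)
  have hN1 : 1 ≤ max N₀ 1 := le_max_right _ _
  have hint : ∀ W : Set M, IsOpen W → W.Nonempty → (interior (p '' W)).Nonempty := by
    intro W hW hWn
    have h3 : IsOpen (p '' W) := subm_open p hp hps W hW
    rw [h3.interior_eq]
    exact hWn.image p
  refine Pool.Agent.TH289.L.man_nw f Es Eu hA ?_
  refine Pool.Agent.TH289.L.nw_of_unique S hN1 hSg (f := f.toHomeomorph) (fun A hAtt => ?_)
  refine unique_of_per (f := f.toHomeomorph) S hN1 hSg ht hp.continuous hfg hint hAtt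
    fun b hb k hk hkb => ?_
  exact fibre_full hiso he1 hinje he1' hinj' (fun x => (hA.isCompl x).inf_eq_bot)
    (fun N hN => hN₀ N hN) p hp hps hfg hg hAtt hb hk hkb
    (fun x hx => hcod x ⟨k, hk, by rw [hx]; exact hkb⟩)

end main

end Pool.Agent.H244.Nh
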