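import Pool.Agent.H244.Nw6

/-!
# Invariant bundles and Anosov factors
-/

set_option autoImplicit false
set_option linter.unusedSectionVars false

open Filter Topology Set Metric
open scoped Manifold ContDiff

namespace Pool.Agent.H244.Nh

open Pool.Agent.H721R2 Pool.Agent.H789R2.AN Pool.Agent.H789R2.GP Pool.Agent.TH289
  Pool.Agent.TH289.K Pool.Agent.R189.Sf Pool.Agent.R189.Fb

section lin

variable {F : Type*} [NormedAddCommGroup F] [InnerProductSpace ℝ F] [FiniteDimensional ℝ F]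

/-- subspaces which are close to another one have at most its dimension -/
theorem finrank_le_of_near (V W : Submodule ℝ F)
    (h : ∀ s ∈ V, ∃ s' ∈ W, ‖s - s'‖ ≤ 1 / 2 * ‖s‖) :
    Module.finrank ℝ V ≤ Module.finrank ℝ W := by
  set L : V →ₗ[ℝ] W := (W.orthogonalProjectionOnto.toLinearMap).comp V.subtype with hL
  have hinj : Function.Injective L := by
    rw [← LinearMap.ker_eq_bot, eq_bot_iff]
    intro s hs
    have h1 : W.orthogonalProjectionOnto s.1 = 0 := hs
    have h2 : s.1 ∈ Wᗮ := Submodule.orthogonalProjectionOnto_eq_zero_iff.mp h1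
    obtain ⟨s', hs', h3⟩ := h s.1 s.2
    have h4 : inner ℝ s' s.1 = 0 := (Submodule.mem_orthogonal W s.1).mp h2 s' hs'
    have h5 : ‖s.1‖ * ‖s.1‖ = inner ℝ (s.1 - s') s.1 := by
      rw [inner_sub_left, h4, sub_zero, real_inner_self_eq_norm_mul_norm]
    have h6 : inner ℝ (s.1 - s') s.1 ≤ ‖s.1 - s'‖ * ‖s.1‖ := real_inner_le_norm _ _
    have h7 : ‖s.1 - s'‖ * ‖s.1‖ ≤ 1 / 2 * ‖s.1‖ * ‖s.1‖ :=
      mul_le_mul_of_nonneg_right h3 (norm_nonneg _)
    have h8 : ‖s.1‖ = 0 := by nlinarith [norm_nonneg s.1]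
    rw [norm_eq_zero] at h8
    rw [Submodule.mem_bot]
    exact Subtype.ext h8
  exact LinearMap.finrank_le_finrank_of_injective hinj

/-- dimension of the intersection with a kernel -/
theorem finrank_inf_ker {E E' : Type*} [NormedAddCommGroup E] [NormedSpace ℝ E]
    [FiniteDimensional ℝ E] [NormedAddCommGroup E'] [NormedSpace ℝ E'] (L : E →L[ℝ] E')
    (V : Submodule ℝ E) :
    Module.finrank ℝ (V ⊓ LinearMap.ker L.toLinearMap : Submodule ℝ E) +
      Module.finrank ℝ (V.map L.toLinearMap : Submodule ℝ E') = Module.finrank ℝ V := by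
  have h1 := LinearMap.finrank_range_add_finrank_ker (L.toLinearMap.comp V.subtype)
  have h2 : LinearMap.range (L.toLinearMap.comp V.subtype) = V.map L.toLinearMap := by
    rw [LinearMap.range_comp, Submodule.range_subtype]
  have h3 : Module.finrank ℝ (LinearMap.ker (L.toLinearMap.comp V.subtype)) =
      Module.finrank ℝ (V ⊓ LinearMap.ker L.toLinearMap : Submodule ℝ E) := by
    rw [LinearMap.ker_comp, ← Submodule.map_comap_subtype]
    exact (Submodule.finrank_map_subtype_eq V _).symm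
  rw [h2, h3] at h1
  omega

end lin

section ranks

variable {E : Type*} [NormedAddCommGroup E] [NormedSpace ℝ E] [FiniteDimensional ℝ E]
  {M : Type*} [TopologicalSpace M] [T2Space M] [CompactSpace M] [ConnectedSpace M]
  [ChartedSpace E M] [IsManifold 𝓘(ℝ, E) ∞ M]

/-- the ranks of the bundles are constant -/
theorem rank_const (f : Diffeomorph 𝓘(ℝ, E) 𝓘(ℝ, E) M M 1)
    (Es Eu : ∀ x : M, Submodule ℝ (TangentSpace 𝓘(ℝ, E) x)) (hA : IsAnosov f Es Eu) (x y : M) :
    Module.finrank ℝ (Es x : Submodule ℝ E) = Module.finrank ℝ (Es y : Submodule ℝ E) ∧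
    Module.finrank ℝ (Eu x : Submodule ℝ E) = Module.finrank ℝ (Eu y : Submodule ℝ E) := by
  obtain ⟨m, ee, hee, hemb, hinje⟩ :=
    exists_embedding_euclidean_of_compact (I := 𝓘(ℝ, E)) (M := M)
  let _ : MetricSpace M := hemb.isEmbedding.comapMetricSpace ee
  have he1 : ContMDiff 𝓘(ℝ, E) (𝓡 m) 1 ee := hee.of_le (by simp)
  obtain ⟨C, a, b, Ls, Lu, hE⟩ := eanosov_of_isAnosov ee he1 hinje f Es Eu hA
  have key : ∀ (V : M → Submodule ℝ E), (∃ r > 0, ∀ x y, dist x y < r →
      ∀ s ∈ V x, ∃ s' ∈ V y, ‖dm E ee x s - dm E ee y s'‖ ≤ 1 / 2 * ‖dm E ee x s‖) →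
      Module.finrank ℝ (V x) = Module.finrank ℝ (V y) := by
    rintro V ⟨r, hr, h1⟩
    have hfr : ∀ z, Module.finrank ℝ (Submodule.map (dm E ee z).toLinearMap (V z)) =
        Module.finrank ℝ (V z) := fun z =>
      (Submodule.equivMapOfInjective (dm E ee z).toLinearMap (hinje z) (V z)).symm.finrank_eq
    have h2 : ∀ x y, dist x y < r → Module.finrank ℝ (V x) ≤ Module.finrank ℝ (V y) := by
      intro x y hxy
      rw [← hfr x, ← hfr y]
      refine finrank_le_of_near _ _ ?_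
      rintro _ ⟨s, hs, rfl⟩
      obtain ⟨s', hs', h3⟩ := h1 x y hxy s hs
      exact ⟨_, ⟨s', hs', rfl⟩, h3⟩
    have h3 : IsLocallyConstant (fun z => Module.finrank ℝ (V z)) := by
      rw [IsLocallyConstant.iff_eventually_eq]
      intro z
      filter_upwards [ball_mem_nhds z hr] with w hw
      exact le_antisymm (h2 w z hw) (h2 z w (by rw [dist_comm]; exact hw))
    exact h3.apply_eq_of_preconnectedSpace x y
  exact ⟨key (fun z => Es z) (hE.contS he1 hinje (1 / 2) (by norm_num)),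
    key (fun z => Eu z) (hE.symm.contS he1 hinje (1 / 2) (by norm_num))⟩

end ranks

section sub

variable {E : Type*} [NormedAddCommGroup E] [NormedSpace ℝ E]
  {M : Type*} [TopologicalSpace M] [ChartedSpace E M] [IsManifold 𝓘(ℝ, E) 1 M]
  {F : Type*} [NormedAddCommGroup F] [NormedSpace ℝ F]
  {E' : Type*} [NormedAddCommGroup E'] [NormedSpace ℝ E']
  {B : Type*} [TopologicalSpace B] [ChartedSpace E' B] [IsManifold 𝓘(ℝ, E') 1 B]
  {F' : Type*} [NormedAddCommGroup F'] [NormedSpace ℝ F']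
  {e : M → F} {e' : B → F'} {p : M → B} {f : M ≃ₜ M} {g : B ≃ₜ B}
  {Es Eu : M → Submodule ℝ E} {Gs Gu : B → Submodule ℝ E'}
  {C a b Ls Lu C' a' b' Ls' Lu' R : ℝ}

/-- stable vectors are mapped to stable vectors -/
theorem base_sub (hE : EAnosov e f Es Eu C a b Ls Lu) (hE' : EAnosov e' g Gs Gu C' a' b' Ls' Lu')
    (hinj' : ∀ y, Function.Injective (dm E' e' y)) (hp : ContMDiff 𝓘(ℝ, E) 𝓘(ℝ, E') 1 p)
    (hfg : ∀ x, p (f x) = g (p x))
    (hR : ∀ x : M, ∀ v : E, ‖dm E' e' (p x) (di E E' p x v)‖ ≤ R * ‖dm E e x v‖) (hR0 : 0 ≤ R)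
    (x : M) (v : E) (hv : v ∈ Es x) : di E E' p x v ∈ Gs (p x) := by
  set y := p x with hy
  obtain ⟨s, hs, u, hu, hsu⟩ := hE'.decomp y (di E E' p x v)
  have hC := hE.C_pos
  have hC' := hE'.C_pos
  set K₁ := R * (C * ‖dm E e x v‖) + C' * ‖dm E' e' y s‖ with hK₁
  have hK0 : 0 ≤ K₁ := by positivity
  have key : ∀ n : ℕ, ‖dm E' e' y u‖ ≤ C' * b' ^ n * K₁ := by
    intro n
    have hfn : ∀ z, p (f^[n] z) = g^[n] (p z) := fun z =>
      (Function.Semiconj.iterate_right (f := p) (ga := f) (gb := g) hfg n) z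
    have h1 := hE'.hU' n (g^[n] y) _ (hE'.mapU n y u hu)
    rw [dg_inv (g^[n]) (g.symm^[n]) (iter_smooth g hE'.smooth n) (iter_smooth _ hE'.smooth' n)
      (iter_left g n), iter_left] at h1
    refine h1.trans ?_
    have hb0 := hE'.b_pos
    refine mul_le_mul_of_nonneg_left ?_ (by positivity)
    have h2 : dg E' (g^[n]) y u = di E E' p (f^[n] x) (dg E (f^[n]) x v) -
        dg E' (g^[n]) y s := by
      rw [di_sq p hp (f^[n]) (iter_smooth f hE.smooth n) (g^[n]) (iter_smooth g hE'.smooth n)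
        hfn x v, ← hsu, map_add, add_sub_cancel_left]
    rw [h2, map_sub]
    have h3 : ‖dm E' e' (g^[n] y) (di E E' p (f^[n] x) (dg E (f^[n]) x v))‖ ≤
        R * (C * ‖dm E e x v‖) := by
      have h4 := hR (f^[n] x) (dg E (f^[n]) x v)
      rw [hfn] at h4
      refine h4.trans (mul_le_mul_of_nonneg_left ((hE.hS n x v hv).trans ?_) hR0)
      refine mul_le_mul_of_nonneg_right ?_ (norm_nonneg _)
      have : a ^ n ≤ 1 := pow_le_one₀ hE.a_pos.le hE.a_lt.le
      nlinarith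
    have h5 : ‖dm E' e' (g^[n] y) (dg E' (g^[n]) y s)‖ ≤ C' * ‖dm E' e' y s‖ := by
      refine (hE'.hS n y s hs).trans (mul_le_mul_of_nonneg_right ?_ (norm_nonneg _))
      have : a' ^ n ≤ 1 := pow_le_one₀ hE'.a_pos.le hE'.a_lt.le
      nlinarith
    exact (norm_sub_le _ _).trans (add_le_add h3 h5)
  have ht : Tendsto (fun n : ℕ => C' * b' ^ n * K₁) atTop (𝓝 0) := by
    have := ((tendsto_pow_atTop_nhds_zero_of_lt_one hE'.b_pos.le hE'.b_lt).const_mul C').mul_const K₁
    simpa using this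
  have h0 : ‖dm E' e' y u‖ ≤ 0 := ge_of_tendsto' ht key
  have h1 : dm E' e' y u = 0 := norm_le_zero_iff.mp h0
  have h2 : u = 0 := hinj' y (h1.trans (map_zero _).symm)
  rw [← hsu, h2, add_zero]
  exact hs

end sub

section up

variable {E : Type*} [NormedAddCommGroup E] [NormedSpace ℝ E] [FiniteDimensional ℝ E]
  {M : Type*} [MetricSpace M] [CompactSpace M]
  [ChartedSpace E M] [IsManifold 𝓘(ℝ, E) 1 M]
  {E' : Type*} [NormedAddCommGroup E'] [NormedSpace ℝ E'] [FiniteDimensional ℝ E']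
  {B : Type*} [TopologicalSpace B] [ChartedSpace E' B] [IsManifold 𝓘(ℝ, E') 1 B]

/-- a uniform upper bound for the differential -/
theorem exists_up {m m' : ℕ} (e : M → EuclideanSpace ℝ (Fin m))
    (he : ContMDiff 𝓘(ℝ, E) (𝓡 m) 1 e)
    (hinj : ∀ x, Function.Injective (dm E e x)) (e' : B → EuclideanSpace ℝ (Fin m'))
    (he' : ContMDiff 𝓘(ℝ, E') (𝓡 m') 1 e') (p : M → B) (hp : ContMDiff 𝓘(ℝ, E) 𝓘(ℝ, E') 1 p) :
    ∃ R > 0, ∀ x : M, ∀ v : E, ‖dm E' e' (p x) (di E E' p x v)‖ ≤ R * ‖dm E e x v‖ := by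
  have hh : ContMDiff 𝓘(ℝ, E) (𝓡 m') 1 (e' ∘ p) := he'.comp hp
  have hdp : ∀ z v, dm E (e' ∘ p) z v = dm E' e' (p z) (di E E' p z v) := dm_comp_di e' he' p hp
  obtain ⟨R, hR, hRv⟩ : ∃ R > 0, ∀ x : M, ∀ v : E,
      ‖dm E (e' ∘ p) x v‖ ≤ R * ‖dm E e x v‖ := by
    apply exists_uniform_const
    · intro C C' x hCC' h v
      exact (h v).trans (mul_le_mul_of_nonneg_right hCC' (norm_nonneg _))
    · intro x₀
      obtain ⟨⟨C, hC, h1⟩, -⟩ := local_all e he hinj (e' ∘ p) hh x₀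
      refine ⟨C * C, ?_⟩
      filter_upwards [h1] with x hx v
      obtain ⟨h2, h3⟩ := hx v
      calc _ ≤ C * ‖dm E (extChartAt 𝓘(ℝ, E) x₀) x v‖ := h3
        _ ≤ C * (C * ‖dm E e x v‖) := mul_le_mul_of_nonneg_left h2 hC.le
        _ = _ := by ring
  exact ⟨R, hR, fun x v => by rw [← hdp]; exact hRv x v⟩

end up

section base

variable {E : Type*} [NormedAddCommGroup E] [NormedSpace ℝ E] [FiniteDimensional ℝ E]
  {M : Type*} [TopologicalSpace M] [T2Space M] [CompactSpace M]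
  [ChartedSpace E M] [IsManifold 𝓘(ℝ, E) ∞ M]
  {E' : Type*} [NormedAddCommGroup E'] [NormedSpace ℝ E'] [FiniteDimensional ℝ E']
  {B : Type*} [TopologicalSpace B] [T2Space B] [CompactSpace B]
  [ChartedSpace E' B] [IsManifold 𝓘(ℝ, E') ∞ B]

/-- the differential maps the bundles onto the bundles of the base -/
theorem base_map (f : Diffeomorph 𝓘(ℝ, E) 𝓘(ℝ, E) M M 1)
    (Es Eu : ∀ x : M, Submodule ℝ (TangentSpace 𝓘(ℝ, E) x)) (hA : IsAnosov f Es Eu)
    (p : M → B) (hp : ContMDiff 𝓘(ℝ, E) 𝓘(ℝ, E') 1 p)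
    (hps : ∀ x, Function.Surjective (mfderiv 𝓘(ℝ, E) 𝓘(ℝ, E') p x))
    (g : Diffeomorph 𝓘(ℝ, E') 𝓘(ℝ, E') B B 1) (hfg : ∀ x, p (f x) = g (p x))
    (Gs Gu : ∀ y : B, Submodule ℝ (TangentSpace 𝓘(ℝ, E') y)) (hB : IsAnosov g Gs Gu) (x : M) :
    Submodule.map (di E E' p x).toLinearMap (Es x) = Gs (p x) ∧
    Submodule.map (di E E' p x).toLinearMap (Eu x) = Gu (p x) := by
  obtain ⟨m, e, he, hemb, hinj⟩ := exists_embedding_euclidean_of_compact (I := 𝓘(ℝ, E)) (M := M)
  let _ : MetricSpace M := hemb.isEmbedding.comapMetricSpace e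
  have he1 : ContMDiff 𝓘(ℝ, E) (𝓡 m) 1 e := he.of_le (by simp)
  obtain ⟨m', e', he', hemb', hinj'⟩ :=
    exists_embedding_euclidean_of_compact (I := 𝓘(ℝ, E')) (M := B)
  let _ : MetricSpace B := hemb'.isEmbedding.comapMetricSpace e'
  have he1' : ContMDiff 𝓘(ℝ, E') (𝓡 m') 1 e' := he'.of_le (by simp)
  obtain ⟨R, hR, hRv⟩ := exists_up e he1 hinj e' he1' p hp
  obtain ⟨C, a, b, Ls, Lu, hE⟩ := eanosov_of_isAnosov e he1 hinj f Es Eu hA
  obtain ⟨C', a', b', Ls', Lu', hE'⟩ := eanosov_of_isAnosov e' he1' hinj' g Gs Gu hB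
  have hs : ∀ v : E, v ∈ Es x → di E E' p x v ∈ Gs (p x) := fun v hv =>
    base_sub hE hE' hinj' hp hfg hRv hR.le x v hv
  have hu : ∀ v : E, v ∈ Eu x → di E E' p x v ∈ Gu (p x) := fun v hv =>
    base_sub hE.symm hE'.symm hinj' hp
      (fun z => semi_symm (f := f.toHomeomorph) (γ := g.toHomeomorph) hfg z) hRv hR.le x v hv
  have hdis : ∀ w : E', w ∈ Gs (p x) → w ∈ Gu (p x) → w = 0 := fun w h1 h2 => by
    have h3 := (hB.isCompl (p x)).disjoint
    exact Submodule.disjoint_def.mp h3 w h1 h2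
  have hsurj : ∀ w : E', ∃ v : E, di E E' p x v = w := hps x
  constructor
  · apply le_antisymm
    · rintro _ ⟨v, hv, rfl⟩
      exact hs v hv
    · intro w hw
      obtain ⟨v, rfl⟩ := hsurj w
      obtain ⟨s, hs', u, hu', rfl⟩ := hE.decomp x v
      have h1 : di E E' p x u = 0 := by
        refine hdis _ ?_ (hu u hu')
        have h2 : di E E' p x u = di E E' p x (s + u) - di E E' p x s := by
          rw [map_add, add_sub_cancel_left]
        rw [h2]
        exact Submodule.sub_mem (Gs (p x)) hw (hs s hs')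
      exact ⟨s, hs', by
        show di E E' p x s = di E E' p x (s + u)
        rw [map_add, h1, add_zero]⟩
  · apply le_antisymm
    · rintro _ ⟨v, hv, rfl⟩
      exact hu v hv
    · intro w hw
      obtain ⟨v, rfl⟩ := hsurj w
      obtain ⟨s, hs', u, hu', rfl⟩ := hE.decomp x v
      have h1 : di E E' p x s = 0 := by
        refine hdis _ (hs s hs') ?_
        have h2 : di E E' p x s = di E E' p x (s + u) - di E E' p x u := by
          rw [map_add, add_sub_cancel_right]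
        rw [h2]
        exact Submodule.sub_mem (Gu (p x)) hw (hu u hu')
      exact ⟨u, hu', by
        show di E E' p x u = di E E' p x (s + u)
        rw [map_add, h1, zero_add]⟩

/-- The base is Anosov if and only if the tangent spaces of the fibres split. -/
theorem base_iff [ConnectedSpace M] [ConnectedSpace B] (f : Diffeomorph 𝓘(ℝ, E) 𝓘(ℝ, E) M M 1)
    (Es Eu : ∀ x : M, Submodule ℝ (TangentSpace 𝓘(ℝ, E) x)) (hA : IsAnosov f Es Eu)
    (p : M → B) (hp : ContMDiff 𝓘(ℝ, E) 𝓘(ℝ, E') 1 p)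
    (hps : ∀ x, Function.Surjective (mfderiv 𝓘(ℝ, E) 𝓘(ℝ, E') p x))
    (g : Diffeomorph 𝓘(ℝ, E') 𝓘(ℝ, E') B B 1) (hfg : ∀ x, p (f x) = g (p x)) :
    (∃ Gs Gu : ∀ y : B, Submodule ℝ (TangentSpace 𝓘(ℝ, E') y), IsAnosov g Gs Gu) ↔
    ∀ (x : M) (v : E), di E E' p x v = 0 → ∃ s ∈ (Es x : Submodule ℝ E),
      ∃ u ∈ (Eu x : Submodule ℝ E), di E E' p x s = 0 ∧ di E E' p x u = 0 ∧ s + u = v := by
  constructor
  · rintro ⟨Gs, Gu, hB⟩ x v hv
    obtain ⟨h1, h2⟩ := base_map f Es Eu hA p hp hps g hfg Gs Gu hB x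
    have hgen : ∀ V V' : Submodule ℝ E, IsCompl V V' → ∃ s ∈ V, ∃ u ∈ V', s + u = v :=
      fun V V' h => Submodule.mem_sup.mp (by rw [h.sup_eq_top]; trivial)
    obtain ⟨s, hs, u, hu, hsu⟩ := hgen _ _ (hA.isCompl x)
    have h5 : di E E' p x s ∈ Gs (p x) := h1 ▸ Submodule.mem_map_of_mem (f := (di E E' p x).toLinearMap) hs
    have h6 : di E E' p x u ∈ Gu (p x) := h2 ▸ Submodule.mem_map_of_mem (f := (di E E' p x).toLinearMap) hu
    have h7 : di E E' p x s = - di E E' p x u := by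
      rw [eq_neg_iff_add_eq_zero, ← map_add, hsu, hv]
    have h8 : di E E' p x s = 0 := by
      refine Submodule.disjoint_def.mp (hB.isCompl (p x)).disjoint _ h5 ?_
      rw [h7]
      exact Submodule.neg_mem (Gu (p x)) h6
    refine ⟨s, hs, u, hu, h8, ?_, hsu⟩
    rw [h8] at h7
    exact neg_eq_zero.mp h7.symm
  · intro hsplit
    have hopen := subm_open p hp hps
    have hsur : Function.Surjective p := by
      have h1 : IsClopen (range p) := ⟨(isCompact_range hp.continuous).isClosed, hopen.isOpen_range⟩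
      rw [← range_eq_univ]
      exact h1.eq_univ (range_nonempty p)
    obtain ⟨m, e, he, hemb, hinj⟩ := exists_embedding_euclidean_of_compact (I := 𝓘(ℝ, E)) (M := M)
    let _ : MetricSpace M := hemb.isEmbedding.comapMetricSpace e
    have he1 : ContMDiff 𝓘(ℝ, E) (𝓡 m) 1 e := he.of_le (by simp)
    obtain ⟨m', e', he', hemb', hinj'⟩ :=
      exists_embedding_euclidean_of_compact (I := 𝓘(ℝ, E')) (M := B)
    have he1' : ContMDiff 𝓘(ℝ, E') (𝓡 m') 1 e' := he'.of_le (by simp)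
    have hh : ContMDiff 𝓘(ℝ, E) (𝓡 m') 1 (e' ∘ p) := he1'.comp hp
    have hdp : ∀ z v, dm E (e' ∘ p) z v = dm E' e' (p z) (di E E' p z v) :=
      dm_comp_di e' he1' p hp
    have hker : ∀ z v, dm E (e' ∘ p) z v = 0 ↔ di E E' p z v = 0 := fun z v => by
      rw [hdp]
      constructor
      · intro h0
        exact hinj' _ (h0.trans (map_zero _).symm)
      · intro h0
        rw [h0, map_zero]
    obtain ⟨K₀, hK₀, hkp⟩ := ker_unif e he1 (e' ∘ p) hh
      (Module.finrank ℝ E - Module.finrank ℝ E') (fun x => by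
      have h1 : LinearMap.ker (dm E (e' ∘ p) x).toLinearMap =
          LinearMap.ker (di E E' p x).toLinearMap := by
        ext v
        exact hker x v
      have h2 := LinearMap.finrank_range_add_finrank_ker (di E E' p x).toLinearMap
      have h3 : LinearMap.range (di E E' p x).toLinearMap = ⊤ :=
        LinearMap.range_eq_top.mpr (hps x)
      rw [h3, finrank_top] at h2
      rw [h1]
      omega)
    obtain ⟨C', a, b, Ls, Lu, hE⟩ := eanosov_of_isAnosov e he1 hinj f Es Eu hA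
    obtain ⟨K, hK, hang⟩ := hE.angle he1 hinj
    obtain ⟨R, hR, hRv⟩ := exists_up e he1 hinj e' he1' p hp
    have hFD : FD (E' := E') e e' p f.toHomeomorph g.toHomeomorph Es Eu C' a b Ls Lu K K₀ R := {
      an := hE
      psm := hp
      surj := hps
      fg := hfg
      gsm := g.contMDiff
      gsm' := g.symm.contMDiff
      inj' := hinj'
      K_pos := by linarith
      ang := hang
      K₀_pos := hK₀
      ker := fun x v => by
        obtain ⟨v', h1, h2⟩ := hkp x v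
        rw [hdp] at h2
        exact ⟨v', (hker x v').mp h1, h2⟩
      R_pos := hR
      up := hRv
      split := fun x v hv => by
        obtain ⟨s, hs, u, hu, h1, h2, h3⟩ := hsplit x v hv
        exact ⟨s, hs, u, hu, h1, h2, h3⟩ }
    exact ⟨_, _, hFD.base he1' g (fun y => Function.surjInv_eq hsur y)⟩

end base

end Pool.Agent.H244.Nh
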