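import Pool.Graph.R_seed8.TH289.K.B3

/-!
# Open factors: lifting leaves
-/

set_option autoImplicit false

open Filter Topology Set Metric unitInterval

namespace Pool.Agent.H244.Op

open Pool.Agent.H789R2.AN Pool.Agent.H789R2.GP Pool.Agent.TH289.K

variable {X Y : Type*} [MetricSpace X] [CompactSpace X] [MetricSpace Y]
  {g : X ≃ₜ X} {k : Y ≃ₜ Y} {h : X → Y} {c c₁ e : ℝ}

theorem unif_open (hc : Continuous h) (ho : IsOpenMap h) {η : ℝ} (hη : 0 < η) :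
    ∃ δ > 0, ∀ (a' : X) (b : Y), dist (h a') b < δ → ∃ y, dist a' y < η ∧ h y = b := by
  have h1 : ∀ x : X, ∃ δ > 0, ball (h x) (2 * δ) ⊆ h '' ball x (η / 2) := by
    intro x
    have h2 : h '' ball x (η / 2) ∈ 𝓝 (h x) := ho.image_mem_nhds (ball_mem_nhds x (half_pos hη))
    obtain ⟨δ, hδ, h3⟩ := Metric.mem_nhds_iff.1 h2
    exact ⟨δ / 2, half_pos hδ, by rwa [mul_div_cancel₀ _ two_ne_zero]⟩
  choose δ hδ hδb using h1
  obtain ⟨t, -, ht⟩ := (isCompact_univ : IsCompact (univ : Set X)).elim_nhds_subcover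
    (fun x => ball x (η / 2) ∩ h ⁻¹' ball (h x) (δ x)) (fun x _ => inter_mem
      (ball_mem_nhds x (half_pos hη)) (hc.continuousAt.preimage_mem_nhds
        (ball_mem_nhds _ (hδ x))))
  rcases t.eq_empty_or_nonempty with h0 | hne
  · refine ⟨1, one_pos, fun a' => ?_⟩
    have := ht (mem_univ a')
    rw [h0] at this
    simp at this
  · refine ⟨t.inf' hne δ, by rw [gt_iff_lt, Finset.lt_inf'_iff]; exact fun x _ => hδ x,
      fun a' b hb => ?_⟩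
    obtain ⟨x, hx, hxa⟩ := mem_iUnion₂.1 (ht (mem_univ a'))
    have h2 : dist (h a') (h x) < δ x := hxa.2
    have h3 : dist (h a') b < δ x := hb.trans_le (Finset.inf'_le _ hx)
    have h4 : b ∈ ball (h x) (2 * δ x) := by
      rw [mem_ball]
      have := dist_triangle_left b (h x) (h a')
      linarith
    obtain ⟨y, hy, hyb⟩ := hδb x h4
    refine ⟨y, ?_, hyb⟩
    have h5 : dist a' x < η / 2 := hxa.1
    have h6 : dist y x < η / 2 := hy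
    have := dist_triangle_right a' y x
    linarith

/-- lifting of small stable displacements -/
theorem liftS (hg : LP g c) (he0 : 0 < e) (hexp : Exp k e) (H : SC g k h) (ho : IsOpenMap h)
    {ε : ℝ} (hε : 0 < ε) :
    ∃ δ > 0, ∀ (a' : X) (b : Y), SR k δ (h a') b → ∃ b', SR g ε a' b' ∧ h b' = b := by
  obtain ⟨ε₁, hε₁, hm1⟩ := H.mapS (half_pos he0)
  obtain ⟨ε₂, hε₂, hm2⟩ := H.mapU he0
  obtain ⟨δ₁, hδ₁, hlp⟩ := hg.lp (min ε (min ε₁ ε₂)) (lt_min hε (lt_min hε₁ hε₂))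
  obtain ⟨δ₂, hδ₂, hop⟩ := unif_open H.cont ho hδ₁
  refine ⟨min (δ₂ / 2) (e / 2), lt_min (half_pos hδ₂) (half_pos he0), fun a' b hab => ?_⟩
  have h1 : dist (h a') b < δ₂ := by
    have := (hab 0).trans (min_le_left _ _)
    simp only [Function.iterate_zero, id_eq] at this
    linarith
  obtain ⟨y, hy, rfl⟩ := hop a' b h1
  obtain ⟨z, hz1, hz2⟩ := hlp _ _ hy
  refine ⟨z, hz1.mono (min_le_left _ _), ?_⟩
  refine hexp _ _ ?_ ?_
  · have h2 := hm1 _ _ (hz1.mono ((min_le_right _ _).trans (min_le_left _ _)))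
    have h3 := qs_SR_add h2.symm' (hab.mono (min_le_right _ _))
    rwa [add_halves] at h3
  · exact (hm2 _ _ (hz2.mono ((min_le_right _ _).trans (min_le_right _ _)))).symm'

/-- lifting of small unstable displacements -/
theorem liftU (hg : LP g c) (he0 : 0 < e) (hexp : Exp k e) (H : SC g k h) (ho : IsOpenMap h)
    {ε : ℝ} (hε : 0 < ε) :
    ∃ δ > 0, ∀ (a' : X) (b : Y), SR k.symm δ (h a') b → ∃ b', SR g.symm ε a' b' ∧ h b' = b :=
  liftS hg.symm he0 hexp.symm H.symm ho hε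

theorem level (x y : Y) (hxy : WS k x y) {δ : ℝ} (hδ : 0 < δ) :
    ∃ N, ∀ n ≥ N, SR k δ (k^[n] x) (k^[n] y) := by
  obtain ⟨N, hN⟩ := hxy.eventually_lt hδ
  refine ⟨N, fun n hn j => ?_⟩
  rw [← Function.iterate_add_apply, ← Function.iterate_add_apply]
  exact (hN _ (by omega)).le

/-- lifting of stable displacements -/
theorem liftWS (hg : LP g c) (he0 : 0 < e) (hexp : Exp k e) (H : SC g k h) (ho : IsOpenMap h)
    {a' : X} {b : Y} (hab : WS k (h a') b) : ∃ b', WS g a' b' ∧ h b' = b := by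
  obtain ⟨δ, hδ, hl⟩ := liftS hg he0 hexp H ho hg.c_pos
  obtain ⟨N, hN⟩ := level _ _ hab hδ
  have h1 := hN N le_rfl
  rw [← H.iter] at h1
  obtain ⟨b'', hb1, hb2⟩ := hl _ _ h1
  refine ⟨g.symm^[N] b'', ?_, ?_⟩
  · rw [← WS.iter N, iterR]
    exact WS_of_SR12 hg hb1
  · rw [H.iter', hb2, iterL]

theorem liftWU (hg : LP g c) (he0 : 0 < e) (hexp : Exp k e) (H : SC g k h) (ho : IsOpenMap h)
    {a' : X} {b : Y} (hab : WS k.symm (h a') b) : ∃ b', WS g.symm a' b' ∧ h b' = b :=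
  liftWS hg.symm he0 hexp.symm H.symm ho hab

/-- comparison of two small quadrilaterals -/
theorem cmp_small (hc₁ : 0 < c₁) (T : IQS g c₁) (he0 : 0 < e) (hexp : Exp k e) (H : SC g k h) :
    ∃ ρ > 0, ∀ u₁ x₁ v₁ y₁ u₂ x₂ v₂ y₂, T.Q u₁ x₁ v₁ y₁ → T.Q u₂ x₂ v₂ y₂ → SR g ρ u₁ x₁ →
      SR g ρ u₂ x₂ → SR g.symm ρ u₁ v₁ → SR g.symm ρ u₂ v₂ → h v₁ = h v₂ → h x₁ = h x₂ →
      h y₁ = h y₂ := by
  obtain ⟨ε₁, hε₁, hm1⟩ := H.mapS (half_pos he0)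
  obtain ⟨ε₂, hε₂, hm2⟩ := H.mapU (half_pos he0)
  obtain ⟨η₁, hη₁, hS⟩ := T.contS 0 ε₁ hε₁
  obtain ⟨η₂, hη₂, hU⟩ := T.contU 0 ε₂ hε₂
  refine ⟨min (min η₁ η₂) c₁, lt_min (lt_min hη₁ hη₂) hc₁, ?_⟩
  intro u₁ x₁ v₁ y₁ u₂ x₂ v₂ y₂ q₁ q₂ s₁ s₂ w₁ w₂ hv hx
  have key : ∀ u x v y, T.Q u x v y → SR g (min (min η₁ η₂) c₁) u x →
      SR g.symm (min (min η₁ η₂) c₁) u v → SR k (e / 2) (h v) (h y) ∧
        SR k.symm (e / 2) (h x) (h y) := by
    intro u x v y q s w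
    refine ⟨hm1 _ _ (hS _ _ _ _ q (s.mono ((min_le_left _ _).trans (min_le_left _ _))) ?_),
      hm2 _ _ (hU _ _ _ _ q (w.mono ((min_le_left _ _).trans (min_le_right _ _))) ?_)⟩
    · exact w.mono (min_le_right _ _)
    · exact s.mono (min_le_right _ _)
  obtain ⟨a₁, b₁⟩ := key _ _ _ _ q₁ s₁ w₁
  obtain ⟨a₂, b₂⟩ := key _ _ _ _ q₂ s₂ w₂
  rw [← hv] at a₂
  rw [← hx] at b₂
  refine hexp _ _ ?_ ?_
  · have := qs_SR_add a₁.symm' a₂
    rwa [add_halves] at this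
  · have := qs_SR_add b₁.symm' b₂
    rwa [add_halves] at this

/-- comparison of two quadrilaterals with small unstable side -/
theorem cmp (hg : LP g c) (hc₁ : 0 < c₁) (T : IQS g c₁) (he0 : 0 < e) (hexp : Exp k e)
    (H : SC g k h) {u₁ x₁ u₂ x₂ : X} (hw₁ : WS g u₁ x₁) (hw₂ : WS g u₂ x₂) (hu : h u₁ = h u₂) :
    ∃ ρ > 0, ∀ v₁ y₁ v₂ y₂, T.Q u₁ x₁ v₁ y₁ → T.Q u₂ x₂ v₂ y₂ → SR g.symm ρ u₁ v₁ →
      SR g.symm ρ u₂ v₂ → h v₁ = h v₂ → (h x₁ = h x₂ ↔ h y₁ = h y₂) := by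
  obtain ⟨ρ₀, hρ₀, hcmp⟩ := cmp_small hc₁ T he0 hexp H
  obtain ⟨κ, hκ, hlev⟩ := T.level hg hρ₀
  obtain ⟨N₁, hN₁⟩ := level _ _ hw₁ (lt_min hκ hρ₀)
  obtain ⟨N₂, hN₂⟩ := level _ _ hw₂ (lt_min hκ hρ₀)
  obtain ⟨N, hN⟩ : ∃ N, N = max N₁ N₂ := ⟨_, rfl⟩
  have k₁ := hN₁ N (by rw [hN]; exact le_max_left _ _)
  have k₂ := hN₂ N (by rw [hN]; exact le_max_right _ _)
  obtain ⟨η, hη, hlevN⟩ := hlev N
  have hcm : ∀ x, g (g.symm x) = g.symm (g x) := fun x => by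
    rw [g.symm_apply_apply, g.apply_symm_apply]
  obtain ⟨η', hη', hmap⟩ := uc_map_iter (g := g.symm) (φ := g) hcm N ρ₀ hρ₀
  refine ⟨min η η', lt_min hη hη', ?_⟩
  intro v₁ y₁ v₂ y₂ q₁ q₂ w₁ w₂ hv
  have m₁ := hmap _ _ (w₁.mono (min_le_right _ _))
  have m₂ := hmap _ _ (w₂.mono (min_le_right _ _))
  have l₁ := hlevN _ _ _ _ q₁ (w₁.mono (min_le_left _ _)) (k₁.mono (min_le_left _ _))
  have l₂ := hlevN _ _ _ _ q₂ (w₂.mono (min_le_left _ _)) (k₂.mono (min_le_left _ _))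
  have hinj : Function.Injective (k^[N]) := k.injective.iterate N
  constructor
  · intro hx
    have := hcmp _ _ _ _ _ _ _ _ (T.iterF q₁ N) (T.iterF q₂ N) (k₁.mono (min_le_right _ _))
      (k₂.mono (min_le_right _ _)) m₁ m₂ (by rw [H.iter, H.iter, hv]) (by rw [H.iter, H.iter, hx])
    rw [H.iter, H.iter] at this
    exact hinj this
  · intro hy
    have := hcmp _ _ _ _ _ _ _ _ (T.iterF (T.flipU _ _ _ _ q₁) N)
      (T.iterF (T.flipU _ _ _ _ q₂) N) l₁ l₂ m₁.symm' m₂.symm' (by rw [H.iter, H.iter, hu])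
      (by rw [H.iter, H.iter, hy])
    rw [H.iter, H.iter] at this
    exact hinj this

end Pool.Agent.H244.Op
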