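import Pool.Agent.H244.Op1

/-!
# Open factors: quadrilaterals
-/

set_option autoImplicit false

open Filter Topology Set Metric unitInterval

namespace Pool.Agent.H244.Op

open Pool.Agent.H789R2.AN Pool.Agent.H789R2.GP Pool.Agent.TH289.K

variable {X Y : Type*} [MetricSpace X] [CompactSpace X] [MetricSpace Y]
  {g : X ≃ₜ X} {k : Y ≃ₜ Y} {h : X → Y} {c c₁ e : ℝ}

/-- the image of the fourth corner depends only on the images of the first three -/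
theorem quad_unique (hg : LP g c) (hc₁ : 0 < c₁) (T : IQS g c₁) (hX : ULC X) (he0 : 0 < e)
    (hexp : Exp k e) (H : SC g k h) (ho : IsOpenMap h) {a₁ s₁ u₁ x₁ a₂ s₂ u₂ x₂ : X}
    (q₁ : T.Q a₁ s₁ u₁ x₁) (q₂ : T.Q a₂ s₂ u₂ x₂) (ha : h a₁ = h a₂) (hs : h s₁ = h s₂)
    (hu : h u₁ = h u₂) : h x₁ = h x₂ := by
  obtain ⟨υ, hυ0, hυ1⟩ := leaf_conn hg.symm hX a₁ u₁ (T.wu q₁)
  have hυa : ∀ t, WS g.symm a₁ (υ t).val := fun t => by
    have := WS_of_path hg.symm υ 0 t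
    rwa [hυ0] at this
  -- slides upstairs over the first base point
  have hex₁ : ∀ t, ∃ y, T.Q a₁ s₁ (υ t).val y := fun t => T.ex _ _ _ (T.ws q₁) (hυa t)
  choose y₁ hy₁ using hex₁
  -- lifts to the second base point
  have hmapU : ∀ x y, WS g.symm x y → WS k.symm (h x) (h y) := by
    intro x y hxy
    rw [WS, Metric.tendsto_atTop]
    intro ε hε
    obtain ⟨δ, hδ, hd⟩ := H.mapU (half_pos hε)
    obtain ⟨N, hN⟩ := level (k := g.symm) x y hxy hδ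
    refine ⟨N, fun n hn => ?_⟩
    have h1 := hd _ _ (hN n hn) 0
    simp only [Function.iterate_zero, id_eq] at h1
    rw [H.iter', H.iter'] at h1
    rw [Real.dist_eq, sub_zero, abs_of_nonneg dist_nonneg]
    linarith
  have hex₂ : ∀ t, ∃ v, WS g.symm a₂ v ∧ h v = h (υ t).val := by
    intro t
    refine liftWU hg he0 hexp H ho ?_
    rw [← ha]
    exact hmapU _ _ (hυa t)
  choose v₂ hv₂ using hex₂
  have hex₃ : ∀ t, ∃ y, T.Q a₂ s₂ (v₂ t) y := fun t => T.ex _ _ _ (T.ws q₂) (hv₂ t).1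
  choose y₂ hy₂ using hex₃
  have hdeg : ∀ {a s u x : X}, T.Q a s u x → h a = h u → h s = h x := fun q hh =>
    T.deg hg hc₁ hX H he0 hexp q hh
  -- near each parameter the two statements are equivalent
  have hloc : ∀ t₀, ∀ᶠ t in 𝓝 t₀, (h (y₁ t₀) = h (y₂ t₀) ↔ h (y₁ t) = h (y₂ t)) := by
    intro t₀
    obtain ⟨ρ, hρ, hcmp⟩ := cmp hg hc₁ T he0 hexp H (u₁ := (υ t₀).val) (x₁ := y₁ t₀)
      (u₂ := v₂ t₀) (x₂ := y₂ t₀) (T.wS _ _ _ _ (hy₁ t₀)) (T.wS _ _ _ _ (hy₂ t₀)) (hv₂ t₀).2.symm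
    obtain ⟨δ, hδ, hlift⟩ := liftU hg he0 hexp H ho (lt_min hρ hg.c_pos)
    obtain ⟨δ', hδ', hm⟩ := H.mapU hδ
    have h1 : ∀ᶠ t in 𝓝 t₀, dist (υ t) (υ t₀) < min δ' ρ :=
      (Metric.tendsto_nhds.mp (υ.continuous.tendsto t₀)) _ (lt_min hδ' hρ)
    filter_upwards [h1] with t ht
    have h2 : SR g.symm (min δ' ρ) (υ t₀).val (υ t).val := by
      rw [dist_comm] at ht
      exact (SM.dist_le _ _ (lt_min hδ' hρ).le).mp ht.le
    have h3 : SR k.symm δ (h (v₂ t₀)) (h (υ t).val) := by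
      rw [(hv₂ t₀).2]
      exact hm _ _ (h2.mono (min_le_left _ _))
    obtain ⟨w, hw1, hw2⟩ := hlift _ _ h3
    have hww : WS g.symm (v₂ t₀) w := WS_of_SR12' hg (hw1.mono (min_le_right _ _))
    obtain ⟨z, hz⟩ := T.ex _ _ _ (T.wS _ _ _ _ (hy₂ t₀)) hww
    have q3 : T.Q (υ t₀).val (y₁ t₀) (υ t).val (y₁ t) :=
      T.compU _ _ _ _ _ _ (T.flipU _ _ _ _ (hy₁ t₀)) (hy₁ t)
    have h4 := hcmp _ _ _ _ q3 hz (h2.mono (min_le_right _ _)) (hw1.mono (min_le_left _ _))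
      hw2.symm
    rw [h4]
    -- compare the two lifts
    have q4 : T.Q a₂ s₂ w z := T.compU _ _ _ _ _ _ (hy₂ t₀) hz
    have q5 : T.Q w z (v₂ t) (y₂ t) := T.compU _ _ _ _ _ _ (T.flipU _ _ _ _ q4) (hy₂ t)
    have h5 : h z = h (y₂ t) := hdeg q5 (by rw [hw2, (hv₂ t).2])
    rw [h5]
  have hconst : ∀ t, (h (y₁ 0) = h (y₂ 0) ↔ h (y₁ t) = h (y₂ t)) := by
    have hl : IsLocallyConstant (fun t : I => (h (y₁ t) = h (y₂ t))) := by
      rw [IsLocallyConstant.iff_eventually_eq]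
      intro t₀
      filter_upwards [hloc t₀] with t ht
      exact propext ht.symm
    intro t
    exact iff_of_eq (hl.apply_eq_of_preconnectedSpace 0 t)
  have h0 : h (y₁ 0) = h (y₂ 0) := by
    have e1 : y₁ 0 = s₁ := by
      have h1 := hy₁ 0
      rw [hυ0] at h1
      exact T.unique _ _ _ _ _ h1 (qs_degS T.toQS (T.ws q₁))
    have e2 : h a₂ = h (v₂ 0) := by rw [(hv₂ 0).2, hυ0, ← ha]
    rw [e1, hs]
    exact hdeg (hy₂ 0) e2
  have h1 := (hconst 1).1 h0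
  have e1 : y₁ 1 = x₁ := by
    have h1 := hy₁ 1
    rw [hυ1] at h1
    exact T.unique _ _ _ _ _ h1 q₁
  have q6 : T.Q (v₂ 1) (y₂ 1) u₂ x₂ := T.compU _ _ _ _ _ _ (T.flipU _ _ _ _ (hy₂ 1)) q₂
  have h6 : h (y₂ 1) = h x₂ := hdeg q6 (by rw [(hv₂ 1).2, hυ1, hu])
  rw [← e1, h1, h6]

/-- the quadrilateral structure of an open factor -/
theorem push (hg : LP g c) (hc₁ : 0 < c₁) (T : IQS g c₁) (hX : ULC X) (he0 : 0 < e)
    (hexp : Exp k e) (H : SC g k h) (ho : IsOpenMap h) (hsurj : Function.Surjective h) :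
    ∃ c₂ > 0, Nonempty (IQS k c₂) := by
  have hU := fun {a₁ s₁ u₁ x₁ a₂ s₂ u₂ x₂ : X} (q₁ : T.Q a₁ s₁ u₁ x₁) (q₂ : T.Q a₂ s₂ u₂ x₂)
    (ha : h a₁ = h a₂) (hs : h s₁ = h s₂) (hu : h u₁ = h u₂) =>
      quad_unique hg hc₁ T hX he0 hexp H ho q₁ q₂ ha hs hu
  have hmapWS : ∀ x y, WS g x y → WS k (h x) (h y) := by
    intro x y hxy
    rw [WS, Metric.tendsto_atTop]
    intro ε hε
    obtain ⟨δ, hδ, hd⟩ := H.mapS (half_pos hε)
    obtain ⟨N, hN⟩ := level x y hxy hδ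
    refine ⟨N, fun n hn => ?_⟩
    have h1 := hd _ _ (hN n hn) 0
    simp only [Function.iterate_zero, id_eq] at h1
    rw [H.iter, H.iter] at h1
    rw [Real.dist_eq, sub_zero, abs_of_nonneg dist_nonneg]
    linarith
  have hmapWU : ∀ x y, WS g.symm x y → WS k.symm (h x) (h y) := by
    intro x y hxy
    rw [WS, Metric.tendsto_atTop]
    intro ε hε
    obtain ⟨δ, hδ, hd⟩ := H.mapU (half_pos hε)
    obtain ⟨N, hN⟩ := level (k := g.symm) x y hxy hδ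
    refine ⟨N, fun n hn => ?_⟩
    have h1 := hd _ _ (hN n hn) 0
    simp only [Function.iterate_zero, id_eq] at h1
    rw [H.iter', H.iter'] at h1
    rw [Real.dist_eq, sub_zero, abs_of_nonneg dist_nonneg]
    linarith
  obtain ⟨cS, hcS, hliftS⟩ := liftS hg he0 hexp H ho (lt_min hc₁ hg.c_pos)
  obtain ⟨cU, hcU, hliftU⟩ := liftU hg he0 hexp H ho (lt_min hc₁ hg.c_pos)
  refine ⟨min cS cU, lt_min hcS hcU, ⟨?_⟩⟩
  exact
    { Q := fun a s u x => ∃ a' s' u' x', T.Q a' s' u' x' ∧ h a' = a ∧ h s' = s ∧ h u' = u ∧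
        h x' = x
      ex := by
        intro a s u has hau
        obtain ⟨a', rfl⟩ := hsurj a
        obtain ⟨s', hs', rfl⟩ := liftWS hg he0 hexp H ho has
        obtain ⟨u', hu', rfl⟩ := liftWU hg he0 hexp H ho hau
        obtain ⟨x', hx'⟩ := T.ex _ _ _ hs' hu'
        exact ⟨h x', a', s', u', x', hx', rfl, rfl, rfl, rfl⟩
      unique := by
        rintro a s u x x' ⟨a₁, s₁, u₁, x₁, q₁, rfl, rfl, rfl, rfl⟩
          ⟨a₂, s₂, u₂, x₂, q₂, ha, hs, hu, rfl⟩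
        exact hU q₁ q₂ ha.symm hs.symm hu.symm
      wS := by
        rintro a s u x ⟨a₁, s₁, u₁, x₁, q₁, rfl, rfl, rfl, rfl⟩
        exact hmapWS _ _ (T.wS _ _ _ _ q₁)
      wU := by
        rintro a s u x ⟨a₁, s₁, u₁, x₁, q₁, rfl, rfl, rfl, rfl⟩
        exact hmapWU _ _ (T.wU _ _ _ _ q₁)
      compU := by
        rintro a s u x u' x' ⟨a₁, s₁, u₁, x₁, q₁, rfl, rfl, rfl, rfl⟩
          ⟨a₂, s₂, u₂, x₂, q₂, ha, hs, rfl, rfl⟩
        have h1 : WS k.symm (h u₁) (h u₂) := by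
          rw [← ha]
          exact hmapWU _ _ (T.wu q₂)
        obtain ⟨u₃, hu₃, hu₃'⟩ := liftWU hg he0 hexp H ho h1
        obtain ⟨x₃, q₃⟩ := T.ex _ _ _ (T.wS _ _ _ _ q₁) hu₃
        exact ⟨a₁, s₁, u₃, x₃, T.compU _ _ _ _ _ _ q₁ q₃, rfl, rfl, hu₃',
          hU q₃ q₂ ha.symm hs.symm hu₃'⟩
      compS := by
        rintro a s u x s' x' ⟨a₁, s₁, u₁, x₁, q₁, rfl, rfl, rfl, rfl⟩
          ⟨a₂, s₂, u₂, x₂, q₂, ha, rfl, hu, rfl⟩
        have h1 : WS k (h s₁) (h s₂) := by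
          rw [← ha]
          exact hmapWS _ _ (T.ws q₂)
        obtain ⟨s₃, hs₃, hs₃'⟩ := liftWS hg he0 hexp H ho h1
        obtain ⟨x₃, q₃⟩ := T.ex _ _ _ hs₃ (T.wU _ _ _ _ q₁)
        exact ⟨a₁, s₃, u₁, x₃, T.compS _ _ _ _ _ _ q₁ q₃, rfl, hs₃', rfl,
          hU q₃ q₂ ha.symm hs₃' hu.symm⟩
      flipU := by
        rintro a s u x ⟨a₁, s₁, u₁, x₁, q₁, rfl, rfl, rfl, rfl⟩
        exact ⟨_, _, _, _, T.flipU _ _ _ _ q₁, rfl, rfl, rfl, rfl⟩
      flipS := by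
        rintro a s u x ⟨a₁, s₁, u₁, x₁, q₁, rfl, rfl, rfl, rfl⟩
        exact ⟨_, _, _, _, T.flipS _ _ _ _ q₁, rfl, rfl, rfl, rfl⟩
      tiny := by
        obtain ⟨ε₁, hε₁, hm1⟩ := H.mapS (half_pos he0)
        obtain ⟨ε₂, hε₂, hm2⟩ := H.mapU (half_pos he0)
        obtain ⟨η₁, hη₁, hS⟩ := T.contS 0 ε₁ hε₁
        obtain ⟨η₂, hη₂, hUU⟩ := T.contU 0 ε₂ hε₂
        obtain ⟨ρ, hρ⟩ : ∃ ρ, ρ = min (min η₁ η₂) (min c₁ c) := ⟨_, rfl⟩
        have hρ0 : 0 < ρ := by rw [hρ]; exact lt_min (lt_min hη₁ hη₂) (lt_min hc₁ hg.c_pos)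
        obtain ⟨δ₁, hδ₁, hl1⟩ := liftS hg he0 hexp H ho hρ0
        obtain ⟨δ₂, hδ₂, hl2⟩ := liftU hg he0 hexp H ho hρ0
        have hρη₁ : ρ ≤ η₁ := by rw [hρ]; exact (min_le_left _ _).trans (min_le_left _ _)
        have hρη₂ : ρ ≤ η₂ := by rw [hρ]; exact (min_le_left _ _).trans (min_le_right _ _)
        have hρc₁ : ρ ≤ c₁ := by rw [hρ]; exact (min_le_right _ _).trans (min_le_left _ _)
        have hρc : ρ ≤ c := by rw [hρ]; exact (min_le_right _ _).trans (min_le_right _ _)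
        refine ⟨min (min δ₁ δ₂) (e / 2), lt_min (lt_min hδ₁ hδ₂) (half_pos he0), ?_⟩
        intro a s u x h1 h2 h3 h4
        obtain ⟨a', rfl⟩ := hsurj a
        obtain ⟨s', hs', rfl⟩ := hl1 _ _ (h1.mono ((min_le_left _ _).trans (min_le_left _ _)))
        obtain ⟨u', hu', rfl⟩ := hl2 _ _ (h2.mono ((min_le_left _ _).trans (min_le_right _ _)))
        obtain ⟨x', hx'⟩ := T.ex _ _ _ (WS_of_SR12 hg (hs'.mono hρc))
          (WS_of_SR12' hg (hu'.mono hρc))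
        have k1 := hm1 _ _ (hS _ _ _ _ hx' (hs'.mono hρη₁) (hu'.mono hρc₁))
        have k2 := hm2 _ _ (hUU _ _ _ _ hx' (hu'.mono hρη₂) (hs'.mono hρc₁))
        refine ⟨a', s', u', x', hx', rfl, rfl, rfl, ?_⟩
        refine hexp _ _ ?_ ?_
        · have := qs_SR_add k1.symm' (h3.mono (min_le_right _ _))
          rwa [add_halves] at this
        · have := qs_SR_add k2.symm' (h4.mono (min_le_right _ _))
          rwa [add_halves] at this
      contS := by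
        intro j ε hε
        obtain ⟨ε', hε', hm⟩ := H.mapS hε
        obtain ⟨η, hη, hS⟩ := T.contS j ε' hε'
        obtain ⟨δ, hδ, hl⟩ := liftS hg he0 hexp H ho (lt_min hη hg.c_pos)
        refine ⟨δ, hδ, ?_⟩
        rintro a s u x ⟨a₁, s₁, u₁, x₁, q₁, rfl, rfl, rfl, rfl⟩ h1 h2
        obtain ⟨s₂, hs₂, hs₂'⟩ := hl _ _ h1
        rw [← H.iter'] at h2
        obtain ⟨w, hw, hw'⟩ := hliftU _ _ (h2.mono (min_le_right _ _))
        have hwu : h (g^[j] w) = h u₁ := by rw [H.iter, hw', iterR]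
        have hwj : g.symm^[j] (g^[j] w) = w := iterL g j w
        have hWU : WS g.symm a₁ (g^[j] w) := by
          rw [← WS.iter j, hwj]
          exact WS_of_SR12' hg (hw.mono (min_le_right _ _))
        obtain ⟨x₂, q₂⟩ := T.ex _ _ _ (WS_of_SR12 hg (hs₂.mono (min_le_right _ _))) hWU
        have h3 := hS _ _ _ _ q₂ (hs₂.mono (min_le_left _ _)) (by
          rw [hwj]; exact hw.mono (min_le_left _ _))
        have h4 := hm _ _ h3
        rwa [hwu, hU q₂ q₁ rfl hs₂' hwu] at h4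
      contU := by
        intro j ε hε
        obtain ⟨ε', hε', hm⟩ := H.mapU hε
        obtain ⟨η, hη, hS⟩ := T.contU j ε' hε'
        obtain ⟨δ, hδ, hl⟩ := liftU hg he0 hexp H ho (lt_min hη hg.c_pos)
        refine ⟨δ, hδ, ?_⟩
        rintro a s u x ⟨a₁, s₁, u₁, x₁, q₁, rfl, rfl, rfl, rfl⟩ h1 h2
        obtain ⟨u₂, hu₂, hu₂'⟩ := hl _ _ h1
        rw [← H.iter] at h2
        obtain ⟨w, hw, hw'⟩ := hliftS _ _ (h2.mono (min_le_left _ _))
        have hws : h (g.symm^[j] w) = h s₁ := by rw [H.iter', hw', iterL]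
        have hwj : g^[j] (g.symm^[j] w) = w := iterR g j w
        have hWS : WS g a₁ (g.symm^[j] w) := by
          rw [← WS.iter j, hwj]
          exact WS_of_SR12 hg (hw.mono (min_le_right _ _))
        obtain ⟨x₂, q₂⟩ := T.ex _ _ _ hWS (WS_of_SR12' hg (hu₂.mono (min_le_right _ _)))
        have h3 := hS _ _ _ _ q₂ (hu₂.mono (min_le_left _ _)) (by
          rw [hwj]; exact hw.mono (min_le_left _ _))
        have h4 := hm _ _ h3
        rwa [hws, hU q₂ q₁ rfl hws hu₂'] at h4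
      itF := by
        rintro a s u x ⟨a₁, s₁, u₁, x₁, q₁, rfl, rfl, rfl, rfl⟩
        exact ⟨_, _, _, _, T.itF _ _ _ _ q₁, H.comm _, H.comm _, H.comm _, H.comm _⟩
      itB := by
        rintro a s u x ⟨a₁, s₁, u₁, x₁, q₁, rfl, rfl, rfl, rfl⟩
        exact ⟨_, _, _, _, T.itB _ _ _ _ q₁, H.symm.comm _, H.symm.comm _, H.symm.comm _,
          H.symm.comm _⟩ }

end Pool.Agent.H244.Op
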