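import Pool.Agent.H244.Op2

/-!
# Adapted metrics for expansive homeomorphisms
-/

set_option autoImplicit false

open Filter Topology Set Metric unitInterval NNReal

namespace Pool.Agent.H244.Op

section adapted

variable {Y : Type*} [MetricSpace Y] {k : Y ≃ₜ Y} {e : ℝ}

/-- orbits close for the times `-n, …, n` -/
def W (k : Y ≃ₜ Y) (e : ℝ) (n : ℕ) (x y : Y) : Prop :=
  ∀ i < n, dist (k^[i] x) (k^[i] y) ≤ e ∧ dist (k.symm^[i] x) (k.symm^[i] y) ≤ e

theorem W_zero (x y : Y) : W k e 0 x y := fun i hi => absurd hi (Nat.not_lt_zero i)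

theorem W.anti {n n' : ℕ} (h : n ≤ n') {x y : Y} (hw : W k e n' x y) : W k e n x y :=
  fun i hi => hw i (hi.trans_le h)

theorem W.comm {n : ℕ} {x y : Y} (hw : W k e n x y) : W k e n y x := fun i hi => by
  rw [dist_comm, dist_comm (k.symm^[i] y)]
  exact hw i hi

theorem W_self (he : 0 ≤ e) (n : ℕ) (x : Y) : W k e n x x := fun i _ => by
  simpa using he

theorem W_closed (n : ℕ) : IsClosed {p : Y × Y | W k e n p.1 p.2} := by
  have : {p : Y × Y | W k e n p.1 p.2} = ⋂ i ∈ {i | i < n},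
      ({p : Y × Y | dist (k^[i] p.1) (k^[i] p.2) ≤ e} ∩
        {p : Y × Y | dist (k.symm^[i] p.1) (k.symm^[i] p.2) ≤ e}) := by
    ext p
    simp only [W, mem_setOf_eq, mem_iInter, mem_inter_iff]
  rw [this]
  refine isClosed_biInter fun i _ => ?_
  have h1 : Continuous (k^[i]) := k.continuous.iterate i
  have h2 : Continuous (k.symm^[i]) := k.symm.continuous.iterate i
  exact (isClosed_le (by fun_prop) continuous_const).inter
    (isClosed_le (by fun_prop) continuous_const)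

theorem iter_sub (f : Y ≃ₜ Y) {i j : ℕ} (h : i ≤ j) (x : Y) :
    f.symm^[i] (f^[j] x) = f^[j - i] x := by
  obtain ⟨l, rfl⟩ := Nat.exists_eq_add_of_le h
  rw [Function.iterate_add_apply, Nat.add_sub_cancel_left]
  exact (Function.LeftInverse.iterate f.symm_apply_apply i) _

theorem iter_sub' (f : Y ≃ₜ Y) {i j : ℕ} (h : j ≤ i) (x : Y) :
    f.symm^[i] (f^[j] x) = f.symm^[i - j] x := by
  obtain ⟨l, rfl⟩ := Nat.exists_eq_add_of_le h
  rw [Nat.add_comm, Function.iterate_add_apply, Nat.add_sub_cancel]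
  rw [(Function.LeftInverse.iterate f.symm_apply_apply j) x]

/-- the pairs with close orbits move up under the map if the forward orbits stay close -/
theorem W.fwd {n : ℕ} {x y : Y} (hw : W k e n x y)
    (hf : ∀ i : ℕ, dist (k^[i] x) (k^[i] y) ≤ e) (j : ℕ) : W k e (n + j) (k^[j] x) (k^[j] y) := by
  intro i hi
  refine ⟨?_, ?_⟩
  · rw [← Function.iterate_add_apply, ← Function.iterate_add_apply]
    exact hf _
  · rcases le_total i j with h | h
    · rw [iter_sub k h, iter_sub k h]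
      exact hf _
    · rw [iter_sub' k h, iter_sub' k h]
      exact (hw (i - j) (by omega)).2

/-- shifted pairs -/
theorem W.shift {n j : ℕ} {x y : Y} (hw : W k e (n + j) x y) :
    W k e n (k^[j] x) (k^[j] y) := by
  intro i hi
  refine ⟨?_, ?_⟩
  · rw [← Function.iterate_add_apply, ← Function.iterate_add_apply]
    exact (hw (i + j) (by omega)).1
  · rcases le_total i j with h | h
    · rw [iter_sub k h, iter_sub k h]
      exact (hw (j - i) (by omega)).1
    · rw [iter_sub' k h, iter_sub' k h]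
      exact (hw (i - j) (by omega)).2

theorem W.symm' {n : ℕ} {x y : Y} (hw : W k e n x y) : W k.symm e n x y :=
  fun i hi => ⟨(hw i hi).2, (hw i hi).1⟩

theorem W_small [CompactSpace Y] (hexp : ∀ x y, (∀ n, W k e n x y) → x = y) {ε : ℝ} (hε : 0 < ε) :
    ∃ m, ∀ x y, W k e m x y → dist x y < ε := by
  by_contra hcon
  push Not at hcon
  have hne : (⋂ n : ℕ, {p : Y × Y | W k e n p.1 p.2 ∧ ε ≤ dist p.1 p.2}).Nonempty := by
    have hcl : ∀ n : ℕ, IsClosed {p : Y × Y | W k e n p.1 p.2 ∧ ε ≤ dist p.1 p.2} := fun n =>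
      (W_closed n).inter (isClosed_le continuous_const continuous_dist)
    refine IsCompact.nonempty_iInter_of_sequence_nonempty_isCompact_isClosed _ ?_ ?_ ?_ hcl
    · intro n p hp
      exact ⟨hp.1.anti (Nat.le_succ n), hp.2⟩
    · intro n
      obtain ⟨x, y, h1, h2⟩ := hcon n
      exact ⟨(x, y), h1, h2⟩
    · exact (hcl 0).isCompact
  obtain ⟨p, hp⟩ := hne
  rw [mem_iInter] at hp
  have h1 := hexp p.1 p.2 fun n => (hp n).1
  have h2 := (hp 0).2
  rw [h1, dist_self] at h2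
  linarith

/-- composition of three pairs -/
theorem W_comp {m : ℕ} (hm : ∀ x y, W k e m x y → dist x y < e / 3) {n : ℕ} {x₁ x₂ x₃ x₄ : Y}
    (h₁ : W k e (n + m) x₁ x₂) (h₂ : W k e (n + m) x₂ x₃) (h₃ : W k e (n + m) x₃ x₄) :
    W k e (n + 1) x₁ x₄ := by
  have hm' : ∀ x y, W k.symm e m x y → dist x y < e / 3 := fun x y h => hm x y h.symm'
  have key : ∀ (f : Y ≃ₜ Y), (∀ x y, W f e m x y → dist x y < e / 3) →
      W f e (n + m) x₁ x₂ → W f e (n + m) x₂ x₃ → W f e (n + m) x₃ x₄ → ∀ i < n + 1,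
      dist (f^[i] x₁) (f^[i] x₄) ≤ e := by
    intro f hf g₁ g₂ g₃ i hi
    have e1 := hf _ _ ((g₁.anti (show m + i ≤ n + m by omega)).shift)
    have e2 := hf _ _ ((g₂.anti (show m + i ≤ n + m by omega)).shift)
    have e3 := hf _ _ ((g₃.anti (show m + i ≤ n + m by omega)).shift)
    have t1 := dist_triangle (f^[i] x₁) (f^[i] x₂) (f^[i] x₄)
    have t2 := dist_triangle (f^[i] x₂) (f^[i] x₃) (f^[i] x₄)
    linarith
  intro i hi
  exact ⟨key k hm h₁ h₂ h₃ i hi, key k.symm hm' h₁.symm' h₂.symm' h₃.symm' i hi⟩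

/-- the quasimetric -/
noncomputable def q0 (k : Y ≃ₜ Y) (e θ : ℝ) (x y : Y) : ℝ := ⨅ n : {n // W k e n x y}, θ ^ (n : ℕ)

variable {θ : ℝ}

theorem q0_bdd (hθ : 0 < θ) (x y : Y) :
    BddBelow (range fun n : {n // W k e n x y} => θ ^ (n : ℕ)) :=
  ⟨0, by rintro _ ⟨n, rfl⟩; positivity⟩

theorem q0_nonneg (hθ : 0 < θ) (x y : Y) : 0 ≤ q0 k e θ x y :=
  Real.iInf_nonneg fun n => by positivity

theorem q0_le (hθ : 0 < θ) {n : ℕ} {x y : Y} (h : W k e n x y) : q0 k e θ x y ≤ θ ^ n :=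
  ciInf_le (q0_bdd hθ x y) ⟨n, h⟩

theorem W_of_q0 (hθ : 0 < θ) (hθ1 : θ < 1) {n : ℕ} {x y : Y} (h : q0 k e θ x y < θ ^ n) :
    W k e (n + 1) x y := by
  have _ : Nonempty {n // W k e n x y} := ⟨⟨0, W_zero x y⟩⟩
  obtain ⟨⟨n', hn'⟩, h1⟩ := exists_lt_of_ciInf_lt h
  refine hn'.anti ?_
  by_contra hcon
  have h2 : θ ^ n ≤ θ ^ n' := pow_le_pow_of_le_one hθ.le hθ1.le (by omega)
  exact absurd h1 (not_lt.2 h2)

theorem q0_comm (x y : Y) : q0 k e θ x y = q0 k e θ y x := by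
  unfold q0
  have h1 : (fun n : ℕ => W k e n x y) = fun n => W k e n y x := by
    funext n
    exact propext ⟨W.comm, W.comm⟩
  simp only [iInf, range]
  congr 1
  ext r
  constructor
  · rintro ⟨⟨n, hn⟩, rfl⟩
    exact ⟨⟨n, hn.comm⟩, rfl⟩
  · rintro ⟨⟨n, hn⟩, rfl⟩
    exact ⟨⟨n, hn.comm⟩, rfl⟩

theorem q0_all (hθ : 0 < θ) (hθ1 : θ < 1) {x y : Y} (h : ∀ n, W k e n x y) :
    q0 k e θ x y = 0 := by
  refine le_antisymm ?_ (q0_nonneg hθ x y)
  have h1 : Tendsto (fun n : ℕ => θ ^ n) atTop (𝓝 0) :=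
    tendsto_pow_atTop_nhds_zero_of_lt_one hθ.le hθ1
  exact ge_of_tendsto' h1 fun n => q0_le hθ (h n)

theorem q0_tri {m : ℕ} (hθ : 0 < θ) (hθ1 : θ < 1) (hθm : 1 / 2 ≤ θ ^ m)
    (hm : ∀ x y, W k e m x y → dist x y < e / 3) (x₁ x₂ x₃ x₄ : Y) :
    q0 k e θ x₁ x₄ ≤ 2 * max (q0 k e θ x₁ x₂) (max (q0 k e θ x₂ x₃) (q0 k e θ x₃ x₄)) := by
  obtain ⟨M, hM⟩ : ∃ M, M = max (q0 k e θ x₁ x₂) (max (q0 k e θ x₂ x₃) (q0 k e θ x₃ x₄)) :=
    ⟨_, rfl⟩
  have m1 : q0 k e θ x₁ x₂ ≤ M := by rw [hM]; exact le_max_left _ _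
  have m2 : q0 k e θ x₂ x₃ ≤ M := by
    rw [hM]; exact (le_max_left _ _).trans (le_max_right _ _)
  have m3 : q0 k e θ x₃ x₄ ≤ M := by
    rw [hM]; exact (le_max_right _ _).trans (le_max_right _ _)
  rw [← hM]
  have hM0 : 0 ≤ M := (q0_nonneg hθ _ _).trans m1
  have hle1 : q0 k e θ x₁ x₄ ≤ 1 := by simpa using q0_le hθ (W_zero (k := k) (e := e) x₁ x₄)
  -- all the levels below
  have hlev : ∀ n, M < θ ^ n → q0 k e θ x₁ x₄ ≤ θ ^ (n + 2 - m) := by
    intro n hn
    have w1 := W_of_q0 hθ hθ1 (m1.trans_lt hn)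
    have w2 := W_of_q0 hθ hθ1 (m2.trans_lt hn)
    have w3 := W_of_q0 hθ hθ1 (m3.trans_lt hn)
    rcases le_total m (n + 1) with h | h
    · obtain ⟨l, hl⟩ := Nat.exists_eq_add_of_le h
      have hl' : n + 1 = l + m := by omega
      rw [hl'] at w1 w2 w3
      have := q0_le hθ (W_comp hm w1 w2 w3)
      have e1 : n + 2 - m = l + 1 := by omega
      rw [e1]
      exact this
    · rcases Nat.eq_or_lt_of_le h with h' | h'
      · have hl' : n + 1 = 0 + m := by omega
        rw [hl'] at w1 w2 w3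
        have := q0_le hθ (W_comp hm w1 w2 w3)
        have e1 : n + 2 - m = 0 + 1 := by omega
        rw [e1]
        exact this
      · have e1 : n + 2 - m = 0 := by omega
        rw [e1, pow_zero]
        exact hle1
  rcases hM0.eq_or_lt with h0 | hpos
  · have h1 : Tendsto (fun n : ℕ => θ ^ (n + 2 - m)) atTop (𝓝 0) := by
      refine (tendsto_pow_atTop_nhds_zero_of_lt_one hθ.le hθ1).comp ?_
      exact tendsto_atTop_mono (fun n => by omega) (tendsto_sub_atTop_nat m)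
    rw [← h0, mul_zero]
    exact ge_of_tendsto' h1 fun n => hlev n (by rw [← h0]; positivity)
  · rcases lt_or_ge M 1 with hM1 | hM1
    · have hex : ∃ j : ℕ, θ ^ j ≤ M := by
        obtain ⟨j, hj⟩ := exists_pow_lt_of_lt_one hpos hθ1
        exact ⟨j, hj.le⟩
      classical
      have hj1 := Nat.find_spec hex
      have hj2 : ∀ i, i < Nat.find hex → M < θ ^ i := fun i hi => not_le.1 (Nat.find_min hex hi)
      obtain ⟨j, hj⟩ : ∃ j, j = Nat.find hex := ⟨_, rfl⟩
      rw [← hj] at hj1 hj2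
      rcases j with _ | n
      · rw [pow_zero] at hj1
        linarith
      · have h1 := hlev n (hj2 n (Nat.lt_succ_self n))
        rcases le_total m (n + 2) with h | h
        · have e1 : θ ^ (n + 2 - m) * θ ^ m = θ ^ (n + 2) := by
            rw [← pow_add]
            congr 1
            omega
          have e2 : θ ^ (n + 2) ≤ θ ^ (n + 1) := pow_le_pow_of_le_one hθ.le hθ1.le (by omega)
          have e3 : 0 ≤ θ ^ (n + 2 - m) := by positivity
          nlinarith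
        · have e1 : θ ^ m ≤ θ ^ (n + 1) := pow_le_pow_of_le_one hθ.le hθ1.le (by omega)
          linarith
    · linarith

theorem exists_θ (m : ℕ) : ∃ θ : ℝ, 0 < θ ∧ θ < 1 ∧ 1 / 2 ≤ θ ^ m := by
  have hm : (0 : ℝ) < m + 1 := by positivity
  refine ⟨1 + -(1 / (2 * (m + 1))), ?_, ?_, ?_⟩
  · have : 1 / (2 * ((m : ℝ) + 1)) < 1 := by
      rw [div_lt_one (by positivity)]
      have : (0 : ℝ) ≤ m := Nat.cast_nonneg m
      linarith
    linarith
  · have : 0 < 1 / (2 * ((m : ℝ) + 1)) := by positivity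
    linarith
  · have h1 := one_add_mul_le_pow (a := -(1 / (2 * ((m : ℝ) + 1)))) (by
      have : 1 / (2 * ((m : ℝ) + 1)) ≤ 1 := by
        rw [div_le_one (by positivity)]
        have : (0 : ℝ) ≤ m := Nat.cast_nonneg m
        linarith
      linarith) m
    refine le_trans ?_ h1
    have : (m : ℝ) * (1 / (2 * ((m : ℝ) + 1))) ≤ 1 / 2 := by
      rw [mul_one_div, div_le_iff₀ (by positivity)]
      have : (0 : ℝ) ≤ m := Nat.cast_nonneg m
      linarith
    linarith

theorem q0_small (he : 0 < e) (hθ : 0 < θ) (hθ1 : θ < 1) (x : Y) {ε : ℝ} (hε : 0 < ε) :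
    ∀ᶠ y in 𝓝 x, q0 k e θ y x < ε := by
  obtain ⟨n, hn⟩ := exists_pow_lt_of_lt_one hε hθ1
  have h3 : ∀ᶠ y in 𝓝 x, W k e n y x := by
    have h4 : ∀ᶠ y in 𝓝 x, ∀ i ∈ Finset.range n, dist (k^[i] y) (k^[i] x) ≤ e ∧
        dist (k.symm^[i] y) (k.symm^[i] x) ≤ e := by
      rw [Filter.eventually_all_finset]
      intro i _
      have c1 : Continuous (k^[i]) := k.continuous.iterate i
      have c2 : Continuous (k.symm^[i]) := k.symm.continuous.iterate i
      have e1 := (Metric.tendsto_nhds.1 (c1.tendsto x)) e he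
      have e2 := (Metric.tendsto_nhds.1 (c2.tendsto x)) e he
      filter_upwards [e1, e2] with y y1 y2
      exact ⟨y1.le, y2.le⟩
    filter_upwards [h4] with y hy i hi
    exact hy i (Finset.mem_range.2 hi)
  filter_upwards [h3] with y hy
  exact (q0_le hθ hy).trans_lt hn

end adapted

theorem top_eq {Y : Type*} [m : MetricSpace Y] [hcomp : CompactSpace Y] (Q : Y → Y → ℝ)
    (hQ : ∀ x, ∀ ε > 0, ∀ᶠ y in 𝓝 x, Q y x < ε) (D : MetricSpace Y)
    (h1 : ∀ x y, D.dist x y ≤ Q x y) :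
    D.toPseudoMetricSpace.toUniformSpace.toTopologicalSpace =
      m.toPseudoMetricSpace.toUniformSpace.toTopologicalSpace := by
  have hcont : @Continuous Y Y m.toPseudoMetricSpace.toUniformSpace.toTopologicalSpace
      D.toPseudoMetricSpace.toUniformSpace.toTopologicalSpace id := by
    rw [@Metric.continuous_iff' Y Y D.toPseudoMetricSpace
      m.toPseudoMetricSpace.toUniformSpace.toTopologicalSpace]
    intro x ε hε
    refine (hQ x ε hε).mono fun y hy => ?_
    exact (h1 y x).trans_lt hy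
  apply le_antisymm
  · rw [TopologicalSpace.le_def]
    intro U hU
    have hK : @IsCompact Y m.toPseudoMetricSpace.toUniformSpace.toTopologicalSpace Uᶜ := by
      refine @IsClosed.isCompact Y m.toPseudoMetricSpace.toUniformSpace.toTopologicalSpace _ _ ?_
      exact (@isClosed_compl_iff Y m.toPseudoMetricSpace.toUniformSpace.toTopologicalSpace U).2 hU
    have hK' := @IsCompact.image Y Y m.toPseudoMetricSpace.toUniformSpace.toTopologicalSpace
      D.toPseudoMetricSpace.toUniformSpace.toTopologicalSpace _ id hK hcont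
    rw [image_id] at hK'
    have h2 := @IsCompact.isClosed Y D.toPseudoMetricSpace.toUniformSpace.toTopologicalSpace
      inferInstance _ hK'
    exact (@isClosed_compl_iff Y D.toPseudoMetricSpace.toUniformSpace.toTopologicalSpace U).1 h2
  · exact continuous_id_iff_le.1 hcont

/-- **Adapted metrics for expansive homeomorphisms.** -/
theorem exists_adapted {Y : Type*} [m : MetricSpace Y] [CompactSpace Y] {k : Y ≃ₜ Y} {e : ℝ}
    (he : 0 < e) (hexp : ∀ x y, (∀ n, W k e n x y) → x = y) :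
    ∃ θ : ℝ, 0 < θ ∧ θ < 1 ∧ ∃ Q : Y → Y → ℝ, Q = q0 k e θ ∧ ∃ D : MetricSpace Y,
      D.toPseudoMetricSpace.toUniformSpace.toTopologicalSpace =
        m.toPseudoMetricSpace.toUniformSpace.toTopologicalSpace ∧
      (∀ x y, D.dist x y ≤ Q x y) ∧ ∀ x y, Q x y ≤ 2 * D.dist x y := by
  obtain ⟨m₀, hm⟩ := W_small hexp (show 0 < e / 3 by positivity)
  obtain ⟨θ, hθ, hθ1, hθm⟩ := exists_θ m₀
  let d : Y → Y → ℝ≥0 := fun x y => ⟨q0 k e θ x y, q0_nonneg hθ x y⟩
  have hd : ∀ x y, ((d x y : ℝ≥0) : ℝ) = q0 k e θ x y := fun x y => rfl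
  have hd0 : ∀ x, d x x = 0 := fun x => by
    apply NNReal.coe_injective
    rw [hd, NNReal.coe_zero]
    exact q0_all hθ hθ1 fun n => W_self he.le n x
  have hdc : ∀ x y, d x y = d y x := fun x y => by
    apply NNReal.coe_injective
    rw [hd, hd, q0_comm]
  have hdt : ∀ x₁ x₂ x₃ x₄, d x₁ x₄ ≤ 2 * max (d x₁ x₂) (max (d x₂ x₃) (d x₃ x₄)) := by
    intro x₁ x₂ x₃ x₄
    rw [← NNReal.coe_le_coe]
    push_cast
    exact q0_tri hθ hθ1 hθm hm x₁ x₂ x₃ x₄
  have hsep : ∀ x y, q0 k e θ x y ≤ 0 → x = y := by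
    intro x y hxy
    refine hexp x y fun n => ?_
    exact (W_of_q0 hθ hθ1 (hxy.trans_lt (by positivity : 0 < θ ^ n))).anti (Nat.le_succ n)
  obtain ⟨Q, hQ⟩ : ∃ Q : Y → Y → ℝ, Q = q0 k e θ := ⟨_, rfl⟩
  have hQs : ∀ x, ∀ ε > 0, ∀ᶠ y in 𝓝 x, Q y x < ε := by
    intro x ε hε
    rw [hQ]
    exact q0_small he hθ hθ1 x hε
  rw [← hQ] at hsep
  have hdQ : ∀ x y, ((d x y : ℝ≥0) : ℝ) = Q x y := fun x y => by rw [hQ]; rfl
  have h1 : ∀ x y, (PseudoMetricSpace.ofPreNNDist d hd0 hdc).dist x y ≤ Q x y := fun x y => by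
    rw [← hdQ]
    exact PseudoMetricSpace.dist_ofPreNNDist_le d hd0 hdc x y
  have h2 : ∀ x y, Q x y ≤ 2 * (PseudoMetricSpace.ofPreNNDist d hd0 hdc).dist x y := fun x y => by
    rw [← hdQ]
    exact PseudoMetricSpace.le_two_mul_dist_ofPreNNDist d hd0 hdc hdt x y
  have hex : ∃ D : MetricSpace Y, (∀ x y, D.dist x y ≤ Q x y) ∧ ∀ x y, Q x y ≤ 2 * D.dist x y :=
    ⟨{ PseudoMetricSpace.ofPreNNDist d hd0 hdc with
        eq_of_dist_eq_zero := fun {x y} hxy => by
          refine hsep x y ?_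
          have h3 := h2 x y
          have h4 : (PseudoMetricSpace.ofPreNNDist d hd0 hdc).dist x y = 0 := hxy
          rwa [h4, mul_zero] at h3 }, h1, h2⟩
  have htop := top_eq Q hQs
  refine ⟨θ, hθ, hθ1, Q, hQ, ?_⟩
  obtain ⟨D, h3, h4⟩ := hex
  exact ⟨D, htop D h3, h3, h4⟩

end Pool.Agent.H244.Op
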