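import Pool.Agent.H244.Op3
import Pool.Graph.R_seed8.TH289.K.A9

/-!
# Open expansive factors of Anosov diffeomorphisms with global product structure
-/

set_option autoImplicit false

open Filter Topology Set Metric unitInterval NNReal
open scoped Manifold ContDiff

namespace Pool.Agent.H244.Op

open Pool.Agent.H721R2 Pool.Agent.H789R2.AN Pool.Agent.H789R2.GP Pool.Agent.TH289.K
  Pool.Agent.TH289

section contr

variable {Y : Type*} [MetricSpace Y] {k : Y ≃ₜ Y} {e θ : ℝ}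

theorem q0_symm (x y : Y) : q0 k.symm e θ x y = q0 k e θ x y := by
  unfold q0
  simp only [iInf, range]
  congr 1
  ext r
  constructor
  · rintro ⟨⟨n, hn⟩, rfl⟩
    exact ⟨⟨n, hn.symm'⟩, rfl⟩
  · rintro ⟨⟨n, hn⟩, rfl⟩
    exact ⟨⟨n, hn.symm'⟩, rfl⟩

theorem q0_contr (hθ : 0 < θ) {x y : Y} (hf : ∀ i : ℕ, dist (k^[i] x) (k^[i] y) ≤ e) (j : ℕ) :
    q0 k e θ (k^[j] x) (k^[j] y) ≤ θ ^ j * q0 k e θ x y := by
  have _ : Nonempty {n // W k e n x y} := ⟨⟨0, W_zero x y⟩⟩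
  have h1 : q0 k e θ (k^[j] x) (k^[j] y) / θ ^ j ≤ q0 k e θ x y := by
    refine le_ciInf fun n => ?_
    rw [div_le_iff₀ (by positivity), ← pow_add]
    exact q0_le hθ (n.2.fwd hf j)
  rwa [div_le_iff₀ (by positivity), mul_comm] at h1

theorem contr_raw (hθ : 0 < θ) (hθ1 : θ < 1) {D : Y → Y → ℝ} (hD1 : ∀ x y, D x y ≤ q0 k e θ x y)
    (hD2 : ∀ x y, q0 k e θ x y ≤ 2 * D x y) {N : ℕ} (hN : 1 ≤ N) (hNθ : θ ^ N ≤ 1 / 4) {x y : Y}
    (hxy : ∀ j, D (k^[N * j] x) (k^[N * j] y) ≤ θ ^ N / 4) (n : ℕ) :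
    D (k^[N * n] x) (k^[N * n] y) ≤ θ ^ N / 4 * (1 / 2) ^ n := by
  have hpos : 0 < θ ^ N := by positivity
  have hclose : ∀ i : ℕ, dist (k^[i] x) (k^[i] y) ≤ e := by
    intro i
    have h1 : W k e (N + 1) (k^[N * (i / N)] x) (k^[N * (i / N)] y) := by
      apply W_of_q0 hθ hθ1
      have := hD2 (k^[N * (i / N)] x) (k^[N * (i / N)] y)
      have := hxy (i / N)
      linarith
    have h2 := (h1 (i % N) ((Nat.mod_lt _ (by omega)).trans (Nat.lt_succ_self N))).1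
    rw [← Function.iterate_add_apply, ← Function.iterate_add_apply, Nat.mod_add_div] at h2
    exact h2
  rcases Nat.eq_zero_or_pos n with h0 | hn
  · subst h0
    have := hxy 0
    simpa using this
  · have h1 := hD1 (k^[N * n] x) (k^[N * n] y)
    have h2 := q0_contr hθ hclose (N * n)
    have h3 := hD2 x y
    have h4 : D x y ≤ θ ^ N / 4 := by simpa using hxy 0
    have h5 : θ ^ (N * n) ≤ (1 / 4) ^ n := by
      rw [pow_mul]
      exact pow_le_pow_left₀ hpos.le hNθ n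
    have h6 : (1 / 4 : ℝ) ^ n * 2 ≤ (1 / 2) ^ n := by
      have e1 : (1 / 4 : ℝ) ^ n = (1 / 2) ^ n * (1 / 2) ^ n := by
        rw [← mul_pow]; norm_num
      have e2 : (1 / 2 : ℝ) ^ n ≤ (1 / 2) ^ 1 := pow_le_pow_of_le_one (by norm_num) (by norm_num) hn
      have e3 : (0 : ℝ) ≤ (1 / 2) ^ n := by positivity
      rw [e1]
      nlinarith
    have h7 : 0 ≤ q0 k e θ x y := q0_nonneg hθ x y
    calc D (k^[N * n] x) (k^[N * n] y) ≤ θ ^ (N * n) * q0 k e θ x y := h1.trans h2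
      _ ≤ θ ^ (N * n) * (2 * (θ ^ N / 4)) := by
          refine mul_le_mul_of_nonneg_left ?_ (by positivity)
          linarith
      _ ≤ (1 / 4) ^ n * (2 * (θ ^ N / 4)) := mul_le_mul_of_nonneg_right h5 (by positivity)
      _ = (1 / 4) ^ n * 2 * (θ ^ N / 4) := by ring
      _ ≤ (1 / 2) ^ n * (θ ^ N / 4) := mul_le_mul_of_nonneg_right h6 (by positivity)
      _ = θ ^ N / 4 * (1 / 2) ^ n := by ring

end contr

/-- expansive homeomorphisms of compact metrizable spaces have adapted metrics -/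
theorem exists_D {Y : Type*} [t : TopologicalSpace Y] [CompactSpace Y]
    [TopologicalSpace.MetrizableSpace Y] {k : Y ≃ₜ Y} (hk : Expansive k) :
    ∃ N₀ : ℕ, ∀ N ≥ N₀, ∃ c > 0, ∃ D : MetricSpace Y,
      D.toPseudoMetricSpace.toUniformSpace.toTopologicalSpace = t ∧
      (∀ x y, (∀ j, D.dist (k^[N * j] x) (k^[N * j] y) ≤ c) →
        ∀ n, D.dist (k^[N * n] x) (k^[N * n] y) ≤ c * (1 / 2) ^ n) ∧
      (∀ x y, (∀ j, D.dist (k.symm^[N * j] x) (k.symm^[N * j] y) ≤ c) →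
        ∀ n, D.dist (k.symm^[N * n] x) (k.symm^[N * n] y) ≤ c * (1 / 2) ^ n) := by
  let m : MetricSpace Y := TopologicalSpace.metrizableSpaceMetric Y
  obtain ⟨U, hU, hexp⟩ := hk
  rw [nhdsSet_diagonal_eq_uniformity, Metric.mem_uniformity_dist] at hU
  obtain ⟨ε, hε, hεU⟩ := hU
  have hexp' : ∀ x y, (∀ n, W k (ε / 2) n x y) → x = y := by
    intro x y h
    refine hexp x y fun n => ⟨hεU ?_, hεU ?_⟩
    · exact ((h (n + 1) n (Nat.lt_succ_self n)).1).trans_lt (half_lt_self hε)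
    · exact ((h (n + 1) n (Nat.lt_succ_self n)).2).trans_lt (half_lt_self hε)
  obtain ⟨θ, hθ, hθ1, Q, hQ, hex⟩ := exists_adapted (k := k) (half_pos hε) hexp'
  have hcon : ∀ D : Y → Y → ℝ, (∀ x y, D x y ≤ Q x y) → (∀ x y, Q x y ≤ 2 * D x y) →
      ∀ N : ℕ, 1 ≤ N → θ ^ N ≤ 1 / 4 →
      (∀ x y, (∀ j, D (k^[N * j] x) (k^[N * j] y) ≤ θ ^ N / 4) →
        ∀ n, D (k^[N * n] x) (k^[N * n] y) ≤ θ ^ N / 4 * (1 / 2) ^ n) ∧
      (∀ x y, (∀ j, D (k.symm^[N * j] x) (k.symm^[N * j] y) ≤ θ ^ N / 4) →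
        ∀ n, D (k.symm^[N * n] x) (k.symm^[N * n] y) ≤ θ ^ N / 4 * (1 / 2) ^ n) := by
    intro D hD1 hD2 N hN hNθ
    rw [hQ] at hD1 hD2
    refine ⟨fun x y hxy => contr_raw hθ hθ1 hD1 hD2 hN hNθ hxy, fun x y hxy =>
      contr_raw (k := k.symm) (e := ε / 2) hθ hθ1 (fun x y => ?_) (fun x y => ?_) hN hNθ hxy⟩
    · rw [q0_symm]; exact hD1 x y
    · rw [q0_symm]; exact hD2 x y
  obtain ⟨N₀, hN₀⟩ := exists_pow_lt_of_lt_one (show (0 : ℝ) < 1 / 4 by norm_num) hθ1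
  refine ⟨N₀ + 1, fun N hN => ⟨θ ^ N / 4, by positivity, ?_⟩⟩
  have hNθ : θ ^ N ≤ 1 / 4 := (pow_le_pow_of_le_one hθ.le hθ1.le (by omega)).trans hN₀.le
  have hcon' := fun D h1 h2 => hcon D h1 h2 N (by omega) hNθ
  clear hcon
  obtain ⟨D, hD, h1, h2⟩ := hex
  exact ⟨D, hD, hcon' _ h1 h2⟩

end Pool.Agent.H244.Op
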