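import Pool.Agent.H244.Op4

/-!
# Open expansive factors: assembly
-/

set_option autoImplicit false

open Filter Topology Set Metric
open scoped Manifold ContDiff

namespace Pool.Agent.H244.Op

open Pool.Agent.H721R2 Pool.Agent.H789R2.AN Pool.Agent.H789R2.GP Pool.Agent.TH289.K
  Pool.Agent.TH289

section lp

variable {X Y : Type*} [MetricSpace X] [CompactSpace X] [MetricSpace Y]
  {g : X ≃ₜ X} {k : Y ≃ₜ Y} {h : X → Y} {c : ℝ}

theorem lp_of_open (hg : LP g c) (H : SC g k h) (ho : IsOpenMap h) (hs : Function.Surjective h)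
    {ε : ℝ} (hε : 0 < ε) :
    ∃ δ > 0, ∀ x y, dist x y < δ → ∃ z, SR k ε x z ∧ SR k.symm ε y z := by
  obtain ⟨ε₁, hε₁, hm1⟩ := H.mapS hε
  obtain ⟨ε₂, hε₂, hm2⟩ := H.mapU hε
  obtain ⟨δ₁, hδ₁, hlp⟩ := hg.lp (min ε₁ ε₂) (lt_min hε₁ hε₂)
  obtain ⟨δ₂, hδ₂, hop⟩ := unif_open H.cont ho hδ₁
  refine ⟨δ₂, hδ₂, fun x y hxy => ?_⟩
  obtain ⟨x', rfl⟩ := hs x
  obtain ⟨y', hy', rfl⟩ := hop x' y hxy
  obtain ⟨z, hz1, hz2⟩ := hlp _ _ hy'
  exact ⟨h z, hm1 _ _ (hz1.mono (min_le_left _ _)), hm2 _ _ (hz2.mono (min_le_right _ _))⟩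

end lp

variable {E : Type*} [NormedAddCommGroup E] [NormedSpace ℝ E] [FiniteDimensional ℝ E]
  {M : Type*} [TopologicalSpace M] [T2Space M] [CompactSpace M] [ConnectedSpace M]
  [ChartedSpace E M] [IsManifold 𝓘(ℝ, E) ∞ M]

theorem main (f : Diffeomorph 𝓘(ℝ, E) 𝓘(ℝ, E) M M 1)
    (Es Eu : ∀ x : M, Submodule ℝ (TangentSpace 𝓘(ℝ, E) x)) (hA : IsAnosov f Es Eu)
    (hG : GPS f.toHomeomorph) {Y : Type*} [t : TopologicalSpace Y] [CompactSpace Y]
    [TopologicalSpace.MetrizableSpace Y] (k : Y ≃ₜ Y) (hk : Expansive k)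
    (h : M → Y) (hc : Continuous h) (ho : IsOpenMap h) (hs : Function.Surjective h)
    (hh : ∀ x, h (f x) = k (h x)) :
    TopTransitive k ∧ GPS k ∧
      ∀ (E' : Type*) [NormedAddCommGroup E'] [NormedSpace ℝ E'] [FiniteDimensional ℝ E']
        [ChartedSpace E' Y], ∃ π : E' → Y, IsCoveringMap π ∧ Function.Surjective π := by
  have htr := (man_self f Es Eu hA hG).1
  refine ⟨trans_factor hc hs hh htr, ?_⟩
  obtain ⟨m, ee, hee, hemb, hinje⟩ :=
    exists_embedding_euclidean_of_compact (I := 𝓘(ℝ, E)) (M := M)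
  obtain ⟨N₀, hN₀⟩ := exists_D hk
  let _ : MetricSpace M := hemb.isEmbedding.comapMetricSpace ee
  have hiso : ∀ x y : M, dist x y = ‖ee x - ee y‖ := fun x y => dist_eq_norm (ee x) (ee y)
  have he1 : ContMDiff 𝓘(ℝ, E) (𝓡 m) 1 ee := hee.of_le (by simp)
  obtain ⟨N, ⟨⟨S, hgS, -, -, -⟩, hN⟩, hNN₀⟩ :=
    (((exists_sys_ev hiso he1 hinje f Es Eu hA).and (eventually_ge_atTop 1)).and
      (eventually_ge_atTop N₀)).exists
  obtain ⟨c', hc', D, hD, hcS, hcU⟩ := hN₀ N hNN₀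
  subst hD
  have hPE : ProperSpace E := FiniteDimensional.proper_real E
  obtain ⟨c, hg⟩ := exists_LP S
  rw [hgS] at hg
  have hX : ULC M := ulc_of_charted (X := M) (E := E)
  obtain ⟨c₁, hc₁, ⟨T⟩⟩ := iqs_of_gps hN rfl hg hX hG
  obtain ⟨e, he0, hexp⟩ := exp_of_expansive hk hN
  have H : SC (iterHomeo f.toHomeomorph N) (iterHomeo k N) h := by
    refine ⟨hc, fun x => ?_⟩
    exact (Function.Semiconj.iterate_right (f := h) (ga := f) (gb := k) hh N) x
  obtain ⟨c₂, hc₂, ⟨T'⟩⟩ := push hg hc₁ T hX he0 hexp H ho hs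
  have hLP : LP (iterHomeo k N) c' :=
    { c_pos := hc'
      cS := by
        intro x y hxy n
        have h1 := hcS x y (fun j => by
          have := hxy j
          rwa [iterHomeo_iter, iterHomeo_iter] at this) n
        rw [iterHomeo_iter, iterHomeo_iter]
        exact h1
      cU := by
        intro x y hxy n
        have h1 := hcU x y (fun j => by
          have := hxy j
          rwa [iterHomeo_symm_iter, iterHomeo_symm_iter] at this) n
        rw [iterHomeo_symm_iter, iterHomeo_symm_iter]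
        exact h1
      lp := fun ε hε => lp_of_open hg H ho hs hε }
  refine ⟨gps_of_iqs hN rfl hLP hc₂ T', ?_⟩
  intro E' _ _ _ _
  have hPE' : ProperSpace E' := FiniteDimensional.proper_real E'
  obtain ⟨q, hq, p, hp⟩ := S.exists_periodic
  have hp' : (iterHomeo k N)^[q] (h p) = h p := by
    rw [hgS] at hp
    rw [← H.iter, hp]
  obtain ⟨π, hπ⟩ := exists_covering (E := E') hLP hc₂ T'.toQS (h p) q hq hp'
  have hconn : ConnectedSpace Y := hs.connectedSpace hc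
  exact ⟨π, hπ, covering_surj hπ⟩

end Pool.Agent.H244.Op
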