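import Pool.Agent.H244.Dyn

set_option autoImplicit false
set_option linter.unusedSectionVars false

open Set Filter Topology Metric
open scoped Manifold ContDiff

namespace Pool.Agent.H244.Loc

open Pool.Agent.H721R2 Pool.Agent.H789R2.AN Pool.Agent.H244.Tube Pool.Agent.H244.Deg
  Pool.Agent.H244.Dyn

variable {E : Type*} [NormedAddCommGroup E] [NormedSpace ℝ E] [FiniteDimensional ℝ E]
  {M : Type*} [MetricSpace M] [CompactSpace M] [ChartedSpace E M] [IsManifold 𝓘(ℝ, E) 1 M]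
  {F : Type*} [NormedAddCommGroup F] [NormedSpace ℝ F]
  {e : M → F} (he : ContMDiff 𝓘(ℝ, E) 𝓘(ℝ, F) 1 e) (hinj : ∀ x, Function.Injective (dm E e x))

include he hinj

omit he hinj in
theorem exists_pi {Es Eu : M → Submodule ℝ E} (h : ∀ x, IsCompl (Es x) (Eu x)) :
    ∃ π : M → E →L[ℝ] E, IsPi π Es Eu := by
  choose π h1 h2 h3 h4 using fun x => exists_proj (h x)
  exact ⟨π, ⟨h1, h2, h3, h4⟩⟩

/-- **Closed orbits correspond.**  If `g` is Anosov, then each closed orbit of `g` is accompanied by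
exactly one closed orbit of every Anosov `f` that is `C⁰`-close to `g`. -/
theorem closed_unique {g : M ≃ₜ M} {Es' Eu' : M → Submodule ℝ E} {C' a' b' Ls' Lu' : ℝ}
    (hg : EAnosov e g Es' Eu' C' a' b' Ls' Lu') {κ : ℝ} (hTA : TA g κ) {ρ₀ : ℝ} (hρ₀ : 0 < ρ₀) :
    ∃ ε > 0, ∃ ρ > 0, ρ ≤ ρ₀ ∧ ρ ≤ κ / 4 ∧
      ∀ (f : M ≃ₜ M) (Es Eu : M → Submodule ℝ E) (C a b Ls Lu : ℝ),
      EAnosov e f Es Eu C a b Ls Lu → (∀ x, dist (f x) (g x) < ε) →
      ∀ (ι : Type) [Fintype ι] (σ : Equiv.Perm ι) (z : ι → M), (∀ i, z (σ i) = g (z i)) →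
      ∃ p : ι → M, (∀ i, p (σ i) = f (p i)) ∧ (∀ i, dist (p i) (z i) < ρ) ∧
        ∀ p' : ι → M, (∀ i, p' (σ i) = f (p' i)) → (∀ i, dist (p' i) (z i) < ρ) → p' = p := by
  have hκ := hTA.pos
  obtain ⟨j, R, hch⟩ := exists_charts E M
  have hR := hch.R_pos
  obtain ⟨δ₅, hδ₅, h5⟩ := hch.c1 (R / 2) (half_pos hR)
  obtain ⟨ρ₁, hρ₁, h4⟩ := hch.c4
  obtain ⟨δ₃, hδ₃, h3⟩ := Metric.uniformContinuous_iff.mp
    (CompactSpace.uniformContinuous_of_continuous g.continuous) (min (δ₅ / 2) (ρ₁ / 2))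
    (lt_min (half_pos hδ₅) (half_pos hρ₁))
  obtain ⟨r₂, hr₂, hr₂R, h2⟩ := hch.c2 (min (κ / 4) δ₃) (lt_min (by linarith) hδ₃)
  set r := r₂ / 2 with hr
  have hr0 : 0 < r := half_pos hr₂
  have hrr : r < r₂ := half_lt_self hr₂
  obtain ⟨δ₁, hδ₁, h1⟩ := hch.c1 r hr0
  set ρ := min ρ₀ (min δ₁ (κ / 4)) with hρ
  have hρ0 : 0 < ρ := lt_min hρ₀ (lt_min hδ₁ (by linarith))
  have hρδ : ρ ≤ δ₁ := (min_le_right _ _).trans (min_le_left _ _)
  have hρκ : ρ ≤ κ / 4 := (min_le_right _ _).trans (min_le_right _ _)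
  obtain ⟨δ₆, hδ₆, h6⟩ := closed_shadow hTA (half_pos hρ0)
  obtain ⟨δ₇, hδ₇, h7⟩ := hch.c3 δ₆ hδ₆
  obtain ⟨δ₈, hδ₈, h8⟩ := h4 δ₇ hδ₇
  set ε := min (δ₅ / 2) (min (ρ₁ / 2) δ₈) with hε
  have hε0 : 0 < ε := lt_min (half_pos hδ₅) (lt_min (half_pos hρ₁) hδ₈)
  refine ⟨ε, hε0, ρ, hρ0, min_le_left _ _, hρκ, ?_⟩
  intro f Es Eu C a b Ls Lu hf hfg ι _ σ z hz
  -- the centres
  set J : ι → M := fun i => j (z i) with hJ
  set c : ι → E := fun i => extChartAt 𝓘(ℝ, E) (J i) (z i) with hc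
  have hTgt : ∀ i, closedBall (c i) R ⊆ (extChartAt 𝓘(ℝ, E) (J i)).target := fun i => hch.tgt (z i)
  have hsubR : ∀ i, closedBall (c i) r₂ ⊆ closedBall (c i) R := fun i =>
    closedBall_subset_closedBall hr₂R
  have hsubr : ∀ i, closedBall (c i) r ⊆ closedBall (c i) r₂ := fun i =>
    closedBall_subset_closedBall hrr.le
  -- the maps near the orbit
  have near : ∀ i, ∀ y ∈ closedBall (c i) r₂,
      dist ((extChartAt 𝓘(ℝ, E) (J i)).symm y) (z i) < κ / 4 ∧
      dist (g ((extChartAt 𝓘(ℝ, E) (J i)).symm y)) (z (σ i)) < min (δ₅ / 2) (ρ₁ / 2) := by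
    intro i y hy
    have e1 := h2 (z i) y hy
    refine ⟨e1.trans_le (min_le_left _ _), ?_⟩
    rw [hz i]
    exact h3 (e1.trans_le (min_le_right _ _))
  have nearf : ∀ i, ∀ y ∈ closedBall (c i) r₂,
      dist (f ((extChartAt 𝓘(ℝ, E) (J i)).symm y)) (z (σ i)) < min δ₅ ρ₁ := by
    intro i y hy
    have e1 := (near i y hy).2
    have e2 := hfg ((extChartAt 𝓘(ℝ, E) (J i)).symm y)
    have e3 := dist_triangle (f ((extChartAt 𝓘(ℝ, E) (J i)).symm y))
      (g ((extChartAt 𝓘(ℝ, E) (J i)).symm y)) (z (σ i))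
    have e4 : ε ≤ δ₅ / 2 := min_le_left _ _
    have e5 : ε ≤ ρ₁ / 2 := (min_le_right _ _).trans (min_le_left _ _)
    have e6 := e1.trans_le (min_le_left _ _)
    have e7 := e1.trans_le (min_le_right _ _)
    exact lt_min (by linarith) (by linarith)
  have srcg : ∀ i, ∀ y ∈ closedBall (c i) r₂, g ((extChartAt 𝓘(ℝ, E) (J i)).symm y) ∈
      (extChartAt 𝓘(ℝ, E) (J (σ i))).source ∧ dist (rep g (J i) (J (σ i)) y) (c (σ i)) < R / 2 :=
    fun i y hy => h5 (z (σ i)) _ (((near i y hy).2.trans_le (min_le_left _ _)).trans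
      (half_lt_self hδ₅))
  have srcf : ∀ i, ∀ y ∈ closedBall (c i) r₂, f ((extChartAt 𝓘(ℝ, E) (J i)).symm y) ∈
      (extChartAt 𝓘(ℝ, E) (J (σ i))).source ∧ dist (rep f (J i) (J (σ i)) y) (c (σ i)) < R / 2 :=
    fun i y hy => h5 (z (σ i)) _ ((nearf i y hy).trans_le (min_le_left _ _))
  obtain ⟨π, hπ⟩ := exists_pi hf.compl
  obtain ⟨π', hπ'⟩ := exists_pi hg.compl
  obtain ⟨Gf, hGf, hGfr⟩ := exists_chain he hinj hf hπ (σ := σ) (j := J) (c := c) hrr hr₂R hTgt
    (fun i y hy => (srcf i y hy).1) (fun i y hy => by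
      rw [mem_closedBall]
      have := (srcf i y (hsubr i hy)).2
      linarith)
  obtain ⟨Gg, hGg, hGgr⟩ := exists_chain he hinj hg hπ' (σ := σ) (j := J) (c := c) hrr hr₂R hTgt
    (fun i y hy => (srcg i y hy).1) (fun i y hy => by
      rw [mem_closedBall]
      have := (srcg i y (hsubr i hy)).2
      linarith)
  have hcz : ∀ i, (extChartAt 𝓘(ℝ, E) (J i)).symm (c i) = z i := fun i =>
    (extChartAt 𝓘(ℝ, E) (J i)).left_inv (hch.src (z i))
  have hcr : ∀ i, c i ∈ closedBall (c i) r := fun i => mem_closedBall_self hr0.le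
  have key := tube hr0 (hrr.le.trans hr₂R) hGf hGg (a := c) ?_ (fun i => mem_ball_self hr0) ?_ ?_
  · -- translate to the manifold
    obtain ⟨x, ⟨hx, hx0⟩, hxu⟩ := key
    have hxc : ∀ i, x i ∈ closedBall (c i) r := fun i => ball_subset_closedBall (hx i)
    have hp : ∀ i, (extChartAt 𝓘(ℝ, E) (J (σ i))).symm (x (σ i)) =
        f ((extChartAt 𝓘(ℝ, E) (J i)).symm (x i)) := by
      intro i
      rw [hx0 i, hGfr i _ (hxc i)]
      exact (extChartAt 𝓘(ℝ, E) (J (σ i))).left_inv (srcf i _ (hsubr i (hxc i))).1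
    have hps : ∀ i, dist (g ((extChartAt 𝓘(ℝ, E) (J i)).symm (x i)))
        ((extChartAt 𝓘(ℝ, E) (J (σ i))).symm (x (σ i))) ≤ δ₆ := by
      intro i
      have e1 : dist (x (σ i)) (rep g (J i) (J (σ i)) (x i)) < δ₇ := by
        rw [hx0 i, hGfr i _ (hxc i)]
        refine h8 (z (σ i)) _ _ ?_ ?_ ?_
        · exact ((nearf i _ (hsubr i (hxc i))).trans_le (min_le_right _ _)).le
        · have := ((near i _ (hsubr i (hxc i))).2.trans_le (min_le_right _ _)).le
          linarith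
        · exact (hfg _).trans_le ((min_le_right _ _).trans (min_le_right _ _))
      have e2 := h7 (z (σ i)) (x (σ i)) (hsubR _ (hsubr _ (hxc (σ i)))) (rep g (J i) (J (σ i)) (x i))
        (by
          rw [mem_closedBall]
          have := (srcg i _ (hsubr i (hxc i))).2
          show dist _ (c (σ i)) ≤ R
          linarith) e1
      have e3 : (extChartAt 𝓘(ℝ, E) (J (σ i))).symm (rep g (J i) (J (σ i)) (x i)) =
          g ((extChartAt 𝓘(ℝ, E) (J i)).symm (x i)) :=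
        (extChartAt 𝓘(ℝ, E) (J (σ i))).left_inv (srcg i _ (hsubr i (hxc i))).1
      have e4 : dist ((extChartAt 𝓘(ℝ, E) (J (σ i))).symm (x (σ i)))
          ((extChartAt 𝓘(ℝ, E) (J (σ i))).symm (rep g (J i) (J (σ i)) (x i))) < δ₆ := e2
      rw [e3, dist_comm] at e4
      exact e4.le
    obtain ⟨q, hq, hqd⟩ := h6 (p := fun i => (extChartAt 𝓘(ℝ, E) (J i)).symm (x i)) hps
    have hqz : q = z := by
      apply closed_exp hTA hq hz
      intro i
      have e1 := hqd i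
      have e2 := (near i _ (hsubr i (hxc i))).1
      have e3 := dist_triangle (q i) ((extChartAt 𝓘(ℝ, E) (J i)).symm (x i)) (z i)
      linarith
    refine ⟨fun i => (extChartAt 𝓘(ℝ, E) (J i)).symm (x i), hp, fun i => ?_, ?_⟩
    · have e1 := hqd i
      rw [hqz, dist_comm] at e1
      linarith
    · intro p' hp' hpd'
      have e0 : ∀ i, p' i ∈ (extChartAt 𝓘(ℝ, E) (J i)).source ∧
          dist (extChartAt 𝓘(ℝ, E) (J i) (p' i)) (c i) < r := fun i =>
        h1 (z i) (p' i) ((hpd' i).trans_le hρδ)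
      have hx' := hxu (fun i => extChartAt 𝓘(ℝ, E) (J i) (p' i)) ⟨fun i => (e0 i).2, fun i => by
        rw [hGfr i _ (e0 i).2.le]
        show extChartAt 𝓘(ℝ, E) (J (σ i)) (p' (σ i)) = extChartAt 𝓘(ℝ, E) (J (σ i))
          (f ((extChartAt 𝓘(ℝ, E) (J i)).symm (extChartAt 𝓘(ℝ, E) (J i) (p' i))))
        rw [(extChartAt 𝓘(ℝ, E) (J i)).left_inv (e0 i).1, hp' i]⟩
      funext i
      show p' i = (extChartAt 𝓘(ℝ, E) (J i)).symm (x i)
      rw [← hx']
      exact ((extChartAt 𝓘(ℝ, E) (J i)).left_inv (e0 i).1).symm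
  · -- no closed orbits on the boundary
    intro t ht x hxc hx0
    have hps : ∀ i, dist (g ((extChartAt 𝓘(ℝ, E) (J i)).symm (x i)))
        ((extChartAt 𝓘(ℝ, E) (J (σ i))).symm (x (σ i))) ≤ δ₆ := by
      intro i
      have e0 : dist (rep f (J i) (J (σ i)) (x i)) (rep g (J i) (J (σ i)) (x i)) < δ₇ := by
        refine h8 (z (σ i)) _ _ ?_ ?_ ?_
        · exact ((nearf i _ (hsubr i (hxc i))).trans_le (min_le_right _ _)).le
        · have := ((near i _ (hsubr i (hxc i))).2.trans_le (min_le_right _ _)).le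
          linarith
        · exact (hfg _).trans_le ((min_le_right _ _).trans (min_le_right _ _))
      have e1 : dist (x (σ i)) (rep g (J i) (J (σ i)) (x i)) < δ₇ := by
        rw [hx0 i, hGfr i _ (hxc i), hGgr i _ (hxc i), dist_eq_norm, add_sub_cancel_left, norm_smul,
          Real.norm_of_nonneg ht.1, ← dist_eq_norm]
        calc t * dist (rep f (J i) (J (σ i)) (x i)) (rep g (J i) (J (σ i)) (x i))
            ≤ 1 * dist (rep f (J i) (J (σ i)) (x i)) (rep g (J i) (J (σ i)) (x i)) := by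
              gcongr; exact ht.2
          _ < δ₇ := by rwa [one_mul]
      have e2 := h7 (z (σ i)) (x (σ i)) (hsubR _ (hsubr _ (hxc (σ i)))) (rep g (J i) (J (σ i)) (x i))
        (by
          rw [mem_closedBall]
          have := (srcg i _ (hsubr i (hxc i))).2
          show dist _ (c (σ i)) ≤ R
          linarith) e1
      have e3 : (extChartAt 𝓘(ℝ, E) (J (σ i))).symm (rep g (J i) (J (σ i)) (x i)) =
          g ((extChartAt 𝓘(ℝ, E) (J i)).symm (x i)) :=
        (extChartAt 𝓘(ℝ, E) (J (σ i))).left_inv (srcg i _ (hsubr i (hxc i))).1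
      have e4 : dist ((extChartAt 𝓘(ℝ, E) (J (σ i))).symm (x (σ i)))
          ((extChartAt 𝓘(ℝ, E) (J (σ i))).symm (rep g (J i) (J (σ i)) (x i))) < δ₆ := e2
      rw [e3, dist_comm] at e4
      exact e4.le
    obtain ⟨q, hq, hqd⟩ := h6 (p := fun i => (extChartAt 𝓘(ℝ, E) (J i)).symm (x i)) hps
    have hqz : q = z := by
      apply closed_exp hTA hq hz
      intro i
      have e1 := hqd i
      have e2 := (near i _ (hsubr i (hxc i))).1
      have e3 := dist_triangle (q i) ((extChartAt 𝓘(ℝ, E) (J i)).symm (x i)) (z i)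
      linarith
    intro i
    have e1 := hqd i
    rw [hqz, dist_comm] at e1
    have e2 := (h1 (z i) ((extChartAt 𝓘(ℝ, E) (J i)).symm (x i)) (by linarith)).2
    have e3 : extChartAt 𝓘(ℝ, E) (J i) ((extChartAt 𝓘(ℝ, E) (J i)).symm (x i)) = x i :=
      (extChartAt 𝓘(ℝ, E) (J i)).right_inv (hTgt i (hsubR i (hsubr i (hxc i))))
    rw [mem_ball]
    have e4 : dist (extChartAt 𝓘(ℝ, E) (J i) ((extChartAt 𝓘(ℝ, E) (J i)).symm (x i))) (c i) < r := e2
    rwa [e3] at e4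
  · -- the centre is a closed orbit
    intro i
    rw [hGgr i _ (hcr i)]
    show c (σ i) = extChartAt 𝓘(ℝ, E) (J (σ i)) (g ((extChartAt 𝓘(ℝ, E) (J i)).symm (c i)))
    rw [hcz i, ← hz i]
  · -- it is the only one
    intro x hx hx0
    have hxc : ∀ i, x i ∈ closedBall (c i) r := fun i => ball_subset_closedBall (hx i)
    have hp : ∀ i, (extChartAt 𝓘(ℝ, E) (J (σ i))).symm (x (σ i)) =
        g ((extChartAt 𝓘(ℝ, E) (J i)).symm (x i)) := by
      intro i
      rw [hx0 i, hGgr i _ (hxc i)]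
      exact (extChartAt 𝓘(ℝ, E) (J (σ i))).left_inv (srcg i _ (hsubr i (hxc i))).1
    have hpz := closed_exp hTA (x := fun i => (extChartAt 𝓘(ℝ, E) (J i)).symm (x i)) hp hz
      (fun i => by
        have := (near i _ (hsubr i (hxc i))).1
        linarith)
    funext i
    have e1 := congrFun hpz i
    have e3 : extChartAt 𝓘(ℝ, E) (J i) ((extChartAt 𝓘(ℝ, E) (J i)).symm (x i)) = x i :=
      (extChartAt 𝓘(ℝ, E) (J i)).right_inv (hTgt i (hsubR i (hsubr i (hxc i))))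
    rw [← e3]
    show extChartAt 𝓘(ℝ, E) (J i) ((extChartAt 𝓘(ℝ, E) (J i)).symm (x i)) = c i
    have e1' : (extChartAt 𝓘(ℝ, E) (J i)).symm (x i) = z i := e1
    rw [e1']

end Pool.Agent.H244.Loc
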