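import Pool.Agent.H244.Per

set_option autoImplicit false
set_option linter.unusedSectionVars false

open Set Filter Topology Metric
open scoped Manifold ContDiff

namespace Pool.Agent.H244.Dyn

open Pool.Agent.H721R2 Pool.Agent.H789R2.AN Pool.Agent.TH289

variable {M : Type*} [MetricSpace M] [CompactSpace M]

theorem ob_cont (g : M ≃ₜ M) (n : ℤ) : Continuous fun x => ob g x n := by
  match n with
  | Int.ofNat k => exact g.continuous.iterate k
  | Int.negSucc k => exact g.symm.continuous.iterate (k + 1)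

theorem ob_map {g : M ≃ₜ M} {x : M} : Orb g (fun n => ob g x (n + 1)) := fun n => ob_orb g x (n + 1)

theorem ob_shift (g : M ≃ₜ M) (x : M) : ob g (g x) = fun n => ob g x (n + 1) := by
  apply orb_ext (ob_orb g (g x)) ob_map
  show g x = ob g x (0 + 1)
  rw [ob_orb g x 0]; rfl

/-- **The semiconjugacy.** -/
theorem exists_semi {g : M ≃ₜ M} {κ : ℝ} (h : TA g κ) {η : ℝ} (hη : 0 < η) (hη' : η ≤ κ / 2) :
    ∃ ε > 0, ∀ f : M ≃ₜ M, (∀ x, dist (f x) (g x) < ε) →
      ∃ k : M → M, Continuous k ∧ (∀ x, dist (k x) x ≤ η) ∧ ∀ x, k (f x) = g (k x) := by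
  obtain ⟨δ, hδ, hsh⟩ := h.sh η hη
  refine ⟨δ, hδ, fun f hf => ?_⟩
  have hex : ∀ x, ∃ y, ∀ n, dist (ob g y n) (ob f x n) ≤ η := by
    intro x
    obtain ⟨y, hy, hyd⟩ := hsh (ob f x) (fun n => by
      rw [ob_orb f x n, dist_comm]; exact (hf _).le)
    refine ⟨y 0, fun n => ?_⟩
    have : ob g (y 0) = y := orb_ext (ob_orb g _) hy rfl
    rw [this]; exact hyd n
  choose k hk using hex
  have huniq : ∀ x y, (∀ n, dist (ob g y n) (ob f x n) ≤ η) → y = k x := by
    intro x y hy
    have := h.exp _ _ (ob_orb g y) (ob_orb g (k x)) (fun n => by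
      have e1 := hy n
      have e2 := hk x n
      have e3 := dist_triangle_right (ob g y n) (ob g (k x) n) (ob f x n)
      linarith)
    exact congrFun this 0
  refine ⟨k, ?_, fun x => hk x 0, fun x => ?_⟩
  · rw [continuous_iff_continuousAt]
    intro x₀ U hU
    obtain ⟨V, hVU, hV, hxV⟩ := _root_.mem_nhds_iff.mp hU
    -- the graph is closed
    set G : Set (M × M) := {p | ∀ n, dist (ob g p.2 n) (ob f p.1 n) ≤ η} with hG
    have hGc : IsClosed G := by
      have : G = ⋂ n, {p : M × M | dist (ob g p.2 n) (ob f p.1 n) ≤ η} := by ext p; simp [hG]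
      rw [this]
      refine isClosed_iInter fun n => isClosed_le ?_ continuous_const
      exact ((ob_cont g n).comp continuous_snd).dist ((ob_cont f n).comp continuous_fst)
    have hC : IsCompact ((fun p : M × M => p.1) '' (G ∩ {p | p.2 ∉ V})) := by
      apply IsCompact.image _ continuous_fst
      apply IsClosed.isCompact
      exact hGc.inter (hV.isClosed_compl.preimage continuous_snd)
    have hx₀ : x₀ ∉ ((fun p : M × M => p.1) '' (G ∩ {p | p.2 ∉ V})) := by
      rintro ⟨⟨x, y⟩, ⟨hxy, hyV⟩, rfl⟩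
      have := huniq x y hxy
      apply hyV
      show y ∈ V
      rw [this]; exact hxV
    show ∀ᶠ x in 𝓝 x₀, k x ∈ U
    filter_upwards [hC.isClosed.isOpen_compl.mem_nhds hx₀] with x hx
    apply hVU
    by_contra hcon
    exact hx ⟨(x, k x), ⟨hk x, hcon⟩, rfl⟩
  · symm
    apply huniq
    intro n
    rw [ob_shift, ob_shift]
    exact hk x (n + 1)

/-- an orbit of a periodic point as a closed orbit -/
theorem fin_orbit {f : M → M} {n : ℕ} {x : M} (hx : f^[n + 1] x = x) (i : Fin (n + 1)) :
    f^[((finRotate (n + 1)) i : ℕ)] x = f (f^[(i : ℕ)] x) := by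
  rw [coe_finRotate]
  split_ifs with h
  · rw [← Function.iterate_succ_apply' f, h]
    simp only [Fin.val_last, Nat.succ_eq_add_one]
    rw [hx]; rfl
  · rw [Function.iterate_succ_apply']

end Pool.Agent.H244.Dyn
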