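import Pool.Agent.H244.Triv

set_option autoImplicit false
set_option linter.unusedSectionVars false

open Set Filter Topology Metric
open scoped NNReal ENNReal ContDiff

namespace Pool.Agent.H244.Tube

open Pool.Agent.H244.Deg

variable {E : Type*} [NormedAddCommGroup E] [NormedSpace ℝ E] [FiniteDimensional ℝ E]
  {ι : Type*} [Fintype ι]

/-- `A chain of C¹ maps between balls with an invariant splitting (P projects onto the first
bundle along the second one), which is contracting resp. expanding along closed orbits. -/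
structure Chain (σ : Equiv.Perm ι) (c : ι → E) (r R : ℝ) (f : ι → E → E)
    (P : ι → E → E →L[ℝ] E) : Prop where
  smooth : ∀ i, ContDiff ℝ 1 (f i)
  maps : ∀ i, ∀ x ∈ closedBall (c i) r, f i x ∈ closedBall (c (σ i)) R
  cont : ∀ i, ContinuousOn (P i) (closedBall (c i) R)
  proj : ∀ i, ∀ x ∈ closedBall (c i) R, P i x * P i x = P i x
  inv : ∀ i, ∀ x ∈ closedBall (c i) r,
    (fderiv ℝ (f i) x) * P i x = P (σ i) (f i x) * fderiv ℝ (f i) x
  inj : ∀ i, ∀ x ∈ closedBall (c i) r, Function.Injective (fderiv ℝ (f i) x)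
  hs : ∀ x : ι → E, (∀ i, x i ∈ closedBall (c i) r) → (∀ i, x (σ i) = f i (x i)) →
    ∀ t ∈ Icc (0 : ℝ) 1, ∀ w : ι → E, (∀ i, P i (x i) (w i) = w i) →
      (∀ i, w (σ i) = t • fderiv ℝ (f i) (x i) (w i)) → w = 0
  hu : ∀ x : ι → E, (∀ i, x i ∈ closedBall (c i) r) → (∀ i, x (σ i) = f i (x i)) →
    ∀ t ∈ Icc (0 : ℝ) 1, ∀ w : ι → E, (∀ i, P i (x i) (w i) = 0) →
      (∀ i, fderiv ℝ (f i) (x i) (w i) = t • w (σ i)) → w = 0

/-- the operator `v ↦ (A i (v (σ i)) - B i (v i))ᵢ` -/
noncomputable def op (σ : Equiv.Perm ι) (A B : ι → E →L[ℝ] E) : (ι → E) →L[ℝ] (ι → E) :=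
  ContinuousLinearMap.pi fun i =>
    (A i).comp (ContinuousLinearMap.proj (R := ℝ) (φ := fun _ : ι => E) (σ i)) -
      (B i).comp (ContinuousLinearMap.proj (R := ℝ) (φ := fun _ : ι => E) i)

theorem op_apply (σ : Equiv.Perm ι) (A B : ι → E →L[ℝ] E) (v : ι → E) (i : ι) :
    op σ A B v i = A i (v (σ i)) - B i (v i) := rfl

/-- the diagonal operator -/
noncomputable def dg (T : ι → E →L[ℝ] E) : (ι → E) →L[ℝ] (ι → E) :=
  ContinuousLinearMap.pi fun i =>
    (T i).comp (ContinuousLinearMap.proj (R := ℝ) (φ := fun _ : ι => E) i)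

theorem dg_apply (T : ι → E →L[ℝ] E) (v : ι → E) (i : ι) : dg T v i = T i (v i) := rfl

theorem op_cont {X : Type*} [TopologicalSpace X] {s : Set X} (σ : Equiv.Perm ι)
    {A B : X → ι → E →L[ℝ] E} (hA : ∀ i, ContinuousOn (fun z => A z i) s)
    (hB : ∀ i, ContinuousOn (fun z => B z i) s) :
    ContinuousOn (fun z => (op σ (A z) (B z)).det) s := by
  refine ContinuousLinearMap.continuous_det.comp_continuousOn ?_
  rw [continuousOn_clm_apply]
  intro v
  rw [continuousOn_pi]
  intro i
  exact ((hA i).clm_apply continuousOn_const).sub ((hB i).clm_apply continuousOn_const)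

theorem dg_cont {X : Type*} [TopologicalSpace X] {s : Set X}
    {T : X → ι → E →L[ℝ] E} (hT : ∀ i, ContinuousOn (fun z => T z i) s) :
    ContinuousOn (fun z => (dg (T z)).det) s := by
  refine ContinuousLinearMap.continuous_det.comp_continuousOn ?_
  rw [continuousOn_clm_apply]
  intro v
  rw [continuousOn_pi]
  intro i
  exact (hT i).clm_apply continuousOn_const

theorem isUnit_inj {T : E →L[ℝ] E} (h : IsUnit T) {v : E} (hv : T v = 0) : v = 0 := by
  obtain ⟨u, rfl⟩ := h
  have : ((u⁻¹ : (E →L[ℝ] E)ˣ) : E →L[ℝ] E) ((u : E →L[ℝ] E) v) = v := by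
    rw [← mul_apply_eq_comp, ← Units.val_mul, inv_mul_cancel]; rfl
  rw [← this, hv, map_zero]

theorem dg_det_ne {T : ι → E →L[ℝ] E} (hT : ∀ i, IsUnit (T i)) : (dg T).det ≠ 0 := by
  apply det_ne_zero_of_ker
  intro v hv
  funext i
  exact isUnit_inj (hT i) (congrFun hv i)

theorem ss_trans {a b c : ℝ} (h1 : 0 < a * b) (h2 : 0 < b * c) : 0 < a * c := by
  have hb : b ≠ 0 := by rintro rfl; simp at h1
  have h3 : 0 < (a * b) * (b * c) := mul_pos h1 h2
  have h4 : (a * b) * (b * c) = (a * c) * (b * b) := by ring
  rw [h4] at h3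
  exact (mul_pos_iff_of_pos_right (mul_self_pos.mpr hb)).mp h3

theorem ss_symm {a b : ℝ} (h : 0 < a * b) : 0 < b * a := by rwa [mul_comm]

/-- the segment from the centre stays in the ball -/
theorem seg_mem {c x : E} {R : ℝ} (hx : x ∈ closedBall c R) {t : ℝ} (ht : t ∈ Icc (0 : ℝ) 1) :
    c + t • (x - c) ∈ closedBall c R := by
  rw [mem_closedBall, dist_eq_norm] at hx ⊢
  rw [add_sub_cancel_left, norm_smul, Real.norm_of_nonneg ht.1]
  calc t * ‖x - c‖ ≤ 1 * ‖x - c‖ := by gcongr; exact ht.2
    _ ≤ R := by rwa [one_mul]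

/-- the derivative of the orbit map -/
theorem fderiv_orbit (σ : Equiv.Perm ι) {f : ι → E → E} (hf : ∀ i, ContDiff ℝ 1 (f i))
    (x : ι → E) : HasFDerivAt (fun x : ι → E => fun i => x (σ i) - f i (x i))
      (op σ (fun _ => 1) (fun i => fderiv ℝ (f i) (x i))) x := by
  rw [hasFDerivAt_pi']
  intro i
  have h1 : HasFDerivAt (fun y : ι → E => y (σ i))
    (ContinuousLinearMap.proj (R := ℝ) (φ := fun _ : ι => E) (σ i)) x := hasFDerivAt_apply (σ i) x
  have h2 : HasFDerivAt (fun y : ι → E => y i)
    (ContinuousLinearMap.proj (R := ℝ) (φ := fun _ : ι => E) i) x := hasFDerivAt_apply i x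
  have h3 : HasFDerivAt (f i) (fderiv ℝ (f i) (x i)) (x i) :=
    (((hf i).differentiable (by norm_num)) (x i)).hasFDerivAt
  exact h1.sub (h3.comp x h2)

set_option maxHeartbeats 4000000 in
/-- **The sign lemma.**  The determinants of the linearisations at all closed orbits in the tube
have the same sign. -/
theorem sign_const {σ : Equiv.Perm ι} {c : ι → E} {r R : ℝ} (hr : 0 ≤ r) (hrR : r ≤ R)
    {f : ι → E → E} {P : ι → E → E →L[ℝ] E} (h : Chain σ c r R f P) {x y : ι → E}
    (hx : ∀ i, x i ∈ closedBall (c i) r) (hy : ∀ i, y i ∈ closedBall (c i) r)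
    (hx0 : ∀ i, x (σ i) = f i (x i)) (hy0 : ∀ i, y (σ i) = f i (y i)) :
    0 < (op σ (fun _ => 1) (fun i => fderiv ℝ (f i) (x i))).det *
      (op σ (fun _ => 1) (fun i => fderiv ℝ (f i) (y i))).det := by
  have hR : 0 ≤ R := hr.trans hrR
  have hsub : ∀ i, closedBall (c i) r ⊆ closedBall (c i) R := fun i => closedBall_subset_closedBall hrR
  choose T hTc hTu hTP hT1 using fun i => triv (c i) hR (P i) (h.cont i) (h.proj i)
  -- the conjugated derivatives
  set C : ι → E → E →L[ℝ] E := fun i z =>
    Ring.inverse (T (σ i) (f i z)) * (fderiv ℝ (f i) z * T i z) with hC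
  set p : ι → E →L[ℝ] E := fun i => P i (c i) with hp
  have hpp : ∀ i, p i * p i = p i := fun i => h.proj i _ (mem_closedBall_self hR)
  have hinv1 : ∀ i, ∀ z ∈ closedBall (c i) R, Ring.inverse (T i z) * T i z = 1 := fun i z hz =>
    Ring.inverse_mul_cancel _ (hTu i z hz)
  have hinv2 : ∀ i, ∀ z ∈ closedBall (c i) R, T i z * Ring.inverse (T i z) = 1 := fun i z hz =>
    Ring.mul_inverse_cancel _ (hTu i z hz)
  have hTinvP : ∀ i, ∀ z ∈ closedBall (c i) R, Ring.inverse (T i z) * P i z =
      p i * Ring.inverse (T i z) := by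
    intro i z hz
    calc Ring.inverse (T i z) * P i z
        = Ring.inverse (T i z) * P i z * (T i z * Ring.inverse (T i z)) := by
          rw [hinv2 i z hz, mul_one]
      _ = Ring.inverse (T i z) * (P i z * T i z) * Ring.inverse (T i z) := by noncomm_ring
      _ = (Ring.inverse (T i z) * T i z) * p i * Ring.inverse (T i z) := by
          rw [hTP i z hz]; noncomm_ring
      _ = p i * Ring.inverse (T i z) := by rw [hinv1 i z hz, one_mul]
  have hCP : ∀ i, ∀ z ∈ closedBall (c i) r, C i z * p i = p (σ i) * C i z := by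
    intro i z hz
    have hz' := hsub i hz
    calc C i z * p i = Ring.inverse (T (σ i) (f i z)) * (fderiv ℝ (f i) z * (T i z * p i)) := by
          rw [hC]; noncomm_ring
      _ = Ring.inverse (T (σ i) (f i z)) * ((fderiv ℝ (f i) z * P i z) * T i z) := by
          rw [← hTP i z hz']; noncomm_ring
      _ = (Ring.inverse (T (σ i) (f i z)) * P (σ i) (f i z)) * (fderiv ℝ (f i) z * T i z) := by
          rw [h.inv i z hz]; noncomm_ring
      _ = p (σ i) * C i z := by rw [hTinvP (σ i) _ (h.maps i z hz), hC]; noncomm_ring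
  have hCinj : ∀ i, ∀ z ∈ closedBall (c i) r, ∀ v, C i z v = 0 → v = 0 := by
    intro i z hz v hv
    have h1 : T (σ i) (f i z) (C i z v) = fderiv ℝ (f i) z (T i z v) := by
      have : T (σ i) (f i z) * C i z = fderiv ℝ (f i) z * T i z := by
        rw [hC]; show T (σ i) (f i z) * (_ * _) = _
        rw [← mul_assoc, hinv2 _ _ (h.maps i z hz), one_mul]
      calc T (σ i) (f i z) (C i z v) = (T (σ i) (f i z) * C i z) v := rfl
        _ = _ := by rw [this]; rfl
    rw [hv, map_zero] at h1
    have h2 : T i z v = 0 := by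
      apply h.inj i z hz
      rw [← h1, map_zero]
    exact isUnit_inj (hTu i z (hsub i hz)) h2
  have hTC : ∀ i, ∀ z ∈ closedBall (c i) r, ∀ v, T (σ i) (f i z) (C i z v) =
      fderiv ℝ (f i) z (T i z v) := by
    intro i z hz v
    have : T (σ i) (f i z) * C i z = fderiv ℝ (f i) z * T i z := by
      rw [hC]; show T (σ i) (f i z) * (_ * _) = _
      rw [← mul_assoc, hinv2 _ _ (h.maps i z hz), one_mul]
    calc T (σ i) (f i z) (C i z v) = (T (σ i) (f i z) * C i z) v := rfl
      _ = _ := by rw [this]; rfl
  have hCc : ∀ i, ContinuousOn (C i) (closedBall (c i) r) := by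
    intro i
    have a1 : ContinuousOn (fun z => T (σ i) (f i z)) (closedBall (c i) r) :=
      (hTc (σ i)).comp ((h.smooth i).continuous.continuousOn) (h.maps i)
    have a2 : ContinuousOn (fun z => Ring.inverse (T (σ i) (f i z))) (closedBall (c i) r) := by
      intro z hz
      obtain ⟨u, hu⟩ := hTu (σ i) _ (h.maps i z hz)
      have : CompleteSpace E := FiniteDimensional.complete ℝ E
      have h3 := NormedRing.inverse_continuousAt u
      rw [hu] at h3
      exact ContinuousAt.comp_continuousWithinAt (g := Ring.inverse) (f := fun z => T (σ i) (f i z))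
        h3 (a1 z hz)
    exact a2.mul ((((h.smooth i).continuous_fderiv (by norm_num)).continuousOn).mul
      ((hTc i).mono (hsub i)))
  -- the reference operator
  set Q : (ι → E) → (ι → E) →L[ℝ] (ι → E) := fun x =>
    op σ (fun i => p (σ i)) (fun i => C i (x i) * (1 - p i)) with hQ
  have hQ0 : ∀ x : ι → E, (∀ i, x i ∈ closedBall (c i) r) → (Q x).det ≠ 0 := by
    intro x hx
    apply det_ne_zero_of_ker
    intro v hv
    have e : ∀ i, p (σ i) (v (σ i)) - C i (x i) ((1 - p i) (v i)) = 0 := fun i => congrFun hv i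
    have e1 : ∀ i, p (σ i) (v (σ i)) = 0 := by
      intro i
      have h1 : p (σ i) (p (σ i) (v (σ i)) - C i (x i) ((1 - p i) (v i))) = 0 := by
        rw [e i, map_zero]
      rw [map_sub] at h1
      have h2 : p (σ i) (p (σ i) (v (σ i))) = p (σ i) (v (σ i)) := by
        rw [← mul_apply_eq_comp, hpp]
      have h3 : p (σ i) (C i (x i) ((1 - p i) (v i))) = 0 := by
        have : p (σ i) * (C i (x i) * (1 - p i)) = 0 := by
          rw [← mul_assoc, ← hCP i (x i) (hx i), mul_assoc, mul_sub, mul_one, hpp, sub_self, mul_zero]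
        exact congrArg (fun A : E →L[ℝ] E => A (v i)) this
      rw [h2, h3, sub_zero] at h1
      exact h1
    have e2 : ∀ i, p i (v i) = 0 := by
      intro i
      have := e1 (σ.symm i)
      rwa [Equiv.apply_symm_apply] at this
    funext i
    have h1 := e i
    rw [e1 i, zero_sub, neg_eq_zero] at h1
    have h2 := hCinj i (x i) (hx i) _ h1
    have h3 : (1 - p i) (v i) = v i - p i (v i) := rfl
    rw [h3, e2 i, sub_zero] at h2
    exact h2
  -- (a) the sign at a zero is that of the reference operator
  have key : ∀ x : ι → E, (∀ i, x i ∈ closedBall (c i) r) → (∀ i, x (σ i) = f i (x i)) →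
      0 < (op σ (fun _ => 1) (fun i => fderiv ℝ (f i) (x i))).det * (Q x).det := by
    intro x hx hx0
    -- conjugation
    set D₁ := dg (fun i => T i (x i)) with hD₁
    set D₂ := dg (fun i => T (σ i) (x (σ i))) with hD₂
    have hconj : (op σ (fun _ => 1) (fun i => fderiv ℝ (f i) (x i))).comp D₁ =
        D₂.comp (op σ (fun _ => 1) (fun i => C i (x i))) := by
      ext v i
      show T (σ i) (x (σ i)) (v (σ i)) - fderiv ℝ (f i) (x i) (T i (x i) (v i)) =
        T (σ i) (x (σ i)) (v (σ i) - C i (x i) (v i))
      rw [map_sub, ← hTC i (x i) (hx i), hx0 i]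
    have hdet := congrArg ContinuousLinearMap.det hconj
    rw [clm_det_comp, clm_det_comp] at hdet
    have hD₁p : 0 < D₁.det := by
      have := sign_path (f := fun t => (dg (fun i => T i (c i + t • (x i - c i)))).det)
        (dg_cont fun i => (hTc i).comp (by fun_prop) fun t ht => seg_mem (hsub i (hx i)) ht)
        (fun t ht => dg_det_ne fun i => hTu i _ (seg_mem (hsub i (hx i)) ht))
      have h1 : (dg (fun i => T i (c i + (0 : ℝ) • (x i - c i)))).det = 1 := by
        have : dg (fun i => T i (c i + (0 : ℝ) • (x i - c i))) = 1 := by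
          ext v i
          show T i (c i + (0 : ℝ) • (x i - c i)) (v i) = v i
          rw [zero_smul, add_zero, hT1]; rfl
        rw [this]; simp [ContinuousLinearMap.det]
      rw [h1, one_mul] at this
      simpa using this
    have hD₂p : 0 < D₂.det := by
      have := sign_path (f := fun t => (dg (fun i => T (σ i) (c (σ i) + t • (x (σ i) - c (σ i))))).det)
        (dg_cont fun i => (hTc (σ i)).comp (by fun_prop) fun t ht => seg_mem (hsub _ (hx (σ i))) ht)
        (fun t ht => dg_det_ne fun i => hTu (σ i) _ (seg_mem (hsub _ (hx (σ i))) ht))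
      have h1 : (dg (fun i => T (σ i) (c (σ i) + (0 : ℝ) • (x (σ i) - c (σ i))))).det = 1 := by
        have : dg (fun i => T (σ i) (c (σ i) + (0 : ℝ) • (x (σ i) - c (σ i)))) = 1 := by
          ext v i
          show T (σ i) (c (σ i) + (0 : ℝ) • (x (σ i) - c (σ i))) (v i) = v i
          rw [zero_smul, add_zero, hT1]; rfl
        rw [this]; simp [ContinuousLinearMap.det]
      rw [h1, one_mul] at this
      simpa using this
    -- the homotopy
    have hpath := sign_path (f := fun t => (op σ (fun i => p (σ i) + t • (1 - p (σ i)))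
        (fun i => t • (C i (x i) * p i) + C i (x i) * (1 - p i))).det)
      (op_cont σ (fun i => (continuous_const.add (continuous_id.smul continuous_const)).continuousOn)
        (fun i => ((continuous_id.smul continuous_const).add continuous_const).continuousOn)) (by
        intro t ht
        apply det_ne_zero_of_ker
        intro v hv
        have e : ∀ i, (p (σ i) (v (σ i)) + t • (1 - p (σ i)) (v (σ i))) -
          (t • C i (x i) (p i (v i)) + C i (x i) ((1 - p i) (v i))) = 0 := fun i => congrFun hv i
        have hpq : ∀ i, p i * (1 - p i) = 0 := fun i => by rw [mul_sub, mul_one, hpp, sub_self]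
        have q1 : ∀ i (w : E), p i ((1 - p i) w) = 0 := fun i w =>
          congrArg (fun A : E →L[ℝ] E => A w) (hpq i)
        have q2 : ∀ i (w : E), p i (p i w) = p i w := fun i w =>
          congrArg (fun A : E →L[ℝ] E => A w) (hpp i)
        have q3 : ∀ i (w : E), p (σ i) (C i (x i) w) = C i (x i) (p i w) := fun i w =>
          (congrArg (fun A : E →L[ℝ] E => A w) (hCP i (x i) (hx i))).symm
        have e1 : ∀ i, p (σ i) (v (σ i)) = t • C i (x i) (p i (v i)) := by
          intro i
          have h1 := congrArg (p (σ i)) (e i)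
          rw [map_zero, map_sub, map_add, map_add, map_smul, map_smul, q1, q2, q3, q3, q1, q2,
            map_zero, smul_zero, add_zero, add_zero] at h1
          exact sub_eq_zero.mp h1
        have e2 : ∀ i, C i (x i) ((1 - p i) (v i)) = t • (1 - p (σ i)) (v (σ i)) := by
          intro i
          have h1 := e i
          rw [e1 i] at h1
          have h2 : t • (1 - p (σ i)) (v (σ i)) - C i (x i) ((1 - p i) (v i)) = 0 := by
            rw [← h1]; abel
          exact (sub_eq_zero.mp h2).symm
        have w1 := h.hs x hx hx0 t ht (fun i => T i (x i) (p i (v i))) (fun i => by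
            show (P i (x i) * T i (x i)) (p i (v i)) = T i (x i) (p i (v i))
            rw [hTP i (x i) (hsub i (hx i))]
            show T i (x i) (p i (p i (v i))) = _
            rw [q2]) (fun i => by
            show T (σ i) (x (σ i)) (p (σ i) (v (σ i))) = t • fderiv ℝ (f i) (x i) (T i (x i) (p i (v i)))
            rw [e1 i, map_smul, hx0 i, hTC i (x i) (hx i)])
        have w2 := h.hu x hx hx0 t ht (fun i => T i (x i) ((1 - p i) (v i))) (fun i => by
            show (P i (x i) * T i (x i)) ((1 - p i) (v i)) = 0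
            rw [hTP i (x i) (hsub i (hx i))]
            show T i (x i) (p i ((1 - p i) (v i))) = _
            rw [q1, map_zero]) (fun i => by
            show fderiv ℝ (f i) (x i) (T i (x i) ((1 - p i) (v i))) =
              t • T (σ i) (x (σ i)) ((1 - p (σ i)) (v (σ i)))
            rw [← hTC i (x i) (hx i), e2 i, map_smul, hx0 i])
        funext i
        have z1 := isUnit_inj (hTu i (x i) (hsub i (hx i))) (congrFun w1 i)
        have z2 := isUnit_inj (hTu i (x i) (hsub i (hx i))) (congrFun w2 i)
        have z3 : v i = p i (v i) + (1 - p i) (v i) := by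
          show v i = p i (v i) + (v i - p i (v i)); abel
        rw [z3, z1, z2, add_zero]; rfl)
    have h1 : op σ (fun i => p (σ i) + (1 : ℝ) • (1 - p (σ i)))
        (fun i => (1 : ℝ) • (C i (x i) * p i) + C i (x i) * (1 - p i)) =
        op σ (fun _ => 1) (fun i => C i (x i)) := by
      congr 1
      · funext i; rw [one_smul]; abel
      · funext i; rw [one_smul]; noncomm_ring
    have h0 : op σ (fun i => p (σ i) + (0 : ℝ) • (1 - p (σ i)))
        (fun i => (0 : ℝ) • (C i (x i) * p i) + C i (x i) * (1 - p i)) = Q x := by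
      rw [hQ]
      show _ = op σ (fun i => p (σ i)) (fun i => C i (x i) * (1 - p i))
      congr 1
      · funext i; rw [zero_smul, add_zero]
      · funext i; rw [zero_smul, zero_add]
    simp only [h0, h1] at hpath
    have h5 : 0 < (op σ (fun _ => 1) (fun i => fderiv ℝ (f i) (x i))).det *
        (op σ (fun _ => 1) (fun i => C i (x i))).det := by
      have h6 : 0 < ((op σ (fun _ => 1) (fun i => fderiv ℝ (f i) (x i))).det *
        (op σ (fun _ => 1) (fun i => C i (x i))).det) * D₁.det := by
        have h7 : (op σ (fun _ => 1) (fun i => C i (x i))).det ≠ 0 := fun h => by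
          rw [h, mul_zero] at hpath; exact lt_irrefl _ hpath
        calc (0 : ℝ) < D₂.det * ((op σ (fun _ => 1) (fun i => C i (x i))).det *
              (op σ (fun _ => 1) (fun i => C i (x i))).det) :=
              mul_pos hD₂p (mul_self_pos.mpr h7)
          _ = (D₂.det * (op σ (fun _ => 1) (fun i => C i (x i))).det) *
              (op σ (fun _ => 1) (fun i => C i (x i))).det := by ring
          _ = _ := by rw [← hdet]; ring
      exact (mul_pos_iff_of_pos_right hD₁p).mp h6
    exact ss_trans h5 (ss_symm hpath)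
  -- (b) the reference operator along the segment
  have hseg := sign_path (f := fun t => (Q (x + t • (y - x))).det)
    (op_cont σ (fun i => continuousOn_const) (fun i => ((hCc i).comp
      (f := fun t : ℝ => (x + t • (y - x)) i) (by
        have : Continuous fun t : ℝ => (x + t • (y - x)) i := by
          simp only [Pi.add_apply, Pi.smul_apply]
          fun_prop
        exact this.continuousOn)
      (fun t ht => (convex_closedBall (c i) r).add_smul_sub_mem (hx i) (hy i) ht)).mul
        continuousOn_const))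
    (fun t ht => hQ0 _ fun i => (convex_closedBall (c i) r).add_smul_sub_mem (hx i) (hy i) ht)
  simp only [zero_smul, add_zero, one_smul, add_sub_cancel] at hseg
  exact ss_trans (key x hx hx0) (ss_trans hseg (ss_symm (key y hy hy0)))

end Pool.Agent.H244.Tube
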