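import Pool.Agent.H244.Deg3

set_option autoImplicit false
set_option linter.unusedSectionVars false

open Set Filter Topology Metric
open scoped NNReal ENNReal ContDiff

namespace Pool.Agent.H244.Tube

variable {E : Type*} [NormedAddCommGroup E] [NormedSpace ℝ E] [FiniteDimensional ℝ E]

/-- the transition operator between two projections -/
def trans (Q P : E →L[ℝ] E) : E →L[ℝ] E := Q * P + (1 - Q) * (1 - P)

theorem trans_comm {Q P : E →L[ℝ] E} (hQ : Q * Q = Q) (hP : P * P = P) :
    Q * trans Q P = trans Q P * P := by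
  have h1 : Q * trans Q P = Q * P := by
    have : Q * trans Q P = (Q * Q) * P + (Q - Q * Q) * (1 - P) := by rw [trans]; noncomm_ring
    rw [this, hQ, sub_self, zero_mul, add_zero]
  have h2 : trans Q P * P = Q * P := by
    have : trans Q P * P = Q * (P * P) + (1 - Q) * (P - P * P) := by rw [trans]; noncomm_ring
    rw [this, hP, sub_self, mul_zero, add_zero]
  rw [h1, h2]

theorem trans_sub_one {Q P : E →L[ℝ] E} (hP : P * P = P) :
    1 - trans Q P = (P - Q) * (2 * P - 1) := by
  have h : (P - Q) * (2 * P - 1) - (1 - trans Q P) = 2 * (P * P) - 2 * P + (2 * (Q * P) - 2 * (Q * P)) := by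
    rw [trans]; noncomm_ring
  rw [hP] at h
  have h2 : (P - Q) * (2 * P - 1) - (1 - trans Q P) = 0 := by rw [h]; simp
  exact (sub_eq_zero.mp h2).symm

theorem trans_isUnit {Q P : E →L[ℝ] E} (hP : P * P = P) (h : ‖P - Q‖ * ‖2 * P - 1‖ < 1) :
    IsUnit (trans Q P) := by
  have : CompleteSpace E := FiniteDimensional.complete ℝ E
  have h1 : ‖1 - trans Q P‖ < 1 := by
    rw [trans_sub_one hP]
    exact lt_of_le_of_lt (norm_mul_le _ _) h
  have h2 := isUnit_one_sub_of_norm_lt_one h1
  rwa [sub_sub_cancel] at h2

theorem trans_self {P : E →L[ℝ] E} (hP : P * P = P) : trans P P = 1 := by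
  have : trans P P = P * P + (1 - 2 * P + P * P) := by rw [trans]; noncomm_ring
  rw [this, hP]; noncomm_ring

/-- the product of the transition operators along the radial subdivision -/
noncomputable def TT (P : E → E →L[ℝ] E) (c : E) (L : ℕ) : ℕ → E → E →L[ℝ] E
  | 0, _ => 1
  | j + 1, x => trans (P (c + ((j + 1 : ℕ) / L : ℝ) • (x - c))) (P (c + ((j : ℕ) / L : ℝ) • (x - c))) *
      TT P c L j x

/-- **Trivialisation.** A continuous family of projections on a ball is conjugate to a constant
one by a continuous family of invertible operators. -/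
theorem triv (c : E) {R : ℝ} (hR : 0 ≤ R) (P : E → E →L[ℝ] E)
    (hP : ContinuousOn P (closedBall c R)) (hpr : ∀ x ∈ closedBall c R, P x * P x = P x) :
    ∃ T : E → E →L[ℝ] E, ContinuousOn T (closedBall c R) ∧ (∀ x ∈ closedBall c R, IsUnit (T x)) ∧
      (∀ x ∈ closedBall c R, P x * T x = T x * P c) ∧ T c = 1 := by
  have hcomp : IsCompact (closedBall c R) := isCompact_closedBall c R
  have hcc : c ∈ closedBall c R := mem_closedBall_self hR
  obtain ⟨B, hB⟩ := hcomp.exists_bound_of_continuousOn
    (f := fun x => 2 * P x - 1) ((continuousOn_const.mul hP).sub continuousOn_const)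
  have hB0 : 0 ≤ B := (norm_nonneg _).trans (hB c hcc)
  have huc := hcomp.uniformContinuousOn_of_continuous hP
  rw [Metric.uniformContinuousOn_iff] at huc
  obtain ⟨δ, hδ, hδ'⟩ := huc (1 / (B + 1)) (by positivity)
  obtain ⟨L, hL⟩ := exists_nat_gt (R / δ + 1)
  have hL1 : (1 : ℝ) < L := lt_of_le_of_lt (by have : 0 ≤ R / δ := by positivity
                                               linarith) hL
  have hL0 : (0 : ℝ) < L := one_pos.trans hL1
  have hRL : R / L < δ := by
    rw [div_lt_iff₀ hL0]
    have : R / δ < L := by linarith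
    rw [div_lt_iff₀ hδ] at this
    linarith
  have hmem : ∀ j : ℕ, j ≤ L → ∀ x ∈ closedBall c R, c + ((j : ℕ) / L : ℝ) • (x - c) ∈ closedBall c R := by
    intro j hj x hx
    rw [mem_closedBall, dist_eq_norm] at hx ⊢
    rw [add_sub_cancel_left, norm_smul, Real.norm_of_nonneg (by positivity)]
    have : (j : ℝ) / L ≤ 1 := by
      rw [div_le_one hL0]; exact_mod_cast hj
    calc (j : ℝ) / L * ‖x - c‖ ≤ 1 * R := by
          apply mul_le_mul this hx (norm_nonneg _) zero_le_one
      _ = R := one_mul R
  have hcts : ∀ j : ℕ, j ≤ L → ContinuousOn (fun x => P (c + ((j : ℕ) / L : ℝ) • (x - c)))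
      (closedBall c R) := fun j hj =>
    hP.comp (by fun_prop) (fun x hx => hmem j hj x hx)
  have main : ∀ j : ℕ, j ≤ L → ContinuousOn (TT P c L j) (closedBall c R) ∧
      (∀ x ∈ closedBall c R, IsUnit (TT P c L j x)) ∧
      (∀ x ∈ closedBall c R, P (c + ((j : ℕ) / L : ℝ) • (x - c)) * TT P c L j x =
        TT P c L j x * P c) ∧ TT P c L j c = 1 := by
    intro j
    induction j with
    | zero =>
      intro _
      refine ⟨continuousOn_const, fun x _ => isUnit_one, fun x _ => ?_, rfl⟩
      simp [TT]
    | succ j ih =>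
      intro hj
      obtain ⟨i1, i2, i3, i4⟩ := ih (by omega)
      have hj' : j ≤ L := by omega
      refine ⟨?_, fun x hx => ?_, fun x hx => ?_, ?_⟩
      · show ContinuousOn (fun x => trans (P (c + ((j + 1 : ℕ) / L : ℝ) • (x - c)))
          (P (c + ((j : ℕ) / L : ℝ) • (x - c))) * TT P c L j x) _
        have a1 := hcts (j + 1) hj
        have a2 := hcts j hj'
        unfold trans
        exact ((a1.mul a2).add ((continuousOn_const.sub a1).mul (continuousOn_const.sub a2))).mul i1
      · show IsUnit (trans _ _ * TT P c L j x)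
        refine IsUnit.mul (trans_isUnit (hpr _ (hmem j hj' x hx)) ?_) (i2 x hx)
        have m1 := hmem j hj' x hx
        have m2 := hmem (j + 1) hj x hx
        have d1 : dist (c + ((j : ℕ) / L : ℝ) • (x - c)) (c + ((j + 1 : ℕ) / L : ℝ) • (x - c)) < δ := by
          rw [dist_eq_norm, add_sub_add_left_eq_sub, ← sub_smul, norm_smul]
          have : ((j : ℕ) / L : ℝ) - ((j + 1 : ℕ) / L : ℝ) = -(1 / L) := by
            push_cast; field_simp; ring
          rw [this, norm_neg, Real.norm_of_nonneg (by positivity)]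
          have hx' : ‖x - c‖ ≤ R := by rwa [mem_closedBall, dist_eq_norm] at hx
          calc 1 / (L : ℝ) * ‖x - c‖ ≤ 1 / L * R := by gcongr
            _ = R / L := by ring
            _ < δ := hRL
        have d2 := hδ' _ m1 _ m2 d1
        rw [dist_eq_norm] at d2
        have d3 := hB _ m1
        calc _ ≤ 1 / (B + 1) * B := by
              apply mul_le_mul d2.le d3 (norm_nonneg _) (by positivity)
          _ < 1 := by rw [one_div, inv_mul_lt_one₀ (by positivity)]; linarith
      · show P _ * (trans _ _ * TT P c L j x) = (trans _ _ * TT P c L j x) * P c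
        rw [← mul_assoc, trans_comm (hpr _ (hmem (j + 1) hj x hx)) (hpr _ (hmem j hj' x hx)),
          mul_assoc, i3 x hx, mul_assoc]
      · show trans (P (c + ((j + 1 : ℕ) / L : ℝ) • (c - c))) (P (c + ((j : ℕ) / L : ℝ) • (c - c))) *
          TT P c L j c = 1
        rw [i4, sub_self, smul_zero, smul_zero, add_zero, trans_self (hpr c hcc), mul_one]
  obtain ⟨h1, h2, h3, h4⟩ := main L le_rfl
  refine ⟨TT P c L L, h1, h2, fun x hx => ?_, h4⟩
  have := h3 x hx
  rwa [div_self hL0.ne', one_smul, add_sub_cancel] at this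

end Pool.Agent.H244.Tube
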