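import Pool.Agent.H244.Sign

set_option autoImplicit false
set_option linter.unusedSectionVars false

open Set Filter Topology Metric
open scoped NNReal ENNReal ContDiff

namespace Pool.Agent.H244.Tube

open Pool.Agent.H244.Deg

variable {E : Type*} [NormedAddCommGroup E] [NormedSpace ℝ E] [FiniteDimensional ℝ E]
  {ι : Type*} [Fintype ι]

/-- the orbit map -/
def orb (σ : Equiv.Perm ι) (f : ι → E → E) (x : ι → E) : ι → E := fun i => x (σ i) - f i (x i)

theorem orb_zero {σ : Equiv.Perm ι} {f : ι → E → E} {x : ι → E} :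
    orb σ f x = 0 ↔ ∀ i, x (σ i) = f i (x i) := by
  rw [funext_iff]
  exact forall_congr' fun i => by simp [orb, sub_eq_zero]

theorem orb_contDiff (σ : Equiv.Perm ι) {f : ι → E → E} (hf : ∀ i, ContDiff ℝ 1 (f i)) :
    ContDiff ℝ 1 (orb σ f) := by
  rw [contDiff_pi]
  intro i
  exact (contDiff_apply ℝ E (σ i)).sub ((hf i).comp (contDiff_apply ℝ E i))

theorem orb_fderiv (σ : Equiv.Perm ι) {f : ι → E → E} (hf : ∀ i, ContDiff ℝ 1 (f i)) (x : ι → E) :
    fderiv ℝ (orb σ f) x = op σ (fun _ => 1) (fun i => fderiv ℝ (f i) (x i)) :=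
  (fderiv_orbit σ hf x).fderiv

/-- **The tube theorem.**  Two chains of maps with hyperbolic splittings (not related to each
other), joined by the linear homotopy without closed orbits on the boundary of the tube, have the
same number of closed orbits in the tube, if one of them has exactly one. -/
theorem tube {σ : Equiv.Perm ι} {c : ι → E} {r R : ℝ} (hr : 0 < r) (hrR : r ≤ R)
    {f g : ι → E → E} {P P' : ι → E → E →L[ℝ] E} (hf : Chain σ c r R f P)
    (hg : Chain σ c r R g P')
    (hadm : ∀ t ∈ Icc (0 : ℝ) 1, ∀ x : ι → E, (∀ i, x i ∈ closedBall (c i) r) →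
      (∀ i, x (σ i) = g i (x i) + t • (f i (x i) - g i (x i))) → ∀ i, x i ∈ ball (c i) r)
    {a : ι → E} (ha : ∀ i, a i ∈ ball (c i) r) (ha0 : ∀ i, a (σ i) = g i (a i))
    (hau : ∀ x : ι → E, (∀ i, x i ∈ ball (c i) r) → (∀ i, x (σ i) = g i (x i)) → x = a) :
    ∃! x : ι → E, (∀ i, x i ∈ ball (c i) r) ∧ ∀ i, x (σ i) = f i (x i) := by
  have hmem : ∀ x : ι → E, x ∈ ball c r ↔ ∀ i, x i ∈ ball (c i) r := fun x => by
    rw [ball_pi c hr]; simp
  have hmemc : ∀ x : ι → E, x ∈ closedBall c r ↔ ∀ i, x i ∈ closedBall (c i) r := fun x => by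
    rw [closedBall_pi c hr.le]; simp
  have hcl : ∀ x : ι → E, (∀ i, x i ∈ ball (c i) r) → ∀ i, x i ∈ closedBall (c i) r :=
    fun x hx i => ball_subset_closedBall (hx i)
  have h := deg_main (Ω := ball c r) isOpen_ball isBounded_ball (orb_contDiff σ hg.smooth)
    (orb_contDiff σ hf.smooth) (a := a) (by
      intro x hx t ht h0
      have hxs : x ∈ sphere c r := frontier_ball_subset_sphere hx
      have h1 := hadm t ht x ((hmemc x).mp (sphere_subset_closedBall hxs)) (fun i => by
        have h2 := congrFun h0 i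
        have h3 : orb σ g x i + t • (orb σ f x i - orb σ g x i) = 0 := h2
        have h4 : orb σ g x i + t • (orb σ f x i - orb σ g x i) =
          x (σ i) - (g i (x i) + t • (f i (x i) - g i (x i))) := by
          simp only [orb, smul_sub]; abel
        rw [h4] at h3
        exact sub_eq_zero.mp h3)
      have h2 := (hmem x).mpr h1
      rw [mem_ball] at h2
      rw [mem_sphere] at hxs
      linarith)
    ((hmem a).mpr ha) (orb_zero.mpr ha0) (fun x hx hx0 => hau x ((hmem x).mp hx) (orb_zero.mp hx0))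
    (by
      rw [orb_fderiv σ hg.smooth]
      intro h0
      have := sign_const hr.le hrR hg (hcl a ha) (hcl a ha) ha0 ha0
      rw [h0] at this
      simp at this)
    (by
      intro x hx y hy hx0 hy0
      rw [orb_fderiv σ hf.smooth, orb_fderiv σ hf.smooth]
      exact sign_const hr.le hrR hf (hcl x ((hmem x).mp hx)) (hcl y ((hmem y).mp hy))
        (orb_zero.mp hx0) (orb_zero.mp hy0))
  obtain ⟨x, ⟨hx, hx0⟩, hu⟩ := h
  exact ⟨x, ⟨(hmem x).mp hx, orb_zero.mp hx0⟩, fun y hy => hu y ⟨(hmem y).mpr hy.1, orb_zero.mpr hy.2⟩⟩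

end Pool.Agent.H244.Tube
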