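import Pool.Agent.H244.Ch2

set_option autoImplicit false
set_option linter.unusedSectionVars false

open Set Filter Topology Metric
open scoped Manifold ContDiff

namespace Pool.Agent.H244.Loc

/-- Uniform continuity near a compact set. -/
theorem unif_near {X Y : Type*} [PseudoMetricSpace X] [PseudoMetricSpace Y] {K O : Set X}
    (hK : IsCompact K) (hO : IsOpen O) (hKO : K ⊆ O) {F : X → Y} (hF : ContinuousOn F O) {ε : ℝ}
    (hε : 0 < ε) : ∃ δ > 0, ∀ z ∈ K, ∀ p, dist p z < δ → p ∈ O ∧ dist (F p) (F z) < ε := by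
  obtain ⟨δ₁, hδ₁, h1⟩ := hK.exists_thickening_subset_open hO hKO
  have h2 := hK.uniformContinuousAt_of_continuousAt F
    (fun a ha => hF.continuousAt (hO.mem_nhds (hKO ha))) (Metric.dist_mem_uniformity hε)
  obtain ⟨δ₂, hδ₂, h3⟩ := Metric.mem_uniformity_dist.mp h2
  refine ⟨min δ₁ δ₂, lt_min hδ₁ hδ₂, fun z hz p hp => ⟨?_, ?_⟩⟩
  · apply h1
    rw [mem_thickening_iff]
    exact ⟨z, hz, hp.trans_le (min_le_left _ _)⟩
  · have := h3 (a := z) (b := p) (by rw [dist_comm]; exact hp.trans_le (min_le_right _ _)) hz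
    rw [dist_comm]
    exact this

theorem fin_min {α : Type*} (t : Finset α) (Q : α → ℝ → Prop)
    (hmono : ∀ a δ δ', δ' ≤ δ → 0 < δ' → Q a δ → Q a δ') (h : ∀ a ∈ t, ∃ δ > 0, Q a δ) :
    ∃ δ > 0, ∀ a ∈ t, Q a δ := by
  classical
  induction t using Finset.induction_on with
  | empty => exact ⟨1, one_pos, fun a ha => absurd ha (Finset.notMem_empty a)⟩
  | insert b t hb ih =>
    obtain ⟨δ₁, h1, h1'⟩ := ih fun a ha => h a (Finset.mem_insert_of_mem ha)
    obtain ⟨δ₂, h2, h2'⟩ := h b (Finset.mem_insert_self b t)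
    refine ⟨min δ₁ δ₂, lt_min h1 h2, fun a ha => ?_⟩
    rcases Finset.mem_insert.mp ha with rfl | ha
    · exact hmono _ _ _ (min_le_right _ _) (lt_min h1 h2) h2'
    · exact hmono _ _ _ (min_le_left _ _) (lt_min h1 h2) (h1' a ha)

variable {E : Type*} [NormedAddCommGroup E] [NormedSpace ℝ E] [FiniteDimensional ℝ E]
  {M : Type*} [MetricSpace M] [CompactSpace M] [ChartedSpace E M] [IsManifold 𝓘(ℝ, E) 1 M]

/-- Charts with uniform sizes: `j z` is the base point of the chart used near `z`. -/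
structure Charts (j : M → M) (R : ℝ) : Prop where
  R_pos : 0 < R
  src : ∀ z, z ∈ (extChartAt 𝓘(ℝ, E) (j z)).source
  tgt : ∀ z, closedBall (extChartAt 𝓘(ℝ, E) (j z) z) R ⊆ (extChartAt 𝓘(ℝ, E) (j z)).target
  c1 : ∀ ε > 0, ∃ δ > 0, ∀ z p, dist p z < δ → p ∈ (extChartAt 𝓘(ℝ, E) (j z)).source ∧
    dist (extChartAt 𝓘(ℝ, E) (j z) p) (extChartAt 𝓘(ℝ, E) (j z) z) < ε
  c2 : ∀ ε > 0, ∃ δ > 0, δ ≤ R ∧ ∀ z, ∀ y ∈ closedBall (extChartAt 𝓘(ℝ, E) (j z) z) δ,
    dist ((extChartAt 𝓘(ℝ, E) (j z)).symm y) z < ε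
  c3 : ∀ ε > 0, ∃ δ > 0, ∀ z, ∀ y ∈ closedBall (extChartAt 𝓘(ℝ, E) (j z) z) R,
    ∀ y' ∈ closedBall (extChartAt 𝓘(ℝ, E) (j z) z) R, dist y y' < δ →
    dist ((extChartAt 𝓘(ℝ, E) (j z)).symm y) ((extChartAt 𝓘(ℝ, E) (j z)).symm y') < ε
  c4 : ∃ ρ > 0, ∀ ε > 0, ∃ δ > 0, ∀ z p p', dist p z ≤ ρ → dist p' z ≤ ρ → dist p p' < δ →
    dist (extChartAt 𝓘(ℝ, E) (j z) p) (extChartAt 𝓘(ℝ, E) (j z) p') < ε

variable (E M) in
theorem exists_charts : ∃ (j : M → M) (R : ℝ), Charts (E := E) j R := by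
  have h1 : ∀ x : M, ∃ ρ > 0, closedBall x ρ ⊆ (extChartAt 𝓘(ℝ, E) x).source := fun x =>
    Metric.nhds_basis_closedBall.mem_iff.mp (extChartAt_source_mem_nhds (I := 𝓘(ℝ, E)) x)
  choose ρ hρ hρs using h1
  obtain ⟨t, -, ht⟩ := isCompact_univ.elim_nhds_subcover (fun x : M => ball x (ρ x))
    (fun x _ => ball_mem_nhds x (hρ x))
  have h2 : ∀ z : M, ∃ x ∈ t, z ∈ ball x (ρ x) := fun z => by
    have := ht (mem_univ z)
    simpa using this
  choose j hjt hj using h2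
  have hK : ∀ x : M, IsCompact (closedBall x (ρ x)) := fun x => isClosed_closedBall.isCompact
  have hψ : ∀ x : M, ContinuousOn (extChartAt 𝓘(ℝ, E) x) (extChartAt 𝓘(ℝ, E) x).source :=
    fun x => continuousOn_extChartAt x
  have hK' : ∀ x : M, IsCompact (extChartAt 𝓘(ℝ, E) x '' closedBall x (ρ x)) := fun x =>
    (hK x).image_of_continuousOn ((hψ x).mono (hρs x))
  have hKt : ∀ x : M, extChartAt 𝓘(ℝ, E) x '' closedBall x (ρ x) ⊆ (extChartAt 𝓘(ℝ, E) x).target := by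
    rintro x _ ⟨z, hz, rfl⟩
    exact (extChartAt 𝓘(ℝ, E) x).map_source (hρs x hz)
  have hzK : ∀ z, z ∈ closedBall (j z) (ρ (j z)) := fun z => ball_subset_closedBall (hj z)
  obtain ⟨R, hR, hRt⟩ := fin_min t (fun x δ =>
      cthickening δ (extChartAt 𝓘(ℝ, E) x '' closedBall x (ρ x)) ⊆ (extChartAt 𝓘(ℝ, E) x).target)
    (fun a δ δ' hle _ h => (cthickening_mono hle _).trans h) (fun x _ => by
      obtain ⟨δ, hδ, h⟩ := (hK' x).exists_cthickening_subset_open (isOpen_extChartAt_target x)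
        (hKt x)
      exact ⟨δ, hδ, h⟩)
  obtain ⟨ρ₁, hρ₁, hρt⟩ := fin_min t (fun x δ =>
      cthickening δ (closedBall x (ρ x)) ⊆ (extChartAt 𝓘(ℝ, E) x).source)
    (fun a δ δ' hle _ h => (cthickening_mono hle _).trans h) (fun x _ => by
      obtain ⟨δ, hδ, h⟩ := (hK x).exists_cthickening_subset_open (isOpen_extChartAt_source x)
        (hρs x)
      exact ⟨δ, hδ, h⟩)
  have hRz : ∀ z, closedBall (extChartAt 𝓘(ℝ, E) (j z) z) R ⊆
      cthickening R (extChartAt 𝓘(ℝ, E) (j z) '' closedBall (j z) (ρ (j z))) := fun z =>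
    closedBall_subset_cthickening (mem_image_of_mem _ (hzK z)) R
  refine ⟨j, R, hR, fun z => hρs _ (hzK z), fun z => (hRz z).trans (hRt _ (hjt z)), fun ε hε => ?_,
    fun ε hε => ?_, fun ε hε => ?_, ⟨ρ₁, hρ₁, fun ε hε => ?_⟩⟩
  · obtain ⟨δ, hδ, h⟩ := fin_min t (fun x δ => ∀ z ∈ closedBall x (ρ x), ∀ p, dist p z < δ →
        p ∈ (extChartAt 𝓘(ℝ, E) x).source ∧
        dist (extChartAt 𝓘(ℝ, E) x p) (extChartAt 𝓘(ℝ, E) x z) < ε)
      (fun a δ δ' hle _ h z hz p hp => h z hz p (hp.trans_le hle)) (fun x _ =>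
        unif_near (hK x) (isOpen_extChartAt_source x) (hρs x) (hψ x) hε)
    exact ⟨δ, hδ, fun z p hp => h _ (hjt z) z (hzK z) p hp⟩
  · obtain ⟨δ, hδ, h⟩ := fin_min t (fun x δ => ∀ z ∈ closedBall x (ρ x),
        ∀ y, dist y (extChartAt 𝓘(ℝ, E) x z) < δ →
        dist ((extChartAt 𝓘(ℝ, E) x).symm y) z < ε)
      (fun a δ δ' hle _ h z hz p hp => h z hz p (hp.trans_le hle)) (fun x _ => by
        obtain ⟨δ, hδ, h⟩ := unif_near (hK' x) (isOpen_extChartAt_target x) (hKt x)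
          (continuousOn_extChartAt_symm x) hε
        refine ⟨δ, hδ, fun z hz y hy => ?_⟩
        have := (h _ (mem_image_of_mem _ hz) y hy).2
        rwa [(extChartAt 𝓘(ℝ, E) x).left_inv (hρs x hz)] at this)
    refine ⟨min (δ / 2) R, lt_min (half_pos hδ) hR, min_le_right _ _, fun z y hy => ?_⟩
    apply h _ (hjt z) z (hzK z)
    rw [mem_closedBall] at hy
    have := min_le_left (δ / 2) R
    linarith
  · obtain ⟨δ, hδ, h⟩ := fin_min t (fun x δ =>
        ∀ y ∈ cthickening R (extChartAt 𝓘(ℝ, E) x '' closedBall x (ρ x)),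
        ∀ y' ∈ cthickening R (extChartAt 𝓘(ℝ, E) x '' closedBall x (ρ x)), dist y y' < δ →
        dist ((extChartAt 𝓘(ℝ, E) x).symm y) ((extChartAt 𝓘(ℝ, E) x).symm y') < ε)
      (fun a δ δ' hle _ h y hy y' hy' hd => h y hy y' hy' (hd.trans_le hle)) (fun x hx => by
        have hc : IsCompact (cthickening R (extChartAt 𝓘(ℝ, E) x '' closedBall x (ρ x))) :=
          (hK' x).cthickening
        have huc := hc.uniformContinuousOn_of_continuous
          ((continuousOn_extChartAt_symm (I := 𝓘(ℝ, E)) x).mono (hRt x hx))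
        obtain ⟨δ, hδ, h⟩ := Metric.uniformContinuousOn_iff.mp huc ε hε
        exact ⟨δ, hδ, fun y hy y' hy' hd => h y hy y' hy' hd⟩)
    exact ⟨δ, hδ, fun z y hy y' hy' hd => h _ (hjt z) y (hRz z hy) y' (hRz z hy') hd⟩
  · obtain ⟨δ, hδ, h⟩ := fin_min t (fun x δ =>
        ∀ p ∈ cthickening ρ₁ (closedBall x (ρ x)),
        ∀ p' ∈ cthickening ρ₁ (closedBall x (ρ x)), dist p p' < δ →
        dist (extChartAt 𝓘(ℝ, E) x p) (extChartAt 𝓘(ℝ, E) x p') < ε)
      (fun a δ δ' hle _ h y hy y' hy' hd => h y hy y' hy' (hd.trans_le hle)) (fun x hx => by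
        have hc : IsCompact (cthickening ρ₁ (closedBall x (ρ x))) :=
          isClosed_cthickening.isCompact
        have huc := hc.uniformContinuousOn_of_continuous ((hψ x).mono (hρt x hx))
        obtain ⟨δ, hδ, h⟩ := Metric.uniformContinuousOn_iff.mp huc ε hε
        exact ⟨δ, hδ, fun y hy y' hy' hd => h y hy y' hy' hd⟩)
    have hz : ∀ z p, dist p z ≤ ρ₁ → p ∈ cthickening ρ₁ (closedBall (j z) (ρ (j z))) := fun z p hp =>
      closedBall_subset_cthickening (hzK z) ρ₁ hp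
    exact ⟨δ, hδ, fun z p p' hp hp' hd => h _ (hjt z) p (hz z p hp) p' (hz z p' hp') hd⟩

end Pool.Agent.H244.Loc
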