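import Mathlib

/-!
# Thurston's stability argument along a filter

Adapted from the library (`Q24/SLN/Thur.lean`): the displacements of a finitely generated group without
homomorphisms to `ℝ` vanish along a filter if they are additive up to small errors.
-/

set_option autoImplicit false

namespace Pool.Agent.H244.Zm

open Filter Topology Asymptotics

/-- **Thurston's stability argument** along a filter `l`. -/
theorem thurston {E : Type*} [NormedAddCommGroup E] [NormedSpace ℝ E] [FiniteDimensional ℝ E]
    {X : Type*} {l : Filter X}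
    {Γ : Type*} [Group Γ] (hfg : Group.FG Γ) (hab : ∀ f : Γ →* Multiplicative ℝ, f = 1)
    (u : Γ → X → E) (hone : ∀ᶠ x in l, u 1 x = 0)
    (hcoc : ∀ g h, (fun x => u (g * h) x - u g x - u h x) =o[l] fun x => u h x) :
    ∀ g, ∀ᶠ x in l, u g x = 0 := by
  classical
  obtain ⟨T, hT⟩ := hfg.out
  by_contra hcon
  push Not at hcon
  obtain ⟨g₀, hg₀⟩ := hcon
  let m : X → ℝ := fun x => ∑ t ∈ T, ‖u t x‖
  have hm0 : ∀ x, 0 ≤ m x := fun x => Finset.sum_nonneg fun t _ => norm_nonneg _
  have hle : ∀ t ∈ T, ∀ x, ‖u t x‖ ≤ m x := fun t ht x =>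
    Finset.single_le_sum (f := fun t => ‖u t x‖) (fun t _ => norm_nonneg _) ht
  have hO : ∀ g, (u g) =O[l] m := by
    intro g
    have hg : g ∈ Subgroup.closure (T : Set Γ) := by rw [hT]; trivial
    induction hg using Subgroup.closure_induction with
    | mem t ht =>
      refine IsBigO.of_bound 1 (Eventually.of_forall fun x => ?_)
      rw [one_mul, Real.norm_of_nonneg (hm0 x)]
      exact hle t ht x
    | one =>
      refine (isBigO_zero (E' := E) m l).congr' ?_ (Eventually.of_forall fun _ => rfl)
      filter_upwards [hone] with x hx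
      rw [hx]
    | mul g h _ _ hg hh =>
      have h1 := (hcoc g h).isBigO.trans hh
      have h2 := (h1.add hg).add hh
      refine h2.congr' (Eventually.of_forall fun x => ?_) (Eventually.of_forall fun _ => rfl)
      simp only
      abel
    | inv g _ hg =>
      have h1 := hcoc g g⁻¹
      have h2 := h1.right_isBigO_add
      have h3 : (u g⁻¹) =O[l] fun x => - u g x := by
        refine h2.congr' (Eventually.of_forall fun _ => rfl) ?_
        filter_upwards [hone] with x hx
        have : u (g * g⁻¹) x = 0 := by rw [mul_inv_cancel]; exact hx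
        rw [this]
        abel
      exact h3.trans hg.neg_left
  have hfreq : ∃ᶠ x in l, m x ≠ 0 := by
    intro hev
    apply hg₀
    have h1 : (u g₀) =O[l] fun _ : X => (0 : ℝ) := by
      refine (hO g₀).congr' (Eventually.of_forall fun _ => rfl) ?_
      filter_upwards [hev] with x hx
      exact not_not.1 hx
    have h2 := isBigO_zero_right_iff.1 h1
    filter_upwards [h2] with x hx
    exact not_not.2 hx
  have hne : NeBot (l ⊓ 𝓟 {x | m x ≠ 0}) := frequently_mem_iff_neBot.1 hfreq
  let U : Ultrafilter X := Ultrafilter.of (l ⊓ 𝓟 {x | m x ≠ 0})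
  have hU : (U : Filter X) ≤ l ⊓ 𝓟 {x | m x ≠ 0} := Ultrafilter.of_le _
  have hUq : (U : Filter X) ≤ l := hU.trans inf_le_left
  have hUm : ∀ᶠ x in (U : Filter X), m x ≠ 0 := by
    have : {x | m x ≠ 0} ∈ (U : Filter X) := hU (mem_inf_of_right (mem_principal_self _))
    exact this
  have hlim : ∀ g, ∃ c : E, Tendsto (fun x => (m x)⁻¹ • u g x) (U : Filter X) (𝓝 c) := by
    intro g
    obtain ⟨C, hC⟩ := (hO g).bound
    have h1 : ∀ᶠ x in (U : Filter X), (m x)⁻¹ • u g x ∈ Metric.closedBall (0 : E) (max C 0) := by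
      filter_upwards [hUq hC, hUm] with x hx hmx
      rw [mem_closedBall_zero_iff, norm_smul, norm_inv, Real.norm_of_nonneg (hm0 x)]
      have hpos : 0 < m x := lt_of_le_of_ne (hm0 x) (Ne.symm hmx)
      rw [inv_mul_le_iff₀ hpos]
      rw [Real.norm_of_nonneg (hm0 x)] at hx
      calc ‖u g x‖ ≤ C * m x := hx
        _ ≤ max C 0 * m x := by gcongr; exact le_max_left _ _
        _ = m x * max C 0 := mul_comm _ _
    have h2 : IsCompact (Metric.closedBall (0 : E) (max C 0)) := isCompact_closedBall _ _
    obtain ⟨c, -, hc⟩ := h2.ultrafilter_le_nhds (U.map fun x => (m x)⁻¹ • u g x)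
      (le_principal_iff.2 h1)
    exact ⟨c, hc⟩
  choose c hc using hlim
  have hadd : ∀ g h, c (g * h) = c g + c h := by
    intro g h
    have h1 : (fun x => u (g * h) x - u g x - u h x) =o[(U : Filter X)] m :=
      ((hcoc g h).trans_isBigO (hO h)).mono hUq
    have h2 : Tendsto (fun x => (m x)⁻¹ • (u (g * h) x - u g x - u h x)) (U : Filter X) (𝓝 0) :=
      h1.tendsto_inv_smul_nhds_zero
    have h3 := ((hc (g * h)).sub (hc g)).sub (hc h)
    have h4 : c (g * h) - c g - c h = 0 := by
      refine tendsto_nhds_unique (h3.congr fun x => ?_) h2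
      simp only [smul_sub]
    rw [sub_sub, sub_eq_zero] at h4
    exact h4
  have hc0 : ∀ g, c g = 0 := by
    intro g
    have key : ∀ L : E →ₗ[ℝ] ℝ, L (c g) = 0 := by
      intro L
      have hone' : c 1 = 0 := by
        have := hadd 1 1
        rw [mul_one] at this
        simpa using this
      let f : Γ →* Multiplicative ℝ :=
        { toFun := fun g => Multiplicative.ofAdd (L (c g))
          map_one' := by rw [hone', map_zero]; rfl
          map_mul' := fun a b => by rw [hadd, map_add]; rfl }
      exact congrArg Multiplicative.toAdd (DFunLike.congr_fun (hab f) g)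
    exact (Module.forall_dual_apply_eq_zero_iff ℝ (c g)).1 key
  have hsum : Tendsto (fun x => ∑ t ∈ T, ‖(m x)⁻¹ • u t x‖) (U : Filter X) (𝓝 0) := by
    have h1 : Tendsto (fun x => ∑ t ∈ T, ‖(m x)⁻¹ • u t x‖) (U : Filter X)
        (𝓝 (∑ t ∈ T, ‖c t‖)) := tendsto_finsetSum _ fun t _ => (hc t).norm
    simpa [hc0] using h1
  have hone2 : Tendsto (fun x => ∑ t ∈ T, ‖(m x)⁻¹ • u t x‖) (U : Filter X) (𝓝 1) := by
    refine (tendsto_const_nhds (x := (1 : ℝ))).congr' ?_
    filter_upwards [hUm] with x hx
    simp only [norm_smul, norm_inv, Real.norm_of_nonneg (hm0 x)]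
    rw [← Finset.mul_sum]
    exact (inv_mul_cancel₀ hx).symm
  exact zero_ne_one (tendsto_nhds_unique hsum hone2)

end Pool.Agent.H244.Zm
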