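import Pool.Agent.H244.Zm6

/-!
# Representations commuting with an endomorphism whose eigenvalues have small multiplicities
-/

set_option autoImplicit false
set_option linter.unusedSectionVars false

namespace Pool.Agent.H244.Zm

open Filter Topology Set Module

section alg

theorem finite_of_ker {H : Type*} [Group H] {R : Type*} [Monoid R] (ρ : H →* R) (K : Subgroup H)
    [hK : K.FiniteIndex] (h : ∀ x ∈ K, ρ x = 1) : (Set.range ρ).Finite := by
  have hfin : Finite (H ⧸ K) := Subgroup.finite_quotient_of_finiteIndex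
  have h1 : Set.range ρ ⊆ Set.range fun q : H ⧸ K => ρ q.out := by
    rintro _ ⟨x, rfl⟩
    refine ⟨QuotientGroup.mk x, ?_⟩
    have h2 : (QuotientGroup.mk x : H ⧸ K).out⁻¹ * x ∈ K := by
      rw [← QuotientGroup.eq, QuotientGroup.out_eq']
    have h3 := h _ h2
    show ρ (QuotientGroup.mk x : H ⧸ K).out = ρ x
    have h4 : x = (QuotientGroup.mk x : H ⧸ K).out * ((QuotientGroup.mk x : H ⧸ K).out⁻¹ * x) := by
      group
    conv_rhs => rw [h4, map_mul, h3, mul_one]
  exact (Set.finite_range _).subset h1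

variable {Γ : Type*} [Group Γ]

/-- complex version -/
theorem mult_fin_cx {N : ℕ} (h : SmallReps ℂ N Γ) (H : Subgroup Γ) [hH : H.FiniteIndex]
    {V : Type*} [AddCommGroup V] [Module ℂ V] [FiniteDimensional ℂ V]
    (ρ : H →* Module.End ℂ V) (T : Module.End ℂ V) (hT : ∀ x, ρ x * T = T * ρ x)
    (hmult : ∀ μ : ℂ, T.charpoly.rootMultiplicity μ < N) : (Set.range ρ).Finite := by
  classical
  have hmaps : ∀ (μ : ℂ) (x : H) (v : V), v ∈ T.maxGenEigenspace μ → ρ x v ∈ T.maxGenEigenspace μ := by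
    intro μ x v hv
    exact Module.End.mapsTo_maxGenEigenspace_of_comm (hT x).symm μ hv
  let ρμ : ∀ μ : ℂ, H →* Module.End ℂ (T.maxGenEigenspace μ) := fun μ =>
    { toFun := fun x =>
        { toFun := fun v => ⟨ρ x v, hmaps μ x v v.2⟩
          map_add' := fun v w => Subtype.ext (by
            show ρ x ((v : V) + w) = ρ x v + ρ x w
            rw [map_add])
          map_smul' := fun c v => Subtype.ext (by
            show ρ x (c • (v : V)) = c • ρ x v
            rw [map_smul]) }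
      map_one' := LinearMap.ext fun v => Subtype.ext (by
        show ρ 1 (v : V) = v
        rw [map_one]
        rfl)
      map_mul' := fun a b => LinearMap.ext fun v => Subtype.ext (by
        show ρ (a * b) (v : V) = ρ a (ρ b v)
        rw [map_mul]
        rfl) }
  have hfin : ∀ μ : ℂ, (Set.range (ρμ μ)).Finite := fun μ =>
    fin_rep h H (V := T.maxGenEigenspace μ)
      (by rw [LinearMap.finrank_maxGenEigenspace_eq]; exact hmult μ) (ρμ μ)
  have hker : ∀ μ : ℂ, (ρμ μ).ker.FiniteIndex := fun μ => ker_fi (ρμ μ) (hfin μ)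
  let K : Subgroup H := ⨅ μ ∈ T.charpoly.roots.toFinset, (ρμ μ).ker
  have hK : K.FiniteIndex := Subgroup.finiteIndex_iInf' _ fun μ _ => hker μ
  refine finite_of_ker ρ K fun x hx => ?_
  have h1 : ∀ μ : ℂ, T.maxGenEigenspace μ ≤ LinearMap.eqLocus (ρ x) (1 : Module.End ℂ V) := by
    intro μ v hv
    rw [LinearMap.mem_eqLocus]
    by_cases hμ : μ ∈ T.charpoly.roots.toFinset
    · have h2 : x ∈ (ρμ μ).ker := by
        have := Subgroup.mem_iInf.1 hx μ
        exact Subgroup.mem_iInf.1 this hμ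
      have h3 : ρμ μ x = 1 := h2
      have h4 := congrArg (fun S : Module.End ℂ (T.maxGenEigenspace μ) =>
        ((S ⟨v, hv⟩ : T.maxGenEigenspace μ) : V)) h3
      exact h4
    · have h5 : finrank ℂ (T.maxGenEigenspace μ) = 0 := by
        rw [LinearMap.finrank_maxGenEigenspace_eq]
        rw [Multiset.mem_toFinset] at hμ
        rw [← Polynomial.count_roots]
        exact Multiset.count_eq_zero.2 hμ
      have h6 : T.maxGenEigenspace μ = ⊥ := Submodule.finrank_eq_zero.1 h5
      rw [h6, Submodule.mem_bot] at hv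
      rw [hv, map_zero, map_zero]
  have h7 : (⊤ : Submodule ℂ V) ≤ LinearMap.eqLocus (ρ x) (1 : Module.End ℂ V) := by
    rw [← Module.End.iSup_maxGenEigenspace_eq_top T]
    exact iSup_le h1
  ext v
  exact h7 trivial

/-- the complexification of a real endomorphism -/
theorem mult_fin {N : ℕ} (h : SmallReps ℂ N Γ) (H : Subgroup Γ) [hH : H.FiniteIndex]
    {S : Type*} [AddCommGroup S] [Module ℝ S] [FiniteDimensional ℝ S] (ρ : H →* Module.End ℝ S)
    (T : Module.End ℝ S) (hT : ∀ x, ρ x * T = T * ρ x)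
    (hmult : ∀ μ : ℂ, (T.charpoly.map (algebraMap ℝ ℂ)).rootMultiplicity μ < N) :
    (Set.range ρ).Finite := by
  classical
  let b := Module.finBasis ℝ S
  let τ₁ : Module.End ℝ S →* Matrix (Fin (finrank ℝ S)) (Fin (finrank ℝ S)) ℝ :=
    (LinearMap.toMatrixAlgEquiv b : Module.End ℝ S →* _)
  let τ₂ : Matrix (Fin (finrank ℝ S)) (Fin (finrank ℝ S)) ℝ →*
      Matrix (Fin (finrank ℝ S)) (Fin (finrank ℝ S)) ℂ :=
    ((algebraMap ℝ ℂ).mapMatrix : Matrix (Fin (finrank ℝ S)) (Fin (finrank ℝ S)) ℝ →+*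
      Matrix (Fin (finrank ℝ S)) (Fin (finrank ℝ S)) ℂ).toMonoidHom
  let τ₃ : Matrix (Fin (finrank ℝ S)) (Fin (finrank ℝ S)) ℂ →*
      Module.End ℂ (Fin (finrank ℝ S) → ℂ) :=
    (Matrix.toLinAlgEquiv' : Matrix (Fin (finrank ℝ S)) (Fin (finrank ℝ S)) ℂ ≃ₐ[ℂ] _)
  have hi1 : Function.Injective τ₁ := (LinearMap.toMatrixAlgEquiv b).injective
  have hi2 : Function.Injective τ₂ := by
    intro a b hab
    ext i j
    have := congrFun (congrFun hab i) j
    exact Complex.ofReal_injective this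
  have hi3 : Function.Injective τ₃ :=
    (Matrix.toLinAlgEquiv' : Matrix (Fin (finrank ℝ S)) (Fin (finrank ℝ S)) ℂ ≃ₐ[ℂ] _).injective
  let τ := (τ₃.comp τ₂).comp τ₁
  have hi : Function.Injective τ := (hi3.comp hi2).comp hi1
  have hch : (τ T).charpoly = T.charpoly.map (algebraMap ℝ ℂ) := by
    show (Matrix.toLin' (τ₂ (τ₁ T))).charpoly = _
    rw [Matrix.charpoly_toLin']
    show ((τ₁ T).map (algebraMap ℝ ℂ)).charpoly = _
    rw [Matrix.charpoly_map, ← LinearMap.charpoly_toMatrix T b]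
    rfl
  have h1 := mult_fin_cx h H (V := Fin (finrank ℝ S) → ℂ) (τ.comp ρ) (τ T) (fun x => by
      show τ (ρ x) * τ T = τ T * τ (ρ x)
      rw [← map_mul, hT, map_mul]) (fun μ => by rw [hch]; exact hmult μ)
  refine Set.Finite.of_finite_image (f := τ) (h1.subset ?_) hi.injOn
  rintro _ ⟨_, ⟨x, rfl⟩, rfl⟩
  exact ⟨x, rfl⟩

end alg

end Pool.Agent.H244.Zm
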