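import Pool.Agent.H244.Zm10

/-!
# Nondegenerate periodic points have finite orbits
-/

set_option autoImplicit false
set_option linter.unusedSectionVars false

namespace Pool.Agent.H244.Zm

open Filter Topology Set Module
open scoped Manifold ContDiff
open Pool.Agent.H721R2 Pool.Agent.H789R2.AN Pool.Agent.H244.Loc
open Pool.Agent.N829.PR (inChart inChart_fix inChart_diff inChart_id thurston_man)

section alg

variable {E : Type*} [NormedAddCommGroup E] [NormedSpace ℝ E] [FiniteDimensional ℝ E]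

/-- `det (A - 1)` -/
noncomputable def dd (A : E →L[ℝ] E) : ℝ := LinearMap.det ((A - 1 : E →L[ℝ] E) : E →ₗ[ℝ] E)

theorem dd_ne {A : E →L[ℝ] E} : dd A ≠ 0 ↔ ∀ v, A v = v → v = 0 := by
  unfold dd
  rw [Ne, LinearMap.det_eq_zero_iff_ker_ne_bot, not_ne_iff, LinearMap.ker_eq_bot']
  refine forall_congr' fun v => ?_
  have : ((A - 1 : E →L[ℝ] E) : E →ₗ[ℝ] E) v = A v - v := rfl
  rw [this, sub_eq_zero]

theorem dd_cont : Continuous (dd : (E →L[ℝ] E) → ℝ) := by
  have h1 : Continuous fun A : E →L[ℝ] E => (A - 1).det :=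
    ContinuousLinearMap.continuous_det.comp (continuous_id.sub continuous_const)
  exact h1

theorem dd_conj {A B P : E →L[ℝ] E} (hP : Function.Injective P) (h : ∀ v, B (P v) = P (A v)) :
    dd B = dd A := by
  have h1 : ((B - 1 : E →L[ℝ] E) : E →ₗ[ℝ] E) * (P : E →ₗ[ℝ] E) =
      (P : E →ₗ[ℝ] E) * ((A - 1 : E →L[ℝ] E) : E →ₗ[ℝ] E) := by
    ext v
    show B (P v) - P v = P (A v - v)
    rw [h, map_sub]
  have h2 := congrArg LinearMap.det h1
  rw [map_mul, map_mul, mul_comm] at h2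
  have h3 : LinearMap.det (P : E →ₗ[ℝ] E) ≠ 0 := by
    rw [Ne, LinearMap.det_eq_zero_iff_ker_ne_bot, not_ne_iff]
    exact LinearMap.ker_eq_bot.2 hP
  exact mul_left_cancel₀ h3 h2

end alg

section orb

variable {E : Type*} [NormedAddCommGroup E] [NormedSpace ℝ E] [FiniteDimensional ℝ E]
  {M : Type*} [MetricSpace M] [CompactSpace M] [ChartedSpace E M] [IsManifold 𝓘(ℝ, E) 1 M]
  {F : Type*} [NormedAddCommGroup F] [NormedSpace ℝ F] {e : M → F} {Γ : Type*} [Group Γ]

/-- a nondegenerate fixed point of a map commuting with the action has a finite orbit -/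
theorem orbit_fin (he : ContMDiff 𝓘(ℝ, E) 𝓘(ℝ, F) 1 e)
    (hinj : ∀ x, Function.Injective (dm E e x)) (α : Γ →* Equiv.Perm M)
    (hα : ∀ γ, ContMDiff 𝓘(ℝ, E) 𝓘(ℝ, E) 1 (α γ)) {G : M → M}
    (hG : ContMDiff 𝓘(ℝ, E) 𝓘(ℝ, E) 1 G) (hcomm : ∀ γ x, α γ (G x) = G (α γ x)) {p : M}
    (hp : G p = p) (hnd : ∀ v, dg E G p v = v → v = 0) : (range fun γ => α γ p).Finite := by
  by_contra hinf
  obtain ⟨q, hq⟩ := Set.Infinite.exists_accPt_principal hinf
  rw [accPt_iff_frequently] at hq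
  have hfixO : ∀ γ, G (α γ p) = α γ p := fun γ => by rw [← hcomm, hp]
  have hGq : G q = q := by
    have h1 : ∃ᶠ x in 𝓝 q, G x = x := by
      refine hq.mono ?_
      rintro x ⟨-, γ, rfl⟩
      exact hfixO γ
    exact (isClosed_iff_frequently.1 (isClosed_eq hG.continuous continuous_id)) q h1
  set c := extChartAt 𝓘(ℝ, E) q with hc
  have hqs : q ∈ c.source := mem_extChartAt_source q
  -- the derivatives on the orbit
  have hconj : ∀ γ, dd (dg E G (α γ p)) = dd (dg E G p) := by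
    intro γ
    refine dd_conj (P := dg E (α γ) p) ?_ ?_
    · intro v w hvw
      have h1 := dg_inv (α γ) (α γ⁻¹) (hα γ) (hα γ⁻¹) (fun x => by
        show α γ⁻¹ (α γ x) = x
        rw [map_inv]
        exact (α γ).symm_apply_apply x) p
      rw [← h1 v, ← h1 w, hvw]
    · intro v
      have h1 := dg_comp G (α γ) hG (hα γ) p v
      have h2 := dg_comp (α γ) G (hα γ) hG p v
      have h3 : (α γ : M → M) ∘ G = G ∘ α γ := funext fun x => hcomm γ x
      rw [hp] at h1
      rw [← h2, ← h3, h1]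
  have hD : ∀ x ∈ c.source, G x = x →
      dd (fderiv ℝ (rep G q q) (c x)) = dd (dg E G x) := by
    intro x hx hGx
    refine dd_conj (P := dm E c x) (Dc_inj he hinj hx) fun v => ?_
    have := rep_fderiv hG hx (by rw [hGx]; exact hx) v
    rw [hGx] at this
    exact this
  have hcd : ContDiffAt ℝ 1 (rep G q q) (c q) :=
    rep_contDiffAt hG (c.map_source hqs) (by
      show G (c.symm (c q)) ∈ c.source
      rw [c.left_inv hqs, hGq]
      exact hqs)
  have hcont : ContinuousAt (fun x => dd (fderiv ℝ (rep G q q) (c x))) q := by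
    have h1 : ContinuousAt (fderiv ℝ (rep G q q)) (c q) :=
      (hcd.fderiv_right (m := 0) (by norm_num)).continuousAt
    have h2 : ContinuousAt c q := continuousAt_extChartAt q
    exact dd_cont.continuousAt.comp (ContinuousAt.comp (f := c) h1 h2)
  have hsrc : ∀ᶠ x in 𝓝 q, x ∈ c.source := extChartAt_source_mem_nhds q
  have hddq : dd (fderiv ℝ (rep G q q) (c q)) = dd (dg E G p) := by
    by_contra hne
    have h1 := hcont.eventually_ne hne
    obtain ⟨x, ⟨-, γ, rfl⟩, h2, h3⟩ := (hq.and_eventually (h1.and hsrc)).exists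
    exact h2 ((hD _ h3 (hfixO γ)).trans (hconj γ))
  have hnz : dd (fderiv ℝ (rep G q q) (c q)) ≠ 0 := by
    rw [hddq]
    exact dd_ne.2 hnd
  have hinjB := dd_ne.1 hnz
  set B := fderiv ℝ (rep G q q) (c q) with hB
  obtain ⟨κ, hκ, hbd⟩ := inj_bound (B - 1) (by
    rw [injective_iff_map_eq_zero]
    intro v hv
    apply hinjB
    have : (B - 1) v = B v - v := rfl
    rw [this] at hv
    exact sub_eq_zero.1 hv)
  have hst : HasStrictFDerivAt (rep G q q) B (c q) := hcd.hasStrictFDerivAt (by norm_num)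
  obtain ⟨r, hr, hball⟩ := strict_ball hst (half_pos hκ)
  have hnear : ∀ᶠ x in 𝓝 q, ‖c x - c q‖ ≤ r := by
    have h2 : ContinuousAt c q := continuousAt_extChartAt q
    have h3 := Metric.continuousAt_iff'.1 h2 r hr
    exact h3.mono fun x hx => by rw [← dist_eq_norm]; exact hx.le
  obtain ⟨x, ⟨hxq, γ, rfl⟩, h2, h3⟩ := (hq.and_eventually (hnear.and hsrc)).exists
  have h4 := hball (c (α γ p)) (c q) h2 (by simp [hr.le])
  have h5 : rep G q q (c (α γ p)) = c (α γ p) := by
    show c (G (c.symm (c (α γ p)))) = c (α γ p)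
    rw [c.left_inv h3, hfixO]
  have h6 : rep G q q (c q) = c q := by
    show c (G (c.symm (c q))) = c q
    rw [c.left_inv hqs, hGq]
  rw [h5, h6] at h4
  have h7 := hbd (c (α γ p) - c q)
  have h8 : ‖(B - 1) (c (α γ p) - c q)‖ = ‖c (α γ p) - c q - B (c (α γ p) - c q)‖ := by
    rw [norm_sub_rev]
    rfl
  rw [h8] at h7
  have h9 : ‖c (α γ p) - c q‖ ≤ 0 := by nlinarith
  have h10 : c (α γ p) = c q := by
    have := norm_le_zero_iff.1 h9
    exact sub_eq_zero.1 this
  exact hxq (c.injOn h3 hqs h10)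

end orb

section man

variable {E : Type*} [NormedAddCommGroup E] [NormedSpace ℝ E] [FiniteDimensional ℝ E]
  {M : Type*} [TopologicalSpace M] [ChartedSpace E M] [T2Space M] [ConnectedSpace M]
  {Γ : Type*} [Group Γ]

/-- a finite index subgroup fixing a point, with trivial derivatives -/
theorem man_triv {N : ℕ} (hN : 3 ≤ N) (hΓ : SmallReps ℝ N Γ) (H₁ : Subgroup Γ) [H₁.FiniteIndex]
    (φ : Γ →* Equiv.Perm M) (hφ : ∀ g, ContMDiff 𝓘(ℝ, E) 𝓘(ℝ, E) 1 (φ g)) (p : M)
    (hfix₁ : ∀ g : H₁, φ g p = p)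
    (hder₁ : ∀ g : H₁, fderiv ℝ (inChart ℝ p (φ g)) (extChartAt 𝓘(ℝ, E) p p) =
      ContinuousLinearMap.id ℝ E) : Finite φ.range := by
  classical
  have hfg : Group.FG Γ := hΓ.1
  have hH₁fg : Group.FG H₁ := inferInstance
  have hab : ∀ f : H₁ →* Multiplicative E, f = 1 := fun f => no_hom' hN hΓ H₁ f
  -- the open and closed set
  obtain ⟨S, hS, hSf⟩ := Monoid.fg_iff.1 (Group.fg_iff_monoid_fg.1 hH₁fg)
  let A : Set M := {q | ∀ᶠ z in 𝓝 q, ∀ s ∈ S, φ s z = z}
  have hall : ∀ q : M, (∀ s ∈ S, φ s q = q) → ∀ g : H₁, φ g q = q := by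
    intro q hq g
    have hg : g ∈ Submonoid.closure S := by rw [hS]; trivial
    induction hg using Submonoid.closure_induction with
    | mem s hs => exact hq s hs
    | one => rw [Subgroup.coe_one, map_one, Equiv.Perm.one_apply]
    | mul g h _ _ hg hh => rw [Subgroup.coe_mul, map_mul, Equiv.Perm.mul_apply, hh, hg]
  have hloc : ∀ q : M, (∀ g : H₁, φ g q = q) →
      (∀ g : H₁, fderiv ℝ (inChart ℝ q (φ g)) (extChartAt 𝓘(ℝ, E) q q) =
        ContinuousLinearMap.id ℝ E) → q ∈ A := by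
    intro q hq hq2
    refine (eventually_all_finite hSf).2 fun s _ => ?_
    exact thurston_man hH₁fg hab (φ.comp H₁.subtype) (fun g => hφ g) q hq hq2 s
  have hopen : IsOpen A := isOpen_setOfPred_eventually_nhds
  have hclosed : IsClosed A := by
    rw [isClosed_iff_frequently]
    intro q hq
    have hqf : ∀ g : H₁, φ g q = q := by
      refine hall q fun s hs => ?_
      exact (isClosed_iff_frequently.1 (isClosed_eq (hφ s).continuous continuous_id)) q
        (hq.mono fun z hz => hz.self_of_nhds s hs)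
    refine hloc q hqf fun g => ?_
    by_contra hne
    have hcont : ContinuousAt (fderiv ℝ (inChart ℝ q (φ g))) (extChartAt 𝓘(ℝ, E) q q) :=
      ((inChart_diff (𝕜 := ℝ) (hqf g) (hφ g)).fderiv_right (m := 0) (by norm_num)).continuousAt
    have hev := hcont.eventually_ne hne
    have hcc : ContinuousAt (extChartAt 𝓘(ℝ, E) q) q := continuousAt_extChartAt q
    have hev2 := hcc.eventually hev
    obtain ⟨z, hzA, hz1, hz2⟩ := (hq.and_eventually
      (hev2.and (extChartAt_source_mem_nhds (I := 𝓘(ℝ, E)) q))).exists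
    have hz3 : ∀ᶠ x in 𝓝 z, φ g x = x := hzA.mono fun x hx => hall x hx g
    have hz4 : inChart ℝ q (φ g) =ᶠ[𝓝 (extChartAt 𝓘(ℝ, E) q z)] id := inChart_id hz2 hz3
    apply hz1
    rw [hz4.fderiv_eq, fderiv_id]
  have huniv : A = Set.univ := IsClopen.eq_univ ⟨hclosed, hopen⟩ ⟨p, hloc p hfix₁ hder₁⟩
  have hle : H₁ ≤ φ.ker := by
    intro g hg
    rw [MonoidHom.mem_ker]
    ext q
    have hq : q ∈ A := by rw [huniv]; trivial
    exact hall q hq.self_of_nhds ⟨g, hg⟩
  have hkf : φ.ker.FiniteIndex := Subgroup.finiteIndex_of_le hle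
  have hq : Finite (Γ ⧸ φ.ker) := Subgroup.finite_quotient_of_finiteIndex
  exact Finite.of_equiv _ (QuotientGroup.quotientKerEquivRange φ).toEquiv

/-- the derivative at a point with finite orbit has finite image -/
theorem man_fin [IsManifold 𝓘(ℝ, E) 1 M] {N : ℕ} (hN : 3 ≤ N) (hΓ : SmallReps ℝ N Γ)
    (α : Γ →* Equiv.Perm M) (hα : ∀ γ, ContMDiff 𝓘(ℝ, E) 𝓘(ℝ, E) 1 (α γ)) (p : M)
    (hfin : (range fun γ => α γ p).Finite)
    (hρ : (range (Dp (α.comp (stab α p).subtype) (fun γ => hα γ) p (fun γ => γ.2))).Finite) :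
    Finite α.range := by
  have hst : (stab α p).FiniteIndex := stab_fi α p hfin
  have hK := ker_fi _ hρ
  have hH := map_fi (H := stab α p) hK
  refine man_triv hN hΓ ((Dp (α.comp (stab α p).subtype) (fun γ => hα γ) p
    (fun γ => γ.2)).ker.map (stab α p).subtype) α hα p ?_ ?_
  · rintro ⟨_, x, -, rfl⟩
    exact x.2
  · rintro ⟨_, x, hx, rfl⟩
    have h1 : Dp (α.comp (stab α p).subtype) (fun γ => hα γ) p (fun γ => γ.2) x = 1 := hx
    have h2 := dg_inChart (E := E) (hα (x : Γ)) x.2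
    show fderiv ℝ (inChart ℝ p (α x)) (extChartAt 𝓘(ℝ, E) p p) = _
    rw [h2]
    ext v
    exact LinearMap.congr_fun h1 v

end man

end Pool.Agent.H244.Zm
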