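import Pool.Agent.H244.Zm11

/-!
# Representations commuting with an endomorphism with small geometric multiplicities
-/

set_option autoImplicit false
set_option linter.unusedSectionVars false

namespace Pool.Agent.H244.Zm

open Filter Topology Set Module
open scoped TensorProduct

section quot

variable {K V : Type*} [Field K] [AddCommGroup V] [Module K V] [FiniteDimensional K V]

/-- the kernel does not grow in a quotient by an invariant subspace -/
theorem ker_quot_le (S : Module.End K V) (W : Submodule K V) (h : W ≤ W.comap S) :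
    finrank K (LinearMap.ker (W.mapQ W S h)) ≤ finrank K (LinearMap.ker S) := by
  let φ : W.comap S →ₗ[K] (V ⧸ W) := W.mkQ.comp (W.comap S).subtype
  let ψ : W.comap S →ₗ[K] W :=
    { toFun := fun v => ⟨S v, v.2⟩
      map_add' := fun v w => Subtype.ext (by
        show S ((v : V) + w) = S v + S w
        rw [map_add])
      map_smul' := fun c v => Subtype.ext (by
        show S (c • (v : V)) = c • S v
        rw [map_smul]) }
  have h1 := LinearMap.finrank_range_add_finrank_ker φ
  have h2 := LinearMap.finrank_range_add_finrank_ker ψ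
  have h3 : LinearMap.range φ = LinearMap.ker (W.mapQ W S h) := by
    ext x
    constructor
    · rintro ⟨v, rfl⟩
      rw [LinearMap.mem_ker]
      show W.mapQ W S h (W.mkQ v) = 0
      rw [Submodule.mkQ_apply, Submodule.mapQ_apply]
      exact (Submodule.Quotient.mk_eq_zero W).2 v.2
    · intro hx
      obtain ⟨v, rfl⟩ := W.mkQ_surjective x
      rw [LinearMap.mem_ker, Submodule.mkQ_apply, Submodule.mapQ_apply] at hx
      exact ⟨⟨v, (Submodule.Quotient.mk_eq_zero W).1 hx⟩, rfl⟩
  have h4 : finrank K (LinearMap.ker φ) = finrank K W := by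
    refine LinearEquiv.finrank_eq
      { toFun := fun v => ⟨(v : W.comap S), ?_⟩
        invFun := fun w => ⟨⟨w, h w.2⟩, ?_⟩
        left_inv := fun v => rfl
        right_inv := fun v => rfl
        map_add' := fun v w => rfl
        map_smul' := fun c v => rfl }
    · have h5 : W.mkQ ((v : W.comap S) : V) = 0 := v.2
      exact (Submodule.Quotient.mk_eq_zero W).1 h5
    · rw [LinearMap.mem_ker]
      exact (Submodule.Quotient.mk_eq_zero W).2 w.2
  have h5 : finrank K (LinearMap.ker ψ) ≤ finrank K (LinearMap.ker S) := by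
    refine LinearMap.finrank_le_finrank_of_injective (f :=
      { toFun := fun v : LinearMap.ker ψ => (⟨((v : W.comap S) : V), ?_⟩ : LinearMap.ker S)
        map_add' := fun v w => rfl
        map_smul' := fun c v => rfl }) ?_
    · have h6 : ψ v = 0 := v.2
      exact congrArg Subtype.val h6
    · intro v w hvw
      have h7 : ((v : W.comap S) : V) = ((w : W.comap S) : V) :=
        congrArg (fun z : LinearMap.ker S => (z : V)) hvw
      exact Subtype.ext (Subtype.ext h7)
  have h6 : finrank K (LinearMap.range ψ) ≤ finrank K W := Submodule.finrank_le _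
  rw [h3] at h1
  omega

end quot

variable {Γ : Type*} [Group Γ]

theorem SmallReps.sub {K : Type} [Field K] {N : ℕ} (h : SmallReps K N Γ) (H : Subgroup Γ)
    [hH : H.FiniteIndex] : SmallReps K N H := by
  have := h.1
  refine ⟨inferInstance, fun L hL m hm ρ => ?_⟩
  have h1 : (L.map H.subtype).FiniteIndex := map_fi hL
  let e : L ≃* L.map H.subtype := L.equivMapOfInjective H.subtype H.subtype_injective
  have h2 := h.2 (L.map H.subtype) m hm (ρ.comp e.symm.toMonoidHom)
  refine h2.subset ?_
  rintro _ ⟨x, rfl⟩
  refine ⟨e x, ?_⟩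
  show ρ (e.symm (e x)) = ρ x
  rw [e.symm_apply_apply]

/-- unipotent representations are trivial -/
theorem unip {N : ℕ} (hN : 3 ≤ N) (h : SmallReps ℝ N Γ) (H : Subgroup Γ) [hH : H.FiniteIndex]
    {V : Type*} [AddCommGroup V] [Module ℂ V] (ρ : H →* Module.End ℂ V)
    (W : Submodule ℂ V) (h1 : ∀ x, ∀ w ∈ W, ρ x w = w) (h2 : ∀ x v, ρ x v - v ∈ W) (x : H) :
    ρ x = 1 := by
  let θ : H →* Multiplicative (Module.End ℂ V) :=
    { toFun := fun x => Multiplicative.ofAdd (ρ x - 1)
      map_one' := by
        rw [map_one, sub_self]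
        rfl
      map_mul' := fun a b => by
        rw [← ofAdd_add]
        congr 1
        ext v
        rw [map_mul]
        show ρ a (ρ b v) - v = (ρ a v - v) + (ρ b v - v)
        have h3 := h1 a _ (h2 b v)
        rw [map_sub] at h3
        rw [sub_eq_iff_eq_add.1 h3]
        abel }
  have h3 := no_hom' hN h H θ
  have h4 : Multiplicative.toAdd (θ x) = 0 := by rw [h3]; rfl
  exact sub_eq_zero.1 h4

theorem geo_fin_cx {N : ℕ} (hN : 3 ≤ N) : ∀ (d : ℕ) {Γ : Type*} [Group Γ] (_ : SmallReps ℂ N Γ)
    {V : Type*} [AddCommGroup V] [Module ℂ V] [FiniteDimensional ℂ V] (_ : finrank ℂ V = d)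
    (ρ : Γ →* Module.End ℂ V) (T : Module.End ℂ V) (_ : ∀ x, ρ x * T = T * ρ x)
    (_ : ∀ μ : ℂ, finrank ℂ (T.eigenspace μ) < N), (Set.range ρ).Finite := by
  intro d
  induction d using Nat.strong_induction_on with
  | _ d ih =>
    intro Γ _ h V _ _ _ hd ρ T hT hgeo
    rcases Nat.eq_zero_or_pos d with hd0 | hdpos
    · have hs : Subsingleton V := by
        rw [← Module.finrank_zero_iff (R := ℂ), hd, hd0]
      have hs2 : Subsingleton (Module.End ℂ V) :=
        ⟨fun a b => LinearMap.ext fun v => Subsingleton.elim _ _⟩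
      exact Set.toFinite _
    · have hnt : Nontrivial V := Module.nontrivial_of_finrank_pos (R := ℂ) (by omega)
      obtain ⟨μ, hμ⟩ := Module.End.exists_eigenvalue T
      set W := Module.End.eigenspace T μ with hW
      have hWne : W ≠ ⊥ := hμ
      have hinv : ∀ (x : Γ) (v : V), v ∈ W → ρ x v ∈ W := by
        intro x v hv
        rw [hW, Module.End.mem_eigenspace_iff] at hv ⊢
        have h1 : ρ x (T v) = T (ρ x v) := LinearMap.congr_fun (hT x) v
        rw [← h1, hv, map_smul]
      have hTW : ∀ v ∈ W, T v ∈ W := by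
        intro v hv
        have h1 : T v = μ • v := (Module.End.mem_eigenspace_iff).1 hv
        rw [h1]
        exact W.smul_mem _ hv
      let ρW : Γ →* Module.End ℂ W :=
        { toFun := fun x =>
            { toFun := fun v => ⟨ρ x v, hinv x v v.2⟩
              map_add' := fun v w => Subtype.ext (by
                show ρ x ((v : V) + w) = ρ x v + ρ x w
                rw [map_add])
              map_smul' := fun c v => Subtype.ext (by
                show ρ x (c • (v : V)) = c • ρ x v
                rw [map_smul]) }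
          map_one' := LinearMap.ext fun v => Subtype.ext (by
            show ρ 1 (v : V) = v
            rw [map_one]
            rfl)
          map_mul' := fun a b => LinearMap.ext fun v => Subtype.ext (by
            show ρ (a * b) (v : V) = ρ a (ρ b v)
            rw [map_mul]
            rfl) }
      let ρQ : Γ →* Module.End ℂ (V ⧸ W) :=
        { toFun := fun x => W.mapQ W (ρ x) (fun v hv => hinv x v hv)
          map_one' := by
            refine LinearMap.ext fun v => ?_
            obtain ⟨v, rfl⟩ := W.mkQ_surjective v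
            rw [Submodule.mkQ_apply, Submodule.mapQ_apply, map_one]
            rfl
          map_mul' := fun a b => by
            refine LinearMap.ext fun v => ?_
            obtain ⟨v, rfl⟩ := W.mkQ_surjective v
            rw [Submodule.mkQ_apply, Submodule.mapQ_apply, map_mul]
            rfl }
      have hWfin : (Set.range ρW).Finite := by
        have h1 := fin_rep h ⊤ (V := W) (hgeo μ) (ρW.comp (Subgroup.topEquiv.toMonoidHom))
        refine h1.subset ?_
        rintro _ ⟨x, rfl⟩
        exact ⟨⟨x, trivial⟩, rfl⟩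
      have hQd : finrank ℂ (V ⧸ W) < d := by
        have h1 := Submodule.finrank_quotient_add_finrank W
        have h2 : 0 < finrank ℂ W := by
          rw [Nat.pos_iff_ne_zero]
          intro h3
          exact hWne (Submodule.finrank_eq_zero.1 h3)
        omega
      have hQfin : (Set.range ρQ).Finite := by
        refine ih _ hQd h rfl ρQ (W.mapQ W T hTW) (fun x => ?_) (fun ν => ?_)
        · refine LinearMap.ext fun v => ?_
          obtain ⟨v, rfl⟩ := W.mkQ_surjective v
          show W.mapQ W (ρ x) (fun v hv => hinv x v hv) (W.mapQ W T hTW (W.mkQ v)) =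
            W.mapQ W T hTW (W.mapQ W (ρ x) (fun v hv => hinv x v hv) (W.mkQ v))
          simp only [Submodule.mkQ_apply, Submodule.mapQ_apply]
          have h1 : ρ x (T v) = T (ρ x v) := LinearMap.congr_fun (hT x) v
          rw [h1]
        · refine lt_of_le_of_lt ?_ (hgeo ν)
          have h1 : W ≤ W.comap (T - algebraMap ℂ (Module.End ℂ V) ν) := by
            intro v hv
            show T v - ν • v ∈ W
            exact W.sub_mem (hTW v hv) (W.smul_mem _ hv)
          have h2 := ker_quot_le (T - algebraMap ℂ (Module.End ℂ V) ν) W h1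
          have h3 : W.mapQ W (T - algebraMap ℂ (Module.End ℂ V) ν) h1 =
              W.mapQ W T hTW - algebraMap ℂ (Module.End ℂ (V ⧸ W)) ν := by
            refine LinearMap.ext fun v => ?_
            obtain ⟨v, rfl⟩ := W.mkQ_surjective v
            rfl
          rw [h3] at h2
          rw [Module.End.eigenspace_def, Module.End.eigenspace_def]
          exact h2
      have hK1 := ker_fi ρW hWfin
      have hK2 := ker_fi ρQ hQfin
      let K : Subgroup Γ := ρW.ker ⊓ ρQ.ker
      have hK : K.FiniteIndex := inferInstance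
      have hone : ∀ x ∈ K, ρ x = 1 := by
        intro x hx
        refine unip hN h.real K (ρ.comp K.subtype) W (fun y w hw => ?_) (fun y v => ?_) ⟨x, hx⟩
        · have h1 : ρW y = 1 := y.2.1
          have h2 := congrArg (fun S : Module.End ℂ W => ((S ⟨w, hw⟩ : W) : V)) h1
          exact h2
        · have h1 : ρQ y = 1 := y.2.2
          have h2 := congrArg (fun S : Module.End ℂ (V ⧸ W) => S (W.mkQ v)) h1
          have h3 : W.mkQ (ρ y v) = W.mkQ v := h2
          have h4 : W.mkQ (ρ y v - v) = 0 := by rw [map_sub, h3, sub_self]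
          exact (Submodule.Quotient.mk_eq_zero W).1 h4
      exact finite_of_ker ρ K hone

/-- real representations -/
theorem geo_fin {N : ℕ} (hN : 3 ≤ N) (h : SmallReps ℂ N Γ) (H : Subgroup Γ) [hH : H.FiniteIndex]
    {S : Type*} [AddCommGroup S] [Module ℝ S] [FiniteDimensional ℝ S] (ρ : H →* Module.End ℝ S)
    (T : Module.End ℝ S) (hT : ∀ x, ρ x * T = T * ρ x)
    (hgeo : ∀ μ : ℂ, finrank ℂ (Module.End.eigenspace (T.baseChange ℂ) μ) < N) :
    (Set.range ρ).Finite := by
  let τ : Module.End ℝ S →* Module.End ℂ (ℂ ⊗[ℝ] S) :=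
    (Module.End.baseChangeHom ℝ ℂ S : Module.End ℝ S →ₐ[ℝ] Module.End ℂ (ℂ ⊗[ℝ] S))
  have hi : Function.Injective τ := by
    intro a b hab
    ext v
    have h1 := congrArg (fun L : Module.End ℂ (ℂ ⊗[ℝ] S) => L (1 ⊗ₜ v)) hab
    have h2 : (1 : ℂ) ⊗ₜ[ℝ] (a v) = (1 : ℂ) ⊗ₜ[ℝ] (b v) := h1
    exact Module.Flat.tensorProduct_mk_injective ℝ S ℂ h2
  have h1 := geo_fin_cx hN _ (h.sub H) (V := ℂ ⊗[ℝ] S) rfl (τ.comp ρ) (τ T) (fun x => by
      show τ (ρ x) * τ T = τ T * τ (ρ x)
      rw [← map_mul, hT, map_mul]) (fun μ => hgeo μ)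
  refine Set.Finite.of_finite_image (f := τ) (h1.subset ?_) hi.injOn
  rintro _ ⟨_, ⟨x, rfl⟩, rfl⟩
  exact ⟨x, rfl⟩

end Pool.Agent.H244.Zm
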