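import Pool.Agent.H244.Zm4
import Pool.Graph.R_pool_sql_team_seeded_1acbe0a2.Y328.PFin
import Pool.Graph.R_pool_sql_team_seeded_63374d34.N702.CP.GEN

/-!
# Lattices without small representations
-/

set_option autoImplicit false
set_option linter.unusedSectionVars false

namespace Pool.Agent.H244.Zm

open NumberField Matrix

section fg

variable {G : Type*} [Group G]

/-- a group with a finitely generated subgroup of finite index is finitely generated -/
theorem fg_over (Γ K : Subgroup G) (hK : K ≤ Γ) (hfi : (K.subgroupOf Γ).FiniteIndex)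
    (hfg : K.FG) : Γ.FG := by
  classical
  obtain ⟨s, hs⟩ := hfg
  have hfin : Finite (Γ ⧸ K.subgroupOf Γ) := Subgroup.finite_quotient_of_finiteIndex
  let R : Set G := Set.range fun q : Γ ⧸ K.subgroupOf Γ => ((q.out : Γ) : G)
  have hR : R.Finite := Set.finite_range _
  rw [Subgroup.fg_iff]
  refine ⟨s ∪ R, ?_, s.finite_toSet.union hR⟩
  apply le_antisymm
  · rw [Subgroup.closure_le]
    rintro x (hx | ⟨q, rfl⟩)
    · exact hK (hs ▸ Subgroup.subset_closure hx)
    · exact (q.out).2
  · intro x hx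
    have h1 : ((QuotientGroup.mk (⟨x, hx⟩ : Γ) : Γ ⧸ K.subgroupOf Γ).out)⁻¹ * ⟨x, hx⟩ ∈
        K.subgroupOf Γ := by
      rw [← QuotientGroup.eq, QuotientGroup.out_eq']
    rw [Subgroup.mem_subgroupOf] at h1
    set r := (QuotientGroup.mk (⟨x, hx⟩ : Γ) : Γ ⧸ K.subgroupOf Γ).out with hr
    have h2 : (r : G) ∈ Subgroup.closure ((s : Set G) ∪ R) :=
      Subgroup.subset_closure (Or.inr ⟨_, rfl⟩)
    have h3 : ((r⁻¹ * ⟨x, hx⟩ : Γ) : G) ∈ Subgroup.closure ((s : Set G) ∪ R) := by
      rw [← hs] at h1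
      exact Subgroup.closure_mono Set.subset_union_left h1
    have h4 := Subgroup.mul_mem _ h2 h3
    have h5 : (r : G) * ((r⁻¹ * ⟨x, hx⟩ : Γ) : G) = x := by
      show (r : G) * ((r : G)⁻¹ * x) = x
      group
    rwa [h5] at h4

theorem fg_comm {Γ E : Subgroup G} (h : Subgroup.Commensurable Γ E) (hE : E.FG) : Γ.FG := by
  have hE' : Group.FG E := (Group.fg_iff_subgroup_fg E).2 hE
  have h1 : (Γ.subgroupOf E).FiniteIndex := ⟨h.1⟩
  have h2 : (E.subgroupOf Γ).FiniteIndex := ⟨h.2⟩
  have h3 : Group.FG (Γ.subgroupOf E) := inferInstance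
  have h4 : (Γ.subgroupOf E).FG := (Group.fg_iff_subgroup_fg _).1 h3
  have h5 : ((Γ.subgroupOf E).map E.subtype).FG := by
    obtain ⟨s, hs⟩ := h4
    classical
    refine ⟨s.image E.subtype, ?_⟩
    rw [Finset.coe_image, ← MonoidHom.map_closure, hs]
  rw [Subgroup.subgroupOf_map_subtype] at h5
  refine fg_over Γ (Γ ⊓ E) inf_le_left ?_ h5
  rwa [Subgroup.inf_subgroupOf_left]

end fg

/-- the group generated by the elementary matrices with entries in a finitely generated additive
group -/
theorem elem_fg {k : Type} [CommRing k] {n : ℕ} (A : AddSubgroup k) (hA : A.FG) :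
    (Subgroup.closure {x : SpecialLinearGroup (Fin n) k | ∃ (i j : Fin n) (h : i ≠ j) (a : k),
      a ∈ A ∧ x = SpecialLinearGroup.transvection h a}).FG := by
  classical
  obtain ⟨t, ht⟩ := hA
  rw [Subgroup.fg_iff]
  let S : Set (SpecialLinearGroup (Fin n) k) := ⋃ p : {p : Fin n × Fin n // p.1 ≠ p.2},
    (fun a : k => SpecialLinearGroup.transvection p.2 a) '' t
  have hS : S.Finite := Set.finite_iUnion fun p => t.finite_toSet.image _
  refine ⟨S, ?_, hS⟩
  apply le_antisymm
  · rw [Subgroup.closure_le]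
    intro x hx
    obtain ⟨p, a, ha, rfl⟩ := Set.mem_iUnion.1 hx
    exact Subgroup.subset_closure ⟨_, _, p.2, a, ht ▸ AddSubgroup.subset_closure ha, rfl⟩
  · rw [Subgroup.closure_le]
    rintro _ ⟨i, j, h, a, ha, rfl⟩
    rw [← ht] at ha
    show SpecialLinearGroup.transvection h a ∈ Subgroup.closure S
    induction ha using AddSubgroup.closure_induction with
    | mem x hx => exact Subgroup.subset_closure (Set.mem_iUnion.2 ⟨⟨(i, j), h⟩, x, hx, rfl⟩)
    | zero =>
      have : SpecialLinearGroup.transvection h (0 : k) = 1 := by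
        apply Subtype.ext
        show transvection i j (0 : k) = 1
        rw [transvection_zero]
      rw [this]
      exact Subgroup.one_mem _
    | add x y _ _ hx hy =>
      have : SpecialLinearGroup.transvection h (x + y) =
          SpecialLinearGroup.transvection h x * SpecialLinearGroup.transvection h y := by
        apply Subtype.ext
        show transvection i j (x + y) = transvection i j x * transvection i j y
        rw [transvection_mul_transvection_same _ _ h]
      rw [this]
      exact Subgroup.mul_mem _ hx hy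
    | neg x _ hx =>
      have : SpecialLinearGroup.transvection h (-x) =
          (SpecialLinearGroup.transvection h x)⁻¹ := by
        rw [eq_inv_iff_mul_eq_one]
        apply Subtype.ext
        show transvection i j (-x) * transvection i j x = 1
        rw [transvection_mul_transvection_same _ _ h, neg_add_cancel, transvection_zero]
      rw [this]
      exact Subgroup.inv_mem _ hx

section cx

variable {k : Type} [Field k] [NumberField k]

/-- the subgroup generated by the elementary matrices over the ring of integers -/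
def EN (k : Type) [Field k] [NumberField k] (n : ℕ) : Subgroup (SpecialLinearGroup (Fin n) k) :=
  Subgroup.closure {x | ∃ (i j : Fin n) (h : i ≠ j) (a : 𝓞 k),
      x = SpecialLinearGroup.transvection h (a : k)}

theorem EN_eq (n : ℕ) : EN k n = (Pool.Agent.Y328.Elem (Fin n) (𝓞 k)).map
      (SpecialLinearGroup.map (algebraMap (𝓞 k) k)) := by
  unfold EN Pool.Agent.Y328.Elem
  rw [MonoidHom.map_closure]
  congr 1
  ext x
  constructor
  · rintro ⟨i, j, h, a, rfl⟩
    exact ⟨_, ⟨i, j, h, a, rfl⟩, Pool.Agent.Y328.map_trans _ h a⟩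
  · rintro ⟨_, ⟨i, j, h, a, rfl⟩, rfl⟩
    exact ⟨i, j, h, a, Pool.Agent.Y328.map_trans _ h a⟩

theorem EN_fg (n : ℕ) : (EN k n).FG := by
  have h1 : AddSubgroup.FG (AddMonoidHom.range (algebraMap (𝓞 k) k).toAddMonoidHom) := by
    have h2 : AddGroup.FG (𝓞 k) := by
      rw [← Module.Finite.iff_addGroup_fg]
      infer_instance
    have h3 : (⊤ : AddSubgroup (𝓞 k)).FG := h2.1
    rw [AddMonoidHom.range_eq_map]
    classical
    obtain ⟨s, hs⟩ := h3
    refine ⟨s.image (algebraMap (𝓞 k) k).toAddMonoidHom, ?_⟩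
    rw [Finset.coe_image, ← AddMonoidHom.map_closure, hs]
  have h4 := elem_fg (n := n) _ h1
  convert h4 using 2
  unfold EN
  congr 1
  ext x
  constructor
  · rintro ⟨i, j, h, a, rfl⟩
    exact ⟨i, j, h, _, ⟨a, rfl⟩, rfl⟩
  · rintro ⟨i, j, h, _, ⟨a, rfl⟩, rfl⟩
    exact ⟨i, j, h, a, rfl⟩

theorem alg_dep {m d : ℕ} (hm : m < d) (f : Fin d → MvPolynomial (Fin m) ℝ) :
    ∃ P : MvPolynomial (Fin d) ℝ, P ≠ 0 ∧
      ∀ x : Fin m → ℝ, MvPolynomial.eval (fun i => MvPolynomial.eval x (f i)) P = 0 := by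
  have h1 : ¬ AlgebraicIndependent ℝ f := by
    intro h
    have h2 := h.lift_cardinalMk_le_trdeg
    rw [MvPolynomial.trdeg_of_isDomain] at h2
    simp only [Cardinal.mk_fin, Cardinal.lift_natCast] at h2
    have : d ≤ m := by exact_mod_cast h2
    omega
  rw [algebraicIndependent_iff] at h1
  push Not at h1
  obtain ⟨P, hP, hP0⟩ := h1
  refine ⟨P, hP0, fun x => ?_⟩
  have h8 : (MvPolynomial.aeval x : MvPolynomial (Fin m) ℝ →ₐ[ℝ] ℝ).comp (MvPolynomial.aeval f) =
      MvPolynomial.aeval (fun i => MvPolynomial.eval x (f i)) := by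
    ext i
    simp
  have h9 := congrArg (fun g : MvPolynomial (Fin d) ℝ →ₐ[ℝ] ℝ => g P) h8
  simp only [AlgHom.comp_apply, hP, map_zero] at h9
  exact h9.symm

theorem lin_fin [IsTotallyComplex k] {n : ℕ} (hn : 3 ≤ n)
    (Γ : Subgroup (SpecialLinearGroup (Fin n) k)) (hΓ : Subgroup.Commensurable Γ (EN k n))
    {m : ℕ} (hm : m < 2 * (n - 1)) (ρ : Γ →* Matrix (Fin m) (Fin m) ℝ) :
    (Set.range ρ).Finite := by
  rw [EN_eq] at hΓ
  have hmul : ∀ a b : Γ, ∀ x : Fin m → ℝ, (ρ (a * b)).mulVec x = (ρ a).mulVec ((ρ b).mulVec x) := by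
    intro a b x
    rw [map_mul, mulVec_mulVec]
  have hone : ∀ x : Fin m → ℝ, (ρ 1).mulVec x = x := by
    intro x
    rw [map_one, one_mulVec]
  let α : Γ →* Equiv.Perm (Set.univ : Set (Fin m → ℝ)) :=
    { toFun := fun g =>
        { toFun := fun x => ⟨(ρ g).mulVec x, Set.mem_univ _⟩
          invFun := fun x => ⟨(ρ g⁻¹).mulVec x, Set.mem_univ _⟩
          left_inv := fun x => Subtype.ext (by
            show (ρ g⁻¹).mulVec ((ρ g).mulVec x) = x
            rw [← hmul, inv_mul_cancel, hone])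
          right_inv := fun x => Subtype.ext (by
            show (ρ g).mulVec ((ρ g⁻¹).mulVec x) = x
            rw [← hmul, mul_inv_cancel, hone]) }
      map_one' := Equiv.ext fun x => Subtype.ext (hone x)
      map_mul' := fun a b => Equiv.ext fun x => Subtype.ext (hmul a b x) }
  have h1 := Pool.Agent.Y328.main_poly k n hn Γ hΓ m Set.univ (fun f => by
    obtain ⟨P, hP, h⟩ := alg_dep hm f
    exact ⟨P, hP, fun x _ => h x⟩) α (fun g i => by
      refine ⟨∑ j, MvPolynomial.C (ρ g i j) * MvPolynomial.X j, fun x => ?_⟩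
      show (ρ g).mulVec x i = _
      rw [map_sum]
      simp [mulVec, dotProduct])
  refine Set.Finite.of_finite_image (f := fun A : Matrix (Fin m) (Fin m) ℝ =>
    (fun x : Fin m → ℝ => A.mulVec x)) ?_ ?_
  · have h2 : (Set.range fun g : Γ => fun x : Fin m → ℝ => (ρ g).mulVec x).Finite := by
      have h3 := h1.image (fun (σ : Equiv.Perm (Set.univ : Set (Fin m → ℝ))) (x : Fin m → ℝ) =>
        ((σ ⟨x, Set.mem_univ x⟩ : (Set.univ : Set (Fin m → ℝ))) : Fin m → ℝ))
      refine h3.subset ?_
      rintro _ ⟨g, rfl⟩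
      exact ⟨α g, ⟨g, rfl⟩, rfl⟩
    refine h2.subset ?_
    rintro _ ⟨_, ⟨g, rfl⟩, rfl⟩
    exact ⟨g, rfl⟩
  · intro A _ B _ hAB
    apply Matrix.mulVec_injective
    exact hAB

/-- groups commensurable with the elementary group over a totally complex field -/
theorem small_cx [IsTotallyComplex k] {n : ℕ} (hn : 3 ≤ n)
    (Γ : Subgroup (SpecialLinearGroup (Fin n) k)) (hΓ : Subgroup.Commensurable Γ (EN k n)) :
    SmallReps ℝ (2 * (n - 1)) Γ := by
  refine ⟨(Group.fg_iff_subgroup_fg Γ).2 (fg_comm hΓ (EN_fg n)), fun H hH m hm ρ => ?_⟩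
  have h1 : Subgroup.Commensurable (H.map Γ.subtype) (EN k n) := by
    refine Subgroup.Commensurable.trans ?_ hΓ
    constructor
    · rw [Subgroup.relIndex, Subgroup.subgroupOf, Subgroup.comap_map_eq_self_of_injective
        Γ.subtype_injective]
      exact hH.index_ne_zero
    · rw [Subgroup.relIndex_eq_one.2]
      · exact one_ne_zero
      · rintro _ ⟨x, -, rfl⟩
        exact x.2
  let e : H ≃* H.map Γ.subtype := H.equivMapOfInjective Γ.subtype Γ.subtype_injective
  have h2 := lin_fin hn (H.map Γ.subtype) h1 hm (ρ.comp e.symm.toMonoidHom)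
  refine h2.subset ?_
  rintro _ ⟨x, rfl⟩
  refine ⟨e x, ?_⟩
  show ρ (e.symm (e x)) = ρ x
  rw [e.symm_apply_apply]

end cx

end Pool.Agent.H244.Zm
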