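import Pool.Agent.H244.Zm7
import Pool.Agent.H244.Zm8
import Pool.Agent.H244.Main
import Pool.Graph.R_pool_sql_team_seeded_63374d34.N829.PR.Sup

/-!
# Actions commuting with an Anosov diffeomorphism: final form
-/

set_option autoImplicit false
set_option linter.unusedSectionVars false

namespace Pool.Agent.H244.Zm

open Filter Topology Set Module Metric
open scoped Manifold ContDiff
open Pool.Agent.H721R2 Pool.Agent.H789R2.AN Pool.Agent.Y321.PJ Pool.Agent.Y321.PD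
open Pool.Agent.H147R2.RI Pool.Agent.H576R3.CF

section slz

open Pool.Agent.N829.PR Pool.Agent.N702.CP

theorem slz_fg (n : ℕ) : Group.FG (SLZ n) := by
  have h1 := elem_fg (k := ℤ) (n := n) ⊤ (by
    have h2 : AddGroup.FG ℤ := inferInstance
    exact h2.1)
  have h3 : (Subgroup.closure {x : Matrix.SpecialLinearGroup (Fin n) ℤ |
      ∃ (i j : Fin n) (h : i ≠ j) (a : ℤ),
      a ∈ (⊤ : AddSubgroup ℤ) ∧ x = Matrix.SpecialLinearGroup.transvection h a}) = ⊤ := by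
    rw [← t_GEN n]
    congr 1
    ext x
    constructor
    · rintro ⟨i, j, h, a, -, rfl⟩
      exact ⟨i, j, h, a, rfl⟩
    · rintro ⟨i, j, h, a, rfl⟩
      exact ⟨i, j, h, a, trivial, rfl⟩
  rw [h3] at h1
  exact ⟨h1⟩

theorem small_slz {n : ℕ} (hn : 3 ≤ n) (Γ : Subgroup (Matrix.SpecialLinearGroup (Fin n) ℤ))
    (hΓ : Γ.FiniteIndex) (K : Type) [Field K] : SmallReps K n Γ := by
  have h1 : VP n (SLZ n) := vp (n := n) hn (fun Q _ _ h => h) (slz_fg n)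
  have h2 : VP n Γ := vp_sub h1 Γ
  exact ⟨h2.1, fun H _ m hm ρ => h2.2 H m hm K ρ⟩

end slz

section main

variable {E : Type*} [NormedAddCommGroup E] [NormedSpace ℝ E] [FiniteDimensional ℝ E]
  {M : Type*} [TopologicalSpace M] [T2Space M] [CompactSpace M] [ConnectedSpace M]
  [ChartedSpace E M] [IsManifold 𝓘(ℝ, E) ∞ M] {Γ : Type*} [Group Γ]

theorem comm_symm (f : M ≃ₜ M) (α : Γ →* Equiv.Perm M) (hcomm : ∀ γ x, α γ (f x) = f (α γ x)) :
    ∀ γ x, α γ (f.symm x) = f.symm (α γ x) := by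
  intro γ x
  apply f.injective
  rw [← hcomm, f.apply_symm_apply, f.apply_symm_apply]

/-- infinite actions need large bundles -/
theorem ranks (f : Diffeomorph 𝓘(ℝ, E) 𝓘(ℝ, E) M M 1)
    (Es Eu : ∀ x : M, Submodule ℝ (TangentSpace 𝓘(ℝ, E) x)) (hA : IsAnosov f Es Eu)
    {N : ℕ} (hN : 3 ≤ N) (hΓ : SmallReps ℝ N Γ) (α : Γ →* Equiv.Perm M)
    (hα : ∀ γ, ContMDiff 𝓘(ℝ, E) 𝓘(ℝ, E) 1 (α γ)) (hcomm : ∀ γ x, α γ (f x) = f (α γ x))
    (hinf : ¬ Finite α.range) (x : M) : N ≤ finrank ℝ (Es x) ∧ N ≤ finrank ℝ (Eu x) := by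
  obtain ⟨m, ee, hee, hemb, hinje⟩ :=
    exists_embedding_euclidean_of_compact (I := 𝓘(ℝ, E)) (M := M)
  let _ : MetricSpace M := hemb.isEmbedding.comapMetricSpace ee
  have hiso : ∀ x y : M, dist x y = ‖ee x - ee y‖ := fun x y => dist_eq_norm (ee x) (ee y)
  have he1 : ContMDiff 𝓘(ℝ, E) (𝓡 m) 1 ee := hee.of_le (by simp)
  obtain ⟨C, a, b, Ls, Lu, hE⟩ := eanosov_of_isAnosov ee he1 hinje f Es Eu hA
  obtain ⟨n, S, hn, hS⟩ := exists_sys1 hiso he1 hinje f Es Eu hA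
  obtain ⟨s, hs⟩ := Pool.Agent.H244.Main.rank_const he1 hinje hE
  obtain ⟨u, hu⟩ := Pool.Agent.H244.Main.rank_const he1 hinje hE.symm
  have hcomm' : ∀ γ x, α γ (f.toHomeomorph x) = f.toHomeomorph (α γ x) := hcomm
  constructor
  · by_contra hlt
    push Not at hlt
    apply hinf
    refine main_fin hinje hE S hn hS hN hΓ α hα hcomm' fun y => ?_
    have h1 := hs x
    have h2 := hs y
    have hlt' : finrank ℝ (Es x) < N := hlt
    show finrank ℝ (Es y) < N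
    exact (h2.trans h1.symm).trans_lt hlt'
  · by_contra hlt
    push Not at hlt
    apply hinf
    refine main_fin hinje hE.symm S.symm hn (n := n) ?_ hN hΓ α hα
      (comm_symm f.toHomeomorph α hcomm') fun y => ?_
    · show S.g.symm = _
      rw [hS]
      rfl
    · have h1 := hu x
      have h2 := hu y
      exact (h2.trans h1.symm).trans_lt hlt

theorem inv_scal (A : E →L[ℝ] E) (c : ℝ) (v : E) (h : v = c • A v) : A v = c⁻¹ • v := by
  by_cases hc : c = 0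
  · rw [hc, zero_smul] at h
    rw [h, map_zero, smul_zero]
  · rw [eq_inv_smul_iff₀ hc]
    exact h.symm

theorem rank_sum {S U : Submodule ℝ E} (h : IsCompl S U) :
    finrank ℝ S + finrank ℝ U = finrank ℝ E := Submodule.finrank_add_eq_of_isCompl h

/-- below twice the smallest degree of an infinite representation -/
theorem dim_lt (f : Diffeomorph 𝓘(ℝ, E) 𝓘(ℝ, E) M M 1)
    (Es Eu : ∀ x : M, Submodule ℝ (TangentSpace 𝓘(ℝ, E) x)) (hA : IsAnosov f Es Eu)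
    {N : ℕ} (hN : 3 ≤ N) (hΓ : SmallReps ℝ N Γ) (α : Γ →* Equiv.Perm M)
    (hα : ∀ γ, ContMDiff 𝓘(ℝ, E) 𝓘(ℝ, E) 1 (α γ)) (hcomm : ∀ γ x, α γ (f x) = f (α γ x))
    (hdim : finrank ℝ E < 2 * N) : Finite α.range := by
  by_contra hinf
  obtain ⟨x⟩ : Nonempty M := inferInstance
  obtain ⟨h1, h2⟩ := ranks f Es Eu hA hN hΓ α hα hcomm hinf x
  let Sx : Submodule ℝ E := Es x
  let Ux : Submodule ℝ E := Eu x
  have h3 : finrank ℝ Sx + finrank ℝ Ux = finrank ℝ E :=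
    rank_sum (S := Sx) (U := Ux) (hA.isCompl x)
  have h4 : N ≤ finrank ℝ Sx := h1
  have h5 : N ≤ finrank ℝ Ux := h2
  omega

/-- the extremal case -/
theorem scalar_s (f : Diffeomorph 𝓘(ℝ, E) 𝓘(ℝ, E) M M 1)
    (Es Eu : ∀ x : M, Submodule ℝ (TangentSpace 𝓘(ℝ, E) x)) (hA : IsAnosov f Es Eu)
    (htr : TopTransitive f)
    {N : ℕ} (hN : 3 ≤ N) (hΓ : SmallReps ℂ N Γ) (α : Γ →* Equiv.Perm M)
    (hα : ∀ γ, ContMDiff 𝓘(ℝ, E) 𝓘(ℝ, E) 1 (α γ)) (hcomm : ∀ γ x, α γ (f x) = f (α γ x))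
    (hinf : ¬ Finite α.range) :
    ((∀ x, finrank ℝ (Es x) = N) → ∀ k : ℕ, 1 ≤ k → ∀ p, f^[k] p = p → ∃ c : ℝ,
      ∀ v ∈ Es p, (mfderiv 𝓘(ℝ, E) 𝓘(ℝ, E) (f^[k]) p : E →L[ℝ] E) v = c • v) ∧
    ((∀ x, finrank ℝ (Eu x) = N) → ∀ k : ℕ, 1 ≤ k → ∀ p, f^[k] p = p → ∃ c : ℝ,
      ∀ v ∈ Eu p, (mfderiv 𝓘(ℝ, E) 𝓘(ℝ, E) (f^[k]) p : E →L[ℝ] E) v = c • v) := by
  obtain ⟨m, ee, hee, hemb, hinje⟩ :=
    exists_embedding_euclidean_of_compact (I := 𝓘(ℝ, E)) (M := M)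
  let _ : MetricSpace M := hemb.isEmbedding.comapMetricSpace ee
  have hiso : ∀ x y : M, dist x y = ‖ee x - ee y‖ := fun x y => dist_eq_norm (ee x) (ee y)
  have he1 : ContMDiff 𝓘(ℝ, E) (𝓡 m) 1 ee := hee.of_le (by simp)
  obtain ⟨C, a, b, Ls, Lu, hE⟩ := eanosov_of_isAnosov ee he1 hinje f Es Eu hA
  obtain ⟨n, S, hn, hS⟩ := exists_sys1 hiso he1 hinje f Es Eu hA
  have hcomm' : ∀ γ x, α γ (f.toHomeomorph x) = f.toHomeomorph (α γ x) := hcomm
  have hnw : ∀ U : Set M, IsOpen U → U.Nonempty → ∃ m : ℕ, 1 ≤ m ∧ (f^[m] '' U ∩ U).Nonempty := by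
    intro U hU hUn
    have hfU : IsOpen (f '' U) := f.toHomeomorph.isOpenMap U hU
    obtain ⟨n, _, ⟨_, ⟨x, hx, rfl⟩, rfl⟩, hy⟩ := htr (f '' U) U hfU (hUn.image f) hU hUn
    exact ⟨n + 1, by omega, f^[n] (f x), ⟨x, hx, by rw [Function.iterate_succ_apply]⟩, hy⟩
  have hgk : ∀ (k : ℕ) (x : M), (S.g^[k]) x = f^[n * k] x := by
    intro k x
    rw [hS, Function.iterate_mul]
    rfl
  have htrS : ∀ U V : Set M, IsOpen U → U.Nonempty → IsOpen V → V.Nonempty →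
      ∃ k : ℕ, (S.g^[k] '' U ∩ V).Nonempty := by
    intro U V hU hUn hV hVn
    refine trans_of_nw S (fun O hO hOn => ?_) U V hU hUn hV hVn
    obtain ⟨k, hk, hk'⟩ := nw_pow f f.continuous hnw n hn O hO hOn
    refine ⟨k, hk, ?_⟩
    have e1 : (S.g^[k]) = (f^[n * k]) := funext (hgk k)
    rwa [e1]
  have htrS' : ∀ U V : Set M, IsOpen U → U.Nonempty → IsOpen V → V.Nonempty →
      ∃ k : ℕ, (S.symm.g^[k] '' U ∩ V).Nonempty := by
    intro U V hU hUn hV hVn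
    obtain ⟨k, _, ⟨x, hx, rfl⟩, hy⟩ := htrS V U hV hVn hU hUn
    exact ⟨k, x, ⟨S.g^[k] x, hy, iterL S.g k x⟩, hx⟩
  constructor
  · intro hds k hk p hp
    exact main_scalar hinje hE S hn hS htrS hN hΓ α hα hcomm' hds hinf hk hp
  · intro hdu k hk p hp
    have hp' : f.toHomeomorph.symm^[k] p = p := by
      have h1 := iterL f.toHomeomorph k p
      have h2 : (f.toHomeomorph)^[k] p = p := hp
      rwa [h2] at h1
    obtain ⟨c, hc⟩ := main_scalar hinje hE.symm S.symm hn (n := n) (by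
      show S.g.symm = _
      rw [hS]
      rfl) htrS' hN hΓ α hα (comm_symm f.toHomeomorph α hcomm') hdu hinf hk hp'
    refine ⟨c⁻¹, fun v hv => ?_⟩
    show dg E (f.toHomeomorph^[k]) p v = c⁻¹ • v
    have h3 : dg E (f.toHomeomorph.symm^[k]) p (dg E (f.toHomeomorph^[k]) p v) = v := by
      have := dg_inv (f.toHomeomorph^[k]) (f.toHomeomorph.symm^[k])
        (iter_smooth f.toHomeomorph hE.smooth k) (iter_smooth f.toHomeomorph.symm hE.smooth' k)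
        (fun x => iterL f.toHomeomorph k x) p v
      have h2 : (f.toHomeomorph)^[k] p = p := hp
      rwa [h2] at this
    have h4 : dg E (f.toHomeomorph^[k]) p v ∈ (Eu p : Submodule ℝ E) := by
      have := hE.mapU k p v hv
      have h2 : (f.toHomeomorph)^[k] p = p := hp
      rwa [h2] at this
    have h5 := hc _ h4
    rw [h3] at h5
    exact inv_scal (E := E) (dg E (f.toHomeomorph^[k]) p) c v h5

theorem nw_of_trans {f : M ≃ₜ M} (htr : TopTransitive f) :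
    ∀ U : Set M, IsOpen U → U.Nonempty → ∃ m : ℕ, 1 ≤ m ∧ (f^[m] '' U ∩ U).Nonempty := by
  intro U hU hUn
  have hfU : IsOpen (f '' U) := f.isOpenMap U hU
  obtain ⟨n, _, ⟨_, ⟨x, hx, rfl⟩, rfl⟩, hy⟩ := htr (f '' U) U hfU (hUn.image f) hU hUn
  exact ⟨n + 1, by omega, f^[n] (f x), ⟨x, hx, by rw [Function.iterate_succ_apply]⟩, hy⟩

/-- scalar return maps have no distortion -/
theorem perDist_of_scalar {f : M → M} {N : TangentBundle 𝓘(ℝ, E) M → ℝ} (hN : IsTangentNorm N)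
    (V : ∀ x : M, Submodule ℝ (TangentSpace 𝓘(ℝ, E) x))
    (h : ∀ k : ℕ, 1 ≤ k → ∀ p, f^[k] p = p → ∃ c : ℝ,
      ∀ v ∈ V p, (mfderiv 𝓘(ℝ, E) 𝓘(ℝ, E) (f^[k]) p : E →L[ℝ] E) v = c • v) : PerDist f N V := by
  refine ⟨1, fun k p hk hp v hv w hw => ?_⟩
  obtain ⟨c, hc⟩ := h k hk p hp
  have key : ∀ u ∈ V p, N (tangentMap 𝓘(ℝ, E) 𝓘(ℝ, E) (f^[k]) ⟨p, u⟩) = |c| * N ⟨p, u⟩ := by
    intro u hu
    have h1 : tangentMap 𝓘(ℝ, E) 𝓘(ℝ, E) (f^[k]) ⟨p, u⟩ =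
        (⟨f^[k] p, (mfderiv 𝓘(ℝ, E) 𝓘(ℝ, E) (f^[k]) p : E →L[ℝ] E) u⟩ :
          TangentBundle 𝓘(ℝ, E) M) := rfl
    rw [h1, hc u hu, hp]
    exact hN.smul p c u
  rw [key v hv, key w hw, one_mul]
  apply le_of_eq
  ring

/-- the extremal case is toral -/
theorem toral (f : Diffeomorph 𝓘(ℝ, E) 𝓘(ℝ, E) M M 1)
    (hf2 : ContMDiff 𝓘(ℝ, E) 𝓘(ℝ, E) 2 f) (hf2' : ContMDiff 𝓘(ℝ, E) 𝓘(ℝ, E) 2 f.symm)
    (Es Eu : ∀ x : M, Submodule ℝ (TangentSpace 𝓘(ℝ, E) x)) (hA : IsAnosov f Es Eu)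
    (htr : TopTransitive f)
    {N : ℕ} (hN : 3 ≤ N) (hΓ : SmallReps ℂ N Γ) (α : Γ →* Equiv.Perm M)
    (hα : ∀ γ, ContMDiff 𝓘(ℝ, E) 𝓘(ℝ, E) 1 (α γ)) (hcomm : ∀ γ x, α γ (f x) = f (α γ x))
    (hinf : ¬ Finite α.range) (ds du : ℕ) (hds : ∀ x, finrank ℝ (Es x) = ds)
    (hdu : ∀ x, finrank ℝ (Eu x) = du) (h : ds = N ∨ du = N) :
    InfraToral f ∧ ∃ q : E → M, IsCoveringMap q ∧ Function.Surjective q := by
  obtain ⟨x⟩ : Nonempty M := inferInstance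
  have hr := ranks f Es Eu hA hN hΓ.real α hα hcomm hinf x
  rw [hds x, hdu x] at hr
  obtain ⟨T, -, -, hT, -⟩ := hA.rates
  have hsc := scalar_s f Es Eu hA htr hN hΓ α hα hcomm hinf
  refine main_per E M f hf2 hf2' Es Eu hA T hT ds du (by omega) (by omega) hds hdu
    (nw_of_trans (f := f.toHomeomorph) htr) ?_
  rcases h with h | h
  · right
    exact perDist_of_scalar hT Es (hsc.1 fun x => (hds x).trans h)
  · left
    exact perDist_of_scalar hT Eu (hsc.2 fun x => (hdu x).trans h)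

end main

end Pool.Agent.H244.Zm
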