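import Pool.Agent.H244.Zm12
import Pool.Agent.H244.Zm9

/-!
# Eigenvalues at the periodic points of a map commuting with a lattice action
-/

set_option autoImplicit false
set_option linter.unusedSectionVars false

namespace Pool.Agent.H244.Zm

open Filter Topology Set Module Metric
open scoped Manifold ContDiff TensorProduct
open Pool.Agent.H721R2 Pool.Agent.H789R2.AN Pool.Agent.Y321.PJ Pool.Agent.Y321.PD
open Pool.Agent.H576R3.CF

section alg

/-- the geometric multiplicity of the complex number `μ` as an eigenvalue of the real operator `T` -/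
noncomputable def gm {V : Type*} [AddCommGroup V] [Module ℝ V] (T : Module.End ℝ V) (μ : ℂ) : ℕ :=
  finrank ℂ (Module.End.eigenspace (T.baseChange ℂ) μ)

variable {V : Type*} [AddCommGroup V] [Module ℝ V]

theorem bc_pow (T : Module.End ℝ V) {μ : ℂ} {x : ℂ ⊗[ℝ] V} (hx : T.baseChange ℂ x = μ • x) (n : ℕ) :
    (T ^ n).baseChange ℂ x = μ ^ n • x := by
  induction n with
  | zero =>
    rw [pow_zero, pow_zero, one_smul]
    show (LinearMap.baseChange ℂ (1 : Module.End ℝ V)) x = x
    have : LinearMap.baseChange ℂ (1 : Module.End ℝ V) = 1 := LinearMap.baseChange_one _ _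
    rw [this]
    rfl
  | succ n ih =>
    have h1 : LinearMap.baseChange ℂ (T ^ (n + 1)) =
        LinearMap.baseChange ℂ (T ^ n) * LinearMap.baseChange ℂ T := by
      rw [pow_succ]
      exact LinearMap.baseChange_mul _ _
    rw [h1]
    show (T ^ n).baseChange ℂ (T.baseChange ℂ x) = _
    rw [hx, map_smul, ih, smul_smul, pow_succ]
    congr 1
    ring

/-- evaluation of a real functional on the complexification -/
noncomputable def ev (l : V →ₗ[ℝ] ℝ) : ℂ ⊗[ℝ] V →ₗ[ℂ] ℂ :=
  (TensorProduct.AlgebraTensorModule.rid ℝ ℂ ℂ).toLinearMap ∘ₗ l.baseChange ℂ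

theorem ev_tmul (l : V →ₗ[ℝ] ℝ) (c : ℂ) (v : V) : ev l (c ⊗ₜ v) = (l v : ℂ) * c := by
  show (TensorProduct.AlgebraTensorModule.rid ℝ ℂ ℂ) (c ⊗ₜ l v) = _
  rw [TensorProduct.AlgebraTensorModule.rid_tmul]
  simp

theorem ev_sep [FiniteDimensional ℝ V] (x : ℂ ⊗[ℝ] V) (h : ∀ l, ev l x = 0) : x = 0 := by
  let b := Module.finBasis ℝ V
  let B := b.baseChange ℂ
  apply B.ext_elem
  intro i
  rw [map_zero, Finsupp.zero_apply]
  have h1 : ∀ y : ℂ ⊗[ℝ] V, B.repr y i = ev (b.coord i) y := by
    intro y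
    induction y using TensorProduct.induction_on with
    | zero => simp
    | tmul c v =>
      rw [ev_tmul, Basis.baseChange_repr_tmul]
      simp
    | add y z hy hz => rw [map_add, map_add, Finsupp.add_apply, hy, hz]
  rw [h1, h]

/-- eigenvalues of contractions -/
theorem ev_lt [FiniteDimensional ℝ V] (T : Module.End ℝ V)
    (hT : ∀ (l : V →ₗ[ℝ] ℝ) (v : V), Tendsto (fun n : ℕ => l ((T ^ n) v)) atTop (𝓝 0)) {μ : ℂ}
    (hμ : 0 < gm T μ) : ‖μ‖ < 1 := by
  by_contra hge
  push Not at hge
  have hne : Module.End.eigenspace (T.baseChange ℂ) μ ≠ ⊥ := by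
    intro h
    unfold gm at hμ
    rw [h, finrank_bot] at hμ
    exact lt_irrefl _ hμ
  obtain ⟨x, hx, hx0⟩ := Submodule.exists_mem_ne_zero_of_ne_bot hne
  rw [Module.End.mem_eigenspace_iff] at hx
  apply hx0
  apply ev_sep
  intro l
  have h1 : ∀ y : ℂ ⊗[ℝ] V, Tendsto (fun n : ℕ => ev l ((T ^ n).baseChange ℂ y)) atTop (𝓝 0) := by
    intro y
    induction y using TensorProduct.induction_on with
    | zero => simp
    | tmul c v =>
      have h2 : ∀ n : ℕ, ev l ((T ^ n).baseChange ℂ (c ⊗ₜ v)) = ((l ((T ^ n) v) : ℝ) : ℂ) * c := by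
        intro n
        rw [LinearMap.baseChange_tmul, ev_tmul]
      simp_rw [h2]
      have h3 := ((Complex.continuous_ofReal.tendsto 0).comp (hT l v)).mul_const c
      simpa using h3
    | add y z hy hz =>
      have := hy.add hz
      simpa [map_add] using this
  have h2 := h1 x
  have h3 : ∀ n : ℕ, ev l ((T ^ n).baseChange ℂ x) = μ ^ n * ev l x := by
    intro n
    rw [bc_pow T hx, map_smul, smul_eq_mul]
  simp_rw [h3] at h2
  by_contra hne
  have h4 : ∀ n : ℕ, ‖ev l x‖ ≤ ‖μ ^ n * ev l x‖ := by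
    intro n
    rw [norm_mul, norm_pow]
    exact le_mul_of_one_le_left (norm_nonneg _) (one_le_pow₀ hge)
  have h5 := h2.norm
  rw [norm_zero] at h5
  have h6 : ‖ev l x‖ ≤ 0 := ge_of_tendsto' h5 h4
  exact hne (norm_le_zero_iff.1 h6)

/-- multiplicities on an invariant subspace -/
theorem gm_sub [FiniteDimensional ℝ V] (T : Module.End ℝ V) (S : Submodule ℝ V)
    (TS : Module.End ℝ S) (h : ∀ v : S, (TS v : V) = T v) (μ : ℂ) : gm TS μ ≤ gm T μ := by
  have hinj : Function.Injective (S.subtype.baseChange ℂ) := by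
    show Function.Injective (S.subtype.lTensor ℂ)
    exact Module.Flat.lTensor_preserves_injective_linearMap _ S.subtype_injective
  have hcomm : ∀ x : ℂ ⊗[ℝ] S, T.baseChange ℂ (S.subtype.baseChange ℂ x) =
      S.subtype.baseChange ℂ (TS.baseChange ℂ x) := by
    intro x
    induction x using TensorProduct.induction_on with
    | zero => simp
    | tmul c v =>
      simp only [LinearMap.baseChange_tmul]
      rw [Submodule.subtype_apply, Submodule.subtype_apply, h]
    | add y z hy hz => rw [map_add, map_add, map_add, map_add, hy, hz]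
  unfold gm
  refine LinearMap.finrank_le_finrank_of_injective (f :=
    { toFun := fun v : Module.End.eigenspace (TS.baseChange ℂ) μ =>
        (⟨S.subtype.baseChange ℂ v, ?_⟩ : Module.End.eigenspace (T.baseChange ℂ) μ)
      map_add' := fun v w => Subtype.ext (by
        show S.subtype.baseChange ℂ ((v : ℂ ⊗[ℝ] S) + w) = _
        rw [map_add]
        rfl)
      map_smul' := fun c v => Subtype.ext (by
        show S.subtype.baseChange ℂ (c • (v : ℂ ⊗[ℝ] S)) = _
        rw [map_smul]
        rfl) }) ?_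
  · rw [Module.End.mem_eigenspace_iff, hcomm, (Module.End.mem_eigenspace_iff.1 v.2), map_smul]
  · intro v w hvw
    exact Subtype.ext (hinj (congrArg
      (fun z : Module.End.eigenspace (T.baseChange ℂ) μ => (z : ℂ ⊗[ℝ] V)) hvw))

/-- multiplicities of the inverse -/
theorem gm_inv [FiniteDimensional ℝ V] (T T' : Module.End ℝ V) (h : T * T' = 1) {μ : ℂ}
    (hμ : μ ≠ 0) : gm T' μ ≤ gm T μ⁻¹ := by
  unfold gm
  refine Submodule.finrank_mono fun x hx => ?_
  rw [Module.End.mem_eigenspace_iff] at hx ⊢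
  have h1 : LinearMap.baseChange ℂ T * LinearMap.baseChange ℂ T' = 1 := by
    rw [← LinearMap.baseChange_mul, h]
    exact LinearMap.baseChange_one _ _
  have h2 : T.baseChange ℂ (T'.baseChange ℂ x) = x := LinearMap.congr_fun h1 x
  rw [hx, map_smul] at h2
  rw [eq_inv_smul_iff₀ hμ]
  exact h2

theorem gm_pos_ne [FiniteDimensional ℝ V] (T T' : Module.End ℝ V) (h : T * T' = 1) {μ : ℂ}
    (hμ : 0 < gm T' μ) : μ ≠ 0 := by
  rintro rfl
  have hne : Module.End.eigenspace (T'.baseChange ℂ) 0 ≠ ⊥ := by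
    intro h
    unfold gm at hμ
    rw [h, finrank_bot] at hμ
    exact lt_irrefl _ hμ
  obtain ⟨x, hx, hx0⟩ := Submodule.exists_mem_ne_zero_of_ne_bot hne
  rw [Module.End.mem_eigenspace_iff, zero_smul] at hx
  have h1 : LinearMap.baseChange ℂ T * LinearMap.baseChange ℂ T' = 1 := by
    rw [← LinearMap.baseChange_mul, h]
    exact LinearMap.baseChange_one _ _
  have h2 : T.baseChange ℂ (T'.baseChange ℂ x) = x := LinearMap.congr_fun h1 x
  rw [hx, map_zero] at h2
  exact hx0 h2.symm

end alg

end Pool.Agent.H244.Zm
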