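import Pool.Agent.H244.Zm13

/-!
# Eigenvalues at the periodic points of a map commuting with a lattice action: manifolds
-/

set_option autoImplicit false
set_option linter.unusedSectionVars false

namespace Pool.Agent.H244.Zm

open Filter Topology Set Module Metric
open scoped Manifold ContDiff TensorProduct
open Pool.Agent.H721R2 Pool.Agent.H789R2.AN Pool.Agent.Y321.PJ Pool.Agent.Y321.PD
open Pool.Agent.H576R3.CF

section lin

variable {E : Type*} [NormedAddCommGroup E] [NormedSpace ℝ E] [FiniteDimensional ℝ E]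

/-- `A` contracts `S` and expands the complementary invariant space `U`. -/
structure HypSplit (A : E →L[ℝ] E) (S U : Submodule ℝ E) : Prop where
  compl : IsCompl S U
  mapS : ∀ v ∈ S, A v ∈ S
  mapU : ∀ v ∈ U, A v ∈ U
  rate : ∃ C l : ℝ, 0 < l ∧ l < 1 ∧ (∀ n : ℕ, ∀ v ∈ S, ‖(A ^ n) v‖ ≤ C * l ^ n * ‖v‖) ∧
    ∀ n : ℕ, ∀ v ∈ U, ‖v‖ ≤ C * l ^ n * ‖(A ^ n) v‖

theorem pow_mem {A : E →L[ℝ] E} {S : Submodule ℝ E} (h : ∀ v ∈ S, A v ∈ S) (n : ℕ) :
    ∀ v ∈ S, (A ^ n) v ∈ S := by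
  induction n with
  | zero => intro v hv; exact hv
  | succ n ih =>
    intro v hv
    rw [pow_succ]
    exact ih _ (h v hv)

theorem hyp_of_split {A : E →L[ℝ] E} {S U : Submodule ℝ E} (h : HypSplit A S U) :
    ∃ L ≥ 1, ∃ πs πu : E →L[ℝ] E, Hyp (A ^ L) πs πu ∧ (∀ v, πs v ∈ S) ∧ ∀ v ∈ S, πs v = v := by
  obtain ⟨C, l, hl0, hl1, h1, h2⟩ := h.rate
  have t1 : Tendsto (fun n : ℕ => C * l ^ n) atTop (𝓝 0) := by
    have := (tendsto_pow_atTop_nhds_zero_of_lt_one hl0.le hl1).const_mul C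
    simpa using this
  obtain ⟨L, h3, h4⟩ := (((tendsto_order.mp t1).2 (1 / 4) (by norm_num)).and
    (eventually_ge_atTop 1)).exists
  obtain ⟨π, hπ1, hπ2, hπ3, hπ4⟩ := Pool.Agent.H244.Loc.exists_proj h.compl
  have hAs := pow_mem h.mapS L
  have hAu := pow_mem h.mapU L
  have hcs : ∀ v, (A ^ L) (π v) = π ((A ^ L) v) := by
    intro v
    have e1 : (A ^ L) v = (A ^ L) (π v) + (A ^ L) (v - π v) := by rw [← map_add, add_sub_cancel]
    rw [e1, map_add, hπ1 _ (hAs _ (hπ3 v)), hπ2 _ (hAu _ (hπ4 v)), add_zero]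
  refine ⟨L, h4, π, ContinuousLinearMap.id ℝ E - π, ⟨fun v => by simp, hcs, fun v => ?_,
    fun v => ?_, fun v => ?_⟩, hπ3, hπ1⟩
  · show (A ^ L) (v - π v) = (A ^ L) v - π ((A ^ L) v)
    rw [map_sub, hcs]
  · exact (h1 L _ (hπ3 v)).trans (mul_le_mul_of_nonneg_right h3.le (norm_nonneg _))
  · have h5 : v - π v ∈ U := hπ4 v
    have h6 := (h2 L _ h5).trans (mul_le_mul_of_nonneg_right h3.le (norm_nonneg _))
    show 4 * ‖v - π v‖ ≤ ‖(A ^ L) (v - π v)‖
    linarith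

theorem nondeg_of_split {A : E →L[ℝ] E} {S U : Submodule ℝ E} (h : HypSplit A S U) (v : E)
    (hv : A v = v) : v = 0 := by
  obtain ⟨C, l, hl0, hl1, h1, h2⟩ := h.rate
  have t1 : Tendsto (fun n : ℕ => C * l ^ n) atTop (𝓝 0) := by
    have := (tendsto_pow_atTop_nhds_zero_of_lt_one hl0.le hl1).const_mul C
    simpa using this
  obtain ⟨s, hs, u, hu, rfl⟩ : ∃ s ∈ S, ∃ u ∈ U, s + u = v := by
    have h3 : v ∈ S ⊔ U := by rw [h.compl.sup_eq_top]; trivial
    obtain ⟨s, hs, u, hu, h4⟩ := Submodule.mem_sup.1 h3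
    exact ⟨s, hs, u, hu, h4⟩
  have hsu : A s = s ∧ A u = u := by
    have h3 : A s - s = u - A u := by
      rw [map_add] at hv
      have : A s - s - (u - A u) = A s + A u - (s + u) := by abel
      rw [← sub_eq_zero, this, hv, sub_self]
    have h4 : A s - s ∈ S := S.sub_mem (h.mapS s hs) hs
    have h5 : A s - s ∈ U := by rw [h3]; exact U.sub_mem hu (h.mapU u hu)
    have h6 : A s - s = 0 := (Submodule.disjoint_def.1 h.compl.disjoint) _ h4 h5
    refine ⟨sub_eq_zero.1 h6, ?_⟩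
    rw [h6] at h3
    exact (sub_eq_zero.1 h3.symm).symm
  have hpow : ∀ w : E, A w = w → ∀ n : ℕ, (A ^ n) w = w := by
    intro w hw n
    induction n with
    | zero => rfl
    | succ n ih =>
      rw [pow_succ]
      show (A ^ n) (A w) = w
      rw [hw, ih]
  have hs0 : s = 0 := by
    have h3 : ∀ n : ℕ, ‖s‖ ≤ C * l ^ n * ‖s‖ := by
      intro n
      have := h1 n s hs
      rwa [hpow s hsu.1 n] at this
    have h4 : ‖s‖ ≤ 0 * ‖s‖ := ge_of_tendsto' (t1.mul_const ‖s‖) h3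
    rw [zero_mul] at h4
    exact norm_le_zero_iff.1 h4
  have hu0 : u = 0 := by
    have h3 : ∀ n : ℕ, ‖u‖ ≤ C * l ^ n * ‖u‖ := by
      intro n
      have := h2 n u hu
      rwa [hpow u hsu.2 n] at this
    have h4 : ‖u‖ ≤ 0 * ‖u‖ := ge_of_tendsto' (t1.mul_const ‖u‖) h3
    rw [zero_mul] at h4
    exact norm_le_zero_iff.1 h4
  rw [hs0, hu0, add_zero]

/-- restriction to an invariant subspace -/
def rest (A : E →L[ℝ] E) (S : Submodule ℝ E) (h : ∀ v ∈ S, A v ∈ S) : Module.End ℝ S where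
  toFun := fun v => ⟨A v, h v v.2⟩
  map_add' := fun v w => Subtype.ext (by
    show A ((v : E) + w) = A v + A w
    rw [map_add])
  map_smul' := fun c v => Subtype.ext (by
    show A (c • (v : E)) = c • A v
    rw [map_smul])

theorem rest_pow (A : E →L[ℝ] E) (S : Submodule ℝ E) (h : ∀ v ∈ S, A v ∈ S) (n : ℕ) (v : S) :
    (((rest A S h) ^ n) v : E) = (A ^ n) v := by
  induction n generalizing v with
  | zero => rfl
  | succ n ih =>
    rw [pow_succ, pow_succ]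
    show (((rest A S h) ^ n) (rest A S h v) : E) = (A ^ n) (A v)
    rw [ih]
    rfl

/-- the multiplicities of the restriction to a contracted subspace -/
theorem gm_rest {A : E →L[ℝ] E} {S : Submodule ℝ E} (h : ∀ v ∈ S, A v ∈ S)
    (hc : ∀ v ∈ S, Tendsto (fun n : ℕ => (A ^ n) v) atTop (𝓝 0)) {N : ℕ} (hN : 0 < N)
    (hgm : ∀ μ : ℂ, ‖μ‖ < 1 → gm (A : E →ₗ[ℝ] E) μ < N) (μ : ℂ) : gm (rest A S h) μ < N := by
  rcases Nat.eq_zero_or_pos (gm (rest A S h) μ) with h0 | h0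
  · rw [h0]; exact hN
  · have h1 : ‖μ‖ < 1 := by
      refine ev_lt (rest A S h) (fun l v => ?_) h0
      have h2 : Tendsto (fun n : ℕ => ((rest A S h) ^ n) v) atTop (𝓝 0) := by
        rw [tendsto_subtype_rng]
        simp_rw [rest_pow]
        exact hc v v.2
      have h3 := (l.continuous_of_finiteDimensional.tendsto 0).comp h2
      rw [map_zero] at h3
      exact h3
    exact (gm_sub (A : E →ₗ[ℝ] E) S (rest A S h) (fun v => rfl) μ).trans_lt (hgm μ h1)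

end lin

section der

variable {E : Type*} [NormedAddCommGroup E] [NormedSpace ℝ E] [FiniteDimensional ℝ E]
  {M : Type*} [TopologicalSpace M] [ChartedSpace E M] [IsManifold 𝓘(ℝ, E) 1 M]

theorem dg_pow {G : M → M} (hG : ContMDiff 𝓘(ℝ, E) 𝓘(ℝ, E) 1 G) {p : M} (hp : G p = p) (n : ℕ) :
    dg E (G^[n]) p = (dg E G p) ^ n := by
  induction n with
  | zero =>
    ext v
    show mfderiv 𝓘(ℝ, E) 𝓘(ℝ, E) id p v = v
    rw [mfderiv_id]
    rfl
  | succ n ih =>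
    ext v
    rw [Function.iterate_succ, dg_comp G (G^[n]) hG (iter_smooth G hG n), hp, pow_succ, ih]
    rfl

end der

section man

variable {E : Type*} [NormedAddCommGroup E] [NormedSpace ℝ E] [FiniteDimensional ℝ E]
  {M : Type*} [TopologicalSpace M] [T2Space M] [CompactSpace M] [ConnectedSpace M]
  [ChartedSpace E M] [IsManifold 𝓘(ℝ, E) ∞ M] {Γ : Type*} [Group Γ]

theorem orbit_fin' (α : Γ →* Equiv.Perm M)
    (hα : ∀ γ, ContMDiff 𝓘(ℝ, E) 𝓘(ℝ, E) 1 (α γ)) {G : M → M}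
    (hG : ContMDiff 𝓘(ℝ, E) 𝓘(ℝ, E) 1 G) (hcomm : ∀ γ x, α γ (G x) = G (α γ x)) {p : M}
    (hp : G p = p) (hnd : ∀ v, dg E G p v = v → v = 0) : (range fun γ => α γ p).Finite := by
  obtain ⟨m, ee, hee, hemb, hinje⟩ :=
    exists_embedding_euclidean_of_compact (I := 𝓘(ℝ, E)) (M := M)
  let _ : MetricSpace M := hemb.isEmbedding.comapMetricSpace ee
  have he1 : ContMDiff 𝓘(ℝ, E) (𝓡 m) 1 ee := hee.of_le (by simp)
  exact orbit_fin he1 hinje α hα hG hcomm hp hnd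

/-- nondegenerate fixed points -/
theorem nondeg {N : ℕ} (hN : 3 ≤ N) (α : Γ →* Equiv.Perm M)
    (hα : ∀ γ, ContMDiff 𝓘(ℝ, E) 𝓘(ℝ, E) 1 (α γ)) {G : M → M}
    (hG : ContMDiff 𝓘(ℝ, E) 𝓘(ℝ, E) 1 G) (hcomm : ∀ γ x, α γ (G x) = G (α γ x)) {p : M}
    (hp : G p = p) (hnd : ∀ v, dg E G p v = v → v = 0) (hinf : ¬ Finite α.range) :
    (SmallReps ℝ N Γ → N ≤ finrank ℝ E) ∧
    (SmallReps ℂ N Γ → ∃ μ : ℂ, N ≤ gm (dg E G p : E →ₗ[ℝ] E) μ) := by
  have hfin := orbit_fin' α hα hG hcomm hp hnd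
  have hst : (stab α p).FiniteIndex := stab_fi α p hfin
  constructor
  · intro hΓ
    by_contra hlt
    push Not at hlt
    exact hinf (man_fin hN hΓ α hα p hfin (fin_rep hΓ (stab α p) hlt _))
  · intro hΓ
    by_contra hlt
    push Not at hlt
    refine hinf (man_fin hN hΓ.real α hα p hfin (geo_fin hN hΓ (stab α p) _
      (dg E G p : E →ₗ[ℝ] E) (fun x => ?_) hlt))
    ext v
    exact Dp_comm (α.comp (stab α p).subtype) (fun γ => hα γ) p (fun γ => γ.2) hG hp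
      (fun γ x => hcomm γ x) x v

/-- hyperbolic fixed points -/
theorem hyp_point {N : ℕ} (hN : 3 ≤ N) (α : Γ →* Equiv.Perm M)
    (hα : ∀ γ, ContMDiff 𝓘(ℝ, E) 𝓘(ℝ, E) 1 (α γ)) {G : M → M}
    (hG : ContMDiff 𝓘(ℝ, E) 𝓘(ℝ, E) 1 G) (hGi : Function.Injective G)
    (hcomm : ∀ γ x, α γ (G x) = G (α γ x)) {p : M}
    (hp : G p = p) {S U : Submodule ℝ E} (hsp : HypSplit (dg E G p) S U)
    (h : (SmallReps ℝ N Γ ∧ finrank ℝ S < N) ∨
      (SmallReps ℂ N Γ ∧ ∀ μ : ℂ, ‖μ‖ < 1 → gm (dg E G p : E →ₗ[ℝ] E) μ < N)) :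
    ∃ H₁ : Subgroup Γ, H₁.FiniteIndex ∧ ∀ γ ∈ H₁,
      ∀ w ∈ closure {w : M | Tendsto (fun n : ℕ => G^[n] w) atTop (𝓝 p)}, α γ w = w := by
  have hfin := orbit_fin' α hα hG hcomm hp (nondeg_of_split hsp)
  have hst : (stab α p).FiniteIndex := stab_fi α p hfin
  have hΓr : SmallReps ℝ N Γ := by
    rcases h with h | h
    · exact h.1
    · exact h.1.real
  obtain ⟨L, hL, πs, πu, hA, h1, h2⟩ := hyp_of_split hsp
  have hGL : ContMDiff 𝓘(ℝ, E) 𝓘(ℝ, E) 1 (G^[L]) := iter_smooth G hG L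
  have hcommL : ∀ γ x, α γ (G^[L] x) = G^[L] (α γ x) := fun γ x =>
    comm_iter (σ := fun γ => α γ) hcomm γ L x
  have hpL : G^[L] p = p := Function.iterate_fixed hp L
  rw [← dg_pow hG hp L] at hA
  have hS := stable_inv α hα hGL hcommL hpL hA h1 h2
  have hρ : (range (srep α hα p S hS)).Finite := by
    rcases h with h | h
    · exact fin_rep h.1 (stab α p) h.2 _
    · obtain ⟨C, l, hl0, hl1, h3, -⟩ := hsp.rate
      refine geo_fin hN h.1 (stab α p) (S := S) _ (rest (dg E G p) S hsp.mapS) (fun x => ?_)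
        (gm_rest hsp.mapS (fun v hv => ?_) (by omega) h.2)
      · refine LinearMap.ext fun v => Subtype.ext ?_
        exact Dp_comm (α.comp (stab α p).subtype) (fun γ => hα γ) p (fun γ => γ.2) hG hp
          (fun γ x => hcomm γ x) x v
      · have t1 : Tendsto (fun n : ℕ => C * l ^ n * ‖v‖) atTop (𝓝 0) := by
          have := ((tendsto_pow_atTop_nhds_zero_of_lt_one hl0.le hl1).const_mul C).mul_const ‖v‖
          simpa using this
        exact squeeze_zero_norm (fun n => h3 n v hv) t1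
  obtain ⟨H₁, hH₁, hH⟩ := stable_triv hN hΓr α hα hGL (hGi.iterate L) hcommL hpL hfin hA h1 hS hρ
  refine ⟨H₁, hH₁, fun γ hγ w hw => ?_⟩
  have hcl : IsClosed {w : M | α γ w = w} := isClosed_eq (hα γ).continuous continuous_id
  refine (closure_minimal ?_ hcl) hw
  intro w hw
  refine hH γ hγ w ?_
  have h4 : Tendsto (fun n : ℕ => L * n) atTop atTop := tendsto_id.const_mul_atTop' (by omega)
  refine ((show Tendsto _ _ _ from hw).comp h4).congr fun n => ?_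
  show G^[L * n] w = (G^[L])^[n] w
  rw [Function.iterate_mul]

end man

section anosov

variable {E : Type*} [NormedAddCommGroup E] [NormedSpace ℝ E] [FiniteDimensional ℝ E]
  {M : Type*} [MetricSpace M] [CompactSpace M] [ChartedSpace E M] [IsManifold 𝓘(ℝ, E) 1 M]
  {F : Type*} [NormedAddCommGroup F] [NormedSpace ℝ F] {e : M → F} {Γ : Type*} [Group Γ]

theorem main_geo [Nonempty M] (hinj : ∀ x, Function.Injective (dm E e x)) {f : M ≃ₜ M}
    {Es Eu : M → Submodule ℝ E} {C a b Ls Lu : ℝ} (hE : EAnosov e f Es Eu C a b Ls Lu)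
    (S : HypSys M F) {n : ℕ} (hn : 1 ≤ n) (hS : S.g = iterHomeo f n)
    (htr : ∀ U V : Set M, IsOpen U → U.Nonempty → IsOpen V → V.Nonempty →
      ∃ n : ℕ, (S.g^[n] '' U ∩ V).Nonempty)
    {N : ℕ} (hN : 3 ≤ N) (hΓ : SmallReps ℂ N Γ) (α : Γ →* Equiv.Perm M)
    (hα : ∀ γ, ContMDiff 𝓘(ℝ, E) 𝓘(ℝ, E) 1 (α γ)) (hcomm : ∀ γ x, α γ (f x) = f (α γ x))
    (hinf : ¬ Finite α.range) {k : ℕ} (hk : 1 ≤ k) {p : M}
    (hp : f^[k] p = p) : ∃ μ : ℂ, ‖μ‖ < 1 ∧ N ≤ gm (dg E (f^[k]) p : E →ₗ[ℝ] E) μ := by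
  classical
  by_contra hno
  push Not at hno
  apply hinf
  obtain ⟨c₀, hLP⟩ := exists_LP S
  have hgk : ∀ (k : ℕ) (x : M), S.g^[k] x = f^[n * k] x := by
    intro k x
    have : (S.g : M → M) = f^[n] := by rw [hS]; rfl
    rw [this, ← Function.iterate_mul]
  have hgp : S.g^[k] p = p := by
    rw [hgk, mul_comm, Function.iterate_mul]
    exact Function.iterate_fixed hp n
  have hgc : ∀ γ x, α γ (S.g x) = S.g (α γ x) := fun γ x => by
    rw [hS]
    exact comm_iter (σ := fun γ => α γ) hcomm γ n x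
  obtain ⟨hSi, h1⟩ := triv_WS hinj hE hn hS hLP hN hΓ.real α hα hcomm hk hgp
  have hst : (stab α p).FiniteIndex := stab_fi α p (orb_fin hLP α hgc hk hgp)
  have hGs : ContMDiff 𝓘(ℝ, E) 𝓘(ℝ, E) 1 (f^[k]) := iter_smooth f hE.smooth _
  have hmap : ∀ v ∈ Es p, dg E (f^[k]) p v ∈ Es p := fun v hv => by
    have := hE.mapS k p v hv
    rwa [hp] at this
  have hρ : (range (srep α hα p (Es p) hSi)).Finite := by
    refine geo_fin hN hΓ (stab α p) (S := Es p) _ (rest (dg E (f^[k]) p) (Es p) hmap)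
      (fun x => ?_) (gm_rest hmap (fun v hv => ?_) (by omega) hno)
    · refine LinearMap.ext fun v => Subtype.ext ?_
      exact Dp_comm (α.comp (stab α p).subtype) (fun γ => hα γ) p (fun γ => γ.2) hGs hp
        (fun γ x => comm_iter (σ := fun γ => α γ) hcomm γ k x) x v
    · obtain ⟨c, hc, hcv⟩ := inj_bound (dm E e p) (hinj p)
      have t0 : Tendsto (fun n : ℕ => a ^ (k * n)) atTop (𝓝 0) :=
        (tendsto_pow_atTop_nhds_zero_of_lt_one hE.a_pos.le hE.a_lt).comp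
          (tendsto_id.const_mul_atTop' (by omega : 0 < k))
      have t1 : Tendsto (fun n : ℕ => c⁻¹ * (C * a ^ (k * n) * ‖dm E e p v‖)) atTop (𝓝 0) := by
        have := ((t0.const_mul C).mul_const ‖dm E e p v‖).const_mul c⁻¹
        simpa using this
      refine squeeze_zero_norm (fun m => ?_) t1
      rw [← dg_pow hGs hp m, ← Function.iterate_mul]
      have h5 := hE.hS (k * m) p v hv
      have hpm : f^[k * m] p = p := by
        rw [Function.iterate_mul]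
        exact Function.iterate_fixed hp m
      rw [hpm] at h5
      have h6 := (hcv (dg E (f^[k * m]) p v)).trans h5
      rw [le_inv_mul_iff₀ hc]
      exact h6
  obtain ⟨H₁, hH₁, hH⟩ := h1 hρ
  have hA := minAtt_univ hLP ‹Nonempty M› htr
  refine finite_of_dense α (fun γ => (hα γ).continuous) H₁
    (D := {w | ∃ j : ℕ, WS S.g (S.g.symm^[j] p) w}) ?_ ?_
  · rw [dense_iff_inter_open]
    rintro V hV ⟨z, hzV⟩
    obtain ⟨η, hη, hball⟩ := Metric.isOpen_iff.mp hV z hzV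
    obtain ⟨k, y, hy1, -, hy3⟩ := near_stable hLP hA (mem_univ p)
      (show z ∈ Bas S.g univ from ⟨z, mem_univ z, WS.refl _ _⟩) hη
    exact ⟨y, hball (by rw [mem_ball, dist_comm]; exact hy1), k, hy3⟩
  · rintro γ hγ w ⟨j, hj⟩
    exact hH γ hγ j w hj

end anosov

section final

variable {E : Type*} [NormedAddCommGroup E] [NormedSpace ℝ E] [FiniteDimensional ℝ E]
  {M : Type*} [TopologicalSpace M] [T2Space M] [CompactSpace M] [ConnectedSpace M]
  [ChartedSpace E M] [IsManifold 𝓘(ℝ, E) ∞ M] {Γ : Type*} [Group Γ]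

/-- Anosov diffeomorphisms -/
theorem anosov_geo (f : Diffeomorph 𝓘(ℝ, E) 𝓘(ℝ, E) M M 1)
    (Es Eu : ∀ x : M, Submodule ℝ (TangentSpace 𝓘(ℝ, E) x)) (hA : IsAnosov f Es Eu)
    (htr : TopTransitive f)
    {N : ℕ} (hN : 3 ≤ N) (hΓ : SmallReps ℂ N Γ) (α : Γ →* Equiv.Perm M)
    (hα : ∀ γ, ContMDiff 𝓘(ℝ, E) 𝓘(ℝ, E) 1 (α γ)) (hcomm : ∀ γ x, α γ (f x) = f (α γ x))
    (hinf : ¬ Finite α.range) {k : ℕ} (hk : 1 ≤ k) {p : M} (hp : f^[k] p = p) :
    (∃ μ : ℂ, ‖μ‖ < 1 ∧ N ≤ gm (dg E (f^[k]) p : E →ₗ[ℝ] E) μ) ∧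
    (∃ μ : ℂ, 1 < ‖μ‖ ∧ N ≤ gm (dg E (f^[k]) p : E →ₗ[ℝ] E) μ) := by
  obtain ⟨m, ee, hee, hemb, hinje⟩ :=
    exists_embedding_euclidean_of_compact (I := 𝓘(ℝ, E)) (M := M)
  let _ : MetricSpace M := hemb.isEmbedding.comapMetricSpace ee
  have hiso : ∀ x y : M, dist x y = ‖ee x - ee y‖ := fun x y => dist_eq_norm (ee x) (ee y)
  have he1 : ContMDiff 𝓘(ℝ, E) (𝓡 m) 1 ee := hee.of_le (by simp)
  obtain ⟨C, a, b, Ls, Lu, hE⟩ := eanosov_of_isAnosov ee he1 hinje f Es Eu hA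
  obtain ⟨n, S, hn, hS⟩ := exists_sys1 hiso he1 hinje f Es Eu hA
  have hcomm' : ∀ γ x, α γ (f.toHomeomorph x) = f.toHomeomorph (α γ x) := hcomm
  have hnw := nw_of_trans (f := f.toHomeomorph) htr
  have hgk : ∀ (k : ℕ) (x : M), (S.g^[k]) x = f^[n * k] x := by
    intro k x
    rw [hS, Function.iterate_mul]
    rfl
  have htrS : ∀ U V : Set M, IsOpen U → U.Nonempty → IsOpen V → V.Nonempty →
      ∃ k : ℕ, (S.g^[k] '' U ∩ V).Nonempty := by
    intro U V hU hUn hV hVn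
    refine trans_of_nw S (fun O hO hOn => ?_) U V hU hUn hV hVn
    obtain ⟨k, hk, hk'⟩ := nw_pow f f.continuous hnw n hn O hO hOn
    refine ⟨k, hk, ?_⟩
    have e1 : (S.g^[k]) = (f^[n * k]) := funext (hgk k)
    rwa [e1]
  have htrS' : ∀ U V : Set M, IsOpen U → U.Nonempty → IsOpen V → V.Nonempty →
      ∃ k : ℕ, (S.symm.g^[k] '' U ∩ V).Nonempty := by
    intro U V hU hUn hV hVn
    obtain ⟨k, _, ⟨x, hx, rfl⟩, hy⟩ := htrS V U hV hVn hU hUn
    exact ⟨k, x, ⟨S.g^[k] x, hy, iterL S.g k x⟩, hx⟩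
  have hpf : (f.toHomeomorph)^[k] p = p := hp
  constructor
  · exact main_geo hinje hE S hn hS htrS hN hΓ α hα hcomm' hinf hk hpf
  · have hp' : f.toHomeomorph.symm^[k] p = p := by
      have h1 := iterL f.toHomeomorph k p
      rwa [hpf] at h1
    obtain ⟨μ, h1, h2⟩ := main_geo hinje hE.symm S.symm hn (n := n) (by
      show S.g.symm = _
      rw [hS]
      rfl) htrS' hN hΓ α hα (comm_symm f.toHomeomorph α hcomm') hinf hk hp'
    have hTT : (dg E (f.toHomeomorph^[k]) p : E →ₗ[ℝ] E) *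
        (dg E (f.toHomeomorph.symm^[k]) p : E →ₗ[ℝ] E) = (1 : Module.End ℝ E) := by
      ext v
      have := dg_inv (f.toHomeomorph.symm^[k]) (f.toHomeomorph^[k])
        (iter_smooth f.toHomeomorph.symm hE.smooth' k) (iter_smooth f.toHomeomorph hE.smooth k)
        (fun x => iterR f.toHomeomorph k x) p v
      rw [hp'] at this
      exact this
    have hμ0 : μ ≠ 0 := gm_pos_ne _ _ hTT (by omega)
    refine ⟨μ⁻¹, ?_, h2.trans (gm_inv _ _ hTT hμ0)⟩
    rw [norm_inv]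
    exact (one_lt_inv₀ (norm_pos_iff.2 hμ0)).2 h1

end final

end Pool.Agent.H244.Zm
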