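import Mathlib

/-!
# Orbits which stay near a hyperbolic fixed point

The chord between two orbits that stay near a hyperbolic fixed point is almost tangent to the
stable space, and such orbits converge exponentially to the fixed point.
-/

set_option autoImplicit false

namespace Pool.Agent.H244.Zm

open Filter Topology Asymptotics

variable {E : Type*} [NormedAddCommGroup E] [NormedSpace ℝ E]

/-- `A` contracts the image of `πs` and expands the image of `πu`. -/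
structure Hyp (A πs πu : E →L[ℝ] E) : Prop where
  sum : ∀ v, πs v + πu v = v
  cs : ∀ v, A (πs v) = πs (A v)
  cu : ∀ v, A (πu v) = πu (A v)
  con : ∀ v, ‖A (πs v)‖ ≤ 1 / 4 * ‖πs v‖
  exp : ∀ v, 4 * ‖πu v‖ ≤ ‖A (πu v)‖

theorem strict_ball {G : E → E} {A : E →L[ℝ] E} {q : E} (hG : HasStrictFDerivAt G A q) {η : ℝ}
    (hη : 0 < η) : ∃ r > 0, ∀ a b : E, ‖a - q‖ ≤ r → ‖b - q‖ ≤ r →
      ‖G a - G b - A (a - b)‖ ≤ η * ‖a - b‖ := by
  have h1 := hG.isLittleO.def hη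
  obtain ⟨r, hr, h2⟩ := Metric.eventually_nhds_iff_ball.1 h1
  refine ⟨r / 2, half_pos hr, fun a b ha hb => ?_⟩
  refine h2 (a, b) ?_
  rw [Metric.mem_ball, Prod.dist_eq, max_lt_iff, dist_eq_norm, dist_eq_norm]
  exact ⟨by linarith, by linarith⟩

theorem norm_ps {A πs πu : E →L[ℝ] E} (h : Hyp A πs πu) (v : E) : ‖v‖ ≤ ‖πs v‖ + ‖πu v‖ := by
  calc ‖v‖ = ‖πs v + πu v‖ := by rw [h.sum]
    _ ≤ _ := norm_add_le _ _

/-- one step -/
theorem step {A πs πu : E →L[ℝ] E} (h : Hyp A πs πu) {K η : ℝ} (hK : ‖πs‖ ≤ K) (hK' : ‖πu‖ ≤ K)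
    (hη : 0 ≤ η) {d d' : E} (hd : ‖d' - A d‖ ≤ η * ‖d‖) :
    ‖πs d'‖ ≤ 1 / 4 * ‖πs d‖ + K * η * (‖πs d‖ + ‖πu d‖) ∧
      4 * ‖πu d‖ - K * η * (‖πs d‖ + ‖πu d‖) ≤ ‖πu d'‖ := by
  have hK0 : 0 ≤ K := (norm_nonneg _).trans hK
  have h1 := norm_ps h d
  have h2 : ‖d' - A d‖ ≤ η * (‖πs d‖ + ‖πu d‖) := hd.trans (mul_le_mul_of_nonneg_left h1 hη)
  have h3 : ‖πs (d' - A d)‖ ≤ K * η * (‖πs d‖ + ‖πu d‖) := by
    calc ‖πs (d' - A d)‖ ≤ ‖πs‖ * ‖d' - A d‖ := πs.le_opNorm _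
      _ ≤ K * (η * (‖πs d‖ + ‖πu d‖)) := mul_le_mul hK h2 (norm_nonneg _) hK0
      _ = _ := by ring
  have h4 : ‖πu (d' - A d)‖ ≤ K * η * (‖πs d‖ + ‖πu d‖) := by
    calc ‖πu (d' - A d)‖ ≤ ‖πu‖ * ‖d' - A d‖ := πu.le_opNorm _
      _ ≤ K * (η * (‖πs d‖ + ‖πu d‖)) := mul_le_mul hK' h2 (norm_nonneg _) hK0
      _ = _ := by ring
  constructor
  · have e : πs d' = A (πs d) + πs (d' - A d) := by rw [h.cs, map_sub]; abel
    rw [e]
    have := norm_add_le (A (πs d)) (πs (d' - A d))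
    have := h.con d
    linarith
  · have e : πu d' = A (πu d) - (-πu (d' - A d)) := by rw [h.cu, map_sub]; abel
    rw [e]
    have := norm_sub_norm_le (A (πu d)) (-πu (d' - A d))
    rw [norm_neg] at this
    have := h.exp d
    linarith

/-- The chord between two orbits near the fixed point is almost tangent to the stable space. -/
theorem cone {A πs πu : E →L[ℝ] E} (h : Hyp A πs πu) {G : E → E} {q : E}
    (hG : HasStrictFDerivAt G A q) {ε : ℝ} (hε : 0 < ε) :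
    ∃ r > 0, ∀ x y : ℕ → E, (∀ k, x (k + 1) = G (x k)) → (∀ k, y (k + 1) = G (y k)) →
      (∀ k, ‖x k - q‖ ≤ r) → (∀ k, ‖y k - q‖ ≤ r) →
      ‖πu (x 0 - y 0)‖ ≤ ε * ‖πs (x 0 - y 0)‖ := by
  set ε' := min ε 1 with hε'
  have hε'0 : 0 < ε' := lt_min hε one_pos
  have hε'1 : ε' ≤ 1 := min_le_right _ _
  set K : ℝ := 1 + ‖πs‖ + ‖πu‖ with hKdef
  have hK1 : ‖πs‖ ≤ K := by have := norm_nonneg πu; linarith
  have hK2 : ‖πu‖ ≤ K := by have := norm_nonneg πs; linarith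
  have hK0 : 0 < K := by have := norm_nonneg πu; have := norm_nonneg πs; linarith
  set η : ℝ := ε' / (2 * K) with hηdef
  have hη : 0 < η := by positivity
  have hKη : K * η = ε' / 2 := by rw [hηdef]; field_simp
  obtain ⟨r, hr, hb⟩ := strict_ball hG hη
  refine ⟨r, hr, fun x y hx hy hxr hyr => ?_⟩
  by_contra hcon
  push Not at hcon
  have hle : ε' * ‖πs (x 0 - y 0)‖ ≤ ε * ‖πs (x 0 - y 0)‖ :=
    mul_le_mul_of_nonneg_right (min_le_left _ _) (norm_nonneg _)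
  have hu0 : 0 < ‖πu (x 0 - y 0)‖ :=
    lt_of_le_of_lt (mul_nonneg hε.le (norm_nonneg _)) hcon
  have key : ∀ k : ℕ, 3 ^ k * ‖πu (x 0 - y 0)‖ ≤ ‖πu (x k - y k)‖ ∧
      ε' * ‖πs (x k - y k)‖ ≤ ‖πu (x k - y k)‖ := by
    intro k
    induction k with
    | zero => exact ⟨by simp, by linarith⟩
    | succ k ih =>
      obtain ⟨h1, h2⟩ := ih
      have h3 : ‖(x (k + 1) - y (k + 1)) - A (x k - y k)‖ ≤ η * ‖x k - y k‖ := by
        rw [hx, hy]; exact hb _ _ (hxr k) (hyr k)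
      obtain ⟨h4, h5⟩ := step h hK1 hK2 hη.le h3
      rw [hKη] at h4 h5
      have hs := norm_nonneg (πs (x k - y k))
      have hu := norm_nonneg (πu (x k - y k))
      have h6 : ε' / 2 * (‖πs (x k - y k)‖ + ‖πu (x k - y k)‖) ≤ ‖πu (x k - y k)‖ := by
        nlinarith
      constructor
      · rw [pow_succ]; nlinarith
      · have h7 : ε' * ‖πs (x (k + 1) - y (k + 1))‖ ≤
            ε' * (1 / 4 * ‖πs (x k - y k)‖ + ‖πu (x k - y k)‖) :=
          mul_le_mul_of_nonneg_left (by linarith) hε'0.le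
        nlinarith
  have hbd : ∀ k : ℕ, 3 ^ k * ‖πu (x 0 - y 0)‖ ≤ K * (2 * r) := by
    intro k
    refine (key k).1.trans ?_
    calc ‖πu (x k - y k)‖ ≤ ‖πu‖ * ‖x k - y k‖ := πu.le_opNorm _
      _ ≤ K * (2 * r) := by
        refine mul_le_mul hK2 ?_ (norm_nonneg _) hK0.le
        have e : x k - y k = (x k - q) - (y k - q) := by abel
        rw [e]
        have := norm_sub_le (x k - q) (y k - q)
        have := hxr k
        have := hyr k
        linarith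
  have ht : Tendsto (fun k : ℕ => (3 : ℝ) ^ k * ‖πu (x 0 - y 0)‖) atTop atTop :=
    (tendsto_pow_atTop_atTop_of_one_lt (by norm_num : (1 : ℝ) < 3)).atTop_mul_const hu0
  obtain ⟨k, hk⟩ := (ht.eventually_gt_atTop (K * (2 * r))).exists
  exact absurd (hbd k) (not_le.2 hk)

/-- Orbits which stay near the fixed point converge to it. -/
theorem contr {A πs πu : E →L[ℝ] E} (h : Hyp A πs πu) {G : E → E} {q : E}
    (hG : HasStrictFDerivAt G A q) (hq : G q = q) :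
    ∃ r > 0, ∃ C > 0, ∀ x : ℕ → E, (∀ k, x (k + 1) = G (x k)) → (∀ k, ‖x k - q‖ ≤ r) →
      ∀ k, ‖x k - q‖ ≤ C * (1 / 2) ^ k * ‖x 0 - q‖ := by
  set K : ℝ := 1 + ‖πs‖ + ‖πu‖ with hKdef
  have hK1 : ‖πs‖ ≤ K := by have := norm_nonneg πu; linarith
  have hK2 : ‖πu‖ ≤ K := by have := norm_nonneg πs; linarith
  have hK0 : 0 < K := by have := norm_nonneg πu; have := norm_nonneg πs; linarith
  obtain ⟨r₁, hr₁, h1⟩ := cone h hG one_pos
  obtain ⟨r₂, hr₂, h2⟩ := strict_ball hG (η := 1 / (8 * K)) (by positivity)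
  refine ⟨min r₁ r₂, lt_min hr₁ hr₂, 2 * K, by positivity, fun x hx hxr => ?_⟩
  have hsu : ∀ k, ‖πu (x k - q)‖ ≤ ‖πs (x k - q)‖ := by
    intro k
    have := h1 (fun j => x (k + j)) (fun _ => q) (fun j => hx (k + j)) (fun _ => hq.symm)
      (fun j => (hxr _).trans (min_le_left _ _)) (fun _ => by simpa using hr₁.le)
    simpa using this
  have hs : ∀ k, ‖πs (x k - q)‖ ≤ (1 / 2) ^ k * ‖πs (x 0 - q)‖ := by
    intro k
    induction k with
    | zero => simp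
    | succ k ih =>
      have h3 : ‖(x (k + 1) - q) - A (x k - q)‖ ≤ 1 / (8 * K) * ‖x k - q‖ := by
        have := h2 (x k) q ((hxr k).trans (min_le_right _ _)) (by simpa using hr₂.le)
        rwa [← hx k, hq] at this
      obtain ⟨h4, -⟩ := step h hK1 hK2 (by positivity) h3
      have e : K * (1 / (8 * K)) = 1 / 8 := by field_simp
      rw [e] at h4
      have := hsu k
      rw [pow_succ]
      nlinarith [norm_nonneg (πs (x k - q))]
  intro k
  have h5 := norm_ps h (x k - q)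
  have h6 := hsu k
  have h7 := hs k
  have h8 : ‖πs (x 0 - q)‖ ≤ K * ‖x 0 - q‖ :=
    (πs.le_opNorm _).trans (mul_le_mul_of_nonneg_right hK1 (norm_nonneg _))
  have h9 : (0 : ℝ) < (1 / 2) ^ k := by positivity
  calc ‖x k - q‖ ≤ 2 * ‖πs (x k - q)‖ := by linarith
    _ ≤ 2 * ((1 / 2) ^ k * (K * ‖x 0 - q‖)) := by
      have := mul_le_mul_of_nonneg_left h8 h9.le
      linarith
    _ = _ := by ring

end Pool.Agent.H244.Zm
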