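import Pool.Graph.R_pool_sql_team_seeded_63374d34.N829.PR.Orb
import Pool.Agent.H244.Zm1
import Pool.Agent.H244.Zm2

/-!
# Groups acting trivially on the stable space act trivially on the stable manifold
-/

set_option autoImplicit false

namespace Pool.Agent.H244.Zm

open Filter Topology Asymptotics Set
open scoped Manifold
open Pool.Agent.N829.PR (inChart inChart_fix inChart_diff)

variable {E : Type*} [NormedAddCommGroup E] [NormedSpace ℝ E]
  {M : Type*} [TopologicalSpace M] [ChartedSpace E M]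

/-- The points whose forward orbits stay in the ball of radius `r` of the chart at `p`. -/
def Wl (E : Type*) [NormedAddCommGroup E] [NormedSpace ℝ E] {M : Type*} [TopologicalSpace M]
    [ChartedSpace E M] (g : M → M) (p : M) (r : ℝ) : Set M :=
  {z | ∀ k : ℕ, g^[k] z ∈ (extChartAt 𝓘(ℝ, E) p).source ∧
    ‖extChartAt 𝓘(ℝ, E) p (g^[k] z) - extChartAt 𝓘(ℝ, E) p p‖ ≤ r}

theorem small_nhds {p : M} {V : Set M} (hV : V ∈ 𝓝 p) :
    ∃ r > 0, ∀ z ∈ (extChartAt 𝓘(ℝ, E) p).source,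
      ‖extChartAt 𝓘(ℝ, E) p z - extChartAt 𝓘(ℝ, E) p p‖ ≤ r → z ∈ V := by
  have h1 : (extChartAt 𝓘(ℝ, E) p).symm ⁻¹' V ∈ 𝓝 (extChartAt 𝓘(ℝ, E) p p) := by
    apply (continuousAt_extChartAt_symm p).preimage_mem_nhds
    rwa [(extChartAt 𝓘(ℝ, E) p).left_inv (mem_extChartAt_source p)]
  obtain ⟨r, hr, h2⟩ := Metric.mem_nhds_iff.1 h1
  refine ⟨r / 2, half_pos hr, fun z hz hzr => ?_⟩
  have h3 : extChartAt 𝓘(ℝ, E) p z ∈ Metric.ball (extChartAt 𝓘(ℝ, E) p p) r := by
    rw [Metric.mem_ball, dist_eq_norm]; linarith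
  have h4 := h2 h3
  rwa [mem_preimage, (extChartAt 𝓘(ℝ, E) p).left_inv hz] at h4

theorem nhds_small (p : M) {r : ℝ} (hr : 0 < r) :
    {z : M | z ∈ (extChartAt 𝓘(ℝ, E) p).source ∧
      ‖extChartAt 𝓘(ℝ, E) p z - extChartAt 𝓘(ℝ, E) p p‖ ≤ r} ∈ 𝓝 p := by
  have h1 : extChartAt 𝓘(ℝ, E) p ⁻¹' Metric.ball (extChartAt 𝓘(ℝ, E) p p) r ∈ 𝓝 p :=
    (continuousAt_extChartAt p).preimage_mem_nhds (Metric.ball_mem_nhds _ hr)
  filter_upwards [h1, extChartAt_source_mem_nhds (I := 𝓘(ℝ, E)) p] with z hz hz2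
  rw [mem_preimage, Metric.mem_ball, dist_eq_norm] at hz
  exact ⟨hz2, hz.le⟩

theorem seq_step {p : M} {g : M → M} {z : M} {r : ℝ} (hz : z ∈ Wl E g p r) (k : ℕ) :
    extChartAt 𝓘(ℝ, E) p (g^[k + 1] z) = inChart ℝ p g (extChartAt 𝓘(ℝ, E) p (g^[k] z)) := by
  show _ = extChartAt 𝓘(ℝ, E) p (g ((extChartAt 𝓘(ℝ, E) p).symm (extChartAt 𝓘(ℝ, E) p (g^[k] z))))
  rw [(extChartAt 𝓘(ℝ, E) p).left_inv (hz k).1, Function.iterate_succ_apply']

variable [FiniteDimensional ℝ E]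

/-- A group which commutes with `g`, and acts trivially on the stable space of the hyperbolic
fixed point `p`, acts trivially on the stable set of `p`. -/
theorem triv_stable {g : M → M} {p : M} (hgp : g p = p) (hgi : Function.Injective g)
    (hg : ContMDiff 𝓘(ℝ, E) 𝓘(ℝ, E) 1 g) {A πs πu : E →L[ℝ] E} (hA : Hyp A πs πu)
    (hAg : fderiv ℝ (inChart ℝ p g) (extChartAt 𝓘(ℝ, E) p p) = A)
    {Γ : Type*} [Group Γ] (hfg : Group.FG Γ) (hab : ∀ f : Γ →* Multiplicative ℝ, f = 1)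
    (φ : Γ →* Equiv.Perm M) (hφ : ∀ γ, ContMDiff 𝓘(ℝ, E) 𝓘(ℝ, E) 1 (φ γ))
    (hcomm : ∀ γ x, φ γ (g x) = g (φ γ x)) (hfix : ∀ γ, φ γ p = p)
    (hder : ∀ γ v, fderiv ℝ (inChart ℝ p (φ γ)) (extChartAt 𝓘(ℝ, E) p p) (πs v) = πs v)
    (γ : Γ) {w : M} (hw : Tendsto (fun k : ℕ => g^[k] w) atTop (𝓝 p)) : φ γ w = w := by
  classical
  set c := extChartAt 𝓘(ℝ, E) p with hc
  set q := c p with hq
  set G := inChart (E := E) ℝ p g with hG
  have hGq : G q = q := inChart_fix (𝕜 := ℝ) (E := E) hgp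
  have hGd : HasStrictFDerivAt G A q := by
    rw [← hAg]
    exact (inChart_diff (𝕜 := ℝ) (E := E) hgp hg).hasStrictFDerivAt (by norm_num)
  obtain ⟨r₀, hr₀, C, hC, hcon⟩ := contr hA hGd hGq
  set W := Wl E g p r₀ with hW
  have hcomk : ∀ (γ : Γ) (k : ℕ) (x : M), φ γ (g^[k] x) = g^[k] (φ γ x) := by
    intro γ k
    induction k with
    | zero => intro x; rfl
    | succ k ih => intro x; rw [Function.iterate_succ_apply, ih, hcomm, ← Function.iterate_succ_apply]
  -- points of `W` near `p` stay near `p`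
  have claim1 : ∀ r' > 0, ∀ᶠ z in 𝓝[W] p, z ∈ Wl E g p r' := by
    intro r' hr'
    have h1 := nhds_small (E := E) p (div_pos hr' hC)
    filter_upwards [mem_nhdsWithin_of_mem_nhds h1, self_mem_nhdsWithin] with z hz hzW
    intro k
    refine ⟨(hzW k).1, ?_⟩
    have h2 := hcon (fun k => c (g^[k] z)) (seq_step hzW) (fun k => (hzW k).2) k
    refine h2.trans ?_
    have h3 : ‖c z - q‖ ≤ r' / C := hz.2
    have h4 : ((1 : ℝ) / 2) ^ k ≤ 1 := pow_le_one₀ (by norm_num) (by norm_num)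
    calc C * (1 / 2) ^ k * ‖c (g^[0] z) - q‖ ≤ C * 1 * (r' / C) := by
          refine mul_le_mul (mul_le_mul_of_nonneg_left h4 hC.le) h3 (norm_nonneg _) (by linarith)
      _ = r' := by field_simp
  have claim2 : ∀ γ : Γ, ∀ r' > 0, ∀ᶠ z in 𝓝[W] p, φ γ z ∈ Wl E g p r' := by
    intro γ r' hr'
    have h1 := nhds_small (E := E) p hr'
    have h2 : φ γ ⁻¹' {z : M | z ∈ (extChartAt 𝓘(ℝ, E) p).source ∧
        ‖extChartAt 𝓘(ℝ, E) p z - extChartAt 𝓘(ℝ, E) p p‖ ≤ r'} ∈ 𝓝 p := by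
      apply (hφ γ).continuous.continuousAt.preimage_mem_nhds
      rw [hfix]; exact h1
    obtain ⟨r'', hr'', h3⟩ := small_nhds (E := E) h2
    filter_upwards [claim1 r'' hr''] with z hz k
    have h4 := h3 _ (hz k).1 (hz k).2
    rw [mem_preimage, hcomk] at h4
    exact h4
  set u : Γ → M → E := fun γ z => c (φ γ z) - c z with hu
  have hcoc : ∀ a b, (fun x => u (a * b) x - u a x - u b x) =o[𝓝[W] p] fun x => u b x := by
    intro a b
    set D := fderiv ℝ (inChart (E := E) ℝ p (φ a)) q with hD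
    have hDs : HasStrictFDerivAt (inChart (E := E) ℝ p (φ a)) D q :=
      (inChart_diff (𝕜 := ℝ) (E := E) (hfix a) (hφ a)).hasStrictFDerivAt (by norm_num)
    rw [isLittleO_iff]
    intro ε hε
    set K := 1 + ‖D - ContinuousLinearMap.id ℝ E‖ * ‖πs‖ with hK
    have hK0 : 0 < K := by positivity
    obtain ⟨r₁, hr₁, hcone⟩ := cone hA hGd (ε := ε / (2 * K)) (by positivity)
    obtain ⟨r₂, hr₂, hst⟩ := strict_ball hDs (η := ε / 2) (half_pos hε)
    filter_upwards [claim1 _ (lt_min hr₁ hr₂), claim2 b _ (lt_min hr₁ hr₂)] with z hz hbz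
    have e1 : ∀ y : M, y ∈ c.source → inChart ℝ p (φ a) (c y) = c (φ a y) := by
      intro y hy
      show c (φ a (c.symm (c y))) = _
      rw [c.left_inv hy]
    have e2 : u (a * b) z - u a z - u b z =
        (inChart ℝ p (φ a) (c (φ b z)) - inChart ℝ p (φ a) (c z) - D (c (φ b z) - c z)) +
        (D - ContinuousLinearMap.id ℝ E) (c (φ b z) - c z) := by
      rw [e1 (φ b z) (hbz 0).1, e1 z (hz 0).1]
      simp only [hu, map_mul, Equiv.Perm.mul_apply, ContinuousLinearMap.sub_apply,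
        ContinuousLinearMap.id_apply]
      abel
    have h1 := hst (c (φ b z)) (c z) ((hbz 0).2.trans (min_le_right _ _))
      ((hz 0).2.trans (min_le_right _ _))
    have h2 : ‖πu (c (φ b z) - c z)‖ ≤ ε / (2 * K) * ‖πs (c (φ b z) - c z)‖ :=
      hcone (fun k => c (g^[k] (φ b z))) (fun k => c (g^[k] z)) (seq_step hbz) (seq_step hz)
        (fun k => (hbz k).2.trans (min_le_left _ _)) (fun k => (hz k).2.trans (min_le_left _ _))
    have h3 : (D - ContinuousLinearMap.id ℝ E) (c (φ b z) - c z) =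
        (D - ContinuousLinearMap.id ℝ E) (πu (c (φ b z) - c z)) := by
      have h4 : (D - ContinuousLinearMap.id ℝ E) (πs (c (φ b z) - c z)) = 0 := by
        rw [ContinuousLinearMap.sub_apply, ContinuousLinearMap.id_apply, hD, hder, sub_self]
      conv_lhs => rw [← hA.sum (c (φ b z) - c z), map_add, h4, zero_add]
    have h5 : ‖(D - ContinuousLinearMap.id ℝ E) (c (φ b z) - c z)‖ ≤
        ε / 2 * ‖c (φ b z) - c z‖ := by
      rw [h3]
      calc ‖(D - ContinuousLinearMap.id ℝ E) (πu (c (φ b z) - c z))‖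
          ≤ ‖D - ContinuousLinearMap.id ℝ E‖ * ‖πu (c (φ b z) - c z)‖ :=
            ContinuousLinearMap.le_opNorm _ _
        _ ≤ ‖D - ContinuousLinearMap.id ℝ E‖ * (ε / (2 * K) * (‖πs‖ * ‖c (φ b z) - c z‖)) := by
            refine mul_le_mul_of_nonneg_left (h2.trans ?_) (norm_nonneg _)
            exact mul_le_mul_of_nonneg_left (πs.le_opNorm _) (by positivity)
        _ = (‖D - ContinuousLinearMap.id ℝ E‖ * ‖πs‖) / K * (ε / 2 * ‖c (φ b z) - c z‖) := by
            field_simp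
        _ ≤ 1 * (ε / 2 * ‖c (φ b z) - c z‖) := by
            refine mul_le_mul_of_nonneg_right ?_ (by positivity)
            rw [div_le_one hK0, hK]
            linarith
        _ = _ := one_mul _
    rw [e2]
    refine (norm_add_le _ _).trans ?_
    show _ ≤ ε * ‖c (φ b z) - c z‖
    linarith
  have hone : ∀ᶠ x in 𝓝[W] p, u 1 x = 0 := Eventually.of_forall fun x => by
    simp [hu]
  have hmain := thurston hfg hab u hone hcoc γ
  -- the orbit of `w` enters `W`
  have hev := hw.eventually (nhds_small (E := E) p hr₀)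
  obtain ⟨k₀, hk₀⟩ := eventually_atTop.1 hev
  have hWin : ∀ k ≥ k₀, g^[k] w ∈ W := by
    intro k hk j
    rw [← Function.iterate_add_apply]
    exact hk₀ (j + k) (by omega)
  have htW : Tendsto (fun k : ℕ => g^[k] w) atTop (𝓝[W] p) :=
    tendsto_nhdsWithin_iff.2 ⟨hw, eventually_atTop.2 ⟨k₀, hWin⟩⟩
  obtain ⟨k, hk1, hk2, hk3⟩ := ((htW.eventually hmain).and ((htW.eventually (claim2 γ 1 one_pos)).and
    (htW.eventually (claim1 1 one_pos)))).exists
  have h1 : c (φ γ (g^[k] w)) = c (g^[k] w) := sub_eq_zero.1 hk1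
  have h2 : φ γ (g^[k] w) = g^[k] w := c.injOn (hk2 0).1 (hk3 0).1 h1
  rw [hcomk] at h2
  exact hgi.iterate k h2

end Pool.Agent.H244.Zm
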