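import Pool.Agent.H244.Zm3

/-!
# Groups whose representations of small degree are finite
-/

set_option autoImplicit false

namespace Pool.Agent.H244.Zm

open Filter Topology Set Module

/-- `Γ` is finitely generated, and every representation over `K` of degree less than `N` of a
subgroup of finite index of `Γ` has finite image. -/
def SmallReps (K : Type) [Field K] (N : ℕ) (Γ : Type*) [Group Γ] : Prop :=
  Group.FG Γ ∧ ∀ (H : Subgroup Γ) [H.FiniteIndex] (m : ℕ), m < N →
    ∀ ρ : H →* Matrix (Fin m) (Fin m) K, (Set.range ρ).Finite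

theorem SmallReps.real {N : ℕ} {Γ : Type*} [Group Γ] (h : SmallReps ℂ N Γ) : SmallReps ℝ N Γ := by
  refine ⟨h.1, fun H hH m hm ρ => ?_⟩
  let r : Matrix (Fin m) (Fin m) ℝ →* Matrix (Fin m) (Fin m) ℂ :=
    ((algebraMap ℝ ℂ).mapMatrix : Matrix (Fin m) (Fin m) ℝ →+* Matrix (Fin m) (Fin m) ℂ).toMonoidHom
  have h1 := h.2 H m hm (r.comp ρ)
  have hinj : Function.Injective r := by
    intro a b hab
    ext i j
    have := congrFun (congrFun hab i) j
    exact Complex.ofReal_injective this
  refine Set.Finite.of_finite_image (h1.subset ?_) hinj.injOn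
  rintro _ ⟨_, ⟨x, rfl⟩, rfl⟩
  exact ⟨x, rfl⟩

variable {Γ : Type*} [Group Γ]

theorem fin_rep {K : Type} [Field K] {N : ℕ} (h : SmallReps K N Γ) (H : Subgroup Γ)
    [H.FiniteIndex] {V : Type*} [AddCommGroup V] [Module K V] [FiniteDimensional K V]
    (hV : finrank K V < N) (ρ : H →* Module.End K V) : (Set.range ρ).Finite := by
  let b := Module.finBasis K V
  let τ : Module.End K V →* Matrix (Fin (finrank K V)) (Fin (finrank K V)) K :=
    (LinearMap.toMatrixAlgEquiv b : Module.End K V →* _)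
  have h1 := h.2 H _ hV (τ.comp ρ)
  have hinj : Function.Injective τ := (LinearMap.toMatrixAlgEquiv b).injective
  refine Set.Finite.of_finite_image (h1.subset ?_) hinj.injOn
  rintro _ ⟨_, ⟨x, rfl⟩, rfl⟩
  exact ⟨x, rfl⟩

theorem ker_fi {H : Type*} [Group H] {R : Type*} [Monoid R] (ρ : H →* R)
    (h : (Set.range ρ).Finite) : ρ.ker.FiniteIndex := by
  have e : ρ.ker = ρ.toHomUnits.ker := by
    ext x
    rw [MonoidHom.mem_ker, MonoidHom.mem_ker, Units.ext_iff]
    rfl
  have hf : Finite ρ.toHomUnits.range := by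
    have h12 : Finite (Set.range ρ) := h.to_subtype
    refine Finite.of_injective (fun u : ρ.toHomUnits.range => (⟨(u : Rˣ).val, by
      obtain ⟨g, hg⟩ := u.2
      exact ⟨g, by rw [← hg]; rfl⟩⟩ : Set.range ρ)) ?_
    intro u v huv
    exact Subtype.ext (Units.ext (congrArg Subtype.val huv))
  rw [e]
  exact Subgroup.finiteIndex_ker _

theorem map_fi {H : Subgroup Γ} [hH : H.FiniteIndex] {K : Subgroup H} (hK : K.FiniteIndex) :
    (K.map H.subtype).FiniteIndex := ⟨by
  rw [Subgroup.index_map_subtype]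
  exact mul_ne_zero hK.index_ne_zero hH.index_ne_zero⟩

/-- subgroups of finite index have no homomorphisms to `ℝ` -/
theorem no_hom {N : ℕ} (hN : 3 ≤ N) (h : SmallReps ℝ N Γ) (H : Subgroup Γ) [H.FiniteIndex]
    (f : H →* Multiplicative ℝ) : f = 1 := by
  ext1 g
  let ρ : H →* Matrix (Fin 2) (Fin 2) ℝ :=
    { toFun := fun h => !![1, (f h).toAdd; 0, 1]
      map_one' := by
        rw [map_one, toAdd_one, Matrix.one_fin_two]
      map_mul' := by
        intro a b
        rw [map_mul, toAdd_mul, Matrix.mul_fin_two]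
        simp [add_comm] }
  have h1 := h.2 H 2 (by omega) ρ
  by_contra hne
  have hne' : (f g).toAdd ≠ 0 := fun h0 => hne (by
    rw [MonoidHom.one_apply]
    exact Multiplicative.toAdd.injective h0)
  have hinj : Function.Injective (fun k : ℕ => ρ (g ^ k)) := by
    intro a b hab
    have h2 : (f (g ^ a)).toAdd = (f (g ^ b)).toAdd := by
      have h3 := congrFun (congrFun hab 0) 1
      simpa [ρ] using h3
    rw [map_pow f, map_pow f, toAdd_pow, toAdd_pow, nsmul_eq_mul, nsmul_eq_mul] at h2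
    exact_mod_cast mul_right_cancel₀ hne' h2
  exact Set.infinite_range_of_injective hinj (h1.subset (by
    rintro _ ⟨k, rfl⟩
    exact ⟨_, rfl⟩))

/-- also for real vector spaces -/
theorem no_hom' {N : ℕ} (hN : 3 ≤ N) (h : SmallReps ℝ N Γ) (H : Subgroup Γ) [H.FiniteIndex]
    {V : Type*} [AddCommGroup V] [Module ℝ V] (f : H →* Multiplicative V) : f = 1 := by
  ext1 g
  have key : ∀ l : V →ₗ[ℝ] ℝ, l (f g).toAdd = 0 := by
    intro l
    have h1 := no_hom hN h H
      { toFun := fun x => Multiplicative.ofAdd (l (f x).toAdd)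
        map_one' := by rw [map_one, toAdd_one, map_zero]; rfl
        map_mul' := fun a b => by rw [map_mul, toAdd_mul, map_add]; rfl }
    exact congrArg Multiplicative.toAdd (DFunLike.congr_fun h1 g)
  have h4 : (f g).toAdd = 0 := (Module.forall_dual_apply_eq_zero_iff ℝ (f g).toAdd).1 key
  rw [MonoidHom.one_apply]
  exact Multiplicative.toAdd.injective h4

/-- **Scalar centralizers.** -/
theorem scalar {n : ℕ} (hn : 3 ≤ n) (h : SmallReps ℂ n Γ) (H : Subgroup Γ) [hH : H.FiniteIndex]
    {V : Type*} [AddCommGroup V] [Module ℂ V] [FiniteDimensional ℂ V] (hV : finrank ℂ V = n)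
    (ρ : H →* Module.End ℂ V) (hinf : ¬ (Set.range ρ).Finite) (T : Module.End ℂ V)
    (hT : ∀ x, ρ x * T = T * ρ x) : ∃ μ : ℂ, ∀ v, T v = μ • v := by
  classical
  have hnt : Nontrivial V := Module.nontrivial_of_finrank_pos (R := ℂ) (by omega)
  obtain ⟨μ, hμ⟩ := Module.End.exists_eigenvalue T
  set W := Module.End.eigenspace T μ with hW
  have hinv : ∀ (x : H) (v : V), v ∈ W → ρ x v ∈ W := by
    intro x v hv
    rw [hW, Module.End.mem_eigenspace_iff] at hv ⊢
    have h1 := LinearMap.congr_fun (hT x) v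
    rw [Module.End.mul_apply, Module.End.mul_apply, hv, map_smul] at h1
    exact h1.symm
  by_cases htop : W = ⊤
  · refine ⟨μ, fun v => ?_⟩
    have : v ∈ W := by rw [htop]; trivial
    rwa [hW, Module.End.mem_eigenspace_iff] at this
  exfalso
  apply hinf
  have hWn : finrank ℂ W < n := by
    rw [← hV]
    exact Submodule.finrank_lt htop
  have hW0 : 0 < finrank ℂ W := by
    rw [Module.finrank_pos_iff]
    exact (Submodule.nontrivial_iff_ne_bot).2 hμ
  have hQn : finrank ℂ (V ⧸ W) < n := by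
    have := Submodule.finrank_quotient_add_finrank W
    omega
  -- the representations on `W` and on the quotient
  let ρ₁ : H →* Module.End ℂ W :=
    { toFun := fun x => (ρ x).restrict (hinv x)
      map_one' := by
        ext v
        simp [LinearMap.restrict_apply]
      map_mul' := by
        intro a b
        ext v
        simp [LinearMap.restrict_apply] }
  let ρ₂ : H →* Module.End ℂ (V ⧸ W) :=
    { toFun := fun x => W.mapQ W (ρ x) (fun v hv => hinv x v hv)
      map_one' := by
        ext v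
        simp
      map_mul' := by
        intro a b
        ext v
        simp }
  have hf1 := ker_fi ρ₁ (fin_rep h H hWn ρ₁)
  have hf2 := ker_fi ρ₂ (fin_rep h H hQn ρ₂)
  set K : Subgroup H := ρ₁.ker ⊓ ρ₂.ker with hK
  have hKfi : K.FiniteIndex := inferInstance
  have hK1 : ∀ k ∈ K, ∀ v ∈ W, ρ k v = v := by
    intro k hk v hv
    have h1 : ρ₁ k = 1 := hk.1
    have h2 := LinearMap.congr_fun h1 ⟨v, hv⟩
    exact congrArg Subtype.val h2
  have hK2 : ∀ k ∈ K, ∀ v, ρ k v - v ∈ W := by
    intro k hk v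
    have h1 : ρ₂ k = 1 := hk.2
    have h2 := LinearMap.congr_fun h1 (Submodule.Quotient.mk v)
    have h3 : (Submodule.Quotient.mk (ρ k v) : V ⧸ W) = Submodule.Quotient.mk v := h2
    exact (Submodule.Quotient.eq W).1 h3
  let K' : Subgroup Γ := K.map H.subtype
  have hK' : K'.FiniteIndex := map_fi hKfi
  have hKH : ∀ x : K', (x : Γ) ∈ H := by
    rintro ⟨_, ⟨y, _, rfl⟩⟩
    exact y.2
  have hKK : ∀ x : K', (⟨x, hKH x⟩ : H) ∈ K := by
    rintro ⟨_, ⟨y, hy, rfl⟩⟩
    exact hy
  let f : K' →* Multiplicative (Module.End ℂ V) :=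
    { toFun := fun x => Multiplicative.ofAdd (ρ ⟨x, hKH x⟩ - 1)
      map_one' := by
        have : (⟨((1 : K') : Γ), hKH 1⟩ : H) = 1 := rfl
        rw [this, map_one, sub_self]
        rfl
      map_mul' := by
        intro a b
        have e : (⟨((a * b : K') : Γ), hKH (a * b)⟩ : H) = ⟨a, hKH a⟩ * ⟨b, hKH b⟩ := rfl
        rw [e, map_mul, ← ofAdd_add]
        congr 1
        ext v
        have h1 := hK1 _ (hKK a) _ (hK2 _ (hKK b) v)
        rw [map_sub] at h1
        simp only [LinearMap.sub_apply, LinearMap.add_apply, Module.End.mul_apply,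
          Module.End.one_apply]
        have h2 : ρ ⟨a, hKH a⟩ (ρ ⟨b, hKH b⟩ v) = ρ ⟨b, hKH b⟩ v - v + ρ ⟨a, hKH a⟩ v := by
          rw [← h1]; abel
        rw [h2]
        abel }
  have hf : f = 1 := no_hom' hn h.real K' f
  have hker : K ≤ ρ.ker := by
    intro k hk
    have h1 := DFunLike.congr_fun hf ⟨(k : Γ), ⟨k, hk, rfl⟩⟩
    have h2 : ρ k - 1 = 0 := congrArg Multiplicative.toAdd h1
    exact sub_eq_zero.1 h2
  have hkf : ρ.ker.FiniteIndex := Subgroup.finiteIndex_of_le hker
  have hq : Finite (H ⧸ ρ.ker) := Subgroup.finite_quotient_of_finiteIndex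
  refine (Set.finite_range (fun y : H ⧸ ρ.ker => ρ y.out)).subset ?_
  rintro _ ⟨x, rfl⟩
  refine ⟨QuotientGroup.mk x, ?_⟩
  have h1 : (QuotientGroup.mk x : H ⧸ ρ.ker) = QuotientGroup.mk (QuotientGroup.mk x : H ⧸ ρ.ker).out :=
    (Quotient.out_eq' _).symm
  have h2 := QuotientGroup.eq.1 h1
  have h3 : ρ (x⁻¹ * (QuotientGroup.mk x : H ⧸ ρ.ker).out) = 1 := h2
  have h4 : ρ (x * (x⁻¹ * (QuotientGroup.mk x : H ⧸ ρ.ker).out)) = ρ x := by
    rw [map_mul, h3, mul_one]
  rwa [mul_inv_cancel_left] at h4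

end Pool.Agent.H244.Zm
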