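import Pool.Agent.H244.Zm4
import Pool.Agent.H244.Dyn

/-!
# The stabilizer of a periodic point of an Anosov diffeomorphism
-/

set_option autoImplicit false
set_option linter.unusedSectionVars false

namespace Pool.Agent.H244.Zm

open Filter Topology Set Module
open scoped Manifold ContDiff
open Pool.Agent.H721R2 Pool.Agent.H789R2.AN
open Pool.Agent.N829.PR (inChart inChart_fix inChart_diff)

/-- complexification of `scalar` -/
theorem scalar_real {Γ : Type*} [Group Γ] {n : ℕ} (hn : 3 ≤ n) (h : SmallReps ℂ n Γ)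
    (H : Subgroup Γ) [hH : H.FiniteIndex] {S : Type*} [AddCommGroup S] [Module ℝ S]
    [FiniteDimensional ℝ S] (hS : finrank ℝ S = n) (ρ : H →* Module.End ℝ S)
    (hinf : ¬ (Set.range ρ).Finite) (T : Module.End ℝ S) (hT : ∀ x, ρ x * T = T * ρ x) :
    ∃ c : ℝ, ∀ v, T v = c • v := by
  classical
  let b := Module.finBasis ℝ S
  let τ₁ : Module.End ℝ S →* Matrix (Fin (finrank ℝ S)) (Fin (finrank ℝ S)) ℝ :=
    (LinearMap.toMatrixAlgEquiv b : Module.End ℝ S →* _)
  let τ₂ : Matrix (Fin (finrank ℝ S)) (Fin (finrank ℝ S)) ℝ →*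
      Matrix (Fin (finrank ℝ S)) (Fin (finrank ℝ S)) ℂ :=
    ((algebraMap ℝ ℂ).mapMatrix : Matrix (Fin (finrank ℝ S)) (Fin (finrank ℝ S)) ℝ →+*
      Matrix (Fin (finrank ℝ S)) (Fin (finrank ℝ S)) ℂ).toMonoidHom
  let τ₃ : Matrix (Fin (finrank ℝ S)) (Fin (finrank ℝ S)) ℂ →*
      Module.End ℂ (Fin (finrank ℝ S) → ℂ) :=
    (Matrix.toLinAlgEquiv' : Matrix (Fin (finrank ℝ S)) (Fin (finrank ℝ S)) ℂ ≃ₐ[ℂ] _)
  have hi1 : Function.Injective τ₁ := (LinearMap.toMatrixAlgEquiv b).injective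
  have hi2 : Function.Injective τ₂ := by
    intro a b hab
    ext i j
    have := congrFun (congrFun hab i) j
    exact Complex.ofReal_injective this
  have hi3 : Function.Injective τ₃ :=
    (Matrix.toLinAlgEquiv' : Matrix (Fin (finrank ℝ S)) (Fin (finrank ℝ S)) ℂ ≃ₐ[ℂ] _).injective
  let τ := (τ₃.comp τ₂).comp τ₁
  have hi : Function.Injective τ := (hi3.comp hi2).comp hi1
  obtain ⟨μ, hμ⟩ := scalar hn h H (V := Fin (finrank ℝ S) → ℂ) (by simp [hS]) (τ.comp ρ) (by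
    intro hf
    apply hinf
    refine Set.Finite.of_finite_image (f := τ) (hf.subset ?_) hi.injOn
    rintro _ ⟨_, ⟨x, rfl⟩, rfl⟩
    exact ⟨x, rfl⟩) (τ T) (fun x => by
      show τ (ρ x) * τ T = τ T * τ (ρ x)
      rw [← map_mul, hT, map_mul])
  have h1 : τ₂ (τ₁ T) = μ • (1 : Matrix (Fin (finrank ℝ S)) (Fin (finrank ℝ S)) ℂ) := by
    apply hi3
    refine LinearMap.ext fun w => ?_
    have h3 : τ₃ (τ₂ (τ₁ T)) w = μ • w := hμ w
    rw [h3]
    show μ • w = Matrix.toLin' (μ • (1 : Matrix _ _ ℂ)) w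
    rw [map_smul, Matrix.toLin'_one]
    rfl
  have h2 : ∀ i j, ((τ₁ T i j : ℝ) : ℂ) = μ * (if i = j then 1 else 0) := by
    intro i j
    have := congrFun (congrFun h1 i) j
    rw [Matrix.smul_apply, Matrix.one_apply, smul_eq_mul] at this
    exact this
  have hpos : 0 < finrank ℝ S := by omega
  set c : ℝ := τ₁ T ⟨0, hpos⟩ ⟨0, hpos⟩ with hc
  have hμc : μ = c := by
    have := h2 ⟨0, hpos⟩ ⟨0, hpos⟩
    simpa using this.symm
  have h3 : τ₁ T = c • (1 : Matrix (Fin (finrank ℝ S)) (Fin (finrank ℝ S)) ℝ) := by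
    ext i j
    have := h2 i j
    rw [hμc] at this
    rw [Matrix.smul_apply, Matrix.one_apply, smul_eq_mul]
    apply Complex.ofReal_injective
    rw [this]
    split_ifs <;> simp
  have h4 : T = c • (1 : Module.End ℝ S) := by
    apply (LinearMap.toMatrixAlgEquiv b).injective
    rw [map_smul, map_one]
    exact h3
  refine ⟨c, fun v => ?_⟩
  rw [h4]
  rfl

section local_

variable {E : Type*} [NormedAddCommGroup E] [NormedSpace ℝ E]
  {M : Type*} [TopologicalSpace M] [ChartedSpace E M]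

theorem dg_inChart {p : M} {G : M → M} (hG : ContMDiff 𝓘(ℝ, E) 𝓘(ℝ, E) 1 G) (hp : G p = p) :
    fderiv ℝ (inChart (E := E) ℝ p G) (extChartAt 𝓘(ℝ, E) p p) = dg E G p := by
  have h1 : MDifferentiableAt 𝓘(ℝ, E) 𝓘(ℝ, E) G p := hG.mdifferentiableAt (by norm_num)
  have h2 : writtenInExtChartAt 𝓘(ℝ, E) 𝓘(ℝ, E) p G = inChart (E := E) ℝ p G := by
    unfold writtenInExtChartAt inChart
    rw [hp]
  unfold dg
  rw [h1.mfderiv]
  show _ = fderivWithin ℝ (writtenInExtChartAt 𝓘(ℝ, E) 𝓘(ℝ, E) p G) (range 𝓘(ℝ, E))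
    (extChartAt 𝓘(ℝ, E) p p)
  rw [h2, ModelWithCorners.range_eq_univ, fderivWithin_univ]

variable [IsManifold 𝓘(ℝ, E) 1 M]

/-- The derivatives at a common fixed point. -/
noncomputable def Dp {H : Type*} [Group H] (φ : H →* Equiv.Perm M)
    (hφ : ∀ γ, ContMDiff 𝓘(ℝ, E) 𝓘(ℝ, E) 1 (φ γ)) (p : M) (hfix : ∀ γ, φ γ p = p) :
    H →* Module.End ℝ E where
  toFun := fun h => (dg E (φ h) p : E →ₗ[ℝ] E)
  map_one' := by
    ext v
    show dg E (φ 1) p v = v
    have : ((φ 1 : Equiv.Perm M) : M → M) = id := by rw [map_one]; rfl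
    rw [this]
    show mfderiv 𝓘(ℝ, E) 𝓘(ℝ, E) id p v = v
    rw [mfderiv_id]
    rfl
  map_mul' := fun a b => by
    ext v
    show dg E (φ (a * b)) p v = dg E (φ a) p (dg E (φ b) p v)
    have : ((φ (a * b) : Equiv.Perm M) : M → M) = φ a ∘ φ b := by rw [map_mul]; rfl
    rw [this, dg_comp _ _ (hφ b) (hφ a), hfix]

theorem Dp_comm {H : Type*} [Group H] (φ : H →* Equiv.Perm M)
    (hφ : ∀ γ, ContMDiff 𝓘(ℝ, E) 𝓘(ℝ, E) 1 (φ γ)) (p : M) (hfix : ∀ γ, φ γ p = p) {G : M → M}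
    (hG : ContMDiff 𝓘(ℝ, E) 𝓘(ℝ, E) 1 G) (hp : G p = p) (hcomm : ∀ γ x, φ γ (G x) = G (φ γ x))
    (γ : H) (v : E) : Dp φ hφ p hfix γ (dg E G p v) = dg E G p (Dp φ hφ p hfix γ v) := by
  show dg E (φ γ) p (dg E G p v) = dg E G p (dg E (φ γ) p v)
  have h1 := dg_comp G (φ γ) hG (hφ γ) p v
  have h2 := dg_comp (φ γ) G (hφ γ) hG p v
  have h3 : (φ γ : M → M) ∘ G = G ∘ φ γ := funext fun x => hcomm γ x
  rw [hp] at h1
  rw [hfix] at h2
  rw [← h1, ← h2, h3]

end local_

/-- maps commuting with `A` preserve the stable space -/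
theorem pres {E : Type*} [NormedAddCommGroup E] [NormedSpace ℝ E] {A πs πu : E →L[ℝ] E}
    (h : Hyp A πs πu) (B : E →L[ℝ] E) (hB : ∀ v, B (A v) = A (B v)) (v : E) :
    πu (B (πs v)) = 0 := by
  have h1 : ∀ (j : ℕ) (x : E), 4 ^ j * ‖πu x‖ ≤ ‖πu ((A^[j]) x)‖ := by
    intro j
    induction j with
    | zero => intro x; simp
    | succ j ih =>
      intro x
      rw [Function.iterate_succ_apply]
      have h2 := ih (A x)
      have h3 := h.exp x
      rw [h.cu] at h3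
      calc (4 : ℝ) ^ (j + 1) * ‖πu x‖ = 4 ^ j * (4 * ‖πu x‖) := by ring
        _ ≤ 4 ^ j * ‖πu (A x)‖ := mul_le_mul_of_nonneg_left h3 (by positivity)
        _ ≤ _ := h2
  have h4 : ∀ (j : ℕ) (x : E), ‖(A^[j]) (πs x)‖ ≤ ‖πs x‖ := by
    intro j
    induction j with
    | zero => intro x; simp
    | succ j ih =>
      intro x
      rw [Function.iterate_succ_apply, h.cs]
      refine (ih (A x)).trans ?_
      have := h.con x
      rw [h.cs] at this
      have := norm_nonneg (πs x)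
      linarith
  have h5 : ∀ (j : ℕ) (x : E), (A^[j]) (B x) = B ((A^[j]) x) := by
    intro j
    induction j with
    | zero => intro x; rfl
    | succ j ih => intro x; rw [Function.iterate_succ_apply, Function.iterate_succ_apply, ← hB, ih]
  by_contra hne
  have hpos : 0 < ‖πu (B (πs v))‖ := norm_pos_iff.2 hne
  have hbd : ∀ j : ℕ, 4 ^ j * ‖πu (B (πs v))‖ ≤ ‖πu‖ * (‖B‖ * ‖πs v‖) := by
    intro j
    refine (h1 j _).trans ?_
    rw [h5]
    refine (πu.le_opNorm _).trans (mul_le_mul_of_nonneg_left ?_ (norm_nonneg _))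
    exact (B.le_opNorm _).trans (mul_le_mul_of_nonneg_left (h4 j v) (norm_nonneg _))
  have ht : Tendsto (fun k : ℕ => (4 : ℝ) ^ k * ‖πu (B (πs v))‖) atTop atTop :=
    (tendsto_pow_atTop_atTop_of_one_lt (by norm_num : (1 : ℝ) < 4)).atTop_mul_const hpos
  obtain ⟨k, hk⟩ := (ht.eventually_gt_atTop (‖πu‖ * (‖B‖ * ‖πs v‖))).exists
  exact absurd (hbd k) (not_le.2 hk)

section anosov

variable {E : Type*} [NormedAddCommGroup E] [NormedSpace ℝ E] [FiniteDimensional ℝ E]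
  {M : Type*} [TopologicalSpace M] [ChartedSpace E M] [IsManifold 𝓘(ℝ, E) 1 M]
  {F : Type*} [NormedAddCommGroup F] [NormedSpace ℝ F] {e : M → F}

theorem inj_bound (L : E →L[ℝ] F) (hL : Function.Injective L) :
    ∃ c > 0, ∀ v, c * ‖v‖ ≤ ‖L v‖ := by
  obtain ⟨K, hK, h⟩ := L.toLinearMap.exists_antilipschitzWith (LinearMap.ker_eq_bot.2 hL)
  refine ⟨(K : ℝ)⁻¹, by positivity, fun v => ?_⟩
  have h1 := h.le_mul_dist v 0
  simp only [dist_zero_right, map_zero] at h1
  rw [inv_mul_le_iff₀ (by exact_mod_cast hK)]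
  exact h1

/-- a power of the return map at a periodic point contracts and expands strongly -/
theorem hyp_iter (hinj : ∀ x, Function.Injective (dm E e x)) {f : M ≃ₜ M}
    {Es Eu : M → Submodule ℝ E} {C a b Ls Lu : ℝ} (h : EAnosov e f Es Eu C a b Ls Lu) {p : M}
    {k : ℕ} (hk : 1 ≤ k) (hp : f^[k] p = p) :
    ∃ L ≥ 1, ∃ πs πu : E →L[ℝ] E, Hyp (dg E (f^[k * L]) p) πs πu ∧ (∀ v, πs v ∈ Es p) ∧
      (∀ v ∈ Es p, πs v = v) ∧ (∀ v ∈ Es p, πu v = 0) ∧ (∀ v, πu v = 0 → v ∈ Es p) := by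
  obtain ⟨c, hc, hcv⟩ := inj_bound (dm E e p) (hinj p)
  set c' := ‖dm E e p‖ with hc'
  have t1 : Tendsto (fun n : ℕ => c' / c * (C * a ^ n)) atTop (𝓝 0) := by
    have := ((tendsto_pow_atTop_nhds_zero_of_lt_one h.a_pos.le h.a_lt).const_mul C).const_mul
      (c' / c)
    simpa using this
  have t2 : Tendsto (fun n : ℕ => c' / c * (C * b ^ n)) atTop (𝓝 0) := by
    have := ((tendsto_pow_atTop_nhds_zero_of_lt_one h.b_pos.le h.b_lt).const_mul C).const_mul
      (c' / c)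
    simpa using this
  have hkL : Tendsto (fun L : ℕ => k * L) atTop atTop :=
    tendsto_id.const_mul_atTop' (by omega)
  obtain ⟨L, ⟨h1, h2⟩, h3⟩ := (((hkL.eventually ((tendsto_order.mp t1).2 (1 / 4) (by norm_num))).and
    (hkL.eventually ((tendsto_order.mp t2).2 (1 / 4) (by norm_num)))).and
      (eventually_ge_atTop 1)).exists
  set n := k * L with hn
  have hpn : f^[n] p = p := by
    rw [hn, Function.iterate_mul]
    exact Function.iterate_fixed hp L
  have hpn' : f.symm^[n] p = p := by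
    conv_lhs => rw [← hpn]
    exact (Function.LeftInverse.iterate f.symm_apply_apply n) p
  set A := dg E (f^[n]) p with hA
  obtain ⟨π, hπ1, hπ2, hπ3, hπ4⟩ := Pool.Agent.H244.Loc.exists_proj (h.compl p)
  have hAs : ∀ v ∈ Es p, A v ∈ Es p := fun v hv => by
    have := h.mapS n p v hv
    rwa [hpn] at this
  have hAu : ∀ v ∈ Eu p, A v ∈ Eu p := fun v hv => by
    have := h.mapU n p v hv
    rwa [hpn] at this
  have hcs : ∀ v, A (π v) = π (A v) := by
    intro v
    have e1 : A v = A (π v) + A (v - π v) := by rw [← map_add, add_sub_cancel]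
    rw [e1, map_add, hπ1 _ (hAs _ (hπ3 v)), hπ2 _ (hAu _ (hπ4 v)), add_zero]
  have hcon : ∀ v ∈ Es p, ‖A v‖ ≤ 1 / 4 * ‖v‖ := by
    intro v hv
    have h5 := h.hS n p v hv
    rw [hpn] at h5
    have h6 := hcv (A v)
    have h7 := (dm E e p).le_opNorm v
    have h8 : c * ‖A v‖ ≤ C * a ^ n * (c' * ‖v‖) :=
      (h6.trans h5).trans (mul_le_mul_of_nonneg_left h7 (by have := h.C_pos; have := h.a_pos; positivity))
    have h9 : ‖A v‖ ≤ c' / c * (C * a ^ n) * ‖v‖ := by
      rw [← mul_le_mul_iff_right₀ hc]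
      refine h8.trans (le_of_eq ?_)
      field_simp
    exact h9.trans (mul_le_mul_of_nonneg_right h1.le (norm_nonneg _))
  have hexp : ∀ v ∈ Eu p, 4 * ‖v‖ ≤ ‖A v‖ := by
    intro v hv
    have h5 := h.hU' n p (A v) (hAu v hv)
    have h51 : dg E (f.symm^[n]) p (A v) = v := by
      have := dg_inv (f^[n]) (f.symm^[n]) (iter_smooth f h.smooth n) (iter_smooth f.symm h.smooth' n)
        (fun x => (Function.LeftInverse.iterate f.symm_apply_apply n) x) p v
      rwa [hpn] at this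
    rw [h51, hpn'] at h5
    have h6 := hcv v
    have h7 := (dm E e p).le_opNorm (A v)
    have h8 : c * ‖v‖ ≤ C * b ^ n * (c' * ‖A v‖) :=
      (h6.trans h5).trans (mul_le_mul_of_nonneg_left h7 (by have := h.C_pos; have := h.b_pos; positivity))
    have h9 : ‖v‖ ≤ c' / c * (C * b ^ n) * ‖A v‖ := by
      rw [← mul_le_mul_iff_right₀ hc]
      refine h8.trans (le_of_eq ?_)
      field_simp
    have h10 := h9.trans (mul_le_mul_of_nonneg_right h2.le (norm_nonneg _))
    linarith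
  refine ⟨L, h3, π, ContinuousLinearMap.id ℝ E - π, ?_, hπ3, hπ1, fun v hv => ?_, fun v hv => ?_⟩
  · refine ⟨fun v => by simp, hcs, fun v => ?_, fun v => hcon _ (hπ3 v), fun v => ?_⟩
    · show A (v - π v) = A v - π (A v)
      rw [map_sub, hcs]
    · exact hexp _ (by simpa using hπ4 v)
  · simp [hπ1 v hv]
  · have : v = π v := by
      have h5 : v - π v = 0 := by simpa using hv
      exact sub_eq_zero.1 h5
    rw [this]
    exact hπ3 v

end anosov

end Pool.Agent.H244.Zm
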