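import Pool.Agent.H244.Zm5

/-!
# Finite index subgroups acting trivially on stable sets
-/

set_option autoImplicit false
set_option linter.unusedSectionVars false

namespace Pool.Agent.H244.Zm

open Filter Topology Set Module
open scoped Manifold ContDiff
open Pool.Agent.H721R2 Pool.Agent.H789R2.AN
open Pool.Agent.N829.PR (inChart inChart_fix inChart_diff)

section stab

variable {M : Type*} {Γ : Type*} [Group Γ]

/-- the stabilizer of a point -/
def stab (α : Γ →* Equiv.Perm M) (p : M) : Subgroup Γ :=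
  (MulAction.stabilizer (Equiv.Perm M) p).comap α

theorem mem_stab {α : Γ →* Equiv.Perm M} {p : M} {γ : Γ} : γ ∈ stab α p ↔ α γ p = p := Iff.rfl

theorem stab_fi (α : Γ →* Equiv.Perm M) (p : M) (hp : (range fun g => α g p).Finite) :
    (stab α p).FiniteIndex := by
  have hfr : Finite (Set.range fun g => α g p) := hp.to_subtype
  have hfq : Finite (Γ ⧸ stab α p) := by
    refine Finite.of_injective
      (fun q : Γ ⧸ stab α p => (⟨α q.out p, ⟨q.out, rfl⟩⟩ : Set.range fun g => α g p)) ?_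
    intro q q' hqq
    have h1 : α q.out p = α q'.out p := congrArg Subtype.val hqq
    have h2 : q.out⁻¹ * q'.out ∈ stab α p := by
      rw [mem_stab, map_mul, map_inv, Equiv.Perm.mul_apply, ← h1]
      exact (α q.out).symm_apply_apply p
    have h3 : (QuotientGroup.mk q.out : Γ ⧸ stab α p) = QuotientGroup.mk q'.out :=
      QuotientGroup.eq.2 h2
    rwa [QuotientGroup.out_eq', QuotientGroup.out_eq'] at h3
  exact Subgroup.finiteIndex_of_finite_quotient

end stab

section local_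

variable {E : Type*} [NormedAddCommGroup E] [NormedSpace ℝ E] [FiniteDimensional ℝ E]
  {M : Type*} [TopologicalSpace M] [ChartedSpace E M] [IsManifold 𝓘(ℝ, E) 1 M]
  {Γ : Type*} [Group Γ]

/-- the representation of the stabilizer of `p` on an invariant subspace -/
noncomputable def srep (α : Γ →* Equiv.Perm M)
    (hα : ∀ γ, ContMDiff 𝓘(ℝ, E) 𝓘(ℝ, E) 1 (α γ)) (p : M) (S : Submodule ℝ E)
    (hS : ∀ γ ∈ stab α p, ∀ v ∈ S, dg E (α γ) p v ∈ S) : stab α p →* Module.End ℝ S where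
  toFun := fun γ =>
    { toFun := fun v => ⟨dg E (α γ) p v, hS γ γ.2 v v.2⟩
      map_add' := fun v w => Subtype.ext (by
        show dg E (α γ) p ((v : E) + w) = dg E (α γ) p v + dg E (α γ) p w
        rw [map_add])
      map_smul' := fun c v => Subtype.ext (by
        show dg E (α γ) p (c • (v : E)) = c • dg E (α γ) p v
        rw [map_smul]) }
  map_one' := LinearMap.ext fun v => Subtype.ext (by
    show dg E (α ((1 : stab α p) : Γ)) p v = v
    have h1 := congrArg (fun T : Module.End ℝ E => T (v : E))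
      (map_one (Dp (α.comp (stab α p).subtype) (fun γ => hα γ) p (fun γ => γ.2)))
    exact h1)
  map_mul' := fun a b => LinearMap.ext fun v => Subtype.ext (by
    show dg E (α ((a * b : stab α p) : Γ)) p v = dg E (α a) p (dg E (α b) p v)
    have h1 := congrArg (fun T : Module.End ℝ E => T (v : E))
      (map_mul (Dp (α.comp (stab α p).subtype) (fun γ => hα γ) p (fun γ => γ.2)) a b)
    exact h1)

theorem srep_apply (α : Γ →* Equiv.Perm M)
    (hα : ∀ γ, ContMDiff 𝓘(ℝ, E) 𝓘(ℝ, E) 1 (α γ)) (p : M) (S : Submodule ℝ E)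
    (hS : ∀ γ ∈ stab α p, ∀ v ∈ S, dg E (α γ) p v ∈ S) (γ : stab α p) (v : S) :
    (srep α hα p S hS γ v : E) = dg E (α γ) p v := rfl

/-- the stabilizer preserves the stable space -/
theorem stable_inv (α : Γ →* Equiv.Perm M)
    (hα : ∀ γ, ContMDiff 𝓘(ℝ, E) 𝓘(ℝ, E) 1 (α γ)) {G : M → M}
    (hG : ContMDiff 𝓘(ℝ, E) 𝓘(ℝ, E) 1 G) (hcomm : ∀ γ x, α γ (G x) = G (α γ x)) {p : M}
    (hp : G p = p) {πs πu : E →L[ℝ] E} (hA : Hyp (dg E G p) πs πu) {S : Submodule ℝ E}
    (h1 : ∀ v, πs v ∈ S) (h2 : ∀ v ∈ S, πs v = v) :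
    ∀ γ ∈ stab α p, ∀ v ∈ S, dg E (α γ) p v ∈ S := by
  intro γ hγ v hv
  have hB : ∀ w, dg E (α γ) p (dg E G p w) = dg E G p (dg E (α γ) p w) := by
    intro w
    have := Dp_comm (α.comp (stab α p).subtype) (fun γ => hα γ) p (fun γ => γ.2) hG hp
      (fun γ x => hcomm γ x) ⟨γ, hγ⟩ w
    exact this
  have h3 := pres hA (dg E (α γ) p) hB v
  rw [h2 v hv] at h3
  have h4 := hA.sum (dg E (α γ) p v)
  rw [h3, add_zero] at h4
  rw [← h4]
  exact h1 _

/-- if the representation on the stable space is finite, a subgroup of finite index acts trivially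
on the stable set -/
theorem stable_triv {N : ℕ} (hN : 3 ≤ N) (hΓ : SmallReps ℝ N Γ) (α : Γ →* Equiv.Perm M)
    (hα : ∀ γ, ContMDiff 𝓘(ℝ, E) 𝓘(ℝ, E) 1 (α γ)) {G : M → M}
    (hG : ContMDiff 𝓘(ℝ, E) 𝓘(ℝ, E) 1 G) (hGi : Function.Injective G)
    (hcomm : ∀ γ x, α γ (G x) = G (α γ x)) {p : M} (hp : G p = p)
    (hfin : (range fun g => α g p).Finite) {πs πu : E →L[ℝ] E} (hA : Hyp (dg E G p) πs πu)
    {S : Submodule ℝ E} (h1 : ∀ v, πs v ∈ S)
    (hS : ∀ γ ∈ stab α p, ∀ v ∈ S, dg E (α γ) p v ∈ S)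
    (hρ : (range (srep α hα p S hS)).Finite) :
    ∃ H₁ : Subgroup Γ, H₁.FiniteIndex ∧ ∀ γ ∈ H₁, ∀ w : M,
      Tendsto (fun k : ℕ => G^[k] w) atTop (𝓝 p) → α γ w = w := by
  have hst : (stab α p).FiniteIndex := stab_fi α p hfin
  have hK := ker_fi (srep α hα p S hS) hρ
  have hH := map_fi (H := stab α p) hK
  set H₁ : Subgroup Γ := (srep α hα p S hS).ker.map (stab α p).subtype with hH₁
  refine ⟨H₁, hH, fun γ hγ w hw => ?_⟩
  have hfg : Group.FG H₁ := by
    have : Group.FG Γ := hΓ.1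
    infer_instance
  have hle : ∀ x ∈ H₁, x ∈ stab α p := by
    rintro _ ⟨x, -, rfl⟩
    exact x.2
  have hd : ∀ x ∈ H₁, ∀ v ∈ S, dg E (α x) p v = v := by
    rintro _ ⟨x, hx, rfl⟩ v hv
    have h5 : srep α hα p S hS x = 1 := hx
    have h6 := srep_apply α hα p S hS x ⟨v, hv⟩
    rw [h5] at h6
    exact h6.symm
  exact triv_stable (E := E) hp hGi hG hA (dg_inChart hG hp) hfg
    (fun f => no_hom hN hΓ H₁ f) (α.comp H₁.subtype) (fun γ => hα γ) (fun γ x => hcomm γ x)
    (fun γ => hle γ γ.2) (fun γ v => by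
      have h7 := dg_inChart (E := E) (hα (γ : Γ)) (hle γ γ.2)
      show fderiv ℝ (inChart ℝ p (α γ)) (extChartAt 𝓘(ℝ, E) p p) (πs v) = πs v
      rw [h7]
      exact hd γ γ.2 _ (h1 v)) ⟨γ, hγ⟩ hw

end local_

section density

variable {M : Type*} [TopologicalSpace M] [T2Space M] {Γ : Type*} [Group Γ]

/-- a finite index subgroup fixing a dense set -/
theorem finite_of_dense (α : Γ →* Equiv.Perm M) (hα : ∀ γ, Continuous (α γ)) (H : Subgroup Γ)
    [hH : H.FiniteIndex] {D : Set M} (hD : Dense D) (h : ∀ γ ∈ H, ∀ x ∈ D, α γ x = x) :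
    Finite α.range := by
  have h1 : H ≤ α.ker := by
    intro γ hγ
    rw [MonoidHom.mem_ker]
    ext x
    have h2 : (α γ : M → M) = id := Continuous.ext_on hD (hα γ) continuous_id (h γ hγ)
    exact congrFun h2 x
  have h3 : α.ker.FiniteIndex := Subgroup.finiteIndex_of_le h1
  have h4 : Finite (Γ ⧸ α.ker) := Subgroup.finite_quotient_of_finiteIndex
  exact Finite.of_equiv _ (QuotientGroup.quotientKerEquivRange α).toEquiv

end density

end Pool.Agent.H244.Zm
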