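import Pool.Agent.H244.Zm6
import Pool.Graph.R_seed8.Y321.PD.Main

/-!
# Actions commuting with an Anosov diffeomorphism
-/

set_option autoImplicit false
set_option linter.unusedSectionVars false

namespace Pool.Agent.H244.Zm

open Filter Topology Set Module Metric
open scoped Manifold ContDiff
open Pool.Agent.H721R2 Pool.Agent.H789R2.AN Pool.Agent.Y321.PJ Pool.Agent.Y321.PD

section fix

variable {X : Type*} [MetricSpace X]

theorem unif_iter [CompactSpace X] (g : X ≃ₜ X) {c : ℝ} (hc : 0 < c) (m : ℕ) :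
    ∃ δ > 0, ∀ j ≤ m, ∀ x y, dist x y < δ → dist (g^[j] x) (g^[j] y) ≤ c := by
  induction m with
  | zero =>
    refine ⟨c, hc, fun j hj x y hxy => ?_⟩
    obtain rfl : j = 0 := by omega
    exact hxy.le
  | succ m ih =>
    obtain ⟨δ, hδ, h1⟩ := ih
    have hu := CompactSpace.uniformContinuous_of_continuous (g.continuous.iterate (m + 1))
    obtain ⟨δ', hδ', h2⟩ := Metric.uniformContinuous_iff.1 hu c hc
    refine ⟨min δ δ', lt_min hδ hδ', fun j hj x y hxy => ?_⟩
    rcases Nat.lt_or_ge j (m + 1) with hj' | hj'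
    · exact h1 j (by omega) x y (hxy.trans_le (min_le_left _ _))
    · obtain rfl : j = m + 1 := by omega
      exact (h2 (hxy.trans_le (min_le_right _ _))).le

/-- finitely many points of a given period -/
theorem fix_finite [CompactSpace X] {g : X ≃ₜ X} {c : ℝ} (h : LP g c) {k : ℕ} (hk : 1 ≤ k) :
    {x | g^[k] x = x}.Finite := by
  obtain ⟨δ, hδ, h1⟩ := unif_iter g h.c_pos k
  have hinj : ∀ x y, g^[k] x = x → g^[k] y = y → dist x y < δ → x = y := by
    intro x y hx hy hxy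
    refine expansive h (fun i => ?_) (fun i => ?_)
    · have e1 : g^[i % k] x = g^[i] x := Function.IsPeriodicPt.iterate_mod_apply (f := g) (n := k) hx i
      have e2 : g^[i % k] y = g^[i] y := Function.IsPeriodicPt.iterate_mod_apply (f := g) (n := k) hy i
      rw [← e1, ← e2]
      exact h1 _ (Nat.mod_lt i hk).le x y hxy
    · have e : ∀ z, g^[k] z = z → g.symm^[i] z = g^[k - i % k] z := by
        intro z hz
        have hz' : g.symm^[k] z = z := by
          have := iterL g k z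
          rwa [hz] at this
        have e1 : g.symm^[i % k] z = g.symm^[i] z :=
          Function.IsPeriodicPt.iterate_mod_apply (f := g.symm) (n := k) hz' i
        rw [← e1]
        have e2 : g^[k] z = g^[i % k] (g^[k - i % k] z) := by
          rw [← Function.iterate_add_apply]
          congr 1
          have := Nat.mod_lt i hk
          omega
        conv_lhs => rw [← hz, e2]
        exact iterL g _ _
      rw [e x hx, e y hy]
      exact h1 _ (Nat.sub_le _ _) x y hxy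
  obtain ⟨t, -, htfin, hcov⟩ := (isCompact_univ (X := X)).finite_cover_balls (half_pos hδ)
  have hch : ∀ x : X, ∃ y ∈ t, dist x y < δ / 2 := by
    intro x
    obtain ⟨y, hy, hxy⟩ := mem_iUnion₂.mp (hcov (mem_univ x))
    exact ⟨y, hy, hxy⟩
  choose f hf hfd using hch
  refine Set.Finite.of_injOn (f := f) (t := t) (fun x _ => hf x) ?_ htfin
  intro x hx y hy hxy
  apply hinj x y hx hy
  have h2 := hfd x
  have h3 := hfd y
  rw [← hxy] at h3
  have := dist_triangle x (f x) y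
  rw [dist_comm (f x) y] at this
  linarith

theorem comm_iter {X Y : Type*} {g : X → X} {σ : Y → X → X} (h : ∀ γ x, σ γ (g x) = g (σ γ x)) (γ : Y)
    (k : ℕ) (x : X) : σ γ (g^[k] x) = g^[k] (σ γ x) := by
  induction k generalizing x with
  | zero => rfl
  | succ k ih => rw [Function.iterate_succ_apply, ih, h, ← Function.iterate_succ_apply]

end fix

section main

variable {E : Type*} [NormedAddCommGroup E] [NormedSpace ℝ E] [FiniteDimensional ℝ E]
  {M : Type*} [MetricSpace M] [CompactSpace M] [ChartedSpace E M] [IsManifold 𝓘(ℝ, E) 1 M]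
  {F : Type*} [NormedAddCommGroup F] [NormedSpace ℝ F] {e : M → F} {Γ : Type*} [Group Γ]

theorem orb_fin {X : Type*} [MetricSpace X] [CompactSpace X] {g : X ≃ₜ X} {c : ℝ} (h : LP g c)
    (α : Γ →* Equiv.Perm X) (hcomm : ∀ γ x, α γ (g x) = g (α γ x)) {k : ℕ} (hk : 1 ≤ k) {p : X}
    (hp : g^[k] p = p) : (range fun γ => α γ p).Finite := by
  refine (fix_finite h hk).subset ?_
  rintro _ ⟨γ, rfl⟩
  show g^[k] (α γ p) = α γ p
  rw [← comm_iter (σ := fun γ => α γ) hcomm, hp]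

/-- a finite index subgroup acts trivially on the stable sets of the iterates of `p` -/
theorem triv_WS (hinj : ∀ x, Function.Injective (dm E e x)) {f : M ≃ₜ M}
    {Es Eu : M → Submodule ℝ E} {C a b Ls Lu : ℝ} (hE : EAnosov e f Es Eu C a b Ls Lu)
    {g : M ≃ₜ M} {n : ℕ} (hn : 1 ≤ n) (hg : g = iterHomeo f n) {c : ℝ} (hLP : LP g c)
    {N : ℕ} (hN : 3 ≤ N) (hΓ : SmallReps ℝ N Γ) (α : Γ →* Equiv.Perm M)
    (hα : ∀ γ, ContMDiff 𝓘(ℝ, E) 𝓘(ℝ, E) 1 (α γ)) (hcomm : ∀ γ x, α γ (f x) = f (α γ x))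
    {q : ℕ} (hq : 1 ≤ q) {p : M} (hp : g^[q] p = p) :
    ∃ hS : ∀ γ ∈ stab α p, ∀ v ∈ Es p, dg E (α γ) p v ∈ Es p,
      (range (srep α hα p (Es p) hS)).Finite →
        ∃ H₁ : Subgroup Γ, H₁.FiniteIndex ∧ ∀ γ ∈ H₁, ∀ (j : ℕ) (w : M),
          WS g (g.symm^[j] p) w → α γ w = w := by
  have hgf : ∀ x, g x = f^[n] x := fun x => by rw [hg]; rfl
  have hgk : ∀ (k : ℕ) (x : M), g^[k] x = f^[n * k] x := by
    intro k x
    have : (g : M → M) = f^[n] := funext hgf
    rw [this, ← Function.iterate_mul]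
  have hpf : f^[n * q] p = p := by rw [← hgk]; exact hp
  have hnq : 1 ≤ n * q := Nat.mul_pos hn hq
  obtain ⟨L, hL, πs, πu, hA, h1, h2, -, -⟩ := hyp_iter hinj hE hnq hpf
  set G : M → M := f^[n * q * L] with hG
  have hGs : ContMDiff 𝓘(ℝ, E) 𝓘(ℝ, E) 1 G := iter_smooth f hE.smooth _
  have hGi : Function.Injective G := f.injective.iterate _
  have hGc : ∀ γ x, α γ (G x) = G (α γ x) := fun γ x =>
    comm_iter (σ := fun γ => α γ) hcomm γ _ x
  have hGp : G p = p := by
    rw [hG, Function.iterate_mul]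
    exact Function.iterate_fixed hpf L
  have hgc : ∀ γ x, α γ (g x) = g (α γ x) := fun γ x => by
    rw [hgf, hgf]
    exact comm_iter (σ := fun γ => α γ) hcomm γ _ x
  have hfin := orb_fin hLP α hgc hq hp
  have hS := stable_inv α hα hGs hGc hGp hA h1 h2
  refine ⟨hS, fun hρ => ?_⟩
  obtain ⟨H₁, hH₁, hH⟩ := stable_triv hN hΓ α hα hGs hGi hGc hGp hfin hA h1 hS hρ
  refine ⟨H₁, hH₁, fun γ hγ j w hw => ?_⟩
  have hw1 : WS g p (g^[j] w) := by
    have := (WS.iter (g := g) j).2 hw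
    rwa [iterR] at this
  have hGg : ∀ (i : ℕ) (x : M), G^[i] x = g^[q * L * i] x := by
    intro i x
    rw [hgk, hG, ← Function.iterate_mul, show n * q * L * i = n * (q * L * i) by ring]
  have hqL : 1 ≤ q * L := Nat.mul_pos hq hL
  have hw2 : Tendsto (fun k : ℕ => G^[k] (g^[j] w)) atTop (𝓝 p) := by
    rw [tendsto_iff_dist_tendsto_zero]
    have h3 : Tendsto (fun i : ℕ => q * L * i) atTop atTop :=
      tendsto_id.const_mul_atTop' (by omega)
    have h4 := (show Tendsto _ _ _ from hw1).comp h3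
    refine h4.congr fun i => ?_
    show dist (g^[q * L * i] p) (g^[q * L * i] (g^[j] w)) = dist (G^[i] (g^[j] w)) p
    rw [hGg, dist_comm]
    congr 1
    rw [mul_assoc, Function.iterate_mul]
    exact Function.iterate_fixed hp _
  have h5 := hH γ hγ _ hw2
  rw [comm_iter (σ := fun γ => α γ) hgc] at h5
  exact g.injective.iterate j h5

/-- one of the two bundles is too small -/
theorem main_fin [Nonempty M] (hinj : ∀ x, Function.Injective (dm E e x)) {f : M ≃ₜ M}
    {Es Eu : M → Submodule ℝ E} {C a b Ls Lu : ℝ} (hE : EAnosov e f Es Eu C a b Ls Lu)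
    (S : HypSys M F) {n : ℕ} (hn : 1 ≤ n) (hS : S.g = iterHomeo f n)
    {N : ℕ} (hN : 3 ≤ N) (hΓ : SmallReps ℝ N Γ) (α : Γ →* Equiv.Perm M)
    (hα : ∀ γ, ContMDiff 𝓘(ℝ, E) 𝓘(ℝ, E) 1 (α γ)) (hcomm : ∀ γ x, α γ (f x) = f (α γ x))
    (hds : ∀ x, finrank ℝ (Es x) < N) : Finite α.range := by
  classical
  obtain ⟨c, hLP⟩ := exists_LP S
  have key : ∀ A : Set M, ∃ (H₁ : Subgroup Γ) (p : M), H₁.FiniteIndex ∧ (MinAtt S.g A → p ∈ A ∧
      ∀ γ ∈ H₁, ∀ (j : ℕ) (w : M), WS S.g (S.g.symm^[j] p) w → α γ w = w) := by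
    intro A
    by_cases hA : MinAtt S.g A
    · obtain ⟨K, hK⟩ := closing S hLP hA
      obtain ⟨x, hx⟩ := hA.1.nonempty
      obtain ⟨m, -, p, hpA, hm, hp, -⟩ := hK x hx 0
      obtain ⟨hSi, h1⟩ := triv_WS hinj hE hn hS hLP hN hΓ α hα hcomm hm hp
      have hst : (stab α p).FiniteIndex := stab_fi α p (orb_fin hLP α (fun γ x => by
        rw [hS]
        exact comm_iter (σ := fun γ => α γ) hcomm γ n x) hm hp)
      obtain ⟨H₁, hH₁, hH⟩ := h1 (fin_rep hΓ (stab α p) (hds p) _)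
      exact ⟨H₁, p, hH₁, fun _ => ⟨hpA, hH⟩⟩
    · exact ⟨⊤, Classical.arbitrary M, inferInstance, fun h => absurd h hA⟩
  choose H p hH hp using key
  have hAfin : Finite {A : Set M | MinAtt S.g A} := (finite_minAtt hLP).to_subtype
  have hI : (⨅ A : {A : Set M | MinAtt S.g A}, H A).FiniteIndex :=
    Subgroup.finiteIndex_iInf fun A => hH A
  refine finite_of_dense α (fun γ => (hα γ).continuous)
    (⨅ A : {A : Set M | MinAtt S.g A}, H A)
    (D := {w | ∃ A, MinAtt S.g A ∧ ∃ j : ℕ, WS S.g (S.g.symm^[j] (p A)) w}) ?_ ?_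
  · rw [dense_iff_inter_open]
    intro V hV hVn
    obtain ⟨A, hA, z, hzV, hzA⟩ := exists_bas hLP hV hVn
    obtain ⟨η, hη, hball⟩ := Metric.isOpen_iff.mp hV z hzV
    obtain ⟨k, y, hy1, -, hy3⟩ := near_stable hLP hA (hp A hA).1 hzA hη
    exact ⟨y, hball (by rw [mem_ball, dist_comm]; exact hy1), A, hA, k, hy3⟩
  · rintro γ hγ w ⟨A, hA, j, hj⟩
    have hγA : γ ∈ H A := (Subgroup.mem_iInf.1 hγ) ⟨A, hA⟩
    exact (hp A hA).2 γ hγA j w hj

/-- the extremal case -/
theorem main_scalar [Nonempty M] (hinj : ∀ x, Function.Injective (dm E e x)) {f : M ≃ₜ M}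
    {Es Eu : M → Submodule ℝ E} {C a b Ls Lu : ℝ} (hE : EAnosov e f Es Eu C a b Ls Lu)
    (S : HypSys M F) {n : ℕ} (hn : 1 ≤ n) (hS : S.g = iterHomeo f n)
    (htr : ∀ U V : Set M, IsOpen U → U.Nonempty → IsOpen V → V.Nonempty →
      ∃ n : ℕ, (S.g^[n] '' U ∩ V).Nonempty)
    {N : ℕ} (hN : 3 ≤ N) (hΓ : SmallReps ℂ N Γ) (α : Γ →* Equiv.Perm M)
    (hα : ∀ γ, ContMDiff 𝓘(ℝ, E) 𝓘(ℝ, E) 1 (α γ)) (hcomm : ∀ γ x, α γ (f x) = f (α γ x))
    (hds : ∀ x, finrank ℝ (Es x) = N) (hinf : ¬ Finite α.range) {k : ℕ} (hk : 1 ≤ k) {p : M}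
    (hp : f^[k] p = p) : ∃ c : ℝ, ∀ v ∈ Es p, dg E (f^[k]) p v = c • v := by
  classical
  obtain ⟨c₀, hLP⟩ := exists_LP S
  have hgk : ∀ (k : ℕ) (x : M), S.g^[k] x = f^[n * k] x := by
    intro k x
    have : (S.g : M → M) = f^[n] := by rw [hS]; rfl
    rw [this, ← Function.iterate_mul]
  have hgp : S.g^[k] p = p := by
    rw [hgk, mul_comm, Function.iterate_mul]
    exact Function.iterate_fixed hp n
  have hgc : ∀ γ x, α γ (S.g x) = S.g (α γ x) := fun γ x => by
    rw [hS]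
    exact comm_iter (σ := fun γ => α γ) hcomm γ n x
  obtain ⟨hSi, h1⟩ := triv_WS hinj hE hn hS hLP hN hΓ.real α hα hcomm hk hgp
  have hst : (stab α p).FiniteIndex := stab_fi α p (orb_fin hLP α hgc hk hgp)
  have hρ : ¬ (range (srep α hα p (Es p) hSi)).Finite := by
    intro hfin
    apply hinf
    obtain ⟨H₁, hH₁, hH⟩ := h1 hfin
    have hA := minAtt_univ hLP ‹Nonempty M› htr
    refine finite_of_dense α (fun γ => (hα γ).continuous) H₁
      (D := {w | ∃ j : ℕ, WS S.g (S.g.symm^[j] p) w}) ?_ ?_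
    · rw [dense_iff_inter_open]
      rintro V hV ⟨z, hzV⟩
      obtain ⟨η, hη, hball⟩ := Metric.isOpen_iff.mp hV z hzV
      obtain ⟨k, y, hy1, -, hy3⟩ := near_stable hLP hA (mem_univ p)
        (show z ∈ Bas S.g univ from ⟨z, mem_univ z, WS.refl _ _⟩) hη
      exact ⟨y, hball (by rw [mem_ball, dist_comm]; exact hy1), k, hy3⟩
    · rintro γ hγ w ⟨j, hj⟩
      exact hH γ hγ j w hj
  have hGs : ContMDiff 𝓘(ℝ, E) 𝓘(ℝ, E) 1 (f^[k]) := iter_smooth f hE.smooth _
  have hmap : ∀ v ∈ Es p, dg E (f^[k]) p v ∈ Es p := fun v hv => by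
    have := hE.mapS k p v hv
    rwa [hp] at this
  let T : Module.End ℝ (Es p) :=
    { toFun := fun v => ⟨dg E (f^[k]) p v, hmap v v.2⟩
      map_add' := fun v w => Subtype.ext (by
        show dg E (f^[k]) p ((v : E) + w) = dg E (f^[k]) p v + dg E (f^[k]) p w
        rw [map_add])
      map_smul' := fun c v => Subtype.ext (by
        show dg E (f^[k]) p (c • (v : E)) = c • dg E (f^[k]) p v
        rw [map_smul]) }
  obtain ⟨c, hc⟩ := scalar_real hN hΓ (stab α p) (S := Es p) (hds p)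
    (srep α hα p (Es p) hSi) hρ T (fun x => by
      refine LinearMap.ext fun v => Subtype.ext ?_
      show dg E (α x) p (dg E (f^[k]) p v) = dg E (f^[k]) p (dg E (α x) p v)
      exact Dp_comm (α.comp (stab α p).subtype) (fun γ => hα γ) p (fun γ => γ.2) hGs hp
        (fun γ x => comm_iter (σ := fun γ => α γ) hcomm γ k x) x v)
  refine ⟨c, fun v hv => ?_⟩
  exact congrArg Subtype.val (hc ⟨v, hv⟩)

end main

end Pool.Agent.H244.Zm
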